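import Mathlib

/-!
# FC: abstract coefficients on `G/Γ`

`G` is a topological group, `Γ` a discrete subgroup, `V` a subgroup with `V/(V ∩ Γ)` compact and
`θ` a function on `V` invariant under `V ∩ Γ`.
-/

open MeasureTheory Set Topology Filter

namespace Pool.Agent.FC.Abs

noncomputable section

variable {G : Type*} [Group G] [TopologicalSpace G] [IsTopologicalGroup G]

/-- The coefficient `∫_{V/(V ∩ Γ)} F(g⁻¹ v) θ(v) dρ(v)`. -/
def coef (Γ V : Subgroup G) [MeasurableSpace (V ⧸ Γ.subgroupOf V)]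
    (ρ : Measure (V ⧸ Γ.subgroupOf V)) (θ : G → ℂ) (F : G ⧸ Γ → ℂ) (g : G) : ℂ :=
  ∫ x : V ⧸ Γ.subgroupOf V, F (QuotientGroup.mk (g⁻¹ * (x.out : G))) * θ (x.out : G) ∂ρ

/-- The hypotheses on `V`, `ρ`, `θ`. -/
structure VData (Γ V : Subgroup G) [MeasurableSpace (V ⧸ Γ.subgroupOf V)]
    (ρ : Measure (V ⧸ Γ.subgroupOf V)) (θ : G → ℂ) : Prop where
  compact : CompactSpace (V ⧸ Γ.subgroupOf V)
  finite : IsFiniteMeasure ρ
  cont : Continuous fun v : V => θ v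
  norm_le : ∀ v ∈ V, ‖θ v‖ ≤ 1
  inv : ∀ v ∈ V, ∀ γ ∈ V, γ ∈ Γ → θ (v * γ) = θ v

variable [MeasurableSpace G]

/-- `k x` represents the evaluation at `x` of `R(h) f`: `⟪k x, f⟫ = ∫ h(g) f(g⁻¹ x) dg`. -/
structure IsKvec {X : Type*} [TopologicalSpace X] [MeasurableSpace X] [MulAction G X]
    (μ : Measure G) (ν : Measure X) (h : G → ℂ) (k : X → Lp ℂ 2 ν) : Prop where
  cont : Continuous k
  inner_eq : ∀ (F : X → ℂ) (hF : MemLp F 2 ν) (x : X),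
    inner ℂ (k x) (hF.toLp F) = ∫ g, h g * F (g⁻¹ • x) ∂μ

/-- The vector `∫ conj θ(v) k(g⁻¹ v) dρ(v)`, which represents the coefficient functional. -/
def xi {Γ V : Subgroup G} [MeasurableSpace (V ⧸ Γ.subgroupOf V)] [MeasurableSpace (G ⧸ Γ)]
    {ν : Measure (G ⧸ Γ)}
    (ρ : Measure (V ⧸ Γ.subgroupOf V)) (θ : G → ℂ) (k : G ⧸ Γ → Lp ℂ 2 ν) (g : G) : Lp ℂ 2 ν :=
  ∫ x : V ⧸ Γ.subgroupOf V,
    starRingEnd ℂ (θ (x.out : G)) • k (QuotientGroup.mk (g⁻¹ * (x.out : G))) ∂ρ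

end

end Pool.Agent.FC.Abs
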