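import Pool.Agent.FC.Defs

set_option linter.all false

namespace Pool.Agent.FC

open RestrictedProduct Filter Topology

instance compactFact (p : Nat.Primes) :
    CompactSpace (PadicInt.subring p.1 : Subring ℚ_[p.1]) := by
  have := PadicInt.compactSpace p.1
  exact this

theorem secondCountable_restricted {ι : Type*} [Countable ι] (R : ι → Type*)
    [∀ i, TopologicalSpace (R i)] (A : ∀ i, Set (R i))
    [∀ i, SecondCountableTopology (R i)] (hA : ∀ i, IsOpen (A i)) :
    SecondCountableTopology (Πʳ i, [R i, A i]) := by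
  classical
  let U : Finset ι → Set (Πʳ i, [R i, A i]) := fun S => {x | ∀ i, i ∉ S → x i ∈ A i}
  have hU : ∀ S, IsOpen (U S) := fun S => isOpen_forall_imp_mem hA
  have hcov : (⋃ S, U S) = Set.univ := by
    ext x
    simp only [Set.mem_iUnion, Set.mem_univ, iff_true]
    have hx := x.2
    rw [Filter.eventually_cofinite] at hx
    refine ⟨hx.toFinset, fun i hi => ?_⟩
    by_contra hcon
    exact hi (by rw [Set.Finite.mem_toFinset]; exact hcon)
  have hsc : ∀ S, SecondCountableTopology (U S) := by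
    intro S
    have hS : (cofinite : Filter ι) ≤ 𝓟 ((S : Set ι)ᶜ) := by
      rw [Filter.le_principal_iff, Filter.mem_cofinite, compl_compl]
      exact S.finite_toSet
    have he := isOpenEmbedding_inclusion_principal (R := R) (A := A) hA hS
    have hr : Set.range (inclusion R A hS) = U S := by
      ext x
      rw [range_inclusion]
      simp only [U, Set.mem_setOf_eq, Filter.eventually_principal, Set.mem_compl_iff,
        Finset.mem_coe]
    have hemb := (isEmbedding_coe_of_principal (R := R) (A := A) (S := (S : Set ι)ᶜ))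
    have h1 : SecondCountableTopology (Πʳ i, [R i, A i]_[𝓟 ((S : Set ι)ᶜ)]) :=
      hemb.secondCountableTopology
    have h2 := he.isEmbedding.toHomeomorph
    rw [← hr]
    exact h2.symm.isEmbedding.secondCountableTopology
  exact TopologicalSpace.secondCountableTopology_of_countable_cover hU hcov

instance : SecondCountableTopology Afin := by
  have : ∀ p : Nat.Primes, SecondCountableTopology ℚ_[p.1] := fun p => inferInstance
  exact secondCountable_restricted (fun p : Nat.Primes => ℚ_[p.1])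
    (fun p => ((PadicInt.subring p.1 : Subring ℚ_[p.1]) : Set ℚ_[p.1])) instFactOpen.out

instance : SecondCountableTopology Adele := inferInstance


@[simp] theorem ratFin_apply (q : ℚ) (p : Nat.Primes) : ratFin q p = (q : ℚ_[p.1]) := rfl

@[simp] theorem ratAdele_fst (q : ℚ) : (ratAdele q).1 = (q : ℝ) := rfl
@[simp] theorem ratAdele_snd (q : ℚ) (p : Nat.Primes) : (ratAdele q).2 p = (q : ℚ_[p.1]) := rfl

theorem ratAdele_injective : Function.Injective ratAdele := by
  intro x y h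
  have := congrArg Prod.fst h
  simpa using this

/-- integral finite adeles -/
def OF : Set Afin := {x | ∀ p : Nat.Primes, ‖x p‖ ≤ 1}

theorem isOpen_OF : IsOpen OF := isOpen_forall_mem instFactOpen.out

theorem isCompact_OF : IsCompact OF := by
  have h := isOpenEmbedding_structureMap (R := fun p : Nat.Primes => ℚ_[p.1])
    (A := fun p => ((PadicInt.subring p.1 : Subring ℚ_[p.1]) : Set ℚ_[p.1])) instFactOpen.out
  have hr : Set.range (structureMap (fun p : Nat.Primes => ℚ_[p.1])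
    (fun p => ((PadicInt.subring p.1 : Subring ℚ_[p.1]) : Set ℚ_[p.1])) cofinite) = OF := by
    ext x
    rw [range_structureMap]
    rfl
  rw [← hr]
  have : CompactSpace ((i : Nat.Primes) → ((PadicInt.subring i.1 : Subring ℚ_[i.1]) : Set ℚ_[i.1])) := by
    have : ∀ i : Nat.Primes, CompactSpace ((PadicInt.subring i.1 : Subring ℚ_[i.1]) : Set ℚ_[i.1]) :=
      fun i => compactFact i
    infer_instance
  exact isCompact_range h.continuous

theorem norm_rat_le_one_iff' {p : ℕ} [Fact p.Prime] (q : ℚ) :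
    ‖(q : ℚ_[p])‖ ≤ 1 ↔ ¬ p ∣ q.den := by
  rw [Padic.norm_rat_le_one_iff_padicValuation_le_one, Rat.padicValuation_le_one_iff]

theorem isInt_of_padic (q : ℚ) (h : ∀ p : Nat.Primes, ‖(q : ℚ_[p.1])‖ ≤ 1) : q.den = 1 := by
  by_contra hd
  obtain ⟨p, hp, hpd⟩ := Nat.exists_prime_and_dvd hd
  haveI : Fact p.Prime := ⟨hp⟩
  have h1 := h ⟨p, hp⟩
  have h2 := (norm_rat_le_one_iff' (p := p) q).mp h1
  exact h2 hpd

theorem ratFin_mem_OF_iff (q : ℚ) : ratFin q ∈ OF ↔ q.den = 1 := by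
  constructor
  · intro h; exact isInt_of_padic q h
  · intro h p
    apply Padic.norm_rat_le_one
    rw [h]
    intro hd
    exact p.2.one_lt.ne' (Nat.dvd_one.mp hd)

/-- neighbourhood of zero meeting the rationals only in zero -/
theorem exists_nhds_ratAdele : ∃ U ∈ 𝓝 (0 : Adele), ∀ q : ℚ, ratAdele q ∈ U → q = 0 := by
  refine ⟨Metric.ball (0 : ℝ) 1 ×ˢ OF, ?_, ?_⟩
  · rw [Prod.zero_eq_mk, nhds_prod_eq]
    refine Filter.prod_mem_prod (Metric.ball_mem_nhds _ one_pos) (isOpen_OF.mem_nhds ?_)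
    intro p
    simp
  · rintro q ⟨h1, h2⟩
    have h3 := (ratFin_mem_OF_iff q).mp h2
    have h4 : |(q : ℝ)| < 1 := by
      have := mem_ball_zero_iff.mp h1
      rwa [ratAdele_fst, Real.norm_eq_abs] at this
    have h5 : (q.num : ℚ) = q := by
      rw [← Rat.num_div_den q, h3]; simp
    have h6 : |q| < 1 := by exact_mod_cast h4
    rw [← h5] at h6
    have h7 : |q.num| < 1 := by exact_mod_cast h6
    have h8 : q.num = 0 := Int.abs_lt_one_iff.mp h7
    rw [← h5, h8]; simp

/-- partial fractions at one prime -/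
theorem exists_local_part (p : ℕ) [Fact p.Prime] (x : ℚ_[p]) :
    ∃ q : ℚ, ‖x - (q : ℚ_[p])‖ ≤ 1 ∧
      ∀ l : ℕ, ∀ _ : Fact l.Prime, l ≠ p → ‖(q : ℚ_[l])‖ ≤ 1 := by
  have hp : p.Prime := Fact.out
  have hp1 : (1 : ℝ) < p := by exact_mod_cast hp.one_lt
  obtain ⟨n, hn⟩ := pow_unbounded_of_one_lt ‖x‖ hp1
  have hpn : (p : ℚ_[p]) ^ n ≠ 0 := pow_ne_zero _ (by exact_mod_cast hp.ne_zero)
  have hnorm : ‖(p : ℚ_[p]) ^ n‖ = ((p : ℝ) ^ n)⁻¹ := by
    rw [norm_pow, Padic.norm_p, inv_pow]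
  have hy : ‖(p : ℚ_[p]) ^ n * x‖ ≤ 1 := by
    rw [norm_mul, hnorm]
    rw [inv_mul_le_iff₀ (by positivity)]
    linarith
  let y : ℤ_[p] := ⟨(p : ℚ_[p]) ^ n * x, hy⟩
  have ha := (PadicInt.norm_le_pow_iff_mem_span_pow (y - (y.appr n : ℤ_[p])) n).mpr (y.appr_spec n)
  set a : ℕ := y.appr n with hadef
  refine ⟨(a : ℚ) / (p : ℚ) ^ n, ?_, ?_⟩
  · have h1 : x - (((a : ℚ) / (p : ℚ) ^ n : ℚ) : ℚ_[p]) =
        (((y - (a : ℤ_[p]) : ℤ_[p])) : ℚ_[p]) / (p : ℚ_[p]) ^ n := by
      push_cast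
      field_simp
      simp only [y]
      ring
    rw [h1, norm_div, hnorm, div_inv_eq_mul]
    rw [← PadicInt.norm_def] at *
    have h2 : ((p : ℝ) ^ (-(n : ℤ))) * (p : ℝ) ^ n = 1 := by
      rw [zpow_neg, zpow_natCast]
      exact inv_mul_cancel₀ (by positivity)
    calc _ ≤ ((p : ℝ) ^ (-(n : ℤ))) * (p : ℝ) ^ n := by gcongr
      _ = 1 := h2
  · intro l hl hlp
    have hcop : Nat.Coprime p l := (Nat.coprime_primes hp hl.out).mpr (Ne.symm hlp)
    push_cast
    rw [norm_div, norm_pow]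
    have h1 : ‖(p : ℚ_[l])‖ = 1 := by
      rw [Padic.norm_natCast_eq_one_iff]
      exact hcop.symm
    rw [h1, one_pow, div_one]
    exact IsUltrametricDist.norm_natCast_le_one ℚ_[l] a

/-- every finite adele is a rational plus an integral adele -/
theorem exists_rat_sub_mem_OF (x : Afin) : ∃ q : ℚ, x - ratFin q ∈ OF := by
  classical
  have hx : {p : Nat.Primes | ¬ ‖x p‖ ≤ 1}.Finite := x.2
  choose q hq1 hq2 using fun p : Nat.Primes => exists_local_part p.1 (x p)
  refine ⟨∑ p ∈ hx.toFinset, q p, ?_⟩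
  intro l
  have h0 : (x - ratFin (∑ p ∈ hx.toFinset, q p)) l =
      x l - ((∑ p ∈ hx.toFinset, q p : ℚ) : ℚ_[l.1]) := rfl
  rw [h0]
  push_cast
  have hsum : ∀ s : Finset Nat.Primes, l ∉ s → ‖∑ p ∈ s, ((q p : ℚ) : ℚ_[l.1])‖ ≤ 1 := by
    intro s hs
    refine (IsUltrametricDist.norm_sum_le_of_forall_le_of_nonneg zero_le_one ?_)
    intro p hp
    exact hq2 p l.1 inferInstance (fun h => hs (by rwa [Nat.Primes.coe_nat_injective h]))
  have hmax : ∀ a b : ℚ_[l.1], ‖a‖ ≤ 1 → ‖b‖ ≤ 1 → ‖a - b‖ ≤ 1 := fun a b ha hb =>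
    (PadicInt.subring l.1).sub_mem ha hb
  by_cases hl : l ∈ hx.toFinset
  · rw [← Finset.add_sum_erase _ _ hl, ← sub_sub]
    exact hmax _ _ (hq1 l) (hsum _ (Finset.notMem_erase _ _))
  · have hl' : ‖x l‖ ≤ 1 := by
      by_contra hcon
      exact hl (by rw [Set.Finite.mem_toFinset]; exact hcon)
    exact hmax _ _ hl' (hsum _ hl)

/-- every adele is a rational plus an element of [0,1) x integral -/
theorem exists_rat_sub_mem (x : Adele) : ∃ q : ℚ, (x - ratAdele q).1 ∈ Set.Ico (0 : ℝ) 1 ∧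
    (x - ratAdele q).2 ∈ OF := by
  obtain ⟨q, hq⟩ := exists_rat_sub_mem_OF x.2
  refine ⟨q + ⌊x.1 - q⌋, ?_, ?_⟩
  · have h : (x - ratAdele (q + ⌊x.1 - q⌋)).1 = Int.fract (x.1 - q) := by
      rw [Prod.fst_sub, ratAdele_fst]
      push_cast
      rw [Int.fract]; ring
    rw [h]
    exact ⟨Int.fract_nonneg _, Int.fract_lt_one _⟩
  · have h : (x - ratAdele (q + ⌊x.1 - q⌋)).2 = (x.2 - ratFin q) - ratFin (⌊x.1 - q⌋ : ℤ) := by
      rw [Prod.snd_sub]
      change x.2 - ratFin (q + ⌊x.1 - q⌋) = _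
      rw [map_add, sub_add_eq_sub_sub]
    rw [h]
    intro p
    refine (PadicInt.subring p.1).sub_mem (hq p) ?_
    have := (ratFin_mem_OF_iff ((⌊x.1 - q⌋ : ℤ) : ℚ)).mpr (by simp)
    have h2 := this p
    simpa using h2

end Pool.Agent.FC
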