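import Pool.Agent.FC.AdeleBasic

set_option linter.all false

namespace Pool.Agent.FC

open RestrictedProduct Filter Topology Matrix

section general

variable {l : Type*} [DecidableEq l] [Fintype l] {R : Type*} [CommRing R] [TopologicalSpace R]
  [IsTopologicalRing R]

instance symplecticTopGroup : IsTopologicalGroup (symplecticGroup l R) where
  continuous_mul := by
    refine Continuous.subtype_mk ?_ _
    exact (continuous_subtype_val.comp continuous_fst).matrix_mul
      (continuous_subtype_val.comp continuous_snd)
  continuous_inv := by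
    refine Continuous.subtype_mk ?_ _
    exact (continuous_const.matrix_mul (continuous_subtype_val.matrix_transpose)).matrix_mul
      continuous_const

theorem isClosed_symplectic [T2Space R] :
    IsClosed ((symplecticGroup l R : Submonoid _) : Set (Matrix (l ⊕ l) (l ⊕ l) R)) := by
  have : ((symplecticGroup l R : Submonoid _) : Set (Matrix (l ⊕ l) (l ⊕ l) R)) =
      {A | A * J l R * Aᵀ = J l R} := rfl
  rw [this]
  exact isClosed_eq ((continuous_id.matrix_mul continuous_const).matrix_mul
    continuous_id.matrix_transpose) continuous_const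

instance symplecticT2 [T2Space R] : T2Space (symplecticGroup l R) := inferInstance

instance symplecticLC [T2Space R] [LocallyCompactSpace R] :
    LocallyCompactSpace (symplecticGroup l R) := by
  have h : LocallyCompactSpace (Matrix (l ⊕ l) (l ⊕ l) R) :=
    inferInstanceAs (LocallyCompactSpace ((l ⊕ l) → (l ⊕ l) → R))
  exact (isClosed_symplectic (l := l) (R := R)).isClosedEmbedding_subtypeVal.locallyCompactSpace

instance symplecticSC [SecondCountableTopology R] :
    SecondCountableTopology (symplecticGroup l R) := by
  have h : SecondCountableTopology (Matrix (l ⊕ l) (l ⊕ l) R) :=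
    inferInstanceAs (SecondCountableTopology ((l ⊕ l) → (l ⊕ l) → R))
  exact TopologicalSpace.Subtype.secondCountableTopology _

end general

noncomputable example (n : ℕ) : Group (GA n) := inferInstance
example (n : ℕ) : IsTopologicalGroup (GA n) := inferInstance
example (n : ℕ) : T2Space (GA n) := inferInstance
example (n : ℕ) : LocallyCompactSpace (GA n) := inferInstance
example (n : ℕ) : SecondCountableTopology (GA n) := inferInstance

noncomputable instance (n : ℕ) : MeasurableSpace (GA n) := borel _
instance (n : ℕ) : BorelSpace (GA n) := ⟨rfl⟩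

theorem exists_nhds_one_GQ (n : ℕ) : ∃ U ∈ 𝓝 (1 : GA n), ∀ g ∈ GQ n, g ∈ U → g = 1 := by
  obtain ⟨U, hU, hU0⟩ := exists_nhds_ratAdele
  let F : GA n → ((Fin n ⊕ Fin n) → (Fin n ⊕ Fin n) → Adele) := fun g i j => g.1 i j - (1 : Matrix _ _ Adele) i j
  have hF : Continuous F := by
    refine continuous_pi fun i => continuous_pi fun j => ?_
    exact (continuous_subtype_val.matrix_elem i j).sub continuous_const
  have hF1 : F 1 = 0 := by
    funext i j
    simp [F]
  have hset : (Set.univ.pi fun _ : (Fin n ⊕ Fin n) => Set.univ.pi fun _ : (Fin n ⊕ Fin n) => U) ∈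
      𝓝 (F 1) := by
    rw [hF1]
    refine set_pi_mem_nhds Set.finite_univ fun i _ => set_pi_mem_nhds Set.finite_univ fun j _ => hU
  refine ⟨_, hF.continuousAt.preimage_mem_nhds hset, ?_⟩
  rintro g ⟨γ, rfl⟩ hg
  have h1 : ∀ i j, F (spMap n ratAdele γ) i j ∈ U := fun i j => (hg i trivial) j trivial
  have h2 : γ = 1 := by
    apply Subtype.ext
    funext i j
    have h3 : F (spMap n ratAdele γ) i j = ratAdele (γ.1 i j - (1 : Matrix _ _ ℚ) i j) := by
      simp only [F, spMap, MonoidHom.coe_mk, OneHom.coe_mk, Matrix.map_apply, map_sub]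
      congr 1
      rw [Matrix.one_apply, Matrix.one_apply]
      split_ifs <;> simp
    have h4 := hU0 _ (h3 ▸ h1 i j)
    exact sub_eq_zero.mp h4
  rw [h2, map_one]

instance discreteGQ (n : ℕ) : DiscreteTopology (GQ n) := by
  obtain ⟨U, hU, hU1⟩ := exists_nhds_one_GQ n
  refine discreteTopology_of_isOpen_singleton_one ?_
  obtain ⟨V, hVU, hV, hV1⟩ := mem_nhds_iff.mp hU
  have h : ({1} : Set (GQ n)) = Subtype.val ⁻¹' V := by
    ext g
    simp only [Set.mem_singleton_iff, Set.mem_preimage]
    constructor
    · rintro rfl; exact hV1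
    · intro hg
      exact Subtype.ext (hU1 g.1 g.2 (hVU hg))
  rw [h]
  exact hV.preimage continuous_subtype_val

instance countableGQ (n : ℕ) : Countable (GQ n) := by
  have : Countable (symplecticGroup (Fin n) ℚ) := by
    have : Countable (Matrix (Fin n ⊕ Fin n) (Fin n ⊕ Fin n) ℚ) :=
      inferInstanceAs (Countable ((Fin n ⊕ Fin n) → (Fin n ⊕ Fin n) → ℚ))
    infer_instance
  exact (MonoidHom.rangeRestrict_surjective (spMap n ratAdele)).countable

end Pool.Agent.FC
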