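import Pool.Agent.FC.Base

/-!
fc_h91.md section 1: the order `Aord`.
-/

open RestrictedProduct Matrix MeasureTheory

noncomputable section

namespace Pool.Agent.FC

namespace AordL

theorem bd_nonneg (i j : Fin 6 ⊕ Fin 6) : 0 ≤ bd i j := by
  rcases i with i | i <;> rcases j with j | j <;> simp [bd]

theorem bd_mul (i j k : Fin 6 ⊕ Fin 6) : bd i k * bd k j ≤ bd i j := by
  rcases i with i | i <;> rcases j with j | j <;> rcases k with k | k <;> norm_num [bd]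

theorem norm_sum_le {ι : Type*} (s : Finset ι) (f : ι → ℚ_[(p3 : ℕ)]) {C : ℝ} (hC : 0 ≤ C)
    (h : ∀ i ∈ s, ‖f i‖ ≤ C) : ‖∑ i ∈ s, f i‖ ≤ C :=
  IsUltrametricDist.norm_sum_le_of_forall_le_of_nonneg hC h

theorem norm_three : ‖(3 : ℚ_[(p3 : ℕ)])‖ = 1 / 3 := by
  have := Padic.norm_p (p := (p3 : ℕ))
  simpa using this

theorem norm_int_le (z : ℤ) : ‖(z : ℚ_[(p3 : ℕ)])‖ ≤ 1 := Padic.norm_int_le_one z

/-- the blocks of the adjoint -/
theorem adj_blocks (a b c d : Matrix (Fin 6) (Fin 6) ℚ_[(p3 : ℕ)]) :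
    -J (Fin 6) _ * (fromBlocks a b c d)ᵀ * J (Fin 6) _ = fromBlocks dᵀ (-bᵀ) (-cᵀ) aᵀ := by
  rw [neg_mul, neg_mul, J, fromBlocks_transpose, fromBlocks_multiply, fromBlocks_multiply,
    fromBlocks_neg]
  simp

theorem X3_eq : X3 = fromBlocks 0 ((1 / 9 : ℚ_[(p3 : ℕ)]) • S2.map (Int.cast : ℤ → ℚ_[(p3 : ℕ)]))
    ((1 / 3 : ℚ_[(p3 : ℕ)]) • S1.map (Int.cast : ℤ → ℚ_[(p3 : ℕ)])) 0 := by
  ext i j
  rcases i with i | i <;> rcases j with j | j <;> simp [X3, Xq, red]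

end AordL

open AordL

theorem Aord_add {M N : Mat 6 ℚ_[(p3 : ℕ)]} (hM : M ∈ Aord) (hN : N ∈ Aord) : M + N ∈ Aord :=
  fun i j => (Padic.nonarchimedean _ _).trans (max_le (hM i j) (hN i j))

theorem Aord_zero : (0 : Mat 6 ℚ_[(p3 : ℕ)]) ∈ Aord := fun i j => by
  rw [Matrix.zero_apply, norm_zero]
  exact bd_nonneg i j

theorem Aord_smul {c : ℚ_[(p3 : ℕ)]} (hc : ‖c‖ ≤ 1) {M : Mat 6 ℚ_[(p3 : ℕ)]} (hM : M ∈ Aord) :
    c • M ∈ Aord := fun i j => by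
  rw [Matrix.smul_apply, smul_eq_mul, norm_mul]
  calc ‖c‖ * ‖M i j‖ ≤ 1 * bd i j := mul_le_mul hc (hM i j) (norm_nonneg _) zero_le_one
    _ = bd i j := one_mul _

theorem Aord_mul {M N : Mat 6 ℚ_[(p3 : ℕ)]} (hM : M ∈ Aord) (hN : N ∈ Aord) : M * N ∈ Aord :=
  fun i j => by
  rw [Matrix.mul_apply]
  refine norm_sum_le _ _ (bd_nonneg i j) fun k _ => ?_
  rw [norm_mul]
  exact (mul_le_mul (hM i k) (hN k j) (norm_nonneg _) (bd_nonneg i k)).trans (bd_mul i j k)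

/-- the adjoint involution preserves the order -/
theorem Aord_adj {M : Mat 6 ℚ_[(p3 : ℕ)]} (hM : M ∈ Aord) :
    -J (Fin 6) _ * Mᵀ * J (Fin 6) _ ∈ Aord := by
  rw [← fromBlocks_toBlocks M, adj_blocks]
  rintro (i | i) (j | j)
  · simpa [toBlocks₂₂, bd] using hM (Sum.inr j) (Sum.inr i)
  · simpa [toBlocks₁₂, bd] using hM (Sum.inl j) (Sum.inr i)
  · simpa [toBlocks₂₁, bd] using hM (Sum.inr j) (Sum.inl i)
  · simpa [toBlocks₁₁, bd] using hM (Sum.inl j) (Sum.inl i)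

/-- `tr(X M N) ∈ ℤ₃` -/
theorem trace_Aord {M N : Mat 6 ℚ_[(p3 : ℕ)]} (hM : M ∈ Aord) (hN : N ∈ Aord) :
    ‖Matrix.trace (X3 * (M * N))‖ ≤ 1 := by
  have hsum : Matrix.trace (X3 * (M * N)) = ∑ i, ∑ j, ∑ k, X3 i j * (M j k * N k i) := by
    simp only [Matrix.trace, Matrix.diag_apply, Matrix.mul_apply, Finset.mul_sum]
  rw [hsum]
  refine norm_sum_le _ _ zero_le_one fun i _ => norm_sum_le _ _ zero_le_one fun j _ =>
    norm_sum_le _ _ zero_le_one fun k _ => ?_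
  rw [norm_mul, norm_mul]
  have h9 : ‖(1 / 9 : ℚ_[(p3 : ℕ)])‖ = 9 := by
    rw [show (9 : ℚ_[(p3 : ℕ)]) = 3 * 3 by norm_num, norm_div, norm_mul, norm_three, norm_one]
    norm_num
  have h3 : ‖(1 / 3 : ℚ_[(p3 : ℕ)])‖ = 3 := by
    rw [norm_div, norm_three, norm_one]
    norm_num
  have hMjk := hM j k
  have hNki := hN k i
  have hMN : ‖M j k‖ * ‖N k i‖ ≤ bd j k * bd k i :=
    mul_le_mul hMjk hNki (norm_nonneg _) (bd_nonneg j k)
  have h0 : 0 ≤ ‖M j k‖ * ‖N k i‖ := by positivity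
  rw [X3_eq]
  rcases i with i | i <;> rcases j with j | j
  · simp
  · rw [fromBlocks_apply₁₂, Matrix.smul_apply, Matrix.map_apply, smul_eq_mul, norm_mul, h9]
    have h1 := norm_int_le (S2 i j)
    have h2 : bd (Sum.inr j) k * bd k (Sum.inl i) ≤ 1 / 9 := by
      rcases k with k | k <;> norm_num [bd]
    calc 9 * ‖((S2 i j : ℤ) : ℚ_[(p3 : ℕ)])‖ * (‖M (Sum.inr j) k‖ * ‖N k (Sum.inl i)‖)
        ≤ 9 * 1 * (1 / 9) := by
          refine mul_le_mul (by linarith) (hMN.trans h2) h0 (by norm_num)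
      _ = 1 := by norm_num
  · rw [fromBlocks_apply₂₁, Matrix.smul_apply, Matrix.map_apply, smul_eq_mul, norm_mul, h3]
    have h1 := norm_int_le (S1 i j)
    have h2 : bd (Sum.inl j) k * bd k (Sum.inr i) ≤ 1 / 3 := by
      rcases k with k | k <;> norm_num [bd]
    calc 3 * ‖((S1 i j : ℤ) : ℚ_[(p3 : ℕ)])‖ * (‖M (Sum.inl j) k‖ * ‖N k (Sum.inr i)‖)
        ≤ 3 * 1 * (1 / 3) := by
          refine mul_le_mul (by linarith) (hMN.trans h2) h0 (by norm_num)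
      _ = 1 := by norm_num
  · simp

end Pool.Agent.FC
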