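import Pool.Agent.FC.Defs

/-!
# Project FC, shared auxiliary definitions (explicit data, local data at `3`, the group `U`)
-/

open RestrictedProduct Matrix MeasureTheory

noncomputable section

namespace Pool.Agent.FC

/-! ### Explicit data -/

/-- symmetric form on `P` -/
def S1 : Matrix (Fin 6) (Fin 6) ℤ :=
  !![0, 1, 0, 0, 0, 0;
     1, 0, -1, 0, 0, 0;
     0, -1, 0, 0, 0, -1;
     0, 0, 0, -1, 0, 0;
     0, 0, 0, 0, -1, 1;
     0, 0, -1, 0, 1, 0]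

/-- symmetric form on `Q` -/
def S2 : Matrix (Fin 6) (Fin 6) ℤ :=
  !![0, -1, 0, 0, 0, -1;
     -1, 0, 1, 0, 0, 0;
     0, 1, 0, 1, 0, 0;
     0, 0, 1, 0, 1, -1;
     0, 0, 0, 1, 1, 0;
     -1, 0, 0, -1, 0, 1]

/-- reduction of an integral matrix -/
abbrev red (K : Type*) [Ring K] (S : Matrix (Fin 6) (Fin 6) ℤ) : Matrix (Fin 6) (Fin 6) K :=
  S.map (Int.cast : ℤ → K)

/-- The element `X` of `sp_12(ℚ)`. -/
def Xq : Mat 6 ℚ := Matrix.fromBlocks 0 ((1 / 9 : ℚ) • red ℚ S2) ((1 / 3 : ℚ) • red ℚ S1) 0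

/-- weights on `P` of `h₁` -/
def wa : Fin 6 → ℤ := ![7, -5, 3, -1, 1, -1]
/-- weights on `P` of `h₂` -/
def wb : Fin 6 → ℤ := ![-5, 5, -3, 1, -1, 3]
/-- weights on `P ⊕ Q` -/
def wt (a : Fin 6 → ℤ) : Fin 6 ⊕ Fin 6 → ℤ := Sum.elim a (fun i => - a i)

/-- the diagonal element with weights `a` -/
def hdiag (R : Type*) [CommRing R] (a : Fin 6 → ℤ) : Mat 6 R :=
  Matrix.diagonal (fun i => ((wt a i : ℤ) : R))

/-- the component of weight `-2` of `X` -/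
def fq (a : Fin 6 → ℤ) : Mat 6 ℚ := Matrix.of fun i j => if wt a i - wt a j = -2 then Xq i j else 0

/-- the common order of the twelve coordinates (`rk i` = position of `i`):
`p1,q2,p3,q6,q4,p5,q5,p4,p6,q3,p2,q1` -/
def rk : Fin 6 ⊕ Fin 6 → ℕ := Sum.elim ![0, 10, 2, 7, 5, 8] ![11, 1, 9, 4, 6, 3]

/-! ### Components of adelic matrices -/

/-- the prime `3` -/
abbrev p3 : Nat.Primes := ⟨3, Nat.prime_three⟩

/-- component at a prime -/
def evp (p : Nat.Primes) : Adele →+* ℚ_[(p : ℕ)] :=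
  (RestrictedProduct.evalRingHom (fun p : Nat.Primes => ℚ_[(p : ℕ)]) p).comp (RingHom.snd ℝ Afin)

/-- real component -/
def evR : Adele →+* ℝ := RingHom.fst ℝ Afin

/-- the component of `g` at the prime `p` -/
def gp {n : ℕ} (g : GA n) (p : Nat.Primes) : Mat n ℚ_[(p : ℕ)] := (g : Mat n Adele).map (evp p)

/-- the real component of `g` -/
def gR {n : ℕ} (g : GA n) : Mat n ℝ := (g : Mat n Adele).map evR

/-- the embedding of `ℚ₃` in the adeles -/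
def iota3 (x : ℚ_[(p3 : ℕ)]) : Adele :=
  (0, RestrictedProduct.single (fun p : Nat.Primes => PadicInt.subring (p : ℕ)) p3 x)

/-! ### The order at `3` -/

/-- bound for the entries of the order `𝔄`: entries of the block `(P, Q)` are integral, all other
entries are divisible by `3` -/
def bd : Fin 6 ⊕ Fin 6 → Fin 6 ⊕ Fin 6 → ℝ
  | Sum.inl _, Sum.inr _ => 1
  | _, _ => 1 / 3

/-- the (non-unital) order `𝔄` -/
def Aord : Set (Mat 6 ℚ_[(p3 : ℕ)]) := {M | ∀ i j, ‖M i j‖ ≤ bd i j}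

/-- `X` over `ℚ₃` -/
def X3 : Mat 6 ℚ_[(p3 : ℕ)] := Xq.map (Rat.cast : ℚ → ℚ_[(p3 : ℕ)])

/-- Standard additive characters of `𝔸/ℚ` -/
structure IsStd (ψ : AddChar Adele Circle) : Prop where
  cont : Continuous ψ
  rat : ∀ q : ℚ, ψ (ratAdele q) = 1
  int : ∀ z : Afin, (∀ p, ‖z p‖ ≤ 1) → ψ (0, z) = 1
  real : ∀ x : ℝ, ((ψ (x, 0) : Circle) : ℂ) = Complex.exp (2 * Real.pi * Complex.I * x)

/-- `χ(g) = ψ₃(tr(X (g₃ - 1)))` -/
def chi (ψ : AddChar Adele Circle) (g : GA 6) : Circle :=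
  ψ (iota3 (Matrix.trace (X3 * (gp g p3 - 1))))

/-- the set `U`: integral at all primes, and in `J₃` at `3`; no condition at infinity -/
def USet : Set (GA 6) := {g | (∀ p i j, ‖gp g p i j‖ ≤ 1) ∧ gp g p3 - 1 ∈ Aord}

/-! ### Linear algebra notions -/

/-- the symplectic form -/
def symp {n : ℕ} {R : Type*} [CommRing R] (v w : Fin n ⊕ Fin n → R) : R :=
  v ⬝ᵥ (J (Fin n) R *ᵥ w)

/-- `z ↦ ⟨z,u⟩ v + ⟨z,v⟩ u` -/
def Zmat {n : ℕ} {R : Type*} [CommRing R] (v u : Fin n ⊕ Fin n → R) : Mat n R :=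
  Matrix.vecMulVec v (J (Fin n) R *ᵥ u) + Matrix.vecMulVec u (J (Fin n) R *ᵥ v)

/-- the chain `t, A t, B A t, A B A t, ...` -/
def chn {R : Type*} [CommRing R] (A B : Matrix (Fin 6) (Fin 6) R) (t : Fin 6 → R) :
    ℕ → Fin 6 → R
  | 0 => t
  | (k + 1) => (if Even k then A else B) *ᵥ chn A B t k

/-- `true` for vectors of type `P` (form `S1`), `false` for vectors of type `Q` (form `S2`) -/
def Sof (b : Bool) : Matrix (Fin 6) (Fin 6) (ZMod 3) := if b then red (ZMod 3) S1 else red (ZMod 3) S2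

/-- eigenspace of `h` -/
def Ewt {n : ℕ} {K : Type*} [Field K] (h : Mat n K) (i : ℤ) : Submodule K (Fin n ⊕ Fin n → K) where
  carrier := {v | h *ᵥ v = (i : K) • v}
  add_mem' := by
    intro a b ha hb
    simp only [Set.mem_ofPred_eq] at ha hb ⊢
    rw [Matrix.mulVec_add, ha, hb, smul_add]
  zero_mem' := by simp
  smul_mem' := by
    intro c a ha
    simp only [Set.mem_ofPred_eq] at ha ⊢
    rw [Matrix.mulVec_smul, ha, smul_comm]

/-- the filtration by weights `≥ i` -/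
def Fil {n : ℕ} {K : Type*} [Field K] (h : Mat n K) (i : ℤ) : Submodule K (Fin n ⊕ Fin n → K) :=
  ⨆ j : {j : ℤ // i ≤ j}, Ewt h j

/-- `sl₂`-triples in `sp_{2n}(K)` -/
structure IsTriple {n : ℕ} {K : Type*} [CommRing K] (e h f : Mat n K) : Prop where
  e_mem : e * J (Fin n) K + J (Fin n) K * eᵀ = 0
  h_mem : h * J (Fin n) K + J (Fin n) K * hᵀ = 0
  f_mem : f * J (Fin n) K + J (Fin n) K * fᵀ = 0
  he : h * e - e * h = 2 • e
  hf : h * f - f * h = -(2 • f)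
  ef : e * f - f * e = h

/-- `Y` is a perturbation of `X` over `ℚ₃` not changing the graded maps -/
def NearX (Y : Mat 6 ℚ_[(p3 : ℕ)]) : Prop :=
  (∀ i j, ‖Y (Sum.inr i) (Sum.inl j) - X3 (Sum.inr i) (Sum.inl j)‖ ≤ 1) ∧
  (∀ i j, ‖Y (Sum.inl i) (Sum.inr j) - X3 (Sum.inl i) (Sum.inr j)‖ ≤ 3) ∧
  (∀ i j, ‖Y (Sum.inl i) (Sum.inl j)‖ ≤ 3) ∧ (∀ i j, ‖Y (Sum.inr i) (Sum.inr j)‖ ≤ 3)

end Pool.Agent.FC
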