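import Mathlib

/-!
# Project FC, Bump: bump functions at the identity of a locally compact group
-/

set_option linter.all false

namespace Pool.Agent.FC

open Topology Set Pointwise

/-- a symmetric bump function at the identity -/
theorem exists_bump {G : Type*} [Group G] [TopologicalSpace G] [IsTopologicalGroup G]
    [LocallyCompactSpace G] {U : Set G} (hU : U ∈ 𝓝 (1 : G)) :
    ∃ h : G → ℝ, Continuous h ∧ HasCompactSupport h ∧ tsupport h ⊆ U ∧ (∀ g, 0 ≤ h g) ∧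
      (∀ g, h g ≤ 1) ∧ h 1 = 1 ∧ (∀ g, h g⁻¹ = h g) ∧ ∀ g, h g ≠ 0 → g ∈ U := by
  obtain ⟨V, hVU, hV, hV1⟩ := mem_nhds_iff.1 hU
  obtain ⟨f, hf1, hfc, hfV, hf01⟩ := exists_continuousMap_one_of_isCompact_subset_isOpen
    (isCompact_singleton (x := (1 : G))) hV (singleton_subset_iff.2 hV1)
  have hts : tsupport (fun g => f g * f g⁻¹) ⊆ U :=
    (tsupport_mul_subset_left.trans hfV).trans hVU
  refine ⟨fun g => f g * f g⁻¹, ?_, ?_, hts, fun g => ?_, fun g => ?_, ?_, fun g => ?_,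
    fun g hg => hts (subset_tsupport _ hg)⟩
  · exact f.continuous.mul (f.continuous.comp continuous_inv)
  · exact HasCompactSupport.mul_right hfc
  · exact mul_nonneg (hf01 g).1 (hf01 g⁻¹).1
  · exact mul_le_one₀ (hf01 g).2 (hf01 g⁻¹).1 (hf01 g⁻¹).2
  · have h1 : f 1 = 1 := hf1 (mem_singleton _)
    simp only [inv_one, h1, mul_one]
  · simp only [inv_inv]
    exact mul_comm _ _

/-- a symmetric compact neighbourhood `B` of the identity with `B * B ⊆ U` and a symmetric bump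
function with support in `B` -/
theorem exists_bump_nhds {G : Type*} [Group G] [TopologicalSpace G] [IsTopologicalGroup G]
    [LocallyCompactSpace G] [T2Space G] {U : Set G} (hU : U ∈ 𝓝 (1 : G)) :
    ∃ (B : Set G) (h : G → ℝ), IsCompact B ∧ B ∈ 𝓝 (1 : G) ∧ B⁻¹ = B ∧ B * B ⊆ U ∧
      Continuous h ∧ HasCompactSupport h ∧ tsupport h ⊆ B ∧ (∀ g, 0 ≤ h g) ∧
      (∀ g, h g ≤ 1) ∧ h 1 = 1 ∧ (∀ g, h g⁻¹ = h g) ∧ ∀ g, h g ≠ 0 → g ∈ B := by
  obtain ⟨V, hVo, hV1, hVU⟩ := exists_open_nhds_one_mul_subset hU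
  obtain ⟨K, hKn, hKV, hK⟩ := local_compact_nhds (hVo.mem_nhds hV1)
  have hB : K ∩ K⁻¹ ∈ 𝓝 (1 : G) := by
    refine Filter.inter_mem hKn ?_
    have h1 := inv_mem_nhds_one G hKn
    exact h1
  obtain ⟨h, h1, h2, h3, h4, h5, h6, h7, h8⟩ := exists_bump hB
  refine ⟨K ∩ K⁻¹, h, hK.inter hK.inv, hB, ?_, ?_, h1, h2, h3, h4, h5, h6, h7, h8⟩
  · rw [inter_inv, inv_inv, inter_comm]
  · exact (mul_subset_mul (inter_subset_left.trans hKV) (inter_subset_left.trans hKV)).trans hVU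

/-- the integral of a bump function is positive -/
theorem bump_integral_pos {G : Type*} [Group G] [TopologicalSpace G] [IsTopologicalGroup G]
    [MeasurableSpace G] [BorelSpace G] (ν : MeasureTheory.Measure G)
    [ν.IsOpenPosMeasure] [MeasureTheory.IsFiniteMeasureOnCompacts ν] {h : G → ℝ}
    (hc : Continuous h) (hs : HasCompactSupport h) (h0 : ∀ g, 0 ≤ h g) (h1 : h 1 ≠ 0) :
    0 < ∫ g, h g ∂ν :=
  hc.integral_pos_of_hasCompactSupport_nonneg_nonzero hs h0 h1

end Pool.Agent.FC
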