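import Pool.Agent.FC.PsiStd

set_option linter.all false

namespace Pool.Agent.FC

open RestrictedProduct Filter Topology Matrix MeasureTheory

/-- no small subgroups in the circle -/
theorem circle_no_small (z : Circle) (h : ∀ k : ℕ, ‖((z ^ (2 ^ k) : Circle) : ℂ) - 1‖ ≤ 1 / 2) :
    z = 1 := by
  by_contra hz
  have h0 : 0 < ‖(z : ℂ) - 1‖ := by
    rw [norm_pos_iff, sub_ne_zero]
    intro h1
    exact hz (Circle.ext h1)
  have hgrow : ∀ k : ℕ, (3 / 2 : ℝ) ^ k * ‖(z : ℂ) - 1‖ ≤ ‖((z ^ (2 ^ k) : Circle) : ℂ) - 1‖ := by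
    intro k
    induction k with
    | zero => simp
    | succ k ih =>
      set w : ℂ := ((z ^ (2 ^ k) : Circle) : ℂ) with hw
      have h1 : ((z ^ (2 ^ (k + 1)) : Circle) : ℂ) - 1 = (w - 1) * (w + 1) := by
        rw [hw, pow_succ, pow_mul]
        push_cast
        ring
      have h2 : (3 / 2 : ℝ) ≤ ‖w + 1‖ := by
        have h3 : ‖(2 : ℂ)‖ ≤ ‖w + 1‖ + ‖w - 1‖ := by
          have : (2 : ℂ) = (w + 1) - (w - 1) := by ring
          rw [this]
          exact norm_sub_le _ _
        have h4 := h k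
        simp only [Complex.norm_ofNat] at h3
        linarith
      rw [h1, norm_mul, pow_succ]
      calc (3 / 2 : ℝ) ^ k * (3 / 2) * ‖(z : ℂ) - 1‖
          = ((3 / 2 : ℝ) ^ k * ‖(z : ℂ) - 1‖) * (3 / 2) := by ring
        _ ≤ ‖w - 1‖ * ‖w + 1‖ := by gcongr
  obtain ⟨k, hk⟩ := pow_unbounded_of_one_lt (1 / ‖(z : ℂ) - 1‖) (by norm_num : (1 : ℝ) < 3 / 2)
  have h5 := hgrow k
  have h6 := h k
  rw [div_lt_iff₀ h0] at hk
  linarith

/-- neighbourhoods of zero in the finite adeles contain a multiple of the integral adeles -/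
theorem exists_nat_mul_OF (U : Set Afin) (hU : U ∈ 𝓝 (0 : Afin)) :
    ∃ N : ℕ, 0 < N ∧ ∀ x ∈ OF, (N : Afin) * x ∈ U := by
  classical
  have h1 := nhds_zero_eq_map_structureMap (R := fun p : Nat.Primes => ℚ_[(p : ℕ)])
    (B := fun p => PadicInt.subring (p : ℕ)) instFactOpen.out
  have h2 : structureMap (fun p : Nat.Primes => ℚ_[(p : ℕ)])
    (fun p => ((PadicInt.subring (p : ℕ) : Subring ℚ_[(p : ℕ)]) : Set ℚ_[(p : ℕ)])) cofinite ⁻¹' U
      ∈ 𝓝 (0 : (p : Nat.Primes) → (PadicInt.subring (p : ℕ) : Subring ℚ_[(p : ℕ)])) := by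
    have : U ∈ 𝓝 (structureMap (fun p : Nat.Primes => ℚ_[(p : ℕ)])
      (fun p => ((PadicInt.subring (p : ℕ) : Subring ℚ_[(p : ℕ)]) : Set ℚ_[(p : ℕ)])) cofinite 0) := hU
    rw [h1] at this
    exact this
  rw [nhds_pi, Filter.mem_pi] at h2
  obtain ⟨I, hI, t, ht, hIt⟩ := h2
  have hloc : ∀ p : Nat.Primes, ∃ n : ℕ, ∀ y : (PadicInt.subring (p : ℕ) : Subring ℚ_[(p : ℕ)]),
      ‖(y : ℚ_[(p : ℕ)])‖ ≤ ((p : ℕ) : ℝ) ^ (-(n : ℤ)) → y ∈ t p := by
    intro p
    have h3 := ht p
    obtain ⟨ε, hε, hb⟩ := Metric.mem_nhds_iff.mp h3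
    have hp1 : ((p : ℕ) : ℝ)⁻¹ < 1 := inv_lt_one_of_one_lt₀ (by exact_mod_cast p.2.one_lt)
    obtain ⟨n, hn⟩ := exists_pow_lt_of_lt_one hε hp1
    refine ⟨n, fun y hy => hb ?_⟩
    rw [Metric.mem_ball, Subtype.dist_eq, dist_eq_norm]
    have : ‖(y : ℚ_[(p : ℕ)]) - 0‖ < ε := by
      rw [sub_zero]
      refine hy.trans_lt ?_
      rw [_root_.zpow_neg, _root_.zpow_natCast, ← inv_pow]
      exact hn
    exact this
  choose n hn using hloc
  refine ⟨∏ p ∈ hI.toFinset, (p : ℕ) ^ n p, Finset.prod_pos fun p _ => pow_pos p.2.pos _, ?_⟩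
  intro x hx
  set N : ℕ := ∏ p ∈ hI.toFinset, (p : ℕ) ^ n p with hN
  have hNx : (N : Afin) * x ∈ OF := by
    refine OF_mul ?_ hx
    have := (ratFin_mem_OF_iff (N : ℚ)).mpr (by simp)
    simpa using this
  have h4 : (fun p : Nat.Primes => (⟨((N : Afin) * x) p, hNx p⟩ :
      (PadicInt.subring (p : ℕ) : Subring ℚ_[(p : ℕ)]))) ∈ I.pi t := by
    intro p hp
    apply hn p
    have h5 : ((N : Afin) * x) p = (N : ℚ_[(p : ℕ)]) * x p := rfl
    change ‖((N : Afin) * x) p‖ ≤ _
    rw [h5, norm_mul]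
    have h6 : ((p : ℕ) ^ n p : ℕ) ∣ N := Finset.dvd_prod_of_mem _ (by
      rw [Set.Finite.mem_toFinset]; exact hp)
    have h7 : ‖(N : ℚ_[(p : ℕ)])‖ ≤ ((p : ℕ) : ℝ) ^ (-(n p : ℤ)) := by
      obtain ⟨c, hc⟩ := h6
      rw [hc]
      push_cast
      rw [norm_mul, norm_pow, Padic.norm_p, _root_.zpow_neg, _root_.zpow_natCast, inv_pow]
      have : ‖(c : ℚ_[(p : ℕ)])‖ ≤ 1 := IsUltrametricDist.norm_natCast_le_one _ c
      have h8 : (0 : ℝ) ≤ ((((p : ℕ) : ℝ)) ^ n p)⁻¹ := by positivity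
      nlinarith
    have h8 : (0 : ℝ) ≤ ((p : ℕ) : ℝ) ^ (-(n p : ℤ)) := by positivity
    have h9 := hx p
    have h10 := norm_nonneg (x p)
    have h11 := norm_nonneg (N : ℚ_[(p : ℕ)])
    nlinarith
  exact hIt h4

/-- a continuous character of the real line trivial at one -/
theorem char_real (χ : ℝ → Circle) (hc : Continuous χ) (hadd : ∀ s t, χ (s + t) = χ s * χ t)
    (h1 : χ 1 = 1) : ∃ m : ℤ, ∀ t, χ t = eR (m * t) := by
  have h0 : χ 0 = 1 := by
    have := hadd 0 0
    rw [add_zero] at this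
    exact (mul_eq_left.mp this.symm)
  let X : ℝ →+ Additive Circle :=
    { toFun := fun t => Additive.ofMul (χ t)
      map_zero' := by rw [h0]; rfl
      map_add' := fun s t => by rw [hadd]; rfl }
  have hX1 : ∀ z : ℤ, X z = 0 := by
    intro z
    have : X z = z • X 1 := by
      rw [← map_zsmul]; simp
    rw [this]
    have h2 : X 1 = 0 := by change Additive.ofMul (χ 1) = 0; rw [h1]; rfl
    rw [h2, smul_zero]
  let Y : AddCircle (1 : ℝ) →+ Additive Circle := QuotientAddGroup.lift _ X (by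
    intro x hx
    obtain ⟨z, rfl⟩ := AddSubgroup.mem_zmultiples_iff.mp hx
    simpa using hX1 z)
  have hY : Continuous Y := by
    refine Continuous.quotient_lift ?_ _
    exact continuous_ofMul.comp hc
  let f : C(AddCircle (1 : ℝ), ℂ) := ⟨fun x => ((Additive.toMul (Y x) : Circle) : ℂ),
    continuous_induced_dom.comp (continuous_toMul.comp hY)⟩
  have hf : ∀ x y, f (x + y) = f x * f y := by
    intro x y
    change ((Additive.toMul (Y (x + y)) : Circle) : ℂ) = _
    rw [map_add, toMul_add]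
    exact Circle.coe_mul _ _
  have hfne : ∀ x, f x ≠ 0 := fun x => Circle.coe_ne_zero _
  have hex : ∃ m : ℤ, fourierCoeff f m ≠ 0 := by
    by_contra hcon
    have hcon' : ∀ m : ℤ, fourierCoeff f m = 0 := fun m => by
      by_contra h; exact hcon ⟨m, h⟩
    have hz : fourierCoeff (f : AddCircle (1 : ℝ) → ℂ) = 0 := funext hcon'
    have hs : Summable (fourierCoeff (f : AddCircle (1 : ℝ) → ℂ)) := by
      rw [hz]; exact summable_zero
    have h2 := has_pointwise_sum_fourier_series_of_summable hs 0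
    have h3 : (fun i => fourierCoeff (f : AddCircle (1 : ℝ) → ℂ) i •
        (fourier i (0 : AddCircle (1 : ℝ)) : ℂ)) = fun _ => 0 := by
      funext i
      rw [hcon' i, zero_smul]
    rw [h3] at h2
    exact hfne 0 (h2.unique hasSum_zero)
  obtain ⟨m, hm⟩ := hex
  refine ⟨m, fun t => ?_⟩
  have key : ∀ s : AddCircle (1 : ℝ), f s = fourier m s := by
    intro s
    have h2 : fourierCoeff f m = (fourier (-m) s * f s) * fourierCoeff f m := by
      have h3 : fourierCoeff f m = ∫ t : AddCircle (1 : ℝ),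
          (fourier (-m) t : ℂ) • f t ∂AddCircle.haarAddCircle := rfl
      rw [h3, ← integral_const_mul, ← integral_add_right_eq_self _ s]
      congr 1
      funext t
      have h4 : (fourier (-m) (t + s) : ℂ) = fourier (-m) t * fourier (-m) s := by
        rw [fourier_apply, fourier_apply, fourier_apply, smul_add, AddCircle.toCircle_add,
          Circle.coe_mul]
      rw [hf, h4, smul_eq_mul, smul_eq_mul]
      ring
    have h3 : fourier (-m) s * f s = 1 := by
      have : (1 : ℂ) * fourierCoeff f m = (fourier (-m) s * f s) * fourierCoeff f m := by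
        rw [one_mul]; exact h2
      exact (mul_right_cancel₀ hm this).symm
    have h4 : fourier m s * fourier (-m) s = (1 : ℂ) := by
      rw [← fourier_add]; simp
    calc f s = (fourier m s * fourier (-m) s) * f s := by rw [h4, one_mul]
      _ = fourier m s * (fourier (-m) s * f s) := by ring
      _ = fourier m s := by rw [h3, mul_one]
  have h5 := key (t : AddCircle (1 : ℝ))
  have h6 : f (t : AddCircle (1 : ℝ)) = ((χ t : Circle) : ℂ) := rfl
  rw [h6, fourier_coe_apply] at h5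
  apply Circle.ext
  rw [h5, eR, Circle.coe_exp]
  congr 1
  push_cast
  ring

/-- classification of the continuous characters of the adeles trivial on the rationals -/
theorem charClass (ψ : Adele → Circle) (hc : Continuous ψ) (hadd : ∀ x y, ψ (x + y) = ψ x * ψ y)
    (h0 : ∀ q : ℚ, ψ (ratAdele q) = 1) : ∃ a : ℚ, ∀ x, ψ x = psiStd (ratAdele a * x) := by
  have hz : ψ 0 = 1 := by
    have := h0 0
    rwa [map_zero] at this
  -- a neighbourhood of zero in the finite adeles with small values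
  have hcont : Continuous (fun x : Afin => ((ψ ((0 : ℝ), x) : Circle) : ℂ)) :=
    continuous_induced_dom.comp (hc.comp (by fun_prop))
  have hU : {x : Afin | ‖((ψ ((0 : ℝ), x) : Circle) : ℂ) - 1‖ < 1 / 2} ∈ 𝓝 (0 : Afin) := by
    have h1 : Continuous (fun x : Afin => ‖((ψ ((0 : ℝ), x) : Circle) : ℂ) - 1‖) :=
      (hcont.sub continuous_const).norm
    refine (isOpen_lt h1 continuous_const).mem_nhds ?_
    have h2 : ψ ((0 : ℝ), (0 : Afin)) = 1 := hz
    simp [h2]
  obtain ⟨N, hN, hNU⟩ := exists_nat_mul_OF _ hU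
  have hpow : ∀ (x : Adele) (k : ℕ), ψ ((k : Adele) * x) = ψ x ^ k := by
    intro x k
    induction k with
    | zero => simp [hz]
    | succ k ih => rw [Nat.cast_succ, add_mul, hadd, ih, one_mul, pow_succ]
  have htriv : ∀ x ∈ OF, ψ ((0 : ℝ), (N : Afin) * x) = 1 := by
    intro x hx
    apply circle_no_small
    intro k
    rw [← hpow]
    have h3 : (((2 ^ k : ℕ) : Adele)) * (((0 : ℝ), (N : Afin) * x) : Adele) =
        ((0 : ℝ), (N : Afin) * (((2 ^ k : ℕ) : Afin) * x)) := by
      refine Prod.ext ?_ ?_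
      · simp
      · simp only [Prod.snd_mul, Prod.snd_natCast]
        ring
    rw [h3]
    have h4 : ((2 ^ k : ℕ) : Afin) * x ∈ OF := by
      refine OF_mul ?_ hx
      have := (ratFin_mem_OF_iff ((2 ^ k : ℕ) : ℚ)).mpr (by
        rw [Rat.den_natCast])
      rwa [map_natCast] at this
    exact (hNU _ h4).le
  -- the real component
  have hNA : ∀ x : Adele, ratAdele N * x = ((N : ℝ) * x.1, (N : Afin) * x.2) := by
    intro x
    refine Prod.ext ?_ ?_
    · rw [Prod.fst_mul, ratAdele_fst]; push_cast; rfl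
    · rw [Prod.snd_mul]
      have : (ratAdele (N : ℚ)).2 = (N : Afin) := by
        rw [map_natCast]; rfl
      rw [this]
  let χ : ℝ → Circle := fun t => ψ ((N : ℝ) * t, 0)
  have hχc : Continuous χ := hc.comp (by fun_prop)
  have hχadd : ∀ s t, χ (s + t) = χ s * χ t := by
    intro s t
    change ψ _ = ψ _ * ψ _
    rw [← hadd]
    congr 1
    refine Prod.ext ?_ ?_
    · simp [mul_add]
    · simp
  have hχ1 : χ 1 = 1 := by
    have h1 : ratAdele N = ((N : ℝ) * 1, (0 : Afin)) + ((0 : ℝ), (N : Afin) * 1) := by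
      have := hNA 1
      rw [mul_one] at this
      rw [this]
      refine Prod.ext ?_ ?_
      · simp
      · simp
    have h2 := h0 N
    have hone : (1 : Afin) ∈ OF := by
      have := (ratFin_mem_OF_iff 1).mpr (by simp)
      rwa [map_one] at this
    rw [h1, hadd, htriv 1 hone, mul_one] at h2
    exact h2
  obtain ⟨m, hm⟩ := char_real χ hχc hχadd hχ1
  -- the rescaled character
  have hres : ∀ x : Adele, ψ (ratAdele N * x) = psiStd (ratAdele m * x) := by
    intro x
    obtain ⟨q, hq1, hq2⟩ := exists_rat_sub_mem x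
    have hx : x = ratAdele q + (x - ratAdele q) := by ring
    set r := x - ratAdele q with hr
    rw [hx, mul_add, mul_add, hadd, psiStd_add, ← map_mul, ← map_mul, h0, psiStd_ratAdele, one_mul,
      one_mul, hNA]
    have h1 : (((N : ℝ) * r.1, (N : Afin) * r.2) : Adele) =
        ((N : ℝ) * r.1, 0) + ((0 : ℝ), (N : Afin) * r.2) := by
      refine Prod.ext ?_ ?_ <;> simp
    rw [h1, hadd, htriv _ hq2, mul_one]
    have h2 : ψ ((N : ℝ) * r.1, 0) = eR (m * r.1) := hm r.1
    rw [h2, psiStd_of_mem_OF]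
    · rw [Prod.fst_mul, ratAdele_fst]; push_cast; rfl
    · rw [Prod.snd_mul]
      refine OF_mul ?_ hq2
      have := (ratFin_mem_OF_iff (m : ℚ)).mpr (by simp)
      exact this
  refine ⟨m / N, fun x => ?_⟩
  have hN0 : (N : ℚ) ≠ 0 := by exact_mod_cast hN.ne'
  have h1 : x = ratAdele N * (ratAdele (N : ℚ)⁻¹ * x) := by
    rw [← mul_assoc, ← map_mul, mul_inv_cancel₀ hN0, map_one, one_mul]
  conv_lhs => rw [h1]
  rw [hres, ← mul_assoc, ← map_mul, div_eq_mul_inv]

end Pool.Agent.FC
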