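import Mathlib

/-!
# MP_9a256f_nt : the finite checks over the field with three elements

`S1`, `S2` are symmetric `6 x 6` integer matrices.  `chain Sa Sb k t` is
`t, Sa t, Sb Sa t, Sa Sb Sa t, ...`.  We prove the statements (K4) and (K3).
-/

open Matrix

namespace Pool.Agent.FC.Chk

/-- the first matrix modulo three -/
def A1 : Matrix (Fin 6) (Fin 6) (ZMod 3) :=
  !![0, 1, 0, 0, 0, 0; 1, 0, -1, 0, 0, 0; 0, -1, 0, 0, 0, -1; 0, 0, 0, -1, 0, 0; 0, 0, 0, 0, -1, 1; 0, 0, -1, 0, 1, 0]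

/-- the second matrix modulo three -/
def A2 : Matrix (Fin 6) (Fin 6) (ZMod 3) :=
  !![0, -1, 0, 0, 0, -1; -1, 0, 1, 0, 0, 0; 0, 1, 0, 1, 0, 0; 0, 0, 1, 0, 1, -1; 0, 0, 0, 1, 1, 0; -1, 0, 0, -1, 0, 1]

/-- `t, Sa t, Sb Sa t, Sa Sb Sa t, ...` -/
def chain (Sa Sb : Matrix (Fin 6) (Fin 6) (ZMod 3)) : ℕ → (Fin 6 → ZMod 3) → (Fin 6 → ZMod 3)
  | 0, t => t
  | k + 1, t => (if Even k then Sa else Sb) *ᵥ chain Sa Sb k t

/-- the matrix of `chain` -/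
def cmat (Sa Sb : Matrix (Fin 6) (Fin 6) (ZMod 3)) : ℕ → Matrix (Fin 6) (Fin 6) (ZMod 3)
  | 0 => 1
  | k + 1 => (if Even k then Sa else Sb) * cmat Sa Sb k

theorem chain_eq (Sa Sb : Matrix (Fin 6) (Fin 6) (ZMod 3)) (k : ℕ) (t : Fin 6 → ZMod 3) :
    chain Sa Sb k t = cmat Sa Sb k *ᵥ t := by
  induction k with
  | zero => simp [chain, cmat]
  | succ k ih => simp only [chain, cmat, ih, Matrix.mulVec_mulVec]

/-- the bilinear form `x . chain k y` -/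
def q12_0 (a b c d e f u v w x y z : ZMod 3) : ZMod 3 :=
  a * (u) + b * (v) + c * (w) + d * (x) + e * (y) + f * (z)

/-- the bilinear form `x . chain k y` -/
def q12_1 (a b c d e f u v w x y z : ZMod 3) : ZMod 3 :=
  a * (v) + b * (u - w) + c * (-v - z) + d * (-x) + e * (-y + z) + f * (-w + y)

/-- the bilinear form `x . chain k y` -/
def q12_2 (a b c d e f u v w x y z : ZMod 3) : ZMod 3 :=
  a * (-u - w - y) + b * (v - z) + c * (u - w - x) + d * (-v + w + y) + e * (-x - y + z) + f * (-v - w + x + y)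

/-- the bilinear form `x . chain k y` -/
def q12_3 (a b c d e f u v w x y z : ZMod 3) : ZMod 3 :=
  a * (v - z) + b * (u + x - y) + c * (w - x - y + z) + d * (v - w - y) + e * (-v - w - x - y - z) + f * (-u + w - y + z)

/-- the bilinear form `x . chain k y` -/
def q12_4 (a b c d e f u v w x y z : ZMod 3) : ZMod 3 :=
  a * (-w - x - y - z) + b * (-v + w - x - y - z) + c * (u + v - w + x + y) + d * (u - v - w + x - y - z) + e * (w - x + y - z) + f * (-u + v - w - z)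

/-- the bilinear form `x . chain k y` -/
def q12_5 (a b c d e f u v w x y z : ZMod 3) : ZMod 3 :=
  a * (-v + w - x - y - z) + b * (-u - v + x + y - z) + c * (u + x + y - z) + d * (-u + v + w - x + y + z) + e * (-u + v + w + x - y) + f * (-u - v - w + x - z)

/-- the bilinear form `x . chain k y` -/
def q12_6 (a b c d e f u v w x y z : ZMod 3) : ZMod 3 :=
  a * (-u - v + w + x - y - z) + b * (u + v - w - x - y) + c * (u + w - y) + d * (u - v - w + x) + e * (u - v - w + z) + f * (-v - z)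

/-- the bilinear form `x . chain k y` -/
def q12_7 (a b c d e f u v w x y z : ZMod 3) : ZMod 3 :=
  a * (u + v - w - x - y) + b * (u - v + x - z) + c * (-u + w + x + y + z) + d * (-u + v + w - x) + e * (-u + w + z) + f * (-v + w + y + z)

/-- the bilinear form `x . chain k y` -/
def q21_0 (a b c d e f u v w x y z : ZMod 3) : ZMod 3 :=
  a * (u) + b * (v) + c * (w) + d * (x) + e * (y) + f * (z)

/-- the bilinear form `x . chain k y` -/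
def q21_1 (a b c d e f u v w x y z : ZMod 3) : ZMod 3 :=
  a * (-v - z) + b * (-u + w) + c * (v + x) + d * (w + y - z) + e * (x + y) + f * (-u - x + z)

/-- the bilinear form `x . chain k y` -/
def q21_2 (a b c d e f u v w x y z : ZMod 3) : ZMod 3 :=
  a * (-u + w) + b * (v - x - z) + c * (-u - w + x - z) + d * (-w - y + z) + e * (-u + x - y + z) + f * (-v + y)

/-- the bilinear form `x . chain k y` -/
def q21_3 (a b c d e f u v w x y z : ZMod 3) : ZMod 3 :=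
  a * (x - y + z) + b * (w + x - z) + c * (v - w - x - y) + d * (u + v - w - x + y) + e * (-u - w + x + y - z) + f * (u - v - y - z)

/-- the bilinear form `x . chain k y` -/
def q21_4 (a b c d e f u v w x y z : ZMod 3) : ZMod 3 :=
  a * (w + x - z) + b * (-v + w - x + z) + c * (-u + v - w - x + y - z) + d * (-u - v + w + x - y) + e * (-u - v + w - x + y) + f * (-u - v - x - y - z)

/-- the bilinear form `x . chain k y` -/
def q21_5 (a b c d e f u v w x y z : ZMod 3) : ZMod 3 :=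
  a * (u - v - w - x + y) + b * (-u + v + w + x + y) + c * (-u + v - w - y + z) + d * (-u + v - x) + e * (u + v - w) + f * (w)

/-- the bilinear form `x . chain k y` -/
def q21_6 (a b c d e f u v w x y z : ZMod 3) : ZMod 3 :=
  a * (-u + v + w + x + y) + b * (-u + v - x - y - z) + c * (u - v + w - x - y) + d * (u - v + x) + e * (-u - v - w) + f * (-u + y - z)

/-- the bilinear form `x . chain k y` -/
def q21_7 (a b c d e f u v w x y z : ZMod 3) : ZMod 3 :=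
  a * (-u - v + x - z) + b * (-u + v + x + y) + c * (-y - z) + d * (u + v - x + y + z) + e * (v - w + x) + f * (-u - w + x - z)

theorem cmat12_0 : cmat A1 A2 0 = !![1, 0, 0, 0, 0, 0; 0, 1, 0, 0, 0, 0; 0, 0, 1, 0, 0, 0; 0, 0, 0, 1, 0, 0; 0, 0, 0, 0, 1, 0; 0, 0, 0, 0, 0, 1] := by decide +kernel

theorem dot12_0 (s t : Fin 6 → ZMod 3) : s ⬝ᵥ chain A1 A2 0 t =
    q12_0 (s 0) (s 1) (s 2) (s 3) (s 4) (s 5) (t 0) (t 1) (t 2) (t 3) (t 4) (t 5) := by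
  rw [chain_eq, cmat12_0]
  simp only [dotProduct, Matrix.mulVec, Fin.sum_univ_six, q12_0]
  simp [Matrix.of_apply, Matrix.cons_val]
  try ring

theorem cmat12_1 : cmat A1 A2 1 = !![0, 1, 0, 0, 0, 0; 1, 0, -1, 0, 0, 0; 0, -1, 0, 0, 0, -1; 0, 0, 0, -1, 0, 0; 0, 0, 0, 0, -1, 1; 0, 0, -1, 0, 1, 0] := by decide +kernel

theorem dot12_1 (s t : Fin 6 → ZMod 3) : s ⬝ᵥ chain A1 A2 1 t =
    q12_1 (s 0) (s 1) (s 2) (s 3) (s 4) (s 5) (t 0) (t 1) (t 2) (t 3) (t 4) (t 5) := by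
  rw [chain_eq, cmat12_1]
  simp only [dotProduct, Matrix.mulVec, Fin.sum_univ_six, q12_1]
  simp [Matrix.of_apply, Matrix.cons_val]
  try ring

theorem cmat12_2 : cmat A1 A2 2 = !![-1, 0, -1, 0, -1, 0; 0, 1, 0, 0, 0, -1; 1, 0, -1, -1, 0, 0; 0, -1, 1, 0, 1, 0; 0, 0, 0, -1, -1, 1; 0, -1, -1, 1, 1, 0] := by decide +kernel

theorem dot12_2 (s t : Fin 6 → ZMod 3) : s ⬝ᵥ chain A1 A2 2 t =
    q12_2 (s 0) (s 1) (s 2) (s 3) (s 4) (s 5) (t 0) (t 1) (t 2) (t 3) (t 4) (t 5) := by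
  rw [chain_eq, cmat12_2]
  simp only [dotProduct, Matrix.mulVec, Fin.sum_univ_six, q12_2]
  simp [Matrix.of_apply, Matrix.cons_val]
  try ring

theorem cmat12_3 : cmat A1 A2 3 = !![0, 1, 0, 0, 0, -1; 1, 0, 0, 1, -1, 0; 0, 0, 1, -1, -1, 1; 0, 1, -1, 0, -1, 0; 0, -1, -1, -1, -1, -1; -1, 0, 1, 0, -1, 1] := by decide +kernel

theorem dot12_3 (s t : Fin 6 → ZMod 3) : s ⬝ᵥ chain A1 A2 3 t =
    q12_3 (s 0) (s 1) (s 2) (s 3) (s 4) (s 5) (t 0) (t 1) (t 2) (t 3) (t 4) (t 5) := by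
  rw [chain_eq, cmat12_3]
  simp only [dotProduct, Matrix.mulVec, Fin.sum_univ_six, q12_3]
  simp [Matrix.of_apply, Matrix.cons_val]
  try ring

theorem cmat12_4 : cmat A1 A2 4 = !![0, 0, -1, -1, -1, -1; 0, -1, 1, -1, -1, -1; 1, 1, -1, 1, 1, 0; 1, -1, -1, 1, -1, -1; 0, 0, 1, -1, 1, -1; -1, 1, -1, 0, 0, -1] := by decide +kernel

theorem dot12_4 (s t : Fin 6 → ZMod 3) : s ⬝ᵥ chain A1 A2 4 t =
    q12_4 (s 0) (s 1) (s 2) (s 3) (s 4) (s 5) (t 0) (t 1) (t 2) (t 3) (t 4) (t 5) := by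
  rw [chain_eq, cmat12_4]
  simp only [dotProduct, Matrix.mulVec, Fin.sum_univ_six, q12_4]
  simp [Matrix.of_apply, Matrix.cons_val]
  try ring

theorem cmat12_5 : cmat A1 A2 5 = !![0, -1, 1, -1, -1, -1; -1, -1, 0, 1, 1, -1; 1, 0, 0, 1, 1, -1; -1, 1, 1, -1, 1, 1; -1, 1, 1, 1, -1, 0; -1, -1, -1, 1, 0, -1] := by decide +kernel

theorem dot12_5 (s t : Fin 6 → ZMod 3) : s ⬝ᵥ chain A1 A2 5 t =
    q12_5 (s 0) (s 1) (s 2) (s 3) (s 4) (s 5) (t 0) (t 1) (t 2) (t 3) (t 4) (t 5) := by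
  rw [chain_eq, cmat12_5]
  simp only [dotProduct, Matrix.mulVec, Fin.sum_univ_six, q12_5]
  simp [Matrix.of_apply, Matrix.cons_val]
  try ring

theorem cmat12_6 : cmat A1 A2 6 = !![-1, -1, 1, 1, -1, -1; 1, 1, -1, -1, -1, 0; 1, 0, 1, 0, -1, 0; 1, -1, -1, 1, 0, 0; 1, -1, -1, 0, 0, 1; 0, -1, 0, 0, 0, -1] := by decide +kernel

theorem dot12_6 (s t : Fin 6 → ZMod 3) : s ⬝ᵥ chain A1 A2 6 t =
    q12_6 (s 0) (s 1) (s 2) (s 3) (s 4) (s 5) (t 0) (t 1) (t 2) (t 3) (t 4) (t 5) := by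
  rw [chain_eq, cmat12_6]
  simp only [dotProduct, Matrix.mulVec, Fin.sum_univ_six, q12_6]
  simp [Matrix.of_apply, Matrix.cons_val]
  try ring

theorem cmat12_7 : cmat A1 A2 7 = !![1, 1, -1, -1, -1, 0; 1, -1, 0, 1, 0, -1; -1, 0, 1, 1, 1, 1; -1, 1, 1, -1, 0, 0; -1, 0, 1, 0, 0, 1; 0, -1, 1, 0, 1, 1] := by decide +kernel

theorem dot12_7 (s t : Fin 6 → ZMod 3) : s ⬝ᵥ chain A1 A2 7 t =
    q12_7 (s 0) (s 1) (s 2) (s 3) (s 4) (s 5) (t 0) (t 1) (t 2) (t 3) (t 4) (t 5) := by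
  rw [chain_eq, cmat12_7]
  simp only [dotProduct, Matrix.mulVec, Fin.sum_univ_six, q12_7]
  simp [Matrix.of_apply, Matrix.cons_val]
  try ring

theorem cmat21_0 : cmat A2 A1 0 = !![1, 0, 0, 0, 0, 0; 0, 1, 0, 0, 0, 0; 0, 0, 1, 0, 0, 0; 0, 0, 0, 1, 0, 0; 0, 0, 0, 0, 1, 0; 0, 0, 0, 0, 0, 1] := by decide +kernel

theorem dot21_0 (s t : Fin 6 → ZMod 3) : s ⬝ᵥ chain A2 A1 0 t =
    q21_0 (s 0) (s 1) (s 2) (s 3) (s 4) (s 5) (t 0) (t 1) (t 2) (t 3) (t 4) (t 5) := by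
  rw [chain_eq, cmat21_0]
  simp only [dotProduct, Matrix.mulVec, Fin.sum_univ_six, q21_0]
  simp [Matrix.of_apply, Matrix.cons_val]
  try ring

theorem cmat21_1 : cmat A2 A1 1 = !![0, -1, 0, 0, 0, -1; -1, 0, 1, 0, 0, 0; 0, 1, 0, 1, 0, 0; 0, 0, 1, 0, 1, -1; 0, 0, 0, 1, 1, 0; -1, 0, 0, -1, 0, 1] := by decide +kernel

theorem dot21_1 (s t : Fin 6 → ZMod 3) : s ⬝ᵥ chain A2 A1 1 t =
    q21_1 (s 0) (s 1) (s 2) (s 3) (s 4) (s 5) (t 0) (t 1) (t 2) (t 3) (t 4) (t 5) := by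
  rw [chain_eq, cmat21_1]
  simp only [dotProduct, Matrix.mulVec, Fin.sum_univ_six, q21_1]
  simp [Matrix.of_apply, Matrix.cons_val]
  try ring

theorem cmat21_2 : cmat A2 A1 2 = !![-1, 0, 1, 0, 0, 0; 0, 1, 0, -1, 0, -1; -1, 0, -1, 1, 0, -1; 0, 0, -1, 0, -1, 1; -1, 0, 0, 1, -1, 1; 0, -1, 0, 0, 1, 0] := by decide +kernel

theorem dot21_2 (s t : Fin 6 → ZMod 3) : s ⬝ᵥ chain A2 A1 2 t =
    q21_2 (s 0) (s 1) (s 2) (s 3) (s 4) (s 5) (t 0) (t 1) (t 2) (t 3) (t 4) (t 5) := by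
  rw [chain_eq, cmat21_2]
  simp only [dotProduct, Matrix.mulVec, Fin.sum_univ_six, q21_2]
  simp [Matrix.of_apply, Matrix.cons_val]
  try ring

theorem cmat21_3 : cmat A2 A1 3 = !![0, 0, 0, 1, -1, 1; 0, 0, 1, 1, 0, -1; 0, 1, -1, -1, -1, 0; 1, 1, -1, -1, 1, 0; -1, 0, -1, 1, 1, -1; 1, -1, 0, 0, -1, -1] := by decide +kernel

theorem dot21_3 (s t : Fin 6 → ZMod 3) : s ⬝ᵥ chain A2 A1 3 t =
    q21_3 (s 0) (s 1) (s 2) (s 3) (s 4) (s 5) (t 0) (t 1) (t 2) (t 3) (t 4) (t 5) := by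
  rw [chain_eq, cmat21_3]
  simp only [dotProduct, Matrix.mulVec, Fin.sum_univ_six, q21_3]
  simp [Matrix.of_apply, Matrix.cons_val]
  try ring

theorem cmat21_4 : cmat A2 A1 4 = !![0, 0, 1, 1, 0, -1; 0, -1, 1, -1, 0, 1; -1, 1, -1, -1, 1, -1; -1, -1, 1, 1, -1, 0; -1, -1, 1, -1, 1, 0; -1, -1, 0, -1, -1, -1] := by decide +kernel

theorem dot21_4 (s t : Fin 6 → ZMod 3) : s ⬝ᵥ chain A2 A1 4 t =
    q21_4 (s 0) (s 1) (s 2) (s 3) (s 4) (s 5) (t 0) (t 1) (t 2) (t 3) (t 4) (t 5) := by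
  rw [chain_eq, cmat21_4]
  simp only [dotProduct, Matrix.mulVec, Fin.sum_univ_six, q21_4]
  simp [Matrix.of_apply, Matrix.cons_val]
  try ring

theorem cmat21_5 : cmat A2 A1 5 = !![1, -1, -1, -1, 1, 0; -1, 1, 1, 1, 1, 0; -1, 1, -1, 0, -1, 1; -1, 1, 0, -1, 0, 0; 1, 1, -1, 0, 0, 0; 0, 0, 1, 0, 0, 0] := by decide +kernel

theorem dot21_5 (s t : Fin 6 → ZMod 3) : s ⬝ᵥ chain A2 A1 5 t =
    q21_5 (s 0) (s 1) (s 2) (s 3) (s 4) (s 5) (t 0) (t 1) (t 2) (t 3) (t 4) (t 5) := by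
  rw [chain_eq, cmat21_5]
  simp only [dotProduct, Matrix.mulVec, Fin.sum_univ_six, q21_5]
  simp [Matrix.of_apply, Matrix.cons_val]
  try ring

theorem cmat21_6 : cmat A2 A1 6 = !![-1, 1, 1, 1, 1, 0; -1, 1, 0, -1, -1, -1; 1, -1, 1, -1, -1, 0; 1, -1, 0, 1, 0, 0; -1, -1, -1, 0, 0, 0; -1, 0, 0, 0, 1, -1] := by decide +kernel

theorem dot21_6 (s t : Fin 6 → ZMod 3) : s ⬝ᵥ chain A2 A1 6 t =
    q21_6 (s 0) (s 1) (s 2) (s 3) (s 4) (s 5) (t 0) (t 1) (t 2) (t 3) (t 4) (t 5) := by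
  rw [chain_eq, cmat21_6]
  simp only [dotProduct, Matrix.mulVec, Fin.sum_univ_six, q21_6]
  simp [Matrix.of_apply, Matrix.cons_val]
  try ring

theorem cmat21_7 : cmat A2 A1 7 = !![-1, -1, 0, 1, 0, -1; -1, 1, 0, 1, 1, 0; 0, 0, 0, 0, -1, -1; 1, 1, 0, -1, 1, 1; 0, 1, -1, 1, 0, 0; -1, 0, -1, 1, 0, -1] := by decide +kernel

theorem dot21_7 (s t : Fin 6 → ZMod 3) : s ⬝ᵥ chain A2 A1 7 t =
    q21_7 (s 0) (s 1) (s 2) (s 3) (s 4) (s 5) (t 0) (t 1) (t 2) (t 3) (t 4) (t 5) := by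
  rw [chain_eq, cmat21_7]
  simp only [dotProduct, Matrix.mulVec, Fin.sum_univ_six, q21_7]
  simp [Matrix.of_apply, Matrix.cons_val]
  try ring

end Pool.Agent.FC.Chk
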