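import Mathlib
import Pool.Agent.FC.ChkA

/-!
# MP_9a256f_nt : the finite checks (K4) and (K3)
-/

open Matrix

namespace Pool.Agent.FC.Chk

theorem k4_12 : ∀ a b c d e f : ZMod 3, q12_1 a b c d e f a b c d e f = 0 →
    q12_3 a b c d e f a b c d e f = 0 →
    q12_5 a b c d e f a b c d e f = 0 →
    q12_7 a b c d e f a b c d e f = 0 →
    a = 0 ∧ b = 0 ∧ c = 0 ∧ d = 0 ∧ e = 0 ∧ f = 0 := by
  decide +kernel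

/-- the list of solutions -/
def isSol12 (a b c d e f : ZMod 3) : Bool :=
  decide ((a, b, c, d, e, f) ∈ ([(0, 0, 0, 0, 0, 0), (0, 1, 1, 0, 1, 1), (0, 2, 2, 0, 2, 2), (1, 0, 0, 0, 0, 0), (2, 0, 0, 0, 0, 0)] :
      List (ZMod 3 × ZMod 3 × ZMod 3 × ZMod 3 × ZMod 3 × ZMod 3)))

theorem solL_12 : ∀ a b c d e f : ZMod 3, q12_1 a b c d e f a b c d e f = 0 →
    q12_3 a b c d e f a b c d e f = 0 →
    q12_5 a b c d e f a b c d e f = 0 →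
    isSol12 a b c d e f = true := by
  decide +kernel

theorem sol_12 (a b c d e f : ZMod 3) (h1 : q12_1 a b c d e f a b c d e f = 0) (h3 : q12_3 a b c d e f a b c d e f = 0)
    (h5 : q12_5 a b c d e f a b c d e f = 0)
    (h0 : ¬ (a = 0 ∧ b = 0 ∧ c = 0 ∧ d = 0 ∧ e = 0 ∧ f = 0)) :
    (a = 0 ∧ b = 1 ∧ c = 1 ∧ d = 0 ∧ e = 1 ∧ f = 1) ∨
    (a = 0 ∧ b = 2 ∧ c = 2 ∧ d = 0 ∧ e = 2 ∧ f = 2) ∨
    (a = 1 ∧ b = 0 ∧ c = 0 ∧ d = 0 ∧ e = 0 ∧ f = 0) ∨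
    (a = 2 ∧ b = 0 ∧ c = 0 ∧ d = 0 ∧ e = 0 ∧ f = 0) := by
  have h := solL_12 a b c d e f h1 h3 h5
  simp only [isSol12, decide_eq_true_eq, List.mem_cons, Prod.mk.injEq, List.not_mem_nil, or_false] at h
  rcases h with h | h | h | h | h
  · exact absurd h h0
  · exact Or.inl h
  · exact Or.inr (Or.inl h)
  · exact Or.inr (Or.inr (Or.inl h))
  · exact Or.inr (Or.inr (Or.inr h))

theorem k3a_12_0 : ∀ u v w x y z : ZMod 3, q12_1 u v w x y z 0 1 1 0 1 1 = 0 →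
    q12_3 u v w x y z 0 1 1 0 1 1 = 0 →
    q12_5 u v w x y z 0 1 1 0 1 1 = 0 →
    q12_7 u v w x y z 0 1 1 0 1 1 = 0 →
    q12_1 u v w x y z u v w x y z = 0 →
    u = 0 ∧ v = 0 ∧ w = 0 ∧ x = 0 ∧ y = 0 ∧ z = 0 := by
  decide +kernel

theorem k3a_12_1 : ∀ u v w x y z : ZMod 3, q12_1 u v w x y z 0 2 2 0 2 2 = 0 →
    q12_3 u v w x y z 0 2 2 0 2 2 = 0 →
    q12_5 u v w x y z 0 2 2 0 2 2 = 0 →
    q12_7 u v w x y z 0 2 2 0 2 2 = 0 →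
    q12_1 u v w x y z u v w x y z = 0 →
    u = 0 ∧ v = 0 ∧ w = 0 ∧ x = 0 ∧ y = 0 ∧ z = 0 := by
  decide +kernel

theorem k3a_12_2 : ∀ u v w x y z : ZMod 3, q12_1 u v w x y z 1 0 0 0 0 0 = 0 →
    q12_3 u v w x y z 1 0 0 0 0 0 = 0 →
    q12_5 u v w x y z 1 0 0 0 0 0 = 0 →
    q12_7 u v w x y z 1 0 0 0 0 0 = 0 →
    q12_1 u v w x y z u v w x y z = 0 →
    u = 0 ∧ v = 0 ∧ w = 0 ∧ x = 0 ∧ y = 0 ∧ z = 0 := by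
  decide +kernel

theorem k3a_12_3 : ∀ u v w x y z : ZMod 3, q12_1 u v w x y z 2 0 0 0 0 0 = 0 →
    q12_3 u v w x y z 2 0 0 0 0 0 = 0 →
    q12_5 u v w x y z 2 0 0 0 0 0 = 0 →
    q12_7 u v w x y z 2 0 0 0 0 0 = 0 →
    q12_1 u v w x y z u v w x y z = 0 →
    u = 0 ∧ v = 0 ∧ w = 0 ∧ x = 0 ∧ y = 0 ∧ z = 0 := by
  decide +kernel

theorem k3a_12 : ∀ a b c d e f : ZMod 3, q12_1 a b c d e f a b c d e f = 0 →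
    q12_3 a b c d e f a b c d e f = 0 →
    q12_5 a b c d e f a b c d e f = 0 →
    ¬ (a = 0 ∧ b = 0 ∧ c = 0 ∧ d = 0 ∧ e = 0 ∧ f = 0) →
    ∀ u v w x y z : ZMod 3, q12_1 u v w x y z a b c d e f = 0 →
    q12_3 u v w x y z a b c d e f = 0 →
    q12_5 u v w x y z a b c d e f = 0 →
    q12_7 u v w x y z a b c d e f = 0 →
    q12_1 u v w x y z u v w x y z = 0 →
    u = 0 ∧ v = 0 ∧ w = 0 ∧ x = 0 ∧ y = 0 ∧ z = 0 := by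
  intro a b c d e f h1 h3 h5 h0 u v w x y z
  rcases sol_12 a b c d e f h1 h3 h5 h0 with ⟨rfl, rfl, rfl, rfl, rfl, rfl⟩ |
    ⟨rfl, rfl, rfl, rfl, rfl, rfl⟩ | ⟨rfl, rfl, rfl, rfl, rfl, rfl⟩ | ⟨rfl, rfl, rfl, rfl, rfl, rfl⟩
  · exact k3a_12_0 u v w x y z
  · exact k3a_12_1 u v w x y z
  · exact k3a_12_2 u v w x y z
  · exact k3a_12_3 u v w x y z

theorem k3b_12_0 : ∀ u v w x y z : ZMod 3, q12_0 u v w x y z 0 1 1 0 1 1 = 0 →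
    q12_2 u v w x y z 0 1 1 0 1 1 = 0 →
    q12_4 u v w x y z 0 1 1 0 1 1 = 0 →
    q12_6 u v w x y z 0 1 1 0 1 1 = 0 →
    q21_1 u v w x y z u v w x y z = 0 →
    u = 0 ∧ v = 0 ∧ w = 0 ∧ x = 0 ∧ y = 0 ∧ z = 0 := by
  decide +kernel

theorem k3b_12_1 : ∀ u v w x y z : ZMod 3, q12_0 u v w x y z 0 2 2 0 2 2 = 0 →
    q12_2 u v w x y z 0 2 2 0 2 2 = 0 →
    q12_4 u v w x y z 0 2 2 0 2 2 = 0 →
    q12_6 u v w x y z 0 2 2 0 2 2 = 0 →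
    q21_1 u v w x y z u v w x y z = 0 →
    u = 0 ∧ v = 0 ∧ w = 0 ∧ x = 0 ∧ y = 0 ∧ z = 0 := by
  decide +kernel

theorem k3b_12_2 : ∀ u v w x y z : ZMod 3, q12_0 u v w x y z 1 0 0 0 0 0 = 0 →
    q12_2 u v w x y z 1 0 0 0 0 0 = 0 →
    q12_4 u v w x y z 1 0 0 0 0 0 = 0 →
    q12_6 u v w x y z 1 0 0 0 0 0 = 0 →
    q21_1 u v w x y z u v w x y z = 0 →
    u = 0 ∧ v = 0 ∧ w = 0 ∧ x = 0 ∧ y = 0 ∧ z = 0 := by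
  decide +kernel

theorem k3b_12_3 : ∀ u v w x y z : ZMod 3, q12_0 u v w x y z 2 0 0 0 0 0 = 0 →
    q12_2 u v w x y z 2 0 0 0 0 0 = 0 →
    q12_4 u v w x y z 2 0 0 0 0 0 = 0 →
    q12_6 u v w x y z 2 0 0 0 0 0 = 0 →
    q21_1 u v w x y z u v w x y z = 0 →
    u = 0 ∧ v = 0 ∧ w = 0 ∧ x = 0 ∧ y = 0 ∧ z = 0 := by
  decide +kernel

theorem k3b_12 : ∀ a b c d e f : ZMod 3, q12_1 a b c d e f a b c d e f = 0 →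
    q12_3 a b c d e f a b c d e f = 0 →
    q12_5 a b c d e f a b c d e f = 0 →
    ¬ (a = 0 ∧ b = 0 ∧ c = 0 ∧ d = 0 ∧ e = 0 ∧ f = 0) →
    ∀ u v w x y z : ZMod 3, q12_0 u v w x y z a b c d e f = 0 →
    q12_2 u v w x y z a b c d e f = 0 →
    q12_4 u v w x y z a b c d e f = 0 →
    q12_6 u v w x y z a b c d e f = 0 →
    q21_1 u v w x y z u v w x y z = 0 →
    u = 0 ∧ v = 0 ∧ w = 0 ∧ x = 0 ∧ y = 0 ∧ z = 0 := by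
  intro a b c d e f h1 h3 h5 h0 u v w x y z
  rcases sol_12 a b c d e f h1 h3 h5 h0 with ⟨rfl, rfl, rfl, rfl, rfl, rfl⟩ |
    ⟨rfl, rfl, rfl, rfl, rfl, rfl⟩ | ⟨rfl, rfl, rfl, rfl, rfl, rfl⟩ | ⟨rfl, rfl, rfl, rfl, rfl, rfl⟩
  · exact k3b_12_0 u v w x y z
  · exact k3b_12_1 u v w x y z
  · exact k3b_12_2 u v w x y z
  · exact k3b_12_3 u v w x y z

theorem k4_21 : ∀ a b c d e f : ZMod 3, q21_1 a b c d e f a b c d e f = 0 →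
    q21_3 a b c d e f a b c d e f = 0 →
    q21_5 a b c d e f a b c d e f = 0 →
    q21_7 a b c d e f a b c d e f = 0 →
    a = 0 ∧ b = 0 ∧ c = 0 ∧ d = 0 ∧ e = 0 ∧ f = 0 := by
  decide +kernel

/-- the list of solutions -/
def isSol21 (a b c d e f : ZMod 3) : Bool :=
  decide ((a, b, c, d, e, f) ∈ ([(0, 0, 0, 0, 0, 0), (1, 0, 2, 2, 2, 1), (1, 1, 1, 0, 0, 2), (2, 0, 1, 1, 1, 2), (2, 2, 2, 0, 0, 1)] :
      List (ZMod 3 × ZMod 3 × ZMod 3 × ZMod 3 × ZMod 3 × ZMod 3)))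

theorem solL_21 : ∀ a b c d e f : ZMod 3, q21_1 a b c d e f a b c d e f = 0 →
    q21_3 a b c d e f a b c d e f = 0 →
    q21_5 a b c d e f a b c d e f = 0 →
    isSol21 a b c d e f = true := by
  decide +kernel

theorem sol_21 (a b c d e f : ZMod 3) (h1 : q21_1 a b c d e f a b c d e f = 0) (h3 : q21_3 a b c d e f a b c d e f = 0)
    (h5 : q21_5 a b c d e f a b c d e f = 0)
    (h0 : ¬ (a = 0 ∧ b = 0 ∧ c = 0 ∧ d = 0 ∧ e = 0 ∧ f = 0)) :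
    (a = 1 ∧ b = 0 ∧ c = 2 ∧ d = 2 ∧ e = 2 ∧ f = 1) ∨
    (a = 1 ∧ b = 1 ∧ c = 1 ∧ d = 0 ∧ e = 0 ∧ f = 2) ∨
    (a = 2 ∧ b = 0 ∧ c = 1 ∧ d = 1 ∧ e = 1 ∧ f = 2) ∨
    (a = 2 ∧ b = 2 ∧ c = 2 ∧ d = 0 ∧ e = 0 ∧ f = 1) := by
  have h := solL_21 a b c d e f h1 h3 h5
  simp only [isSol21, decide_eq_true_eq, List.mem_cons, Prod.mk.injEq, List.not_mem_nil, or_false] at h
  rcases h with h | h | h | h | h
  · exact absurd h h0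
  · exact Or.inl h
  · exact Or.inr (Or.inl h)
  · exact Or.inr (Or.inr (Or.inl h))
  · exact Or.inr (Or.inr (Or.inr h))

theorem k3a_21_0 : ∀ u v w x y z : ZMod 3, q21_1 u v w x y z 1 0 2 2 2 1 = 0 →
    q21_3 u v w x y z 1 0 2 2 2 1 = 0 →
    q21_5 u v w x y z 1 0 2 2 2 1 = 0 →
    q21_7 u v w x y z 1 0 2 2 2 1 = 0 →
    q21_1 u v w x y z u v w x y z = 0 →
    u = 0 ∧ v = 0 ∧ w = 0 ∧ x = 0 ∧ y = 0 ∧ z = 0 := by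
  decide +kernel

theorem k3a_21_1 : ∀ u v w x y z : ZMod 3, q21_1 u v w x y z 1 1 1 0 0 2 = 0 →
    q21_3 u v w x y z 1 1 1 0 0 2 = 0 →
    q21_5 u v w x y z 1 1 1 0 0 2 = 0 →
    q21_7 u v w x y z 1 1 1 0 0 2 = 0 →
    q21_1 u v w x y z u v w x y z = 0 →
    u = 0 ∧ v = 0 ∧ w = 0 ∧ x = 0 ∧ y = 0 ∧ z = 0 := by
  decide +kernel

theorem k3a_21_2 : ∀ u v w x y z : ZMod 3, q21_1 u v w x y z 2 0 1 1 1 2 = 0 →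
    q21_3 u v w x y z 2 0 1 1 1 2 = 0 →
    q21_5 u v w x y z 2 0 1 1 1 2 = 0 →
    q21_7 u v w x y z 2 0 1 1 1 2 = 0 →
    q21_1 u v w x y z u v w x y z = 0 →
    u = 0 ∧ v = 0 ∧ w = 0 ∧ x = 0 ∧ y = 0 ∧ z = 0 := by
  decide +kernel

theorem k3a_21_3 : ∀ u v w x y z : ZMod 3, q21_1 u v w x y z 2 2 2 0 0 1 = 0 →
    q21_3 u v w x y z 2 2 2 0 0 1 = 0 →
    q21_5 u v w x y z 2 2 2 0 0 1 = 0 →
    q21_7 u v w x y z 2 2 2 0 0 1 = 0 →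
    q21_1 u v w x y z u v w x y z = 0 →
    u = 0 ∧ v = 0 ∧ w = 0 ∧ x = 0 ∧ y = 0 ∧ z = 0 := by
  decide +kernel

theorem k3a_21 : ∀ a b c d e f : ZMod 3, q21_1 a b c d e f a b c d e f = 0 →
    q21_3 a b c d e f a b c d e f = 0 →
    q21_5 a b c d e f a b c d e f = 0 →
    ¬ (a = 0 ∧ b = 0 ∧ c = 0 ∧ d = 0 ∧ e = 0 ∧ f = 0) →
    ∀ u v w x y z : ZMod 3, q21_1 u v w x y z a b c d e f = 0 →
    q21_3 u v w x y z a b c d e f = 0 →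
    q21_5 u v w x y z a b c d e f = 0 →
    q21_7 u v w x y z a b c d e f = 0 →
    q21_1 u v w x y z u v w x y z = 0 →
    u = 0 ∧ v = 0 ∧ w = 0 ∧ x = 0 ∧ y = 0 ∧ z = 0 := by
  intro a b c d e f h1 h3 h5 h0 u v w x y z
  rcases sol_21 a b c d e f h1 h3 h5 h0 with ⟨rfl, rfl, rfl, rfl, rfl, rfl⟩ |
    ⟨rfl, rfl, rfl, rfl, rfl, rfl⟩ | ⟨rfl, rfl, rfl, rfl, rfl, rfl⟩ | ⟨rfl, rfl, rfl, rfl, rfl, rfl⟩
  · exact k3a_21_0 u v w x y z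
  · exact k3a_21_1 u v w x y z
  · exact k3a_21_2 u v w x y z
  · exact k3a_21_3 u v w x y z

theorem k3b_21_0 : ∀ u v w x y z : ZMod 3, q21_0 u v w x y z 1 0 2 2 2 1 = 0 →
    q21_2 u v w x y z 1 0 2 2 2 1 = 0 →
    q21_4 u v w x y z 1 0 2 2 2 1 = 0 →
    q21_6 u v w x y z 1 0 2 2 2 1 = 0 →
    q12_1 u v w x y z u v w x y z = 0 →
    u = 0 ∧ v = 0 ∧ w = 0 ∧ x = 0 ∧ y = 0 ∧ z = 0 := by
  decide +kernel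

theorem k3b_21_1 : ∀ u v w x y z : ZMod 3, q21_0 u v w x y z 1 1 1 0 0 2 = 0 →
    q21_2 u v w x y z 1 1 1 0 0 2 = 0 →
    q21_4 u v w x y z 1 1 1 0 0 2 = 0 →
    q21_6 u v w x y z 1 1 1 0 0 2 = 0 →
    q12_1 u v w x y z u v w x y z = 0 →
    u = 0 ∧ v = 0 ∧ w = 0 ∧ x = 0 ∧ y = 0 ∧ z = 0 := by
  decide +kernel

theorem k3b_21_2 : ∀ u v w x y z : ZMod 3, q21_0 u v w x y z 2 0 1 1 1 2 = 0 →
    q21_2 u v w x y z 2 0 1 1 1 2 = 0 →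
    q21_4 u v w x y z 2 0 1 1 1 2 = 0 →
    q21_6 u v w x y z 2 0 1 1 1 2 = 0 →
    q12_1 u v w x y z u v w x y z = 0 →
    u = 0 ∧ v = 0 ∧ w = 0 ∧ x = 0 ∧ y = 0 ∧ z = 0 := by
  decide +kernel

theorem k3b_21_3 : ∀ u v w x y z : ZMod 3, q21_0 u v w x y z 2 2 2 0 0 1 = 0 →
    q21_2 u v w x y z 2 2 2 0 0 1 = 0 →
    q21_4 u v w x y z 2 2 2 0 0 1 = 0 →
    q21_6 u v w x y z 2 2 2 0 0 1 = 0 →
    q12_1 u v w x y z u v w x y z = 0 →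
    u = 0 ∧ v = 0 ∧ w = 0 ∧ x = 0 ∧ y = 0 ∧ z = 0 := by
  decide +kernel

theorem k3b_21 : ∀ a b c d e f : ZMod 3, q21_1 a b c d e f a b c d e f = 0 →
    q21_3 a b c d e f a b c d e f = 0 →
    q21_5 a b c d e f a b c d e f = 0 →
    ¬ (a = 0 ∧ b = 0 ∧ c = 0 ∧ d = 0 ∧ e = 0 ∧ f = 0) →
    ∀ u v w x y z : ZMod 3, q21_0 u v w x y z a b c d e f = 0 →
    q21_2 u v w x y z a b c d e f = 0 →
    q21_4 u v w x y z a b c d e f = 0 →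
    q21_6 u v w x y z a b c d e f = 0 →
    q12_1 u v w x y z u v w x y z = 0 →
    u = 0 ∧ v = 0 ∧ w = 0 ∧ x = 0 ∧ y = 0 ∧ z = 0 := by
  intro a b c d e f h1 h3 h5 h0 u v w x y z
  rcases sol_21 a b c d e f h1 h3 h5 h0 with ⟨rfl, rfl, rfl, rfl, rfl, rfl⟩ |
    ⟨rfl, rfl, rfl, rfl, rfl, rfl⟩ | ⟨rfl, rfl, rfl, rfl, rfl, rfl⟩ | ⟨rfl, rfl, rfl, rfl, rfl, rfl⟩
  · exact k3b_21_0 u v w x y z
  · exact k3b_21_1 u v w x y z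
  · exact k3b_21_2 u v w x y z
  · exact k3b_21_3 u v w x y z

theorem eq_zero_of (t : Fin 6 → ZMod 3)
    (h : t 0 = 0 ∧ t 1 = 0 ∧ t 2 = 0 ∧ t 3 = 0 ∧ t 4 = 0 ∧ t 5 = 0) : t = 0 := by
  obtain ⟨h0, h1, h2, h3, h4, h5⟩ := h
  funext i
  fin_cases i <;> assumption

theorem not_zero_of {t : Fin 6 → ZMod 3} (ht : t ≠ 0) :
    ¬ (t 0 = 0 ∧ t 1 = 0 ∧ t 2 = 0 ∧ t 3 = 0 ∧ t 4 = 0 ∧ t 5 = 0) :=
  fun h => ht (eq_zero_of t h)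

/-- `(Sa, Sb)` is one of the two orders of `(A1, A2)` -/
def Ord (Sa Sb : Matrix (Fin 6) (Fin 6) (ZMod 3)) : Prop :=
  (Sa = A1 ∧ Sb = A2) ∨ (Sa = A2 ∧ Sb = A1)

theorem chain_one (Sa Sb : Matrix (Fin 6) (Fin 6) (ZMod 3)) (t : Fin 6 → ZMod 3) :
    chain Sa Sb 1 t = Sa *ᵥ t := by simp [chain]

/-- (K4) -/
theorem K4 {Sa Sb : Matrix (Fin 6) (Fin 6) (ZMod 3)} (h : Ord Sa Sb) (t : Fin 6 → ZMod 3)
    (h1 : t ⬝ᵥ chain Sa Sb 1 t = 0) (h3 : t ⬝ᵥ chain Sa Sb 3 t = 0)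
    (h5 : t ⬝ᵥ chain Sa Sb 5 t = 0) (h7 : t ⬝ᵥ chain Sa Sb 7 t = 0) : t = 0 := by
  rcases h with ⟨rfl, rfl⟩ | ⟨rfl, rfl⟩
  · rw [dot12_1] at h1
    rw [dot12_3] at h3
    rw [dot12_5] at h5
    rw [dot12_7] at h7
    exact eq_zero_of t (k4_12 _ _ _ _ _ _ h1 h3 h5 h7)
  · rw [dot21_1] at h1
    rw [dot21_3] at h3
    rw [dot21_5] at h5
    rw [dot21_7] at h7
    exact eq_zero_of t (k4_21 _ _ _ _ _ _ h1 h3 h5 h7)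

/-- (K3), odd part -/
theorem K3a {Sa Sb : Matrix (Fin 6) (Fin 6) (ZMod 3)} (h : Ord Sa Sb) (t s : Fin 6 → ZMod 3)
    (ht : t ≠ 0)
    (h1 : t ⬝ᵥ chain Sa Sb 1 t = 0) (h3 : t ⬝ᵥ chain Sa Sb 3 t = 0)
    (h5 : t ⬝ᵥ chain Sa Sb 5 t = 0)
    (s1 : s ⬝ᵥ chain Sa Sb 1 t = 0) (s3 : s ⬝ᵥ chain Sa Sb 3 t = 0)
    (s5 : s ⬝ᵥ chain Sa Sb 5 t = 0) (s7 : s ⬝ᵥ chain Sa Sb 7 t = 0)
    (hs : s ⬝ᵥ Sa *ᵥ s = 0) : s = 0 := by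
  rcases h with ⟨rfl, rfl⟩ | ⟨rfl, rfl⟩
  · rw [← chain_one A1 A2, dot12_1] at hs
    rw [dot12_1] at h1 s1
    rw [dot12_3] at h3 s3
    rw [dot12_5] at h5 s5
    rw [dot12_7] at s7
    exact eq_zero_of s (k3a_12 _ _ _ _ _ _ h1 h3 h5 (not_zero_of ht) _ _ _ _ _ _ s1 s3 s5 s7 hs)
  · rw [← chain_one A2 A1, dot21_1] at hs
    rw [dot21_1] at h1 s1
    rw [dot21_3] at h3 s3
    rw [dot21_5] at h5 s5
    rw [dot21_7] at s7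
    exact eq_zero_of s (k3a_21 _ _ _ _ _ _ h1 h3 h5 (not_zero_of ht) _ _ _ _ _ _ s1 s3 s5 s7 hs)

/-- (K3), even part -/
theorem K3b {Sa Sb : Matrix (Fin 6) (Fin 6) (ZMod 3)} (h : Ord Sa Sb) (t s : Fin 6 → ZMod 3)
    (ht : t ≠ 0)
    (h1 : t ⬝ᵥ chain Sa Sb 1 t = 0) (h3 : t ⬝ᵥ chain Sa Sb 3 t = 0)
    (h5 : t ⬝ᵥ chain Sa Sb 5 t = 0)
    (s0 : s ⬝ᵥ chain Sa Sb 0 t = 0) (s2 : s ⬝ᵥ chain Sa Sb 2 t = 0)
    (s4 : s ⬝ᵥ chain Sa Sb 4 t = 0) (s6 : s ⬝ᵥ chain Sa Sb 6 t = 0)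
    (hs : s ⬝ᵥ Sb *ᵥ s = 0) : s = 0 := by
  rcases h with ⟨rfl, rfl⟩ | ⟨rfl, rfl⟩
  · rw [← chain_one A2 A1, dot21_1] at hs
    rw [dot12_1] at h1
    rw [dot12_3] at h3
    rw [dot12_5] at h5
    rw [dot12_0] at s0
    rw [dot12_2] at s2
    rw [dot12_4] at s4
    rw [dot12_6] at s6
    exact eq_zero_of s (k3b_12 _ _ _ _ _ _ h1 h3 h5 (not_zero_of ht) _ _ _ _ _ _ s0 s2 s4 s6 hs)
  · rw [← chain_one A1 A2, dot12_1] at hs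
    rw [dot21_1] at h1
    rw [dot21_3] at h3
    rw [dot21_5] at h5
    rw [dot21_0] at s0
    rw [dot21_2] at s2
    rw [dot21_4] at s4
    rw [dot21_6] at s6
    exact eq_zero_of s (k3b_21 _ _ _ _ _ _ h1 h3 h5 (not_zero_of ht) _ _ _ _ _ _ s0 s2 s4 s6 hs)

theorem A1_symm : A1ᵀ = A1 := by decide +kernel

theorem A2_symm : A2ᵀ = A2 := by decide +kernel

/-- `A1` is invertible -/
theorem A1_inv : ∃ B : Matrix (Fin 6) (Fin 6) (ZMod 3), B * A1 = 1 := by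
  exact ⟨!![-1, 1, -1, 0, -1, -1; 1, 0, 0, 0, 0, 0; -1, 0, -1, 0, -1, -1; 0, 0, 0, -1, 0, 0; -1, 0, -1, 0, -1, 0; -1, 0, -1, 0, 0, 0], by decide +kernel⟩

/-- `A2` is invertible -/
theorem A2_inv : ∃ B : Matrix (Fin 6) (Fin 6) (ZMod 3), B * A2 = 1 := by
  exact ⟨!![-1, 0, -1, 0, 0, -1; 0, 1, 1, -1, 1, -1; -1, 1, -1, 0, 0, -1; 0, -1, 0, 1, -1, 1; 0, 1, 0, -1, -1, -1; -1, -1, -1, 1, -1, 1], by decide +kernel⟩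

theorem A1_mulVec_eq_zero {t : Fin 6 → ZMod 3} (h : A1 *ᵥ t = 0) : t = 0 := by
  obtain ⟨B, hB⟩ := A1_inv
  have := congrArg (fun x => B *ᵥ x) h
  simpa [Matrix.mulVec_mulVec, hB] using this

theorem A2_mulVec_eq_zero {t : Fin 6 → ZMod 3} (h : A2 *ᵥ t = 0) : t = 0 := by
  obtain ⟨B, hB⟩ := A2_inv
  have := congrArg (fun x => B *ᵥ x) h
  simpa [Matrix.mulVec_mulVec, hB] using this

theorem Ord.mulVec_eq_zero {Sa Sb : Matrix (Fin 6) (Fin 6) (ZMod 3)} (h : Ord Sa Sb)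
    {t : Fin 6 → ZMod 3} (ht : Sa *ᵥ t = 0) : t = 0 := by
  rcases h with ⟨rfl, rfl⟩ | ⟨rfl, rfl⟩
  · exact A1_mulVec_eq_zero ht
  · exact A2_mulVec_eq_zero ht

theorem Ord.symm {Sa Sb : Matrix (Fin 6) (Fin 6) (ZMod 3)} (h : Ord Sa Sb) : Ord Sb Sa := by
  rcases h with ⟨rfl, rfl⟩ | ⟨rfl, rfl⟩
  · exact Or.inr ⟨rfl, rfl⟩
  · exact Or.inl ⟨rfl, rfl⟩

/-- the members of the chain of a nonzero vector are nonzero -/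
theorem chain_ne_zero {Sa Sb : Matrix (Fin 6) (Fin 6) (ZMod 3)} (h : Ord Sa Sb)
    {t : Fin 6 → ZMod 3} (ht : t ≠ 0) (k : ℕ) : chain Sa Sb k t ≠ 0 := by
  induction k with
  | zero => simpa [chain] using ht
  | succ k ih =>
    intro h0
    apply ih
    rw [chain] at h0
    by_cases hk : Even k
    · rw [if_pos hk] at h0
      exact h.mulVec_eq_zero h0
    · rw [if_neg hk] at h0
      exact h.symm.mulVec_eq_zero h0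

end Pool.Agent.FC.Chk
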