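import Pool.Agent.FC.Abs

/-!
# FC: the coefficient functionals are represented by Bochner integrals of kernel vectors
-/

open MeasureTheory Set Topology Filter

namespace Pool.Agent.FC.Abs

section NoMeas

variable {G : Type*} [Group G] {Γ : Subgroup G}

theorem Coef.mul_inv {V : Subgroup G} (v : V) : ∃ γ : G, γ ∈ V ∧ γ ∈ Γ ∧
    ((QuotientGroup.mk v : V ⧸ Γ.subgroupOf V).out : G) = v * γ := by
  obtain ⟨h, hh⟩ := QuotientGroup.mk_out_eq_mul (Γ.subgroupOf V) v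
  refine ⟨((h : V) : G), (h : V).2, Subgroup.mem_subgroupOf.1 h.2, ?_⟩
  rw [hh]
  rfl

theorem out_mk {V : Subgroup G} {E : Type*} (Φ : G → E)
    (hΦ : ∀ v ∈ V, ∀ γ ∈ V, γ ∈ Γ → Φ (v * γ) = Φ v) (v : V) :
    Φ ((QuotientGroup.mk v : V ⧸ Γ.subgroupOf V).out : G) = Φ v := by
  obtain ⟨γ, h1, h2, h3⟩ := Coef.mul_inv (Γ := Γ) v
  rw [h3]
  exact hΦ v v.2 γ h1 h2

theorem Coef.mk_inv (V : Subgroup G) (g : G) : ∀ v ∈ V, ∀ γ ∈ V, γ ∈ Γ →
    (QuotientGroup.mk (g⁻¹ * (v * γ)) : G ⧸ Γ) = QuotientGroup.mk (g⁻¹ * v) := by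
  intro v _ γ _ hγ
  rw [← mul_assoc]
  exact QuotientGroup.mk_mul_of_mem _ hγ

end NoMeas

variable {G : Type*} [Group G] [TopologicalSpace G] [IsTopologicalGroup G]
  [SecondCountableTopology G] [T2Space G] [LocallyCompactSpace G]
  [MeasurableSpace G] [BorelSpace G] {Γ : Subgroup G}
  [MeasurableSpace (G ⧸ Γ)] [BorelSpace (G ⧸ Γ)] {ν : Measure (G ⧸ Γ)}

omit [SecondCountableTopology G] [T2Space G] [LocallyCompactSpace G] [MeasurableSpace G]
  [BorelSpace G] [MeasurableSpace (G ⧸ Γ)] [BorelSpace (G ⧸ Γ)] in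
/-- functions on `V/(V ∩ Γ)` defined by representatives are continuous -/
theorem continuous_out {V : Subgroup G} {E : Type*} [TopologicalSpace E] (Φ : G → E)
    (hc : Continuous fun v : V => Φ v)
    (hΦ : ∀ v ∈ V, ∀ γ ∈ V, γ ∈ Γ → Φ (v * γ) = Φ v) :
    Continuous fun x : V ⧸ Γ.subgroupOf V => Φ (x.out : G) := by
  rw [(QuotientGroup.isOpenQuotientMap_mk (N := Γ.subgroupOf V)).isQuotientMap.continuous_iff]
  have : ((fun x : V ⧸ Γ.subgroupOf V => Φ (x.out : G)) ∘ QuotientGroup.mk) =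
      fun v : V => Φ v := by
    funext v
    exact out_mk Φ hΦ v
  rw [this]
  exact hc

theorem Coef.continuous_integrand {V : Subgroup G} [MeasurableSpace (V ⧸ Γ.subgroupOf V)]
    {ρ : Measure (V ⧸ Γ.subgroupOf V)} {θ : G → ℂ}
    (D : VData Γ V ρ θ) {k : G ⧸ Γ → Lp ℂ 2 ν} (hk : Continuous k) (g : G) :
    Continuous fun x : V ⧸ Γ.subgroupOf V =>
      starRingEnd ℂ (θ (x.out : G)) • k (QuotientGroup.mk (g⁻¹ * (x.out : G))) := by
  have h1 : Continuous fun x : V ⧸ Γ.subgroupOf V => starRingEnd ℂ (θ (x.out : G)) := by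
    refine continuous_out (fun v => starRingEnd ℂ (θ v)) ?_ ?_
    · exact Complex.continuous_conj.comp D.cont
    · intro v hv γ hγ hγ'
      rw [D.inv v hv γ hγ hγ']
  have h2 : Continuous fun x : V ⧸ Γ.subgroupOf V =>
      k (QuotientGroup.mk (g⁻¹ * (x.out : G))) := by
    refine continuous_out (fun v => k (QuotientGroup.mk (g⁻¹ * v))) ?_ ?_
    · exact hk.comp (QuotientGroup.continuous_mk.comp
        (continuous_const.mul continuous_subtype_val))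
    · intro v hv γ hγ hγ'
      rw [Coef.mk_inv V g v hv γ hγ hγ']
  exact h1.smul h2

theorem Coef.integrable_integrand {V : Subgroup G} [MeasurableSpace (V ⧸ Γ.subgroupOf V)]
    [BorelSpace (V ⧸ Γ.subgroupOf V)] {ρ : Measure (V ⧸ Γ.subgroupOf V)} {θ : G → ℂ}
    (D : VData Γ V ρ θ) {k : G ⧸ Γ → Lp ℂ 2 ν} (hk : Continuous k) (g : G) :
    Integrable (fun x : V ⧸ Γ.subgroupOf V =>
      starRingEnd ℂ (θ (x.out : G)) • k (QuotientGroup.mk (g⁻¹ * (x.out : G)))) ρ := by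
  have := D.compact
  have := D.finite
  exact (Coef.continuous_integrand D hk g).integrable_of_hasCompactSupport
    (HasCompactSupport.of_compactSpace _)

/-- `ξ` represents the coefficient functional `f ↦ coef (x ↦ ⟪k x, f⟫)`. -/
theorem inner_xi {V : Subgroup G} [MeasurableSpace (V ⧸ Γ.subgroupOf V)]
    [BorelSpace (V ⧸ Γ.subgroupOf V)] {ρ : Measure (V ⧸ Γ.subgroupOf V)} {θ : G → ℂ}
    (D : VData Γ V ρ θ) {k : G ⧸ Γ → Lp ℂ 2 ν} (hk : Continuous k) (g : G) (f : Lp ℂ 2 ν) :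
    inner ℂ (xi ρ θ k g) f = coef Γ V ρ θ (fun x => inner ℂ (k x) f) g := by
  unfold xi coef
  rw [← inner_conj_symm, ← integral_inner (Coef.integrable_integrand D hk g), ← integral_conj]
  refine integral_congr_ae (Eventually.of_forall fun x => ?_)
  change starRingEnd ℂ (inner ℂ f (starRingEnd ℂ (θ (x.out : G)) •
    k (QuotientGroup.mk (g⁻¹ * (x.out : G))))) =
      inner ℂ (k (QuotientGroup.mk (g⁻¹ * (x.out : G)))) f * θ (x.out : G)
  rw [inner_smul_right, map_mul, Complex.conj_conj, inner_conj_symm, mul_comm]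

/-- the inner product of two such vectors as a double integral -/
theorem inner_xi_xi {V₁ V₂ : Subgroup G} [MeasurableSpace (V₁ ⧸ Γ.subgroupOf V₁)]
    [BorelSpace (V₁ ⧸ Γ.subgroupOf V₁)] [MeasurableSpace (V₂ ⧸ Γ.subgroupOf V₂)]
    [BorelSpace (V₂ ⧸ Γ.subgroupOf V₂)] {ρ₁ : Measure (V₁ ⧸ Γ.subgroupOf V₁)}
    {ρ₂ : Measure (V₂ ⧸ Γ.subgroupOf V₂)} {θ₁ θ₂ : G → ℂ}
    (D₁ : VData Γ V₁ ρ₁ θ₁) (D₂ : VData Γ V₂ ρ₂ θ₂) {k : G ⧸ Γ → Lp ℂ 2 ν} (hk : Continuous k) :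
    inner ℂ (xi ρ₂ θ₂ k 1) (xi ρ₁ θ₁ k 1) =
      ∫ x : V₂ ⧸ Γ.subgroupOf V₂, ∫ y : V₁ ⧸ Γ.subgroupOf V₁,
        θ₂ (x.out : G) * starRingEnd ℂ (θ₁ (y.out : G)) *
          inner ℂ (k (QuotientGroup.mk (x.out : G))) (k (QuotientGroup.mk (y.out : G))) ∂ρ₁ ∂ρ₂ := by
  rw [inner_xi D₂ hk]
  unfold coef
  refine integral_congr_ae (Eventually.of_forall fun x => ?_)
  change inner ℂ (k (QuotientGroup.mk ((1 : G)⁻¹ * (x.out : G)))) (xi ρ₁ θ₁ k 1) *
    θ₂ (x.out : G) = _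
  rw [inv_one, one_mul]
  unfold xi
  rw [← integral_inner (Coef.integrable_integrand D₁ hk 1), ← integral_mul_const]
  refine integral_congr_ae (Eventually.of_forall fun y => ?_)
  change inner ℂ (k (QuotientGroup.mk (x.out : G))) (starRingEnd ℂ (θ₁ (y.out : G)) •
    k (QuotientGroup.mk ((1 : G)⁻¹ * (y.out : G)))) * θ₂ (x.out : G) = _
  rw [inner_smul_right, inv_one, one_mul]
  ring

end Pool.Agent.FC.Abs
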