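import Pool.Agent.FC.Base
import Pool.Agent.FC.AdeleBasic

/-!
Local character at 3.  theta psi q for q in Z[1/3]: 1 = psi(q) = e^{2 pi i q} theta(q).
-/

open RestrictedProduct Matrix MeasureTheory

noncomputable section

namespace Pool.Agent.FC

theorem Psi3.iota3_zero : iota3 0 = 0 := by
  unfold iota3
  rw [RestrictedProduct.single_zero]
  rfl

theorem Psi3.iota3_add (x y : ℚ_[(p3 : ℕ)]) : iota3 (x + y) = iota3 x + iota3 y := by
  unfold iota3
  rw [RestrictedProduct.single_add, Prod.mk_add_mk, add_zero]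

theorem Psi3.iota3_snd_same (x : ℚ_[(p3 : ℕ)]) : (iota3 x).2 p3 = x :=
  RestrictedProduct.single_eq_same _ _ _

theorem Psi3.iota3_snd_ne (x : ℚ_[(p3 : ℕ)]) {p : Nat.Primes} (hp : p ≠ p3) :
    (iota3 x).2 p = 0 :=
  RestrictedProduct.single_eq_of_ne _ _ hp

/-- the local character at `3` -/
def theta (ψ : AddChar Adele Circle) : AddChar ℚ_[(p3 : ℕ)] Circle where
  toFun x := ψ (iota3 x)
  map_zero_eq_one' := by
    rw [Psi3.iota3_zero, AddChar.map_zero_eq_one]
  map_add_eq_mul' := by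
    intro a b
    rw [Psi3.iota3_add, AddChar.map_add_eq_mul]

theorem Psi3.theta_apply (ψ : AddChar Adele Circle) (x : ℚ_[(p3 : ℕ)]) :
    theta ψ x = ψ (iota3 x) := rfl

/-- an adele with zero real part, integral outside `3` -/
theorem psi_away {ψ : AddChar Adele Circle} (hψ : IsStd ψ) (x : Adele) (hr : x.1 = 0)
    (hx : ∀ p : Nat.Primes, p ≠ p3 → ‖x.2 p‖ ≤ 1) : ψ x = theta ψ (x.2 p3) := by
  have h1 : x = iota3 (x.2 p3) + (x - iota3 (x.2 p3)) := by abel
  have h2 : x - iota3 (x.2 p3) = (0, (x - iota3 (x.2 p3)).2) := by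
    refine Prod.ext ?_ rfl
    change x.1 - (iota3 (x.2 p3)).1 = 0
    rw [hr]
    exact sub_zero 0
  have h3 : ψ (x - iota3 (x.2 p3)) = 1 := by
    rw [h2]
    refine hψ.int _ ?_
    intro p
    have h4 : (x - iota3 (x.2 p3)).2 p = x.2 p - (iota3 (x.2 p3)).2 p := rfl
    rw [h4]
    by_cases hp : p = p3
    · subst hp
      rw [Psi3.iota3_snd_same, sub_self, norm_zero]
      exact zero_le_one
    · rw [Psi3.iota3_snd_ne _ hp, sub_zero]
      exact hx p hp
  calc ψ x = ψ (iota3 (x.2 p3) + (x - iota3 (x.2 p3))) := by rw [← h1]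
    _ = theta ψ (x.2 p3) := by rw [AddChar.map_add_eq_mul, h3, mul_one]; rfl

theorem Psi3.theta_int {ψ : AddChar Adele Circle} (hψ : IsStd ψ) {x : ℚ_[(p3 : ℕ)]}
    (hx : ‖x‖ ≤ 1) : theta ψ x = 1 := by
  rw [Psi3.theta_apply]
  refine hψ.int _ ?_
  intro p
  by_cases hp : p = p3
  · subst hp
    have := Psi3.iota3_snd_same x
    rw [show (RestrictedProduct.single (fun p : Nat.Primes => PadicInt.subring (p : ℕ)) p3 x) p3
      = x from this]
    exact hx
  · have := Psi3.iota3_snd_ne x hp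
    rw [show (RestrictedProduct.single (fun p : Nat.Primes => PadicInt.subring (p : ℕ)) p3 x) p
      = 0 from this, norm_zero]
    exact zero_le_one

theorem theta_eq_one_iff {ψ : AddChar Adele Circle} (hψ : IsStd ψ) (x : ℚ_[(p3 : ℕ)]) :
    theta ψ x = 1 ↔ ‖x‖ ≤ 1 := by
  constructor
  · intro h
    obtain ⟨q, hq1, hq2⟩ := exists_local_part (p3 : ℕ) x
    have h1 : theta ψ (q : ℚ_[(p3 : ℕ)]) = 1 := by
      have h2 : theta ψ x = theta ψ (x - q) * theta ψ (q : ℚ_[(p3 : ℕ)]) := by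
        rw [← AddChar.map_add_eq_mul, sub_add_cancel]
      rw [h, Psi3.theta_int hψ hq1, one_mul] at h2
      exact h2.symm
    have h3 : ψ (0, ratFin q) = theta ψ (q : ℚ_[(p3 : ℕ)]) := by
      refine psi_away hψ (0, ratFin q) rfl ?_
      intro p hp
      exact hq2 p.1 inferInstance (fun h => hp (Nat.Primes.coe_nat_injective h))
    have h4 : ψ (ratAdele q) = ψ ((q : ℝ), 0) * ψ (0, ratFin q) := by
      rw [← AddChar.map_add_eq_mul, Prod.mk_add_mk, add_zero, zero_add]
      rfl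
    rw [hψ.rat q, h3, h1, mul_one] at h4
    have h5 := hψ.real q
    rw [← h4] at h5
    have h6 : Complex.exp (2 * Real.pi * Complex.I * (q : ℝ)) = 1 := by
      rw [← h5]; rfl
    rw [Complex.exp_eq_one_iff] at h6
    obtain ⟨n, hn⟩ := h6
    have h7 : ((q : ℝ) : ℂ) = (n : ℂ) := by
      have hne : (2 * (Real.pi : ℂ) * Complex.I) ≠ 0 := Complex.two_pi_I_ne_zero
      refine mul_left_cancel₀ hne ?_
      rw [hn]; ring
    have h8 : (q : ℝ) = (n : ℝ) := by exact_mod_cast h7
    have h9 : q = (n : ℚ) := by exact_mod_cast h8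
    have h10 : ‖(q : ℚ_[(p3 : ℕ)])‖ ≤ 1 := by
      rw [h9]
      have : (((n : ℚ)) : ℚ_[(p3 : ℕ)]) = (n : ℚ_[(p3 : ℕ)]) := by push_cast; rfl
      rw [this]
      exact Padic.norm_int_le_one n
    have h11 : x = (x - q) + q := by ring
    rw [h11]
    exact (PadicInt.subring (p3 : ℕ)).add_mem hq1 h10
  · exact Psi3.theta_int hψ

theorem theta_continuous {ψ : AddChar Adele Circle} (hψ : IsStd ψ) : Continuous (theta ψ) := by
  let f : ℚ_[(p3 : ℕ)] →+ Additive Circle :=
    { toFun := fun x => Additive.ofMul (theta ψ x)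
      map_zero' := by rw [AddChar.map_zero_eq_one]; rfl
      map_add' := fun x y => by rw [AddChar.map_add_eq_mul]; rfl }
  have hf : Continuous f := by
    refine continuous_of_continuousAt_zero f ?_
    have h1 : (fun _ : ℚ_[(p3 : ℕ)] => (0 : Additive Circle)) =ᶠ[nhds 0] f := by
      have : Metric.closedBall (0 : ℚ_[(p3 : ℕ)]) 1 ∈ nhds (0 : ℚ_[(p3 : ℕ)]) :=
        Metric.closedBall_mem_nhds _ one_pos
      filter_upwards [this] with x hx
      change (0 : Additive Circle) = Additive.ofMul (theta ψ x)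
      rw [Psi3.theta_int hψ (by simpa using hx)]
      rfl
    exact continuousAt_const.congr h1
  exact continuous_toMul.comp hf

end Pool.Agent.FC
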