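import Pool.Agent.FC.Base

/-!
# FC: `ψ_f` is a continuous unitary character of `V(𝔸)`, trivial on `V(ℚ)`
-/

open RestrictedProduct Matrix MeasureTheory

noncomputable section

namespace Pool.Agent.FC

namespace PsiChiB

/-- positive integers are units in the adeles -/
theorem isUnit_int (j : ℤ) (hj : 1 ≤ j) : IsUnit ((j : ℤ) : Adele) := by
  have h1 : ((j : ℤ) : Adele) = ratAdele (j : ℚ) := (map_intCast ratAdele j).symm
  rw [h1]
  have h2 : IsUnit ((j : ℤ) : ℚ) := by
    rw [isUnit_iff_ne_zero]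
    exact_mod_cast (by omega : j ≠ 0)
  exact h2.map ratAdele

/-- elements of positive `ad`-weight have trace `0` -/
theorem trace_eq_zero {n : ℕ} {R : Type*} [CommRing R] {h : Mat n R}
    (hu : ∀ j : ℤ, 1 ≤ j → IsUnit ((j : ℤ) : R)) {i : ℤ} (hi : 1 ≤ i) {X : Mat n R}
    (hX : X ∈ adGE h i) : Matrix.trace X = 0 := by
  induction hX using Submodule.span_induction with
  | mem X hX =>
    obtain ⟨j, hj, hX⟩ := hX
    have h1 : Matrix.trace (h * X - X * h) = (j : R) * Matrix.trace X := by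
      rw [hX, Matrix.trace_smul, smul_eq_mul]
    rw [Matrix.trace_sub, Matrix.trace_mul_comm, sub_self] at h1
    exact (hu j (hi.trans hj)).mul_right_eq_zero.1 h1.symm
  | zero => exact Matrix.trace_zero _ _
  | add X Y _ _ h1 h2 => rw [Matrix.trace_add, h1, h2, add_zero]
  | smul c X _ h1 => rw [Matrix.trace_smul, h1, smul_zero]

/-- `f` has weight `-2` -/
theorem f_mem_adGE {n : ℕ} (T : Triple n) {R : Type*} [CommRing R] (φ : ℚ →+* R) :
    T.f.map φ ∈ adGE (T.h.map φ) (-2) := by
  refine Submodule.subset_span ⟨-2, le_refl _, ?_⟩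
  have h1 : (T.h * T.f - T.f * T.h).map φ = (-(2 • T.f)).map φ := by rw [T.hf]
  rw [Matrix.map_sub _ (map_sub φ), Matrix.map_mul, Matrix.map_mul] at h1
  rw [h1]
  ext i j
  change φ (-(2 • T.f i j)) = ((-2 : ℤ) : R) * φ (T.f i j)
  rw [map_neg, map_nsmul, nsmul_eq_mul]
  push_cast
  ring

theorem trace_f_mul {n : ℕ} (T : Triple n) {X : Mat n Adele}
    (hX : X ∈ adGE (T.h.map ratAdele) 3) : Matrix.trace (T.f.map ratAdele * X) = 0 := by
  have h1 := adGE_mul (f_mem_adGE T ratAdele) hX
  exact trace_eq_zero isUnit_int (by norm_num) h1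

end PsiChiB

/-- `ψ_f` is a character of `V(𝔸)`. -/
theorem char_mul {n : ℕ} (ψ : AddChar Adele Circle) (T : Triple n) {v w : GA n} (hv : v ∈ T.VA)
    (hw : w ∈ T.VA) : T.char ψ (v * w) = T.char ψ v * T.char ψ w := by
  have h1 : T.f.map ratAdele * (((v * w : GA n) : Mat n Adele) - 1)
      = T.f.map ratAdele * (((v : Mat n Adele) - 1) * ((w : Mat n Adele) - 1))
        + T.f.map ratAdele * ((v : Mat n Adele) - 1)
        + T.f.map ratAdele * ((w : Mat n Adele) - 1) := by
    rw [Submonoid.coe_mul]; noncomm_ring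
  have h2 : Matrix.trace (T.f.map ratAdele * (((v : Mat n Adele) - 1) * ((w : Mat n Adele) - 1)))
      = 0 := PsiChiB.trace_f_mul T (adGE_mono (by norm_num) (adGE_mul hv hw))
  unfold Triple.char
  rw [h1, Matrix.trace_add, Matrix.trace_add, h2, zero_add, AddChar.map_add_eq_mul, Circle.coe_mul]

theorem char_rat {n : ℕ} (ψ : AddChar Adele Circle) (hQ : ∀ q : ℚ, ψ (ratAdele q) = 1)
    (T : Triple n) {v : GA n} (hv : v ∈ T.VA) (hv' : v ∈ GQ n) : T.char ψ v = 1 := by
  obtain ⟨q, rfl⟩ := hv'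
  have h1 : T.f.map ratAdele * (((spMap n ratAdele q : GA n) : Mat n Adele) - 1)
      = (T.f * ((q : Mat n ℚ) - 1)).map ratAdele := by
    rw [Matrix.map_mul, Matrix.map_sub _ (map_sub ratAdele), Matrix.map_one _ (map_zero _)
      (map_one _)]
    rfl
  unfold Triple.char
  rw [h1]
  have h2 : Matrix.trace ((T.f * ((q : Mat n ℚ) - 1)).map ratAdele)
      = ratAdele (Matrix.trace (T.f * ((q : Mat n ℚ) - 1))) := by
    rw [Matrix.trace, Matrix.trace, map_sum]
    rfl
  rw [h2, hQ, Circle.coe_one]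

theorem char_norm {n : ℕ} (ψ : AddChar Adele Circle) (T : Triple n) (v : GA n) :
    ‖T.char ψ v‖ = 1 := Circle.norm_coe _

theorem char_continuous {n : ℕ} (ψ : AddChar Adele Circle) (hc : Continuous ψ) (T : Triple n) :
    Continuous (fun v : GA n => T.char ψ v) := by
  have h1 : Continuous fun v : GA n => (v : Mat n Adele) := continuous_subtype_val
  have h2 : Continuous fun v : GA n =>
      Matrix.trace (T.f.map ratAdele * ((v : Mat n Adele) - 1)) :=
    (Continuous.matrix_mul continuous_const (h1.sub continuous_const)).matrix_trace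
  exact continuous_subtype_val.comp (hc.comp h2)

end Pool.Agent.FC
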