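import Pool.Agent.FC.PsiChiA
import Pool.Agent.FC.PsiChiB

/-!
(7b): `char_eq_chi` is in `PsiChiA`; `char_mul`, `char_rat`, `char_norm`, `char_continuous`
are in `PsiChiB`.
-/
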