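import Pool.Agent.FC.Base
import Pool.Agent.FC.Psi3
import Pool.Agent.FC.PsiChi
import Pool.Agent.FC.AdeleSp

/-!
Section 8, last paragraph.  Coefficient C(F,g) = int F(g^-1 v) psi_f(v) drho(v) (Defs: `Triple.coeff`).
C(F, w g) = psi_f(w) C(F,g) for w in V(A) (substitution v -> w v, rho invariant; T.char multiplicative on VA and trivial on VQ:
helper lemmas in PsiChi (char_mul, char_rat) may be used by importing Pool.Agent.FC.PsiChi).
C(F, g u) = chi(u) C(F,g) for u = emb3 j.  w := g u g^-1 in VA.  T.char psi w = theta(...) and chi psi (emb3 j) = theta(...) by psi_away.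
-/

open RestrictedProduct Matrix MeasureTheory

noncomputable section

namespace Pool.Agent.FC

theorem evR_iota3 (x : ℚ_[(p3 : ℕ)]) : evR (iota3 x) = 0 := rfl

theorem evp_iota3 (x : ℚ_[(p3 : ℕ)]) : evp p3 (iota3 x) = x := by
  change (RestrictedProduct.single (fun p : Nat.Primes => PadicInt.subring (p : ℕ)) p3 x) p3 = x
  exact RestrictedProduct.single_eq_same _ _ _

theorem evp_iota3_ne (x : ℚ_[(p3 : ℕ)]) {p : Nat.Primes} (hp : p ≠ p3) :
    evp p (iota3 x) = 0 := by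
  change (RestrictedProduct.single (fun p : Nat.Primes => PadicInt.subring (p : ℕ)) p3 x) p = 0
  exact RestrictedProduct.single_eq_of_ne _ _ hp

theorem adele_ext_ev {x y : Adele} (h : evR x = evR y) (h' : ∀ p, evp p x = evp p y) : x = y :=
  Prod.ext h (RestrictedProduct.ext _ _ h')

theorem mat_ext_ev {n : ℕ} {M N : Mat n Adele} (h : M.map evR = N.map evR)
    (h' : ∀ p, M.map (evp p) = N.map (evp p)) : M = N := by
  ext i j
  · exact congrFun (congrFun h i) j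
  · rename_i p
    exact congrFun (congrFun (h' p) i) j

theorem emb_mapR (M : Mat 6 ℚ_[(p3 : ℕ)]) :
    ((1 : Mat 6 Adele) + M.map iota3).map evR = 1 := by
  ext i j
  simp [Matrix.map_apply, Matrix.add_apply, evR_iota3, Matrix.one_apply, apply_ite evR]

theorem emb_map3 (M : Mat 6 ℚ_[(p3 : ℕ)]) :
    ((1 : Mat 6 Adele) + M.map iota3).map (evp p3) = 1 + M := by
  ext i j
  simp only [Matrix.map_apply, Matrix.add_apply, Matrix.one_apply, map_add, apply_ite (evp p3),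
    map_one, map_zero]
  congr 1

theorem emb_map_ne (M : Mat 6 ℚ_[(p3 : ℕ)]) {p : Nat.Primes} (hp : p ≠ p3) :
    ((1 : Mat 6 Adele) + M.map iota3).map (evp p) = 1 := by
  ext i j
  simp [Matrix.map_apply, Matrix.add_apply, evp_iota3_ne _ hp, Matrix.one_apply,
    apply_ite (evp p)]

/-- The element of `Sp_12(𝔸)` with component `j` at `3` and `1` elsewhere. -/
def emb3 (j : Matrix.symplecticGroup (Fin 6) ℚ_[(p3 : ℕ)]) : GA 6 :=
  ⟨1 + ((j : Mat 6 ℚ_[(p3 : ℕ)]) - 1).map iota3, by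
    rw [SymplecticGroup.mem_iff]
    apply mat_ext_ev
    · rw [Matrix.map_mul, Matrix.map_mul, Matrix.transpose_map, emb_mapR, map_J (Fin 6) evR]
      simp
    · intro p
      rw [Matrix.map_mul, Matrix.map_mul, Matrix.transpose_map, map_J (Fin 6) (evp p)]
      by_cases hp : p = p3
      · subst hp
        rw [emb_map3, add_sub_cancel]
        exact SymplecticGroup.mem_iff.mp j.2
      · rw [emb_map_ne _ hp]
        simp⟩

theorem gp_emb3 (j : Matrix.symplecticGroup (Fin 6) ℚ_[(p3 : ℕ)]) :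
    gp (emb3 j) p3 = (j : Mat 6 ℚ_[(p3 : ℕ)]) := by
  change ((1 : Mat 6 Adele) + ((j : Mat 6 ℚ_[(p3 : ℕ)]) - 1).map iota3).map (evp p3) = _
  rw [emb_map3, add_sub_cancel]

theorem gp_emb3_ne (j : Matrix.symplecticGroup (Fin 6) ℚ_[(p3 : ℕ)]) {p : Nat.Primes}
    (hp : p ≠ p3) : gp (emb3 j) p = 1 :=
  emb_map_ne _ hp

theorem gR_emb3 (j : Matrix.symplecticGroup (Fin 6) ℚ_[(p3 : ℕ)]) : gR (emb3 j) = 1 :=
  emb_mapR _

/-! ### the embedding of local matrices -/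

theorem i3_mapR (M : Mat 6 ℚ_[(p3 : ℕ)]) : (M.map iota3).map evR = 0 := rfl

theorem i3_map3 (M : Mat 6 ℚ_[(p3 : ℕ)]) : (M.map iota3).map (evp p3) = M := by
  ext i j
  exact evp_iota3 _

theorem i3_map_ne (M : Mat 6 ℚ_[(p3 : ℕ)]) {p : Nat.Primes} (hp : p ≠ p3) :
    (M.map iota3).map (evp p) = 0 := by
  ext i j
  exact evp_iota3_ne _ hp

theorem rat_map3 (h : Mat 6 ℚ) :
    (h.map ratAdele).map (evp p3) = h.map (Rat.cast : ℚ → ℚ_[(p3 : ℕ)]) := rfl

theorem i3_add (M N : Mat 6 ℚ_[(p3 : ℕ)]) :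
    (M + N).map iota3 = M.map iota3 + N.map iota3 := by
  apply mat_ext_ev
  · rw [Matrix.map_add _ (map_add evR), i3_mapR, i3_mapR, i3_mapR, add_zero]
  · intro p
    rw [Matrix.map_add _ (map_add (evp p))]
    by_cases hp : p = p3
    · subst hp
      rw [i3_map3, i3_map3, i3_map3]
    · rw [i3_map_ne _ hp, i3_map_ne _ hp, i3_map_ne _ hp, add_zero]

theorem i3_smul (c : ℚ_[(p3 : ℕ)]) (M : Mat 6 ℚ_[(p3 : ℕ)]) :
    (c • M).map iota3 = iota3 c • M.map iota3 := by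
  have key : ∀ (R : Type) [CommRing R] (φ : Adele →+* R) (a : Adele) (N : Mat 6 Adele),
      (a • N).map φ = φ a • N.map φ := by
    intro R _ φ a N
    ext i j
    simp
  apply mat_ext_ev
  · rw [key, i3_mapR, i3_mapR, smul_zero]
  · intro p
    rw [key]
    by_cases hp : p = p3
    · subst hp
      rw [i3_map3, i3_map3]
      congr 1
    · rw [i3_map_ne _ hp, i3_map_ne _ hp, smul_zero]

theorem i3_zero : (0 : Mat 6 ℚ_[(p3 : ℕ)]).map iota3 = 0 := by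
  apply mat_ext_ev
  · rw [i3_mapR]; ext i j; simp
  · intro p
    by_cases hp : p = p3
    · subst hp
      rw [i3_map3]; ext i j; simp
    · rw [i3_map_ne _ hp]; ext i j; simp

theorem i3_adGE (h : Mat 6 ℚ) {i : ℤ} {M : Mat 6 ℚ_[(p3 : ℕ)]}
    (hM : M ∈ adGE (h.map (Rat.cast : ℚ → ℚ_[(p3 : ℕ)])) i) :
    M.map iota3 ∈ adGE (h.map ratAdele) i := by
  induction hM using Submodule.span_induction with
  | mem X hX =>
    obtain ⟨a, ha, hX⟩ := hX
    refine Submodule.subset_span ⟨a, ha, ?_⟩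
    have key : ∀ (R : Type) [CommRing R] (φ : Adele →+* R) (N : Mat 6 Adele),
        (((a : ℤ) : Adele) • N).map φ = ((a : ℤ) : R) • N.map φ := by
      intro R _ φ N
      ext i j
      simp
    apply mat_ext_ev
    · rw [Matrix.map_sub _ (map_sub evR), Matrix.map_mul, Matrix.map_mul, i3_mapR, key,
        i3_mapR]
      simp
    · intro p
      rw [Matrix.map_sub _ (map_sub (evp p)), Matrix.map_mul, Matrix.map_mul, key]
      by_cases hp : p = p3
      · subst hp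
        rw [i3_map3, rat_map3]
        exact hX
      · rw [i3_map_ne _ hp]
        simp
  | zero => rw [i3_zero]; exact Submodule.zero_mem _
  | add X Y _ _ h1 h2 => rw [i3_add]; exact Submodule.add_mem _ h1 h2
  | smul c X _ h1 => rw [i3_smul]; exact Submodule.smul_mem _ _ h1

/-- an element of `GA 6` whose real component and components outside `3` are `1`, and whose
component at `3` is in `unip`, is in `VA` -/
theorem mem_VA_of_local (T : Triple 6) {w : GA 6} (hR : gR w = 1)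
    (hp : ∀ p : Nat.Primes, p ≠ p3 → gp w p = 1)
    (h3 : gp w p3 - 1 ∈ adGE (T.h.map (Rat.cast : ℚ → ℚ_[(p3 : ℕ)])) 2) : w ∈ T.VA := by
  have e : (w : Mat 6 Adele) - 1 = (gp w p3 - 1).map iota3 := by
    have h1 : ∀ (R : Type) [CommRing R] (φ : Adele →+* R), (1 : Mat 6 Adele).map φ = 1 := by
      intro R _ φ
      exact Matrix.map_one φ (map_zero φ) (map_one φ)
    apply mat_ext_ev
    · rw [Matrix.map_sub _ (map_sub evR), h1, i3_mapR]
      exact sub_eq_zero.mpr hR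
    · intro p
      rw [Matrix.map_sub _ (map_sub (evp p)), h1]
      by_cases hpp : p = p3
      · subst hpp
        rw [i3_map3]
        rfl
      · rw [i3_map_ne _ hpp]
        exact sub_eq_zero.mpr (hp p hpp)
  change (w : Mat 6 Adele) - 1 ∈ adGE (T.h.map ratAdele) 2
  rw [e]
  exact i3_adGE _ h3

theorem gp_mul (a b : GA 6) (p : Nat.Primes) : gp (a * b) p = gp a p * gp b p :=
  Matrix.map_mul

theorem gR_mul (a b : GA 6) : gR (a * b) = gR a * gR b :=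
  Matrix.map_mul

theorem gp_one (p : Nat.Primes) : gp (1 : GA 6) p = 1 :=
  Matrix.map_one (evp p) (map_zero _) (map_one _)

theorem gR_one : gR (1 : GA 6) = 1 :=
  Matrix.map_one evR (map_zero _) (map_one _)

theorem integral_out_left {V : Type*} [Group V] [TopologicalSpace V] [IsTopologicalGroup V]
    (N : Subgroup V) [MeasurableSpace (V ⧸ N)] [BorelSpace (V ⧸ N)] (ρ : Measure (V ⧸ N))
    [SMulInvariantMeasure V (V ⧸ N) ρ] (Φ : V → ℂ) (hΦ : ∀ v, ∀ q ∈ N, Φ (v * q) = Φ v) (w : V) :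
    ∫ x : V ⧸ N, Φ (w⁻¹ * x.out) ∂ρ = ∫ x : V ⧸ N, Φ x.out ∂ρ := by
  set Ψ : V ⧸ N → ℂ := fun x => Φ x.out with hΨ
  have hΨmk : ∀ v : V, Ψ (QuotientGroup.mk v) = Φ v := by
    intro v
    obtain ⟨q, hq⟩ := QuotientGroup.mk_out_eq_mul N v
    simp only [hΨ]
    rw [hq, hΦ _ _ q.2]
  have e1 : (fun x : V ⧸ N => Φ (w⁻¹ * x.out)) = fun x => Ψ (w⁻¹ • x) := by
    funext x
    have ex : w⁻¹ • x = (QuotientGroup.mk (w⁻¹ * x.out) : V ⧸ N) := by
      conv_lhs => rw [← QuotientGroup.out_eq' x]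
      rfl
    rw [ex, hΨmk]
  rw [e1]
  exact integral_smul_eq_self (μ := ρ) Ψ

theorem autFun_mul_rat (F : AutQuot 6 → ℂ) (g : GA 6) {q : GA 6} (hq : q ∈ GQ 6) :
    autFun F (q⁻¹ * g) = autFun F g := by
  unfold autFun
  congr 1
  rw [QuotientGroup.eq]
  have : ((q⁻¹ * g)⁻¹)⁻¹ * g⁻¹ = q⁻¹ := by group
  rw [this]
  exact (GQ 6).inv_mem hq

/-- the integrand of the coefficient, as a function on `V(𝔸)` -/
def Phi (ψ : AddChar Adele Circle) (T : Triple 6) (F : AutQuot 6 → ℂ) (g : GA 6) (v : T.VA) : ℂ :=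
  autFun F ((v : GA 6)⁻¹ * g) * T.char ψ (v : GA 6)

theorem Phi_q (ψ : AddChar Adele Circle) (hQ : ∀ q : ℚ, ψ (ratAdele q) = 1) (T : Triple 6)
    (F : AutQuot 6 → ℂ) (g : GA 6) (v q : T.VA) (hq : q ∈ T.VQ) :
    Phi ψ T F g (v * q) = Phi ψ T F g v := by
  have hq' : (q : GA 6) ∈ GQ 6 := Subgroup.mem_subgroupOf.mp hq
  have e1 : T.char ψ ((v * q : T.VA) : GA 6) = T.char ψ (v : GA 6) := by
    rw [Subgroup.coe_mul, char_mul ψ T v.2 q.2, char_rat ψ hQ T q.2 hq', mul_one]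
  have e2 : (((v * q : T.VA) : GA 6))⁻¹ * g = (q : GA 6)⁻¹ * ((v : GA 6)⁻¹ * g) := by
    rw [Subgroup.coe_mul, _root_.mul_inv_rev, mul_assoc]
  unfold Phi
  rw [e1, e2, autFun_mul_rat F _ hq']

theorem coeff_eq (ψ : AddChar Adele Circle) (T : Triple 6)
    (ρ : Measure (T.VA ⧸ T.VQ)) (F : AutQuot 6 → ℂ) (g : GA 6) :
    T.coeff ψ ρ F g = ∫ x : T.VA ⧸ T.VQ, Phi ψ T F g x.out ∂ρ := rfl

theorem Phi_w (ψ : AddChar Adele Circle) (T : Triple 6) (F : AutQuot 6 → ℂ) (w v : T.VA)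
    (g : GA 6) :
    autFun F ((v : GA 6)⁻¹ * ((w : GA 6) * g)) * T.char ψ (v : GA 6)
      = T.char ψ (w : GA 6) * Phi ψ T F g (w⁻¹ * v) := by
  have ec : T.char ψ (v : GA 6)
      = T.char ψ (w : GA 6) * T.char ψ ((w⁻¹ * v : T.VA) : GA 6) := by
    rw [← char_mul ψ T w.2 (w⁻¹ * v : T.VA).2, Subgroup.coe_mul, Subgroup.coe_inv,
      mul_inv_cancel_left]
  have eF : ((v : GA 6))⁻¹ * ((w : GA 6) * g) = ((w⁻¹ * v : T.VA) : GA 6)⁻¹ * g := by
    rw [Subgroup.coe_mul, Subgroup.coe_inv, _root_.mul_inv_rev, inv_inv, mul_assoc]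
  unfold Phi
  rw [ec, eF]
  ring

theorem coeff_w (ψ : AddChar Adele Circle) (T : Triple 6)
    (ρ : Measure (T.VA ⧸ T.VQ)) (F : AutQuot 6 → ℂ) (w : T.VA) (g : GA 6) :
    T.coeff ψ ρ F ((w : GA 6) * g)
      = T.char ψ (w : GA 6) * ∫ x : T.VA ⧸ T.VQ, Phi ψ T F g (w⁻¹ * x.out) ∂ρ := by
  rw [← integral_const_mul]
  unfold Triple.coeff
  congr 1
  funext x
  exact Phi_w ψ T F w x.out g

theorem coeff_left' (ψ : AddChar Adele Circle) (hQ : ∀ q : ℚ, ψ (ratAdele q) = 1) (T : Triple 6)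
    (ρ : Measure (T.VA ⧸ T.VQ)) (hρ : SMulInvariantMeasure T.VA (T.VA ⧸ T.VQ) ρ)
    (F : AutQuot 6 → ℂ) (w : T.VA) (g : GA 6) :
    T.coeff ψ ρ F ((w : GA 6) * g) = T.char ψ (w : GA 6) * T.coeff ψ ρ F g := by
  rw [coeff_w, coeff_eq, integral_out_left T.VQ ρ (Phi ψ T F g) (Phi_q ψ hQ T F g) w]

/-- `C(F, w g) = ψ_f(w) C(F, g)` -/
theorem coeff_left (ψ : AddChar Adele Circle) (hQ : ∀ q : ℚ, ψ (ratAdele q) = 1) (T : Triple 6)
    (ρ : Measure (T.VA ⧸ T.VQ)) (hρ : SMulInvariantMeasure T.VA (T.VA ⧸ T.VQ) ρ)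
    (F : AutQuot 6 → ℂ) (hF : Continuous F) {w : GA 6} (hw : w ∈ T.VA) (g : GA 6) :
    T.coeff ψ ρ F (w * g) = T.char ψ w * T.coeff ψ ρ F g :=
  coeff_left' ψ hQ T ρ hρ F ⟨w, hw⟩ g

theorem trace_hom {R : Type*} [CommRing R] (φ : Adele →+* R) (M : Mat 6 Adele) :
    φ (Matrix.trace M) = Matrix.trace (M.map φ) := by
  simp [Matrix.trace, map_sum]

theorem char_local {ψ : AddChar Adele Circle} (hψ : IsStd ψ) (f : Mat 6 ℚ) {w : GA 6}
    (hwR : gR w = 1) (hwp : ∀ p : Nat.Primes, p ≠ p3 → gp w p = 1) :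
    ψ (Matrix.trace (f.map ratAdele * ((w : Mat 6 Adele) - 1)))
      = theta ψ (Matrix.trace (f.map (Rat.cast : ℚ → ℚ_[(p3 : ℕ)]) * (gp w p3 - 1))) := by
  have hM1 : ∀ (R : Type) [CommRing R] (φ : Adele →+* R), (1 : Mat 6 Adele).map φ = 1 := by
    intro R _ φ
    exact Matrix.map_one φ (map_zero φ) (map_one φ)
  have h1 : evR (Matrix.trace (f.map ratAdele * ((w : Mat 6 Adele) - 1))) = 0 := by
    rw [trace_hom, Matrix.map_mul, Matrix.map_sub _ (map_sub evR), hM1]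
    have : (w : Mat 6 Adele).map evR = 1 := hwR
    rw [this, sub_self, Matrix.mul_zero, Matrix.trace_zero]
  have h2 : ∀ p : Nat.Primes, p ≠ p3 →
      evp p (Matrix.trace (f.map ratAdele * ((w : Mat 6 Adele) - 1))) = 0 := by
    intro p hp
    rw [trace_hom, Matrix.map_mul, Matrix.map_sub _ (map_sub (evp p)), hM1]
    have : (w : Mat 6 Adele).map (evp p) = 1 := hwp p hp
    rw [this, sub_self, Matrix.mul_zero, Matrix.trace_zero]
  have h3 : evp p3 (Matrix.trace (f.map ratAdele * ((w : Mat 6 Adele) - 1)))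
      = Matrix.trace (f.map (Rat.cast : ℚ → ℚ_[(p3 : ℕ)]) * (gp w p3 - 1)) := by
    rw [trace_hom, Matrix.map_mul, Matrix.map_sub _ (map_sub (evp p3)), hM1]
    rfl
  have h4 := psi_away hψ (Matrix.trace (f.map ratAdele * ((w : Mat 6 Adele) - 1))) h1
    (fun p hp => by
      have h5 := h2 p hp
      have h6 : ‖evp p (Matrix.trace (f.map ratAdele * ((w : Mat 6 Adele) - 1)))‖ ≤ 1 := by
        rw [h5, norm_zero]; exact zero_le_one
      exact h6)
  rw [h4, ← h3]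
  rfl

theorem emb3_mem_USet (j : Matrix.symplecticGroup (Fin 6) ℚ_[(p3 : ℕ)])
    (hj : (j : Mat 6 ℚ_[(p3 : ℕ)]) - 1 ∈ Aord) : emb3 j ∈ USet := by
  have hone : ∀ (p : Nat.Primes) (i k : Fin 6 ⊕ Fin 6), ‖(1 : Mat 6 ℚ_[(p : ℕ)]) i k‖ ≤ 1 := by
    intro p i k
    rw [Matrix.one_apply]
    split_ifs <;> simp
  refine ⟨?_, ?_⟩
  · intro p i k
    by_cases hp : p = p3
    · subst hp
      rw [gp_emb3]
      have e : (j : Mat 6 ℚ_[(p3 : ℕ)]) i k
          = ((j : Mat 6 ℚ_[(p3 : ℕ)]) - 1) i k + (1 : Mat 6 ℚ_[(p3 : ℕ)]) i k := by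
        simp
      rw [e]
      refine (IsUltrametricDist.norm_add_le_max _ _).trans
        (max_le ((hj i k).trans ?_) (hone p3 i k))
      rcases i with i | i <;> rcases k with k | k <;> simp only [bd] <;> norm_num
    · rw [gp_emb3_ne j hp]
      exact hone p i k
  · rw [gp_emb3]
    exact hj

theorem coeff_right (ψ : AddChar Adele Circle) (T : Triple 6)
    (ρ : Measure (T.VA ⧸ T.VQ)) (F : AutQuot 6 → ℂ) {u : GA 6} {c : ℂ}
    (hFu : ∀ x : AutQuot 6, F (u⁻¹ • x) = c * F x) (g : GA 6) :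
    T.coeff ψ ρ F (g * u) = c * T.coeff ψ ρ F g := by
  unfold Triple.coeff
  rw [← integral_const_mul]
  congr 1
  funext x
  have e : autFun F ((x.out : GA 6)⁻¹ * (g * u)) = c * autFun F ((x.out : GA 6)⁻¹ * g) := by
    unfold autFun
    rw [← hFu]
    congr 1
    have e2 : ((x.out : GA 6)⁻¹ * (g * u))⁻¹ = u⁻¹ * ((x.out : GA 6)⁻¹ * g)⁻¹ := by group
    rw [e2]
    rfl
  rw [e, mul_assoc]

/-- the hypothesis (+) of Lemma V -/
theorem coeff_local {ψ : AddChar Adele Circle} (hψ : IsStd ψ) (T : Triple 6)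
    (ρ : Measure (T.VA ⧸ T.VQ)) (hρ : SMulInvariantMeasure T.VA (T.VA ⧸ T.VQ) ρ)
    (F : AutQuot 6 → ℂ) (hF : Continuous F)
    (htype : ∀ u : GA 6, u ∈ USet → gR u = 1 → ∀ x : AutQuot 6,
      F (u • x) = (((chi ψ u)⁻¹ : Circle) : ℂ) * F x)
    (g : GA 6) (hne : T.coeff ψ ρ F g ≠ 0)
    (j : Matrix.symplecticGroup (Fin 6) ℚ_[(p3 : ℕ)]) (hj : (j : Mat 6 ℚ_[(p3 : ℕ)]) - 1 ∈ Aord)
    (hV : gp g p3 * (j : Mat 6 ℚ_[(p3 : ℕ)]) * gp g⁻¹ p3 - 1
      ∈ adGE (T.h.map (Rat.cast : ℚ → ℚ_[(p3 : ℕ)])) 2) :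
    theta ψ (Matrix.trace (X3 * ((j : Mat 6 ℚ_[(p3 : ℕ)]) - 1)))
      = theta ψ (Matrix.trace (T.f.map (Rat.cast : ℚ → ℚ_[(p3 : ℕ)]) *
          (gp g p3 * (j : Mat 6 ℚ_[(p3 : ℕ)]) * gp g⁻¹ p3 - 1))) := by
  have huR : gR (emb3 j) = 1 := gR_emb3 j
  have huU : emb3 j ∈ USet := emb3_mem_USet j hj
  -- the element `w = g u g⁻¹`
  obtain ⟨w, hw⟩ : ∃ w : GA 6, w = g * emb3 j * g⁻¹ := ⟨_, rfl⟩
  have hwR : gR w = 1 := by
    rw [hw, gR_mul, gR_mul, huR, mul_one, ← gR_mul, mul_inv_cancel, gR_one]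
  have hwp : ∀ p : Nat.Primes, p ≠ p3 → gp w p = 1 := by
    intro p hp
    rw [hw, gp_mul, gp_mul, gp_emb3_ne j hp, mul_one, ← gp_mul, mul_inv_cancel, gp_one]
  have hw3 : gp w p3 = gp g p3 * (j : Mat 6 ℚ_[(p3 : ℕ)]) * gp g⁻¹ p3 := by
    rw [hw, gp_mul, gp_mul, gp_emb3]
  have hwV : w ∈ T.VA := mem_VA_of_local T hwR hwp (by rw [hw3]; exact hV)
  -- `C(F, g u) = χ(u) C(F, g)`
  have hFu : ∀ x : AutQuot 6, F ((emb3 j)⁻¹ • x) = ((chi ψ (emb3 j) : Circle) : ℂ) * F x := by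
    intro x
    have h1 := htype (emb3 j) huU huR ((emb3 j)⁻¹ • x)
    rw [smul_inv_smul] at h1
    rw [h1, ← mul_assoc, ← Circle.coe_mul, mul_inv_cancel, Circle.coe_one, one_mul]
  have hright := coeff_right ψ T ρ F hFu g
  have hleft : T.coeff ψ ρ F (g * emb3 j) = T.char ψ w * T.coeff ψ ρ F g := by
    have : g * emb3 j = w * g := by rw [hw]; group
    rw [this]
    exact coeff_left ψ hψ.rat T ρ hρ F hF hwV g
  have hchar : T.char ψ w = ((chi ψ (emb3 j) : Circle) : ℂ) := by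
    rw [hright] at hleft
    exact (mul_right_cancel₀ hne hleft).symm
  -- evaluate both sides
  have hchi : chi ψ (emb3 j) = theta ψ (Matrix.trace (X3 * ((j : Mat 6 ℚ_[(p3 : ℕ)]) - 1))) := by
    unfold chi
    rw [gp_emb3]
    rfl
  have hx := char_local hψ T.f hwR hwp
  have hfin : theta ψ (Matrix.trace (T.f.map (Rat.cast : ℚ → ℚ_[(p3 : ℕ)]) * (gp w p3 - 1)))
      = chi ψ (emb3 j) := by
    rw [← hx]
    exact Circle.ext hchar
  rw [← hchi, ← hfin, hw3]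

end Pool.Agent.FC
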