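import Mathlib

/-!
# FC: the regular representation on `L²(X)` and the operators `R(h)`

`G` is a second countable locally compact group acting continuously on `X`, `ν` is a `G`-invariant measure on `X`.
`rho g f = f (g⁻¹ • ·)` and `R μ h f = ∫ h g • rho g f dμ(g)` for `h` continuous with compact support.
-/

open MeasureTheory Set Topology Filter
open scoped ENNReal

set_option linter.unusedSectionVars false

namespace Pool.Agent.FC.Conv

section rho

variable {G X : Type*} [Group G] [TopologicalSpace G] [IsTopologicalGroup G]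
  [MeasurableSpace G] [BorelSpace G]
  [TopologicalSpace X] [MeasurableSpace X] [BorelSpace X] [MulAction G X] [ContinuousSMul G X]
  (ν : Measure X) [SMulInvariantMeasure G X ν]

/-- The regular representation: `(rho g f) x = f (g⁻¹ • x)`. -/
noncomputable def rho (g : G) : Lp ℂ 2 ν →L[ℂ] Lp ℂ 2 ν :=
  LinearMap.mkContinuous
    { toFun := fun f => DomMulAct.mk g⁻¹ • f
      map_add' := fun f f' => smul_add _ f f'
      map_smul' := fun c f => (smul_comm (DomMulAct.mk g⁻¹) c f) } 1
    (fun f => by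
      rw [one_mul]
      exact le_of_eq (DomMulAct.norm_smul_Lp (DomMulAct.mk g⁻¹) f))

theorem rho_apply (g : G) (f : Lp ℂ 2 ν) : rho ν g f = DomMulAct.mk g⁻¹ • f := rfl

theorem rho_ae (g : G) (f : Lp ℂ 2 ν) : rho ν g f =ᵐ[ν] fun x => f (g⁻¹ • x) :=
  DomMulAct.smul_Lp_ae_eq (DomMulAct.mk g⁻¹) f

theorem norm_rho (g : G) (f : Lp ℂ 2 ν) : ‖rho ν g f‖ = ‖f‖ :=
  DomMulAct.norm_smul_Lp (DomMulAct.mk g⁻¹) f

theorem rho_mul (g h : G) (f : Lp ℂ 2 ν) : rho ν (g * h) f = rho ν g (rho ν h f) := by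
  rw [rho_apply, rho_apply, rho_apply, smul_smul]
  congr 1
  rw [← DomMulAct.mk_mul]
  simp

theorem rho_one (f : Lp ℂ 2 ν) : rho ν (1 : G) f = f := by
  rw [rho_apply]
  simp

theorem inner_rho_rho (g : G) (f f' : Lp ℂ 2 ν) :
    inner ℂ (rho ν g f) (rho ν g f') = inner ℂ f f' := by
  have h : ∀ u : Lp ℂ 2 ν, ‖rho ν g u‖ = ‖u‖ := norm_rho ν g
  exact (LinearMap.norm_map_iff_inner_map_map (rho ν g)).1 h f f'

theorem inner_rho_left (g : G) (f f' : Lp ℂ 2 ν) :
    inner ℂ (rho ν g f) f' = inner ℂ f (rho ν g⁻¹ f') := by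
  have h : f' = rho ν g (rho ν g⁻¹ f') := by
    rw [← rho_mul, mul_inv_cancel, rho_one]
  conv_lhs => rw [h]
  exact inner_rho_rho ν g f (rho ν g⁻¹ f')

end rho

section R

variable {G X : Type*} [Group G] [TopologicalSpace G] [IsTopologicalGroup G] [SecondCountableTopology G]
  [MeasurableSpace G] [BorelSpace G]
  [TopologicalSpace X] [R1Space X] [SecondCountableTopology X]
  [MeasurableSpace X] [BorelSpace X] [MulAction G X] [ContinuousSMul G X]
  (μ : Measure G) [IsFiniteMeasureOnCompacts μ]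
  (ν : Measure X) [SMulInvariantMeasure G X ν] [IsLocallyFiniteMeasure ν] [ν.InnerRegularCompactLTTop]

omit [SecondCountableTopology G] [SecondCountableTopology X] in
theorem continuous_rho (f : Lp ℂ 2 ν) : Continuous (fun g : G => rho ν g f) := by
  have h2 : Fact ((2 : ℝ≥0∞) ≠ ∞) := ⟨by simp⟩
  have h : Continuous (fun g : G => (DomMulAct.mk g⁻¹ : Gᵈᵐᵃ) • f) :=
    (DomMulAct.continuous_mk.comp continuous_inv).smul continuous_const
  exact h

omit [SecondCountableTopology X] in
theorem integrable_R {h : G → ℂ} (hc : Continuous h) (hs : HasCompactSupport h) (f : Lp ℂ 2 ν) :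
    Integrable (fun g => h g • rho ν g f) μ :=
  (hc.smul (continuous_rho ν f)).integrable_of_hasCompactSupport hs.smul_right

/-- `R(h) f = ∫ h(g) f(g⁻¹ ·) dg`. -/
noncomputable def Rop {h : G → ℂ} (hc : Continuous h) (hs : HasCompactSupport h) :
    Lp ℂ 2 ν →L[ℂ] Lp ℂ 2 ν :=
  LinearMap.mkContinuous
    { toFun := fun f => ∫ g, h g • rho ν g f ∂μ
      map_add' := fun f f' => by
        rw [← integral_add (integrable_R μ ν hc hs f) (integrable_R μ ν hc hs f')]
        simp only [map_add, smul_add]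
      map_smul' := fun c f => by
        rw [RingHom.id_apply, ← integral_smul]
        simp only [map_smul]
        congr 1
        ext1 g
        exact smul_comm _ _ _ } (∫ g, ‖h g‖ ∂μ)
    (fun f => by
      refine (norm_integral_le_integral_norm _).trans ?_
      rw [← integral_mul_const]
      apply le_of_eq
      congr 1
      ext1 g
      rw [norm_smul, norm_rho])

omit [SecondCountableTopology X] in
theorem Rop_apply {h : G → ℂ} (hc : Continuous h) (hs : HasCompactSupport h) (f : Lp ℂ 2 ν) :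
    Rop μ ν hc hs f = ∫ g, h g • rho ν g f ∂μ := rfl

omit [SecondCountableTopology X] in
/-- A closed invariant subspace is preserved by `R(h)`. -/
theorem Rop_mem {h : G → ℂ} (hc : Continuous h) (hs : HasCompactSupport h)
    (W : Submodule ℂ (Lp ℂ 2 ν)) (hW : IsClosed (W : Set (Lp ℂ 2 ν)))
    (hinv : ∀ g : G, ∀ f ∈ W, rho ν g f ∈ W) (f : Lp ℂ 2 ν) (hf : f ∈ W) :
    Rop μ ν hc hs f ∈ W := by
  have hcW : CompleteSpace W := hW.completeSpace_coe
  rw [← Submodule.orthogonal_orthogonal W, Submodule.mem_orthogonal]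
  intro u hu
  rw [Rop_apply]
  rw [← integral_inner (integrable_R μ ν hc hs f)]
  have : (fun g => inner ℂ u (h g • rho ν g f)) = fun _ => (0 : ℂ) := by
    ext1 g
    rw [inner_smul_right, Submodule.inner_left_of_mem_orthogonal (hinv g f hf) hu, mul_zero]
  rw [this, integral_zero]

omit [SecondCountableTopology X] in
/-- `rho z (R(h) f) = R(h(z⁻¹ ·)) f`. -/
theorem rho_Rop [μ.IsMulLeftInvariant] {h : G → ℂ} (hc : Continuous h) (hs : HasCompactSupport h) (z : G)
    (f : Lp ℂ 2 ν) :
    rho ν z (Rop μ ν hc hs f) = ∫ g, h (z⁻¹ * g) • rho ν g f ∂μ := by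
  rw [Rop_apply, ← ContinuousLinearMap.integral_comp_comm _ (integrable_R μ ν hc hs f)]
  rw [← integral_mul_left_eq_self (μ := μ) (fun g => h (z⁻¹ * g) • rho ν g f) z]
  congr 1
  ext1 g
  rw [map_smul, rho_mul, inv_mul_cancel_left]

omit [SecondCountableTopology X] in
/-- `R(h)` is self-adjoint if `h(g⁻¹) = conj h(g)`. -/
theorem Rop_symm [μ.IsMulLeftInvariant] [μ.IsInvInvariant] {h : G → ℂ} (hc : Continuous h)
    (hs : HasCompactSupport h)
    (hstar : ∀ g, h g⁻¹ = starRingEnd ℂ (h g)) (f f' : Lp ℂ 2 ν) :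
    inner ℂ (Rop μ ν hc hs f) f' = inner ℂ f (Rop μ ν hc hs f') := by
  rw [Rop_apply, Rop_apply, ← integral_inner (integrable_R μ ν hc hs f'), ← inner_conj_symm,
    ← integral_inner (integrable_R μ ν hc hs f), ← integral_conj,
    ← integral_inv_eq_self _ μ]
  congr 1
  ext1 g
  rw [inner_smul_right, inner_smul_right, map_mul, hstar, Complex.conj_conj, inner_conj_symm,
    inner_rho_left, inv_inv]

end R

end Pool.Agent.FC.Conv
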