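import Mathlib
import Pool.Agent.FC.ConvA

/-!
# FC: pointwise formula for `R(h)`
-/

open MeasureTheory Set Topology Filter
open scoped ENNReal NNReal

set_option linter.unusedSectionVars false

namespace Pool.Agent.FC.Conv

/-- Cauchy-Schwarz in the form `(∫ F)² ≤ m(univ) ∫ F²`. -/
theorem sq_lintegral_le {α : Type*} [MeasurableSpace α] (m : Measure α) {F : α → ℝ≥0∞}
    (hF : AEMeasurable F m) : (∫⁻ a, F a ∂m) ^ 2 ≤ m univ * ∫⁻ a, F a ^ 2 ∂m := by
  have h := ENNReal.lintegral_mul_le_Lp_mul_Lq m (p := 2) (q := 2) Real.HolderConjugate.two_two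
    hF (aemeasurable_const (b := (1 : ℝ≥0∞)))
  simp only [Pi.mul_apply, mul_one, ENNReal.one_rpow, lintegral_const, one_mul] at h
  have h2 := pow_le_pow_left' h 2
  refine h2.trans (le_of_eq ?_)
  rw [mul_pow, ← ENNReal.rpow_natCast, ← ENNReal.rpow_natCast, ← ENNReal.rpow_mul, ← ENNReal.rpow_mul]
  norm_num
  rw [mul_comm]

/-- The square of the norm in `L²`. -/
theorem lintegral_sq_eq {α : Type*} [MeasurableSpace α] {m : Measure α} (u : Lp ℂ 2 m) :
    ∫⁻ x, ‖u x‖ₑ ^ 2 ∂m = ‖u‖ₑ ^ 2 := by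
  rw [Lp.enorm_def, eLpNorm_eq_lintegral_rpow_enorm_toReal (by norm_num) (by norm_num)]
  rw [← ENNReal.rpow_natCast, ← ENNReal.rpow_mul]
  norm_num

section

variable {G X : Type*} [Group G] [TopologicalSpace G] [IsTopologicalGroup G] [SecondCountableTopology G]
  [MeasurableSpace G] [BorelSpace G]
  [TopologicalSpace X] [R1Space X] [SecondCountableTopology X]
  [MeasurableSpace X] [BorelSpace X] [MulAction G X] [ContinuousSMul G X]
  (μ : Measure G) [IsFiniteMeasureOnCompacts μ] [SigmaFinite μ]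
  (ν : Measure X) [SMulInvariantMeasure G X ν] [IsLocallyFiniteMeasure ν] [ν.InnerRegularCompactLTTop]
  [SigmaFinite ν]

theorem measurable_act : Measurable (fun p : X × G => p.2⁻¹ • p.1) :=
  (continuous_snd.inv.smul continuous_fst).measurable

theorem lintegral_act (g : G) (F : X → ℝ≥0∞) (hF : Measurable F) :
    ∫⁻ x, F (g⁻¹ • x) ∂ν = ∫⁻ x, F x ∂ν :=
  (measurePreserving_smul g⁻¹ ν).lintegral_comp hF

theorem integrable_prod_aux {h : G → ℂ} (hc : Continuous h) (hs : HasCompactSupport h)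
    (f : Lp ℂ 2 ν) (s : Set X) (hms : MeasurableSet s) (hν : ν s < ∞) :
    Integrable (fun p : X × G => h p.2 * f (p.2⁻¹ • p.1)) ((ν.restrict s).prod μ) := by
  have hmeas : StronglyMeasurable (fun p : X × G => h p.2 * f (p.2⁻¹ • p.1)) := by
    have h1 : StronglyMeasurable (fun p : X × G => h p.2) :=
      (hc.measurable.comp measurable_snd).stronglyMeasurable
    have h2 : StronglyMeasurable (fun p : X × G => f (p.2⁻¹ • p.1)) :=
      (Lp.stronglyMeasurable f).comp_measurable measurable_act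
    exact h1.mul h2
  refine ⟨hmeas.aestronglyMeasurable, ?_⟩
  rw [hasFiniteIntegral_iff_enorm]
  rw [lintegral_prod_symm _ hmeas.enorm.aemeasurable]
  have hb : ∀ g : G, ∫⁻ x in s, ‖h g * f (g⁻¹ • x)‖ₑ ∂ν ≤ ‖h g‖ₑ * (ν s + ‖f‖ₑ ^ 2) := by
    intro g
    simp only [enorm_mul]
    have hm : Measurable (fun x : X => ‖f (g⁻¹ • x)‖ₑ) :=
      ((Lp.stronglyMeasurable f).comp_measurable (measurable_const_smul g⁻¹)).enorm
    rw [lintegral_const_mul _ hm]
    gcongr
    calc ∫⁻ x in s, ‖f (g⁻¹ • x)‖ₑ ∂ν ≤ ∫⁻ x in s, (1 + ‖f (g⁻¹ • x)‖ₑ ^ 2) ∂ν := by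
          apply lintegral_mono
          intro x
          dsimp only
          rcases le_total (‖f (g⁻¹ • x)‖ₑ) 1 with h1 | h1
          · exact h1.trans le_self_add
          · calc ‖f (g⁻¹ • x)‖ₑ = ‖f (g⁻¹ • x)‖ₑ * 1 := (mul_one _).symm
              _ ≤ ‖f (g⁻¹ • x)‖ₑ * ‖f (g⁻¹ • x)‖ₑ := by gcongr
              _ = ‖f (g⁻¹ • x)‖ₑ ^ 2 := (sq _).symm
              _ ≤ 1 + ‖f (g⁻¹ • x)‖ₑ ^ 2 := le_add_self
      _ = ν s + ∫⁻ x in s, ‖f (g⁻¹ • x)‖ₑ ^ 2 ∂ν := by
          rw [lintegral_add_left measurable_const]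
          simp
      _ ≤ ν s + ∫⁻ x, ‖f (g⁻¹ • x)‖ₑ ^ 2 ∂ν := by
          gcongr
          exact Measure.restrict_le_self
      _ = ν s + ‖f‖ₑ ^ 2 := by
          rw [lintegral_act ν g (fun x => ‖f x‖ₑ ^ 2) ((Lp.stronglyMeasurable f).enorm.pow_const 2),
            lintegral_sq_eq]
  refine (lintegral_mono hb).trans_lt ?_
  rw [lintegral_mul_const _ hc.measurable.enorm]
  apply ENNReal.mul_lt_top
  · exact (hc.integrable_of_hasCompactSupport (μ := μ) hs).2
  · exact ENNReal.add_lt_top.2 ⟨hν, ENNReal.pow_lt_top enorm_lt_top⟩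

/-- The pointwise formula. -/
theorem Rop_ae {h : G → ℂ} (hc : Continuous h) (hs : HasCompactSupport h) (f : Lp ℂ 2 ν) :
    Rop μ ν hc hs f =ᵐ[ν] fun x => ∫ g, h g * f (g⁻¹ • x) ∂μ := by
  apply ae_eq_of_forall_setIntegral_eq_of_sigmaFinite
  · intro s hms hν
    have : IsFiniteMeasure (ν.restrict s) := ⟨by rwa [Measure.restrict_apply_univ]⟩
    exact ((Lp.memLp (Rop μ ν hc hs f)).restrict s).integrable (by norm_num)
  · intro s hms hν
    exact (integrable_prod_aux μ ν hc hs f s hms hν).integral_prod_left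
  · intro s hms hν
    have h1 : ∀ u : Lp ℂ 2 ν, ∫ x in s, u x ∂ν
        = inner ℂ (indicatorConstLp 2 hms hν.ne (1 : ℂ)) u := by
      intro u
      rw [L2.inner_indicatorConstLp_one]
    rw [h1, Rop_apply, ← integral_inner (integrable_R μ ν hc hs f)]
    rw [integral_integral_swap (f := fun x g => h g * f (g⁻¹ • x))
      (integrable_prod_aux μ ν hc hs f s hms hν)]
    congr 1
    ext1 g
    rw [inner_smul_right, ← h1, integral_const_mul]
    congr 1
    apply setIntegral_congr_ae hms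
    filter_upwards [rho_ae ν g f] with x hx _
    exact hx

end

end Pool.Agent.FC.Conv
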