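import Mathlib
import Pool.Agent.FC.ConvB

/-!
# FC: evaluation functionals and compactness of `R(h)`
-/

open MeasureTheory Set Topology Filter
open scoped ENNReal NNReal

set_option linter.unusedSectionVars false

namespace Pool.Agent.FC.Conv

section

variable {G X : Type*} [Group G] [TopologicalSpace G] [IsTopologicalGroup G] [SecondCountableTopology G]
  [LocallyCompactSpace G] [MeasurableSpace G] [BorelSpace G]
  [TopologicalSpace X] [T2Space X] [SecondCountableTopology X]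
  [MeasurableSpace X] [BorelSpace X] [MulAction G X] [ContinuousSMul G X]
  (μ : Measure G) [IsFiniteMeasureOnCompacts μ] [SigmaFinite μ]
  (ν : Measure X) [SMulInvariantMeasure G X ν] [IsFiniteMeasureOnCompacts ν]
  [IsLocallyFiniteMeasure ν] [ν.InnerRegularCompactLTTop] [SigmaFinite ν]

/-- On compact sets the orbit maps are of bounded multiplicity. -/
def LocBound : Prop :=
  ∀ (B : Set G) (Y : Set X), IsCompact B → IsCompact Y →
    ∃ M : ℝ≥0, ∀ F : X → ℝ≥0∞, Measurable F → ∀ x ∈ Y,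
      ∫⁻ g in B, F (g⁻¹ • x) ∂μ ≤ M * ∫⁻ y, F y ∂ν

variable {μ ν}

omit [LocallyCompactSpace G] [SecondCountableTopology G] [T2Space X] [SecondCountableTopology X]
  [IsFiniteMeasureOnCompacts μ] [SigmaFinite μ] [SMulInvariantMeasure G X ν]
  [IsFiniteMeasureOnCompacts ν] [IsLocallyFiniteMeasure ν] [ν.InnerRegularCompactLTTop]
  [SigmaFinite ν] in
theorem measurable_orbit (x : X) : Measurable (fun g : G => g⁻¹ • x) :=
  (continuous_inv.smul continuous_const).measurable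

omit [SecondCountableTopology G] [SecondCountableTopology X]
  [IsFiniteMeasureOnCompacts μ] [SigmaFinite μ] [SMulInvariantMeasure G X ν]
  [IsFiniteMeasureOnCompacts ν] [IsLocallyFiniteMeasure ν] [ν.InnerRegularCompactLTTop]
  [SigmaFinite ν] [T2Space X] in
theorem quasi [SecondCountableTopology G] (hL : LocBound μ ν) (x : X) :
    Measure.QuasiMeasurePreserving (fun g : G => g⁻¹ • x) μ ν := by
  refine ⟨measurable_orbit x, ?_⟩
  refine Measure.AbsolutelyContinuous.mk fun s hs hν => ?_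
  rw [Measure.map_apply (measurable_orbit x) hs]
  refine measure_null_of_locally_null _ fun g _ => ?_
  obtain ⟨K, hK, hgK⟩ := exists_compact_mem_nhds g
  refine ⟨((fun g : G => g⁻¹ • x) ⁻¹' s) ∩ K, inter_mem self_mem_nhdsWithin (mem_nhdsWithin_of_mem_nhds hgK), ?_⟩
  obtain ⟨M, hM⟩ := hL K {x} hK isCompact_singleton
  have h1 := hM (s.indicator 1) (measurable_one.indicator hs) x rfl
  rw [lintegral_indicator_one hs, hν, mul_zero] at h1
  have h2 : (fun g : G => s.indicator (1 : X → ℝ≥0∞) (g⁻¹ • x))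
      = ((fun g : G => g⁻¹ • x) ⁻¹' s).indicator 1 := by
    ext1 g; rfl
  rw [h2, lintegral_indicator_one ((measurable_orbit x) hs),
    Measure.restrict_apply ((measurable_orbit x) hs)] at h1
  exact nonpos_iff_eq_zero.1 h1

/-- `∫_B |F(g⁻¹x)| dg`. -/
noncomputable def absInt (μ : Measure G) (B : Set G) (F : X → ℂ) (x : X) : ℝ≥0∞ :=
  ∫⁻ g in B, ‖F (g⁻¹ • x)‖ₑ ∂μ

theorem absInt_sq_le (B : Set G) (f : Lp ℂ 2 ν) (x : X) :
    absInt μ B f x ^ 2 ≤ μ B * ∫⁻ g in B, ‖f (g⁻¹ • x)‖ₑ ^ 2 ∂μ := by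
  have hm : Measurable (fun g : G => ‖f (g⁻¹ • x)‖ₑ) :=
    (((Lp.stronglyMeasurable f).comp_measurable (measurable_orbit x))).enorm
  have h := sq_lintegral_le (μ.restrict B) hm.aemeasurable
  rwa [Measure.restrict_apply_univ] at h

theorem absInt_sq_le' {B : Set G} {Y : Set X} {M : ℝ≥0}
    (hM : ∀ F : X → ℝ≥0∞, Measurable F → ∀ x ∈ Y,
      ∫⁻ g in B, F (g⁻¹ • x) ∂μ ≤ M * ∫⁻ y, F y ∂ν) (f : Lp ℂ 2 ν) {x : X} (hx : x ∈ Y) :
    absInt μ B f x ^ 2 ≤ μ B * (M * ‖f‖ₑ ^ 2) := by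
  refine (absInt_sq_le B f x).trans ?_
  gcongr
  have := hM (fun y => ‖f y‖ₑ ^ 2) ((Lp.stronglyMeasurable f).enorm.pow_const 2) x hx
  rwa [lintegral_sq_eq] at this

theorem absInt_lt_top (hL : LocBound μ ν) {B : Set G} (hB : IsCompact B) (f : Lp ℂ 2 ν) (x : X) :
    absInt μ B f x < ∞ := by
  obtain ⟨M, hM⟩ := hL B {x} hB isCompact_singleton
  have h := absInt_sq_le' hM f (mem_singleton x)
  have h2 : μ B * (M * ‖f‖ₑ ^ 2) < ∞ :=
    ENNReal.mul_lt_top hB.measure_lt_top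
      (ENNReal.mul_lt_top ENNReal.coe_lt_top (ENNReal.pow_lt_top enorm_lt_top))
  by_contra hcon
  rw [not_lt, top_le_iff] at hcon
  rw [hcon] at h
  have : (∞ : ℝ≥0∞) ^ 2 = ∞ := by simp
  rw [this] at h
  exact absurd (lt_of_le_of_lt h h2) (lt_irrefl _)

theorem lintegral_absInt_sq_le (B : Set G) (f : Lp ℂ 2 ν) :
    ∫⁻ x, absInt μ B f x ^ 2 ∂ν ≤ μ B ^ 2 * ‖f‖ₑ ^ 2 := by
  have hm : Measurable (fun p : X × G => ‖f (p.2⁻¹ • p.1)‖ₑ ^ 2) :=
    ((Lp.stronglyMeasurable f).comp_measurable measurable_act).enorm.pow_const 2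
  calc ∫⁻ x, absInt μ B f x ^ 2 ∂ν ≤ ∫⁻ x, μ B * ∫⁻ g in B, ‖f (g⁻¹ • x)‖ₑ ^ 2 ∂μ ∂ν :=
        lintegral_mono (absInt_sq_le B f)
    _ = μ B * ∫⁻ x, ∫⁻ g in B, ‖f (g⁻¹ • x)‖ₑ ^ 2 ∂μ ∂ν := by
        rw [lintegral_const_mul _ hm.lintegral_prod_right']
    _ = μ B * ∫⁻ g in B, ∫⁻ x, ‖f (g⁻¹ • x)‖ₑ ^ 2 ∂ν ∂μ := by
        rw [lintegral_lintegral_swap hm.aemeasurable]
    _ = μ B * ∫⁻ g in B, ‖f‖ₑ ^ 2 ∂μ := by
        congr 2
        ext1 g
        rw [lintegral_act ν g (fun x => ‖f x‖ₑ ^ 2) ((Lp.stronglyMeasurable f).enorm.pow_const 2),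
          lintegral_sq_eq]
    _ = μ B ^ 2 * ‖f‖ₑ ^ 2 := by
        rw [lintegral_const, Measure.restrict_apply_univ]
        ring

/-- The basic estimate: if `|k| ≤ ε 1_B` then `|∫ k(g) f(g⁻¹x)| ≤ ε ∫_B |f(g⁻¹x)|`. -/
theorem enorm_integral_le {B : Set G} (hB : MeasurableSet B) {ε : ℝ} (hε : 0 ≤ ε) {k : G → ℂ}
    (hk : ∀ g, ‖k g‖ ≤ ε * B.indicator 1 g) (F : X → ℂ) (x : X) :
    ‖∫ g, k g * F (g⁻¹ • x) ∂μ‖ₑ ≤ ENNReal.ofReal ε * absInt μ B F x := by
  refine (enorm_integral_le_lintegral_enorm _).trans ?_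
  rw [absInt, ← lintegral_indicator hB]
  refine (lintegral_mono (g := fun g => ENNReal.ofReal ε *
    B.indicator (fun g => ‖F (g⁻¹ • x)‖ₑ) g) fun g => ?_).trans ?_
  · simp only [enorm_mul]
    by_cases hg : g ∈ B
    · rw [indicator_of_mem hg]
      gcongr
      have := hk g
      rw [indicator_of_mem hg, Pi.one_apply, mul_one] at this
      rw [← ofReal_norm]
      exact ENNReal.ofReal_le_ofReal this
    · have := hk g
      rw [indicator_of_notMem hg, mul_zero] at this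
      have h0 : k g = 0 := norm_le_zero_iff.1 this
      simp [h0]
  · rw [lintegral_const_mul' _ _ ENNReal.ofReal_ne_top]

theorem ell_integrable (hL : LocBound μ ν) {h : G → ℂ} (hc : Continuous h) (hs : HasCompactSupport h)
    (f : Lp ℂ 2 ν) (x : X) : Integrable (fun g => h g * f (g⁻¹ • x)) μ := by
  have hm : StronglyMeasurable (fun g : G => f (g⁻¹ • x)) :=
    (Lp.stronglyMeasurable f).comp_measurable (measurable_orbit x)
  refine ⟨(hc.measurable.stronglyMeasurable.mul hm).aestronglyMeasurable, ?_⟩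
  rw [hasFiniteIntegral_iff_enorm]
  obtain ⟨C, hC⟩ := hc.bounded_above_of_compact_support hs
  have hCg : ∀ g, ‖h g * f (g⁻¹ • x)‖ₑ ≤ ENNReal.ofReal C *
      (closure (Function.support h)).indicator (fun g => ‖f (g⁻¹ • x)‖ₑ) g := by
    intro g
    rw [enorm_mul]
    by_cases hg : g ∈ closure (Function.support h)
    · rw [indicator_of_mem hg]
      gcongr
      rw [← ofReal_norm]
      exact ENNReal.ofReal_le_ofReal (hC g)
    · have h0 : h g = 0 := by
        by_contra h0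
        exact hg (subset_closure h0)
      simp [h0]
  refine (lintegral_mono hCg).trans_lt ?_
  rw [lintegral_const_mul' _ _ ENNReal.ofReal_ne_top, lintegral_indicator isClosed_closure.measurableSet]
  exact ENNReal.mul_lt_top ENNReal.ofReal_lt_top (absInt_lt_top hL hs f x)

end

end Pool.Agent.FC.Conv
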