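import Mathlib
import Pool.Agent.FC.ConvC

/-!
# FC: evaluation functionals and the compactness criterion for `R(h)`
-/

open MeasureTheory Set Topology Filter
open scoped ENNReal NNReal Pointwise

set_option linter.unusedSectionVars false

namespace Pool.Agent.FC.Conv

section

variable {G X : Type*} [Group G] [TopologicalSpace G] [IsTopologicalGroup G] [SecondCountableTopology G]
  [LocallyCompactSpace G] [MeasurableSpace G] [BorelSpace G]
  [TopologicalSpace X] [T2Space X] [SecondCountableTopology X]
  [MeasurableSpace X] [BorelSpace X] [MulAction G X] [ContinuousSMul G X]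
  {μ : Measure G} [IsFiniteMeasureOnCompacts μ] [SigmaFinite μ]
  {ν : Measure X} [SMulInvariantMeasure G X ν] [IsFiniteMeasureOnCompacts ν]
  [IsLocallyFiniteMeasure ν] [ν.InnerRegularCompactLTTop] [SigmaFinite ν]

/-- The value of `R(h) F` at `x`. -/
noncomputable def ell (μ : Measure G) (h : G → ℂ) (F : X → ℂ) (x : X) : ℂ :=
  ∫ g, h g * F (g⁻¹ • x) ∂μ

/-- `ell` depends only on the class of `F`. -/
theorem ell_congr (hL : LocBound μ ν) {F F' : X → ℂ} (hF : F =ᵐ[ν] F') (h : G → ℂ) (x : X) :
    ell μ h F x = ell μ h F' x := by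
  apply integral_congr_ae
  filter_upwards [(quasi hL x).ae_eq hF] with g hg
  simp only [Function.comp_apply] at hg
  rw [hg]

/-- the bound of `ell` on compact sets. -/
theorem ell_bound (hL : LocBound μ ν) {h : G → ℂ} (hc : Continuous h) (hs : HasCompactSupport h)
    {Y : Set X} (hY : IsCompact Y) :
    ∃ C : ℝ, 0 ≤ C ∧ ∀ f : Lp ℂ 2 ν, ∀ x ∈ Y, ‖ell μ h f x‖ ≤ C * ‖f‖ := by
  obtain ⟨C, hC⟩ := hc.bounded_above_of_compact_support hs
  have hC0 : 0 ≤ C := (norm_nonneg _).trans (hC 1)
  have hBm : MeasurableSet (closure (Function.support h)) := isClosed_closure.measurableSet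
  have hk : ∀ g, ‖h g‖ ≤ C * (closure (Function.support h)).indicator 1 g := by
    intro g
    by_cases hg : g ∈ closure (Function.support h)
    · rw [indicator_of_mem hg, Pi.one_apply, mul_one]; exact hC g
    · have h0 : h g = 0 := by
        by_contra h0
        exact hg (subset_closure h0)
      rw [h0, indicator_of_notMem hg]; simp
  obtain ⟨M, hM⟩ := hL (closure (Function.support h)) Y hs hY
  set m : ℝ≥0∞ := μ (closure (Function.support h)) with hm
  have hmt : m < ∞ := IsCompact.measure_lt_top hs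
  refine ⟨C * Real.sqrt (m.toReal * M), by positivity, fun f x hx => ?_⟩
  have h1 := enorm_integral_le (μ := μ) hBm hC0 hk f x
  have h2 := absInt_sq_le' hM f hx
  have h3 : ‖ell μ h f x‖ₑ ^ 2 ≤ ENNReal.ofReal ((C * Real.sqrt (m.toReal * M) * ‖f‖) ^ 2) := by
    calc ‖ell μ h f x‖ₑ ^ 2 ≤ (ENNReal.ofReal C * absInt μ (closure (Function.support h)) f x) ^ 2 := by
          gcongr; exact h1
      _ = ENNReal.ofReal C ^ 2 * absInt μ (closure (Function.support h)) f x ^ 2 := by ring
      _ ≤ ENNReal.ofReal C ^ 2 * (m * (M * ‖f‖ₑ ^ 2)) := by gcongr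
      _ = ENNReal.ofReal ((C * Real.sqrt (m.toReal * M) * ‖f‖) ^ 2) := by
          have e1 : m = ENNReal.ofReal m.toReal := (ENNReal.ofReal_toReal hmt.ne).symm
          have e2 : (M : ℝ≥0∞) = ENNReal.ofReal (M : ℝ) := by
            rw [ENNReal.ofReal_coe_nnreal]
          conv_lhs => rw [e1, e2, ← ofReal_norm, ← ENNReal.ofReal_pow hC0, ← ENNReal.ofReal_pow (norm_nonneg f)]
          rw [← ENNReal.ofReal_mul (by positivity), ← ENNReal.ofReal_mul (by positivity),
            ← ENNReal.ofReal_mul (by positivity)]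
          congr 1
          rw [mul_pow, mul_pow, Real.sq_sqrt (by positivity)]
          ring
  rw [← ofReal_norm, ← ENNReal.ofReal_pow (norm_nonneg _),
    ENNReal.ofReal_le_ofReal_iff (by positivity)] at h3
  exact (pow_le_pow_iff_left₀ (norm_nonneg _) (by positivity) (by norm_num)).1 h3

/-- The evaluation functional `f ↦ (R(h) f)(x)`. -/
noncomputable def evalL (hL : LocBound μ ν) {h : G → ℂ} (hc : Continuous h)
    (hs : HasCompactSupport h) (x : X) : Lp ℂ 2 ν →L[ℂ] ℂ :=
  LinearMap.mkContinuous
    { toFun := fun f => ell μ h f x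
      map_add' := fun f f' => by
        rw [ell_congr hL (Lp.coeFn_add f f') h x]
        simp only [ell]
        rw [← integral_add (ell_integrable hL hc hs f x) (ell_integrable hL hc hs f' x)]
        simp only [Pi.add_apply, mul_add]
      map_smul' := fun c f => by
        rw [ell_congr hL (Lp.coeFn_smul c f) h x]
        simp only [ell, RingHom.id_apply, smul_eq_mul]
        rw [← integral_const_mul]
        congr 1
        ext1 g
        simp only [Pi.smul_apply, smul_eq_mul]
        ring }
    (ell_bound hL hc hs (isCompact_singleton (x := x))).choose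
    (fun f => (ell_bound hL hc hs (isCompact_singleton (x := x))).choose_spec.2 f x rfl)

theorem evalL_apply (hL : LocBound μ ν) {h : G → ℂ} (hc : Continuous h)
    (hs : HasCompactSupport h) (x : X) (f : Lp ℂ 2 ν) : evalL hL hc hs x f = ell μ h f x := rfl

theorem Rop_ae_ell {h : G → ℂ} (hc : Continuous h) (hs : HasCompactSupport h) (f : Lp ℂ 2 ν) :
    Rop μ ν hc hs f =ᵐ[ν] ell μ h f := Rop_ae μ ν hc hs f

/-- translation of the argument. -/
theorem ell_smul [μ.IsMulLeftInvariant] (h : G → ℂ) (F : X → ℂ) (z : G) (x : X) :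
    ell μ h F (z • x) = ell μ (fun g => h (z * g)) F x := by
  unfold ell
  rw [← integral_mul_left_eq_self (μ := μ) (fun g => h g * F (g⁻¹ • z • x)) z]
  congr 1
  ext1 g
  rw [mul_inv_rev, mul_smul, inv_smul_smul]

/-- Uniform continuity of `h`, with control of the support. -/
theorem exists_unif {h : G → ℂ} (hc : Continuous h) (hs : HasCompactSupport h) :
    ∃ B : Set G, IsCompact B ∧ IsClosed B ∧ ∀ η > (0 : ℝ), ∃ U ∈ 𝓝 (1 : G), ∀ u ∈ U, ∀ g,
      ‖h (u * g) - h g‖ ≤ η * B.indicator 1 g := by
  obtain ⟨K, hK, hK1⟩ := exists_compact_mem_nhds (1 : G)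
  have hcomp : IsCompact (closure (K⁻¹ * tsupport h)) := (hK.inv.mul hs).closure
  refine ⟨closure (K⁻¹ * tsupport h), hcomp, isClosed_closure, fun η hη => ?_⟩
  have hev : ∀ᶠ u in 𝓝 (1 : G), ∀ g ∈ closure (K⁻¹ * tsupport h), ‖h (u * g) - h g‖ < η := by
    apply hcomp.eventually_forall_of_forall_eventually
    intro g _
    have hcont : Continuous (fun p : G × G => ‖h (p.1 * p.2) - h p.2‖) := by fun_prop
    have h0 : ‖h ((1 : G) * g) - h g‖ < η := by simpa using hη
    exact hcont.continuousAt.eventually_lt continuousAt_const h0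
  refine ⟨{u | ∀ g ∈ closure (K⁻¹ * tsupport h), ‖h (u * g) - h g‖ < η} ∩ K, inter_mem hev hK1, ?_⟩
  rintro u ⟨hu, huK⟩ g
  by_cases hg : g ∈ closure (K⁻¹ * tsupport h)
  · rw [indicator_of_mem hg, Pi.one_apply, mul_one]
    exact (hu g hg).le
  · rw [indicator_of_notMem hg, mul_zero]
    have h1 : h g = 0 := by
      by_contra h1
      apply hg
      apply subset_closure
      exact ⟨1, by simpa using mem_of_mem_nhds hK1, g, subset_tsupport _ h1, one_mul g⟩
    have h2 : h (u * g) = 0 := by
      by_contra h2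
      apply hg
      apply subset_closure
      exact ⟨u⁻¹, inv_mem_inv.2 huK, u * g, subset_tsupport _ h2, inv_mul_cancel_left u g⟩
    rw [h1, h2]; simp

/-- the difference estimate at a point. -/
theorem ell_sub_le [μ.IsMulLeftInvariant] (hL : LocBound μ ν) {h : G → ℂ} (hc : Continuous h)
    (hs : HasCompactSupport h) {B : Set G} (hB : MeasurableSet B) {η : ℝ} (hη : 0 ≤ η)
    (c : ℂ) (u : G) (hu : ∀ g, ‖h (u * g) - c * h g‖ ≤ η * B.indicator 1 g) (f : Lp ℂ 2 ν) (x : X) :
    ‖ell μ h f (u • x) - c * ell μ h f x‖ₑ ≤ ENNReal.ofReal η * absInt μ B f x := by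
  have hcu : Continuous (fun g => h (u * g)) := hc.comp (continuous_const_mul u)
  have hsu : HasCompactSupport (fun g => h (u * g)) := hs.comp_homeomorph (Homeomorph.mulLeft u)
  have e : ell μ h f (u • x) - c * ell μ h f x
      = ∫ g, (h (u * g) - c * h g) * f (g⁻¹ • x) ∂μ := by
    rw [ell_smul]
    unfold ell
    rw [← integral_const_mul, ← integral_sub (ell_integrable hL hcu hsu f x)
      ((ell_integrable hL hc hs f x).const_mul c)]
    congr 1
    ext1 g
    ring
  rw [e]
  exact enorm_integral_le hB hη hu f x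

end

end Pool.Agent.FC.Conv
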