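import Mathlib

/-!
Project FC (MP_9a256f_nt): a criterion of compactness. An operator into `L^2(μ)` whose values are
pointwise bounded by the norm of the argument on a set of finite measure, and zero elsewhere, is
compact (it is of Hilbert-Schmidt type); norm limits.
-/

namespace Pool.Agent.FC.HS

open MeasureTheory Filter Topology

variable {E : Type*} [NormedAddCommGroup E] [InnerProductSpace ℂ E]

theorem orthonormal_cons {n : ℕ} {e : Fin n → E} (he : Orthonormal ℂ e) {y : E} (hy : ‖y‖ = 1)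
    (h : ∀ i, inner ℂ y (e i) = 0) : Orthonormal ℂ (Fin.cons y e : Fin (n + 1) → E) := by
  constructor
  · intro i
    refine Fin.cases ?_ (fun j => ?_) i
    · simpa using hy
    · simpa using he.1 j
  · intro i j
    refine Fin.cases ?_ (fun i' => ?_) i <;> refine Fin.cases ?_ (fun j' => ?_) j
    · intro hh
      exact absurd rfl hh
    · intro _
      simpa using h j'
    · intro _
      rw [Fin.cons_zero, Fin.cons_succ, ← inner_conj_symm, h i', map_zero]
    · intro hh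
      rw [Fin.cons_succ, Fin.cons_succ]
      exact he.2 fun hij => hh (by rw [hij])

/-- bounded sums over orthonormal families give compactness -/
theorem isCompact_of_orthonormal [CompleteSpace E] {F : Type*} [NormedAddCommGroup F]
    [NormedSpace ℂ F] [CompleteSpace F] (T : E →L[ℂ] F) (M : ℝ)
    (h : ∀ (n : ℕ) (e : Fin n → E), Orthonormal ℂ e → ∑ i, ‖T (e i)‖ ^ 2 ≤ M) :
    IsCompactOperator T := by
  classical
  -- the key claim
  have key : ∀ ε : ℝ, 0 < ε → ∃ V : Submodule ℂ E, FiniteDimensional ℂ V ∧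
      ∀ x ∈ Vᗮ, ‖T x‖ ≤ ε * ‖x‖ := by
    intro ε hε
    by_contra hcon
    push Not at hcon
    have hfam : ∀ n : ℕ, ∃ e : Fin n → E, Orthonormal ℂ e ∧ ∀ i, ε ≤ ‖T (e i)‖ := by
      intro n
      induction n with
      | zero =>
        refine ⟨fun i => i.elim0, ⟨fun i => i.elim0, fun i => i.elim0⟩, fun i => i.elim0⟩
      | succ n ih =>
        obtain ⟨e, he, heT⟩ := ih
        obtain ⟨x, hx, hxT⟩ := hcon (Submodule.span ℂ (Set.range e))
          (FiniteDimensional.span_of_finite ℂ (Set.finite_range e))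
        have hx0 : x ≠ 0 := by
          rintro rfl
          simp at hxT
        have hn : 0 < ‖x‖ := norm_pos_iff.2 hx0
        set y : E := ((‖x‖ : ℂ)⁻¹) • x with hy
        have hy1 : ‖y‖ = 1 := by
          rw [hy, norm_smul, norm_inv, Complex.norm_real, norm_norm, inv_mul_cancel₀ hn.ne']
        refine ⟨Fin.cons y e, orthonormal_cons he hy1 fun i => ?_, fun i => ?_⟩
        · rw [hy, inner_smul_left]
          have h1 : inner ℂ (e i) x = 0 := (Submodule.mem_orthogonal _ x).1 hx _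
            (Submodule.subset_span (Set.mem_range_self i))
          rw [← inner_conj_symm, h1, map_zero, mul_zero]
        · refine Fin.cases ?_ (fun j => ?_) i
          · rw [Fin.cons_zero, hy, map_smul, norm_smul, norm_inv, Complex.norm_real, norm_norm,
              ← div_eq_inv_mul, le_div_iff₀ hn]
            exact hxT.le
          · rw [Fin.cons_succ]
            exact heT j
    obtain ⟨n, hn⟩ := exists_nat_gt (M / ε ^ 2)
    obtain ⟨e, he, heT⟩ := hfam n
    have h1 := h n e he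
    have h2 : (n : ℝ) * ε ^ 2 ≤ ∑ i, ‖T (e i)‖ ^ 2 := by
      have : ∑ _i : Fin n, ε ^ 2 ≤ ∑ i, ‖T (e i)‖ ^ 2 :=
        Finset.sum_le_sum fun i _ => pow_le_pow_left₀ hε.le (heT i) 2
      simpa using this
    rw [div_lt_iff₀ (by positivity)] at hn
    linarith
  have hmem : T ∈ closure {f : E →L[ℂ] F | IsCompactOperator f} := by
    rw [Metric.mem_closure_iff]
    intro ε hε
    obtain ⟨V, hV, hVT⟩ := key (ε / 2) (by positivity)
    refine ⟨(T.comp V.subtypeL).comp V.orthogonalProjectionOnto, ?_, ?_⟩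
    · exact (isCompactOperator_of_locallyCompactSpace_dom V.orthogonalProjectionOnto).clm_comp
        (T.comp V.subtypeL)
    · rw [dist_eq_norm]
      refine lt_of_le_of_lt (ContinuousLinearMap.opNorm_le_bound _ (by positivity : 0 ≤ ε / 2)
        fun x => ?_) (by linarith)
      have h1 : (T - (T.comp V.subtypeL).comp V.orthogonalProjectionOnto) x =
          T (x - V.starProjection x) := by
        rw [map_sub]
        rfl
      rw [h1]
      refine (hVT _ (Submodule.sub_starProjection_mem_orthogonal x)).trans ?_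
      refine mul_le_mul_of_nonneg_left ?_ (by positivity)
      have h2 : ‖x - V.starProjection x‖ ≤ ‖x‖ := by
        have h3 : x - V.starProjection x = Vᗮ.starProjection x := by
          rw [Submodule.starProjection_orthogonal]
          rfl
        rw [h3]
        exact Submodule.norm_starProjection_apply_le Vᗮ x
      exact h2
  have hcl : IsClosed {f : E →L[ℂ] F | IsCompactOperator f} :=
    isClosed_setOfPred_isCompactOperator
  rw [hcl.closure_eq] at hmem
  exact hmem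

section L2

variable {X : Type*} [MeasurableSpace X] {μ : Measure X}

theorem norm_sq_eq (f : Lp ℂ 2 μ) : ‖f‖ ^ 2 = ∫ x, ‖f x‖ ^ 2 ∂μ := by
  have h1 : (inner ℂ f f : ℂ) = ((‖f‖ : ℂ)) ^ 2 := inner_self_eq_norm_sq_to_K f
  rw [L2.inner_def] at h1
  have h2 : ∀ x, (inner ℂ (f x) (f x) : ℂ) = (((‖f x‖ ^ 2 : ℝ)) : ℂ) := by
    intro x
    rw [inner_self_eq_norm_sq_to_K]
    push_cast
    rfl
  simp_rw [h2] at h1
  rw [integral_complex_ofReal] at h1
  exact_mod_cast h1.symm

theorem integrable_sq (f : Lp ℂ 2 μ) : Integrable (fun x => ‖f x‖ ^ 2) μ := by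
  have := L2.integrable_inner (𝕜 := ℂ) f f
  have h2 : (fun x => (inner ℂ (f x) (f x) : ℂ)) = fun x => (((‖f x‖ ^ 2 : ℝ)) : ℂ) := by
    funext x
    rw [inner_self_eq_norm_sq_to_K]
    push_cast
    rfl
  rw [h2] at this
  exact this.re

theorem coeFn_sum {n : ℕ} (a : Fin n → ℂ) (f : Fin n → Lp ℂ 2 μ) :
    ((∑ i, a i • f i : Lp ℂ 2 μ) : X → ℂ) =ᵐ[μ] fun x => ∑ i, a i * f i x := by
  induction n with
  | zero =>
    simp only [Finset.univ_eq_empty, Finset.sum_empty]
    exact Lp.coeFn_zero ℂ 2 μ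
  | succ n ih =>
    rw [Fin.sum_univ_succ]
    filter_upwards [Lp.coeFn_add (a 0 • f 0) (∑ i : Fin n, a i.succ • f i.succ),
      Lp.coeFn_smul (a 0) (f 0), ih (fun i => a i.succ) (fun i => f i.succ)] with x h1 h2 h3
    rw [h1, Pi.add_apply, h2, h3, Fin.sum_univ_succ]
    rfl

theorem norm_sum_sq {n : ℕ} {e : Fin n → E} (he : Orthonormal ℂ e) (a : Fin n → ℂ) :
    ‖∑ i, a i • e i‖ ^ 2 = ∑ i, ‖a i‖ ^ 2 := by
  have h1 : (inner ℂ (∑ i, a i • e i) (∑ i, a i • e i) : ℂ) = ∑ i, (starRingEnd ℂ) (a i) * a i :=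
    he.inner_sum a a Finset.univ
  have h0 : (inner ℂ (∑ i, a i • e i) (∑ i, a i • e i) : ℂ) = ((‖∑ i, a i • e i‖ : ℂ)) ^ 2 :=
    inner_self_eq_norm_sq_to_K _
  rw [h0] at h1
  have h2 : ∀ i, (starRingEnd ℂ) (a i) * a i = (((‖a i‖ ^ 2 : ℝ)) : ℂ) := by
    intro i
    rw [mul_comm, Complex.mul_conj, Complex.normSq_eq_norm_sq]
  simp_rw [h2] at h1
  exact_mod_cast h1

theorem sum_sq_le (T : E →L[ℂ] Lp ℂ 2 μ) (S : Set X) (hS : MeasurableSet S) (hμ : μ S ≠ ⊤)
    (c : ℝ) (hb : ∀ φ, ∀ᵐ x ∂μ, ‖T φ x‖ ≤ c * ‖φ‖)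
    (h0 : ∀ φ, ∀ᵐ x ∂μ, x ∉ S → T φ x = 0) (n : ℕ) (e : Fin n → E) (he : Orthonormal ℂ e) :
    ∑ i, ‖T (e i)‖ ^ 2 ≤ c ^ 2 * (μ S).toReal := by
  classical
  have hall : ∀ᵐ x ∂μ, ∀ a : Fin n → ℂ, ‖∑ i, a i * T (e i) x‖ ^ 2 ≤ c ^ 2 * ∑ i, ‖a i‖ ^ 2 := by
    obtain ⟨D, hDc, hDd⟩ := TopologicalSpace.exists_countable_dense (Fin n → ℂ)
    have h1 : ∀ᵐ x ∂μ, ∀ a ∈ D, ‖∑ i, a i * T (e i) x‖ ^ 2 ≤ c ^ 2 * ∑ i, ‖a i‖ ^ 2 := by
      rw [ae_ball_iff hDc]
      intro a _
      filter_upwards [hb (∑ i, a i • e i), coeFn_sum a (fun i => T (e i))] with x h2 h3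
      have h4 : T (∑ i, a i • e i) = ∑ i, a i • T (e i) := by
        rw [map_sum]
        simp only [map_smul]
      rw [h4, h3] at h2
      calc ‖∑ i, a i * T (e i) x‖ ^ 2 ≤ (c * ‖∑ i, a i • e i‖) ^ 2 :=
            pow_le_pow_left₀ (norm_nonneg _) h2 2
        _ = c ^ 2 * ∑ i, ‖a i‖ ^ 2 := by rw [mul_pow, norm_sum_sq he]
    filter_upwards [h1] with x hx a
    have hcl : IsClosed {a : Fin n → ℂ | ‖∑ i, a i * T (e i) x‖ ^ 2 ≤ c ^ 2 * ∑ i, ‖a i‖ ^ 2} := by
      refine isClosed_le ?_ ?_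
      · fun_prop
      · fun_prop
    have hsub : closure D ⊆ {a : Fin n → ℂ | ‖∑ i, a i * T (e i) x‖ ^ 2 ≤
        c ^ 2 * ∑ i, ‖a i‖ ^ 2} := hcl.closure_subset_iff.2 hx
    exact hsub (hDd a)
  have hpt : ∀ᵐ x ∂μ, ∑ i, ‖T (e i) x‖ ^ 2 ≤ S.indicator (fun _ => c ^ 2) x := by
    have h1 : ∀ᵐ x ∂μ, ∀ i, x ∉ S → T (e i) x = 0 := by
      rw [ae_all_iff]
      exact fun i => h0 (e i)
    filter_upwards [hall, h1] with x hx h1x
    by_cases hxS : x ∈ S
    · rw [Set.indicator_of_mem hxS]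
      have h2 := hx fun i => (starRingEnd ℂ) (T (e i) x)
      have h3 : ∀ i, (starRingEnd ℂ) (T (e i) x) * T (e i) x = (((‖T (e i) x‖ ^ 2 : ℝ)) : ℂ) := by
        intro i
        rw [mul_comm, Complex.mul_conj, Complex.normSq_eq_norm_sq]
      simp_rw [h3] at h2
      rw [← Complex.ofReal_sum, Complex.norm_real] at h2
      simp only [RCLike.norm_conj] at h2
      set s : ℝ := ∑ i, ‖T (e i) x‖ ^ 2 with hs
      have hs0 : 0 ≤ s := Finset.sum_nonneg fun i _ => by positivity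
      rw [Real.norm_of_nonneg hs0] at h2
      by_contra hlt
      push Not at hlt
      have hspos : 0 < s := lt_of_le_of_lt (by positivity) hlt
      nlinarith
    · rw [Set.indicator_of_notMem hxS]
      refine le_of_eq (Finset.sum_eq_zero fun i _ => ?_)
      rw [h1x i hxS, norm_zero]
      norm_num
  calc ∑ i, ‖T (e i)‖ ^ 2 = ∑ i, ∫ x, ‖T (e i) x‖ ^ 2 ∂μ :=
        Finset.sum_congr rfl fun i _ => norm_sq_eq _
    _ = ∫ x, ∑ i, ‖T (e i) x‖ ^ 2 ∂μ := by
        rw [integral_finsetSum]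
        exact fun i _ => integrable_sq _
    _ ≤ ∫ x, S.indicator (fun _ => c ^ 2) x ∂μ := by
        refine integral_mono_ae (integrable_finsetSum _ fun i _ => integrable_sq _) ?_ hpt
        exact (integrable_indicator_iff hS).2 (integrableOn_const hμ)
    _ = c ^ 2 * (μ S).toReal := by
        rw [integral_indicator hS, setIntegral_const, smul_eq_mul, mul_comm]
        rfl

/-- **Criterion of compactness.** -/
theorem isCompactOperator_of_bound [CompleteSpace E] (T : E →L[ℂ] Lp ℂ 2 μ) (S : Set X)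
    (hS : MeasurableSet S) (hμ : μ S ≠ ⊤) (c : ℝ)
    (hb : ∀ φ, ∀ᵐ x ∂μ, ‖T φ x‖ ≤ c * ‖φ‖) (h0 : ∀ φ, ∀ᵐ x ∂μ, x ∉ S → T φ x = 0) :
    IsCompactOperator T :=
  isCompact_of_orthonormal T (c ^ 2 * (μ S).toReal)
    fun n e he => sum_sq_le T S hS hμ c hb h0 n e he

/-- restriction of an `L^2` function to a measurable set -/
noncomputable def cutF (S : Set X) (hS : MeasurableSet S) (f : Lp ℂ 2 μ) : Lp ℂ 2 μ :=
  MemLp.toLp (S.indicator (fun x => f x)) (MemLp.indicator hS (Lp.memLp f))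

theorem coeFn_cutF (S : Set X) (hS : MeasurableSet S) (f : Lp ℂ 2 μ) :
    ∀ᵐ x ∂μ, cutF S hS f x = S.indicator (fun x => f x) x :=
  MemLp.coeFn_toLp _

theorem cutF_add (S : Set X) (hS : MeasurableSet S) (f g : Lp ℂ 2 μ) :
    cutF S hS (f + g) = cutF S hS f + cutF S hS g := by
  apply Lp.ext
  filter_upwards [coeFn_cutF S hS (f + g), Lp.coeFn_add (cutF S hS f) (cutF S hS g),
    coeFn_cutF S hS f, coeFn_cutF S hS g, Lp.coeFn_add f g] with x h1 h2 h3 h4 h5
  rw [h1, h2, Pi.add_apply, h3, h4]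
  by_cases hx : x ∈ S
  · rw [Set.indicator_of_mem hx, Set.indicator_of_mem hx, Set.indicator_of_mem hx, h5,
      Pi.add_apply]
  · rw [Set.indicator_of_notMem hx, Set.indicator_of_notMem hx, Set.indicator_of_notMem hx,
      add_zero]

theorem cutF_smul (S : Set X) (hS : MeasurableSet S) (a : ℂ) (f : Lp ℂ 2 μ) :
    cutF S hS (a • f) = a • cutF S hS f := by
  apply Lp.ext
  filter_upwards [coeFn_cutF S hS (a • f), Lp.coeFn_smul a (cutF S hS f),
    coeFn_cutF S hS f, Lp.coeFn_smul a f] with x h1 h2 h3 h4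
  rw [h1, h2, Pi.smul_apply, h3]
  by_cases hx : x ∈ S
  · rw [Set.indicator_of_mem hx, Set.indicator_of_mem hx, h4, Pi.smul_apply]
  · rw [Set.indicator_of_notMem hx, Set.indicator_of_notMem hx, smul_zero]

theorem norm_cutF_le (S : Set X) (hS : MeasurableSet S) (f : Lp ℂ 2 μ) :
    ‖cutF S hS f‖ ≤ ‖f‖ := by
  refine Lp.norm_le_norm_of_ae_le ?_
  filter_upwards [coeFn_cutF S hS f] with x h1
  rw [h1]
  by_cases hx : x ∈ S
  · rw [Set.indicator_of_mem hx]
  · rw [Set.indicator_of_notMem hx, norm_zero]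
    exact norm_nonneg _

/-- restriction of an `L^2` function to a measurable set, as an operator -/
noncomputable def cut (S : Set X) (hS : MeasurableSet S) : Lp ℂ 2 μ →L[ℂ] Lp ℂ 2 μ :=
  LinearMap.mkContinuous
    { toFun := cutF S hS
      map_add' := cutF_add S hS
      map_smul' := cutF_smul S hS } 1
    (fun f => by
      rw [one_mul]
      exact norm_cutF_le S hS f)

theorem coeFn_cut (S : Set X) (hS : MeasurableSet S) (f : Lp ℂ 2 μ) :
    ∀ᵐ x ∂μ, cut S hS f x = S.indicator (fun x => f x) x :=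
  coeFn_cutF S hS f

/-- **Compactness by cutting off a cusp.** -/
theorem isCompactOperator_of_cut [CompleteSpace E] (T : E →L[ℂ] Lp ℂ 2 μ)
    (h : ∀ ε : ℝ, 0 < ε → ∃ S : Set X, MeasurableSet S ∧ μ S ≠ ⊤ ∧
      (∃ c : ℝ, ∀ φ, ∀ᵐ x ∂μ, x ∈ S → ‖T φ x‖ ≤ c * ‖φ‖) ∧
      ∀ φ, ∫ x in Sᶜ, ‖T φ x‖ ^ 2 ∂μ ≤ ε * ‖φ‖ ^ 2) : IsCompactOperator T := by
  have hmem : T ∈ closure {f : E →L[ℂ] Lp ℂ 2 μ | IsCompactOperator f} := by
    rw [Metric.mem_closure_iff]
    intro ε hε
    obtain ⟨S, hS, hμ, ⟨c, hc⟩, hT⟩ := h ((ε / 2) ^ 2) (by positivity)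
    refine ⟨(cut S hS).comp T, ?_, ?_⟩
    · refine isCompactOperator_of_bound _ S hS hμ |c| (fun φ => ?_) fun φ => ?_
      · filter_upwards [coeFn_cut S hS (T φ), hc φ] with x h1 h2
        rw [ContinuousLinearMap.comp_apply, h1]
        by_cases hx : x ∈ S
        · rw [Set.indicator_of_mem hx]
          exact (h2 hx).trans (mul_le_mul_of_nonneg_right (le_abs_self c) (norm_nonneg _))
        · rw [Set.indicator_of_notMem hx, norm_zero]
          positivity
      · filter_upwards [coeFn_cut S hS (T φ)] with x h1 hx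
        rw [ContinuousLinearMap.comp_apply, h1, Set.indicator_of_notMem hx]
    · rw [dist_eq_norm]
      refine lt_of_le_of_lt (ContinuousLinearMap.opNorm_le_bound _ (by positivity : 0 ≤ ε / 2)
        fun φ => ?_) (by linarith)
      rw [sub_apply, ContinuousLinearMap.comp_apply]
      have h2 : ‖T φ - cut S hS (T φ)‖ ^ 2 = ∫ x in Sᶜ, ‖T φ x‖ ^ 2 ∂μ := by
        rw [norm_sq_eq, ← integral_indicator hS.compl]
        refine integral_congr_ae ?_
        filter_upwards [Lp.coeFn_sub (T φ) (cut S hS (T φ)), coeFn_cut S hS (T φ)] with x h3 h4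
        rw [h3, Pi.sub_apply, h4]
        by_cases hx : x ∈ S
        · rw [Set.indicator_of_mem hx, Set.indicator_of_notMem (by simpa using hx), sub_self,
            norm_zero]
          norm_num
        · rw [Set.indicator_of_notMem hx, Set.indicator_of_mem (by simpa using hx), sub_zero]
      have h3 : ‖T φ - cut S hS (T φ)‖ ^ 2 ≤ (ε / 2 * ‖φ‖) ^ 2 := by
        rw [h2, mul_pow]
        exact hT φ
      exact le_of_sq_le_sq h3 (by positivity)
  have hcl : IsClosed {f : E →L[ℂ] Lp ℂ 2 μ | IsCompactOperator f} :=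
    isClosed_setOfPred_isCompactOperator
  rw [hcl.closure_eq] at hmem
  exact hmem

end L2

end Pool.Agent.FC.HS
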