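import Mathlib
import Pool.Agent.FC.ConvD
import Pool.Agent.FC.HS

/-!
# FC: the compactness criterion for `R(h)`

If outside of a compact set every point `x` has `z • x = x` with `h(z g)` close to `c h(g)`, `|1 - c| ≥ κ`, then `R(h)`
is a compact operator on `L²(X)`.
-/

open MeasureTheory Set Topology Filter
open scoped ENNReal NNReal Pointwise

set_option linter.unusedSectionVars false

namespace Pool.Agent.FC.Conv

section

variable {G X : Type*} [Group G] [TopologicalSpace G] [IsTopologicalGroup G] [SecondCountableTopology G]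
  [LocallyCompactSpace G] [MeasurableSpace G] [BorelSpace G]
  [TopologicalSpace X] [T2Space X] [SecondCountableTopology X]
  [MeasurableSpace X] [BorelSpace X] [MulAction G X] [ContinuousSMul G X]
  {μ : Measure G} [IsFiniteMeasureOnCompacts μ] [SigmaFinite μ] [μ.IsMulLeftInvariant]
  {ν : Measure X} [SMulInvariantMeasure G X ν] [IsFiniteMeasureOnCompacts ν]
  [IsLocallyFiniteMeasure ν] [ν.InnerRegularCompactLTTop] [SigmaFinite ν]

/-- The pointwise cusp estimate. -/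
theorem cusp_estimate (hL : LocBound μ ν) {h : G → ℂ} (hc : Continuous h)
    (hs : HasCompactSupport h) {B : Set G} (hB : MeasurableSet B) {ε κ : ℝ} (hε : 0 ≤ ε) (hκ : 0 < κ)
    {x : X} {z : G} (hz : z • x = x) {c : ℂ} (hκc : κ ≤ ‖1 - c‖)
    (hu : ∀ g, ‖h (z * g) - c * h g‖ ≤ ε * B.indicator 1 g) (f : Lp ℂ 2 ν) :
    ‖ell μ h f x‖ₑ ≤ ENNReal.ofReal (ε / κ) * absInt μ B f x := by
  have h1 := ell_sub_le (μ := μ) hL hc hs hB hε c z hu f x
  rw [hz, ← one_sub_mul, enorm_mul] at h1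
  have h2 : ENNReal.ofReal κ ≤ ‖1 - c‖ₑ := by
    rw [← ofReal_norm]
    exact ENNReal.ofReal_le_ofReal hκc
  have h3 : ENNReal.ofReal κ * ‖ell μ h f x‖ₑ ≤ ENNReal.ofReal ε * absInt μ B f x :=
    (mul_le_mul_left h2 _).trans h1
  have hκ0 : ENNReal.ofReal κ ≠ 0 := by
    rw [Ne, ENNReal.ofReal_eq_zero, not_le]; exact hκ
  rw [ENNReal.ofReal_div_of_pos hκ, ENNReal.div_eq_inv_mul, mul_assoc]
  calc ‖ell μ h f x‖ₑ = (ENNReal.ofReal κ)⁻¹ * (ENNReal.ofReal κ * ‖ell μ h f x‖ₑ) := by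
        rw [← mul_assoc, ENNReal.inv_mul_cancel hκ0 ENNReal.ofReal_ne_top, one_mul]
    _ ≤ (ENNReal.ofReal κ)⁻¹ * (ENNReal.ofReal ε * absInt μ B f x) := by gcongr

/-- The compactness criterion. -/
theorem isCompactOperator_Rop (hL : LocBound μ ν) {h : G → ℂ} (hc : Continuous h)
    (hs : HasCompactSupport h) {κ : ℝ} (hκ : 0 < κ) {B : Set G} (hB : IsCompact B)
    (hBm : MeasurableSet B)
    (hcusp : ∀ ε > (0 : ℝ), ∃ Y : Set X, IsCompact Y ∧ ∀ x ∉ Y, ∃ z : G, z • x = x ∧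
      ∃ c : ℂ, κ ≤ ‖1 - c‖ ∧ ∀ g, ‖h (z * g) - c * h g‖ ≤ ε * B.indicator 1 g) :
    IsCompactOperator (Rop μ ν hc hs) := by
  apply HS.isCompactOperator_of_cut
  intro δ hδ
  obtain ⟨r, hr0, hr⟩ : ∃ r : ℝ, 0 ≤ r ∧ μ B = ENNReal.ofReal r :=
    ⟨(μ B).toReal, ENNReal.toReal_nonneg, (ENNReal.ofReal_toReal hB.measure_lt_top.ne).symm⟩
  obtain ⟨ε, hε, hεr⟩ : ∃ ε : ℝ, 0 < ε ∧ (ε / κ) ^ 2 * r ^ 2 ≤ δ := by
    refine ⟨κ * (Real.sqrt δ / (r + 1)), by positivity, ?_⟩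
    rw [mul_div_cancel_left₀ _ hκ.ne', div_pow, Real.sq_sqrt hδ.le, div_mul_eq_mul_div,
      div_le_iff₀ (by positivity)]
    have : r ^ 2 ≤ (r + 1) ^ 2 := by nlinarith
    nlinarith
  obtain ⟨Y, hY, hYc⟩ := hcusp ε hε
  refine ⟨Y, hY.measurableSet, hY.measure_lt_top.ne, ?_, ?_⟩
  · obtain ⟨C, _, hC⟩ := ell_bound hL hc hs hY
    refine ⟨C, fun f => ?_⟩
    filter_upwards [Rop_ae_ell (μ := μ) (ν := ν) hc hs f] with x hx hxY
    rw [hx]
    exact hC f x hxY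
  · intro f
    have h1 : ∀ᵐ x ∂(ν.restrict Yᶜ), ‖Rop μ ν hc hs f x‖ₑ ≤ ENNReal.ofReal (ε / κ) * absInt μ B f x := by
      rw [ae_restrict_iff' hY.measurableSet.compl]
      filter_upwards [Rop_ae_ell (μ := μ) (ν := ν) hc hs f] with x hx hxY
      rw [hx]
      obtain ⟨z, hz, c, hκc, hu⟩ := hYc x hxY
      exact cusp_estimate hL hc hs hBm hε.le hκ hz hκc hu f
    have h2 : ∫⁻ x in Yᶜ, ‖Rop μ ν hc hs f x‖ₑ ^ 2 ∂ν ≤ ENNReal.ofReal (δ * ‖f‖ ^ 2) := by
      calc ∫⁻ x in Yᶜ, ‖Rop μ ν hc hs f x‖ₑ ^ 2 ∂ν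
          ≤ ∫⁻ x in Yᶜ, (ENNReal.ofReal (ε / κ) * absInt μ B f x) ^ 2 ∂ν := by
            apply lintegral_mono_ae
            filter_upwards [h1] with x hx
            gcongr
        _ = ENNReal.ofReal (ε / κ) ^ 2 * ∫⁻ x in Yᶜ, absInt μ B f x ^ 2 ∂ν := by
            simp only [mul_pow]
            rw [lintegral_const_mul' _ _ (ENNReal.pow_ne_top ENNReal.ofReal_ne_top)]
        _ ≤ ENNReal.ofReal (ε / κ) ^ 2 * ∫⁻ x, absInt μ B f x ^ 2 ∂ν := by
            gcongr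
            exact Measure.restrict_le_self
        _ ≤ ENNReal.ofReal (ε / κ) ^ 2 * (μ B ^ 2 * ‖f‖ₑ ^ 2) := by
            gcongr
            exact lintegral_absInt_sq_le B f
        _ = ENNReal.ofReal ((ε / κ) ^ 2 * r ^ 2 * ‖f‖ ^ 2) := by
            rw [hr, ← ofReal_norm, ← ENNReal.ofReal_pow (by positivity), ← ENNReal.ofReal_pow hr0,
              ← ENNReal.ofReal_pow (norm_nonneg f), ← ENNReal.ofReal_mul (by positivity),
              ← ENNReal.ofReal_mul (by positivity), mul_assoc]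
        _ ≤ ENNReal.ofReal (δ * ‖f‖ ^ 2) := by
            apply ENNReal.ofReal_le_ofReal
            gcongr
    have h3 : ∫ x in Yᶜ, ‖Rop μ ν hc hs f x‖ ^ 2 ∂ν
        = (∫⁻ x in Yᶜ, ‖Rop μ ν hc hs f x‖ₑ ^ 2 ∂ν).toReal := by
      have hm : AEStronglyMeasurable (fun x => ‖Rop μ ν hc hs f x‖ ^ 2) (ν.restrict Yᶜ) :=
        ((Lp.stronglyMeasurable (Rop μ ν hc hs f)).norm.pow 2).aestronglyMeasurable
      rw [integral_eq_lintegral_of_nonneg_ae (ae_of_all _ fun x => sq_nonneg _) hm]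
      congr 1
      apply lintegral_congr
      intro x
      rw [ENNReal.ofReal_pow (norm_nonneg _), ofReal_norm]
    rw [h3]
    exact ENNReal.toReal_le_of_le_ofReal (by positivity) h2

end

end Pool.Agent.FC.Conv
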