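import Mathlib
import Pool.Agent.FC.ConvD

/-!
# FC: the Riesz vectors of the evaluation functionals of `R(h)`
-/

open MeasureTheory Set Topology Filter
open scoped ENNReal NNReal Pointwise

set_option linter.unusedSectionVars false

namespace Pool.Agent.FC.Conv

section

variable {G X : Type*} [Group G] [TopologicalSpace G] [IsTopologicalGroup G] [SecondCountableTopology G]
  [LocallyCompactSpace G] [MeasurableSpace G] [BorelSpace G]
  [TopologicalSpace X] [T2Space X] [SecondCountableTopology X]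
  [MeasurableSpace X] [BorelSpace X] [MulAction G X] [ContinuousSMul G X]
  {μ : Measure G} [IsFiniteMeasureOnCompacts μ] [SigmaFinite μ] [μ.IsMulLeftInvariant]
  {ν : Measure X} [SMulInvariantMeasure G X ν] [IsFiniteMeasureOnCompacts ν]
  [IsLocallyFiniteMeasure ν] [ν.InnerRegularCompactLTTop] [SigmaFinite ν]

/-- Equicontinuity of the evaluation functionals. -/
theorem ell_equi (hL : LocBound μ ν) {h : G → ℂ} (hc : Continuous h) (hs : HasCompactSupport h)
    (x : X) {ε : ℝ} (hε : 0 < ε) :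
    ∃ U ∈ 𝓝 (1 : G), ∀ u ∈ U, ∀ f : Lp ℂ 2 ν, ‖ell μ h f (u • x) - ell μ h f x‖ ≤ ε * ‖f‖ := by
  obtain ⟨B, hB, hBc, hu⟩ := exists_unif hc hs
  obtain ⟨M, hM⟩ := hL B {x} hB isCompact_singleton
  obtain ⟨r, hr0, hr⟩ : ∃ r : ℝ, 0 ≤ r ∧ μ B = ENNReal.ofReal r :=
    ⟨(μ B).toReal, ENNReal.toReal_nonneg, (ENNReal.ofReal_toReal hB.measure_lt_top.ne).symm⟩
  obtain ⟨η, hη, hηε⟩ : ∃ η : ℝ, 0 < η ∧ η * Real.sqrt (r * M) ≤ ε := by
    refine ⟨ε / (Real.sqrt (r * M) + 1), by positivity, ?_⟩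
    rw [div_mul_eq_mul_div, div_le_iff₀ (by positivity)]
    nlinarith [Real.sqrt_nonneg (r * M)]
  obtain ⟨U, hU, hUη⟩ := hu η hη
  refine ⟨U, hU, fun u huU f => ?_⟩
  have h1 := ell_sub_le (μ := μ) hL hc hs hBc.measurableSet hη.le 1 u
    (by simpa only [one_mul] using hUη u huU) f x
  rw [one_mul] at h1
  have h2 := absInt_sq_le' hM f (mem_singleton x)
  have h3 : ‖ell μ h f (u • x) - ell μ h f x‖ₑ ^ 2
      ≤ ENNReal.ofReal ((η * Real.sqrt (r * M) * ‖f‖) ^ 2) := by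
    calc ‖ell μ h f (u • x) - ell μ h f x‖ₑ ^ 2 ≤ (ENNReal.ofReal η * absInt μ B f x) ^ 2 := by
          gcongr
      _ = ENNReal.ofReal η ^ 2 * absInt μ B f x ^ 2 := by ring
      _ ≤ ENNReal.ofReal η ^ 2 * (μ B * (M * ‖f‖ₑ ^ 2)) := by gcongr
      _ = ENNReal.ofReal ((η * Real.sqrt (r * M) * ‖f‖) ^ 2) := by
          have e2 : (M : ℝ≥0∞) = ENNReal.ofReal (M : ℝ) := by
            rw [ENNReal.ofReal_coe_nnreal]
          rw [hr, e2, ← ofReal_norm, ← ENNReal.ofReal_pow hη.le, ← ENNReal.ofReal_pow (norm_nonneg f)]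
          rw [← ENNReal.ofReal_mul (by positivity), ← ENNReal.ofReal_mul (by positivity),
            ← ENNReal.ofReal_mul (by positivity)]
          congr 1
          rw [mul_pow, mul_pow, Real.sq_sqrt (by positivity)]
          ring
  rw [← ofReal_norm, ← ENNReal.ofReal_pow (norm_nonneg _),
    ENNReal.ofReal_le_ofReal_iff (by positivity)] at h3
  have h4 := (pow_le_pow_iff_left₀ (norm_nonneg _) (by positivity) (by norm_num)).1 h3
  exact h4.trans (by gcongr)

/-- `R(h) f` is represented by a continuous function. -/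
theorem ell_continuous (hopen : ∀ x : X, ∀ U ∈ 𝓝 (1 : G), {y | ∃ u ∈ U, y = u • x} ∈ 𝓝 x)
    (hL : LocBound μ ν) {h : G → ℂ} (hc : Continuous h) (hs : HasCompactSupport h)
    (f : Lp ℂ 2 ν) : Continuous (ell μ h f) := by
  rw [continuous_iff_continuousAt]
  intro x
  rw [ContinuousAt, Metric.tendsto_nhds]
  intro ε hε
  obtain ⟨U, hU, hUε⟩ := ell_equi hL hc hs x (ε := ε / (2 * (‖f‖ + 1))) (by positivity)
  filter_upwards [hopen x U hU] with y hy
  obtain ⟨u, hu, rfl⟩ := hy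
  rw [dist_eq_norm]
  refine (hUε u hu f).trans_lt ?_
  rw [div_mul_eq_mul_div, div_lt_iff₀ (by positivity)]
  nlinarith [norm_nonneg f]

/-- The Riesz vectors of the evaluation functionals. -/
theorem exists_kvec (hopen : ∀ x : X, ∀ U ∈ 𝓝 (1 : G), {y | ∃ u ∈ U, y = u • x} ∈ 𝓝 x)
    (hL : LocBound μ ν) {h : G → ℂ} (hc : Continuous h) (hs : HasCompactSupport h) :
    ∃ k : X → Lp ℂ 2 ν, Continuous k ∧
      ∀ (f : Lp ℂ 2 ν) (x : X), inner ℂ (k x) f = ∫ g, h g * f (g⁻¹ • x) ∂μ := by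
  refine ⟨fun x => (InnerProductSpace.toDual ℂ (Lp ℂ 2 ν)).symm (evalL hL hc hs x), ?_, ?_⟩
  · apply (InnerProductSpace.toDual ℂ (Lp ℂ 2 ν)).symm.continuous.comp
    rw [continuous_iff_continuousAt]
    intro x
    rw [ContinuousAt, Metric.tendsto_nhds]
    intro ε hε
    obtain ⟨U, hU, hUε⟩ := ell_equi (μ := μ) (ν := ν) hL hc hs x (ε := ε / 2) (by positivity)
    filter_upwards [hopen x U hU] with y hy
    obtain ⟨u, hu, rfl⟩ := hy
    rw [dist_eq_norm]
    refine lt_of_le_of_lt (ContinuousLinearMap.opNorm_le_bound _ (by positivity) fun f => ?_)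
      (half_lt_self hε)
    exact hUε u hu f
  · intro f x
    rw [InnerProductSpace.toDual_symm_apply]
    rfl

end

end Pool.Agent.FC.Conv
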