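import Pool.Agent.FC.Base
import Pool.Agent.FC.Psi3

/-!
# Project FC: the transvections `1 + c Z_{v,u}` and the local part at `3` of the cusp element
-/

open RestrictedProduct Matrix MeasureTheory

noncomputable section

namespace Pool.Agent.FC.CuspA

section ring

variable {n : ℕ} {R : Type*} [CommRing R]

theorem J_mulVec (w : Fin n ⊕ Fin n → R) :
    J (Fin n) R *ᵥ w = Sum.elim (-(w ∘ Sum.inr)) (w ∘ Sum.inl) := by
  rw [J, Matrix.fromBlocks_mulVec]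
  simp [Matrix.neg_mulVec]

theorem symp_apply (v w : Fin n ⊕ Fin n → R) :
    symp v w = (∑ i, v (Sum.inr i) * w (Sum.inl i)) - ∑ i, v (Sum.inl i) * w (Sum.inr i) := by
  rw [symp, J_mulVec]
  simp only [dotProduct, Fintype.sum_sum_type, Sum.elim_inl, Sum.elim_inr, Function.comp_apply,
    Pi.neg_apply, mul_neg, Finset.sum_neg_distrib]
  ring

theorem symp_skew (v w : Fin n ⊕ Fin n → R) : symp w v = -symp v w := by
  rw [symp_apply, symp_apply]
  rw [neg_sub]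
  congr 1 <;> exact Finset.sum_congr rfl fun i _ => mul_comm _ _

theorem symp_self (v : Fin n ⊕ Fin n → R) : symp v v = 0 := by
  rw [symp_apply, sub_eq_zero]
  exact Finset.sum_congr rfl fun i _ => mul_comm _ _

theorem Zmat_mulVec (v u z : Fin n ⊕ Fin n → R) :
    Zmat v u *ᵥ z = symp z u • v + symp z v • u := by
  rw [Zmat, Matrix.add_mulVec]
  ext i
  simp only [Matrix.mulVec, dotProduct, Matrix.vecMulVec_apply, Pi.add_apply, Pi.smul_apply,
    smul_eq_mul, symp, Finset.sum_mul]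
  congr 1 <;> exact Finset.sum_congr rfl fun j _ => by ring

theorem vecMul_J (b : Fin n ⊕ Fin n → R) : (J (Fin n) R *ᵥ b) ᵥ* J (Fin n) R = b := by
  rw [Matrix.vecMul_mulVec, J_transpose, Matrix.neg_mul, J_squared, neg_neg, Matrix.vecMul_one]

theorem J_J_mulVec (b : Fin n ⊕ Fin n → R) : J (Fin n) R *ᵥ (J (Fin n) R *ᵥ b) = -b := by
  rw [Matrix.mulVec_mulVec, J_squared, Matrix.neg_mulVec, Matrix.one_mulVec]

theorem Zmat_mul_J (v u : Fin n ⊕ Fin n → R) :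
    Zmat v u * J (Fin n) R + J (Fin n) R * (Zmat v u)ᵀ = 0 := by
  rw [Zmat, Matrix.add_mul, Matrix.vecMulVec_mul, Matrix.vecMulVec_mul, vecMul_J, vecMul_J,
    Matrix.transpose_add, Matrix.transpose_vecMulVec, Matrix.transpose_vecMulVec, Matrix.mul_add,
    Matrix.mul_vecMulVec, Matrix.mul_vecMulVec, J_J_mulVec, J_J_mulVec, Matrix.neg_vecMulVec,
    Matrix.neg_vecMulVec]
  abel

theorem Zmat_sq {v u : Fin n ⊕ Fin n → R} (h : symp v u = 0) : Zmat v u * Zmat v u = 0 := by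
  have h' : symp u v = 0 := by rw [symp_skew, h, neg_zero]
  apply Matrix.ext_of_mulVec_single
  intro i
  rw [← Matrix.mulVec_mulVec, Zmat_mulVec v u (Pi.single i 1), Matrix.mulVec_add,
    Matrix.mulVec_smul, Matrix.mulVec_smul, Zmat_mulVec, Zmat_mulVec, h, h', symp_self, symp_self,
    Matrix.zero_mulVec]
  simp

theorem one_add_mem {v u : Fin n ⊕ Fin n → R} (h : symp v u = 0) (c : R) :
    1 + c • Zmat v u ∈ Matrix.symplecticGroup (Fin n) R := by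
  rw [SymplecticGroup.mem_iff]
  have h1 := Zmat_mul_J v u
  have h2 : J (Fin n) R * (Zmat v u)ᵀ = -(Zmat v u * J (Fin n) R) :=
    eq_neg_of_add_eq_zero_right h1
  have h3 : Zmat v u * J (Fin n) R * (Zmat v u)ᵀ = 0 := by
    rw [Matrix.mul_assoc, h2, Matrix.mul_neg, ← Matrix.mul_assoc, Zmat_sq h, Matrix.zero_mul,
      neg_zero]
  rw [Matrix.transpose_add, Matrix.transpose_one, Matrix.transpose_smul, Matrix.add_mul,
    Matrix.one_mul, Matrix.mul_add, Matrix.mul_one, Matrix.add_mul, Matrix.smul_mul,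
    Matrix.mul_smul, Matrix.mul_smul, Matrix.smul_mul, h3, smul_zero, smul_zero, add_zero, h2]
  simp

/-- the transvection `1 + c Z_{v,u}` -/
def nu (c : R) (v u : Fin n ⊕ Fin n → R) (h : symp v u = 0) :
    Matrix.symplecticGroup (Fin n) R := ⟨1 + c • Zmat v u, one_add_mem h c⟩

theorem symp_mulVec (g : Matrix.symplecticGroup (Fin n) R) (v u : Fin n ⊕ Fin n → R) :
    symp ((g : Mat n R) *ᵥ v) ((g : Mat n R) *ᵥ u) = symp v u := by
  have hg := SymplecticGroup.mem_iff'.1 g.2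
  have h1 : ((g : Mat n R) *ᵥ v) ⬝ᵥ (J (Fin n) R *ᵥ ((g : Mat n R) *ᵥ u)) =
      v ⬝ᵥ ((g : Mat n R)ᵀ *ᵥ (J (Fin n) R *ᵥ ((g : Mat n R) *ᵥ u))) := by
    rw [Matrix.dotProduct_mulVec v, Matrix.vecMul_transpose]
  rw [symp, symp, h1, Matrix.mulVec_mulVec, Matrix.mulVec_mulVec, hg]

theorem conj (g : Matrix.symplecticGroup (Fin n) R) (v u : Fin n ⊕ Fin n → R) :
    (g : Mat n R) * Zmat v u * ((g⁻¹ : Matrix.symplecticGroup (Fin n) R) : Mat n R) =
      Zmat ((g : Mat n R) *ᵥ v) ((g : Mat n R) *ᵥ u) := by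
  have key : ∀ b : Fin n ⊕ Fin n → R,
      (J (Fin n) R *ᵥ b) ᵥ* ((g⁻¹ : Matrix.symplecticGroup (Fin n) R) : Mat n R) =
        J (Fin n) R *ᵥ ((g : Mat n R) *ᵥ b) := by
    intro b
    rw [SymplecticGroup.coe_inv, Matrix.neg_mul, Matrix.neg_mul, Matrix.vecMul_neg,
      ← Matrix.vecMul_vecMul, ← Matrix.vecMul_vecMul, vecMul_J, Matrix.vecMul_transpose,
      ← Matrix.mulVec_transpose, J_transpose, Matrix.neg_mulVec, neg_neg]
  rw [Zmat, Zmat, Matrix.mul_add, Matrix.mul_vecMulVec, Matrix.mul_vecMulVec, Matrix.add_mul,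
    Matrix.vecMulVec_mul, Matrix.vecMulVec_mul, key, key]

theorem symp_map {S : Type*} [CommRing S] (φ : R →+* S) (v u : Fin n ⊕ Fin n → R) :
    symp (fun i => φ (v i)) (fun i => φ (u i)) = φ (symp v u) := by
  rw [symp_apply, symp_apply, map_sub, map_sum, map_sum]
  simp only [map_mul]

theorem Zmat_map {S : Type*} [CommRing S] (φ : R →+* S) (v u : Fin n ⊕ Fin n → R) :
    (Zmat v u).map φ = Zmat (fun i => φ (v i)) (fun i => φ (u i)) := by
  have hJ : ∀ b : Fin n ⊕ Fin n → R, (fun i => φ ((J (Fin n) R *ᵥ b) i)) =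
      J (Fin n) S *ᵥ (fun i => φ (b i)) := by
    intro b
    rw [J_mulVec, J_mulVec]
    funext i
    rcases i with i | i <;> simp
  ext i j
  have h1 := congrFun (hJ u) j
  have h2 := congrFun (hJ v) j
  simp only [Zmat, Matrix.map_apply, Matrix.add_apply, Matrix.vecMulVec_apply, map_add, map_mul]
  rw [h1, h2]

end ring

section adelic

variable {n : ℕ} {K : Type*} [CommRing K]

theorem nu_map (φ : Adele →+* K) {v u : Fin n ⊕ Fin n → ℚ} (h : symp v u = 0) (c : ℚ) :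
    ((spMap n ratAdele (nu c v u h) : GA n) : Mat n Adele).map φ =
      1 + φ (ratAdele c) • Zmat (fun i => φ (ratAdele (v i))) (fun i => φ (ratAdele (u i))) := by
  have h1 : ((spMap n ratAdele (nu c v u h) : GA n) : Mat n Adele) =
      (1 + c • Zmat v u).map ratAdele := rfl
  have h2 := Zmat_map (φ.comp ratAdele) v u
  rw [h1, Matrix.map_map]
  have h3 : (1 + c • Zmat v u).map (φ.comp ratAdele) =
      1 + (φ.comp ratAdele c) • (Zmat v u).map (φ.comp ratAdele) := by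
    rw [Matrix.map_add _ (map_add (φ.comp ratAdele)), Matrix.map_one _ (map_zero _) (map_one _)]
    congr 1
    ext i j
    simp [Matrix.map_apply]
  exact h3.trans (by rw [h2]; rfl)

theorem conj_map (φ : Adele →+* K) (g : GA n) {v u : Fin n ⊕ Fin n → ℚ} (h : symp v u = 0)
    (c : ℚ) :
    ((g * spMap n ratAdele (nu c v u h) * g⁻¹ : GA n) : Mat n Adele).map φ - 1 =
      φ (ratAdele c) • Zmat ((g : Mat n Adele).map φ *ᵥ fun i => φ (ratAdele (v i)))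
        ((g : Mat n Adele).map φ *ᵥ fun i => φ (ratAdele (u i))) := by
  have h1 : ((g * spMap n ratAdele (nu c v u h) * g⁻¹ : GA n) : Mat n Adele).map φ =
      (g : Mat n Adele).map φ * ((spMap n ratAdele (nu c v u h) : GA n) : Mat n Adele).map φ *
        ((g⁻¹ : GA n) : Mat n Adele).map φ := by
    rw [← Matrix.map_mul, ← Matrix.map_mul]; rfl
  have h2 : (g : Mat n Adele).map φ * ((g⁻¹ : GA n) : Mat n Adele).map φ = 1 := by
    rw [← Matrix.map_mul]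
    have : ((g : Mat n Adele) * ((g⁻¹ : GA n) : Mat n Adele)) = 1 := by
      have := congrArg (fun x : GA n => (x : Mat n Adele)) (mul_inv_cancel g)
      exact this
    rw [this, Matrix.map_one _ (map_zero φ) (map_one φ)]
  have h3 := conj (spMap n φ g) (fun i => φ (ratAdele (v i))) (fun i => φ (ratAdele (u i)))
  have h4 : ((spMap n φ g : Matrix.symplecticGroup (Fin n) K) : Mat n K) =
      (g : Mat n Adele).map φ := rfl
  have h5 : (((spMap n φ g)⁻¹ : Matrix.symplecticGroup (Fin n) K) : Mat n K) =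
      ((g⁻¹ : GA n) : Mat n Adele).map φ := by
    rw [← map_inv]; rfl
  rw [h4, h5] at h3
  rw [h1, nu_map, Matrix.mul_add, Matrix.mul_one, Matrix.add_mul, h2, Matrix.mul_smul,
    Matrix.smul_mul, h3, add_sub_cancel_left]

/-- the rational transvection, seen from `g` -/
theorem exists_nu (g : GA n) {v u : Fin n ⊕ Fin n → ℚ} (h : symp v u = 0) (c : ℚ) :
    ∃ ν ∈ GQ n, (∀ p : Nat.Primes, gp (g * ν * g⁻¹) p - 1 =
        (c : ℚ_[(p : ℕ)]) • Zmat (gp g p *ᵥ fun j => (v j : ℚ_[(p : ℕ)]))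
          (gp g p *ᵥ fun j => (u j : ℚ_[(p : ℕ)]))) ∧
      gR (g * ν * g⁻¹) - 1 =
        (c : ℝ) • Zmat (gR g *ᵥ fun j => (v j : ℝ)) (gR g *ᵥ fun j => (u j : ℝ)) := by
  refine ⟨spMap n ratAdele (nu c v u h), ⟨nu c v u h, rfl⟩, fun p => ?_, ?_⟩
  · exact conj_map (evp p) g h c
  · exact conj_map evR g h c

end adelic

section localpart

/-- `ℚ₃` -/
abbrev Q3 : Type := ℚ_[(p3 : ℕ)]

theorem norm_three : ‖(3 : Q3)‖ = 1 / 3 := by
  have h := Padic.norm_p (p := (p3 : ℕ))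
  have e : (((p3 : ℕ) : ℕ) : Q3) = 3 := by
    change ((3 : ℕ) : Q3) = 3
    norm_num
  rw [e] at h
  rw [h]
  change ((3 : ℕ) : ℝ)⁻¹ = 1 / 3
  norm_num

theorem norm_two : ‖(2 : Q3)‖ = 1 := by
  have h : ‖((2 : ℕ) : Q3)‖ = 1 := by
    rw [Padic.norm_natCast_eq_one_iff]
    change Nat.Coprime 3 2
    decide
  exact_mod_cast h

theorem norm_int_le (z : ℤ) : ‖(z : Q3)‖ ≤ 1 := Padic.norm_int_le_one z

theorem X3_eq : X3 = Matrix.fromBlocks 0 ((1 / 9 : Q3) • red Q3 S2) ((1 / 3 : Q3) • red Q3 S1) 0 := by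
  ext i j
  rcases i with i | i <;> rcases j with j | j <;> simp [X3, Xq]

theorem red_symm1 : (red Q3 S1)ᵀ = red Q3 S1 := by
  have h : S1ᵀ = S1 := by decide
  rw [red, ← Matrix.transpose_map, h]

theorem red_symm2 : (red Q3 S2)ᵀ = red Q3 S2 := by
  have h : S2ᵀ = S2 := by decide
  rw [red, ← Matrix.transpose_map, h]

theorem symm_swap {m : Type*} [Fintype m] {K : Type*} [CommRing K] {A : Matrix m m K}
    (hA : Aᵀ = A) (x y : m → K) : x ⬝ᵥ A *ᵥ y = y ⬝ᵥ A *ᵥ x := by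
  rw [Matrix.dotProduct_mulVec, ← Matrix.mulVec_transpose, hA, dotProduct_comm]

theorem symp_X3 (v u : Fin 6 ⊕ Fin 6 → Q3) :
    symp (X3 *ᵥ v) u =
      (1 / 3) * ((fun i => v (Sum.inl i)) ⬝ᵥ (red Q3 S1 *ᵥ fun i => u (Sum.inl i))) -
      (1 / 9) * ((fun i => v (Sum.inr i)) ⬝ᵥ (red Q3 S2 *ᵥ fun i => u (Sum.inr i))) := by
  rw [symm_swap red_symm1, symm_swap red_symm2, symp_apply, X3_eq, Matrix.fromBlocks_mulVec]
  simp only [Matrix.zero_mulVec, zero_add, add_zero, Sum.elim_inr, Sum.elim_inl,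
    Matrix.smul_mulVec, Pi.smul_apply, smul_eq_mul]
  congr 1
  · rw [dotProduct, Finset.mul_sum]
    exact Finset.sum_congr rfl fun i _ => by
      simp only [Function.comp_def]; ring
  · rw [dotProduct, Finset.mul_sum]
    exact Finset.sum_congr rfl fun i _ => by
      simp only [Function.comp_def]; ring

theorem trace_X3_Zmat (v u : Fin 6 ⊕ Fin 6 → Q3) :
    Matrix.trace (X3 * Zmat v u) = 2 *
      ((1 / 3) * ((fun i => v (Sum.inl i)) ⬝ᵥ (red Q3 S1 *ᵥ fun i => u (Sum.inl i))) -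
      (1 / 9) * ((fun i => v (Sum.inr i)) ⬝ᵥ (red Q3 S2 *ᵥ fun i => u (Sum.inr i)))) := by
  have h1 : Matrix.trace (X3 * Zmat v u) = symp (X3 *ᵥ v) u + symp (X3 *ᵥ u) v := by
    rw [Zmat, Matrix.mul_add, Matrix.mul_vecMulVec, Matrix.mul_vecMulVec, Matrix.trace_add,
      Matrix.trace_vecMulVec, Matrix.trace_vecMulVec]
    rfl
  rw [h1, symp_X3, symp_X3, symm_swap red_symm1 (fun i => u (Sum.inl i)),
    symm_swap red_symm2 (fun i => u (Sum.inr i))]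
  ring

theorem Zmat_entry {R : Type*} [CommRing R] {n : ℕ} (v u : Fin n ⊕ Fin n → R)
    (i : Fin n ⊕ Fin n) :
    (∀ j, Zmat v u i (Sum.inl j) = -(v i * u (Sum.inr j) + u i * v (Sum.inr j))) ∧
    (∀ j, Zmat v u i (Sum.inr j) = v i * u (Sum.inl j) + u i * v (Sum.inl j)) := by
  constructor
  · intro j
    simp only [Zmat, Matrix.add_apply, Matrix.vecMulVec_apply, J_mulVec, Sum.elim_inl,
      Pi.neg_apply, Function.comp_apply]
    ring
  · intro j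
    simp only [Zmat, Matrix.add_apply, Matrix.vecMulVec_apply, J_mulVec, Sum.elim_inr,
      Function.comp_apply]

theorem norm_add_mul_le {a b c d : Q3} {r : ℝ} (h1 : ‖a * b‖ ≤ r) (h2 : ‖c * d‖ ≤ r) :
    ‖a * b + c * d‖ ≤ r :=
  (Padic.nonarchimedean _ _).trans (max_le h1 h2)

theorem norm_mul_le' {a b : Q3} {r s t : ℝ} (ha : ‖a‖ ≤ r) (hb : ‖b‖ ≤ s) (hr : 0 ≤ r)
    (hrs : r * s ≤ t) : ‖a * b‖ ≤ t := by
  rw [norm_mul]
  exact (mul_le_mul ha hb (norm_nonneg _) hr).trans hrs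

theorem mem_Aord1 {v u : Fin 6 ⊕ Fin 6 → Q3} (hv : ∀ i, ‖v i‖ ≤ 1) (hu : ∀ i, ‖u i‖ ≤ 1)
    (hvQ : ∀ i, ‖v (Sum.inr i)‖ ≤ 1 / 3) (huQ : ∀ i, ‖u (Sum.inr i)‖ ≤ 1 / 3) :
    Zmat v u ∈ Aord := by
  intro i j
  rcases i with i | i <;> rcases j with j | j
  · rw [(Zmat_entry v u _).1, norm_neg]
    exact norm_add_mul_le (norm_mul_le' (hv _) (huQ _) (by norm_num) (by norm_num [bd]))
      (norm_mul_le' (hu _) (hvQ _) (by norm_num) (by norm_num [bd]))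
  · rw [(Zmat_entry v u _).2]
    exact norm_add_mul_le (norm_mul_le' (hv _) (hu _) (by norm_num) (by norm_num [bd]))
      (norm_mul_le' (hu _) (hv _) (by norm_num) (by norm_num [bd]))
  · rw [(Zmat_entry v u _).1, norm_neg]
    exact norm_add_mul_le (norm_mul_le' (hvQ _) (huQ _) (by norm_num) (by norm_num [bd]))
      (norm_mul_le' (huQ _) (hvQ _) (by norm_num) (by norm_num [bd]))
  · rw [(Zmat_entry v u _).2]
    exact norm_add_mul_le (norm_mul_le' (hvQ _) (hu _) (by norm_num) (by norm_num [bd]))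
      (norm_mul_le' (huQ _) (hv _) (by norm_num) (by norm_num [bd]))

theorem bd_ge (i j : Fin 6 ⊕ Fin 6) : 1 / 3 ≤ bd i j := by
  rcases i with i | i <;> rcases j with j | j <;> norm_num [bd]

theorem norm_Zmat_le {v u : Fin 6 ⊕ Fin 6 → Q3} (hv : ∀ i, ‖v i‖ ≤ 1) (hu : ∀ i, ‖u i‖ ≤ 1)
    (i j : Fin 6 ⊕ Fin 6) : ‖Zmat v u i j‖ ≤ 1 := by
  rcases j with j | j
  · rw [(Zmat_entry v u _).1, norm_neg]
    exact norm_add_mul_le (norm_mul_le' (hv _) (hu _) (by norm_num) (by norm_num))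
      (norm_mul_le' (hu _) (hv _) (by norm_num) (by norm_num))
  · rw [(Zmat_entry v u _).2]
    exact norm_add_mul_le (norm_mul_le' (hv _) (hu _) (by norm_num) (by norm_num))
      (norm_mul_le' (hu _) (hv _) (by norm_num) (by norm_num))

theorem mem_Aord2 {v u : Fin 6 ⊕ Fin 6 → Q3} (hv : ∀ i, ‖v i‖ ≤ 1) (hu : ∀ i, ‖u i‖ ≤ 1) :
    (3 : Q3) • Zmat v u ∈ Aord := by
  intro i j
  refine le_trans ?_ (bd_ge i j)
  rw [Matrix.smul_apply, smul_eq_mul]
  exact norm_mul_le' norm_three.le (norm_Zmat_le hv hu i j) (by norm_num) (by norm_num)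

theorem norm_form_le (S : Matrix (Fin 6) (Fin 6) ℤ) {x y : Fin 6 → Q3} {r s : ℝ} (hr : 0 ≤ r)
    (hs : 0 ≤ s) (hx : ∀ i, ‖x i‖ ≤ r) (hy : ∀ i, ‖y i‖ ≤ s) :
    ‖x ⬝ᵥ (red Q3 S *ᵥ y)‖ ≤ r * s := by
  refine IsUltrametricDist.norm_sum_le_of_forall_le_of_nonneg (M := Q3) (mul_nonneg hr hs) ?_
  intro i _
  refine norm_mul_le' (hx i) (s := s) ?_ hr le_rfl
  change ‖∑ j, red Q3 S i j * y j‖ ≤ s
  refine IsUltrametricDist.norm_sum_le_of_forall_le_of_nonneg (M := Q3) hs ?_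
  intro j _
  refine norm_mul_le' (r := 1) (s := s) ?_ (hy j) (by norm_num) (by simp)
  exact norm_int_le _

theorem norm_eq_of_ne {a b : Q3} {r : ℝ} (ha : ‖a‖ = r) (hb : ‖b‖ < r) : ‖a + b‖ = r := by
  rw [Padic.add_eq_max_of_ne (by rw [ha]; exact ne_of_gt hb), ha]
  exact max_eq_left hb.le

/-- first alternative -/
theorem norm_trace1 {v u : Fin 6 ⊕ Fin 6 → Q3}
    (hvQ : ∀ i, ‖v (Sum.inr i)‖ ≤ 1 / 3) (huQ : ∀ i, ‖u (Sum.inr i)‖ ≤ 1 / 3)
    (h : ‖(fun i => v (Sum.inl i)) ⬝ᵥ (red Q3 S1 *ᵥ fun i => u (Sum.inl i))‖ = 1) :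
    ‖Matrix.trace (X3 * Zmat v u)‖ = 3 := by
  rw [trace_X3_Zmat]
  have h2 : ‖(fun i => v (Sum.inr i)) ⬝ᵥ (red Q3 S2 *ᵥ fun i => u (Sum.inr i))‖ ≤ 1 / 3 * (1 / 3) :=
    norm_form_le S2 (by norm_num) (by norm_num) hvQ huQ
  generalize (fun i => v (Sum.inl i)) ⬝ᵥ (red Q3 S1 *ᵥ fun i => u (Sum.inl i)) = a at h ⊢
  generalize (fun i => v (Sum.inr i)) ⬝ᵥ (red Q3 S2 *ᵥ fun i => u (Sum.inr i)) = b at h2 ⊢
  have e : (2 : Q3) * (1 / 3 * a - 1 / 9 * b) = 2 * (3 : Q3)⁻¹ * a + -(2 * ((3 : Q3)⁻¹ * (3 : Q3)⁻¹) * b) := by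
    field_simp
    ring
  rw [e]
  refine norm_eq_of_ne ?_ ?_
  · rw [norm_mul, norm_mul, norm_inv, norm_two, norm_three, h]; norm_num
  · rw [norm_neg, norm_mul, norm_mul, norm_mul, norm_inv, norm_two, norm_three]
    linarith

/-- second alternative -/
theorem norm_trace2 {v u : Fin 6 ⊕ Fin 6 → Q3} (hv : ∀ i, ‖v i‖ ≤ 1) (hu : ∀ i, ‖u i‖ ≤ 1)
    (h : ‖(fun i => v (Sum.inr i)) ⬝ᵥ (red Q3 S2 *ᵥ fun i => u (Sum.inr i))‖ = 1) :
    ‖Matrix.trace (X3 * ((3 : Q3) • Zmat v u))‖ = 3 := by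
  rw [Matrix.mul_smul, Matrix.trace_smul, smul_eq_mul, trace_X3_Zmat]
  have h2 : ‖(fun i => v (Sum.inl i)) ⬝ᵥ (red Q3 S1 *ᵥ fun i => u (Sum.inl i))‖ ≤ 1 * 1 :=
    norm_form_le S1 (by norm_num) (by norm_num) (fun i => hv _) (fun i => hu _)
  generalize (fun i => v (Sum.inl i)) ⬝ᵥ (red Q3 S1 *ᵥ fun i => u (Sum.inl i)) = a at h2 ⊢
  generalize (fun i => v (Sum.inr i)) ⬝ᵥ (red Q3 S2 *ᵥ fun i => u (Sum.inr i)) = b at h ⊢
  have e : (3 : Q3) * (2 * (1 / 3 * a - 1 / 9 * b)) = -(2 * (3 : Q3)⁻¹ * b) + 2 * a := by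
    field_simp
    ring
  rw [e]
  refine norm_eq_of_ne ?_ ?_
  · rw [norm_neg, norm_mul, norm_mul, norm_inv, norm_two, norm_three, h]; norm_num
  · rw [norm_mul, norm_two]
    linarith

/-- `ℤ₃` -/
abbrev Z3 : Type := ℤ_[(p3 : ℕ)]

/-- reduction modulo three -/
abbrev rd : Z3 →+* ZMod 3 := PadicInt.toZMod (p := (p3 : ℕ))

theorem rd_eq_zero_iff (x : Z3) : rd x = 0 ↔ ‖x‖ < 1 := by
  have h1 : rd x = 0 ↔ x ∈ RingHom.ker (PadicInt.toZMod (p := (p3 : ℕ))) :=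
    (RingHom.mem_ker).symm
  rw [h1, PadicInt.ker_toZMod, IsLocalRing.mem_maximalIdeal, PadicInt.mem_nonunits]

theorem norm_le_third {x : Z3} (h : rd x = 0) : ‖(x : Q3)‖ ≤ 1 / 3 := by
  rw [rd_eq_zero_iff, PadicInt.norm_lt_one_iff_dvd] at h
  obtain ⟨y, rfl⟩ := h
  have e : (((((p3 : ℕ) : ℕ) : Z3) * y : Z3) : Q3) = 3 * (y : Q3) := by
    push_cast
    change ((3 : ℕ) : Q3) * _ = _
    norm_num
  rw [e]
  exact norm_mul_le' norm_three.le (PadicInt.norm_le_one y) (by norm_num) (by norm_num)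

theorem norm_eq_one_of {x : Z3} (h : rd x ≠ 0) : ‖(x : Q3)‖ = 1 := by
  rw [Ne, rd_eq_zero_iff, not_lt] at h
  exact le_antisymm (PadicInt.norm_le_one x) h

theorem coe_form (S : Matrix (Fin 6) (Fin 6) ℤ) (x y : Fin 6 → Z3) :
    ((x ⬝ᵥ (red Z3 S *ᵥ y) : Z3) : Q3) =
      (fun i => (x i : Q3)) ⬝ᵥ (red Q3 S *ᵥ fun i => (y i : Q3)) := by
  simp only [dotProduct, Matrix.mulVec, red, Matrix.map_apply]
  rfl

theorem rd_form (S : Matrix (Fin 6) (Fin 6) ℤ) (x y : Fin 6 → Z3) :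
    rd (x ⬝ᵥ (red Z3 S *ᵥ y)) =
      (fun i => rd (x i)) ⬝ᵥ (red (ZMod 3) S *ᵥ fun i => rd (y i)) := by
  simp only [dotProduct, Matrix.mulVec, red, Matrix.map_apply, map_sum, map_mul, map_intCast]

/-- The local part at `3`: the vectors `v`, `u` with entries in `ℤ₃` reduce to a pair as in
`locF3`. -/
theorem local_Z3 (v u : Fin 6 ⊕ Fin 6 → Z3)
    (h : ((∀ i, rd (v (Sum.inr i)) = 0) ∧ (∀ i, rd (u (Sum.inr i)) = 0) ∧
        (fun i => rd (v (Sum.inl i))) ⬝ᵥ (red (ZMod 3) S1 *ᵥ fun i => rd (u (Sum.inl i))) ≠ 0) ∨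
      (fun i => rd (v (Sum.inr i))) ⬝ᵥ (red (ZMod 3) S2 *ᵥ fun i => rd (u (Sum.inr i))) ≠ 0) :
    ∃ s : ℕ, s ≤ 1 ∧ (3 : Q3) ^ s • Zmat (fun i => (v i : Q3)) (fun i => (u i : Q3)) ∈ Aord ∧
      ‖Matrix.trace (X3 * ((3 : Q3) ^ s • Zmat (fun i => (v i : Q3)) (fun i => (u i : Q3))))‖
        = 3 := by
  rcases h with ⟨h1, h2, h3⟩ | h3
  · refine ⟨0, by norm_num, ?_, ?_⟩
    · rw [pow_zero, one_smul]
      exact mem_Aord1 (fun i => PadicInt.norm_le_one _) (fun i => PadicInt.norm_le_one _)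
        (fun i => norm_le_third (h1 i)) (fun i => norm_le_third (h2 i))
    · rw [pow_zero, one_smul]
      refine norm_trace1 (fun i => norm_le_third (h1 i)) (fun i => norm_le_third (h2 i)) ?_
      rw [← rd_form S1] at h3
      have := norm_eq_one_of h3
      rwa [coe_form] at this
  · refine ⟨1, le_rfl, ?_, ?_⟩
    · rw [pow_one]
      exact mem_Aord2 (fun i => PadicInt.norm_le_one _) (fun i => PadicInt.norm_le_one _)
    · rw [pow_one]
      refine norm_trace2 (fun i => PadicInt.norm_le_one _) (fun i => PadicInt.norm_le_one _) ?_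
      rw [← rd_form S2] at h3
      have := norm_eq_one_of h3
      rwa [coe_form] at this

end localpart

theorem circle_cube {z : Circle} (h3 : z ^ 3 = 1) (h1 : z ≠ 1) : 1 ≤ ‖(1 : ℂ) - (z : ℂ)‖ := by
  have e3 : (z : ℂ) ^ 3 = 1 := by
    have := congrArg (fun x : Circle => (x : ℂ)) h3
    simpa using this
  have e1 : (z : ℂ) ≠ 1 := fun h => h1 (Circle.ext (by simpa using h))
  have e2 : (z : ℂ) ^ 2 + z + 1 = 0 := by
    have : ((z : ℂ) - 1) * ((z : ℂ) ^ 2 + z + 1) = 0 := by linear_combination e3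
    rcases mul_eq_zero.1 this with h | h
    · exact absurd (sub_eq_zero.1 h) e1
    · exact h
  have e4 : ((1 : ℂ) - z) * (1 - (z : ℂ) ^ 2) = 3 := by
    linear_combination e3 - e2
  have e5 : ‖(1 : ℂ) - z‖ * ‖1 - (z : ℂ) ^ 2‖ = 3 := by
    rw [← norm_mul, e4]; norm_num
  have e6 : ‖1 - (z : ℂ) ^ 2‖ ≤ 2 := by
    refine (norm_sub_le _ _).trans ?_
    rw [norm_pow, Circle.norm_coe]; norm_num
  nlinarith [norm_nonneg ((1 : ℂ) - z), norm_nonneg (1 - (z : ℂ) ^ 2)]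

theorem theta_cube {ψ : AddChar Adele Circle} (hψ : IsStd ψ) {x : Q3} (h1 : 1 < ‖x‖)
    (h3 : ‖x‖ ≤ 3) :
    theta ψ x ^ 3 = 1 ∧ theta ψ x ≠ 1 ∧ 1 ≤ ‖(1 : ℂ) - (theta ψ x : ℂ)‖ := by
  have a : theta ψ x ^ 3 = 1 := by
    rw [← AddChar.map_nsmul_eq_pow, theta_eq_one_iff hψ, nsmul_eq_mul]
    have : ((3 : ℕ) : Q3) = 3 := by norm_num
    rw [this, norm_mul, norm_three]
    linarith
  have b : theta ψ x ≠ 1 := by
    rw [Ne, theta_eq_one_iff hψ]
    exact not_le.2 h1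
  exact ⟨a, b, circle_cube a b⟩

theorem chi_eq (ψ : AddChar Adele Circle) (g : GA 6) :
    chi ψ g = theta ψ (Matrix.trace (X3 * (gp g p3 - 1))) := rfl

end Pool.Agent.FC.CuspA
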