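import Pool.Agent.FC.Base
import Pool.Agent.FC.Chk

/-!
Finite check (K4), in the notation of `FC.Base`.
-/

open RestrictedProduct Matrix MeasureTheory

noncomputable section

namespace Pool.Agent.FC

namespace Fin4

theorem red_S1 : red (ZMod 3) S1 = Chk.A1 := by
  ext i j
  fin_cases i <;> fin_cases j <;> rfl

theorem red_S2 : red (ZMod 3) S2 = Chk.A2 := by
  ext i j
  fin_cases i <;> fin_cases j <;> rfl

theorem chn_eq (A B : Matrix (Fin 6) (Fin 6) (ZMod 3)) (t : Fin 6 → ZMod 3) (k : ℕ) :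
    chn A B t k = Chk.chain A B k t := by
  induction k with
  | zero => rfl
  | succ k ih => rw [chn, Chk.chain, ih]

theorem ord (b : Bool) : Chk.Ord (Sof b) (Sof !b) := by
  cases b
  · right; constructor
    · simp only [Sof]; exact red_S2
    · simp only [Sof]; exact red_S1
  · left; constructor
    · simp only [Sof]; exact red_S1
    · simp only [Sof]; exact red_S2

end Fin4

theorem K4 (b : Bool) (t : Fin 6 → ZMod 3)
    (h1 : t ⬝ᵥ chn (Sof b) (Sof !b) t 1 = 0) (h3 : t ⬝ᵥ chn (Sof b) (Sof !b) t 3 = 0)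
    (h5 : t ⬝ᵥ chn (Sof b) (Sof !b) t 5 = 0) (h7 : t ⬝ᵥ chn (Sof b) (Sof !b) t 7 = 0) : t = 0 := by
  rw [Fin4.chn_eq] at h1 h3 h5 h7
  exact Chk.K4 (Fin4.ord b) t h1 h3 h5 h7

end Pool.Agent.FC
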