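import Mathlib
import Pool.Agent.FC.Chk

/-!
# MP_9a256f_nt : Lemma C (linear algebra over the field with three elements)
-/

open Matrix

namespace Pool.Agent.FC.LocC

open Pool.Agent.FC.Chk

/-- double orthogonal complement for an invertible matrix whose form is reflexive -/
theorem mem_of_orth {K ι : Type*} [Field K] [Fintype ι] [DecidableEq ι] (M : Matrix ι ι K)
    (hdet : M.det ≠ 0) (hrefl : ∀ v w : ι → K, v ⬝ᵥ M *ᵥ w = 0 → w ⬝ᵥ M *ᵥ v = 0)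
    (W : Submodule K (ι → K)) (x : ι → K)
    (h : ∀ u : ι → K, (∀ w ∈ W, w ⬝ᵥ M *ᵥ u = 0) → u ⬝ᵥ M *ᵥ x = 0) : x ∈ W := by
  have hB : (Matrix.toBilin' M).Nondegenerate :=
    LinearMap.BilinForm.nondegenerate_toBilin'_of_det_ne_zero' M hdet
  have hR : (Matrix.toBilin' M).IsRefl := by
    intro v w hvw
    rw [Matrix.toBilin'_apply'] at hvw ⊢
    exact hrefl v w hvw
  rw [← LinearMap.BilinForm.orthogonal_orthogonal hB hR W]
  rw [LinearMap.BilinForm.mem_orthogonal_iff]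
  intro u hu
  rw [LinearMap.BilinForm.mem_orthogonal_iff] at hu
  rw [Matrix.toBilin'_apply']
  apply h u
  intro w hw
  have := hu w hw
  rwa [Matrix.toBilin'_apply'] at this

/-- the symplectic form in coordinates -/
theorem omega_apply {K : Type*} [Field K] (v w : Fin 6 ⊕ Fin 6 → K) :
    v ⬝ᵥ J (Fin 6) K *ᵥ w =
      (v ∘ Sum.inr) ⬝ᵥ (w ∘ Sum.inl) - (v ∘ Sum.inl) ⬝ᵥ (w ∘ Sum.inr) := by
  have h : J (Fin 6) K *ᵥ w = Sum.elim (-(w ∘ Sum.inr)) (w ∘ Sum.inl) := by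
    rw [J, Matrix.fromBlocks_mulVec]
    simp [Matrix.neg_mulVec]
  rw [h]
  simp only [dotProduct, Fintype.sum_sum_type, Sum.elim_inl, Sum.elim_inr, Function.comp_apply,
    Pi.neg_apply, mul_neg, Finset.sum_neg_distrib]
  ring

theorem omega_skew {K : Type*} [Field K] (v w : Fin 6 ⊕ Fin 6 → K) :
    w ⬝ᵥ J (Fin 6) K *ᵥ v = -(v ⬝ᵥ J (Fin 6) K *ᵥ w) := by
  rw [omega_apply, omega_apply, dotProduct_comm (w ∘ Sum.inr), dotProduct_comm (w ∘ Sum.inl)]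
  ring

theorem symm_swap {A : Matrix (Fin 6) (Fin 6) (ZMod 3)} (hA : Aᵀ = A) (x y : Fin 6 → ZMod 3) :
    x ⬝ᵥ A *ᵥ y = y ⬝ᵥ A *ᵥ x := by
  rw [Matrix.dotProduct_mulVec, ← Matrix.mulVec_transpose, hA, dotProduct_comm]

/-- `Lemma C`: let `W` be a nonzero isotropic subspace of `F_3 ^ 12`.  Then either there are
`v ∈ W ∩ P`, `u ∈ W^⊥ ∩ P` with `A1 (v, u) ≠ 0`, or there are `v ∈ W`, `u ∈ W^⊥` with
`A2 (v_Q, u_Q) ≠ 0`. -/
theorem lemmaC (W : Submodule (ZMod 3) (Fin 6 ⊕ Fin 6 → ZMod 3)) (hW : W ≠ ⊥)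
    (hiso : ∀ v ∈ W, ∀ w ∈ W, v ⬝ᵥ J (Fin 6) (ZMod 3) *ᵥ w = 0) :
    (∃ v ∈ W, ∃ u : Fin 6 ⊕ Fin 6 → ZMod 3, (∀ w ∈ W, w ⬝ᵥ J (Fin 6) (ZMod 3) *ᵥ u = 0) ∧
        v ∘ Sum.inr = 0 ∧ u ∘ Sum.inr = 0 ∧ (v ∘ Sum.inl) ⬝ᵥ A1 *ᵥ (u ∘ Sum.inl) ≠ 0) ∨
    (∃ v ∈ W, ∃ u : Fin 6 ⊕ Fin 6 → ZMod 3, (∀ w ∈ W, w ⬝ᵥ J (Fin 6) (ZMod 3) *ᵥ u = 0) ∧
        (v ∘ Sum.inr) ⬝ᵥ A2 *ᵥ (u ∘ Sum.inr) ≠ 0) := by
  by_contra hcon
  push Not at hcon
  obtain ⟨F1, F2⟩ := hcon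
  -- step 1 : `S1 A ⊆ B`
  have step1 : ∀ a : Fin 6 → ZMod 3, (Sum.elim a 0 : Fin 6 ⊕ Fin 6 → ZMod 3) ∈ W →
      ∃ w ∈ W, w ∘ Sum.inr = A1 *ᵥ a := by
    intro a ha
    let B : Submodule (ZMod 3) (Fin 6 → ZMod 3) :=
      W.map (LinearMap.funLeft (ZMod 3) (ZMod 3) (Sum.inr : Fin 6 → Fin 6 ⊕ Fin 6))
    have hmem : A1 *ᵥ a ∈ B := by
      refine mem_of_orth (1 : Matrix (Fin 6) (Fin 6) (ZMod 3)) (by simp) ?_ B _ ?_
      · intro v w h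
        rw [Matrix.one_mulVec] at h ⊢
        rwa [dotProduct_comm]
      · intro c hc
        rw [Matrix.one_mulVec]
        have hu : ∀ w ∈ W, w ⬝ᵥ J (Fin 6) (ZMod 3) *ᵥ (Sum.elim c 0) = 0 := by
          intro w hw
          have h1 := hc (w ∘ Sum.inr) ⟨w, hw, rfl⟩
          rw [Matrix.one_mulVec] at h1
          rw [omega_apply]
          simp only [Sum.elim_comp_inl, Sum.elim_comp_inr, dotProduct_zero, sub_zero]
          exact h1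
        have h2 := F1 _ ha (Sum.elim c 0) hu (by simp) (by simp)
        simp only [Sum.elim_comp_inl] at h2
        rw [symm_swap A1_symm]
        exact h2
    obtain ⟨w, hw, hw'⟩ := hmem
    exact ⟨w, hw, hw'⟩
  -- step 2 : `S2 B ⊆ A`
  have step2 : ∀ w ∈ W, (Sum.elim (A2 *ᵥ (w ∘ Sum.inr)) 0 : Fin 6 ⊕ Fin 6 → ZMod 3) ∈ W := by
    intro w hw
    refine mem_of_orth (J (Fin 6) (ZMod 3)) (Matrix.isUnit_det_J (Fin 6) (ZMod 3)).ne_zero ?_ W _ ?_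
    · intro v u h
      rw [omega_skew, h, neg_zero]
    · intro u hu
      rw [omega_apply]
      simp only [Sum.elim_comp_inl, Sum.elim_comp_inr, dotProduct_zero, sub_zero]
      rw [symm_swap A2_symm]
      exact F2 w hw u hu
  -- step 3
  obtain ⟨a, ha, ha0⟩ : ∃ a : Fin 6 → ZMod 3,
      (Sum.elim a 0 : Fin 6 ⊕ Fin 6 → ZMod 3) ∈ W ∧ a ≠ 0 := by
    obtain ⟨v, hv, hv0⟩ := (Submodule.ne_bot_iff W).1 hW
    by_cases hq : v ∘ Sum.inr = 0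
    · refine ⟨v ∘ Sum.inl, ?_, ?_⟩
      · have : (Sum.elim (v ∘ Sum.inl) 0 : Fin 6 ⊕ Fin 6 → ZMod 3) = v := by
          rw [← hq]; exact Sum.elim_comp_inl_inr v
        rw [this]; exact hv
      · intro h0
        apply hv0
        rw [← Sum.elim_comp_inl_inr v, h0, hq]
        funext i
        rcases i with i | i <;> rfl
    · exact ⟨_, step2 v hv, fun h0 => hq (A2_mulVec_eq_zero h0)⟩
  -- step 4
  have key : ∀ k : ℕ, (Sum.elim (chain A1 A2 (2 * k) a) 0 : Fin 6 ⊕ Fin 6 → ZMod 3) ∈ W := by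
    intro k
    induction k with
    | zero => simpa [chain] using ha
    | succ k ih =>
      obtain ⟨w, hw, hw'⟩ := step1 _ ih
      have h := step2 w hw
      rw [hw'] at h
      have e : chain A1 A2 (2 * (k + 1)) a = A2 *ᵥ A1 *ᵥ chain A1 A2 (2 * k) a := by
        have h1 : 2 * (k + 1) = (2 * k + 1) + 1 := by ring
        rw [h1, chain, chain, if_neg (by simp [parity_simps]), if_pos (by simp)]
      rw [e]
      exact h
  have key2 : ∀ k : ℕ, a ⬝ᵥ chain A1 A2 (2 * k + 1) a = 0 := by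
    intro k
    have h := F1 _ ha (Sum.elim (chain A1 A2 (2 * k) a) 0) (fun w hw => hiso w hw _ (key k))
      (by simp) (by simp)
    simp only [Sum.elim_comp_inl] at h
    rw [chain, if_pos (by simp)]
    exact h
  exact ha0 (K4 (Or.inl ⟨rfl, rfl⟩) a (key2 0) (key2 1) (key2 2) (key2 3))

end Pool.Agent.FC.LocC
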