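import Pool.Agent.FC.Base
import Pool.Agent.FC.Fin4
import Pool.Agent.FC.LocC

/-!
fc_h91.md section 3, Lemma C (linear algebra over F_3 + K4).
-/

open RestrictedProduct Matrix MeasureTheory

noncomputable section

namespace Pool.Agent.FC

/-- Lemma C. -/
theorem locF3 (W : Submodule (ZMod 3) (Fin 6 ⊕ Fin 6 → ZMod 3)) (hW : W ≠ ⊥)
    (hiso : ∀ v ∈ W, ∀ u ∈ W, symp v u = 0) :
    (∃ v ∈ W, ∃ u, (∀ w ∈ W, symp w u = 0) ∧ (∀ i, v (Sum.inr i) = 0) ∧ (∀ i, u (Sum.inr i) = 0) ∧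
      (fun i => v (Sum.inl i)) ⬝ᵥ (red (ZMod 3) S1 *ᵥ fun i => u (Sum.inl i)) ≠ 0) ∨
    (∃ v ∈ W, ∃ u, (∀ w ∈ W, symp w u = 0) ∧
      (fun i => v (Sum.inr i)) ⬝ᵥ (red (ZMod 3) S2 *ᵥ fun i => u (Sum.inr i)) ≠ 0) := by
  rw [Fin4.red_S1, Fin4.red_S2]
  rcases LocC.lemmaC W hW hiso with ⟨v, hv, u, hu, h1, h2, h3⟩ | ⟨v, hv, u, hu, h3⟩
  · exact Or.inl ⟨v, hv, u, hu, fun i => congrFun h1 i, fun i => congrFun h2 i, h3⟩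
  · exact Or.inr ⟨v, hv, u, hu, h3⟩

end Pool.Agent.FC
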