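import Pool.Agent.FC.Base
import Pool.Agent.FC.LocF3

/-!
fc_h91.md section 3: apply `locF3` to W = span of the reductions mod 3 of the columns k_i, i in I; W^perp is
spanned by the reductions of d_l, l not in I.  v = sum c_i k_i, u = sum c'_l d_l; s = 0 if v, u in P mod 3 (then v = (p, 3q)), s = 1 otherwise.
tr(X Z_{v,u}) = 2 <Xv,u>.
-/

open RestrictedProduct Matrix MeasureTheory

noncomputable section

namespace Pool.Agent.FC

namespace LocZ3

/-- `ℚ₃` -/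
abbrev K3 : Type := ℚ_[(p3 : ℕ)]
/-- `ℤ₃` -/
abbrev R3 : Type := ℤ_[(p3 : ℕ)]

/-- reduction mod 3 -/
def rd : R3 →+* ZMod 3 := (PadicInt.toZMod : ℤ_[(p3 : ℕ)] →+* ZMod (p3 : ℕ))

theorem rd_eq_zero {x : R3} : rd x = 0 ↔ ‖x‖ < 1 := by
  have h1 : rd x = 0 ↔ x ∈ RingHom.ker (PadicInt.toZMod : ℤ_[(p3 : ℕ)] →+* ZMod (p3 : ℕ)) :=
    Iff.rfl
  rw [h1, PadicInt.ker_toZMod, IsLocalRing.mem_maximalIdeal, PadicInt.mem_nonunits]

theorem norm_le_third {x : R3} (hx : rd x = 0) : ‖x‖ ≤ 1 / 3 := by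
  have h1 := rd_eq_zero.1 hx
  have h2 := (PadicInt.norm_le_pow_iff_norm_lt_pow_add_one x (-1)).2 (by simpa using h1)
  have h3 : (((p3 : Nat.Primes) : ℕ) : ℝ) ^ (-1 : ℤ) = 1 / 3 := by
    rw [_root_.zpow_neg_one]
    norm_num
  rw [h3] at h2
  exact h2

theorem norm_eq_one {x : R3} (hx : rd x ≠ 0) : ‖x‖ = 1 := by
  have h1 : ¬ ‖x‖ < 1 := fun h => hx (rd_eq_zero.2 h)
  exact le_antisymm (PadicInt.norm_le_one x) (not_lt.1 h1)

theorem rd_surj (a : ZMod 3) : ∃ z : ℤ, |z| ≤ 1 ∧ (a = 0 → z = 0) ∧ rd (z : R3) = a := by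
  refine ⟨a.valMinAbs, ?_, ?_, ?_⟩
  · revert a; decide
  · rintro rfl; exact ZMod.valMinAbs_zero 3
  · rw [map_intCast, ZMod.coe_valMinAbs]

/-- the first component -/
def vP {R : Type*} (v : Fin 6 ⊕ Fin 6 → R) : Fin 6 → R := fun i => v (Sum.inl i)
/-- the second component -/
def vQ {R : Type*} (v : Fin 6 ⊕ Fin 6 → R) : Fin 6 → R := fun i => v (Sum.inr i)

theorem X3_eq : X3 = Matrix.fromBlocks 0 ((1 / 9 : K3) • red K3 S2) ((1 / 3 : K3) • red K3 S1) 0 := by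
  ext i j
  rw [X3, Xq, Matrix.map_apply]
  rcases i with i | i <;> rcases j with j | j <;> simp

theorem S1_symm (R : Type*) [CommRing R] : (red R S1)ᵀ = red R S1 := by
  have : S1ᵀ = S1 := by decide
  rw [red, ← Matrix.transpose_map, this]

theorem S2_symm (R : Type*) [CommRing R] : (red R S2)ᵀ = red R S2 := by
  have : S2ᵀ = S2 := by decide
  rw [red, ← Matrix.transpose_map, this]

theorem symp_eq {R : Type*} [CommRing R] (a b : Fin 6 ⊕ Fin 6 → R) :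
    symp a b = vQ a ⬝ᵥ vP b - vP a ⬝ᵥ vQ b := by
  have h1 : J (Fin 6) R *ᵥ b = Sum.elim (-(vQ b)) (vP b) := by
    rw [J, Matrix.fromBlocks_mulVec]
    congr 1
    · rw [Matrix.zero_mulVec, zero_add, Matrix.neg_mulVec, Matrix.one_mulVec]; rfl
    · rw [Matrix.zero_mulVec, add_zero, Matrix.one_mulVec]; rfl
  have h2 : a = Sum.elim (vP a) (vQ a) := by
    ext i; rcases i with i | i <;> rfl
  rw [symp, h1]
  conv_lhs => rw [h2]
  rw [sumElim_dotProduct_sumElim, dotProduct_neg]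
  ring

theorem trace_formula (a b : Fin 6 ⊕ Fin 6 → K3) :
    Matrix.trace (X3 * Zmat a b) = 2 * ((1 / 3) * (vP a ⬝ᵥ (red K3 S1 *ᵥ vP b))
      - (1 / 9) * (vQ a ⬝ᵥ (red K3 S2 *ᵥ vQ b))) := by
  have h1 : ∀ a b : Fin 6 ⊕ Fin 6 → K3,
      Matrix.trace (X3 * vecMulVec a (J (Fin 6) K3 *ᵥ b)) = symp (X3 *ᵥ a) b := by
    intro a b
    rw [Matrix.mul_vecMulVec, Matrix.trace_vecMulVec, symp]
  have h2 : ∀ a b : Fin 6 ⊕ Fin 6 → K3, symp (X3 *ᵥ a) b
      = (1 / 3) * (vP a ⬝ᵥ (red K3 S1 *ᵥ vP b)) - (1 / 9) * (vQ a ⬝ᵥ (red K3 S2 *ᵥ vQ b)) := by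
    intro a b
    have e1 : X3 *ᵥ a = Sum.elim ((1 / 9 : K3) • (red K3 S2 *ᵥ vQ a))
        ((1 / 3 : K3) • (red K3 S1 *ᵥ vP a)) := by
      rw [X3_eq, Matrix.fromBlocks_mulVec]
      congr 1
      · rw [Matrix.zero_mulVec, zero_add, Matrix.smul_mulVec]; rfl
      · rw [Matrix.zero_mulVec, add_zero, Matrix.smul_mulVec]; rfl
    rw [symp_eq, e1]
    have e2 : vQ (Sum.elim ((1 / 9 : K3) • (red K3 S2 *ᵥ vQ a))
        ((1 / 3 : K3) • (red K3 S1 *ᵥ vP a))) = (1 / 3 : K3) • (red K3 S1 *ᵥ vP a) := rfl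
    have e3 : vP (Sum.elim ((1 / 9 : K3) • (red K3 S2 *ᵥ vQ a))
        ((1 / 3 : K3) • (red K3 S1 *ᵥ vP a))) = (1 / 9 : K3) • (red K3 S2 *ᵥ vQ a) := rfl
    rw [e2, e3, smul_dotProduct, smul_dotProduct, smul_eq_mul, smul_eq_mul]
    have e4 : (red K3 S1 *ᵥ vP a) ⬝ᵥ vP b = vP a ⬝ᵥ (red K3 S1 *ᵥ vP b) := by
      rw [Matrix.dotProduct_mulVec, ← Matrix.mulVec_transpose, S1_symm]
    have e5 : (red K3 S2 *ᵥ vQ a) ⬝ᵥ vQ b = vQ a ⬝ᵥ (red K3 S2 *ᵥ vQ b) := by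
      rw [Matrix.dotProduct_mulVec, ← Matrix.mulVec_transpose, S2_symm]
    rw [e4, e5]
  have h3 : vP b ⬝ᵥ (red K3 S1 *ᵥ vP a) = vP a ⬝ᵥ (red K3 S1 *ᵥ vP b) := by
    rw [Matrix.dotProduct_mulVec, ← Matrix.mulVec_transpose, S1_symm, dotProduct_comm]
  have h4 : vQ b ⬝ᵥ (red K3 S2 *ᵥ vQ a) = vQ a ⬝ᵥ (red K3 S2 *ᵥ vQ b) := by
    rw [Matrix.dotProduct_mulVec, ← Matrix.mulVec_transpose, S2_symm, dotProduct_comm]
  rw [Zmat, mul_add, Matrix.trace_add, h1, h1, h2, h2, h3, h4]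
  ring

theorem Zmat_apply {R : Type*} [CommRing R] (a b : Fin 6 ⊕ Fin 6 → R) (i j : Fin 6 ⊕ Fin 6) :
    Zmat a b i j = a i * (J (Fin 6) R *ᵥ b) j + b i * (J (Fin 6) R *ᵥ a) j := rfl

theorem J_mulVec {R : Type*} [CommRing R] (b : Fin 6 ⊕ Fin 6 → R) :
    J (Fin 6) R *ᵥ b = Sum.elim (-(vQ b)) (vP b) := by
  rw [J, Matrix.fromBlocks_mulVec]
  congr 1
  · rw [Matrix.zero_mulVec, zero_add, Matrix.neg_mulVec, Matrix.one_mulVec]; rfl
  · rw [Matrix.zero_mulVec, add_zero, Matrix.one_mulVec]; rfl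

theorem norm_three : ‖(3 : K3)‖ = 1 / 3 := by
  have := Padic.norm_p (p := (p3 : ℕ))
  have e1 : (((p3 : Nat.Primes) : ℕ) : K3) = 3 := by norm_num
  rw [e1] at this
  rw [this]
  norm_num

theorem norm_two : ‖(2 : K3)‖ = 1 := by
  have h1 : ‖((2 : ℤ) : K3)‖ = 1 := by
    refine le_antisymm (Padic.norm_int_le_one 2) ?_
    by_contra hlt
    have h2 : ‖((2 : ℤ) : K3)‖ < 1 := not_le.1 hlt
    rw [Padic.norm_intCast_lt_one_iff] at h2
    norm_num at h2
  exact_mod_cast h1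

theorem norm_add_le {x y : K3} {r : ℝ} (hx : ‖x‖ ≤ r) (hy : ‖y‖ ≤ r) : ‖x + y‖ ≤ r :=
  (Padic.nonarchimedean x y).trans (max_le hx hy)

/-- the value of the form `S₁` -/
def q1 (v u : Fin 6 ⊕ Fin 6 → R3) : R3 := vP v ⬝ᵥ (red R3 S1 *ᵥ vP u)
/-- the value of the form `S₂` -/
def q2 (v u : Fin 6 ⊕ Fin 6 → R3) : R3 := vQ v ⬝ᵥ (red R3 S2 *ᵥ vQ u)

/-- coercion of vectors -/
def cv (v : Fin 6 ⊕ Fin 6 → R3) : Fin 6 ⊕ Fin 6 → K3 := fun i => ((v i : R3) : K3)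

theorem coe_dot (a b : Fin 6 → R3) (S : Matrix (Fin 6) (Fin 6) ℤ) :
    (fun i => ((a i : R3) : K3)) ⬝ᵥ (red K3 S *ᵥ fun i => ((b i : R3) : K3))
      = ((a ⬝ᵥ (red R3 S *ᵥ b) : R3) : K3) := by
  simp [dotProduct, Matrix.mulVec]

theorem trace_cv (v u : Fin 6 ⊕ Fin 6 → R3) :
    Matrix.trace (X3 * Zmat (cv v) (cv u))
      = 2 * ((1 / 3) * ((q1 v u : R3) : K3) - (1 / 9) * ((q2 v u : R3) : K3)) := by
  rw [trace_formula, q1, q2, ← coe_dot, ← coe_dot]
  rfl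

theorem caseA (v u : Fin 6 ⊕ Fin 6 → R3) (hv : ∀ i, rd (v (Sum.inr i)) = 0)
    (hu : ∀ i, rd (u (Sum.inr i)) = 0) (h : rd (q1 v u) ≠ 0) :
    Zmat (cv v) (cv u) ∈ Aord ∧ 1 < ‖Matrix.trace (X3 * Zmat (cv v) (cv u))‖ := by
  have hv1 : ∀ i, ‖cv v i‖ ≤ 1 := fun i => PadicInt.norm_le_one _
  have hu1 : ∀ i, ‖cv u i‖ ≤ 1 := fun i => PadicInt.norm_le_one _
  have hv3 : ∀ i, ‖cv v (Sum.inr i)‖ ≤ 1 / 3 := fun i => norm_le_third (hv i)
  have hu3 : ∀ i, ‖cv u (Sum.inr i)‖ ≤ 1 / 3 := fun i => norm_le_third (hu i)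
  constructor
  · intro i j
    rw [Zmat_apply, J_mulVec, J_mulVec]
    rcases i with i | i <;> rcases j with j | j <;> simp only [Sum.elim_inl, Sum.elim_inr, bd]
    · apply norm_add_le
      · rw [norm_mul, Pi.neg_apply, norm_neg]
        calc ‖cv v (Sum.inl i)‖ * ‖vQ (cv u) j‖ ≤ 1 * (1 / 3) :=
              mul_le_mul (hv1 _) (hu3 _) (norm_nonneg _) zero_le_one
          _ = 1 / 3 := one_mul _
      · rw [norm_mul, Pi.neg_apply, norm_neg]
        calc ‖cv u (Sum.inl i)‖ * ‖vQ (cv v) j‖ ≤ 1 * (1 / 3) :=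
              mul_le_mul (hu1 _) (hv3 _) (norm_nonneg _) zero_le_one
          _ = 1 / 3 := one_mul _
    · apply norm_add_le
      · rw [norm_mul]
        exact mul_le_one₀ (hv1 _) (norm_nonneg _) (hu1 _)
      · rw [norm_mul]
        exact mul_le_one₀ (hu1 _) (norm_nonneg _) (hv1 _)
    · apply norm_add_le
      · rw [norm_mul, Pi.neg_apply, norm_neg]
        calc ‖cv v (Sum.inr i)‖ * ‖vQ (cv u) j‖ ≤ (1 / 3) * 1 :=
              mul_le_mul (hv3 _) (hu1 _) (norm_nonneg _) (by norm_num)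
          _ = 1 / 3 := mul_one _
      · rw [norm_mul, Pi.neg_apply, norm_neg]
        calc ‖cv u (Sum.inr i)‖ * ‖vQ (cv v) j‖ ≤ (1 / 3) * 1 :=
              mul_le_mul (hu3 _) (hv1 _) (norm_nonneg _) (by norm_num)
          _ = 1 / 3 := mul_one _
    · apply norm_add_le
      · rw [norm_mul]
        calc ‖cv v (Sum.inr i)‖ * ‖vP (cv u) j‖ ≤ (1 / 3) * 1 :=
              mul_le_mul (hv3 _) (hu1 _) (norm_nonneg _) (by norm_num)
          _ = 1 / 3 := mul_one _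
      · rw [norm_mul]
        calc ‖cv u (Sum.inr i)‖ * ‖vP (cv v) j‖ ≤ (1 / 3) * 1 :=
              mul_le_mul (hu3 _) (hv1 _) (norm_nonneg _) (by norm_num)
          _ = 1 / 3 := mul_one _
  · rw [trace_cv, norm_mul, norm_two, one_mul]
    have hq1 : ‖((q1 v u : R3) : K3)‖ = 1 := norm_eq_one h
    have h2 : ‖(1 / 9 : K3) * ((q2 v u : R3) : K3)‖ ≤ 1 := by
      have h3 : ‖((q2 v u : R3) : K3)‖ ≤ 1 / 9 := by
        rw [q2, ← coe_dot, dotProduct]
        refine IsUltrametricDist.norm_sum_le_of_forall_le_of_nonneg (by norm_num) ?_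
        intro i _
        rw [norm_mul]
        have h4 : ‖(red K3 S2 *ᵥ fun i => ((vQ u i : R3) : K3)) i‖ ≤ 1 / 3 := by
          rw [Matrix.mulVec, dotProduct]
          refine IsUltrametricDist.norm_sum_le_of_forall_le_of_nonneg (by norm_num) ?_
          intro j _
          rw [norm_mul]
          calc ‖red K3 S2 i j‖ * ‖((vQ u j : R3) : K3)‖ ≤ 1 * (1 / 3) :=
                mul_le_mul (Padic.norm_int_le_one _) (hu3 j) (norm_nonneg _) zero_le_one
            _ = 1 / 3 := one_mul _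
        calc ‖((vQ v i : R3) : K3)‖ * _ ≤ (1 / 3) * (1 / 3) :=
              mul_le_mul (hv3 i) h4 (norm_nonneg _) (by norm_num)
          _ = 1 / 9 := by norm_num
      have e9 : ‖(1 / 9 : K3)‖ = 9 := by
        have : (1 / 9 : K3) = ((3 : K3) ^ 2)⁻¹ := by norm_num
        rw [this, norm_inv, norm_pow, norm_three]
        norm_num
      rw [norm_mul, e9]
      linarith
    have h5 : ‖(1 / 3 : K3) * ((q1 v u : R3) : K3)‖ = 3 := by
      rw [norm_mul, hq1, mul_one, one_div, norm_inv, norm_three]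
      norm_num
    by_contra hcon
    have h6 := norm_add_le (not_lt.1 hcon) h2
    rw [sub_add_cancel, h5] at h6
    norm_num at h6

theorem caseB (v u : Fin 6 ⊕ Fin 6 → R3) (h : rd (q2 v u) ≠ 0) :
    (3 : K3) • Zmat (cv v) (cv u) ∈ Aord ∧
      1 < ‖Matrix.trace (X3 * ((3 : K3) • Zmat (cv v) (cv u)))‖ := by
  have hv1 : ∀ i, ‖cv v i‖ ≤ 1 := fun i => PadicInt.norm_le_one _
  have hu1 : ∀ i, ‖cv u i‖ ≤ 1 := fun i => PadicInt.norm_le_one _
  constructor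
  · intro i j
    have h1 : ‖Zmat (cv v) (cv u) i j‖ ≤ 1 := by
      rw [Zmat_apply, J_mulVec, J_mulVec]
      apply norm_add_le
      · rw [norm_mul]
        refine mul_le_one₀ (hv1 _) (norm_nonneg _) ?_
        rcases j with j | j
        · simp only [Sum.elim_inl, Pi.neg_apply, norm_neg]; exact hu1 _
        · simp only [Sum.elim_inr]; exact hu1 _
      · rw [norm_mul]
        refine mul_le_one₀ (hu1 _) (norm_nonneg _) ?_
        rcases j with j | j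
        · simp only [Sum.elim_inl, Pi.neg_apply, norm_neg]; exact hv1 _
        · simp only [Sum.elim_inr]; exact hv1 _
    have h2 : ‖((3 : K3) • Zmat (cv v) (cv u)) i j‖ ≤ 1 / 3 := by
      rw [Matrix.smul_apply, smul_eq_mul, norm_mul, norm_three]
      linarith
    refine h2.trans ?_
    rcases i with i | i <;> rcases j with j | j <;> simp only [bd] <;> norm_num
  · rw [Matrix.mul_smul, Matrix.trace_smul, trace_cv, smul_eq_mul]
    have hq2 : ‖((q2 v u : R3) : K3)‖ = 1 := norm_eq_one h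
    have hq1 : ‖((q1 v u : R3) : K3)‖ ≤ 1 := PadicInt.norm_le_one _
    have e1 : (3 : K3) * (2 * ((1 / 3) * ((q1 v u : R3) : K3) - (1 / 9) * ((q2 v u : R3) : K3)))
        = 2 * (((q1 v u : R3) : K3) - (1 / 3) * ((q2 v u : R3) : K3)) := by
      ring
    rw [e1, norm_mul, norm_two, one_mul]
    have h5 : ‖(1 / 3 : K3) * ((q2 v u : R3) : K3)‖ = 3 := by
      rw [norm_mul, hq2, mul_one, one_div, norm_inv, norm_three]
      norm_num
    by_contra hcon
    have h6 := norm_add_le (not_lt.1 hcon) (show ‖-((q1 v u : R3) : K3)‖ ≤ 1 by rwa [norm_neg])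
    have e2 : ((q1 v u : R3) : K3) - (1 / 3) * ((q2 v u : R3) : K3) + -((q1 v u : R3) : K3)
        = -((1 / 3) * ((q2 v u : R3) : K3)) := by ring
    rw [e2, norm_neg, h5] at h6
    norm_num at h6

theorem J_map {R S : Type*} [CommRing R] [CommRing S] (φ : R →+* S) :
    (J (Fin 6) R).map φ = J (Fin 6) S := map_J (Fin 6) φ

theorem symp_map {R S : Type*} [CommRing R] [CommRing S] (φ : R →+* S)
    (a b : Fin 6 ⊕ Fin 6 → R) : φ (symp a b) = symp (fun i => φ (a i)) (fun i => φ (b i)) := by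
  rw [symp_eq, symp_eq, map_sub]
  congr 1 <;>
  · rw [dotProduct, dotProduct, map_sum]
    refine Finset.sum_congr rfl fun i _ => ?_
    rw [map_mul]
    rfl

theorem mulVec_map {R S : Type*} [CommRing R] [CommRing S] (φ : R →+* S) (A : Mat 6 R)
    (b : Fin 6 ⊕ Fin 6 → R) (i : Fin 6 ⊕ Fin 6) :
    φ ((A *ᵥ b) i) = (A.map φ *ᵥ fun i => φ (b i)) i := by
  rw [Matrix.mulVec, Matrix.mulVec, dotProduct, dotProduct, map_sum]
  refine Finset.sum_congr rfl fun j _ => ?_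
  rw [map_mul]
  rfl

theorem dot_map {S : Type*} [CommRing S] (φ : R3 →+* S) (A : Matrix (Fin 6) (Fin 6) ℤ)
    (a b : Fin 6 → R3) :
    φ (a ⬝ᵥ (red R3 A *ᵥ b)) = (fun i => φ (a i)) ⬝ᵥ (red S A *ᵥ fun i => φ (b i)) := by
  rw [dotProduct, dotProduct, map_sum]
  refine Finset.sum_congr rfl fun i _ => ?_
  rw [map_mul, Matrix.mulVec, Matrix.mulVec, dotProduct, dotProduct, map_sum]
  congr 1
  refine Finset.sum_congr rfl fun j _ => ?_
  rw [map_mul]
  congr 1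
  exact map_intCast φ _

end LocZ3

open LocZ3 in
/-- Lemma C over `ℤ₃`.  `k` is a unimodular matrix over `ℤ₃` whose columns in `I` are mutually
orthogonal; `d` is the dual basis. -/
theorem locZ3 (k d : Mat 6 ℚ_[(p3 : ℕ)]) (hk : ∀ i j, ‖k i j‖ ≤ 1) (hd : ∀ i j, ‖d i j‖ ≤ 1)
    (hdual : kᵀ * J (Fin 6) _ * d = 1) (I : Finset (Fin 6 ⊕ Fin 6)) (hI : I.Nonempty)
    (hiso : ∀ i ∈ I, ∀ j ∈ I, symp (fun r => k r i) (fun r => k r j) = 0) :
    ∃ (c c' : Fin 6 ⊕ Fin 6 → ℤ) (s : ℕ), (∀ i, |c i| ≤ 1) ∧ (∀ i, |c' i| ≤ 1) ∧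
      (∀ i, i ∉ I → c i = 0) ∧ (∀ i ∈ I, c' i = 0) ∧ s ≤ 1 ∧
      ((3 : ℚ_[(p3 : ℕ)]) ^ s) • Zmat (k *ᵥ fun i => ((c i : ℤ) : ℚ_[(p3 : ℕ)]))
        (d *ᵥ fun i => ((c' i : ℤ) : ℚ_[(p3 : ℕ)])) ∈ Aord ∧
      1 < ‖Matrix.trace (X3 * (((3 : ℚ_[(p3 : ℕ)]) ^ s) •
        Zmat (k *ᵥ fun i => ((c i : ℤ) : ℚ_[(p3 : ℕ)]))
          (d *ᵥ fun i => ((c' i : ℤ) : ℚ_[(p3 : ℕ)]))))‖ := by
  -- integral matrices
  set k' : Mat 6 R3 := fun i j => ⟨k i j, hk i j⟩ with hk'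
  set d' : Mat 6 R3 := fun i j => ⟨d i j, hd i j⟩ with hd'
  let co : R3 →+* K3 := PadicInt.Coe.ringHom
  have hco : Function.Injective co := Subtype.coe_injective
  have hkm : k'.map co = k := rfl
  have hdm : d'.map co = d := rfl
  have hdual' : k'ᵀ * J (Fin 6) R3 * d' = 1 := by
    apply Matrix.map_injective hco
    show (k'ᵀ * J (Fin 6) R3 * d').map co = (1 : Mat 6 R3).map co
    rw [Matrix.map_mul, Matrix.map_mul, Matrix.transpose_map, J_map, hkm, hdm, hdual,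
      Matrix.map_one co (map_zero co) (map_one co)]
  have hiso' : ∀ i ∈ I, ∀ j ∈ I, symp (fun r => k' r i) (fun r => k' r j) = 0 := by
    intro i hi j hj
    apply hco
    rw [symp_map, map_zero]
    exact hiso i hi j hj
  -- reductions
  set kb : Mat 6 (ZMod 3) := k'.map rd with hkb
  set db : Mat 6 (ZMod 3) := d'.map rd with hdb
  have hdualb : kbᵀ * J (Fin 6) (ZMod 3) * db = 1 := by
    have : (k'ᵀ * J (Fin 6) R3 * d').map rd = (1 : Mat 6 R3).map rd := by rw [hdual']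
    rw [Matrix.map_mul, Matrix.map_mul, Matrix.transpose_map, J_map,
      Matrix.map_one rd (map_zero rd) (map_one rd)] at this
    exact this
  have hdualb' : db * (kbᵀ * J (Fin 6) (ZMod 3)) = 1 := mul_eq_one_comm.1 hdualb
  set W : Submodule (ZMod 3) (Fin 6 ⊕ Fin 6 → ZMod 3) :=
    Submodule.span (ZMod 3) ((fun (i : Fin 6 ⊕ Fin 6) (r : Fin 6 ⊕ Fin 6) => kb r i) '' (I : Set _))
    with hW
  have hWne : W ≠ ⊥ := by
    obtain ⟨i, hi⟩ := hI
    intro hbot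
    have h1 : (fun r => kb r i) ∈ W := Submodule.subset_span ⟨i, hi, rfl⟩
    rw [hbot, Submodule.mem_bot] at h1
    have h2 : (kbᵀ * J (Fin 6) (ZMod 3) * db) i i = 0 := by
      rw [Matrix.mul_assoc, Matrix.mul_apply]
      refine Finset.sum_eq_zero fun r _ => ?_
      rw [Matrix.transpose_apply, congrFun h1 r, Pi.zero_apply, zero_mul]
    rw [hdualb, Matrix.one_apply_eq] at h2
    exact absurd h2 (by decide)
  have hWiso : ∀ v ∈ W, ∀ u ∈ W, symp v u = 0 := by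
    have hadd : ∀ a b c : Fin 6 ⊕ Fin 6 → ZMod 3, symp (a + b) c = symp a c + symp b c := by
      intro a b c; rw [symp, symp, symp, add_dotProduct]
    have hsm : ∀ (r : ZMod 3) (a c : Fin 6 ⊕ Fin 6 → ZMod 3), symp (r • a) c = r * symp a c := by
      intro r a c; rw [symp, symp, smul_dotProduct, smul_eq_mul]
    have hadd' : ∀ a b c : Fin 6 ⊕ Fin 6 → ZMod 3, symp a (b + c) = symp a b + symp a c := by
      intro a b c; rw [symp, symp, symp, Matrix.mulVec_add, dotProduct_add]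
    have hsm' : ∀ (r : ZMod 3) (a c : Fin 6 ⊕ Fin 6 → ZMod 3), symp a (r • c) = r * symp a c := by
      intro r a c; rw [symp, symp, Matrix.mulVec_smul, dotProduct_smul, smul_eq_mul]
    intro v hv u hu
    induction hv using Submodule.span_induction with
    | mem v hv =>
      obtain ⟨i, hi, rfl⟩ := hv
      induction hu using Submodule.span_induction with
      | mem u hu =>
        obtain ⟨j, hj, rfl⟩ := hu
        have := congrArg rd (hiso' i hi j hj)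
        rw [symp_map, map_zero] at this
        exact this
      | zero => rw [symp, Matrix.mulVec_zero, dotProduct_zero]
      | add a b _ _ h1 h2 => rw [hadd', h1, h2, add_zero]
      | smul r a _ h1 => rw [hsm', h1, mul_zero]
    | zero => rw [symp, zero_dotProduct]
    | add a b _ _ h1 h2 => rw [hadd, h1, h2, add_zero]
    | smul r a _ h1 => rw [hsm, h1, mul_zero]
  -- coefficients of elements of `W`
  have hWc : ∀ v ∈ W, ∃ c : Fin 6 ⊕ Fin 6 → ZMod 3, (∀ i, i ∉ I → c i = 0) ∧ kb *ᵥ c = v := by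
    intro v hv
    induction hv using Submodule.span_induction with
    | mem v hv =>
      obtain ⟨i, hi, rfl⟩ := hv
      refine ⟨Pi.single i 1, fun j hj => ?_, ?_⟩
      · rw [Pi.single_eq_of_ne]
        rintro rfl
        exact hj hi
      · rw [Matrix.mulVec_single_one]; rfl
    | zero => exact ⟨0, fun _ _ => rfl, Matrix.mulVec_zero _⟩
    | add a b _ _ h1 h2 =>
      obtain ⟨c1, hc1, e1⟩ := h1
      obtain ⟨c2, hc2, e2⟩ := h2
      refine ⟨c1 + c2, fun i hi => by rw [Pi.add_apply, hc1 i hi, hc2 i hi, add_zero], ?_⟩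
      rw [Matrix.mulVec_add, e1, e2]
    | smul r a _ h1 =>
      obtain ⟨c1, hc1, e1⟩ := h1
      refine ⟨r • c1, fun i hi => by rw [Pi.smul_apply, hc1 i hi, smul_zero], ?_⟩
      rw [Matrix.mulVec_smul, e1]
  -- coefficients of elements of the orthogonal complement
  have hPc : ∀ u : Fin 6 ⊕ Fin 6 → ZMod 3, (∀ w ∈ W, symp w u = 0) →
      ∃ c : Fin 6 ⊕ Fin 6 → ZMod 3, (∀ i ∈ I, c i = 0) ∧ db *ᵥ c = u := by
    intro u hu
    refine ⟨(kbᵀ * J (Fin 6) (ZMod 3)) *ᵥ u, fun i hi => ?_, ?_⟩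
    · have h1 := hu _ (Submodule.subset_span ⟨i, hi, rfl⟩)
      rw [← Matrix.mulVec_mulVec]
      exact h1
    · rw [Matrix.mulVec_mulVec, hdualb', Matrix.one_mulVec]
  -- the lift
  have main : ∀ v ∈ W, ∀ u : Fin 6 ⊕ Fin 6 → ZMod 3, (∀ w ∈ W, symp w u = 0) →
      ∃ (c c' : Fin 6 ⊕ Fin 6 → ℤ) (v' u' : Fin 6 ⊕ Fin 6 → R3),
        (∀ i, |c i| ≤ 1) ∧ (∀ i, |c' i| ≤ 1) ∧ (∀ i, i ∉ I → c i = 0) ∧ (∀ i ∈ I, c' i = 0) ∧
        (k *ᵥ fun i => ((c i : ℤ) : K3)) = cv v' ∧ (d *ᵥ fun i => ((c' i : ℤ) : K3)) = cv u' ∧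
        (∀ i, rd (v' i) = v i) ∧ (∀ i, rd (u' i) = u i) := by
    intro v hv u hu
    obtain ⟨c1, hc1, e1⟩ := hWc v hv
    obtain ⟨c2, hc2, e2⟩ := hPc u hu
    choose a1 ha1 ha2 ha3 using fun i => rd_surj (c1 i)
    choose b1 hb1 hb2 hb3 using fun i => rd_surj (c2 i)
    refine ⟨a1, b1, k' *ᵥ (fun i => (a1 i : R3)), d' *ᵥ (fun i => (b1 i : R3)), ha1, hb1,
      fun i hi => ha2 i (hc1 i hi), fun i hi => hb2 i (hc2 i hi), ?_, ?_, ?_, ?_⟩
    · funext i
      have := mulVec_map co k' (fun i => (a1 i : R3)) i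
      simp only [map_intCast] at this
      exact this.symm
    · funext i
      have := mulVec_map co d' (fun i => (b1 i : R3)) i
      simp only [map_intCast] at this
      exact this.symm
    · intro i
      rw [mulVec_map rd k']
      simp only [ha3]
      rw [← e1]
    · intro i
      rw [mulVec_map rd d']
      simp only [hb3]
      rw [← e2]
  rcases locF3 W hWne hWiso with ⟨v, hv, u, hu, h1, h2, h3⟩ | ⟨v, hv, u, hu, h3⟩
  · obtain ⟨c, c', v', u', hc, hc', hcI, hc'I, ev, eu, rv, ru⟩ := main v hv u hu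
    have hq : rd (q1 v' u') ≠ 0 := by
      rw [q1, dot_map]
      have e1 : (fun i => rd (vP v' i)) = fun i => v (Sum.inl i) := funext fun i => rv _
      have e2 : (fun i => rd (vP u' i)) = fun i => u (Sum.inl i) := funext fun i => ru _
      rw [e1, e2]
      exact h3
    obtain ⟨r1, r2⟩ := caseA v' u' (fun i => by rw [rv, h1]) (fun i => by rw [ru, h2]) hq
    refine ⟨c, c', 0, hc, hc', hcI, hc'I, by norm_num, ?_, ?_⟩
    · rw [ev, eu, pow_zero, one_smul]; exact r1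
    · rw [ev, eu, pow_zero, one_smul]; exact r2
  · obtain ⟨c, c', v', u', hc, hc', hcI, hc'I, ev, eu, rv, ru⟩ := main v hv u hu
    have hq : rd (q2 v' u') ≠ 0 := by
      rw [q2, dot_map]
      have e1 : (fun i => rd (vQ v' i)) = fun i => v (Sum.inr i) := funext fun i => rv _
      have e2 : (fun i => rd (vQ u' i)) = fun i => u (Sum.inr i) := funext fun i => ru _
      rw [e1, e2]
      exact h3
    obtain ⟨r1, r2⟩ := caseB v' u' hq
    refine ⟨c, c', 1, hc, hc', hcI, hc'I, le_rfl, ?_, ?_⟩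
    · rw [ev, eu, pow_one]; exact r1
    · rw [ev, eu, pow_one]; exact r2

end Pool.Agent.FC
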