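import Pool.Agent.FC.RedA
import Pool.Agent.FC.LocZ3
import Pool.Agent.FC.CuspA
import Pool.Agent.FC.AordL

/-!
# Project FC: the cusp element (global Lemma C)
-/

open RestrictedProduct Matrix MeasureTheory

noncomputable section

namespace Pool.Agent.FC

namespace CuspC

/-! ### the symplectic form -/

theorem symp_sum_left {n : ℕ} {R ι : Type*} [CommRing R] (s : Finset ι)
    (f : ι → Fin n ⊕ Fin n → R) (w : Fin n ⊕ Fin n → R) :
    symp (∑ x ∈ s, f x) w = ∑ x ∈ s, symp (f x) w := by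
  unfold symp
  exact sum_dotProduct s f _

theorem symp_sum_right {n : ℕ} {R ι : Type*} [CommRing R] (s : Finset ι)
    (f : ι → Fin n ⊕ Fin n → R) (w : Fin n ⊕ Fin n → R) :
    symp w (∑ x ∈ s, f x) = ∑ x ∈ s, symp w (f x) := by
  unfold symp
  rw [Matrix.mulVec_sum, dotProduct_sum]

theorem symp_smul_left {n : ℕ} {R : Type*} [CommRing R] (c : R) (v w : Fin n ⊕ Fin n → R) :
    symp (c • v) w = c * symp v w := by
  unfold symp
  rw [smul_dotProduct, smul_eq_mul]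

theorem symp_smul_right {n : ℕ} {R : Type*} [CommRing R] (c : R) (v w : Fin n ⊕ Fin n → R) :
    symp v (c • w) = c * symp v w := by
  unfold symp
  rw [Matrix.mulVec_smul, dotProduct_smul, smul_eq_mul]

theorem symp_map {n : ℕ} {R S : Type*} [CommRing R] [CommRing S] (φ : R →+* S)
    (v w : Fin n ⊕ Fin n → R) :
    symp (fun i => φ (v i)) (fun i => φ (w i)) = φ (symp v w) := by
  unfold symp
  rw [← map_J (Fin n) φ]
  have h : ((J (Fin n) R).map φ *ᵥ fun i => φ (w i)) = fun i => φ ((J (Fin n) R *ᵥ w) i) := by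
    funext i
    exact (RingHom.map_mulVec φ (J (Fin n) R) w i).symm
  rw [h]
  exact (RingHom.map_dotProduct φ v (J (Fin n) R *ᵥ w)).symm

theorem symp_mul {n : ℕ} {R : Type*} [CommRing R] {A : Mat n R}
    (hA : A ∈ Matrix.symplecticGroup (Fin n) R) (v w : Fin n ⊕ Fin n → R) :
    symp (A *ᵥ v) (A *ᵥ w) = symp v w := by
  unfold symp
  have h := SymplecticGroup.mem_iff'.1 hA
  calc (A *ᵥ v) ⬝ᵥ (J (Fin n) R *ᵥ (A *ᵥ w)) = v ⬝ᵥ ((Aᵀ * J (Fin n) R * A) *ᵥ w) := by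
        rw [← Matrix.mulVec_mulVec, ← Matrix.mulVec_mulVec, Matrix.dotProduct_mulVec v Aᵀ,
          Matrix.vecMul_transpose]
    _ = v ⬝ᵥ (J (Fin n) R *ᵥ w) := by rw [h]

theorem symp_gp {n : ℕ} (g : GA n) (p : Nat.Primes) (v w : Fin n ⊕ Fin n → ℚ) :
    symp (gp g p *ᵥ fun j => (v j : ℚ_[(p : ℕ)])) (gp g p *ᵥ fun j => (w j : ℚ_[(p : ℕ)])) =
      ((symp v w : ℚ) : ℚ_[(p : ℕ)]) := by
  have h1 : gp g p ∈ Matrix.symplecticGroup (Fin n) ℚ_[(p : ℕ)] :=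
    SymplecticGroup.map_mem g.2 (evp p)
  rw [symp_mul h1]
  exact symp_map (Rat.castHom ℚ_[(p : ℕ)]) v w

/-! ### norms -/

/-- Cauchy-Schwarz for combinations with small coefficients -/
theorem nr_sum_le {n : ℕ} (g : GA n) {ι : Type*} [Fintype ι] (c : ι → ℤ) (hc : ∀ x, |c x| ≤ 1)
    (b : ι → Fin n ⊕ Fin n → ℚ) {B : ℝ} (hB0 : 0 ≤ B) (hB : ∀ x, c x ≠ 0 → nr g (b x) ≤ B) :
    nr g (∑ x, (c x : ℚ) • b x) ≤ (Fintype.card ι : ℝ) ^ 2 * B := by
  have h1 : ∀ i, (gR g *ᵥ fun j => (((∑ x, (c x : ℚ) • b x : Fin n ⊕ Fin n → ℚ) j : ℚ) : ℝ)) i =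
      ∑ x, (c x : ℝ) * (gR g *ᵥ fun j => (b x j : ℝ)) i := by
    intro i
    have h2 : (fun j => (((∑ x, (c x : ℚ) • b x : Fin n ⊕ Fin n → ℚ) j : ℚ) : ℝ)) =
        ∑ x, (c x : ℝ) • fun j => (b x j : ℝ) := by
      funext j
      rw [Finset.sum_apply, Finset.sum_apply, Rat.cast_sum]
      refine Finset.sum_congr rfl fun x _ => ?_
      rw [Pi.smul_apply, Pi.smul_apply, smul_eq_mul, smul_eq_mul, Rat.cast_mul, Rat.cast_intCast]
    rw [h2, Matrix.mulVec_sum, Finset.sum_apply]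
    refine Finset.sum_congr rfl fun x _ => ?_
    rw [Matrix.mulVec_smul, Pi.smul_apply, smul_eq_mul]
  have h3 : ∀ x, (c x : ℝ) ^ 2 * nr g (b x) ≤ B := by
    intro x
    by_cases hx : c x = 0
    · rw [hx]
      simpa using hB0
    · have h4 : (c x : ℝ) ^ 2 ≤ 1 := by
        have h5 : |(c x : ℝ)| ≤ 1 := by exact_mod_cast hc x
        rw [← sq_abs]
        exact pow_le_one₀ (abs_nonneg _) h5
      have h6 : 0 ≤ nr g (b x) := Finset.sum_nonneg fun i _ => sq_nonneg _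
      calc (c x : ℝ) ^ 2 * nr g (b x) ≤ 1 * nr g (b x) := mul_le_mul_of_nonneg_right h4 h6
        _ ≤ B := by rw [one_mul]; exact hB x hx
  calc nr g (∑ x, (c x : ℚ) • b x)
      = ∑ i, (∑ x, (c x : ℝ) * (gR g *ᵥ fun j => (b x j : ℝ)) i) ^ 2 := by
        unfold nr
        exact Finset.sum_congr rfl fun i _ => by rw [h1 i]
    _ ≤ ∑ i, (Fintype.card ι : ℝ) * ∑ x, ((c x : ℝ) * (gR g *ᵥ fun j => (b x j : ℝ)) i) ^ 2 :=
        Finset.sum_le_sum fun i _ => sq_sum_le_card_mul_sum_sq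
    _ = (Fintype.card ι : ℝ) * ∑ x, (c x : ℝ) ^ 2 * nr g (b x) := by
        rw [← Finset.mul_sum, Finset.sum_comm]
        congr 1
        refine Finset.sum_congr rfl fun x _ => ?_
        unfold nr
        rw [Finset.mul_sum]
        exact Finset.sum_congr rfl fun i _ => by rw [mul_pow]
    _ ≤ (Fintype.card ι : ℝ) * ∑ x : ι, B :=
        mul_le_mul_of_nonneg_left (Finset.sum_le_sum fun x _ => h3 x) (Nat.cast_nonneg _)
    _ = (Fintype.card ι : ℝ) ^ 2 * B := by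
        rw [Finset.sum_const, Finset.card_univ, nsmul_eq_mul]
        ring

/-- `J` does not change the norm -/
theorem J_sq_le {n : ℕ} (w : Fin n ⊕ Fin n → ℝ) (j : Fin n ⊕ Fin n) :
    ((J (Fin n) ℝ *ᵥ w) j) ^ 2 ≤ ∑ i, w i ^ 2 := by
  have h : J (Fin n) ℝ *ᵥ w = Sum.elim (-(w ∘ Sum.inr)) (w ∘ Sum.inl) := by
    rw [J, Matrix.fromBlocks_mulVec]
    simp [Matrix.neg_mulVec]
  rw [h]
  rcases j with j | j
  · have := Finset.single_le_sum (f := fun i => w i ^ 2) (fun i _ => sq_nonneg _)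
      (Finset.mem_univ (Sum.inr j))
    simpa using this
  · have := Finset.single_le_sum (f := fun i => w i ^ 2) (fun i _ => sq_nonneg _)
      (Finset.mem_univ (Sum.inl j))
    simpa using this

theorem Zmat_sq_le {n : ℕ} (v u : Fin n ⊕ Fin n → ℝ) (i j : Fin n ⊕ Fin n) :
    (Zmat v u i j) ^ 2 ≤ 4 * ((∑ k, v k ^ 2) * ∑ k, u k ^ 2) := by
  have h1 : Zmat v u i j = v i * (J (Fin n) ℝ *ᵥ u) j + u i * (J (Fin n) ℝ *ᵥ v) j := rfl
  rw [h1]
  have hv : v i ^ 2 ≤ ∑ k, v k ^ 2 :=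
    Finset.single_le_sum (f := fun i => v i ^ 2) (fun i _ => sq_nonneg _) (Finset.mem_univ i)
  have hu : u i ^ 2 ≤ ∑ k, u k ^ 2 :=
    Finset.single_le_sum (f := fun i => u i ^ 2) (fun i _ => sq_nonneg _) (Finset.mem_univ i)
  have hJu := J_sq_le u j
  have hJv := J_sq_le v j
  have hV : 0 ≤ ∑ k, v k ^ 2 := Finset.sum_nonneg fun i _ => sq_nonneg _
  have hU : 0 ≤ ∑ k, u k ^ 2 := Finset.sum_nonneg fun i _ => sq_nonneg _
  have e1 : (v i * (J (Fin n) ℝ *ᵥ u) j) ^ 2 ≤ (∑ k, v k ^ 2) * ∑ k, u k ^ 2 := by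
    rw [mul_pow]
    exact mul_le_mul hv hJu (sq_nonneg _) hV
  have e2 : (u i * (J (Fin n) ℝ *ᵥ v) j) ^ 2 ≤ (∑ k, v k ^ 2) * ∑ k, u k ^ 2 := by
    rw [mul_pow, mul_comm (∑ k, v k ^ 2)]
    exact mul_le_mul hu hJv (sq_nonneg _) hU
  nlinarith [sq_nonneg (v i * (J (Fin n) ℝ *ᵥ u) j - u i * (J (Fin n) ℝ *ᵥ v) j)]

/-! ### integrality -/

theorem norm_mul_le_one {p : ℕ} [Fact p.Prime] {a b : ℚ_[p]} (ha : ‖a‖ ≤ 1) (hb : ‖b‖ ≤ 1) :
    ‖a * b‖ ≤ 1 := by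
  rw [norm_mul]
  exact mul_le_one₀ ha (norm_nonneg _) hb

theorem norm_add_le_one {p : ℕ} [Fact p.Prime] {a b : ℚ_[p]} (ha : ‖a‖ ≤ 1) (hb : ‖b‖ ≤ 1) :
    ‖a + b‖ ≤ 1 := (Padic.nonarchimedean a b).trans (max_le ha hb)

theorem Zmat_int {n : ℕ} {p : ℕ} [Fact p.Prime] {v u : Fin n ⊕ Fin n → ℚ_[p]}
    (hv : ∀ i, ‖v i‖ ≤ 1) (hu : ∀ i, ‖u i‖ ≤ 1) (i j : Fin n ⊕ Fin n) : ‖Zmat v u i j‖ ≤ 1 := by
  have hJ : ∀ w : Fin n ⊕ Fin n → ℚ_[p], (∀ i, ‖w i‖ ≤ 1) →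
      ‖(J (Fin n) ℚ_[p] *ᵥ w) j‖ ≤ 1 := by
    intro w hw
    have h : J (Fin n) ℚ_[p] *ᵥ w = Sum.elim (-(w ∘ Sum.inr)) (w ∘ Sum.inl) := by
      rw [J, Matrix.fromBlocks_mulVec]
      simp [Matrix.neg_mulVec]
    rw [h]
    rcases j with j | j
    · simpa using hw (Sum.inr j)
    · simpa using hw (Sum.inl j)
  have h1 : Zmat v u i j = v i * (J (Fin n) ℚ_[p] *ᵥ u) j + u i * (J (Fin n) ℚ_[p] *ᵥ v) j := rfl
  rw [h1]
  exact norm_add_le_one (norm_mul_le_one (hv i) (hJ u hu)) (norm_mul_le_one (hu i) (hJ v hv))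

theorem mulVec_cast_sum {n : ℕ} (g : GA n) (p : Nat.Primes) {ι : Type*} [Fintype ι] (c : ι → ℤ)
    (b : ι → Fin n ⊕ Fin n → ℚ) (i : Fin n ⊕ Fin n) :
    (gp g p *ᵥ fun j => (((∑ x, (c x : ℚ) • b x : Fin n ⊕ Fin n → ℚ) j : ℚ) : ℚ_[(p : ℕ)])) i =
      ∑ x, (gp g p *ᵥ fun j => (b x j : ℚ_[(p : ℕ)])) i * (c x : ℚ_[(p : ℕ)]) := by
  have h2 : (fun j => (((∑ x, (c x : ℚ) • b x : Fin n ⊕ Fin n → ℚ) j : ℚ) : ℚ_[(p : ℕ)])) =
      ∑ x, (c x : ℚ_[(p : ℕ)]) • fun j => (b x j : ℚ_[(p : ℕ)]) := by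
    funext j
    rw [Finset.sum_apply, Finset.sum_apply, Rat.cast_sum]
    refine Finset.sum_congr rfl fun x _ => ?_
    rw [Pi.smul_apply, Pi.smul_apply, smul_eq_mul, smul_eq_mul, Rat.cast_mul, Rat.cast_intCast]
  rw [h2, Matrix.mulVec_sum, Finset.sum_apply]
  refine Finset.sum_congr rfl fun x _ => ?_
  rw [Matrix.mulVec_smul, Pi.smul_apply, smul_eq_mul, mul_comm]

theorem InL_sum {n : ℕ} (g : GA n) {ι : Type*} [Fintype ι] (c : ι → ℤ)
    (b : ι → Fin n ⊕ Fin n → ℚ) (hb : ∀ x, InL g (b x)) : InL g (∑ x, (c x : ℚ) • b x) := by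
  intro p i
  rw [mulVec_cast_sum]
  refine IsUltrametricDist.norm_sum_le_of_forall_le_of_nonneg zero_le_one fun x _ => ?_
  exact norm_mul_le_one (hb x p i) (Padic.norm_int_le_one _)

/-- the trace -/
theorem norm_trace_le {M : Mat 6 ℚ_[(p3 : ℕ)]} (hM : M ∈ Aord) : ‖Matrix.trace (X3 * M)‖ ≤ 3 := by
  have hsum : Matrix.trace (X3 * M) = ∑ i, ∑ j, X3 i j * M j i := by
    simp only [Matrix.trace, Matrix.diag_apply, Matrix.mul_apply]
  rw [hsum]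
  refine AordL.norm_sum_le _ _ (by norm_num) fun i _ => AordL.norm_sum_le _ _ (by norm_num)
    fun j _ => ?_
  rw [norm_mul]
  have h9 : ‖(1 / 9 : ℚ_[(p3 : ℕ)])‖ = 9 := by
    rw [show (9 : ℚ_[(p3 : ℕ)]) = 3 * 3 by norm_num, norm_div, norm_mul, AordL.norm_three, norm_one]
    norm_num
  have h3 : ‖(1 / 3 : ℚ_[(p3 : ℕ)])‖ = 3 := by
    rw [norm_div, AordL.norm_three, norm_one]
    norm_num
  have hMji := hM j i
  rw [AordL.X3_eq]
  rcases i with i | i <;> rcases j with j | j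
  · simp
  · rw [fromBlocks_apply₁₂, Matrix.smul_apply, Matrix.map_apply, smul_eq_mul, norm_mul, h9]
    have h1 := AordL.norm_int_le (S2 i j)
    have h2 : ‖M (Sum.inr j) (Sum.inl i)‖ ≤ 1 / 3 := hMji
    calc 9 * ‖((S2 i j : ℤ) : ℚ_[(p3 : ℕ)])‖ * ‖M (Sum.inr j) (Sum.inl i)‖
        ≤ 9 * 1 * (1 / 3) := by
          refine mul_le_mul (by linarith) h2 (norm_nonneg _) (by norm_num)
      _ = 3 := by norm_num
  · rw [fromBlocks_apply₂₁, Matrix.smul_apply, Matrix.map_apply, smul_eq_mul, norm_mul, h3]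
    have h1 := AordL.norm_int_le (S1 i j)
    have h2 : ‖M (Sum.inl j) (Sum.inr i)‖ ≤ 1 := hMji
    calc 3 * ‖((S1 i j : ℤ) : ℚ_[(p3 : ℕ)])‖ * ‖M (Sum.inl j) (Sum.inr i)‖
        ≤ 3 * 1 * 1 := by
          refine mul_le_mul (by linarith) h2 (norm_nonneg _) (by norm_num)
      _ = 3 := by norm_num
  · simp

end CuspC

open CuspC

theorem cuspC (ψ : AddChar Adele Circle) (hψ : IsStd ψ) (η : ℝ) (hη : 0 < η) :
    ∃ ε : ℝ, 0 < ε ∧ ∀ g : GA 6,
      (∃ v : Fin 6 ⊕ Fin 6 → ℚ, v ≠ 0 ∧ InL g v ∧ nr g v < ε) →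
      ∃ ν ∈ GQ 6, g * ν * g⁻¹ ∈ USet ∧ (chi ψ (g * ν * g⁻¹)) ^ 3 = 1 ∧
        chi ψ (g * ν * g⁻¹) ≠ 1 ∧ 1 ≤ ‖(1 : ℂ) - (chi ψ (g * ν * g⁻¹) : ℂ)‖ ∧
        ∀ i j, |(gR (g * ν * g⁻¹) - 1) i j| < η := by
  set C0 : ℝ := Red.cst (6 + 6) * (4 / 3) ^ (6 + 6) with hC0
  have hC0p : 0 < C0 := mul_pos (Red.cst_pos _) (by positivity)
  set R : ℝ := 36 * 144 ^ 2 * C0 ^ 2 / η ^ 2 + 1 with hR
  have hR1 : 1 ≤ R := by
    rw [hR]
    have : 0 ≤ 36 * 144 ^ 2 * C0 ^ 2 / η ^ 2 := by positivity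
    linarith
  have hs : 0 < 1 / (2 * C0) := by positivity
  obtain ⟨e, he, hgap⟩ := Red.exists_gap (6 + 6) hR1 hs
  refine ⟨e / (4 / 3) ^ (6 + 6), by positivity, ?_⟩
  rintro g ⟨v0, hv0, hv0L, hv0e⟩
  obtain ⟨δ, δ', N, d, h⟩ := exists_RB g
  have hd0 : ∀ i, 0 < d i := h.red.pos
  have hfirst := h.first_le hv0 hv0L ⟨0, by norm_num⟩ rfl
  have hlt : d ⟨0, by norm_num⟩ < e := by
    refine hfirst.trans_lt ?_
    rw [lt_div_iff₀ (by positivity)] at hv0e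
    linarith
  obtain ⟨i, j, hij, hdi, hdj⟩ := hgap d hd0 h.prod_d ⟨0, by norm_num⟩ rfl hlt
  -- isotropy
  have hb0 : ∀ x y : Fin (6 + 6), x ≤ i → y ≤ i → symp (bvec δ x) (bvec δ y) = 0 := by
    intro x y hx hy
    obtain ⟨z, hz⟩ := symp_int (h.b_mem x) (h.b_mem y)
    have h1 := symp_sq_le g (bvec δ x) (bvec δ y)
    have h2 := h.nr_b hx
    have h3 := h.nr_b hy
    have h4 : C0 * d i ≤ 1 / 2 := by
      calc C0 * d i ≤ C0 * (1 / (2 * C0)) := mul_le_mul_of_nonneg_left hdi hC0p.le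
        _ = 1 / 2 := by field_simp
    have h5 : nr g (bvec δ x) ≤ 1 / 2 := h2.trans h4
    have h6 : nr g (bvec δ y) ≤ 1 / 2 := h3.trans h4
    have h7 : 0 ≤ nr g (bvec δ y) := Finset.sum_nonneg fun i _ => sq_nonneg _
    have h8 : ((z : ℤ) : ℝ) ^ 2 ≤ 1 / 4 := by
      have h9 : ((symp (bvec δ x) (bvec δ y) : ℚ) : ℝ) = (z : ℝ) := by
        rw [← hz]
        exact Rat.cast_intCast z
      rw [h9] at h1
      calc ((z : ℤ) : ℝ) ^ 2 ≤ nr g (bvec δ x) * nr g (bvec δ y) := h1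
        _ ≤ 1 / 2 * (1 / 2) := mul_le_mul h5 h6 h7 (by norm_num)
        _ = 1 / 4 := by norm_num
    have h10 : z = 0 := by
      by_contra hz0
      have h11 : (1 : ℝ) ≤ (z : ℝ) ^ 2 := by
        have h12 : (1 : ℤ) ≤ z ^ 2 := by
          have : 0 < z ^ 2 := by positivity
          omega
        exact_mod_cast h12
      linarith
    rw [← hz, h10]
    simp
  -- the local statement
  set σ : Fin 6 ⊕ Fin 6 ≃ Fin (6 + 6) := finSumFinEquiv with hσ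
  set kM : Mat 6 ℚ_[(p3 : ℕ)] := Matrix.of fun r x =>
    (gp g p3 *ᵥ fun t => (bvec δ (σ x) t : ℚ_[(p3 : ℕ)])) r with hkM
  set dM : Mat 6 ℚ_[(p3 : ℕ)] := Matrix.of fun r x =>
    (gp g p3 *ᵥ fun t => (dvec δ' (σ x) t : ℚ_[(p3 : ℕ)])) r with hdM
  set I : Finset (Fin 6 ⊕ Fin 6) := Finset.univ.filter fun x => σ x ≤ i with hI
  have hmemI : ∀ x, x ∈ I ↔ σ x ≤ i := fun x => by
    rw [hI, Finset.mem_filter]
    exact ⟨fun h => h.2, fun h => ⟨Finset.mem_univ _, h⟩⟩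
  have hdual : kMᵀ * J (Fin 6) _ * dM = 1 := by
    ext x y
    have h1 : (kMᵀ * J (Fin 6) ℚ_[(p3 : ℕ)] * dM : Mat 6 ℚ_[(p3 : ℕ)]) x y =
        symp (fun r => kM r x) (fun r => dM r y) := by
      unfold symp
      rw [Matrix.mul_assoc, Matrix.mul_apply]
      rfl
    rw [h1]
    have h2 : symp (fun r => kM r x) (fun r => dM r y) =
        ((symp (bvec δ (σ x)) (dvec δ' (σ y)) : ℚ) : ℚ_[(p3 : ℕ)]) :=
      symp_gp g p3 (bvec δ (σ x)) (dvec δ' (σ y))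
    rw [h2, h.pair, Matrix.one_apply]
    by_cases hxy : x = y
    · subst hxy
      simp
    · rw [if_neg hxy, if_neg (fun hc => hxy (σ.injective hc))]
      simp
  obtain ⟨c, c', s, hc, hc', hcI, hc'I, hs1, hAord, htr⟩ := locZ3 kM dM
    (fun r x => h.b_mem (σ x) p3 r) (fun r x => h.d_mem (σ x) p3 r) hdual I
    ⟨σ.symm i, (hmemI _).2 (by rw [Equiv.apply_symm_apply])⟩
    (fun x hx y hy => by
      have h2 : symp (fun r => kM r x) (fun r => kM r y) =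
          ((symp (bvec δ (σ x)) (bvec δ (σ y)) : ℚ) : ℚ_[(p3 : ℕ)]) :=
        symp_gp g p3 (bvec δ (σ x)) (bvec δ (σ y))
      rw [h2, hb0 _ _ ((hmemI x).1 hx) ((hmemI y).1 hy)]
      simp)
  set v : Fin 6 ⊕ Fin 6 → ℚ := ∑ x, (c x : ℚ) • bvec δ (σ x) with hv
  set u : Fin 6 ⊕ Fin 6 → ℚ := ∑ x, (c' x : ℚ) • dvec δ' (σ x) with hu
  have hvu : symp v u = 0 := by
    rw [hv, hu, symp_sum_left]
    refine Finset.sum_eq_zero fun x _ => ?_
    rw [symp_sum_right]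
    refine Finset.sum_eq_zero fun y _ => ?_
    rw [symp_smul_left, symp_smul_right, h.pair]
    by_cases hxy : σ x = σ y
    · have hxy' : x = y := σ.injective hxy
      subst hxy'
      by_cases hx : x ∈ I
      · rw [hc'I x hx]
        simp
      · rw [hcI x hx]
        simp
    · rw [if_neg hxy]
      simp
  have hkv : (kM *ᵥ fun x => ((c x : ℤ) : ℚ_[(p3 : ℕ)])) =
      gp g p3 *ᵥ fun t => (v t : ℚ_[(p3 : ℕ)]) := by
    funext r
    rw [hv, mulVec_cast_sum]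
    rfl
  have hdu : (dM *ᵥ fun x => ((c' x : ℤ) : ℚ_[(p3 : ℕ)])) =
      gp g p3 *ᵥ fun t => (u t : ℚ_[(p3 : ℕ)]) := by
    funext r
    rw [hu, mulVec_cast_sum]
    rfl
  rw [hkv, hdu] at hAord htr
  obtain ⟨ν, hν, hνp, hνR⟩ := CuspA.exists_nu g hvu ((3 : ℚ) ^ s)
  have hν3 : gp (g * ν * g⁻¹) p3 - 1 = ((3 : ℚ_[(p3 : ℕ)]) ^ s) •
      Zmat (gp g p3 *ᵥ fun t => (v t : ℚ_[(p3 : ℕ)])) (gp g p3 *ᵥ fun t => (u t : ℚ_[(p3 : ℕ)])) := by
    rw [hνp p3, Rat.cast_pow, Rat.cast_ofNat]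
  have hchi : chi ψ (g * ν * g⁻¹) = theta ψ (Matrix.trace (X3 * (((3 : ℚ_[(p3 : ℕ)]) ^ s) •
      Zmat (gp g p3 *ᵥ fun t => (v t : ℚ_[(p3 : ℕ)]))
        (gp g p3 *ᵥ fun t => (u t : ℚ_[(p3 : ℕ)]))))) := by
    unfold chi
    rw [hν3]
    rfl
  obtain ⟨t1, t2, t3⟩ := CuspA.theta_cube hψ htr (norm_trace_le hAord)
  refine ⟨ν, hν, ⟨?_, ?_⟩, ?_, ?_, ?_, ?_⟩
  · intro p r t
    have h1 : gp (g * ν * g⁻¹) p r t = (gp (g * ν * g⁻¹) p - 1) r t +
        (1 : Mat 6 ℚ_[(p : ℕ)]) r t := by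
      rw [Matrix.sub_apply]
      ring
    rw [h1, hνp p]
    refine norm_add_le_one ?_ ?_
    · rw [Matrix.smul_apply, smul_eq_mul]
      refine norm_mul_le_one ?_ (Zmat_int ?_ ?_ r t)
      · have h2 : (((3 : ℚ) ^ s : ℚ) : ℚ_[(p : ℕ)]) = (((3 ^ s : ℤ)) : ℚ_[(p : ℕ)]) := by
          push_cast
          rfl
        rw [h2]
        exact Padic.norm_int_le_one _
      · exact InL_sum g c _ (fun x => h.b_mem (σ x)) p
      · exact InL_sum g c' _ (fun x => h.d_mem (σ x)) p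
    · rw [Matrix.one_apply]
      split_ifs <;> simp
  · rw [hν3]
    exact hAord
  · rw [hchi]
    exact t1
  · rw [hchi]
    exact t2
  · rw [hchi]
    exact t3
  · intro r t
    rw [hνR, Matrix.smul_apply, smul_eq_mul]
    have hij' : i ≤ j := by
      rw [Fin.le_def]
      omega
    have hnv : nr g v ≤ 144 * (C0 * d i) := by
      have h1 := nr_sum_le g c hc (fun x => bvec δ (σ x)) (B := C0 * d i)
        (mul_nonneg hC0p.le (hd0 i).le) (fun x hx => by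
          have h2 : x ∈ I := by
            by_contra hxI
            exact hx (hcI x hxI)
          exact h.nr_b ((hmemI x).1 h2))
      refine h1.trans (le_of_eq ?_)
      rw [Fintype.card_sum, Fintype.card_fin]
      norm_num
    have hnu : nr g u ≤ 144 * (C0 / d j) := by
      have h1 := nr_sum_le g c' hc' (fun x => dvec δ' (σ x)) (B := C0 / d j)
        (div_nonneg hC0p.le (hd0 j).le) (fun x hx => by
          have h2 : x ∉ I := by
            intro hxI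
            exact hx (hc'I x hxI)
          have h3 : j ≤ σ x := by
            rw [hmemI, not_le, Fin.lt_def] at h2
            rw [Fin.le_def]
            omega
          exact h.nr_d h3)
      refine h1.trans (le_of_eq ?_)
      rw [Fintype.card_sum, Fintype.card_fin]
      norm_num
    have hnv0 : 0 ≤ nr g v := Finset.sum_nonneg fun i _ => sq_nonneg _
    have hnu0 : 0 ≤ nr g u := Finset.sum_nonneg fun i _ => sq_nonneg _
    have hZ := Zmat_sq_le (gR g *ᵥ fun j => (v j : ℝ)) (gR g *ᵥ fun j => (u j : ℝ)) r t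
    have hprod : nr g v * nr g u ≤ 144 ^ 2 * C0 ^ 2 / R := by
      calc nr g v * nr g u ≤ (144 * (C0 * d i)) * (144 * (C0 / d j)) :=
            mul_le_mul hnv hnu hnu0 (by have := hd0 i; positivity)
        _ = 144 ^ 2 * C0 ^ 2 * (d i / d j) := by
            have := (hd0 j).ne'
            field_simp
            
        _ ≤ 144 ^ 2 * C0 ^ 2 * (1 / R) := by
            refine mul_le_mul_of_nonneg_left ?_ (by positivity)
            rw [div_le_div_iff₀ (hd0 j) (by linarith)]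
            linarith
        _ = 144 ^ 2 * C0 ^ 2 / R := by ring
    have hR0 : 0 < R := by linarith
    have hfin : 36 * (144 ^ 2 * C0 ^ 2 / R) < η ^ 2 := by
      have h1 : η ^ 2 * R = 36 * 144 ^ 2 * C0 ^ 2 + η ^ 2 := by
        rw [hR]
        field_simp
      rw [← mul_div_assoc, div_lt_iff₀ hR0, h1]
      have : 0 < η ^ 2 := by positivity
      linarith
    have h3s : |(((3 : ℚ) ^ s : ℚ) : ℝ)| ≤ 3 := by
      rw [abs_of_nonneg (by positivity)]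
      push_cast
      interval_cases s <;> norm_num
    refine abs_lt_of_sq_lt_sq ?_ hη.le
    rw [mul_pow]
    have h9 : ((((3 : ℚ) ^ s : ℚ) : ℝ)) ^ 2 ≤ 9 := by
      rw [← sq_abs]
      nlinarith [abs_nonneg ((((3 : ℚ) ^ s : ℚ) : ℝ))]
    have hZ' : (Zmat (gR g *ᵥ fun j => (v j : ℝ)) (gR g *ᵥ fun j => (u j : ℝ)) r t) ^ 2 ≤
        4 * (nr g v * nr g u) := hZ
    calc _ ≤ 9 * (4 * (nr g v * nr g u)) := mul_le_mul h9 hZ' (sq_nonneg _) (by norm_num)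
      _ = 36 * (nr g v * nr g u) := by ring
      _ ≤ 36 * (144 ^ 2 * C0 ^ 2 / R) := by linarith
      _ < η ^ 2 := hfin

end Pool.Agent.FC
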