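import Pool.Agent.FC.AdeleSp

/-!
# FC: two lemmas for the cusp estimate
-/

open RestrictedProduct Matrix MeasureTheory Topology
open scoped Pointwise

noncomputable section

namespace Pool.Agent.FC

/-- distance of a nontrivial cube root of unity from `1` -/
theorem one_le_norm_one_sub {z : Circle} (h3 : z ^ 3 = 1) (h1 : z ≠ 1) :
    1 ≤ ‖(1 : ℂ) - starRingEnd ℂ (z : ℂ)‖ := by
  have e3 : (z : ℂ) ^ 3 = 1 := by
    rw [← Circle.coe_pow, h3, Circle.coe_one]
  have e1 : (z : ℂ) - 1 ≠ 0 := by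
    intro h
    apply h1
    apply Circle.ext
    rw [Circle.coe_one]
    exact sub_eq_zero.1 h
  have e2 : (z : ℂ) ^ 2 + z + 1 = 0 := by
    have h : ((z : ℂ) - 1) * ((z : ℂ) ^ 2 + z + 1) = 0 := by
      have : ((z : ℂ) - 1) * ((z : ℂ) ^ 2 + z + 1) = (z : ℂ) ^ 3 - 1 := by ring
      rw [this, e3, sub_self]
    exact (mul_eq_zero.1 h).resolve_left e1
  have e4 : (z : ℂ) * starRingEnd ℂ (z : ℂ) = 1 := by
    rw [Complex.mul_conj, Circle.normSq_coe, Complex.ofReal_one]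
  have e5 : starRingEnd ℂ (z : ℂ) = (z : ℂ) ^ 2 := by
    have h : (z : ℂ) * (starRingEnd ℂ (z : ℂ) - (z : ℂ) ^ 2) = 0 := by
      rw [mul_sub, e4, ← pow_succ', e3, sub_self]
    have h0 : (z : ℂ) ≠ 0 := Circle.coe_ne_zero z
    exact sub_eq_zero.1 ((mul_eq_zero.1 h).resolve_left h0)
  have e6 : ((1 : ℂ) - starRingEnd ℂ (z : ℂ)) * starRingEnd ℂ ((1 : ℂ) - starRingEnd ℂ (z : ℂ)) = 3 := by
    rw [map_sub, map_one, Complex.conj_conj, e5]
    linear_combination (-1 : ℂ) * e2 + e3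
  have e7 : ‖(1 : ℂ) - starRingEnd ℂ (z : ℂ)‖ ^ 2 = 3 := by
    rw [Complex.mul_conj, Complex.normSq_eq_norm_sq] at e6
    exact_mod_cast e6
  nlinarith [norm_nonneg ((1 : ℂ) - starRingEnd ℂ (z : ℂ))]

/-- uniform continuity of a compactly supported function under left translation -/
theorem CuspU.unif {G : Type*} [Group G] [TopologicalSpace G] [IsTopologicalGroup G]
    [LocallyCompactSpace G] {η : G → ℝ} (hc : Continuous η) (hs : HasCompactSupport η) :
    ∃ B : Set G, IsCompact B ∧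
      ∀ ε > (0 : ℝ), ∃ W ∈ 𝓝 (1 : G), ∀ w ∈ W, ∀ x, |η (w * x) - η x| ≤ ε * B.indicator 1 x := by
  obtain ⟨V, hV, hV1⟩ := exists_compact_mem_nhds (1 : G)
  have hB : IsCompact (V⁻¹ * tsupport η) := hV.inv.mul hs
  refine ⟨V⁻¹ * tsupport η, hB, ?_⟩
  intro ε hε
  have h1 : ∀ᶠ w : G in 𝓝 1, ∀ x ∈ V⁻¹ * tsupport η, |η (w * x) - η x| < ε := by
    refine hB.eventually_forall_of_forall_eventually fun y _ => ?_
    have h2 : Continuous fun p : G × G => |η (p.1 * p.2) - η p.2| := by fun_prop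
    refine h2.continuousAt.eventually_lt continuousAt_const ?_
    simpa using hε
  obtain ⟨W, hW, hW'⟩ := h1.exists_mem
  refine ⟨W ∩ V, Filter.inter_mem hW hV1, ?_⟩
  rintro w ⟨hw, hwV⟩ x
  by_cases hx : x ∈ V⁻¹ * tsupport η
  · rw [Set.indicator_of_mem hx, Pi.one_apply, mul_one]
    exact (hW' w hw x hx).le
  · have hx0 : η x = 0 := by
      by_contra hne
      apply hx
      refine Set.mem_mul.2 ⟨1, ?_, x, subset_tsupport _ hne, one_mul x⟩
      rw [Set.mem_inv, inv_one]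
      exact mem_of_mem_nhds hV1
    have hx1 : η (w * x) = 0 := by
      by_contra hne
      apply hx
      refine Set.mem_mul.2 ⟨w⁻¹, ?_, w * x, subset_tsupport _ hne, inv_mul_cancel_left w x⟩
      rw [Set.mem_inv, inv_inv]
      exact hwV
    rw [hx0, hx1, sub_self, abs_zero, Set.indicator_of_notMem hx, mul_zero]

/-- uniform continuity of the real bump function under left translation -/
theorem exists_unif_eta {η : symplecticGroup (Fin 6) ℝ → ℝ} (hc : Continuous η)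
    (hs : HasCompactSupport η) : ∃ B : Set (symplecticGroup (Fin 6) ℝ), IsCompact B ∧
      ∀ ε > (0 : ℝ), ∃ W ∈ 𝓝 (1 : symplecticGroup (Fin 6) ℝ), ∀ w ∈ W, ∀ x,
        |η (w * x) - η x| ≤ ε * B.indicator 1 x :=
  CuspU.unif hc hs

end Pool.Agent.FC
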