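import Mathlib

set_option linter.all false

namespace Pool.Agent.FC

open Matrix

/- adapted from the private lemma in Mathlib.LinearAlgebra.SymplecticGroup -/
theorem exists_symm_isUnit_add_mul {l : Type*} [DecidableEq l] [Fintype l] {R : Type*} [Field R]
    {A C : Matrix l l R} (hker : ∀ (x : l → R), (A • x = 0) → (C • x = 0) → x = 0)
    (hsymm : Aᵀ * C = Cᵀ * A) :
    ∃ (X : Matrix l l R), X.IsSymm ∧ IsUnit (A + X * C) := by
  -- `C` is transformed into `P = fromBlocks 1 0 0 0` by invertible matrices `V` and `U`.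
  rcases exists_rank_normal_form C with ⟨V, U, s, hV, hU, heq⟩
  set P := V * C * U with P_def; set Q := Vᵀ⁻¹ * A * U with Q_def
  set f := fun (x : Matrix l l R) ↦ x.submatrix s.symm s.symm
  have hf (x) : f x = x.submatrix s.symm s.symm := rfl
  have f_unit {x} : IsUnit x → IsUnit (f x) := (isUnit_submatrix_equiv ..).2
  have f_mul (x y) : f (x * y) = f x * f y := submatrix_mul _ _ _ _ _ s.symm.bijective
  have _ : Invertible V := hV.invertible
  have _ : Invertible U := hU.invertible
  have _ : Invertible (f Vᵀ) := (f_unit (V.isUnit_transpose.2 hV)).invertible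
  -- The hypothesis that the only vector annihilated by both matrices is 0, holds for `P` and `Q`.
  have con1 (x : Fin C.rank ⊕ Fin (Fintype.card l - C.rank) → R)
      (heq1 : (f Q) • x = 0) (heq2 : (f P) • x = 0) : x = 0 := by
    refine (f_unit hU).smul_left_cancel.1 ?_
    rw [f_mul, f_mul, mul_assoc, mul_smul, IsUnit.smul_eq_zero, mul_smul, hf,
      smul_eq_mulVec, submatrix_mulVec_equiv, Equiv.symm_symm] at heq1 heq2
    · rw [Equiv.comp_symm_eq, Pi.zero_comp] at heq1 heq2
      exact s.surjective.injective_comp_right <| by simpa using hker _ heq1 heq2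
    · exact f_unit hV
    · exact f_unit <| isUnit_nonsing_inv_iff.2 <| V.isUnit_transpose.2 hV
  -- The symmetry relation also holds for `P` and `Q`.
  have con2 : Qᵀ * P = Pᵀ * Q := by
    simp only [P_def, mul_assoc, transpose_mul, transpose_nonsing_inv, transpose_transpose, Q_def,
      inv_mul_cancel_left_of_invertible, mul_inv_cancel_left_of_invertible]
    rw [← mul_assoc Aᵀ, hsymm, mul_assoc]
  replace con2 : (f Q).toBlocks₁₁ᵀ = (f Q).toBlocks₁₁ ∧ (f Q).toBlocks₁₂ = 0 := by
    apply_fun reindex s s at con2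
    rw [reindex_apply, reindex_apply, ← hf, ← hf, f_mul, f_mul Pᵀ, heq, hf,
      ← transpose_submatrix, ← hf Q, ← (f Q).fromBlocks_toBlocks, hf (_)ᵀ, hf
      ((fromBlocks 1 0 0 0).submatrix _ _)] at con2
    simp [fromBlocks_transpose, fromBlocks_multiply] at con2; tauto
  -- The lower-right block of `Q` is invertible.
  have con3 : IsUnit (f Q).toBlocks₂₂ := by
    refine mulVec_injective_iff_isUnit.1 ?_
    rw [← coe_mulVecLin, ← LinearMap.ker_eq_bot]
    refine ker_mulVecLin_eq_bot_iff.2 fun x hx ↦ Sum.elim_injective' <|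
      (con1 _ ?_ ?_).trans Sum.elim_zero_zero.symm
    · rw [← (f Q).fromBlocks_toBlocks]; simp [hx, con2.2, fromBlocks_mulVec]
    · simp [hf, heq, fromBlocks_mulVec]
  set Y : Matrix (Fin C.rank ⊕ Fin (Fintype.card l - C.rank)) (Fin C.rank ⊕
    Fin (Fintype.card l - C.rank)) R := fromBlocks (1 - (f Q).toBlocks₁₁) 0 0 0 with Y_def
  have hY_symm : Y.IsSymm := by
    rw [Y_def, isSymm_fromBlocks_iff]
    exact ⟨IsSymm.sub isSymm_one con2.1, by simp⟩
  -- We now take `X = Vᵀ * Y * V` and this gives the desired matrix `X.submatrix s s`.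
  set X := (f Vᵀ) * Y * (f V) with X_def
  refine ⟨X.submatrix s s, IsSymm.submatrix ?_ s, (isUnit_submatrix_equiv s.symm s.symm).1 ?_⟩
  · simp_rw [X_def, Matrix.IsSymm, transpose_mul, hY_symm.eq, hf, transpose_submatrix,
      transpose_transpose, mul_assoc]
  · have heq' : f (A + X.submatrix s s * C) = (f Vᵀ) * (f Q + Y * (f P)) * f (U⁻¹) := by
      simp_rw [hf, submatrix_add, Pi.add_apply, Q_def, P_def, ← hf, f_mul, hf, mul_add, ← mul_assoc,
        ← inv_submatrix_equiv, add_mul, mul_assoc _ (U.submatrix _ _), mul_inv_of_invertible]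
      simp [X_def]; rfl
    rw [← hf, heq', IsUnit.mul_iff, IsUnit.mul_iff]
    refine ⟨⟨isUnit_of_invertible _, ?_⟩, ?_⟩
    · nth_rw 1 [Y_def, heq, ← (f Q).fromBlocks_toBlocks, con2.2]
      simpa [hf, fromBlocks_multiply, fromBlocks_add]
    · exact f_unit <| isUnit_nonsing_inv_iff.2 hU


section gens

variable {l : Type*} [DecidableEq l] [Fintype l] {R : Type*} [CommRing R]

/-- upper unipotent -/
def uU (X : Matrix l l R) (hX : X.IsSymm) : symplecticGroup l R :=
  ⟨fromBlocks 1 X 0 1, by
    rw [SymplecticGroup.fromBlocks_mem_iff]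
    refine ⟨by simp, ?_, by simp⟩
    simp [hX.eq]⟩

/-- lower unipotent -/
def uL (Y : Matrix l l R) (hY : Y.IsSymm) : symplecticGroup l R :=
  ⟨fromBlocks 1 0 Y 1, by
    rw [SymplecticGroup.fromBlocks_mem_iff]
    refine ⟨by simp [hY.eq], by simp, by simp⟩⟩

/-- Levi elements -/
def uM (A B : Matrix l l R) (h : Aᵀ * B = 1) : symplecticGroup l R :=
  ⟨fromBlocks A 0 0 B, by
    rw [SymplecticGroup.fromBlocks_mem_iff]
    refine ⟨by simp, by simp, by simp [h]⟩⟩

theorem uU_mul (X Y : Matrix l l R) (hX : X.IsSymm) (hY : Y.IsSymm) :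
    uU X hX * uU Y hY = uU (X + Y) (hX.add hY) := by
  apply Subtype.ext
  change fromBlocks 1 X 0 1 * fromBlocks 1 Y 0 1 = fromBlocks 1 (X + Y) 0 1
  rw [fromBlocks_multiply]
  simp [add_comm]

theorem uM_uU (A B : Matrix l l R) (h : Aᵀ * B = 1) (X : Matrix l l R) (hX : X.IsSymm)
    (hX' : (A * X * Aᵀ).IsSymm) :
    uM A B h * uU X hX = uU (A * X * Aᵀ) hX' * uM A B h := by
  apply Subtype.ext
  change fromBlocks A 0 0 B * fromBlocks 1 X 0 1 = fromBlocks 1 (A * X * Aᵀ) 0 1 * fromBlocks A 0 0 B
  rw [fromBlocks_multiply, fromBlocks_multiply]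
  simp [Matrix.mul_assoc, h]

theorem symJ_uU (X : Matrix l l R) (hX : X.IsSymm) (hX' : (-X).IsSymm) :
    SymplecticGroup.symJ l R * uU X hX = uL (-X) hX' * SymplecticGroup.symJ l R := by
  apply Subtype.ext
  change J l R * fromBlocks 1 X 0 1 = fromBlocks 1 0 (-X) 1 * J l R
  rw [J, fromBlocks_multiply, fromBlocks_multiply]
  simp

end gens

section field

variable {l : Type*} [DecidableEq l] [Fintype l] {F : Type*} [Field F] [CharZero F]
  {C : Type*} [CommGroup C]

theorem hom_uU (f : symplecticGroup l F →* C) (X : Matrix l l F) (hX : X.IsSymm) :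
    f (uU X hX) = 1 := by
  have key : ∀ (X : Matrix l l F) (hX : X.IsSymm) (h4 : ((4 : F) • X).IsSymm),
      f (uU ((4 : F) • X) h4) = f (uU X hX) := by
    intro X hX h4
    have h2 : ((2 : F) • (1 : Matrix l l F))ᵀ * ((2 : F)⁻¹ • (1 : Matrix l l F)) = 1 := by
      simp
    have h3 : (((2 : F) • (1 : Matrix l l F)) * X * ((2 : F) • (1 : Matrix l l F))ᵀ) =
        (4 : F) • X := by
      rw [transpose_smul, transpose_one, Matrix.smul_mul, Matrix.one_mul, Matrix.mul_smul,
        Matrix.mul_one]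
      ext i j
      simp only [Matrix.smul_apply, smul_eq_mul]
      ring
    have h5 := uM_uU _ _ h2 X hX (by rw [h3]; exact h4)
    have h6 := congrArg f h5
    rw [map_mul, map_mul, mul_comm] at h6
    have h7 := mul_right_cancel h6
    rw [h7]
    congr 2
    exact h3.symm
  have h3 : ((3 : F)⁻¹ • X).IsSymm := hX.smul _
  have h4 : ((4 : F) • ((3 : F)⁻¹ • X)).IsSymm := h3.smul _
  have h5 := key _ h3 h4
  have h6 : uU ((3 : F)⁻¹ • X) h3 * uU X hX = uU ((4 : F) • ((3 : F)⁻¹ • X)) h4 := by
    rw [uU_mul]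
    congr 1
    rw [smul_smul]
    have : (4 : F) * 3⁻¹ = 3⁻¹ + 1 := by field_simp; norm_num
    rw [this, add_smul, one_smul]
  rw [← h6, map_mul] at h5
  exact mul_eq_left.mp h5

theorem hom_uL (f : symplecticGroup l F →* C) (Y : Matrix l l F) (hY : Y.IsSymm) :
    f (uL Y hY) = 1 := by
  have hY' : (-Y).IsSymm := hY.neg
  have h := symJ_uU (-Y) hY' (by rw [neg_neg]; exact hY)
  have h2 := congrArg f h
  rw [map_mul, map_mul, hom_uU, mul_one] at h2
  have h3 : f (uL (- -Y) (by rw [neg_neg]; exact hY)) = 1 := by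
    exact (mul_eq_right.mp h2.symm)
  have h4 : uL (- -Y) (by rw [neg_neg]; exact hY) = uL Y hY := by
    congr 1
    exact neg_neg Y
  rwa [h4] at h3

/-- the Weyl type element attached to a symmetric invertible matrix -/
theorem w_eq (A B : Matrix l l F) (hA : A.IsSymm) (hB : B.IsSymm) (h : A * B = 1) :
    uU A hA * uL (-B) hB.neg * uU A hA =
      uM A B (by rw [hA.eq]; exact h) * (SymplecticGroup.symJ l F)⁻¹ := by
  have hBA : B * A = 1 := mul_eq_one_comm.mp h
  apply Subtype.ext
  change fromBlocks 1 A 0 1 * fromBlocks 1 0 (-B) 1 * fromBlocks 1 A 0 1 =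
    fromBlocks A 0 0 B * ((-J l F) * (J l F)ᵀ * J l F)
  rw [fromBlocks_multiply, fromBlocks_multiply, J, fromBlocks_transpose, fromBlocks_neg,
    fromBlocks_multiply, fromBlocks_multiply, fromBlocks_multiply]
  simp [h, hBA]

theorem hom_uM_symm (f : symplecticGroup l F →* C) (A B : Matrix l l F) (hA : A.IsSymm)
    (hB : B.IsSymm) (h : A * B = 1) (h' : Aᵀ * B = 1) : f (uM A B h') = 1 := by
  have h1 := congrArg f (w_eq A B hA hB h)
  rw [map_mul, map_mul, hom_uU, hom_uL, map_mul, one_mul, one_mul] at h1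
  have hone : (1 : Matrix l l F) * 1 = 1 := one_mul 1
  have h2 := congrArg f (w_eq (1 : Matrix l l F) 1 isSymm_one isSymm_one hone)
  rw [map_mul, map_mul, hom_uU, hom_uL, map_mul, one_mul, one_mul] at h2
  have h3 : uM (1 : Matrix l l F) 1 (by rw [isSymm_one.eq]; exact hone) = 1 := by
    apply Subtype.ext
    change fromBlocks 1 0 0 1 = (1 : Matrix (l ⊕ l) (l ⊕ l) F)
    exact fromBlocks_one
  rw [h3, map_one, one_mul] at h2
  rw [← h2, mul_one] at h1
  exact h1.symm

theorem uM_mul (A B A' B' : Matrix l l F) (h : Aᵀ * B = 1) (h' : A'ᵀ * B' = 1)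
    (h'' : (A * A')ᵀ * (B * B') = 1) :
    uM A B h * uM A' B' h' = uM (A * A') (B * B') h'' := by
  apply Subtype.ext
  change fromBlocks A 0 0 B * fromBlocks A' 0 0 B' = fromBlocks (A * A') 0 0 (B * B')
  rw [fromBlocks_multiply]
  simp

theorem hom_transvection (f : symplecticGroup l F →* C) (i j : l) (hij : i ≠ j) (c : F)
    (B : Matrix l l F) (h : (transvection i j c)ᵀ * B = 1) :
    f (uM (transvection i j c) B h) = 1 := by
  have hB : B = transvection j i (-c) := by
    have h1 : (transvection i j c)ᵀ = transvection j i c := by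
      simp [transvection, transpose_add, transpose_single]
    rw [h1] at h
    have h2 : transvection j i (-c) * transvection j i c = 1 := by
      rw [transvection_mul_transvection_same _ _ hij.symm]
      simp
    calc B = (transvection j i (-c) * transvection j i c) * B := by rw [h2, Matrix.one_mul]
      _ = transvection j i (-c) := by rw [Matrix.mul_assoc, h, Matrix.mul_one]
  subst hB
  let D : Matrix l l F := diagonal (Function.update (fun _ => (1 : F)) i 2)
  let D' : Matrix l l F := diagonal (Function.update (fun _ => (1 : F)) i 2⁻¹)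
  have hD : Dᵀ * D' = 1 := by
    simp only [D, D', diagonal_transpose, diagonal_mul_diagonal]
    rw [← diagonal_one]
    congr 1
    funext k
    by_cases hk : k = i
    · subst hk; simp
    · simp [hk]
  have h2 : (transvection i j (c + c))ᵀ * transvection j i (-(c + c)) = 1 := by
    have h1 : (transvection i j (c + c))ᵀ = transvection j i (c + c) := by
      simp [transvection, transpose_add, transpose_single]
    rw [h1, transvection_mul_transvection_same _ _ hij.symm]
    simp
  have key : uM D D' hD * uM (transvection i j c) (transvection j i (-c)) h =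
      uM (transvection i j (c + c)) (transvection j i (-(c + c))) h2 * uM D D' hD := by
    apply Subtype.ext
    change fromBlocks D 0 0 D' * fromBlocks _ 0 0 _ = fromBlocks _ 0 0 _ * fromBlocks D 0 0 D'
    rw [fromBlocks_multiply, fromBlocks_multiply]
    simp only [Matrix.mul_zero, Matrix.zero_mul, add_zero, zero_add]
    congr 1
    · have h5 : D * single i j c = single i j (c + c) * D := by
        ext a b
        simp only [D, diagonal_mul, mul_diagonal, single_apply]
        by_cases ha : i = a <;> by_cases hb : j = b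
        · subst ha; subst hb
          simp [hij.symm]; ring
        · subst ha; simp [hb]
        · subst hb; simp [ha]
        · simp [ha, hb]
      rw [transvection, transvection, Matrix.mul_add, Matrix.add_mul, Matrix.mul_one,
        Matrix.one_mul, h5]
    · have h5 : D' * single j i (-c) = single j i (-(c + c)) * D' := by
        ext a b
        simp only [D', diagonal_mul, mul_diagonal, single_apply]
        by_cases ha : j = a <;> by_cases hb : i = b
        · subst ha; subst hb
          simp [hij.symm]; ring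
        · subst ha; simp [hb]
        · subst hb; simp [ha]
        · simp [ha, hb]
      rw [transvection, transvection, Matrix.mul_add, Matrix.add_mul, Matrix.mul_one,
        Matrix.one_mul, h5]
  have h3 := congrArg f key
  rw [map_mul, map_mul, mul_comm] at h3
  have h4 := mul_right_cancel h3
  have h5 : uM (transvection i j c) (transvection j i (-c)) h *
      uM (transvection i j c) (transvection j i (-c)) h =
      uM (transvection i j (c + c)) (transvection j i (-(c + c))) h2 := by
    apply Subtype.ext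
    change fromBlocks _ 0 0 _ * fromBlocks _ 0 0 _ = fromBlocks _ 0 0 _
    rw [fromBlocks_multiply]
    simp only [Matrix.mul_zero, Matrix.zero_mul, add_zero, zero_add]
    rw [transvection_mul_transvection_same _ _ hij, transvection_mul_transvection_same _ _ hij.symm,
      neg_add]
  rw [← h5, map_mul] at h4
  exact mul_eq_left.mp h4.symm

theorem hom_uM (f : symplecticGroup l F →* C) (A B : Matrix l l F) (h : Aᵀ * B = 1) :
    f (uM A B h) = 1 := by
  have hdet : A.det ≠ 0 := by
    intro h0
    have := congrArg det h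
    rw [det_mul, det_transpose, h0, zero_mul, det_one] at this
    exact zero_ne_one this
  revert B
  refine diagonal_transvection_induction_of_det_ne_zero
    (fun A => ∀ (B : Matrix l l F) (h : Aᵀ * B = 1), f (uM A B h) = 1) A hdet ?_ ?_ ?_
  · intro D hD B h
    have hs : (diagonal D).IsSymm := diagonal_transpose D
    have hB : B.IsSymm := by
      have h1 : diagonal D * B = 1 := by rwa [hs.eq] at h
      have h2 : B = (diagonal D)⁻¹ := (inv_eq_right_inv h1).symm
      rw [h2]
      exact hs.inv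
    exact hom_uM_symm f _ B hs hB (by rwa [hs.eq] at h) h
  · rintro ⟨i, j, hij, c⟩ B h
    exact hom_transvection f i j hij c B h
  · intro A1 A2 h1 h2 hP1 hP2 B h
    have hu1 : IsUnit A1.det := isUnit_iff_ne_zero.mpr h1
    have hu2 : IsUnit A2.det := isUnit_iff_ne_zero.mpr h2
    have e1 : A1ᵀ * (A1ᵀ)⁻¹ = 1 := mul_nonsing_inv _ (by rwa [det_transpose])
    have e2 : A2ᵀ * (A2ᵀ)⁻¹ = 1 := mul_nonsing_inv _ (by rwa [det_transpose])
    have hBe : B = (A1ᵀ)⁻¹ * (A2ᵀ)⁻¹ := by
      have h3 : (A1 * A2)ᵀ * B = 1 := h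
      have h4 : B = ((A1 * A2)ᵀ)⁻¹ := (inv_eq_right_inv h3).symm
      rw [h4, transpose_mul, Matrix.mul_inv_rev]
    subst hBe
    rw [← uM_mul A1 _ A2 _ e1 e2 h, map_mul, hP1, hP2, mul_one]

/-- abstract homomorphisms from the symplectic group of a field of characteristic zero to a
commutative group are trivial -/
theorem hom_trivial (f : symplecticGroup l F →* C) (g : symplecticGroup l F) : f g = 1 := by
  obtain ⟨M, hM⟩ := g
  obtain ⟨A, B, C', D, rfl⟩ : ∃ A B C' D, M = fromBlocks A B C' D :=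
    ⟨_, _, _, _, (fromBlocks_toBlocks M).symm⟩
  have hrel := SymplecticGroup.fromBlocks_mem_iff.mp hM
  have hker : ∀ (x : l → F), (A • x = 0) → (C' • x = 0) → x = 0 := by
    intro x h1 h2
    have hdetM : IsUnit (fromBlocks A B C' D) := by
      rw [isUnit_iff_isUnit_det]
      exact SymplecticGroup.symplectic_det hM
    have hv0 : (fromBlocks A B C' D) *ᵥ (Sum.elim x 0) =
        (fromBlocks A B C' D) *ᵥ (Sum.elim 0 0) := by
      simp only [smul_eq_mulVec] at h1 h2
      simp [fromBlocks_mulVec, h1, h2]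
    exact (Sum.elim_eq_iff.1 (mulVec_injective_iff_isUnit.2 hdetM hv0)).1
  obtain ⟨X, hX, hu⟩ := exists_symm_isUnit_add_mul hker hrel.1
  set A' := A + X * C' with hA'
  set B' := B + X * D with hB'
  have hmem' : fromBlocks A' B' C' D ∈ symplecticGroup l F := by
    have h1 := (uU X hX * ⟨_, hM⟩ : symplecticGroup l F).2
    have h2 : ((uU X hX * ⟨_, hM⟩ : symplecticGroup l F) : Matrix (l ⊕ l) (l ⊕ l) F) =
        fromBlocks A' B' C' D := by
      change fromBlocks 1 X 0 1 * fromBlocks A B C' D = _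
      rw [fromBlocks_multiply]
      simp [hA', hB']
    rwa [h2] at h1
  have hrel' := SymplecticGroup.fromBlocks_mem_iff.mp hmem'
  have hud : IsUnit A'.det := (isUnit_iff_isUnit_det _).mp hu
  have hudt : IsUnit A'ᵀ.det := by rwa [det_transpose]
  have e1 : A' * A'⁻¹ = 1 := mul_nonsing_inv _ hud
  have e2 : A'⁻¹ * A' = 1 := nonsing_inv_mul _ hud
  have e3 : A'ᵀ * (A'⁻¹)ᵀ = 1 := by rw [← transpose_mul, e2, transpose_one]
  have e4 : (A'⁻¹)ᵀ * A'ᵀ = 1 := by rw [← transpose_mul, e1, transpose_one]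
  have hY : (C' * A'⁻¹).IsSymm := by
    rw [Matrix.IsSymm, transpose_mul]
    calc (A'⁻¹)ᵀ * C'ᵀ = (A'⁻¹)ᵀ * (C'ᵀ * A') * A'⁻¹ := by
          rw [Matrix.mul_assoc, Matrix.mul_assoc, e1, Matrix.mul_one]
      _ = ((A'⁻¹)ᵀ * A'ᵀ) * C' * A'⁻¹ := by
          rw [← hrel'.1]
          simp only [Matrix.mul_assoc]
      _ = C' * A'⁻¹ := by rw [e4, Matrix.one_mul]
  have hD : D = C' * A'⁻¹ * B' + (A'⁻¹)ᵀ := by
    have h1 : A'ᵀ * D = 1 + C'ᵀ * B' := by
      have := hrel'.2.2
      rw [sub_eq_iff_eq_add] at this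
      exact this
    calc D = ((A'⁻¹)ᵀ * A'ᵀ) * D := by rw [e4, Matrix.one_mul]
      _ = (A'⁻¹)ᵀ * (1 + C'ᵀ * B') := by rw [Matrix.mul_assoc, h1]
      _ = (A'⁻¹)ᵀ + ((A'⁻¹)ᵀ * C'ᵀ) * B' := by
          rw [Matrix.mul_add, Matrix.mul_one, Matrix.mul_assoc]
      _ = (A'⁻¹)ᵀ + (C' * A'⁻¹) * B' := by rw [← transpose_mul, hY.eq]
      _ = _ := by rw [add_comm]
  have hZ : (A'⁻¹ * B').IsSymm := by
    have h1 := hrel'.2.1
    rw [Matrix.IsSymm, transpose_mul]
    have h2 : B'ᵀ * D = B'ᵀ * (C' * A'⁻¹) * B' + B'ᵀ * (A'⁻¹)ᵀ := by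
      rw [hD, Matrix.mul_add, Matrix.mul_assoc, Matrix.mul_assoc, Matrix.mul_assoc]
    have h3 : Dᵀ * B' = B'ᵀ * (C' * A'⁻¹) * B' + A'⁻¹ * B' := by
      rw [hD, transpose_add, transpose_mul, hY.eq, transpose_transpose, Matrix.add_mul]
    rw [h2, h3] at h1
    exact add_left_cancel h1
  have hfac : (uU X hX * ⟨fromBlocks A B C' D, hM⟩ : symplecticGroup l F) =
      uL (C' * A'⁻¹) hY * uM A' (A'⁻¹)ᵀ e3 * uU (A'⁻¹ * B') hZ := by
    apply Subtype.ext
    change fromBlocks 1 X 0 1 * fromBlocks A B C' D =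
      fromBlocks 1 0 (C' * A'⁻¹) 1 * fromBlocks A' 0 0 (A'⁻¹)ᵀ * fromBlocks 1 (A'⁻¹ * B') 0 1
    rw [fromBlocks_multiply, fromBlocks_multiply, fromBlocks_multiply]
    simp only [Matrix.one_mul, Matrix.mul_one, Matrix.mul_zero, Matrix.zero_mul, add_zero, zero_add]
    congr 1
    · rw [← Matrix.mul_assoc, e1, Matrix.one_mul]
    · rw [Matrix.mul_assoc, e2, Matrix.mul_one]
    · rw [Matrix.mul_assoc C', e2, Matrix.mul_one, ← Matrix.mul_assoc C']
      exact hD
  have h := congrArg f hfac
  rw [map_mul, map_mul, map_mul, hom_uU, hom_uU, hom_uL, hom_uM, one_mul, one_mul, one_mul] at h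
  exact h

end field

end Pool.Agent.FC
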