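import Pool.Agent.FC.AdeleSp
import Pool.Agent.FC.SpGen

set_option linter.all false

namespace Pool.Agent.FC

open RestrictedProduct Filter Topology Matrix MeasureTheory Measure
open scoped NNReal ENNReal Pointwise

/-- real component -/
noncomputable def piR : Adele →+* ℝ := RingHom.fst _ _

/-- component at a prime -/
noncomputable def piP (q : Nat.Primes) : Adele →+* ℚ_[(q : ℕ)] where
  toFun x := x.2 q
  map_one' := rfl
  map_mul' _ _ := rfl
  map_zero' := rfl
  map_add' _ _ := rfl

theorem adele_ext {x y : Adele} (h0 : piR x = piR y) (h : ∀ q, piP q x = piP q y) : x = y := by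
  refine Prod.ext h0 (RestrictedProduct.ext _ _ fun q => h q)

theorem matAdele_ext {α β : Type*} {M N : Matrix α β Adele} (h0 : M.map piR = N.map piR)
    (h : ∀ q, M.map (piP q) = N.map (piP q)) : M = N := by
  funext i j
  exact adele_ext (congrFun (congrFun h0 i) j) fun q => congrFun (congrFun (h q) i) j

/-- the matrix with real component `M` and all finite components one -/
noncomputable def matR {n : ℕ} (M : Mat n ℝ) : Mat n Adele := fun i j =>
  (M i j, (1 : Mat n Afin) i j)

theorem matR_piR {n : ℕ} (M : Mat n ℝ) : (matR M).map piR = M := rfl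

theorem one_apply_afin {n : ℕ} (i j : Fin n ⊕ Fin n) (q : Nat.Primes) :
    ((1 : Mat n Afin) i j) q = (1 : Mat n ℚ_[(q : ℕ)]) i j := by
  rw [Matrix.one_apply, Matrix.one_apply]
  split_ifs <;> rfl

theorem matR_piP {n : ℕ} (M : Mat n ℝ) (q : Nat.Primes) : (matR M).map (piP q) = 1 := by
  ext i j
  exact one_apply_afin i j q

/-- the matrix with `p` component `M` and all other components one -/
noncomputable def matP {n : ℕ} (p : Nat.Primes) (M : Mat n ℚ_[(p : ℕ)]) : Mat n Adele := fun i j =>
  ((1 : Mat n ℝ) i j, ⟨Function.update (fun q => (1 : Mat n ℚ_[(q : ℕ)]) i j) p (M i j), by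
    rw [Filter.eventually_cofinite]
    refine (Set.finite_singleton p).subset ?_
    intro q hq
    by_contra hne
    apply hq
    rw [Function.update_of_ne hne, Matrix.one_apply]
    split_ifs
    · exact (PadicInt.subring (q : ℕ)).one_mem
    · exact (PadicInt.subring (q : ℕ)).zero_mem⟩)

theorem matP_piR {n : ℕ} (p : Nat.Primes) (M : Mat n ℚ_[(p : ℕ)]) : (matP p M).map piR = 1 := rfl

theorem matP_piP {n : ℕ} (p : Nat.Primes) (M : Mat n ℚ_[(p : ℕ)]) :
    (matP p M).map (piP p) = M := by
  funext i j
  change Function.update (fun q : Nat.Primes => (1 : Mat n ℚ_[(q : ℕ)]) i j) p (M i j) p = M i j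
  rw [Function.update_self]

theorem matP_piP_ne {n : ℕ} (p : Nat.Primes) (M : Mat n ℚ_[(p : ℕ)]) (q : Nat.Primes)
    (h : q ≠ p) : (matP p M).map (piP q) = 1 := by
  funext i j
  change Function.update (fun q : Nat.Primes => (1 : Mat n ℚ_[(q : ℕ)]) i j) p (M i j) q = _
  rw [Function.update_of_ne h]

theorem mem_sp_of_components {n : ℕ} {M : Mat n Adele}
    (h0 : M.map piR ∈ symplecticGroup (Fin n) ℝ)
    (h : ∀ q : Nat.Primes, M.map (piP q) ∈ symplecticGroup (Fin n) ℚ_[(q : ℕ)]) :
    M ∈ symplecticGroup (Fin n) Adele := by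
  rw [SymplecticGroup.mem_iff]
  apply matAdele_ext
  · rw [Matrix.map_mul, Matrix.map_mul, map_J, transpose_map]
    exact SymplecticGroup.mem_iff.mp h0
  · intro q
    rw [Matrix.map_mul, Matrix.map_mul, map_J, transpose_map]
    exact SymplecticGroup.mem_iff.mp (h q)

/-- real points inside the adelic group -/
noncomputable def iotaR (n : ℕ) : symplecticGroup (Fin n) ℝ →* GA n where
  toFun g := ⟨matR g.1, mem_sp_of_components (by rw [matR_piR]; exact g.2)
    (fun q => by rw [matR_piP]; exact one_mem _)⟩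
  map_one' := by
    apply Subtype.ext
    apply matAdele_ext
    · rw [matR_piR]; exact (Matrix.map_one piR (map_zero _) (map_one _)).symm
    · intro q
      rw [matR_piP]; exact (Matrix.map_one (piP q) (map_zero _) (map_one _)).symm
  map_mul' a b := by
    apply Subtype.ext
    apply matAdele_ext
    · simp only [Submonoid.coe_mul]
      rw [matR_piR, Matrix.map_mul, matR_piR, matR_piR]
    · intro q
      simp only [Submonoid.coe_mul]
      rw [matR_piP, Matrix.map_mul, matR_piP, matR_piP, one_mul]

/-- `p`-adic points inside the adelic group -/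
noncomputable def iotaP (n : ℕ) (p : Nat.Primes) :
    symplecticGroup (Fin n) ℚ_[(p : ℕ)] →* GA n where
  toFun g := ⟨matP p g.1, mem_sp_of_components (by rw [matP_piR]; exact one_mem _)
    (fun q => by
      by_cases h : q = p
      · subst h; rw [matP_piP]; exact g.2
      · rw [matP_piP_ne p _ q h]; exact one_mem _)⟩
  map_one' := by
    apply Subtype.ext
    apply matAdele_ext
    · rw [matP_piR]; exact (Matrix.map_one piR (map_zero _) (map_one _)).symm
    · intro q
      by_cases h : q = p
      · subst h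
        rw [matP_piP]; exact (Matrix.map_one (piP q) (map_zero _) (map_one _)).symm
      · rw [matP_piP_ne p _ q h]; exact (Matrix.map_one (piP q) (map_zero _) (map_one _)).symm
  map_mul' a b := by
    apply Subtype.ext
    apply matAdele_ext
    · simp only [Submonoid.coe_mul]
      rw [matP_piR, Matrix.map_mul, matP_piR, matP_piR, one_mul]
    · intro q
      simp only [Submonoid.coe_mul]
      by_cases h : q = p
      · subst h
        rw [matP_piP, Matrix.map_mul, matP_piP, matP_piP]
      · rw [matP_piP_ne p _ q h, Matrix.map_mul, matP_piP_ne p _ q h, matP_piP_ne p _ q h, one_mul]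

/-- component homomorphisms -/
noncomputable def prR (n : ℕ) : GA n →* symplecticGroup (Fin n) ℝ := spMap n piR
noncomputable def prP (n : ℕ) (q : Nat.Primes) : GA n →* symplecticGroup (Fin n) ℚ_[(q : ℕ)] :=
  spMap n (piP q)

theorem GA_ext {n : ℕ} {g g' : GA n} (h0 : prR n g = prR n g') (h : ∀ q, prP n q g = prP n q g') :
    g = g' := by
  apply Subtype.ext
  exact matAdele_ext (congrArg Subtype.val h0) fun q => congrArg Subtype.val (h q)

theorem prR_iotaR {n : ℕ} (g : symplecticGroup (Fin n) ℝ) : prR n (iotaR n g) = g :=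
  Subtype.ext (matR_piR g.1)

theorem prP_iotaR {n : ℕ} (g : symplecticGroup (Fin n) ℝ) (q : Nat.Primes) :
    prP n q (iotaR n g) = 1 := Subtype.ext (matR_piP g.1 q)

theorem prR_iotaP {n : ℕ} (p : Nat.Primes) (g : symplecticGroup (Fin n) ℚ_[(p : ℕ)]) :
    prR n (iotaP n p g) = 1 := Subtype.ext (matP_piR p g.1)

theorem prP_iotaP {n : ℕ} (p : Nat.Primes) (g : symplecticGroup (Fin n) ℚ_[(p : ℕ)]) :
    prP n p (iotaP n p g) = g := Subtype.ext (matP_piP p g.1)

theorem prP_iotaP_ne {n : ℕ} (p : Nat.Primes) (g : symplecticGroup (Fin n) ℚ_[(p : ℕ)])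
    (q : Nat.Primes) (h : q ≠ p) : prP n q (iotaP n p g) = 1 := Subtype.ext (matP_piP_ne p g.1 q h)

/-- the compact group of integral elements with trivial real component -/
noncomputable def KF (n : ℕ) : Subgroup (GA n) where
  carrier := {g | prR n g = 1 ∧ ∀ q i j, ‖(prP n q g).1 i j‖ ≤ 1}
  one_mem' := by
    refine ⟨map_one _, fun q i j => ?_⟩
    rw [map_one]
    change ‖(1 : Mat n ℚ_[(q : ℕ)]) i j‖ ≤ 1
    rw [Matrix.one_apply]
    split_ifs <;> simp
  mul_mem' := by
    rintro a b ⟨ha, ha'⟩ ⟨hb, hb'⟩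
    refine ⟨by rw [map_mul, ha, hb, one_mul], fun q i j => ?_⟩
    rw [map_mul]
    change ‖((prP n q a).1 * (prP n q b).1) i j‖ ≤ 1
    rw [Matrix.mul_apply]
    exact (PadicInt.subring (q : ℕ)).sum_mem fun k _ =>
      (PadicInt.subring (q : ℕ)).mul_mem (ha' q i k) (hb' q k j)
  inv_mem' := by
    rintro a ⟨ha, ha'⟩
    refine ⟨by rw [map_inv, ha, inv_one], fun q i j => ?_⟩
    rw [map_inv]
    change ‖(-J (Fin n) ℚ_[(q : ℕ)] * (prP n q a).1ᵀ * J (Fin n) ℚ_[(q : ℕ)]) i j‖ ≤ 1
    have hJ : ∀ i j, J (Fin n) ℚ_[(q : ℕ)] i j ∈ PadicInt.subring (q : ℕ) := by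
      intro i j
      rw [J]
      rcases i with i | i <;> rcases j with j | j <;>
        simp [Matrix.one_apply, Subring.zero_mem] <;> split_ifs <;>
        simp [Subring.zero_mem, Subring.one_mem, Subring.neg_mem]
    rw [Matrix.mul_apply]
    refine (PadicInt.subring (q : ℕ)).sum_mem fun k _ =>
      (PadicInt.subring (q : ℕ)).mul_mem ?_ (hJ k j)
    rw [Matrix.mul_apply]
    refine (PadicInt.subring (q : ℕ)).sum_mem fun m _ =>
      (PadicInt.subring (q : ℕ)).mul_mem ?_ (ha' q k m)
    exact (PadicInt.subring (q : ℕ)).neg_mem (hJ i m)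

theorem prP_apply {n : ℕ} (g : GA n) (q : Nat.Primes) (i j) :
    (prP n q g).1 i j = (g.1 i j).2 q := rfl

theorem isCompact_KF (n : ℕ) : IsCompact (KF n : Set (GA n)) := by
  have hc : Topology.IsClosedEmbedding (Subtype.val : GA n → Mat n Adele) :=
    (isClosed_symplectic (l := Fin n) (R := Adele)).isClosedEmbedding_subtypeVal
  have hK : (KF n : Set (GA n)) = Subtype.val ⁻¹'
      (Set.univ.pi fun i : (Fin n ⊕ Fin n) => Set.univ.pi fun j : (Fin n ⊕ Fin n) =>
        (({(1 : Mat n ℝ) i j} : Set ℝ) ×ˢ OF : Set Adele)) := by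
    ext g
    constructor
    · rintro ⟨h1, h2⟩ i _ j _
      refine ⟨?_, fun q => h2 q i j⟩
      exact congrFun (congrFun (congrArg Subtype.val h1) i) j
    · intro h
      refine ⟨?_, fun q i j => (h i trivial j trivial).2 q⟩
      apply Subtype.ext
      funext i j
      exact (h i trivial j trivial).1
  rw [hK]
  refine hc.isCompact_preimage ?_
  exact isCompact_univ_pi fun i => isCompact_univ_pi fun j => isCompact_singleton.prod isCompact_OF

theorem finite_bad {n : ℕ} (g : GA n) : {q : Nat.Primes | ¬ ∀ i j, ‖(prP n q g).1 i j‖ ≤ 1}.Finite := by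
  have h1 : {q : Nat.Primes | ¬ ∀ i j, ‖(prP n q g).1 i j‖ ≤ 1} ⊆
      ⋃ i, ⋃ j, {q : Nat.Primes | ¬ ‖(g.1 i j).2 q‖ ≤ 1} := by
    intro q hq
    simp only [Set.mem_setOf_eq, not_forall] at hq
    obtain ⟨i, j, h⟩ := hq
    exact Set.mem_iUnion.mpr ⟨i, Set.mem_iUnion.mpr ⟨j, h⟩⟩
  refine (Set.finite_iUnion fun i => Set.finite_iUnion fun j => ?_).subset h1
  exact (g.1 i j).2.2

/-- a homomorphism of the adelic group to a commutative group which is trivial on the integral
elements is trivial -/
theorem hom_trivial_GA {n : ℕ} {C : Type*} [CommGroup C] (f : GA n →* C)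
    (hf : ∀ k ∈ KF n, f k = 1) (g : GA n) : f g = 1 := by
  classical
  have key : ∀ (S : Finset Nat.Primes) (g : GA n), prR n g = 1 →
      (∀ q, q ∉ S → ∀ i j, ‖(prP n q g).1 i j‖ ≤ 1) → f g = 1 := by
    intro S
    induction S using Finset.induction_on with
    | empty =>
      intro g h0 h1
      exact hf g ⟨h0, fun q => h1 q (Finset.notMem_empty q)⟩
    | insert p S hp ih =>
      intro g h0 h1
      have h2 : f ((iotaP n p (prP n p g))⁻¹ * g) = 1 := by
        refine ih _ ?_ ?_
        · rw [map_mul, map_inv, prR_iotaP, h0, inv_one, one_mul]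
        · intro q hq i j
          by_cases hqp : q = p
          · subst hqp
            rw [map_mul, map_inv, prP_iotaP, inv_mul_cancel]
            exact (one_mem (KF n)).2 q i j |>.trans_eq' (by rw [map_one])
          · rw [map_mul, map_inv, prP_iotaP_ne p _ q hqp, inv_one, one_mul]
            exact h1 q (by simp [hqp, hq]) i j
      rw [map_mul, map_inv] at h2
      have h3 : f (iotaP n p (prP n p g)) = 1 := hom_trivial (f.comp (iotaP n p)) (prP n p g)
      rwa [h3, inv_one, one_mul] at h2
  have h2 : f ((iotaR n (prR n g))⁻¹ * g) = 1 := by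
    refine key (finite_bad g).toFinset _ ?_ ?_
    · rw [map_mul, map_inv, prR_iotaR, inv_mul_cancel]
    · intro q hq
      rw [map_mul, map_inv, prP_iotaR, inv_one, one_mul]
      by_contra hcon
      exact hq (by rw [Set.Finite.mem_toFinset]; exact hcon)
  rw [map_mul, map_inv] at h2
  have h3 : f (iotaR n (prR n g)) = 1 := hom_trivial (f.comp (iotaR n)) (prR n g)
  rwa [h3, inv_one, one_mul] at h2

section general

variable {G : Type*} [Group G] [TopologicalSpace G] [IsTopologicalGroup G] [LocallyCompactSpace G]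
  [T2Space G] [SecondCountableTopology G] [MeasurableSpace G] [BorelSpace G]

theorem modular_eq_one_of_compact (K : Subgroup G) (hK : IsCompact (K : Set G)) (k : G)
    (hk : k ∈ K) : modularCharacterFun k = 1 := by
  let μ : Measure G := haar
  obtain ⟨W, hW, hW1⟩ := exists_compact_mem_nhds (1 : G)
  let E : Set G := W * (K : Set G)
  have hE : IsCompact E := hW.mul hK
  have hE1 : E ∈ 𝓝 (1 : G) := by
    refine mem_of_superset hW1 ?_
    intro x hx
    exact ⟨x, hx, 1, K.one_mem, mul_one x⟩
  have hμE : μ E ≠ 0 := (measure_pos_of_mem_nhds μ hE1).ne'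
  have hμE' : μ E ≠ ∞ := hE.measure_lt_top.ne
  have hpre : (fun x => x * k) ⁻¹' E = E := by
    ext x
    constructor
    · rintro ⟨w, hw, k', hk', h⟩
      refine ⟨w, hw, k' * k⁻¹, K.mul_mem hk' (K.inv_mem hk), ?_⟩
      simp only at h ⊢
      rw [← mul_assoc, h, mul_inv_cancel_right]
    · rintro ⟨w, hw, k', hk', h⟩
      refine ⟨w, hw, k' * k, K.mul_mem hk' hk, ?_⟩
      simp only at h ⊢
      rw [← mul_assoc, h]
  have h := congrArg (fun ν : Measure G => ν E) (map_right_mul_eq_modularCharacterFun_smul μ k)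
  beta_reduce at h
  rw [Measure.map_apply (measurable_mul_const k) hE.measurableSet, hpre] at h
  rw [Measure.smul_apply, ENNReal.smul_def, smul_eq_mul] at h
  have h2 : (modularCharacterFun k : ℝ≥0∞) = 1 := by
    have h3 : (modularCharacterFun k : ℝ≥0∞) * μ E = 1 * μ E := by rw [one_mul]; exact h.symm
    exact (ENNReal.mul_left_inj hμE hμE').mp h3
  exact_mod_cast h2

theorem isMulRightInvariant_of_modular (h : ∀ g : G, modularCharacterFun g = 1)
    (μ : Measure G) [IsHaarMeasure μ] : μ.IsMulRightInvariant := by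
  constructor
  intro g
  rw [map_right_mul_eq_modularCharacterFun_smul μ g, h g, one_smul]

theorem isInvInvariant_of_modular (μ : Measure G) [IsHaarMeasure μ] [μ.IsMulRightInvariant] :
    μ.IsInvInvariant := by
  constructor
  have h1 : μ.inv.IsMulLeftInvariant := inferInstance
  have h2 : μ.inv = haarScalarFactor μ.inv μ • μ := isMulLeftInvariant_eq_smul μ.inv μ
  obtain ⟨W, hW, hW1⟩ := exists_compact_mem_nhds (1 : G)
  let E : Set G := W ∪ W⁻¹
  have hE : IsCompact E := hW.union hW.inv
  have hμE : μ E ≠ 0 := (measure_pos_of_mem_nhds μ (mem_of_superset hW1 Set.subset_union_left)).ne'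
  have hμE' : μ E ≠ ∞ := hE.measure_lt_top.ne
  have hinv : E⁻¹ = E := by
    simp only [E, Set.union_inv, inv_inv]
    exact Set.union_comm _ _
  have h3 := congrArg (fun ν : Measure G => ν E) h2
  beta_reduce at h3
  rw [Measure.inv_apply, hinv, Measure.smul_apply, ENNReal.smul_def, smul_eq_mul] at h3
  have h4 : ((haarScalarFactor μ.inv μ : ℝ≥0) : ℝ≥0∞) = 1 := by
    have h3 : ((haarScalarFactor μ.inv μ : ℝ≥0) : ℝ≥0∞) * μ E = 1 * μ E := by
      rw [one_mul]; exact h3.symm
    exact (ENNReal.mul_left_inj hμE hμE').mp h3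
  have h5 : haarScalarFactor μ.inv μ = 1 := by exact_mod_cast h4
  rw [h5, one_smul] at h2
  exact h2

end general

theorem modular_GA {n : ℕ} (g : GA n) : modularCharacterFun g = 1 := by
  have h1 := hom_trivial_GA (n := n) ((modularCharacter (G := GA n)).toHomUnits) ?_ g
  · exact congrArg Units.val h1
  · intro k hk
    apply Units.ext
    exact modular_eq_one_of_compact (KF n) (isCompact_KF n) k hk

/-- Haar measures of the adelic symplectic group are right invariant -/
instance rightInvariant_GA (n : ℕ) (μ : Measure (GA n)) [IsHaarMeasure μ] :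
    μ.IsMulRightInvariant := isMulRightInvariant_of_modular modular_GA μ

/-- Haar measures of the adelic symplectic group are inversion invariant -/
instance invInvariant_GA (n : ℕ) (μ : Measure (GA n)) [IsHaarMeasure μ] :
    μ.IsInvInvariant := isInvInvariant_of_modular μ

end Pool.Agent.FC
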