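import Pool.Agent.FC.Base
import Pool.Agent.FC.Unimod

/-!
# FC: short vectors
-/

open RestrictedProduct Matrix MeasureTheory Topology

noncomputable section

namespace Pool.Agent.FC

/-- The lattice of `x` (rational vectors `v` with `x_p v` integral for all `p`) contains a nonzero
vector `v` with `|x_∞ v|² < ε`. -/
def HasShort {n : ℕ} (x : GA n) (ε : ℝ) : Prop :=
  ∃ v : Fin n ⊕ Fin n → ℚ, v ≠ 0 ∧
    (∀ (p : Nat.Primes) i, ‖(gp x p *ᵥ fun j => ((v j : ℚ) : ℚ_[(p : ℕ)])) i‖ ≤ 1) ∧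
    (gR x *ᵥ fun j => ((v j : ℚ) : ℝ)) ⬝ᵥ (gR x *ᵥ fun j => ((v j : ℚ) : ℝ)) < ε

end Pool.Agent.FC
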