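import Pool.Agent.FC.CuspC
import Pool.Agent.FC.Short

/-!
# FC: the unipotent element at a cusp, topological form
-/

open RestrictedProduct Matrix MeasureTheory Topology

noncomputable section

namespace Pool.Agent.FC

theorem exists_entry_bound {n : ℕ} {W : Set (symplecticGroup (Fin n) ℝ)} (hW : W ∈ 𝓝 1) :
    ∃ η : ℝ, 0 < η ∧ ∀ x : symplecticGroup (Fin n) ℝ,
      (∀ i j, |((x : Mat n ℝ) - 1) i j| < η) → x ∈ W := by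
  rw [nhds_subtype_eq_comap, Filter.mem_comap] at hW
  obtain ⟨U, hU, hUW⟩ := hW
  have hU' : (U : Set (Fin n ⊕ Fin n → Fin n ⊕ Fin n → ℝ)) ∈
      @nhds (Fin n ⊕ Fin n → Fin n ⊕ Fin n → ℝ) _
        (fun i j => ((1 : symplecticGroup (Fin n) ℝ) : Mat n ℝ) i j) := hU
  obtain ⟨η, hη, hb⟩ := Metric.mem_nhds_iff.1 hU'
  refine ⟨η, hη, fun x hx => hUW (hb ?_)⟩
  change (fun i j => (x : Mat n ℝ) i j) ∈ Metric.ball (fun i j =>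
    ((1 : symplecticGroup (Fin n) ℝ) : Mat n ℝ) i j : Fin n ⊕ Fin n → Fin n ⊕ Fin n → ℝ) η
  rw [Metric.mem_ball, dist_pi_lt_iff hη]
  intro i
  rw [dist_pi_lt_iff hη]
  intro j
  rw [Real.dist_eq]
  exact hx i j

theorem exists_cusp_element {ψ : AddChar Adele Circle} (hψ : IsStd ψ)
    {W : Set (symplecticGroup (Fin 6) ℝ)} (hW : W ∈ 𝓝 1) :
    ∃ ε : ℝ, 0 < ε ∧ ∀ x : GA 6, HasShort x ε → ∃ γ ∈ GQ 6,
      x * γ * x⁻¹ ∈ USet ∧ chi ψ (x * γ * x⁻¹) ≠ 1 ∧ prR 6 (x * γ * x⁻¹) ∈ W := by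
  obtain ⟨η, hη, hWη⟩ := exists_entry_bound hW
  obtain ⟨ε, hε, h⟩ := cuspC ψ hψ η hη
  refine ⟨ε, hε, fun x ⟨v, hv, hvL, hvε⟩ => ?_⟩
  obtain ⟨ν, hν, hU, -, h1, -, hη'⟩ := h x ⟨v, hv, hvL, by
    refine lt_of_eq_of_lt ?_ hvε
    unfold nr dotProduct
    exact Finset.sum_congr rfl fun i _ => sq _⟩
  exact ⟨ν, hν, hU, h1, hWη _ hη'⟩

end Pool.Agent.FC
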