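import Pool.Agent.FC.Base
import Pool.Agent.FC.AdeleSp
import Pool.Agent.FC.AdeleBasic

/-!
# FC: Mahler compactness, the compact set
-/

open RestrictedProduct Matrix MeasureTheory Topology

noncomputable section

namespace Pool.Agent.FC

theorem mah_box (n : ℕ) (B : ℝ) (δ₀ : Matrix (Fin n ⊕ Fin n) (Fin (n + n)) ℚ)
    (δ₀' : Matrix (Fin (n + n)) (Fin n ⊕ Fin n) ℚ) (h : δ₀ * δ₀' = 1) :
    ∃ K : Set (GA n), IsCompact K ∧ ∀ k : GA n,
      (∀ (p : Nat.Primes) i j, ‖(gp k p * δ₀.map (Rat.cast : ℚ → ℚ_[(p : ℕ)])) i j‖ ≤ 1) →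
      (∀ i j, |(gR k * δ₀.map (Rat.cast : ℚ → ℝ)) i j| ≤ B) → k ∈ K := by
  set C : Set Adele := Set.Icc (-B) B ×ˢ OF with hC
  have hCc : IsCompact C := isCompact_Icc.prod isCompact_OF
  set Box : Set (Matrix (Fin n ⊕ Fin n) (Fin (n + n)) Adele) :=
    Set.pi Set.univ (fun _ => Set.pi Set.univ fun _ => C) with hBox
  have hBoxc : IsCompact Box := isCompact_univ_pi fun _ => isCompact_univ_pi fun _ => hCc
  have hf : Continuous fun M : Matrix (Fin n ⊕ Fin n) (Fin (n + n)) Adele =>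
      M * δ₀'.map ratAdele := Continuous.matrix_mul continuous_id continuous_const
  refine ⟨Subtype.val ⁻¹' ((fun M : Matrix (Fin n ⊕ Fin n) (Fin (n + n)) Adele =>
      M * δ₀'.map ratAdele) '' Box),
    isClosed_symplectic.isClosedEmbedding_subtypeVal.isCompact_preimage (hBoxc.image hf), ?_⟩
  intro k hp hR
  refine ⟨(k : Mat n Adele) * δ₀.map ratAdele, ?_, ?_⟩
  · intro i _ j _
    refine ⟨?_, ?_⟩
    · have h1 : ((k : Mat n Adele) * δ₀.map ratAdele).map evR =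
          gR k * δ₀.map (Rat.cast : ℚ → ℝ) := by
        rw [Matrix.map_mul]
        rfl
      have h2 : (((k : Mat n Adele) * δ₀.map ratAdele) i j).1 =
          (gR k * δ₀.map (Rat.cast : ℚ → ℝ)) i j := congrFun (congrFun h1 i) j
      rw [h2]
      exact abs_le.1 (hR i j)
    · intro p
      have h1 : ((k : Mat n Adele) * δ₀.map ratAdele).map (evp p) =
          gp k p * δ₀.map (Rat.cast : ℚ → ℚ_[(p : ℕ)]) := by
        rw [Matrix.map_mul]
        rfl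
      have h2 : (((k : Mat n Adele) * δ₀.map ratAdele) i j).2 p =
          (gp k p * δ₀.map (Rat.cast : ℚ → ℚ_[(p : ℕ)])) i j := congrFun (congrFun h1 i) j
      show ‖(((k : Mat n Adele) * δ₀.map ratAdele) i j).2 p‖ ≤ 1
      rw [h2]
      exact hp p i j
  · simp only
    rw [Matrix.mul_assoc, ← Matrix.map_mul, h, Matrix.map_one _ (map_zero _) (map_one _),
      Matrix.mul_one]

/-- transport by a rational symplectic matrix -/
theorem mah_transport {n : ℕ} (x : GA n) {δ δ₁ : Matrix (Fin n ⊕ Fin n) (Fin (n + n)) ℚ}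
    {δ' : Matrix (Fin (n + n)) (Fin n ⊕ Fin n) ℚ} (h1 : δ * δ' = 1) (h2 : δ' * δ = 1)
    (hJ : δᵀ * J (Fin n) ℚ * δ = δ₁ᵀ * J (Fin n) ℚ * δ₁) :
    ∃ k : GA n, (∃ γ ∈ GQ n, x = k * γ) ∧
      (∀ p : Nat.Primes, gp k p * δ₁.map (Rat.cast : ℚ → ℚ_[(p : ℕ)]) =
        gp x p * δ.map (Rat.cast : ℚ → ℚ_[(p : ℕ)])) ∧
      gR k * δ₁.map (Rat.cast : ℚ → ℝ) = gR x * δ.map (Rat.cast : ℚ → ℝ) := by
  have hg : δ₁ * δ' ∈ symplecticGroup (Fin n) ℚ := by
    rw [SymplecticGroup.mem_iff']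
    calc (δ₁ * δ')ᵀ * J (Fin n) ℚ * (δ₁ * δ') = δ'ᵀ * (δ₁ᵀ * J (Fin n) ℚ * δ₁) * δ' := by
          simp only [Matrix.transpose_mul, Matrix.mul_assoc]
      _ = (δ * δ')ᵀ * J (Fin n) ℚ * (δ * δ') := by
          rw [← hJ]
          simp only [Matrix.transpose_mul, Matrix.mul_assoc]
      _ = J (Fin n) ℚ := by
          rw [h1, Matrix.transpose_one, Matrix.one_mul, Matrix.mul_one]
  have hd : δ₁ = (δ₁ * δ') * δ := by rw [Matrix.mul_assoc, h2, Matrix.mul_one]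
  set γ : GA n := spMap n ratAdele ⟨δ₁ * δ', hg⟩ with hγ
  have hx : (x * γ⁻¹) * γ = x := inv_mul_cancel_right x γ
  have hx' : (((x * γ⁻¹ : GA n)) : Mat n Adele) * (γ : Mat n Adele) = (x : Mat n Adele) := by
    rw [← Submonoid.coe_mul, hx]
  refine ⟨x * γ⁻¹, ⟨γ, ⟨_, rfl⟩, hx.symm⟩, fun p => ?_, ?_⟩
  · have e1 : gp (x * γ⁻¹) p * (δ₁ * δ').map (Rat.cast : ℚ → ℚ_[(p : ℕ)]) = gp x p := by
      have := congrArg (fun M : Mat n Adele => M.map (evp p)) hx'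
      simp only [Matrix.map_mul] at this
      exact this
    conv_lhs => rw [hd]
    have e2 : ((δ₁ * δ') * δ).map (Rat.cast : ℚ → ℚ_[(p : ℕ)]) =
        (δ₁ * δ').map (Rat.cast : ℚ → ℚ_[(p : ℕ)]) * δ.map (Rat.cast : ℚ → ℚ_[(p : ℕ)]) :=
      Matrix.map_mul (f := Rat.castHom ℚ_[(p : ℕ)])
    rw [e2, ← Matrix.mul_assoc, e1]
  · have e1 : gR (x * γ⁻¹) * (δ₁ * δ').map (Rat.cast : ℚ → ℝ) = gR x := by
      have := congrArg (fun M : Mat n Adele => M.map evR) hx'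
      simp only [Matrix.map_mul] at this
      exact this
    conv_lhs => rw [hd]
    have e2 : ((δ₁ * δ') * δ).map (Rat.cast : ℚ → ℝ) =
        (δ₁ * δ').map (Rat.cast : ℚ → ℝ) * δ.map (Rat.cast : ℚ → ℝ) :=
      Matrix.map_mul (f := Rat.castHom ℝ)
    rw [e2, ← Matrix.mul_assoc, e1]

end Pool.Agent.FC
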