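import Pool.Agent.FC.AdeleBasic

/-!
`GL_n(𝔸_f) = GL_n(ℤ^) GL_n(ℚ)` (project FC).
-/

namespace Pool.Agent.FC

open RestrictedProduct Matrix

namespace GLfin

/-- component at `p` of a finite adele -/
noncomputable def ev (p : Nat.Primes) : Afin →+* ℚ_[(p : ℕ)] :=
  RestrictedProduct.evalRingHom (fun p : Nat.Primes => ℚ_[(p : ℕ)]) p

theorem ev_apply (p : Nat.Primes) (x : Afin) : ev p x = x p := rfl

theorem ev_ratFin (p : Nat.Primes) (q : ℚ) : ev p (ratFin q) = (q : ℚ_[(p : ℕ)]) := rfl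

/-- common denominators -/
theorem exists_den (x : Afin) : ∃ N : ℕ, 0 < N ∧ ∀ p : Nat.Primes,
    ‖(N : ℚ_[(p : ℕ)]) * x p‖ ≤ 1 := by
  obtain ⟨q, hq⟩ := exists_rat_sub_mem_OF x
  refine ⟨q.den, q.den_pos, fun p => ?_⟩
  have h1 : ‖x p - (q : ℚ_[(p : ℕ)])‖ ≤ 1 := hq p
  have h2 : (q.den : ℚ_[(p : ℕ)]) * x p =
      (q.den : ℚ_[(p : ℕ)]) * (x p - (q : ℚ_[(p : ℕ)])) + (q.num : ℚ_[(p : ℕ)]) := by
    have h3 : (q.den : ℚ_[(p : ℕ)]) * (q : ℚ_[(p : ℕ)]) = (q.num : ℚ_[(p : ℕ)]) := by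
      have h4 : (q.den : ℚ) * q = q.num := Rat.den_mul_eq_num q
      exact_mod_cast congrArg (fun z : ℚ => (z : ℚ_[(p : ℕ)])) h4
    rw [mul_sub, h3]
    ring
  rw [h2]
  have h5 : ‖(q.den : ℚ_[(p : ℕ)])‖ ≤ 1 := IsUltrametricDist.norm_natCast_le_one _ _
  have h6 : ‖(q.num : ℚ_[(p : ℕ)])‖ ≤ 1 := IsUltrametricDist.norm_intCast_le_one _ _
  refine (IsUltrametricDist.norm_add_le_max _ _).trans (max_le ?_ h6)
  rw [norm_mul]
  exact mul_le_one₀ h5 (norm_nonneg _) h1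

variable {ι : Type*} [Fintype ι]

theorem exists_den_matrix (X : Matrix ι ι Afin) : ∃ N : ℕ, 0 < N ∧ ∀ (p : Nat.Primes) (i j : ι),
    ‖(N : ℚ_[(p : ℕ)]) * X i j p‖ ≤ 1 := by
  choose N hN hN2 using fun i j => exists_den (X i j)
  refine ⟨∏ i, ∏ j, N i j, Finset.prod_pos fun i _ => Finset.prod_pos fun j _ => hN i j, ?_⟩
  intro p i j
  have h1 : N i j ∣ ∏ i, ∏ j, N i j :=
    (Finset.dvd_prod_of_mem (fun j => N i j) (Finset.mem_univ j)).trans
      (Finset.dvd_prod_of_mem (fun i => ∏ j, N i j) (Finset.mem_univ i))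
  obtain ⟨c, hc⟩ := h1
  rw [hc]
  push_cast
  have h2 : ((N i j : ℚ_[(p : ℕ)]) * (c : ℚ_[(p : ℕ)])) * X i j p =
      (c : ℚ_[(p : ℕ)]) * ((N i j : ℚ_[(p : ℕ)]) * X i j p) := by ring
  rw [h2, norm_mul]
  exact mul_le_one₀ (IsUltrametricDist.norm_natCast_le_one _ _) (norm_nonneg _) (hN2 i j p)

/-- integral matrices over `ℚ_p` -/
def Int (p : Nat.Primes) (M : Matrix ι ι ℚ_[(p : ℕ)]) : Prop := ∀ i j, ‖M i j‖ ≤ 1

omit [Fintype ι] in
theorem Int.lift {p : Nat.Primes} {M : Matrix ι ι ℚ_[(p : ℕ)]} (h : Int p M) :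
    ∃ M' : Matrix ι ι ℤ_[(p : ℕ)], M'.map (PadicInt.Coe.ringHom : ℤ_[(p : ℕ)] →+* _) = M :=
  ⟨Matrix.of fun i j => ⟨M i j, h i j⟩, by ext i j; rfl⟩

omit [Fintype ι] in
theorem int_map {p : Nat.Primes} (M' : Matrix ι ι ℤ_[(p : ℕ)]) :
    Int p (M'.map (PadicInt.Coe.ringHom : ℤ_[(p : ℕ)] →+* _)) := fun i j => (M' i j).2

variable [DecidableEq ι]

theorem Int.det_le {p : Nat.Primes} {M : Matrix ι ι ℚ_[(p : ℕ)]} (h : Int p M) :
    ‖M.det‖ ≤ 1 := by
  obtain ⟨M', rfl⟩ := h.lift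
  have := (PadicInt.Coe.ringHom : ℤ_[(p : ℕ)] →+* _).map_det M'
  rw [RingHom.mapMatrix_apply] at this
  rw [← this]
  exact (M'.det).2

theorem Int.mul {p : Nat.Primes} {M M' : Matrix ι ι ℚ_[(p : ℕ)]} (h : Int p M) (h' : Int p M') :
    Int p (M * M') := by
  obtain ⟨A, rfl⟩ := h.lift
  obtain ⟨B, rfl⟩ := h'.lift
  rw [← Matrix.map_mul]
  exact int_map _

/-- the inverse of an integral matrix with unit determinant -/
theorem Int.inv {p : Nat.Primes} {M W : Matrix ι ι ℚ_[(p : ℕ)]} (h : Int p M)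
    (hd : ‖M.det‖ = 1) (hW : M * W = 1) : Int p W := by
  obtain ⟨A, rfl⟩ := h.lift
  have h1 := (PadicInt.Coe.ringHom : ℤ_[(p : ℕ)] →+* _).map_det A
  rw [RingHom.mapMatrix_apply] at h1
  rw [← h1] at hd
  have h2 : IsUnit A.det := PadicInt.isUnit_iff.2 hd
  have h3 : A * A⁻¹ = 1 := Matrix.mul_nonsing_inv A h2
  have h4 : (A.map (PadicInt.Coe.ringHom : ℤ_[(p : ℕ)] →+* _)) *
      (A⁻¹.map (PadicInt.Coe.ringHom : ℤ_[(p : ℕ)] →+* _)) = 1 := by
    rw [← Matrix.map_mul, h3, Matrix.map_one _ (map_zero _) (map_one _)]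
  have h5 : W = A⁻¹.map (PadicInt.Coe.ringHom : ℤ_[(p : ℕ)] →+* _) := by
    have h6 := mul_eq_one_comm.1 h4
    calc W = (A⁻¹.map (PadicInt.Coe.ringHom : ℤ_[(p : ℕ)] →+* _) *
        A.map (PadicInt.Coe.ringHom : ℤ_[(p : ℕ)] →+* _)) * W := by rw [h6, Matrix.one_mul]
      _ = _ := by rw [Matrix.mul_assoc, hW, Matrix.mul_one]
  rw [h5]
  exact int_map _

/-- a kernel vector modulo `p` -/
theorem exists_ker {p : Nat.Primes} {M : Matrix ι ι ℚ_[(p : ℕ)]} (h : Int p M)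
    (hd : ‖M.det‖ < 1) : ∃ (i : ι) (v : ι → ℤ), v i = 1 ∧
      ∀ j, ‖(M *ᵥ fun k => (v k : ℚ_[(p : ℕ)])) j‖ ≤ (p : ℝ)⁻¹ := by
  obtain ⟨A, rfl⟩ := h.lift
  have h1 := (PadicInt.Coe.ringHom : ℤ_[(p : ℕ)] →+* _).map_det A
  rw [RingHom.mapMatrix_apply] at h1
  rw [← h1] at hd
  have hd' : ‖A.det‖ < 1 := hd
  have hz : ∀ a : ℤ_[(p : ℕ)], PadicInt.toZMod a = 0 ↔ ‖a‖ ≤ ((p : ℕ) : ℝ)⁻¹ := by
    intro a
    have e1 : PadicInt.toZMod a = 0 ↔ a ∈ RingHom.ker (PadicInt.toZMod (p := (p : ℕ))) :=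
      (RingHom.mem_ker).symm
    rw [e1, PadicInt.ker_toZMod, PadicInt.maximalIdeal_eq_span_p]
    have e2 := PadicInt.norm_le_pow_iff_mem_span_pow a 1
    rw [pow_one] at e2
    rw [← e2]
    simp
  have h2 : (A.map (PadicInt.toZMod (p := (p : ℕ)))).det = 0 := by
    have h3 := (PadicInt.toZMod (p := (p : ℕ))).map_det A
    rw [RingHom.mapMatrix_apply] at h3
    rw [← h3, ← RingHom.mem_ker, PadicInt.ker_toZMod, IsLocalRing.mem_maximalIdeal,
      PadicInt.mem_nonunits]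
    exact hd'
  obtain ⟨w, hw, hAw⟩ := Matrix.exists_mulVec_eq_zero_iff.2 h2
  obtain ⟨i, hi⟩ : ∃ i, w i ≠ 0 := by
    by_contra hn
    push Not at hn
    exact hw (funext hn)
  have hp1 : Fact (1 < (p : ℕ)) := ⟨p.2.one_lt⟩
  refine ⟨i, fun k => ((w k * (w i)⁻¹).val : ℤ), ?_, fun j => ?_⟩
  · show (((w i * (w i)⁻¹).val : ℕ) : ℤ) = 1
    rw [mul_inv_cancel₀ hi, ZMod.val_one]
    rfl
  · have h4 : ∑ k, A j k * ((((w k * (w i)⁻¹).val : ℕ) : ℤ_[(p : ℕ)])) ∈
        {a : ℤ_[(p : ℕ)] | PadicInt.toZMod a = 0} := by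
      show PadicInt.toZMod _ = 0
      rw [map_sum]
      have h5 : ∀ k, PadicInt.toZMod (A j k * ((((w k * (w i)⁻¹).val : ℕ) : ℤ_[(p : ℕ)]))) =
          PadicInt.toZMod (A j k) * w k * (w i)⁻¹ := by
        intro k
        rw [map_mul, map_natCast, ZMod.natCast_val, ZMod.cast_id', id, mul_assoc]
      simp only [h5]
      rw [← Finset.sum_mul]
      have h6 : ∑ k, PadicInt.toZMod (A j k) * w k = 0 := congrFun hAw j
      rw [h6, zero_mul]
    have h7 := (hz _).1 h4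
    have h8 : (A.map (PadicInt.Coe.ringHom : ℤ_[(p : ℕ)] →+* _) *ᵥ
        fun k => ((((w k * (w i)⁻¹).val : ℤ)) : ℚ_[(p : ℕ)])) j =
        ((∑ k, A j k * ((((w k * (w i)⁻¹).val : ℕ) : ℤ_[(p : ℕ)])) : ℤ_[(p : ℕ)]) :
          ℚ_[(p : ℕ)]) := by
      show ∑ k, (A j k : ℚ_[(p : ℕ)]) * ((((w k * (w i)⁻¹).val : ℤ)) : ℚ_[(p : ℕ)]) = _
      rw [PadicInt.coe_sum]
      refine Finset.sum_congr rfl fun k _ => ?_
      rw [PadicInt.coe_mul, PadicInt.coe_natCast, Int.cast_natCast]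
    rw [h8]
    exact h7

/-- rational numbers integral at every prime -/
theorem exists_int (q : ℚ) (h : ∀ p : Nat.Primes, ‖(q : ℚ_[(p : ℕ)])‖ ≤ 1) :
    ∃ z : ℤ, (z : ℚ) = q := by
  have h1 := isInt_of_padic q h
  refine ⟨q.num, ?_⟩
  conv_rhs => rw [← Rat.num_div_den q, h1]
  simp

/-- **`GL_n(𝔸_f) = GL_n(ℤ^) GL_n(ℚ)`.** -/
theorem exists_glob (X Y : Matrix ι ι Afin) (hXY : X * Y = 1) :
    ∃ δ δ' : Matrix ι ι ℚ, δ * δ' = 1 ∧ (∀ p i j, ‖(X * δ.map ratFin) i j p‖ ≤ 1) ∧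
      (∀ p i j, ‖(δ'.map ratFin * Y) i j p‖ ≤ 1) := by
  obtain ⟨N, hN, hNX⟩ := exists_den_matrix X
  obtain ⟨D, hD, hDY⟩ := exists_den Y.det
  let cX : ∀ p : Nat.Primes, Matrix ι ι ℚ_[(p : ℕ)] := fun p => X.map (ev p)
  let cd : ∀ p : Nat.Primes, Matrix ι ι ℚ → Matrix ι ι ℚ_[(p : ℕ)] :=
    fun p δ => δ.map (Rat.cast : ℚ → ℚ_[(p : ℕ)])
  have hcomp : ∀ (p : Nat.Primes) (δ : Matrix ι ι ℚ),
      (X * δ.map ratFin).map (ev p) = cX p * cd p δ := by
    intro p δ
    rw [Matrix.map_mul, Matrix.map_map]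
    rfl
  -- the product formula in the form needed
  have hint : ∀ δ : Matrix ι ι ℚ, (∀ p, Int p (cX p * cd p δ)) →
      ∃ z : ℤ, (z : ℚ) = D * δ.det := by
    intro δ hδ
    refine exists_int _ fun p => ?_
    have h1 : ev p X.det * ev p Y.det = 1 := by
      rw [← map_mul, ← Matrix.det_mul, hXY, Matrix.det_one, map_one]
    have h2 : (cX p).det = ev p X.det := by
      have := (ev p).map_det X
      rw [RingHom.mapMatrix_apply] at this
      exact this.symm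
    have h3 : (cd p δ).det = ((δ.det : ℚ) : ℚ_[(p : ℕ)]) := by
      have := (Rat.castHom ℚ_[(p : ℕ)]).map_det δ
      rw [RingHom.mapMatrix_apply] at this
      exact this.symm
    have h4 := (hδ p).det_le
    rw [Matrix.det_mul, h2, h3] at h4
    have h5 : (((D * δ.det : ℚ)) : ℚ_[(p : ℕ)]) =
        ((D : ℚ_[(p : ℕ)]) * ev p Y.det) * (ev p X.det * ((δ.det : ℚ) : ℚ_[(p : ℕ)])) := by
      rw [Rat.cast_mul, Rat.cast_natCast]
      calc (D : ℚ_[(p : ℕ)]) * ((δ.det : ℚ) : ℚ_[(p : ℕ)]) =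
          (D : ℚ_[(p : ℕ)]) * (ev p X.det * ev p Y.det) * ((δ.det : ℚ) : ℚ_[(p : ℕ)]) := by
            rw [h1, mul_one]
        _ = _ := by ring
    rw [h5, norm_mul]
    exact mul_le_one₀ (hDY p) (norm_nonneg _) h4
  -- descent
  have hdesc : ∀ (n : ℕ) (δ : Matrix ι ι ℚ) (z : ℤ), (∀ p, Int p (cX p * cd p δ)) →
      δ.det ≠ 0 → (z : ℚ) = D * δ.det → z.natAbs ≤ n →
      ∃ δ : Matrix ι ι ℚ, δ.det ≠ 0 ∧ (∀ p, Int p (cX p * cd p δ)) ∧
        ∀ p, ‖(cX p * cd p δ).det‖ = 1 := by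
    intro n
    induction n using Nat.strong_induction_on with
    | _ n ih =>
      intro δ z hδ hdet hz hzn
      by_cases hall : ∀ p, ‖(cX p * cd p δ).det‖ = 1
      · exact ⟨δ, hdet, hδ, hall⟩
      · push Not at hall
        obtain ⟨p, hp⟩ := hall
        have hlt : ‖(cX p * cd p δ).det‖ < 1 := lt_of_le_of_ne (hδ p).det_le hp
        obtain ⟨i, v, hvi, hv⟩ := exists_ker (hδ p) hlt
        set E : Matrix ι ι ℚ := (1 : Matrix ι ι ℚ).updateCol i (fun k => (v k : ℚ) / (p : ℕ))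
          with hE
        have hEdet : E.det = 1 / (p : ℕ) := by
          rw [hE, ← Matrix.cramer_apply, Matrix.cramer_one]
          simp [hvi]
        have hp0 : ((p : ℕ) : ℚ) ≠ 0 := by
          exact_mod_cast p.2.ne_zero
        have hcE : ∀ (l : Nat.Primes) (M : Matrix ι ι ℚ_[(l : ℕ)]) (a b : ι),
            (M * cd l E) a b = if b = i then
              (M *ᵥ fun k => (v k : ℚ_[(l : ℕ)])) a / ((p : ℕ) : ℚ_[(l : ℕ)]) else M a b := by
          intro l M a b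
          rw [Matrix.mul_apply]
          by_cases hb : b = i
          · rw [if_pos hb, hb]
            have e1 : ∀ k, cd l E k i = (v k : ℚ_[(l : ℕ)]) / ((p : ℕ) : ℚ_[(l : ℕ)]) := by
              intro k
              show ((E k i : ℚ) : ℚ_[(l : ℕ)]) = _
              rw [hE, Matrix.updateCol_self]
              push_cast
              rfl
            simp only [e1, Matrix.mulVec, dotProduct, Finset.sum_div, mul_div_assoc]
          · rw [if_neg hb]
            have e1 : ∀ k, cd l E k b = if k = b then 1 else 0 := by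
              intro k
              show ((E k b : ℚ) : ℚ_[(l : ℕ)]) = _
              rw [hE, Matrix.updateCol_ne hb, Matrix.one_apply]
              split_ifs <;> simp
            simp [e1]
        have hcdm : ∀ l, cd l (δ * E) = cd l δ * cd l E := by
          intro l
          exact Matrix.map_mul (f := Rat.castHom ℚ_[(l : ℕ)])
        have hδ1 : ∀ l, Int l (cX l * cd l (δ * E)) := by
          intro l a b
          rw [hcdm, ← Matrix.mul_assoc, hcE]
          split_ifs with hb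
          · rw [norm_div]
            by_cases hlp : l = p
            · subst hlp
              have h1 := hv a
              rw [Padic.norm_p]
              rw [div_inv_eq_mul]
              have h2 : (0 : ℝ) < (l : ℕ) := by exact_mod_cast l.2.pos
              calc _ ≤ ((l : ℕ) : ℝ)⁻¹ * ((l : ℕ) : ℝ) := by gcongr
                _ = 1 := inv_mul_cancel₀ h2.ne'
            · have h1 : ‖(((p : ℕ) : ℚ_[(l : ℕ)]))‖ = 1 := by
                rw [Padic.norm_natCast_eq_one_iff]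
                refine (Nat.coprime_primes l.2 p.2).2 fun e => hlp ?_
                exact Subtype.ext e
              rw [h1, div_one]
              unfold Matrix.mulVec dotProduct
              refine IsUltrametricDist.norm_sum_le_of_forall_le_of_nonneg zero_le_one ?_
              intro k _
              rw [norm_mul]
              exact mul_le_one₀ (hδ l a k) (norm_nonneg _)
                (IsUltrametricDist.norm_intCast_le_one _ _)
          · exact hδ l a b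
        have hdet1 : (δ * E).det = δ.det / (p : ℕ) := by
          rw [Matrix.det_mul, hEdet]
          ring
        have hdet1' : (δ * E).det ≠ 0 := by
          rw [hdet1]
          exact div_ne_zero hdet hp0
        obtain ⟨z1, hz1⟩ := hint (δ * E) hδ1
        have hzz : z = z1 * (p : ℕ) := by
          have : (z : ℚ) = z1 * (p : ℕ) := by
            rw [hz, hz1, hdet1]
            field_simp
          exact_mod_cast this
        have hz10 : z1 ≠ 0 := by
          intro h0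
          rw [h0] at hz1
          have hD' : (D : ℚ) ≠ 0 := by exact_mod_cast hD.ne'
          have : (D : ℚ) * (δ * E).det ≠ 0 := mul_ne_zero hD' hdet1'
          apply this
          rw [← hz1]
          simp
        have hltz : z1.natAbs < n := by
          refine lt_of_lt_of_le ?_ hzn
          rw [hzz, Int.natAbs_mul, Int.natAbs_natCast]
          have h1 : 0 < z1.natAbs := Int.natAbs_pos.2 hz10
          have h2 := p.2.one_lt
          nlinarith
        exact ih z1.natAbs hltz (δ * E) z1 hδ1 hdet1' hz1 le_rfl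
  -- the starting point
  have hN' : (N : ℚ) ≠ 0 := by exact_mod_cast hN.ne'
  have hst : ∀ p, Int p (cX p * cd p ((N : ℚ) • (1 : Matrix ι ι ℚ))) := by
    intro p a b
    have h1 : cd p ((N : ℚ) • (1 : Matrix ι ι ℚ)) = (N : ℚ_[(p : ℕ)]) • (1 : Matrix ι ι _) := by
      ext k l
      show ((((N : ℚ) • (1 : Matrix ι ι ℚ)) k l : ℚ) : ℚ_[(p : ℕ)]) = _
      rw [Matrix.smul_apply, Matrix.smul_apply, Matrix.one_apply, Matrix.one_apply]
      split_ifs <;> simp
    rw [h1, Matrix.mul_smul, Matrix.mul_one]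
    exact hNX p a b
  have hst2 : ((N : ℚ) • (1 : Matrix ι ι ℚ)).det ≠ 0 := by
    rw [Matrix.det_smul, Matrix.det_one, mul_one]
    exact pow_ne_zero _ hN'
  obtain ⟨z, hz⟩ := hint _ hst
  obtain ⟨δ, hδ0, hδ, hδ1⟩ := hdesc z.natAbs _ z hst hst2 hz le_rfl
  have hu : IsUnit δ.det := isUnit_iff_ne_zero.2 hδ0
  have hδi : δ * δ⁻¹ = 1 := Matrix.mul_nonsing_inv δ hu
  refine ⟨δ, δ⁻¹, hδi, fun p i j => ?_, fun p i j => ?_⟩
  · have h1 := hδ p i j
    rw [← hcomp] at h1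
    exact h1
  · have h2 : (cX p * cd p δ) * (δ⁻¹.map ratFin * Y).map (ev p) = 1 := by
      rw [← hcomp, ← Matrix.map_mul]
      have h3 : X * δ.map ratFin * (δ⁻¹.map ratFin * Y) = 1 := by
        calc X * δ.map ratFin * (δ⁻¹.map ratFin * Y) =
            X * ((δ * δ⁻¹).map ratFin) * Y := by
              rw [Matrix.map_mul]
              simp only [Matrix.mul_assoc]
          _ = 1 := by
              rw [hδi, Matrix.map_one _ (map_zero _) (map_one _), Matrix.mul_one, hXY]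
      rw [h3, Matrix.map_one _ (map_zero _) (map_one _)]
    exact (hδ p).inv (hδ1 p) h2 i j

end GLfin

end Pool.Agent.FC
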