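import Mathlib

/-!
Hermite reduction of positive definite real quadratic forms under `GL_n(ℤ)` (project FC).
-/

namespace Pool.Agent.FC.Red

open Matrix

/-- symmetric and positive definite -/
def PD {n : ℕ} (Q : Matrix (Fin n) (Fin n) ℝ) : Prop :=
  Qᵀ = Q ∧ ∀ x : Fin n → ℝ, x ≠ 0 → 0 < x ⬝ᵥ (Q *ᵥ x)

/-- integral matrix seen over the reals -/
def toR {m n : Type*} (γ : Matrix m n ℤ) : Matrix m n ℝ := γ.map (fun a : ℤ => (a : ℝ))

theorem toR_mul {l m n : Type*} [Fintype m] (a : Matrix l m ℤ) (b : Matrix m n ℤ) :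
    toR (a * b) = toR a * toR b := by
  ext i j
  simp [toR, Matrix.mul_apply]

theorem toR_one {n : Type*} [DecidableEq n] : toR (1 : Matrix n n ℤ) = 1 := by
  ext i j
  simp [toR, Matrix.one_apply]

theorem toR_transpose {m n : Type*} (a : Matrix m n ℤ) : toR aᵀ = (toR a)ᵀ := rfl

theorem toR_mulVec {m n : Type*} [Fintype n] (a : Matrix m n ℤ) (x : n → ℤ) :
    toR a *ᵥ (fun i => (x i : ℝ)) = fun i => ((a *ᵥ x) i : ℝ) := by
  ext i
  simp [toR, Matrix.mulVec, dotProduct]

theorem toR_det {n : Type*} [Fintype n] [DecidableEq n] (a : Matrix n n ℤ) :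
    (toR a).det = (a.det : ℝ) := by
  have := (Int.castRingHom ℝ).map_det a
  simpa [toR] using this.symm

theorem PD.lower {n : ℕ} {Q : Matrix (Fin n) (Fin n) ℝ} (hQ : PD Q) :
    ∃ c : ℝ, 0 < c ∧ ∀ x : Fin n → ℝ, c * ‖x‖ ^ 2 ≤ x ⬝ᵥ (Q *ᵥ x) := by
  classical
  by_cases hne : (Metric.sphere (0 : Fin n → ℝ) 1).Nonempty
  · have hcont : Continuous fun x : Fin n → ℝ => x ⬝ᵥ (Q *ᵥ x) := by
      unfold dotProduct Matrix.mulVec dotProduct
      fun_prop
    obtain ⟨y, hy, hmin⟩ := (isCompact_sphere (0 : Fin n → ℝ) 1).exists_isMinOn hne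
      hcont.continuousOn
    have hy1 : ‖y‖ = 1 := by simpa using hy
    have hy0 : y ≠ 0 := by
      intro h
      rw [h, norm_zero] at hy1
      exact zero_ne_one hy1
    refine ⟨_, hQ.2 y hy0, fun x => ?_⟩
    by_cases hx : x = 0
    · subst hx
      simp
    · have hxn : 0 < ‖x‖ := norm_pos_iff.2 hx
      have hz : (‖x‖⁻¹ • x) ∈ Metric.sphere (0 : Fin n → ℝ) 1 := by
        simp [norm_smul, hxn.ne']
      have h1 := hmin hz
      simp only [Set.mem_ofPred_eq] at h1
      rw [Matrix.mulVec_smul, smul_dotProduct, dotProduct_smul, smul_eq_mul, smul_eq_mul] at h1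
      have h2 : (y ⬝ᵥ (Q *ᵥ y)) * ‖x‖ ^ 2 ≤
          (‖x‖⁻¹ * (‖x‖⁻¹ * (x ⬝ᵥ (Q *ᵥ x)))) * ‖x‖ ^ 2 :=
        mul_le_mul_of_nonneg_right h1 (by positivity)
      refine h2.trans (le_of_eq ?_)
      field_simp
  · refine ⟨1, one_pos, fun x => ?_⟩
    have hx : x = 0 := by
      by_contra hx
      apply hne
      have hxn : 0 < ‖x‖ := norm_pos_iff.2 hx
      exact ⟨‖x‖⁻¹ • x, by simp [norm_smul, hxn.ne']⟩
    subst hx
    simp

/-- the value of the form at an integral vector -/
noncomputable def val {n : ℕ} (Q : Matrix (Fin n) (Fin n) ℝ) (v : Fin n → ℤ) : ℝ :=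
  (fun i => (v i : ℝ)) ⬝ᵥ (Q *ᵥ (fun i => (v i : ℝ)))

theorem PD.finite_val {n : ℕ} {Q : Matrix (Fin n) (Fin n) ℝ} (hQ : PD Q) (B : ℝ) :
    {v : Fin n → ℤ | val Q v ≤ B}.Finite := by
  obtain ⟨c, hc, hlow⟩ := hQ.lower
  obtain ⟨K, hK⟩ := exists_nat_ge (B / c + 1)
  refine (Set.finite_Icc (fun _ : Fin n => -(K : ℤ)) (fun _ => (K : ℤ))).subset fun v hv => ?_
  have h1 := (hlow (fun i => (v i : ℝ))).trans hv
  have h2 : ‖(fun i => (v i : ℝ))‖ ^ 2 ≤ B / c := by
    rw [le_div_iff₀ hc]
    linarith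
  have h3 : ∀ i, |(v i : ℝ)| ≤ K := by
    intro i
    have h4 : ‖((v i : ℝ))‖ ≤ ‖(fun i => (v i : ℝ))‖ :=
      norm_le_pi_norm (fun i => (v i : ℝ)) i
    rw [Real.norm_eq_abs] at h4
    have h5 : ‖(fun i => (v i : ℝ))‖ ≤ K := by
      by_contra hlt
      push Not at hlt
      have h6 : (0 : ℝ) ≤ K := Nat.cast_nonneg K
      have h7 : (1 : ℝ) ≤ K := by
        have : 0 ≤ B / c := (sq_nonneg _).trans h2
        linarith
      nlinarith
    exact h4.trans h5
  constructor
  · intro i
    have := (abs_le.1 (h3 i)).1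
    exact_mod_cast this
  · intro i
    have := (abs_le.1 (h3 i)).2
    exact_mod_cast this

/-- block matrices -/
def blk {R : Type*} {n : ℕ} (a : R) (r c : Fin n → R) (S : Matrix (Fin n) (Fin n) R) :
    Matrix (Fin (n + 1)) (Fin (n + 1)) R :=
  Matrix.of (Fin.cons (Fin.cons a r) (fun i => Fin.cons (c i) (S i)))

section blk

variable {R : Type*} {n : ℕ}

@[simp] theorem blk_00 (a : R) (r c : Fin n → R) (S) : blk a r c S 0 0 = a := rfl
@[simp] theorem blk_0s (a : R) (r c : Fin n → R) (S) (j : Fin n) : blk a r c S 0 j.succ = r j := rfl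
@[simp] theorem blk_s0 (a : R) (r c : Fin n → R) (S) (i : Fin n) : blk a r c S i.succ 0 = c i := rfl
@[simp] theorem blk_ss (a : R) (r c : Fin n → R) (S) (i j : Fin n) :
    blk a r c S i.succ j.succ = S i j := rfl

theorem eq_blk (M : Matrix (Fin (n + 1)) (Fin (n + 1)) R) :
    M = blk (M 0 0) (fun j => M 0 j.succ) (fun i => M i.succ 0) (M.submatrix Fin.succ Fin.succ) := by
  ext i j
  refine Fin.cases ?_ (fun i => ?_) i <;> refine Fin.cases ?_ (fun j => ?_) j <;> simp

theorem blk_mul [CommRing R] (a a' : R) (r c r' c' : Fin n → R) (S S') :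
    blk a r c S * blk a' r' c' S' =
      blk (a * a' + r ⬝ᵥ c') (fun j => a * r' j + (r ᵥ* S') j) (fun i => c i * a' + (S *ᵥ c') i)
        (Matrix.of (fun i j => c i * r' j + (S * S') i j)) := by
  ext i j
  refine Fin.cases ?_ (fun i => ?_) i <;> refine Fin.cases ?_ (fun j => ?_) j <;>
    simp [Matrix.mul_apply, Fin.sum_univ_succ, dotProduct, Matrix.vecMul, Matrix.mulVec]

theorem blk_transpose (a : R) (r c : Fin n → R) (S) : (blk a r c S)ᵀ = blk a c r Sᵀ := by
  ext i j
  refine Fin.cases ?_ (fun i => ?_) i <;> refine Fin.cases ?_ (fun j => ?_) j <;> simp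

theorem blk_det [CommRing R] (a : R) (r : Fin n → R) (S : Matrix (Fin n) (Fin n) R) :
    (blk a r 0 S).det = a * S.det := by
  rw [Matrix.det_succ_column_zero, Fin.sum_univ_succ]
  have h0 : ∀ i : Fin n, blk a r 0 S i.succ 0 = 0 := fun i => rfl
  have h1 : (blk a r 0 S).submatrix (Fin.succAbove 0) Fin.succ = S := by
    ext i j
    simp
  have h2 : (blk a r 0 S).submatrix Fin.succ Fin.succ = S := by
    ext i j
    simp
  simp [h0, h2]

end blk

/-- the quadratic form of a block matrix -/
theorem blk_form {n : ℕ} (a : ℝ) (r : Fin n → ℝ) (S : Matrix (Fin n) (Fin n) ℝ) (y : ℝ)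
    (x : Fin n → ℝ) :
    (Fin.cons y x : Fin (n + 1) → ℝ) ⬝ᵥ (blk a r r S *ᵥ (Fin.cons y x : Fin (n + 1) → ℝ)) =
      a * y ^ 2 + 2 * y * (r ⬝ᵥ x) + x ⬝ᵥ (S *ᵥ x) := by
  have h : x ⬝ᵥ (fun i => r i * y + (S *ᵥ x) i) = y * (r ⬝ᵥ x) + x ⬝ᵥ (S *ᵥ x) := by
    simp only [dotProduct, mul_add, Finset.sum_add_distrib, Finset.mul_sum]
    congr 1
    exact Finset.sum_congr rfl fun i _ => by ring
  have h2 : (blk a r r S *ᵥ (Fin.cons y x : Fin (n + 1) → ℝ)) =
      Fin.cons (a * y + r ⬝ᵥ x) (fun i => r i * y + (S *ᵥ x) i) := by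
    ext i
    refine Fin.cases ?_ (fun i => ?_) i <;>
      simp [Matrix.mulVec, dotProduct, Fin.sum_univ_succ]
  rw [h2]
  have h3 : (Fin.cons y x : Fin (n + 1) → ℝ) ⬝ᵥ
      (Fin.cons (a * y + r ⬝ᵥ x) (fun i => r i * y + (S *ᵥ x) i) : Fin (n + 1) → ℝ) =
      y * (a * y + r ⬝ᵥ x) + x ⬝ᵥ (fun i => r i * y + (S *ᵥ x) i) := by
    simp [dotProduct, Fin.sum_univ_succ]
  rw [h3, h]
  ring

/-- reduced factorisations -/
structure IsRed {n : ℕ} (Q : Matrix (Fin n) (Fin n) ℝ) (N : Matrix (Fin n) (Fin n) ℝ)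
    (d : Fin n → ℝ) : Prop where
  eq : Q = Nᵀ * Matrix.diagonal d * N
  diag : ∀ i, N i i = 1
  low : ∀ i j, j < i → N i j = 0
  half : ∀ i j, i < j → |N i j| ≤ 1 / 2
  pos : ∀ i, 0 < d i
  step : ∀ i j : Fin n, i.val + 1 = j.val → d i ≤ 4 / 3 * d j

theorem blk_diagonal {n : ℕ} (a : ℝ) (d : Fin n → ℝ) :
    blk a 0 0 (Matrix.diagonal d) = Matrix.diagonal (Fin.cons a d : Fin (n + 1) → ℝ) := by
  ext i j
  refine Fin.cases ?_ (fun i => ?_) i <;> refine Fin.cases ?_ (fun j => ?_) j
  · simp
  · simp [(Fin.succ_ne_zero j).symm]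
  · simp
  · by_cases h : i = j
    · subst h
      simp
    · have h' : i.succ ≠ j.succ := fun e => h (Fin.succ_injective _ e)
      simp [h, h']

/-- the block computation -/
theorem blk_key {n : ℕ} (a : ℝ) (ha0 : a ≠ 0) (r z u : Fin n → ℝ)
    (S C N' : Matrix (Fin n) (Fin n) ℝ) (d' : Fin n → ℝ)
    (hu : ∀ j, u j = (r ᵥ* C) j / a + z j)
    (hE : Cᵀ * (Matrix.of fun i j => S i j - r i * r j / a) * C =
      N'ᵀ * Matrix.diagonal d' * N') :
    (blk 1 z 0 C)ᵀ * blk a r r S * blk 1 z 0 C =
      (blk 1 u 0 N')ᵀ * Matrix.diagonal (Fin.cons a d' : Fin (n + 1) → ℝ) * blk 1 u 0 N' := by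
  have e2 : blk a r r S * blk 1 z 0 C = blk a (fun j => a * u j) r (Matrix.of fun i j =>
      r i * z j + (S * C) i j) := by
    rw [blk_mul]
    congr 1
    · simp
    · ext j
      rw [hu]
      field_simp
      ring
    · ext i
      simp
  have e3 : ∀ i, (Cᵀ *ᵥ r) i = (r ᵥ* C) i := fun i => by rw [Matrix.mulVec_transpose]
  have e2' : Matrix.diagonal (Fin.cons a d' : Fin (n + 1) → ℝ) * blk 1 u 0 N' =
      blk a (fun j => a * u j) 0 (Matrix.diagonal d' * N') := by
    rw [← blk_diagonal, blk_mul]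
    congr 1
    · simp
    · ext j
      simp
    · ext i
      simp
    · ext i j
      simp
  rw [Matrix.mul_assoc, e2, blk_transpose, blk_mul, blk_transpose, Matrix.mul_assoc, e2', blk_mul]
  have h1 : Cᵀ * (Matrix.of fun i j => S i j - r i * r j / a) * C =
      Matrix.of fun i j => (Cᵀ * (S * C)) i j - (r ᵥ* C) i * (r ᵥ* C) j / a := by
    have e6 : (Matrix.of fun i j => S i j - r i * r j / a) * C = Matrix.of fun i j =>
        (S * C) i j - r i * (r ᵥ* C) j / a := by
      ext i j
      simp only [Matrix.mul_apply, Matrix.of_apply, sub_mul, Finset.sum_sub_distrib,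
        Matrix.vecMul, dotProduct, Finset.mul_sum, Finset.sum_div]
      congr 1
      exact Finset.sum_congr rfl fun k _ => by ring
    ext i j
    rw [Matrix.mul_assoc, e6, Matrix.of_apply, ← e3 i]
    simp only [Matrix.mul_apply (M := Cᵀ), Matrix.of_apply, mul_sub,
      Finset.sum_sub_distrib, Matrix.mulVec, dotProduct, Finset.sum_mul, Finset.sum_div]
    congr 1
    exact Finset.sum_congr rfl fun k _ => by ring
  have h2 : Cᵀ * (Matrix.of fun i j => r i * z j + (S * C) i j) =
      Matrix.of fun i j => (r ᵥ* C) i * z j + (Cᵀ * (S * C)) i j := by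
    ext i j
    rw [Matrix.of_apply, ← e3 i]
    simp only [Matrix.mul_apply (M := Cᵀ), Matrix.of_apply, mul_add,
      Finset.sum_add_distrib, Matrix.mulVec, dotProduct, Finset.sum_mul]
    congr 1
    exact Finset.sum_congr rfl fun k _ => by ring
  congr 1
  · simp
  · ext j
    simp
  · ext i
    have : (Cᵀ *ᵥ r) i = a * u i - a * z i := by
      rw [e3, hu]
      field_simp
      ring
    simp [this]
    ring
  · ext i j
    have h3 := congrFun (congrFun (h1.symm.trans hE) i) j
    rw [Matrix.mul_assoc] at h3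
    rw [Matrix.of_apply, Matrix.of_apply, h2, ← h3, Matrix.of_apply, Matrix.of_apply]
    simp only [hu]
    field_simp
    ring

/-- **Hermite reduction.** -/
theorem exists_red : ∀ (n : ℕ) (Q : Matrix (Fin n) (Fin n) ℝ), PD Q →
    ∃ γ : Matrix (Fin n) (Fin n) ℤ, IsUnit γ.det ∧ ∃ (N : Matrix (Fin n) (Fin n) ℝ)
      (d : Fin n → ℝ), IsRed ((toR γ)ᵀ * Q * toR γ) N d := by
  intro n
  induction n with
  | zero =>
    intro Q _
    refine ⟨1, by simp, 1, fun _ => 1, ⟨?_, fun i => i.elim0, fun i => i.elim0, fun i => i.elim0,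
      fun i => i.elim0, fun i => i.elim0⟩⟩
    ext i
    exact i.elim0
  | succ n ih =>
    intro Q hQ
    classical
    -- minimal first vector
    obtain ⟨γ₀, hγ₀, hmin⟩ : ∃ γ₀ : Matrix (Fin (n + 1)) (Fin (n + 1)) ℤ, IsUnit γ₀.det ∧
        ∀ γ : Matrix (Fin (n + 1)) (Fin (n + 1)) ℤ, IsUnit γ.det →
          val Q (fun i => γ₀ i 0) ≤ val Q (fun i => γ i 0) := by
      set B : ℝ := val Q (fun i => (1 : Matrix (Fin (n + 1)) (Fin (n + 1)) ℤ) i 0) with hB
      set A : Set (Fin (n + 1) → ℤ) := {v | val Q v ≤ B ∧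
        ∃ γ : Matrix (Fin (n + 1)) (Fin (n + 1)) ℤ, IsUnit γ.det ∧ v = fun i => γ i 0} with hA
      have hfin : A.Finite := (hQ.finite_val B).subset fun v hv => hv.1
      have hne : A.Nonempty := ⟨_, le_refl _, 1, by simp, rfl⟩
      obtain ⟨v, hv, hmin⟩ := Set.exists_min_image A (val Q) hfin hne
      obtain ⟨hvB, γ₀, hγ₀, rfl⟩ := hv
      refine ⟨γ₀, hγ₀, fun γ hγ => ?_⟩
      by_cases hle : val Q (fun i => γ i 0) ≤ B
      · exact hmin _ ⟨hle, γ, hγ, rfl⟩
      · exact hvB.trans (not_le.1 hle).le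
    -- the form in the new basis
    set Q₁ : Matrix (Fin (n + 1)) (Fin (n + 1)) ℝ := (toR γ₀)ᵀ * Q * toR γ₀ with hQ₁
    have hγu : IsUnit (toR γ₀).det := by
      rw [toR_det]
      exact hγ₀.map (Int.castRingHom ℝ)
    have hQ₁s : Q₁ᵀ = Q₁ := by
      rw [hQ₁, Matrix.transpose_mul, Matrix.transpose_mul, Matrix.transpose_transpose, hQ.1,
        Matrix.mul_assoc]
    have hform : ∀ x : Fin (n + 1) → ℝ,
        x ⬝ᵥ (Q₁ *ᵥ x) = (toR γ₀ *ᵥ x) ⬝ᵥ (Q *ᵥ (toR γ₀ *ᵥ x)) := by
      intro x
      rw [hQ₁, ← Matrix.mulVec_mulVec, ← Matrix.mulVec_mulVec, Matrix.dotProduct_mulVec,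
        Matrix.vecMul_transpose]
    have hQ₁p : ∀ x : Fin (n + 1) → ℝ, x ≠ 0 → 0 < x ⬝ᵥ (Q₁ *ᵥ x) := by
      intro x hx
      rw [hform]
      refine hQ.2 _ fun h => hx ?_
      have hinj := Matrix.mulVec_injective_iff_isUnit.2 ((Matrix.isUnit_iff_isUnit_det _).2 hγu)
      exact hinj (by rw [h, Matrix.mulVec_zero])
    have hentry : ∀ γ : Matrix (Fin (n + 1)) (Fin (n + 1)) ℤ, ∀ j,
        ((toR γ)ᵀ * Q * toR γ) j j = val Q (fun i => γ i j) := by
      intro γ j
      rw [Matrix.mul_assoc, Matrix.mul_apply]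
      unfold val dotProduct
      refine Finset.sum_congr rfl fun i _ => ?_
      rw [Matrix.transpose_apply, Matrix.mul_apply]
      rfl
    set a : ℝ := Q₁ 0 0 with ha
    set r : Fin n → ℝ := fun j => Q₁ 0 j.succ with hr
    set S : Matrix (Fin n) (Fin n) ℝ := Q₁.submatrix Fin.succ Fin.succ with hS
    have hQ₁b : Q₁ = blk a r r S := by
      rw [eq_blk Q₁]
      congr 1
      ext i
      show Q₁ i.succ 0 = Q₁ 0 i.succ
      nth_rewrite 1 [← hQ₁s]
      rfl
    have ha0 : 0 < a := by
      have h1 := hQ₁p (Fin.cons 1 0) (fun h => by simpa using congrFun h 0)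
      rw [hQ₁b, blk_form] at h1
      simpa using h1
    -- the Schur complement
    set Q' : Matrix (Fin n) (Fin n) ℝ := Matrix.of fun i j => S i j - r i * r j / a with hQ'
    have hSs : Sᵀ = S := by
      ext i j
      show Q₁ j.succ i.succ = Q₁ i.succ j.succ
      nth_rewrite 1 [← hQ₁s]
      rfl
    have hQ'pd : PD Q' := by
      constructor
      · ext i j
        have : S j i = S i j := congrFun (congrFun hSs i) j
        simp only [hQ', Matrix.transpose_apply, Matrix.of_apply]
        rw [this]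
        ring
      · intro x hx
        have h1 := hQ₁p (Fin.cons (-(r ⬝ᵥ x) / a) x) (fun h => hx (by
          ext i
          simpa using congrFun h i.succ))
        rw [hQ₁b, blk_form] at h1
        have h2 : x ⬝ᵥ (Q' *ᵥ x) = x ⬝ᵥ (S *ᵥ x) - (r ⬝ᵥ x) ^ 2 / a := by
          have e1 : Q' *ᵥ x = fun i => (S *ᵥ x) i - r i * (r ⬝ᵥ x) / a := by
            ext i
            simp only [hQ', Matrix.mulVec, dotProduct, Matrix.of_apply, sub_mul,
              Finset.sum_sub_distrib, Finset.mul_sum, Finset.sum_div]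
            congr 1
            exact Finset.sum_congr rfl fun j _ => by ring
          rw [e1]
          simp only [dotProduct, mul_sub, Finset.sum_sub_distrib]
          congr 1
          rw [sq, Finset.sum_mul, Finset.sum_div]
          exact Finset.sum_congr rfl fun j _ => by ring
        rw [h2]
        have e3 : a * (-(r ⬝ᵥ x) / a) ^ 2 + 2 * (-(r ⬝ᵥ x) / a) * (r ⬝ᵥ x) + x ⬝ᵥ (S *ᵥ x) =
            x ⬝ᵥ (S *ᵥ x) - (r ⬝ᵥ x) ^ 2 / a := by
          field_simp
          ring
        rw [e3] at h1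
        exact h1
    obtain ⟨γ', hγ', N', d', hred⟩ := ih Q' hQ'pd
    -- the integral shift
    set t : Fin n → ℝ := fun j => (r ᵥ* toR γ') j / a with ht
    set z : Fin n → ℤ := fun j => -round (t j) with hz
    set u : Fin n → ℝ := fun j => t j + (z j : ℝ) with hu
    have hu2 : ∀ j, |u j| ≤ 1 / 2 := by
      intro j
      have := abs_sub_round (t j)
      simpa [hu, hz, sub_eq_add_neg] using this
    set g : Matrix (Fin (n + 1)) (Fin (n + 1)) ℤ := blk 1 z 0 γ' with hg
    have hgR : toR g = blk 1 (fun j => (z j : ℝ)) 0 (toR γ') := by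
      ext i j
      refine Fin.cases ?_ (fun i => ?_) i <;> refine Fin.cases ?_ (fun j => ?_) j <;>
        simp [toR, hg]
    have hgu : IsUnit g.det := by
      rw [hg, blk_det, one_mul]
      exact hγ'
    set N : Matrix (Fin (n + 1)) (Fin (n + 1)) ℝ := blk 1 u 0 N' with hN
    set d : Fin (n + 1) → ℝ := Fin.cons a d' with hd
    have hkey : (toR (γ₀ * g))ᵀ * Q * toR (γ₀ * g) = Nᵀ * Matrix.diagonal d * N := by
      have e1 : (toR (γ₀ * g))ᵀ * Q * toR (γ₀ * g) = (toR g)ᵀ * Q₁ * toR g := by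
        rw [toR_mul, hQ₁, Matrix.transpose_mul]
        simp only [Matrix.mul_assoc]
      rw [e1, hgR, hQ₁b]
      exact blk_key a ha0.ne' r _ u S (toR γ') N' d' (fun j => rfl) hred.eq
    have hu' : IsUnit (γ₀ * g).det := by
      rw [Matrix.det_mul]
      exact hγ₀.mul hgu
    refine ⟨γ₀ * g, hu', N, d, hkey, ?_, ?_, ?_, ?_, ?_⟩
    · intro i
      refine Fin.cases ?_ (fun i => ?_) i
      · simp [hN]
      · simpa [hN] using hred.diag i
    · intro i j
      refine Fin.cases ?_ (fun i => ?_) i <;> refine Fin.cases ?_ (fun j => ?_) j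
      · intro h
        exact absurd h (lt_irrefl _)
      · intro h
        exact absurd h (not_lt.2 (Fin.zero_le _))
      · intro _
        simp [hN]
      · intro h
        simpa [hN] using hred.low i j (Fin.succ_lt_succ_iff.1 h)
    · intro i j
      refine Fin.cases ?_ (fun i => ?_) i <;> refine Fin.cases ?_ (fun j => ?_) j
      · intro h
        exact absurd h (lt_irrefl _)
      · intro _
        simpa [hN] using hu2 j
      · intro h
        exact absurd h (not_lt.2 (Fin.zero_le _))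
      · intro h
        simpa [hN] using hred.half i j (Fin.succ_lt_succ_iff.1 h)
    · intro i
      refine Fin.cases ?_ (fun i => ?_) i
      · simpa [hd] using ha0
      · simpa [hd] using hred.pos i
    · intro i j
      refine Fin.cases ?_ (fun i => ?_) i
      · refine Fin.cases ?_ (fun j => ?_) j
        · intro h
          simp at h
        · intro h
          have hj0 : j.val = 0 := by
            simp at h
            omega
          have e0 : a = val Q (fun i => γ₀ i 0) := by
            rw [← hentry γ₀ 0]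
          -- swap the first two columns
          have e1 : val Q (fun i => (γ₀ * g) i j.succ) = a * u j ^ 2 + d' j := by
            rw [← hentry (γ₀ * g) j.succ, hkey, hN, hd, blk_transpose, ← blk_diagonal,
              Matrix.mul_assoc, blk_mul, blk_mul]
            have hz : ∀ k, N' k j = if k = j then 1 else 0 := by
              intro k
              by_cases hk : k = j
              · rw [hk, if_pos rfl]
                exact hred.diag j
              · rw [if_neg hk]
                refine hred.low k j ?_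
                rw [Fin.lt_def, hj0]
                have : k.val ≠ j.val := fun e => hk (Fin.ext e)
                omega
            simp only [blk_ss, Matrix.of_apply]
            simp [Matrix.mul_apply, Matrix.diagonal_apply, hz]
            ring
          have e2 : a ≤ a * u j ^ 2 + d' j := by
            rw [← e1, e0]
            have hsw : IsUnit (((γ₀ * g) *
                (Equiv.swap (0 : Fin (n + 1)) j.succ).permMatrix ℤ).det) := by
              rw [Matrix.det_mul]
              refine hu'.mul ?_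
              rw [Matrix.det_permutation]
              exact (Units.isUnit _)
            have h3 := hmin _ hsw
            refine h3.trans (le_of_eq ?_)
            congr 1
            ext i
            rw [Equiv.Perm.permMatrix, Matrix.mul_apply]
            simp only [PEquiv.toMatrix_apply, Equiv.toPEquiv_apply, Option.mem_some_iff]
            rw [Finset.sum_eq_single j.succ]
            · rw [Equiv.swap_apply_right, if_pos rfl, mul_one]
            · intro b _ hb
              rw [if_neg, mul_zero]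
              intro hc
              apply hb
              have := congrArg (Equiv.swap (0 : Fin (n + 1)) j.succ) hc
              rwa [Equiv.swap_apply_self, Equiv.swap_apply_left] at this
            · intro hb
              exact absurd (Finset.mem_univ _) hb
          have e3 : u j ^ 2 ≤ 1 / 4 := by
            have := hu2 j
            rw [← sq_abs]
            nlinarith [abs_nonneg (u j)]
          have e4 : a * u j ^ 2 ≤ a * (1 / 4) := mul_le_mul_of_nonneg_left e3 ha0.le
          simp only [hd, Fin.cons_zero, Fin.cons_succ]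
          linarith
      · refine Fin.cases ?_ (fun j => ?_) j
        · intro h
          simp at h
        · intro h
          have h' : i.val + 1 = j.val := by
            simpa using h
          simpa [hd] using hred.step i j h'

end Pool.Agent.FC.Red
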