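import Mathlib
import Pool.Agent.FC.Red

/-!
Bounds for reduced bases (project FC).
-/

namespace Pool.Agent.FC.Red

open Matrix

/-- the constant of the bounds -/
noncomputable def cst (k : ℕ) : ℝ := k * (16 / 3) ^ k + 1

theorem cst_pos (k : ℕ) : 0 < cst k := by
  unfold cst
  positivity

theorem one_le_cst (k : ℕ) : 1 ≤ cst k := by
  unfold cst
  have : (0 : ℝ) ≤ k * (16 / 3) ^ k := by positivity
  linarith

namespace IsRed

variable {k : ℕ} {Q N : Matrix (Fin k) (Fin k) ℝ} {d : Fin k → ℝ}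

theorem mono_pow (h : IsRed Q N d) : ∀ (t : ℕ) (i j : Fin k), i.val + t = j.val →
    d i ≤ (4 / 3) ^ t * d j := by
  intro t
  induction t with
  | zero =>
    intro i j hij
    have : i = j := Fin.ext (by omega)
    subst this
    simp
  | succ t ih =>
    intro i j hij
    have hj : i.val + t < k := by
      have := j.2
      omega
    have h1 := ih i ⟨i.val + t, hj⟩ rfl
    have h2 := h.step ⟨i.val + t, hj⟩ j (by simpa [add_assoc] using hij)
    calc d i ≤ (4 / 3) ^ t * d ⟨i.val + t, hj⟩ := h1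
      _ ≤ (4 / 3) ^ t * (4 / 3 * d j) := mul_le_mul_of_nonneg_left h2 (by positivity)
      _ = (4 / 3) ^ (t + 1) * d j := by ring

theorem mono (h : IsRed Q N d) {i j : Fin k} (hij : i ≤ j) : d i ≤ (4 / 3) ^ k * d j := by
  have hij' : i.val ≤ j.val := hij
  obtain ⟨t, ht⟩ := Nat.exists_eq_add_of_le hij'
  have h1 := h.mono_pow t i j ht.symm
  refine h1.trans (mul_le_mul_of_nonneg_right ?_ (h.pos j).le)
  exact pow_le_pow_right₀ (by norm_num) (by have := j.2; omega)

theorem abs_le_one (h : IsRed Q N d) (i j : Fin k) : |N i j| ≤ 1 := by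
  rcases lt_trichotomy i j with hij | hij | hij
  · exact (h.half i j hij).trans (by norm_num)
  · subst hij
    rw [h.diag]
    simp
  · rw [h.low i j hij]
    simp

theorem form_apply (h : IsRed Q N d) (x : Fin k → ℝ) :
    x ⬝ᵥ (Q *ᵥ x) = ∑ i, d i * (N *ᵥ x) i ^ 2 := by
  rw [h.eq, ← Matrix.mulVec_mulVec, ← Matrix.mulVec_mulVec, Matrix.dotProduct_mulVec,
    Matrix.vecMul_transpose]
  unfold dotProduct
  refine Finset.sum_congr rfl fun i _ => ?_
  rw [Matrix.mulVec_diagonal]
  ring

/-- entries of the inverse of `N` -/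
theorem inv_bound (h : IsRed Q N d) (M : Matrix (Fin k) (Fin k) ℝ) (hM : M * N = 1) (l : Fin k) :
    ∀ (t : ℕ) (j : Fin k), j.val = t → (j < l → M l j = 0) ∧ |M l j| ≤ 2 ^ t := by
  intro t
  induction t using Nat.strong_induction_on with
  | _ t ih =>
    intro j hj
    have h1 : M l j + ∑ i ∈ Finset.univ.filter (fun i => i < j), M l i * N i j =
        (1 : Matrix (Fin k) (Fin k) ℝ) l j := by
      rw [← hM, Matrix.mul_apply]
      rw [← Finset.sum_filter_add_sum_filter_not Finset.univ (fun i => i < j), add_comm]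
      congr 1
      rw [Finset.sum_eq_single j]
      · rw [h.diag, mul_one]
      · intro b hb hbj
        have hb' : ¬ b < j := (Finset.mem_filter.1 hb).2
        have : j < b := lt_of_le_of_ne (not_lt.1 hb') (Ne.symm hbj)
        rw [h.low b j this, mul_zero]
      · intro hn
        exact absurd (Finset.mem_filter.2 ⟨Finset.mem_univ j, lt_irrefl j⟩) hn
    constructor
    · intro hjl
      have h2 : ∑ i ∈ Finset.univ.filter (fun i => i < j), M l i * N i j = 0 := by
        refine Finset.sum_eq_zero fun i hi => ?_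
        have hij : i < j := (Finset.mem_filter.1 hi).2
        have hij' : i.val < j.val := hij
        rw [(ih i.val (by omega) i rfl).1 (hij.trans hjl), zero_mul]
      rw [h2, add_zero, Matrix.one_apply_ne (ne_of_gt hjl)] at h1
      exact h1
    · have h3 : |∑ i ∈ Finset.univ.filter (fun i => i < j), M l i * N i j| ≤
          ∑ i ∈ Finset.range t, (2 : ℝ) ^ i * (1 / 2) := by
        have h4 : ∑ i ∈ Finset.range t, (2 : ℝ) ^ i * (1 / 2) =
            ∑ i ∈ Finset.univ.filter (fun i : Fin k => i < j), (2 : ℝ) ^ i.val * (1 / 2) := by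
          symm
          refine Finset.sum_bij (fun i _ => i.val) ?_ ?_ ?_ ?_
          · intro i hi
            have : i.val < j.val := (Finset.mem_filter.1 hi).2
            rw [Finset.mem_range]
            omega
          · intro a _ b _ hab
            exact Fin.ext hab
          · intro b hb
            rw [Finset.mem_range] at hb
            have hbk : b < k := by
              have := j.2
              omega
            refine ⟨⟨b, hbk⟩, ?_, rfl⟩
            rw [Finset.mem_filter]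
            refine ⟨Finset.mem_univ _, ?_⟩
            rw [Fin.lt_def]
            show b < j.val
            omega
          · intro _ _
            rfl
        rw [h4]
        refine (Finset.abs_sum_le_sum_abs _ _).trans (Finset.sum_le_sum fun i hi => ?_)
        have hij : i < j := (Finset.mem_filter.1 hi).2
        have hij' : i.val < j.val := hij
        rw [abs_mul]
        exact mul_le_mul ((ih i.val (by omega) i rfl).2) (h.half i j hij) (abs_nonneg _)
          (by positivity)
      have h5 : ∑ i ∈ Finset.range t, (2 : ℝ) ^ i * (1 / 2) = (2 ^ t - 1) * (1 / 2) := by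
        rw [← Finset.sum_mul]
        congr 1
        have := geom_sum_eq (show (2 : ℝ) ≠ 1 by norm_num) t
        rw [this]
        norm_num
      have h6 : |(1 : Matrix (Fin k) (Fin k) ℝ) l j| ≤ 1 := by
        by_cases hlj : l = j
        · subst hlj
          simp
        · rw [Matrix.one_apply_ne hlj]
          simp
      have h7 : M l j = (1 : Matrix (Fin k) (Fin k) ℝ) l j -
          ∑ i ∈ Finset.univ.filter (fun i => i < j), M l i * N i j := by
        rw [← h1]
        ring
      rw [h7]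
      refine (abs_sub _ _).trans ?_
      rw [h5] at h3
      have h8 : (1 : ℝ) ≤ 2 ^ t := one_le_pow₀ (by norm_num)
      linarith

end IsRed

section real

variable {k : ℕ} {m h N : Matrix (Fin k) (Fin k) ℝ} {d : Fin k → ℝ}

/-- the columns of the reduced matrix -/
theorem col_bound (hr : IsRed (mᵀ * m) N d) (j : Fin k) : ∑ l, m l j ^ 2 ≤ cst k * d j := by
  have h1 : ∑ l, m l j ^ 2 = (mᵀ * m) j j := by
    rw [Matrix.mul_apply]
    exact Finset.sum_congr rfl fun l _ => by rw [Matrix.transpose_apply]; ring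
  have h2 : (mᵀ * m) j j = ∑ l, d l * N l j ^ 2 := by
    rw [hr.eq, Matrix.mul_apply]
    refine Finset.sum_congr rfl fun l _ => ?_
    rw [Matrix.mul_diagonal, Matrix.transpose_apply]
    ring
  rw [h1, h2]
  have h3 : ∀ l, d l * N l j ^ 2 ≤ (4 / 3) ^ k * d j := by
    intro l
    by_cases hlj : l ≤ j
    · have h4 : N l j ^ 2 ≤ 1 := by
        rw [← sq_abs]
        have := hr.abs_le_one l j
        nlinarith [abs_nonneg (N l j)]
      calc d l * N l j ^ 2 ≤ d l * 1 := mul_le_mul_of_nonneg_left h4 (hr.pos l).le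
        _ = d l := mul_one _
        _ ≤ _ := hr.mono hlj
    · rw [hr.low l j (not_le.1 hlj)]
      have := hr.pos j
      simp
      positivity
  calc ∑ l, d l * N l j ^ 2 ≤ ∑ _l : Fin k, (4 / 3 : ℝ) ^ k * d j :=
        Finset.sum_le_sum fun l _ => h3 l
    _ = (k * (4 / 3) ^ k) * d j := by simp; ring
    _ ≤ cst k * d j := by
        refine mul_le_mul_of_nonneg_right ?_ (hr.pos j).le
        unfold cst
        have h5 : (4 / 3 : ℝ) ^ k ≤ (16 / 3) ^ k := pow_le_pow_left₀ (by norm_num) (by norm_num) k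
        have h6 : (k : ℝ) * (4 / 3) ^ k ≤ k * (16 / 3) ^ k :=
          mul_le_mul_of_nonneg_left h5 (Nat.cast_nonneg k)
        linarith

theorem col_bound_le (hr : IsRed (mᵀ * m) N d) {i j : Fin k} (hji : j ≤ i) :
    ∑ l, m l j ^ 2 ≤ cst k * (4 / 3) ^ k * d i := by
  refine (col_bound hr j).trans ?_
  rw [mul_assoc]
  exact mul_le_mul_of_nonneg_left (hr.mono hji) (cst_pos k).le

/-- the rows of the inverse of the reduced matrix -/
theorem row_bound (hr : IsRed (mᵀ * m) N d) (hmh : m * h = 1) (l : Fin k) :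
    ∑ j, h l j ^ 2 ≤ cst k / d l := by
  have hhm : h * m = 1 := mul_eq_one_comm.1 hmh
  -- the inverse of `N`
  obtain ⟨M, hMN⟩ : ∃ M : Matrix (Fin k) (Fin k) ℝ, M * N = 1 := by
    refine ⟨(h * hᵀ) * (Nᵀ * Matrix.diagonal d), ?_⟩
    rw [Matrix.mul_assoc, ← hr.eq, Matrix.mul_assoc, ← Matrix.mul_assoc hᵀ,
      ← Matrix.transpose_mul, hmh, Matrix.transpose_one, Matrix.one_mul, hhm]
  have hNM : N * M = 1 := mul_eq_one_comm.1 hMN
  have h1 : h * hᵀ = M * Matrix.diagonal (fun i => (d i)⁻¹) * Mᵀ := by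
    have h2 : (M * Matrix.diagonal (fun i => (d i)⁻¹) * Mᵀ) * (mᵀ * m) = 1 := by
      rw [hr.eq]
      have h3 : Mᵀ * Nᵀ = 1 := by rw [← Matrix.transpose_mul, hNM, Matrix.transpose_one]
      have h4 : Matrix.diagonal (fun i => (d i)⁻¹) * Matrix.diagonal d = 1 := by
        rw [Matrix.diagonal_mul_diagonal, ← Matrix.diagonal_one]
        congr 1
        ext i
        exact inv_mul_cancel₀ (hr.pos i).ne'
      calc (M * Matrix.diagonal (fun i => (d i)⁻¹) * Mᵀ) * (Nᵀ * Matrix.diagonal d * N)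
          = M * Matrix.diagonal (fun i => (d i)⁻¹) * (Mᵀ * Nᵀ) * Matrix.diagonal d * N := by
            simp only [Matrix.mul_assoc]
        _ = M * (Matrix.diagonal (fun i => (d i)⁻¹) * Matrix.diagonal d) * N := by
            rw [h3]
            simp only [Matrix.mul_assoc, Matrix.mul_one]
        _ = 1 := by rw [h4, Matrix.mul_one, hMN]
    have h5 : (mᵀ * m) * (h * hᵀ) = 1 := by
      rw [Matrix.mul_assoc, ← Matrix.mul_assoc m, hmh, Matrix.one_mul, ← Matrix.transpose_mul, hhm,
        Matrix.transpose_one]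
    calc h * hᵀ = ((M * Matrix.diagonal (fun i => (d i)⁻¹) * Mᵀ) * (mᵀ * m)) * (h * hᵀ) := by
          rw [h2, Matrix.one_mul]
      _ = _ := by rw [Matrix.mul_assoc, h5, Matrix.mul_one]
  have h6 : ∑ j, h l j ^ 2 = ∑ j, (d j)⁻¹ * M l j ^ 2 := by
    have h7 : ∑ j, h l j ^ 2 = (h * hᵀ) l l := by
      rw [Matrix.mul_apply]
      exact Finset.sum_congr rfl fun l _ => by rw [Matrix.transpose_apply]; ring
    rw [h7, h1, Matrix.mul_apply]
    refine Finset.sum_congr rfl fun j _ => ?_
    rw [Matrix.mul_diagonal, Matrix.transpose_apply]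
    ring
  rw [h6]
  have h8 : ∀ j, (d j)⁻¹ * M l j ^ 2 ≤ (16 / 3) ^ k / d l := by
    intro j
    have hb := hr.inv_bound M hMN l j.val j rfl
    by_cases hjl : j < l
    · rw [hb.1 hjl]
      have := hr.pos l
      simp
      positivity
    · have hlj : l ≤ j := not_lt.1 hjl
      have h9 : (d j)⁻¹ ≤ (4 / 3) ^ k / d l := by
        rw [inv_eq_one_div, div_le_div_iff₀ (hr.pos j) (hr.pos l), one_mul]
        exact hr.mono hlj
      have h10 : M l j ^ 2 ≤ 4 ^ k := by
        rw [← sq_abs]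
        have h11 : |M l j| ≤ 2 ^ k :=
          hb.2.trans (pow_le_pow_right₀ (by norm_num) j.2.le)
        calc |M l j| ^ 2 ≤ (2 ^ k) ^ 2 := pow_le_pow_left₀ (abs_nonneg _) h11 2
          _ = 4 ^ k := by rw [← pow_mul, mul_comm, pow_mul]; norm_num
      have h12 : (0 : ℝ) ≤ (4 / 3) ^ k / d l := by
        have := hr.pos l
        positivity
      calc (d j)⁻¹ * M l j ^ 2 ≤ ((4 / 3) ^ k / d l) * 4 ^ k :=
            mul_le_mul h9 h10 (sq_nonneg _) h12
        _ = (16 / 3) ^ k / d l := by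
            rw [div_mul_eq_mul_div, ← mul_pow]
            norm_num
  calc ∑ j, (d j)⁻¹ * M l j ^ 2 ≤ ∑ _j : Fin k, (16 / 3 : ℝ) ^ k / d l :=
        Finset.sum_le_sum fun j _ => h8 j
    _ = (k * (16 / 3) ^ k) / d l := by simp; ring
    _ ≤ cst k / d l := by
        refine div_le_div_of_nonneg_right ?_ (hr.pos l).le
        unfold cst
        linarith

theorem row_bound_le (hr : IsRed (mᵀ * m) N d) (hmh : m * h = 1) {i l : Fin k} (hil : i ≤ l) :
    ∑ j, h l j ^ 2 ≤ cst k * (4 / 3) ^ k / d i := by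
  refine (row_bound hr hmh l).trans ?_
  rw [div_le_div_iff₀ (hr.pos l) (hr.pos i), mul_assoc]
  exact mul_le_mul_of_nonneg_left (hr.mono hil) (cst_pos k).le

/-- a short integral vector forces a small first coefficient -/
theorem first_le (hr : IsRed (mᵀ * m) N d) (v : Fin k → ℤ) (hv : v ≠ 0) (i0 : Fin k)
    (h0 : i0.val = 0) :
    d i0 ≤ (4 / 3) ^ k * ∑ l, (m *ᵥ (fun i => (v i : ℝ))) l ^ 2 := by
  classical
  have hex : (Finset.univ.filter (fun i : Fin k => v i ≠ 0)).Nonempty := by
    by_contra hn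
    apply hv
    ext i
    by_contra hi
    exact hn ⟨i, Finset.mem_filter.2 ⟨Finset.mem_univ _, hi⟩⟩
  set j := (Finset.univ.filter (fun i : Fin k => v i ≠ 0)).max' hex with hj
  have hjv : v j ≠ 0 := (Finset.mem_filter.1 (Finset.max'_mem _ hex)).2
  have hjmax : ∀ i, j < i → v i = 0 := by
    intro i hi
    by_contra hne
    have := Finset.le_max' (Finset.univ.filter (fun i : Fin k => v i ≠ 0)) i
      (Finset.mem_filter.2 ⟨Finset.mem_univ _, hne⟩)
    exact absurd hi (not_lt.2 this)
  have h1 : ∑ l, (m *ᵥ (fun i => (v i : ℝ))) l ^ 2 =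
      ∑ i, d i * (N *ᵥ (fun i => (v i : ℝ))) i ^ 2 := by
    rw [← hr.form_apply, ← Matrix.mulVec_mulVec, Matrix.dotProduct_mulVec, Matrix.vecMul_transpose]
    unfold dotProduct
    exact Finset.sum_congr rfl fun i _ => sq _
  have h2 : (N *ᵥ (fun i => (v i : ℝ))) j = v j := by
    show ∑ b, N j b * (v b : ℝ) = v j
    rw [Finset.sum_eq_single j]
    · rw [hr.diag, one_mul]
    · intro b _ hb
      rcases lt_or_gt_of_ne hb with hbj | hbj
      · rw [hr.low j b hbj, zero_mul]
      · rw [hjmax b hbj]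
        simp
    · intro hn
      exact absurd (Finset.mem_univ _) hn
  have h3 : d j ≤ ∑ i, d i * (N *ᵥ (fun i => (v i : ℝ))) i ^ 2 := by
    have h4 : d j * (N *ᵥ (fun i => (v i : ℝ))) j ^ 2 ≤
        ∑ i, d i * (N *ᵥ (fun i => (v i : ℝ))) i ^ 2 :=
      Finset.single_le_sum (f := fun i => d i * (N *ᵥ (fun i => (v i : ℝ))) i ^ 2)
        (fun i _ => mul_nonneg (hr.pos i).le (sq_nonneg _)) (Finset.mem_univ j)
    refine le_trans ?_ h4
    rw [h2]
    have h5 : (1 : ℝ) ≤ (v j : ℝ) ^ 2 := by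
      have : (1 : ℤ) ≤ v j ^ 2 := by
        have := sq_pos_of_ne_zero hjv
        omega
      exact_mod_cast this
    nlinarith [hr.pos j]
  rw [h1]
  have h6 : i0 ≤ j := by
    rw [Fin.le_def, h0]
    exact Nat.zero_le _
  exact (hr.mono h6).trans (mul_le_mul_of_nonneg_left h3 (by positivity))

/-- the length of the first vector -/
theorem first_eq (hr : IsRed (mᵀ * m) N d) (i0 : Fin k) (h0 : i0.val = 0) :
    ∑ l, m l i0 ^ 2 = d i0 := by
  have h1 : ∑ l, m l i0 ^ 2 = (mᵀ * m) i0 i0 := by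
    rw [Matrix.mul_apply]
    exact Finset.sum_congr rfl fun l _ => by rw [Matrix.transpose_apply]; ring
  have h2 : (mᵀ * m) i0 i0 = ∑ l, d l * N l i0 ^ 2 := by
    rw [hr.eq, Matrix.mul_apply]
    refine Finset.sum_congr rfl fun l _ => ?_
    rw [Matrix.mul_diagonal, Matrix.transpose_apply]
    ring
  rw [h1, h2, Finset.sum_eq_single i0]
  · rw [hr.diag]
    ring
  · intro b _ hb
    have : i0 < b := by
      rw [Fin.lt_def, h0]
      have : b.val ≠ i0.val := fun e => hb (Fin.ext e)
      omega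
    rw [hr.low b i0 this]
    ring
  · intro hn
    exact absurd (Finset.mem_univ _) hn

theorem det_N (hr : IsRed (mᵀ * m) N d) : N.det = 1 := by
  rw [Matrix.det_of_isUpperTriangular]
  · exact Finset.prod_eq_one fun i _ => hr.diag i
  · intro i j hij
    exact hr.low i j hij

theorem prod_d (hr : IsRed (mᵀ * m) N d) : ∏ i, d i = m.det ^ 2 := by
  have h1 := congrArg Matrix.det hr.eq
  rw [Matrix.det_mul, Matrix.det_mul, Matrix.det_mul, Matrix.det_transpose, Matrix.det_transpose,
    det_N hr, Matrix.det_diagonal] at h1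
  rw [sq, h1]
  ring

/-- lower and upper bounds when the first coefficient is not small -/
theorem d_bounds (hr : IsRed (mᵀ * m) N d) (hdet : m.det ^ 2 = 1) {e : ℝ} (he : 0 < e)
    (i0 : Fin k) (h0 : i0.val = 0) (hd0 : e ≤ d i0) (j : Fin k) :
    (3 / 4) ^ k * e ≤ d j ∧ d j ≤ (((3 / 4) ^ k * e) ^ (k - 1))⁻¹ := by
  classical
  have hlow : ∀ j, (3 / 4) ^ k * e ≤ d j := by
    intro j
    have h1 : d i0 ≤ (4 / 3) ^ k * d j := hr.mono (by
      rw [Fin.le_def, h0]
      exact Nat.zero_le _)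
    have h2 : (3 / 4 : ℝ) ^ k * ((4 / 3) ^ k * d j) = d j := by
      rw [← mul_assoc, ← mul_pow]
      norm_num
    rw [← h2]
    exact mul_le_mul_of_nonneg_left (hd0.trans h1) (by positivity)
  refine ⟨hlow j, ?_⟩
  have hp := prod_d hr
  rw [hdet, ← Finset.mul_prod_erase _ _ (Finset.mem_univ j)] at hp
  have h3 : ((3 / 4 : ℝ) ^ k * e) ^ (k - 1) ≤ ∏ i ∈ Finset.univ.erase j, d i := by
    have h4 : ((3 / 4 : ℝ) ^ k * e) ^ (k - 1) = ∏ _i ∈ Finset.univ.erase j, ((3 / 4) ^ k * e) := by
      rw [Finset.prod_const, Finset.card_erase_of_mem (Finset.mem_univ j), Finset.card_fin]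
    rw [h4]
    exact Finset.prod_le_prod (fun i _ => by positivity) (fun i _ => hlow i)
  have h5 : (0 : ℝ) < ((3 / 4) ^ k * e) ^ (k - 1) := by positivity
  rw [← one_div, le_div_iff₀ h5]
  calc d j * ((3 / 4) ^ k * e) ^ (k - 1) ≤ d j * ∏ i ∈ Finset.univ.erase j, d i :=
        mul_le_mul_of_nonneg_left h3 (hr.pos j).le
    _ = 1 := hp

/-- boundedness of reduced matrices without short vectors -/
theorem exists_bound (k : ℕ) {e : ℝ} (he : 0 < e) : ∃ B : ℝ, 0 < B ∧
    ∀ (m h N : Matrix (Fin k) (Fin k) ℝ) (d : Fin k → ℝ), IsRed (mᵀ * m) N d → m.det ^ 2 = 1 →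
      m * h = 1 → (∀ i0 : Fin k, i0.val = 0 → e ≤ d i0) →
        ∀ i j, |m i j| ≤ B ∧ |h i j| ≤ B := by
  set e' : ℝ := (3 / 4) ^ k * e with he'
  have he'0 : 0 < e' := by positivity
  set B1 : ℝ := cst k * (e' ^ (k - 1))⁻¹ with hB1
  set B2 : ℝ := cst k / e' with hB2
  have hB10 : 0 < B1 := mul_pos (cst_pos k) (by positivity)
  have hB20 : 0 < B2 := div_pos (cst_pos k) he'0
  refine ⟨B1 + B2 + 1, by positivity, ?_⟩
  intro m h N d hr hdet hmh hd0 i j
  have i0 : Fin k := ⟨0, lt_of_le_of_lt (Nat.zero_le _) i.2⟩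
  have hb : ∀ j, e' ≤ d j ∧ d j ≤ (e' ^ (k - 1))⁻¹ := fun j =>
    d_bounds hr hdet he ⟨0, lt_of_le_of_lt (Nat.zero_le _) i.2⟩ rfl (hd0 _ rfl) j
  have key : ∀ x B : ℝ, 0 < B → x ^ 2 ≤ B → |x| ≤ B + 1 := by
    intro x B hB hx
    rw [← sq_abs] at hx
    by_contra hlt
    push Not at hlt
    nlinarith [abs_nonneg x]
  constructor
  · have h1 : m i j ^ 2 ≤ ∑ l, m l j ^ 2 :=
      Finset.single_le_sum (f := fun l => m l j ^ 2) (fun l _ => sq_nonneg _) (Finset.mem_univ i)
    have h2 : m i j ^ 2 ≤ B1 := h1.trans ((col_bound hr j).trans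
      (mul_le_mul_of_nonneg_left (hb j).2 (cst_pos k).le))
    have := key _ _ hB10 h2
    linarith
  · have h1 : h i j ^ 2 ≤ ∑ l, h i l ^ 2 :=
      Finset.single_le_sum (f := fun l => h i l ^ 2) (fun l _ => sq_nonneg _) (Finset.mem_univ j)
    have h2 : h i j ^ 2 ≤ B2 := h1.trans ((row_bound hr hmh i).trans
      (div_le_div_of_nonneg_left (cst_pos k).le he'0 (hb i).1))
    have := key _ _ hB20 h2
    linarith

end real

/-- existence of a gap -/
theorem exists_gap (k : ℕ) {R s : ℝ} (hR : 1 ≤ R) (hs : 0 < s) : ∃ e : ℝ, 0 < e ∧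
    ∀ d : Fin k → ℝ, (∀ i, 0 < d i) → ∏ i, d i = 1 → ∀ i0 : Fin k, i0.val = 0 → d i0 < e →
      ∃ i j : Fin k, i.val + 1 = j.val ∧ d i ≤ s ∧ R * d i ≤ d j := by
  set e : ℝ := min s 1 / (2 * R ^ k) with he
  have hR0 : 0 < R := by linarith
  have he0 : 0 < e := div_pos (lt_min hs one_pos) (by positivity)
  have heR : R ^ k * e ≤ min s 1 / 2 := by
    rw [he]
    apply le_of_eq
    field_simp
  refine ⟨e, he0, fun d hd hprod i0 h0 hlt => ?_⟩
  by_contra hno
  push Not at hno
  -- all coefficients are small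
  have hall : ∀ (t : ℕ) (i : Fin k), i.val = t → d i ≤ R ^ t * e := by
    intro t
    induction t with
    | zero =>
      intro i hi
      have : i = i0 := Fin.ext (by omega)
      rw [this]
      simpa using hlt.le
    | succ t ih =>
      intro i hi
      have ht : t < k := by
        have := i.2
        omega
      have h1 := ih ⟨t, ht⟩ rfl
      have hRt : R ^ t * e ≤ R ^ k * e :=
        mul_le_mul_of_nonneg_right (pow_le_pow_right₀ hR ht.le) he0.le
      have h2 : d ⟨t, ht⟩ ≤ s := by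
        refine h1.trans (hRt.trans (heR.trans ?_))
        have := min_le_left s 1
        linarith
      have h3 := hno ⟨t, ht⟩ i (by simpa using hi.symm) h2
      calc d i ≤ R * d ⟨t, ht⟩ := h3.le
        _ ≤ R * (R ^ t * e) := mul_le_mul_of_nonneg_left h1 hR0.le
        _ = R ^ (t + 1) * e := by ring
  have h4 : ∀ i, d i ≤ 1 / 2 := by
    intro i
    have h5 := hall i.val i rfl
    have h6 : R ^ i.val * e ≤ R ^ k * e :=
      mul_le_mul_of_nonneg_right (pow_le_pow_right₀ hR i.2.le) he0.le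
    have h7 := min_le_right s 1
    linarith
  have h8 : ∏ i, d i ≤ (1 / 2 : ℝ) ^ k := by
    calc ∏ i, d i ≤ ∏ _i : Fin k, (1 / 2 : ℝ) :=
          Finset.prod_le_prod (fun i _ => (hd i).le) (fun i _ => h4 i)
      _ = (1 / 2 : ℝ) ^ k := by simp
  rw [hprod] at h8
  have h9 : (1 / 2 : ℝ) ^ k < 1 := pow_lt_one₀ (by norm_num) (by norm_num) (by
    have := i0.2
    omega)
  linarith

end Pool.Agent.FC.Red
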