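import Pool.Agent.FC.Base
import Pool.Agent.FC.AdeleSp
import Pool.Agent.FC.GLfin
import Pool.Agent.FC.RedB

/-!
# Project FC: adelic reduced bases
-/

open RestrictedProduct Matrix MeasureTheory

noncomputable section

namespace Pool.Agent.FC

/-- `v ∈ L_g`, i.e. `g_p v` is integral for all `p` -/
def InL {n : ℕ} (g : GA n) (v : Fin n ⊕ Fin n → ℚ) : Prop :=
  ∀ (p : Nat.Primes) (i : Fin n ⊕ Fin n), ‖(gp g p *ᵥ fun j => (v j : ℚ_[(p : ℕ)])) i‖ ≤ 1

/-- the square of the norm of `g_∞ v` -/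
def nr {n : ℕ} (g : GA n) (v : Fin n ⊕ Fin n → ℚ) : ℝ :=
  ∑ i, ((gR g *ᵥ fun j => (v j : ℝ)) i) ^ 2

/-- the real matrix `g_∞ δ`, with rows numbered -/
def mreal {n : ℕ} (g : GA n) (δ : Matrix (Fin n ⊕ Fin n) (Fin (n + n)) ℚ) :
    Matrix (Fin (n + n)) (Fin (n + n)) ℝ :=
  (gR g * δ.map (Rat.cast : ℚ → ℝ)).submatrix finSumFinEquiv.symm id

/-- the `j`-th basis vector -/
def bvec {n : ℕ} (δ : Matrix (Fin n ⊕ Fin n) (Fin (n + n)) ℚ) (j : Fin (n + n)) :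
    Fin n ⊕ Fin n → ℚ := fun i => δ i j

/-- the `l`-th dual basis vector -/
def dvec {n : ℕ} (δ' : Matrix (Fin (n + n)) (Fin n ⊕ Fin n) ℚ) (l : Fin (n + n)) :
    Fin n ⊕ Fin n → ℚ := -(J (Fin n) ℚ *ᵥ (fun i => δ' l i))

/-- `δ` is a reduced basis of `L_g`, with inverse `δ'` and reduction data `N`, `d` -/
structure RB {n : ℕ} (g : GA n) (δ : Matrix (Fin n ⊕ Fin n) (Fin (n + n)) ℚ)
    (δ' : Matrix (Fin (n + n)) (Fin n ⊕ Fin n) ℚ) (N : Matrix (Fin (n + n)) (Fin (n + n)) ℝ)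
    (d : Fin (n + n) → ℝ) : Prop where
  mul1 : δ * δ' = 1
  mul2 : δ' * δ = 1
  int1 : ∀ (p : Nat.Primes) i j, ‖(gp g p * δ.map (Rat.cast : ℚ → ℚ_[(p : ℕ)])) i j‖ ≤ 1
  int2 : ∀ (p : Nat.Primes) i j, ‖(δ'.map (Rat.cast : ℚ → ℚ_[(p : ℕ)]) * gp g⁻¹ p) i j‖ ≤ 1
  red : Red.IsRed ((mreal g δ)ᵀ * mreal g δ) N d

namespace RedA

theorem int_mul {p : Nat.Primes} {a b c : Type*} [Fintype b] {A : Matrix a b ℚ_[(p : ℕ)]}
    {B : Matrix b c ℚ_[(p : ℕ)]} (hA : ∀ i j, ‖A i j‖ ≤ 1) (hB : ∀ i j, ‖B i j‖ ≤ 1) (i : a)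
    (j : c) : ‖(A * B) i j‖ ≤ 1 := by
  rw [Matrix.mul_apply]
  refine IsUltrametricDist.norm_sum_le_of_forall_le_of_nonneg zero_le_one fun k _ => ?_
  rw [norm_mul]
  exact mul_le_one₀ (hA i k) (norm_nonneg _) (hB k j)

theorem int_mulVec {p : Nat.Primes} {a b : Type*} [Fintype b] {A : Matrix a b ℚ_[(p : ℕ)]}
    {v : b → ℚ_[(p : ℕ)]} (hA : ∀ i j, ‖A i j‖ ≤ 1) (hv : ∀ j, ‖v j‖ ≤ 1) (i : a) :
    ‖(A *ᵥ v) i‖ ≤ 1 := by
  unfold Matrix.mulVec dotProduct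
  refine IsUltrametricDist.norm_sum_le_of_forall_le_of_nonneg zero_le_one fun k _ => ?_
  rw [norm_mul]
  exact mul_le_one₀ (hA i k) (norm_nonneg _) (hv k)

theorem map_cast_mul {K : Type*} [DivisionRing K] [CharZero K] {a b c : Type*} [Fintype b]
    (A : Matrix a b ℚ) (B : Matrix b c ℚ) : (A * B).map (Rat.cast : ℚ → K) =
      A.map (Rat.cast : ℚ → K) * B.map (Rat.cast : ℚ → K) :=
  Matrix.map_mul (f := Rat.castHom K)

theorem map_cast_one {K : Type*} [DivisionRing K] [CharZero K] {a : Type*} [DecidableEq a] :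
    (1 : Matrix a a ℚ).map (Rat.cast : ℚ → K) = 1 :=
  Matrix.map_one (f := Rat.castHom K) (map_zero _) (map_one _)

theorem cast_mulVec {K : Type*} [DivisionRing K] [CharZero K] {a b : Type*} [Fintype b]
    (A : Matrix a b ℚ) (v : b → ℚ) : (fun i => (((A *ᵥ v) i : ℚ) : K)) =
      A.map (Rat.cast : ℚ → K) *ᵥ fun j => (v j : K) := by
  ext i
  simp [Matrix.mulVec, dotProduct]

variable {n : ℕ}

theorem coe_mul_inv (g : GA n) : (g : Mat n Adele) * ((g⁻¹ : GA n) : Mat n Adele) = 1 := by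
  have := congrArg (fun x : GA n => (x : Mat n Adele)) (mul_inv_cancel g)
  exact this

theorem coe_inv_mul (g : GA n) : ((g⁻¹ : GA n) : Mat n Adele) * (g : Mat n Adele) = 1 := by
  have := congrArg (fun x : GA n => (x : Mat n Adele)) (inv_mul_cancel g)
  exact this

theorem gp_mul_inv (g : GA n) (p : Nat.Primes) : gp g p * gp g⁻¹ p = 1 := by
  unfold gp
  rw [← Matrix.map_mul, coe_mul_inv, Matrix.map_one _ (map_zero _) (map_one _)]

theorem gp_inv_mul (g : GA n) (p : Nat.Primes) : gp g⁻¹ p * gp g p = 1 := by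
  unfold gp
  rw [← Matrix.map_mul, coe_inv_mul, Matrix.map_one _ (map_zero _) (map_one _)]

theorem gR_mul_inv (g : GA n) : gR g * gR g⁻¹ = 1 := by
  unfold gR
  rw [← Matrix.map_mul, coe_mul_inv, Matrix.map_one _ (map_zero _) (map_one _)]

theorem gR_inv_mul (g : GA n) : gR g⁻¹ * gR g = 1 := by
  unfold gR
  rw [← Matrix.map_mul, coe_inv_mul, Matrix.map_one _ (map_zero _) (map_one _)]

theorem coe_J (g : GA n) : (g : Mat n Adele) * J (Fin n) Adele =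
    J (Fin n) Adele * ((g⁻¹ : GA n) : Mat n Adele)ᵀ := by
  have h1 : (g : Mat n Adele) * J (Fin n) Adele * (g : Mat n Adele)ᵀ = J (Fin n) Adele :=
    SymplecticGroup.mem_iff.1 g.2
  have h2 : (g : Mat n Adele)ᵀ * ((g⁻¹ : GA n) : Mat n Adele)ᵀ = 1 := by
    rw [← Matrix.transpose_mul, coe_inv_mul, Matrix.transpose_one]
  calc (g : Mat n Adele) * J (Fin n) Adele =
      (g : Mat n Adele) * J (Fin n) Adele *
        ((g : Mat n Adele)ᵀ * ((g⁻¹ : GA n) : Mat n Adele)ᵀ) := by rw [h2, Matrix.mul_one]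
    _ = ((g : Mat n Adele) * J (Fin n) Adele * (g : Mat n Adele)ᵀ) *
        ((g⁻¹ : GA n) : Mat n Adele)ᵀ := by simp only [Matrix.mul_assoc]
    _ = _ := by rw [h1]

theorem gp_J (g : GA n) (p : Nat.Primes) : gp g p * J (Fin n) _ = J (Fin n) _ * (gp g⁻¹ p)ᵀ := by
  have h := congrArg (fun M : Mat n Adele => M.map (evp p)) (coe_J g)
  simp only [Matrix.map_mul, map_J] at h
  exact h

theorem gR_J (g : GA n) : gR g * J (Fin n) _ = J (Fin n) _ * (gR g⁻¹)ᵀ := by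
  have h := congrArg (fun M : Mat n Adele => M.map evR) (coe_J g)
  simp only [Matrix.map_mul, map_J] at h
  exact h

theorem gp_symp (g : GA n) (p : Nat.Primes) : (gp g p)ᵀ * J (Fin n) _ * gp g p = J (Fin n) _ := by
  have h := congrArg (fun M : Mat n Adele => M.map (evp p)) (SymplecticGroup.mem_iff'.1 g.2)
  simp only [Matrix.map_mul, map_J] at h
  exact h

theorem gR_symp (g : GA n) : (gR g)ᵀ * J (Fin n) _ * gR g = J (Fin n) _ := by
  have h := congrArg (fun M : Mat n Adele => M.map evR) (SymplecticGroup.mem_iff'.1 g.2)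
  simp only [Matrix.map_mul, map_J] at h
  exact h

theorem det_sq_of_symp {R : Type*} [CommRing R] {A : Mat n R}
    (h : Aᵀ * J (Fin n) R * A = J (Fin n) R) : A.det ^ 2 = 1 := by
  have h1 := congrArg Matrix.det h
  rw [Matrix.det_mul, Matrix.det_mul, Matrix.det_transpose] at h1
  have h2 := J_det_mul_J_det (Fin n) R
  calc A.det ^ 2 = (A.det * (J (Fin n) R).det * A.det) * (J (Fin n) R).det := by
        rw [sq]
        linear_combination (-(A.det * A.det)) * h2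
    _ = 1 := by rw [h1, h2]

theorem symp_mulVec {R : Type*} [CommRing R] {A : Mat n R}
    (h : Aᵀ * J (Fin n) R * A = J (Fin n) R) (v w : Fin n ⊕ Fin n → R) :
    symp (A *ᵥ v) (A *ᵥ w) = symp v w := by
  unfold symp
  rw [Matrix.mulVec_mulVec, ← Matrix.vecMul_transpose, ← Matrix.dotProduct_mulVec,
    Matrix.mulVec_mulVec, ← Matrix.mul_assoc, h]

theorem symp_cast {K : Type*} [Field K] [CharZero K] (v w : Fin n ⊕ Fin n → ℚ) :
    ((symp v w : ℚ) : K) = symp (fun i => (v i : K)) (fun i => (w i : K)) := by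
  have h1 : (fun i => (((J (Fin n) ℚ *ᵥ w) i : ℚ) : K)) =
      J (Fin n) K *ᵥ fun i => (w i : K) := by
    rw [cast_mulVec]
    congr 1
    exact map_J (Fin n) (Rat.castHom K)
  unfold symp
  rw [← h1]
  simp [dotProduct]

theorem J_mulVec_inl {R : Type*} [CommRing R] (w : Fin n ⊕ Fin n → R) (i : Fin n) :
    (J (Fin n) R *ᵥ w) (Sum.inl i) = -w (Sum.inr i) := by
  simp [J, Matrix.mulVec, dotProduct, Matrix.one_apply]

theorem J_mulVec_inr {R : Type*} [CommRing R] (w : Fin n ⊕ Fin n → R) (i : Fin n) :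
    (J (Fin n) R *ᵥ w) (Sum.inr i) = w (Sum.inl i) := by
  simp [J, Matrix.mulVec, dotProduct, Matrix.one_apply]

theorem sum_J_sq (w : Fin n ⊕ Fin n → ℝ) : ∑ i, (J (Fin n) ℝ *ᵥ w) i ^ 2 = ∑ i, w i ^ 2 := by
  rw [Fintype.sum_sum_type, Fintype.sum_sum_type, add_comm]
  congr 1
  · exact Finset.sum_congr rfl fun i _ => by rw [J_mulVec_inr]
  · exact Finset.sum_congr rfl fun i _ => by rw [J_mulVec_inl, neg_sq]

theorem PD_of_inv {k : ℕ} {M H : Matrix (Fin k) (Fin k) ℝ} (h : H * M = 1) :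
    Red.PD (Mᵀ * M) := by
  constructor
  · rw [Matrix.transpose_mul, Matrix.transpose_transpose]
  · intro x hx
    have h1 : M *ᵥ x ≠ 0 := by
      intro h0
      apply hx
      calc x = (H * M) *ᵥ x := by rw [h, Matrix.one_mulVec]
        _ = H *ᵥ (M *ᵥ x) := (Matrix.mulVec_mulVec _ _ _).symm
        _ = 0 := by rw [h0, Matrix.mulVec_zero]
    rw [← Matrix.mulVec_mulVec, Matrix.dotProduct_mulVec, Matrix.vecMul_transpose]
    obtain ⟨i, hi⟩ : ∃ i, (M *ᵥ x) i ≠ 0 := by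
      by_contra hn
      push Not at hn
      exact h1 (funext hn)
    unfold dotProduct
    refine Finset.sum_pos' (fun i _ => mul_self_nonneg _) ⟨i, Finset.mem_univ _, ?_⟩
    exact mul_self_pos.2 hi

theorem mreal_mul_of {g : GA n} {δ : Matrix (Fin n ⊕ Fin n) (Fin (n + n)) ℚ}
    {δ' : Matrix (Fin (n + n)) (Fin n ⊕ Fin n) ℚ} (h : δ * δ' = 1) :
    mreal g δ * (δ'.map (Rat.cast : ℚ → ℝ) * gR g⁻¹).submatrix id finSumFinEquiv.symm = 1 := by
  unfold mreal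
  rw [← Matrix.submatrix_mul _ _ _ id _ Function.bijective_id]
  have h1 : gR g * δ.map (Rat.cast : ℚ → ℝ) * (δ'.map (Rat.cast : ℚ → ℝ) * gR g⁻¹) = 1 := by
    calc gR g * δ.map (Rat.cast : ℚ → ℝ) * (δ'.map (Rat.cast : ℚ → ℝ) * gR g⁻¹) =
        gR g * (δ * δ').map (Rat.cast : ℚ → ℝ) * gR g⁻¹ := by
          rw [map_cast_mul]
          simp only [Matrix.mul_assoc]
      _ = 1 := by rw [h, map_cast_one, Matrix.mul_one, gR_mul_inv]
  rw [h1]
  exact Matrix.submatrix_one_equiv _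

end RedA

open RedA

theorem exists_RB {n : ℕ} (g : GA n) : ∃ δ δ' N d, RB g δ δ' N d := by
  -- a basis of the lattice
  obtain ⟨δ₀, δ₀', hδ₀, hi1, hi2⟩ := GLfin.exists_glob
    ((g : Mat n Adele).map (RingHom.snd ℝ Afin))
    (((g⁻¹ : GA n) : Mat n Adele).map (RingHom.snd ℝ Afin)) (by
      rw [← Matrix.map_mul, coe_mul_inv, Matrix.map_one _ (map_zero _) (map_one _)])
  have hδ₀2 : δ₀' * δ₀ = 1 := mul_eq_one_comm.1 hδ₀
  have hj1 : ∀ (p : Nat.Primes) i j,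
      ‖(gp g p * δ₀.map (Rat.cast : ℚ → ℚ_[(p : ℕ)])) i j‖ ≤ 1 := by
    intro p i j
    have h1 : (((g : Mat n Adele).map (RingHom.snd ℝ Afin)) * δ₀.map ratFin).map (GLfin.ev p) =
        gp g p * δ₀.map (Rat.cast : ℚ → ℚ_[(p : ℕ)]) := by
      rw [Matrix.map_mul]
      rfl
    rw [← h1]
    exact hi1 p i j
  have hj2 : ∀ (p : Nat.Primes) i j,
      ‖(δ₀'.map (Rat.cast : ℚ → ℚ_[(p : ℕ)]) * gp g⁻¹ p) i j‖ ≤ 1 := by
    intro p i j
    have h1 : (δ₀'.map ratFin * ((g⁻¹ : GA n) : Mat n Adele).map (RingHom.snd ℝ Afin)).map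
        (GLfin.ev p) = δ₀'.map (Rat.cast : ℚ → ℚ_[(p : ℕ)]) * gp g⁻¹ p := by
      rw [Matrix.map_mul]
      rfl
    rw [← h1]
    exact hi2 p i j
  set e : Fin (n + n) ≃ Fin n ⊕ Fin n := finSumFinEquiv.symm with he
  set δ₁ : Matrix (Fin n ⊕ Fin n) (Fin (n + n)) ℚ := δ₀.submatrix id e with hδ₁
  set δ₁' : Matrix (Fin (n + n)) (Fin n ⊕ Fin n) ℚ := δ₀'.submatrix e id with hδ₁'
  have hm1 : δ₁ * δ₁' = 1 := by
    rw [hδ₁, hδ₁', ← Matrix.submatrix_mul _ _ _ _ _ e.bijective, hδ₀, Matrix.submatrix_id_id]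
  have hm2 : δ₁' * δ₁ = 1 := by
    rw [hδ₁, hδ₁', ← Matrix.submatrix_mul _ _ _ _ _ Function.bijective_id, hδ₀2]
    exact Matrix.submatrix_one_equiv _
  -- reduction
  have hMH := mreal_mul_of (g := g) hm1
  obtain ⟨γ, hγ, N, d, hred⟩ := Red.exists_red (n + n) _ (PD_of_inv (mul_eq_one_comm.1 hMH))
  have hγi : γ * γ⁻¹ = 1 := Matrix.mul_nonsing_inv γ hγ
  have hγi2 : γ⁻¹ * γ = 1 := Matrix.nonsing_inv_mul γ hγ
  set G : Matrix (Fin (n + n)) (Fin (n + n)) ℚ := γ.map (Int.castRingHom ℚ) with hG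
  set G' : Matrix (Fin (n + n)) (Fin (n + n)) ℚ := γ⁻¹.map (Int.castRingHom ℚ) with hG'
  have hGG : G * G' = 1 := by
    rw [hG, hG', ← Matrix.map_mul, hγi, Matrix.map_one _ (map_zero _) (map_one _)]
  have hGG2 : G' * G = 1 := by
    rw [hG, hG', ← Matrix.map_mul, hγi2, Matrix.map_one _ (map_zero _) (map_one _)]
  have hGint : ∀ (p : Nat.Primes) (γ : Matrix (Fin (n + n)) (Fin (n + n)) ℤ) i j,
      ‖((γ.map (Int.castRingHom ℚ)).map (Rat.cast : ℚ → ℚ_[(p : ℕ)])) i j‖ ≤ 1 := by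
    intro p γ i j
    have h1 : ((γ.map (Int.castRingHom ℚ)).map (Rat.cast : ℚ → ℚ_[(p : ℕ)])) i j =
        ((γ i j : ℤ) : ℚ_[(p : ℕ)]) := by
      simp
    rw [h1]
    exact IsUltrametricDist.norm_intCast_le_one _ _
  refine ⟨δ₁ * G, G' * δ₁', N, d, ⟨?_, ?_, ?_, ?_, ?_⟩⟩
  · calc δ₁ * G * (G' * δ₁') = δ₁ * (G * G') * δ₁' := by simp only [Matrix.mul_assoc]
      _ = 1 := by rw [hGG, Matrix.mul_one, hm1]
  · calc G' * δ₁' * (δ₁ * G) = G' * (δ₁' * δ₁) * G := by simp only [Matrix.mul_assoc]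
      _ = 1 := by rw [hm2, Matrix.mul_one, hGG2]
  · intro p i j
    rw [map_cast_mul, ← Matrix.mul_assoc]
    refine int_mul (fun a b => ?_) (hGint p γ) i j
    exact hj1 p a (e b)
  · intro p i j
    rw [map_cast_mul, Matrix.mul_assoc]
    refine int_mul (hGint p γ⁻¹) (fun a b => ?_) i j
    exact hj2 p (e a) b
  · have h1 : mreal g (δ₁ * G) = mreal g δ₁ * Red.toR γ := by
      unfold mreal
      rw [map_cast_mul, ← Matrix.mul_assoc]
      have h2 : G.map (Rat.cast : ℚ → ℝ) = Red.toR γ := by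
        ext i j
        simp [hG, Red.toR]
      rw [h2]
      rfl
    rw [h1, Matrix.transpose_mul]
    have h3 : (Red.toR γ)ᵀ * (mreal g δ₁)ᵀ * (mreal g δ₁ * Red.toR γ) =
        (Red.toR γ)ᵀ * ((mreal g δ₁)ᵀ * mreal g δ₁) * Red.toR γ := by
      simp only [Matrix.mul_assoc]
    rw [h3]
    exact hred

/-- the symplectic form is integral on the lattice -/
theorem symp_int {n : ℕ} {g : GA n} {v w : Fin n ⊕ Fin n → ℚ} (hv : InL g v) (hw : InL g w) :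
    ∃ z : ℤ, (z : ℚ) = symp v w := by
  refine GLfin.exists_int _ fun p => ?_
  rw [symp_cast, ← symp_mulVec (gp_symp g p)]
  unfold symp dotProduct
  refine IsUltrametricDist.norm_sum_le_of_forall_le_of_nonneg zero_le_one fun k _ => ?_
  rw [norm_mul]
  refine mul_le_one₀ (hv p k) (norm_nonneg _) ?_
  rcases k with k | k
  · rw [J_mulVec_inl, norm_neg]
    exact hw p _
  · rw [J_mulVec_inr]
    exact hw p _

/-- Cauchy-Schwarz for the symplectic form -/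
theorem symp_sq_le {n : ℕ} (g : GA n) (v w : Fin n ⊕ Fin n → ℚ) :
    ((symp v w : ℚ) : ℝ) ^ 2 ≤ nr g v * nr g w := by
  rw [symp_cast, ← symp_mulVec (gR_symp g)]
  unfold symp dotProduct nr
  rw [← sum_J_sq (gR g *ᵥ fun j => (w j : ℝ))]
  exact Finset.sum_mul_sq_le_sq_mul_sq _ _ _

namespace RB

variable {n : ℕ} {g : GA n} {δ : Matrix (Fin n ⊕ Fin n) (Fin (n + n)) ℚ}
  {δ' : Matrix (Fin (n + n)) (Fin n ⊕ Fin n) ℚ} {N : Matrix (Fin (n + n)) (Fin (n + n)) ℝ}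
  {d : Fin (n + n) → ℝ}

theorem b_mem (h : RB g δ δ' N d) (j : Fin (n + n)) : InL g (bvec δ j) :=
  fun p i => h.int1 p i j

theorem real_d (g : GA n) (δ' : Matrix (Fin (n + n)) (Fin n ⊕ Fin n) ℚ) (l : Fin (n + n)) :
    (gR g *ᵥ fun j => ((dvec δ' l j : ℚ) : ℝ)) =
      -(J (Fin n) ℝ *ᵥ fun i => (δ'.map (Rat.cast : ℚ → ℝ) * gR g⁻¹) l i) := by
  have h1 : (fun j => ((dvec δ' l j : ℚ) : ℝ)) = -(J (Fin n) ℝ *ᵥ fun i => (δ' l i : ℝ)) := by
    have h2 := cast_mulVec (K := ℝ) (J (Fin n) ℚ) (fun i => δ' l i)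
    have h3 : (J (Fin n) ℚ).map (Rat.cast : ℚ → ℝ) = J (Fin n) ℝ :=
      map_J (Fin n) (Rat.castHom ℝ)
    rw [h3] at h2
    rw [← h2]
    ext j
    simp [dvec]
  rw [h1, Matrix.mulVec_neg, Matrix.mulVec_mulVec, gR_J, ← Matrix.mulVec_mulVec]
  congr 2
  ext i
  simp [Matrix.mulVec, Matrix.mul_apply, dotProduct, mul_comm]

theorem p_d (g : GA n) (p : Nat.Primes) (δ' : Matrix (Fin (n + n)) (Fin n ⊕ Fin n) ℚ)
    (l : Fin (n + n)) :
    (gp g p *ᵥ fun j => ((dvec δ' l j : ℚ) : ℚ_[(p : ℕ)])) =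
      -(J (Fin n) _ *ᵥ fun i => (δ'.map (Rat.cast : ℚ → ℚ_[(p : ℕ)]) * gp g⁻¹ p) l i) := by
  have h1 : (fun j => ((dvec δ' l j : ℚ) : ℚ_[(p : ℕ)])) =
      -(J (Fin n) _ *ᵥ fun i => (δ' l i : ℚ_[(p : ℕ)])) := by
    have h2 := cast_mulVec (K := ℚ_[(p : ℕ)]) (J (Fin n) ℚ) (fun i => δ' l i)
    have h3 : (J (Fin n) ℚ).map (Rat.cast : ℚ → ℚ_[(p : ℕ)]) = J (Fin n) _ :=
      map_J (Fin n) (Rat.castHom _)
    rw [h3] at h2
    rw [← h2]
    ext j
    simp [dvec]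
  rw [h1, Matrix.mulVec_neg, Matrix.mulVec_mulVec, gp_J, ← Matrix.mulVec_mulVec]
  congr 2
  ext i
  simp [Matrix.mulVec, Matrix.mul_apply, dotProduct, mul_comm]

theorem d_mem (h : RB g δ δ' N d) (l : Fin (n + n)) : InL g (dvec δ' l) := by
  intro p i
  rw [p_d, Pi.neg_apply, norm_neg]
  rcases i with i | i
  · rw [J_mulVec_inl, norm_neg]
    exact h.int2 p l _
  · rw [J_mulVec_inr]
    exact h.int2 p l _

theorem pair (h : RB g δ δ' N d) (j l : Fin (n + n)) :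
    symp (bvec δ j) (dvec δ' l) = if j = l then 1 else 0 := by
  have h1 : symp (bvec δ j) (dvec δ' l) = (δ' * δ) l j := by
    unfold symp dvec
    rw [Matrix.mulVec_neg, Matrix.mulVec_mulVec, J_squared, Matrix.neg_mulVec, Matrix.one_mulVec,
      neg_neg, Matrix.mul_apply]
    exact Finset.sum_congr rfl fun i _ => mul_comm _ _
  rw [h1, h.mul2, Matrix.one_apply]
  by_cases hjl : j = l
  · rw [if_pos hjl, if_pos hjl.symm]
  · rw [if_neg hjl, if_neg fun e => hjl e.symm]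

theorem nr_b_eq (g : GA n) (δ : Matrix (Fin n ⊕ Fin n) (Fin (n + n)) ℚ) (j : Fin (n + n)) :
    nr g (bvec δ j) = ∑ l, mreal g δ l j ^ 2 := by
  unfold nr
  rw [← Equiv.sum_comp (finSumFinEquiv.symm : Fin (n + n) ≃ Fin n ⊕ Fin n)]
  rfl

theorem nr_b (h : RB g δ δ' N d) {i j : Fin (n + n)} (hji : j ≤ i) :
    nr g (bvec δ j) ≤ Red.cst (n + n) * (4 / 3) ^ (n + n) * d i := by
  rw [nr_b_eq]
  exact Red.col_bound_le h.red hji

/-- the real inverse -/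
theorem mreal_mul (h : RB g δ δ' N d) :
    mreal g δ * (δ'.map (Rat.cast : ℚ → ℝ) * gR g⁻¹).submatrix id finSumFinEquiv.symm = 1 :=
  mreal_mul_of h.mul1

theorem nr_d (h : RB g δ δ' N d) {i l : Fin (n + n)} (hil : i ≤ l) :
    nr g (dvec δ' l) ≤ Red.cst (n + n) * (4 / 3) ^ (n + n) / d i := by
  have h1 : nr g (dvec δ' l) = ∑ j, ((δ'.map (Rat.cast : ℚ → ℝ) * gR g⁻¹).submatrix id
      finSumFinEquiv.symm) l j ^ 2 := by
    unfold nr
    rw [real_d]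
    simp only [Pi.neg_apply, neg_sq]
    rw [sum_J_sq, ← Equiv.sum_comp (finSumFinEquiv.symm : Fin (n + n) ≃ Fin n ⊕ Fin n)]
    rfl
  rw [h1]
  exact Red.row_bound_le h.red h.mreal_mul hil

/-- the lattice vectors are integral combinations of the basis -/
theorem exists_coeff (h : RB g δ δ' N d) {v : Fin n ⊕ Fin n → ℚ} (hv : InL g v) :
    ∃ c : Fin (n + n) → ℤ, v = ∑ j, (c j : ℚ) • bvec δ j := by
  have h1 : ∀ j, ∃ z : ℤ, (z : ℚ) = (δ' *ᵥ v) j := by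
    intro j
    refine GLfin.exists_int _ fun p => ?_
    have h2 := congrFun (cast_mulVec (K := ℚ_[(p : ℕ)]) δ' v) j
    have h3 : δ'.map (Rat.cast : ℚ → ℚ_[(p : ℕ)]) *ᵥ (fun j => (v j : ℚ_[(p : ℕ)])) =
        (δ'.map (Rat.cast : ℚ → ℚ_[(p : ℕ)]) * gp g⁻¹ p) *ᵥ
          (gp g p *ᵥ fun j => (v j : ℚ_[(p : ℕ)])) := by
      rw [Matrix.mulVec_mulVec, Matrix.mul_assoc, gp_inv_mul, Matrix.mul_one]
    rw [h2, h3]
    exact int_mulVec (h.int2 p) (hv p) j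
  choose c hc using h1
  refine ⟨c, ?_⟩
  have h4 : v = δ *ᵥ (δ' *ᵥ v) := by rw [Matrix.mulVec_mulVec, h.mul1, Matrix.one_mulVec]
  ext i
  conv_lhs => rw [h4]
  rw [Finset.sum_apply]
  unfold Matrix.mulVec dotProduct
  refine Finset.sum_congr rfl fun j _ => ?_
  rw [Pi.smul_apply, smul_eq_mul, hc j]
  unfold bvec Matrix.mulVec dotProduct
  ring

/-- a nonzero vector of the lattice bounds the first coefficient -/
theorem first_le (h : RB g δ δ' N d) {v : Fin n ⊕ Fin n → ℚ} (hv : v ≠ 0) (hvL : InL g v)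
    (i0 : Fin (n + n)) (h0 : i0.val = 0) : d i0 ≤ (4 / 3) ^ (n + n) * nr g v := by
  obtain ⟨c, hc⟩ := h.exists_coeff hvL
  have hc0 : c ≠ 0 := by
    intro h0
    apply hv
    rw [hc, h0]
    simp
  refine (Red.first_le h.red c hc0 i0 h0).trans (le_of_eq ?_)
  congr 1
  unfold nr
  rw [← Equiv.sum_comp (finSumFinEquiv.symm : Fin (n + n) ≃ Fin n ⊕ Fin n)]
  refine Finset.sum_congr rfl fun l _ => ?_
  congr 1
  have h1 : (fun j => (v j : ℝ)) = δ.map (Rat.cast : ℚ → ℝ) *ᵥ fun j => ((c j : ℤ) : ℝ) := by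
    ext i
    rw [hc]
    simp [Matrix.mulVec, dotProduct, bvec, mul_comm]
  rw [h1, Matrix.mulVec_mulVec]
  rfl

theorem first_eq (h : RB g δ δ' N d) (i0 : Fin (n + n)) (h0 : i0.val = 0) :
    nr g (bvec δ i0) = d i0 := by
  rw [nr_b_eq]
  exact Red.first_eq h.red i0 h0

theorem det_sq (h : RB g δ δ' N d) : (mreal g δ).det ^ 2 = 1 := by
  set e : Fin (n + n) ≃ Fin n ⊕ Fin n := finSumFinEquiv.symm with he
  set a : ℚ := (δ.submatrix e id).det with ha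
  set b : ℚ := (δ'.submatrix id e).det with hb
  have hab : a * b = 1 := by
    rw [ha, hb, ← Matrix.det_mul, ← Matrix.submatrix_mul _ _ _ id _ Function.bijective_id, h.mul1]
    rw [Matrix.submatrix_one_equiv, Matrix.det_one]
  have hdetp : ∀ (p : Nat.Primes) (g : GA n), ‖(gp g p).det‖ = 1 := by
    intro p g
    have h1 := det_sq_of_symp (gp_symp g p)
    have h2 : ‖(gp g p).det‖ ^ 2 = 1 := by rw [← norm_pow, h1, norm_one]
    nlinarith [norm_nonneg (gp g p).det]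
  have hcast : ∀ (p : Nat.Primes) (M : Matrix (Fin (n + n)) (Fin (n + n)) ℚ),
      ((M.det : ℚ) : ℚ_[(p : ℕ)]) = (M.map (Rat.cast : ℚ → ℚ_[(p : ℕ)])).det := by
    intro p M
    have := (Rat.castHom ℚ_[(p : ℕ)]).map_det M
    rw [RingHom.mapMatrix_apply] at this
    exact this
  have hap : ∀ p : Nat.Primes, ‖(a : ℚ_[(p : ℕ)])‖ ≤ 1 := by
    intro p
    have h1 : GLfin.Int p ((gp g p * δ.map (Rat.cast : ℚ → ℚ_[(p : ℕ)])).submatrix e id) :=
      fun i j => h.int1 p _ _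
    have h2 := h1.det_le
    have h3 : (gp g p * δ.map (Rat.cast : ℚ → ℚ_[(p : ℕ)])).submatrix e id =
        (gp g p).submatrix e e * (δ.map (Rat.cast : ℚ → ℚ_[(p : ℕ)])).submatrix e id :=
      Matrix.submatrix_mul _ _ _ _ _ e.bijective
    rw [h3, Matrix.det_mul, Matrix.det_submatrix_equiv_self, norm_mul, hdetp, one_mul] at h2
    rw [ha, hcast]
    exact h2
  have hbp : ∀ p : Nat.Primes, ‖(b : ℚ_[(p : ℕ)])‖ ≤ 1 := by
    intro p
    have h1 : GLfin.Int p ((δ'.map (Rat.cast : ℚ → ℚ_[(p : ℕ)]) * gp g⁻¹ p).submatrix id e) :=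
      fun i j => h.int2 p _ _
    have h2 := h1.det_le
    have h3 : (δ'.map (Rat.cast : ℚ → ℚ_[(p : ℕ)]) * gp g⁻¹ p).submatrix id e =
        (δ'.map (Rat.cast : ℚ → ℚ_[(p : ℕ)])).submatrix id e * (gp g⁻¹ p).submatrix e e :=
      Matrix.submatrix_mul _ _ _ _ _ e.bijective
    rw [h3, Matrix.det_mul, Matrix.det_submatrix_equiv_self, norm_mul, hdetp, mul_one] at h2
    rw [hb, hcast]
    exact h2
  obtain ⟨za, hza⟩ := GLfin.exists_int a hap
  obtain ⟨zb, hzb⟩ := GLfin.exists_int b hbp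
  have hz : za * zb = 1 := by
    have : (za : ℚ) * zb = 1 := by rw [hza, hzb, hab]
    exact_mod_cast this
  have hza2 : za ^ 2 = 1 := by
    rcases Int.eq_one_or_neg_one_of_mul_eq_one hz with h1 | h1 <;> rw [h1] <;> norm_num
  have ha2 : a ^ 2 = 1 := by
    rw [← hza]
    exact_mod_cast hza2
  have h4 : mreal g δ = (gR g).submatrix e e * (δ.map (Rat.cast : ℚ → ℝ)).submatrix e id :=
    Matrix.submatrix_mul _ _ _ _ _ e.bijective
  have h5 : ((δ.map (Rat.cast : ℚ → ℝ)).submatrix e id).det = (a : ℝ) := by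
    have := (Rat.castHom ℝ).map_det (δ.submatrix e id)
    rw [RingHom.mapMatrix_apply] at this
    exact this.symm
  rw [h4, Matrix.det_mul, Matrix.det_submatrix_equiv_self, h5, mul_pow,
    det_sq_of_symp (gR_symp g), one_mul]
  exact_mod_cast ha2

theorem prod_d (h : RB g δ δ' N d) : ∏ i, d i = 1 := by
  rw [Red.prod_d h.red, h.det_sq]

theorem bvec_ne_zero (h : RB g δ δ' N d) (j : Fin (n + n)) : bvec δ j ≠ 0 := by
  intro h0
  have h1 := h.pair j j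
  rw [h0, if_pos rfl] at h1
  simp [symp] at h1

end RB

end Pool.Agent.FC
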