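import Pool.Agent.FC.Short
import Pool.Agent.FC.RedA

/-!
# FC: Mahler compactness, finiteness of the Gram matrices
-/

open RestrictedProduct Matrix MeasureTheory Topology

noncomputable section

namespace Pool.Agent.FC

namespace MahB

theorem le_first {n : ℕ} {ε : ℝ} {g : GA n} (hg : ¬ HasShort g ε)
    {δ : Matrix (Fin n ⊕ Fin n) (Fin (n + n)) ℚ} {δ' : Matrix (Fin (n + n)) (Fin n ⊕ Fin n) ℚ}
    {N : Matrix (Fin (n + n)) (Fin (n + n)) ℝ} {d : Fin (n + n) → ℝ} (h : RB g δ δ' N d)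
    (i0 : Fin (n + n)) (h0 : i0.val = 0) : ε ≤ d i0 := by
  by_contra hc
  rw [not_le] at hc
  refine hg ⟨bvec δ i0, h.bvec_ne_zero i0, h.b_mem i0, ?_⟩
  refine lt_of_eq_of_lt ?_ hc
  rw [← h.first_eq i0 h0]
  unfold nr dotProduct
  exact Finset.sum_congr rfl fun i _ => (sq _).symm

theorem gram_apply {n : ℕ} (δ : Matrix (Fin n ⊕ Fin n) (Fin (n + n)) ℚ) (i j : Fin (n + n)) :
    (δᵀ * J (Fin n) ℚ * δ) i j = symp (bvec δ i) (bvec δ j) := by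
  rw [Matrix.mul_assoc]
  rfl

/-- rational matrices with integral entries of absolute value at most `C` -/
theorem finite_box (k : ℕ) (C : ℕ) : Set.Finite {G : Matrix (Fin k) (Fin k) ℚ |
    ∀ i j, ∃ z : ℤ, (z : ℚ) = G i j ∧ |z| ≤ (C : ℤ)} := by
  have h1 : Set.Finite (Set.pi Set.univ fun _ : Fin k => Set.pi Set.univ fun _ : Fin k =>
      (fun z : ℤ => (z : ℚ)) '' Set.Icc (-(C : ℤ)) C) :=
    Set.Finite.pi fun _ => Set.Finite.pi fun _ => (Set.finite_Icc _ _).image _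
  refine Set.Finite.subset h1 fun G hG => ?_
  intro i _ j _
  obtain ⟨z, hz, hzC⟩ := hG i j
  exact ⟨z, abs_le.1 hzC, hz⟩

end MahB

open MahB in
theorem mahB (n : ℕ) {ε : ℝ} (hε : 0 < ε) : ∃ (B : ℝ)
    (F : Finset (Matrix (Fin n ⊕ Fin n) (Fin (n + n)) ℚ ×
      Matrix (Fin (n + n)) (Fin n ⊕ Fin n) ℚ)),
    (∀ q ∈ F, q.1 * q.2 = 1 ∧ q.2 * q.1 = 1) ∧
    ∀ g : GA n, ¬ HasShort g ε → ∃ (δ : Matrix (Fin n ⊕ Fin n) (Fin (n + n)) ℚ)
      (δ' : Matrix (Fin (n + n)) (Fin n ⊕ Fin n) ℚ),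
      δ * δ' = 1 ∧ δ' * δ = 1 ∧
      (∀ (p : Nat.Primes) i j, ‖(gp g p * δ.map (Rat.cast : ℚ → ℚ_[(p : ℕ)])) i j‖ ≤ 1) ∧
      (∀ i j, |(gR g * δ.map (Rat.cast : ℚ → ℝ)) i j| ≤ B) ∧
      ∃ q ∈ F, δᵀ * J (Fin n) ℚ * δ = q.1ᵀ * J (Fin n) ℚ * q.1 := by
  classical
  obtain ⟨B, hB, hb⟩ := Red.exists_bound (n + n) hε
  obtain ⟨C, hC⟩ := exists_nat_ge (((n + n : ℕ) : ℝ) * B ^ 2)
  set P : Matrix (Fin (n + n)) (Fin (n + n)) ℚ →
      (Matrix (Fin n ⊕ Fin n) (Fin (n + n)) ℚ × Matrix (Fin (n + n)) (Fin n ⊕ Fin n) ℚ) → Prop :=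
    fun G q => (q.1 * q.2 = 1 ∧ q.2 * q.1 = 1) ∧ G = q.1ᵀ * J (Fin n) ℚ * q.1 with hP
  set f : Matrix (Fin (n + n)) (Fin (n + n)) ℚ →
      (Matrix (Fin n ⊕ Fin n) (Fin (n + n)) ℚ × Matrix (Fin (n + n)) (Fin n ⊕ Fin n) ℚ) :=
    fun G => if h : ∃ q, P G q then Classical.choose h else (0, 0) with hf
  have hfP : ∀ G, (∃ q, P G q) → P G (f G) := by
    intro G h
    simp only [hf, dif_pos h]
    exact Classical.choose_spec h
  have hfin : Set.Finite {G : Matrix (Fin (n + n)) (Fin (n + n)) ℚ |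
      (∀ i j, ∃ z : ℤ, (z : ℚ) = G i j ∧ |z| ≤ (C : ℤ)) ∧ ∃ q, P G q} :=
    (finite_box (n + n) C).subset fun G hG => hG.1
  refine ⟨B, hfin.toFinset.image f, ?_, ?_⟩
  · intro q hq
    obtain ⟨G, hG, rfl⟩ := Finset.mem_image.1 hq
    exact (hfP G ((hfin.mem_toFinset.1 hG).2)).1
  · intro g hg
    obtain ⟨δ, δ', N, d, h⟩ := exists_RB g
    have hbd := hb (mreal g δ) _ N d h.red h.det_sq h.mreal_mul (le_first hg h)
    refine ⟨δ, δ', h.mul1, h.mul2, h.int1, ?_, ?_⟩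
    · intro i j
      have h1 := (hbd (finSumFinEquiv i) j).1
      unfold mreal at h1
      rw [Matrix.submatrix_apply, Equiv.symm_apply_apply] at h1
      exact h1
    · have hex : ∃ q, P (δᵀ * J (Fin n) ℚ * δ) q := ⟨(δ, δ'), ⟨h.mul1, h.mul2⟩, rfl⟩
      refine ⟨f (δᵀ * J (Fin n) ℚ * δ), Finset.mem_image_of_mem _ (hfin.mem_toFinset.2 ⟨?_, hex⟩),
        (hfP _ hex).2⟩
      intro i j
      obtain ⟨z, hz⟩ := symp_int (h.b_mem i) (h.b_mem j)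
      refine ⟨z, by rw [gram_apply, hz], ?_⟩
      have hnr : ∀ l, nr g (bvec δ l) ≤ ((n + n : ℕ) : ℝ) * B ^ 2 := by
        intro l
        rw [RB.nr_b_eq]
        refine (Finset.sum_le_card_nsmul _ _ (B ^ 2) fun k _ => ?_).trans (le_of_eq ?_)
        · have := (hbd k l).1
          rw [← sq_abs]
          exact pow_le_pow_left₀ (abs_nonneg _) this 2
        · rw [Finset.card_univ, Fintype.card_fin, nsmul_eq_mul]
      have hnn : ∀ l, 0 ≤ nr g (bvec δ l) := fun l => Finset.sum_nonneg fun _ _ => sq_nonneg _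
      have h2 : ((z : ℝ)) ^ 2 ≤ (C : ℝ) ^ 2 := by
        have h3 := symp_sq_le g (bvec δ i) (bvec δ j)
        rw [← hz] at h3
        have h4 : nr g (bvec δ i) * nr g (bvec δ j) ≤ (C : ℝ) * C :=
          mul_le_mul ((hnr i).trans hC) ((hnr j).trans hC) (hnn j) (Nat.cast_nonneg C)
        calc ((z : ℝ)) ^ 2 = ((((z : ℤ) : ℚ)) : ℝ) ^ 2 := by norm_num
          _ ≤ _ := h3
          _ ≤ (C : ℝ) * C := h4
          _ = _ := by ring
      have h5 : |(z : ℝ)| ≤ (C : ℝ) := by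
        have := sq_le_sq.1 h2
        rwa [Nat.abs_cast] at this
      exact_mod_cast h5

end Pool.Agent.FC
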