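import Pool.Agent.FC.Short
import Pool.Agent.FC.MahA
import Pool.Agent.FC.MahB

/-!
# FC: Mahler compactness
-/

open RestrictedProduct Matrix MeasureTheory Topology

noncomputable section

namespace Pool.Agent.FC

theorem mahler (n : ℕ) {ε : ℝ} (hε : 0 < ε) :
    ∃ K : Set (GA n), IsCompact K ∧ ∀ x : GA n, ¬ HasShort x ε → ∃ k ∈ K, ∃ γ ∈ GQ n, x = k * γ := by
  obtain ⟨B, F, hF, H⟩ := mahB n hε
  have hK : ∀ q : Matrix (Fin n ⊕ Fin n) (Fin (n + n)) ℚ × Matrix (Fin (n + n)) (Fin n ⊕ Fin n) ℚ,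
      ∃ K : Set (GA n), IsCompact K ∧ (q ∈ F → ∀ k : GA n,
        (∀ (p : Nat.Primes) i j, ‖(gp k p * q.1.map (Rat.cast : ℚ → ℚ_[(p : ℕ)])) i j‖ ≤ 1) →
        (∀ i j, |(gR k * q.1.map (Rat.cast : ℚ → ℝ)) i j| ≤ B) → k ∈ K) := by
    intro q
    by_cases hq : q ∈ F
    · obtain ⟨K, hK, hK'⟩ := mah_box n B q.1 q.2 (hF q hq).1
      exact ⟨K, hK, fun _ => hK'⟩
    · exact ⟨∅, isCompact_empty, fun h => absurd h hq⟩
  choose K hKc hK using hK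
  refine ⟨⋃ q ∈ F, K q, F.isCompact_biUnion fun q _ => hKc q, fun x hx => ?_⟩
  obtain ⟨δ, δ', h1, h2, hp, hR, q, hq, hJ⟩ := H x hx
  obtain ⟨k, ⟨γ, hγ, hxk⟩, hkp, hkR⟩ := mah_transport x h1 h2 hJ
  refine ⟨k, Set.mem_biUnion hq (hK q hq k (fun p i j => ?_) fun i j => ?_), γ, hγ, hxk⟩
  · rw [hkp]
    exact hp p i j
  · rw [hkR]
    exact hR i j

end Pool.Agent.FC
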