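import Pool.Agent.FC.HFun
import Pool.Agent.FC.Mah
import Pool.Agent.FC.CuspX
import Pool.Agent.FC.CuspU
import Pool.Agent.FC.Psi3
import Pool.Agent.FC.AordL
import Pool.Agent.FC.ConvE

/-!
# FC: `R(h)` is a compact operator
-/

open RestrictedProduct Matrix MeasureTheory Topology

noncomputable section

namespace Pool.Agent.FC

open AordL in
/-- `tr(X M)` has denominator at most `3` -/
theorem CuspT.trace_le {M : Mat 6 ℚ_[(p3 : ℕ)]} (hM : M ∈ Aord) :
    ‖Matrix.trace (X3 * M)‖ ≤ 3 := by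
  have hsum : Matrix.trace (X3 * M) = ∑ i, ∑ j, X3 i j * M j i := by
    simp only [Matrix.trace, Matrix.diag_apply, Matrix.mul_apply]
  rw [hsum]
  refine norm_sum_le _ _ (by norm_num) fun i _ => norm_sum_le _ _ (by norm_num) fun j _ => ?_
  rw [norm_mul]
  have h9 : ‖(1 / 9 : ℚ_[(p3 : ℕ)])‖ = 9 := by
    rw [show (9 : ℚ_[(p3 : ℕ)]) = 3 * 3 by norm_num, norm_div, norm_mul, norm_three, norm_one]
    norm_num
  have h3 : ‖(1 / 3 : ℚ_[(p3 : ℕ)])‖ = 3 := by
    rw [norm_div, norm_three, norm_one]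
    norm_num
  have h := hM j i
  rw [X3_eq]
  rcases i with i | i <;> rcases j with j | j
  · simp
  · rw [fromBlocks_apply₁₂, Matrix.smul_apply, Matrix.map_apply, smul_eq_mul, norm_mul, h9]
    have h1 := norm_int_le (S2 i j)
    have h2 : bd (Sum.inr j) (Sum.inl i) ≤ 1 / 3 := by norm_num [bd]
    calc 9 * ‖((S2 i j : ℤ) : ℚ_[(p3 : ℕ)])‖ * ‖M (Sum.inr j) (Sum.inl i)‖
        ≤ 9 * 1 * (1 / 3) := by
          refine mul_le_mul (by linarith) (h.trans h2) (norm_nonneg _) (by norm_num)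
      _ = 3 := by norm_num
  · rw [fromBlocks_apply₂₁, Matrix.smul_apply, Matrix.map_apply, smul_eq_mul, norm_mul, h3]
    have h1 := norm_int_le (S1 i j)
    have h2 : bd (Sum.inl j) (Sum.inr i) ≤ 1 := by norm_num [bd]
    calc 3 * ‖((S1 i j : ℤ) : ℚ_[(p3 : ℕ)])‖ * ‖M (Sum.inl j) (Sum.inr i)‖
        ≤ 3 * 1 * 1 := by
          refine mul_le_mul (by linarith) (h.trans h2) (norm_nonneg _) (by norm_num)
      _ = 3 := by norm_num
  · simp

/-- `χ` takes values in the cube roots of unity on `U`. -/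
theorem chi_cube {ψ : AddChar Adele Circle} (hψ : IsStd ψ) {u : GA 6} (hu : u ∈ USet) :
    chi ψ u ^ 3 = 1 := by
  have h1 : chi ψ u = theta ψ (Matrix.trace (X3 * (gp u p3 - 1))) := rfl
  rw [h1, ← AddChar.map_nsmul_eq_pow, theta_eq_one_iff hψ]
  have h2 := CuspT.trace_le hu.2
  rw [nsmul_eq_mul, norm_mul]
  push_cast
  rw [AordL.norm_three]
  linarith

/-- The hypothesis of `Conv.isCompactOperator_Rop` for `h = hfun ψ η`. -/
theorem hcusp_hfun {ψ : AddChar Adele Circle} (hψ : IsStd ψ)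
    {η : symplecticGroup (Fin 6) ℝ → ℝ} (hc : Continuous η) (hs : HasCompactSupport η) :
    ∃ B : Set (GA 6), IsCompact B ∧ MeasurableSet B ∧
      ∀ ε > (0 : ℝ), ∃ Y : Set (AutQuot 6), IsCompact Y ∧ ∀ x ∉ Y, ∃ z : GA 6, z • x = x ∧
        ∃ c : ℂ, 1 ≤ ‖1 - c‖ ∧
          ∀ g, ‖hfun ψ η (z * g) - c * hfun ψ η g‖ ≤ ε * B.indicator 1 g := by
  obtain ⟨B, hB, hB'⟩ := exists_unif_eta hc hs
  refine ⟨{u : GA 6 | u ∈ USet ∧ prR 6 u ∈ B}, isCompact_USet_inter hB,
    (isCompact_USet_inter hB).measurableSet, ?_⟩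
  intro ε hε
  obtain ⟨W, hW, hWB⟩ := hB' ε hε
  obtain ⟨ε', hε', hcusp⟩ := exists_cusp_element hψ hW
  obtain ⟨K, hK, hKx⟩ := mahler 6 hε'
  refine ⟨(fun g : GA 6 => (QuotientGroup.mk g : AutQuot 6)) '' K,
    hK.image QuotientGroup.continuous_mk, ?_⟩
  intro x hx
  induction x using QuotientGroup.induction_on with
  | H g => ?_
  have hsh : HasShort g ε' := by
    by_contra hno
    obtain ⟨k, hk, γ, hγ, hg⟩ := hKx g hno
    apply hx
    refine ⟨k, hk, ?_⟩
    show (QuotientGroup.mk k : AutQuot 6) = QuotientGroup.mk g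
    rw [QuotientGroup.eq, hg, inv_mul_cancel_left]
    exact hγ
  obtain ⟨γ, hγ, hzU, hz1, hzW⟩ := hcusp g hsh
  refine ⟨g * γ * g⁻¹, ?_, starRingEnd ℂ ((chi ψ (g * γ * g⁻¹) : Circle) : ℂ),
    one_le_norm_one_sub (chi_cube hψ hzU) hz1, ?_⟩
  · show (QuotientGroup.mk (g * γ * g⁻¹ * g) : AutQuot 6) = QuotientGroup.mk g
    rw [QuotientGroup.eq, inv_mul_cancel_right, _root_.mul_inv_rev, inv_mul_cancel_right]
    exact (GQ 6).inv_mem hγ
  · intro g'
    rw [hfun_mul hψ hzU, ← mul_sub, norm_mul, RCLike.norm_conj, Circle.norm_coe, one_mul]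
    by_cases hg' : g' ∈ USet
    · have e1 : hfun ψ (fun x => η (prR 6 (g * γ * g⁻¹) * x)) g' - hfun ψ η g' =
          ((η (prR 6 (g * γ * g⁻¹) * prR 6 g') - η (prR 6 g') : ℝ) : ℂ) *
            starRingEnd ℂ ((chi ψ g' : Circle) : ℂ) := by
        unfold hfun
        rw [Set.indicator_of_mem hg', Set.indicator_of_mem hg']
        push_cast
        ring
      rw [e1, norm_mul, RCLike.norm_conj, Circle.norm_coe, mul_one, Complex.norm_real,
        Real.norm_eq_abs]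
      have e2 := hWB _ hzW (prR 6 g')
      have e3 : ({u : GA 6 | u ∈ USet ∧ prR 6 u ∈ B}).indicator (1 : GA 6 → ℝ) g' =
          B.indicator 1 (prR 6 g') := by
        by_cases hb : prR 6 g' ∈ B
        · rw [Set.indicator_of_mem hb, Set.indicator_of_mem (show g' ∈ {u : GA 6 | u ∈ USet ∧
            prR 6 u ∈ B} from ⟨hg', hb⟩)]
          rfl
        · rw [Set.indicator_of_notMem hb, Set.indicator_of_notMem (fun h => hb h.2)]
      rw [e3]
      exact e2
    · unfold hfun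
      rw [Set.indicator_of_notMem hg', Set.indicator_of_notMem hg', sub_self, norm_zero]
      refine mul_nonneg hε.le (Set.indicator_nonneg (fun _ _ => zero_le_one) _)

end Pool.Agent.FC
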