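import Mathlib

/-!
# MP_9a256f_nt : definitions

Fourier coefficients of automorphic representations of `Sp_{2n}(𝔸)`, `𝔸` the adele ring of `ℚ`,
attached to nilpotent orbits (symplectic partitions of `2n`).
-/

open RestrictedProduct Matrix MeasureTheory

noncomputable section

namespace Pool.Agent.FC

instance instFactPrime (p : Nat.Primes) : Fact (Nat.Prime (p : ℕ)) := ⟨p.2⟩

/-- The ring of finite adeles of `ℚ`: the restricted product of the fields `ℚ_p` with respect to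
the rings `ℤ_p`. -/
abbrev Afin : Type := Πʳ p : Nat.Primes, [ℚ_[(p : ℕ)], (PadicInt.subring (p : ℕ))]

instance instFactOpen : Fact (∀ p : Nat.Primes,
    IsOpen ((PadicInt.subring (p : ℕ) : Subring ℚ_[(p : ℕ)]) : Set ℚ_[(p : ℕ)])) :=
  ⟨fun p => by
    have : ((PadicInt.subring (p : ℕ) : Subring ℚ_[(p : ℕ)]) : Set ℚ_[(p : ℕ)])
        = {x | ‖x‖ ≤ 1} := by
      ext x; rfl
    rw [this]
    have h2 : {x : ℚ_[(p : ℕ)] | ‖x‖ ≤ 1} = Metric.closedBall 0 1 := by
      ext x; simp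
    rw [h2]
    exact IsUltrametricDist.isOpen_closedBall _ one_ne_zero⟩

/-- The adele ring of `ℚ`. -/
abbrev Adele : Type := ℝ × Afin

/-- The diagonal embedding of `ℚ` in the finite adeles. -/
def ratFin : ℚ →+* Afin where
  toFun q := ⟨fun p => (q : ℚ_[(p : ℕ)]), by
    have hfin : Set.Finite {p : Nat.Primes | (p : ℕ) ∣ q.den} := by
      have h1 : Set.Finite {m : ℕ | m ∣ q.den} :=
        Set.Finite.subset (Set.finite_Iic q.den) (fun m hm => Nat.le_of_dvd q.den_pos hm)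
      exact Set.Finite.preimage (f := fun p : Nat.Primes => (p : ℕ))
        (Set.injOn_of_injective Subtype.val_injective) h1
    refine Filter.mem_of_superset hfin.compl_mem_cofinite ?_
    intro p hp
    exact Padic.norm_rat_le_one hp⟩
  map_one' := RestrictedProduct.ext _ _ fun p => Rat.cast_one
  map_mul' a b := RestrictedProduct.ext _ _ fun p => Rat.cast_mul a b
  map_zero' := RestrictedProduct.ext _ _ fun p => Rat.cast_zero
  map_add' a b := RestrictedProduct.ext _ _ fun p => Rat.cast_add a b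

/-- The diagonal embedding of `ℚ` in the adeles. -/
def ratAdele : ℚ →+* Adele := RingHom.prod (algebraMap ℚ ℝ) ratFin

/-- Functoriality of the symplectic group. -/
def spMap (n : ℕ) {R S : Type*} [CommRing R] [CommRing S] (φ : R →+* S) :
    Matrix.symplecticGroup (Fin n) R →* Matrix.symplecticGroup (Fin n) S where
  toFun g := ⟨g.1.map φ, SymplecticGroup.map_mem g.2 φ⟩
  map_one' := Subtype.ext (Matrix.map_one φ (map_zero φ) (map_one φ))
  map_mul' _ _ := Subtype.ext Matrix.map_mul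

/-- `Sp_{2n}(𝔸)`; it carries the topology induced from the `2n × 2n` matrices over `𝔸`. -/
abbrev GA (n : ℕ) : Type := Matrix.symplecticGroup (Fin n) Adele

/-- `Sp_{2n}(ℚ)`, embedded diagonally in `Sp_{2n}(𝔸)`. -/
def GQ (n : ℕ) : Subgroup (GA n) := (spMap n ratAdele).range

/-- The automorphic quotient.  We use `G(𝔸) / G(ℚ)` with `G(𝔸)` acting on the left; the map
`g ↦ g⁻¹` identifies it with `G(ℚ) \ G(𝔸)` with the right action, see `autFun`. -/
abbrev AutQuot (n : ℕ) : Type := GA n ⧸ GQ n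

instance (n : ℕ) : MeasurableSpace (AutQuot n) := borel _
instance (n : ℕ) : BorelSpace (AutQuot n) := ⟨rfl⟩

/-- A function on `G(𝔸) / G(ℚ)` regarded as a left `G(ℚ)`-invariant function on `G(𝔸)`:
`φ(g) = F(g⁻¹ G(ℚ))`. -/
def autFun {n : ℕ} (F : AutQuot n → ℂ) : GA n → ℂ := fun g => F (QuotientGroup.mk g⁻¹)

/-- The nonzero `G(𝔸)`-invariant Radon measures on the automorphic quotient
(there is one up to scaling). -/
structure IsInvariantRadon {n : ℕ} (μ : Measure (AutQuot n)) : Prop where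
  ne_zero : μ ≠ 0
  finite_on_compacts : IsFiniteMeasureOnCompacts μ
  invariant : SMulInvariantMeasure (GA n) (AutQuot n) μ

/-- A subspace of `L²(G(ℚ) \ G(𝔸))` is invariant if it is stable under right translation
`(R(g)φ)(x) = φ(xg)`; in terms of `F`, `(R(g)F)(x) = F(g⁻¹ x)`. -/
def IsInvariant {n : ℕ} (μ : Measure (AutQuot n)) (H : Submodule ℂ (Lp ℂ 2 μ)) : Prop :=
  ∀ (g : GA n) (F F' : Lp ℂ 2 μ), F ∈ H → (F' =ᵐ[μ] fun x => F (g⁻¹ • x)) → F' ∈ H

/-- An irreducible automorphic representation realised in the space of square integrable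
automorphic functions: a nonzero closed invariant subspace `H` of `L²(G(ℚ) \ G(𝔸))` without
closed invariant subspaces other than `0` and `H`. -/
structure IsIrredAut {n : ℕ} (μ : Measure (AutQuot n)) (H : Submodule ℂ (Lp ℂ 2 μ)) : Prop where
  closed : IsClosed (H : Set (Lp ℂ 2 μ))
  invariant : IsInvariant μ H
  ne_bot : H ≠ ⊥
  irreducible : ∀ H' : Submodule ℂ (Lp ℂ 2 μ), IsClosed (H' : Set (Lp ℂ 2 μ)) →
    IsInvariant μ H' → H' ≤ H → H' = ⊥ ∨ H' = H

/-- The continuous functions in the space of `H`. -/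
def InSpace {n : ℕ} (μ : Measure (AutQuot n)) (H : Submodule ℂ (Lp ℂ 2 μ))
    (F : AutQuot n → ℂ) : Prop :=
  Continuous F ∧ ∃ hF : MemLp F 2 μ, hF.toLp F ∈ H

/-- The matrices of size `2n`. -/
abbrev Mat (n : ℕ) (R : Type*) := Matrix (Fin n ⊕ Fin n) (Fin n ⊕ Fin n) R

/-- An `sl₂`-triple `(e, h, f)` over `ℚ` in the Lie algebra `sp_{2n}`. -/
structure Triple (n : ℕ) where
  e : Mat n ℚ
  h : Mat n ℚ
  f : Mat n ℚ
  e_mem : e * J (Fin n) ℚ + J (Fin n) ℚ * eᵀ = 0
  h_mem : h * J (Fin n) ℚ + J (Fin n) ℚ * hᵀ = 0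
  f_mem : f * J (Fin n) ℚ + J (Fin n) ℚ * fᵀ = 0
  he : h * e - e * h = 2 • e
  hf : h * f - f * h = -(2 • f)
  ef : e * f - f * e = h

/-- The span over `R` of the eigenspaces of `ad h` on matrices for the eigenvalues `≥ i`. -/
def adGE {n : ℕ} {R : Type*} [CommRing R] (h : Mat n R) (i : ℤ) : Submodule R (Mat n R) :=
  Submodule.span R {X | ∃ j : ℤ, i ≤ j ∧ h * X - X * h = (j : R) • X}

theorem adGE_mul {n : ℕ} {R : Type*} [CommRing R] {h : Mat n R} {i j : ℤ} {X Y : Mat n R}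
    (hX : X ∈ adGE h i) (hY : Y ∈ adGE h j) : X * Y ∈ adGE h (i + j) := by
  induction hX using Submodule.span_induction with
  | mem X hX =>
    obtain ⟨a, ha, hX⟩ := hX
    induction hY using Submodule.span_induction with
    | mem Y hY =>
      obtain ⟨b, hb, hY⟩ := hY
      refine Submodule.subset_span ⟨a + b, by omega, ?_⟩
      calc h * (X * Y) - X * Y * h = (h * X - X * h) * Y + X * (h * Y - Y * h) := by noncomm_ring
        _ = ((a + b : ℤ) : R) • (X * Y) := by
          rw [hX, hY]; push_cast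
          rw [Matrix.smul_mul, Matrix.mul_smul, add_smul]
    | zero => simp
    | add Y Z _ _ h1 h2 => rw [Matrix.mul_add]; exact Submodule.add_mem _ h1 h2
    | smul c Y _ h1 => rw [Matrix.mul_smul]; exact Submodule.smul_mem _ _ h1
  | zero => simp
  | add Y Z _ _ h1 h2 => rw [Matrix.add_mul]; exact Submodule.add_mem _ h1 h2
  | smul c Y _ h1 => rw [Matrix.smul_mul]; exact Submodule.smul_mem _ _ h1

theorem adGE_mono {n : ℕ} {R : Type*} [CommRing R] {h : Mat n R} {i j : ℤ} (hij : i ≤ j) :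
    adGE h j ≤ adGE h i :=
  Submodule.span_mono fun _ ⟨a, ha, h⟩ => ⟨a, hij.trans ha, h⟩

/-- the adjoint involution `X ↦ J⁻¹ Xᵀ J` preserves the filtration if `h ∈ sp`. -/
theorem adGE_adjoint {n : ℕ} {R : Type*} [CommRing R] {h : Mat n R}
    (hh : h * J (Fin n) R + J (Fin n) R * hᵀ = 0) {i : ℤ} {X : Mat n R} (hX : X ∈ adGE h i) :
    -J (Fin n) R * Xᵀ * J (Fin n) R ∈ adGE h i := by
  have hJ2 : J (Fin n) R * J (Fin n) R = -1 := J_squared (Fin n) R
  have h1 : h * J (Fin n) R = - (J (Fin n) R * hᵀ) := eq_neg_of_add_eq_zero_left hh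
  have h2 : J (Fin n) R * h = - (hᵀ * J (Fin n) R) := by
    have := congrArg (fun Z => J (Fin n) R * Z * J (Fin n) R) h1
    have e1 : J (Fin n) R * (h * J (Fin n) R) * J (Fin n) R
        = J (Fin n) R * h * (J (Fin n) R * J (Fin n) R) := by noncomm_ring
    have e2 : J (Fin n) R * -(J (Fin n) R * hᵀ) * J (Fin n) R
        = -((J (Fin n) R * J (Fin n) R) * hᵀ * J (Fin n) R) := by noncomm_ring
    rw [e1, e2, hJ2] at this
    have e3 : J (Fin n) R * h * (-1) = -(J (Fin n) R * h) := by noncomm_ring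
    have e4 : -(-1 * hᵀ * J (Fin n) R) = hᵀ * J (Fin n) R := by noncomm_ring
    rw [e3, e4] at this
    rw [← this, neg_neg]
  induction hX using Submodule.span_induction with
  | mem X hX =>
    obtain ⟨a, ha, hX⟩ := hX
    refine Submodule.subset_span ⟨a, ha, ?_⟩
    have hXt : Xᵀ * hᵀ - hᵀ * Xᵀ = (a : R) • Xᵀ := by
      have := congrArg Matrix.transpose hX
      simpa [Matrix.transpose_sub, Matrix.transpose_mul, Matrix.transpose_smul] using this
    calc h * (-J (Fin n) R * Xᵀ * J (Fin n) R) - -J (Fin n) R * Xᵀ * J (Fin n) R * h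
        = -(h * J (Fin n) R) * Xᵀ * J (Fin n) R + J (Fin n) R * Xᵀ * (J (Fin n) R * h) := by
          noncomm_ring
      _ = -J (Fin n) R * (Xᵀ * hᵀ - hᵀ * Xᵀ) * J (Fin n) R := by
          rw [h1, h2]; noncomm_ring
      _ = (a : R) • (-J (Fin n) R * Xᵀ * J (Fin n) R) := by
          rw [hXt]; simp
  | zero => simp
  | add Y Z _ _ h1 h2 =>
    have : -J (Fin n) R * (Y + Z)ᵀ * J (Fin n) R
      = -J (Fin n) R * Yᵀ * J (Fin n) R + -J (Fin n) R * Zᵀ * J (Fin n) R := by
      rw [Matrix.transpose_add]; noncomm_ring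
    rw [this]; exact Submodule.add_mem _ h1 h2
  | smul c Y _ h1 =>
    have : -J (Fin n) R * (c • Y)ᵀ * J (Fin n) R = c • (-J (Fin n) R * Yᵀ * J (Fin n) R) := by
      simp
    rw [this]; exact Submodule.smul_mem _ _ h1

/-- For `h` in the symplectic Lie algebra over `R`, the unipotent group
`{v ∈ Sp_{2n}(R) | v - 1 ∈ ⨁_{i ≥ 2} gl_i}`.  Since `exp` and `log` are polynomials on
`⨁_{i ≥ 2} gl_i`, it is `exp(⨁_{i ≥ 2} g_i)`, i.e. `V_{f,2}(R)`. -/
def unip {n : ℕ} {R : Type*} [CommRing R] (h : Mat n R)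
    (hh : h * J (Fin n) R + J (Fin n) R * hᵀ = 0) :
    Subgroup (Matrix.symplecticGroup (Fin n) R) where
  carrier := {v | (v : Mat n R) - 1 ∈ adGE h 2}
  one_mem' := by simp
  mul_mem' := by
    intro u v hu hv
    simp only [Set.mem_ofPred_eq] at hu hv ⊢
    have : ((u * v : Matrix.symplecticGroup (Fin n) R) : Mat n R) - 1
        = ((u : Mat n R) - 1) * ((v : Mat n R) - 1) + ((u : Mat n R) - 1) + ((v : Mat n R) - 1) := by
      rw [Submonoid.coe_mul]; noncomm_ring
    rw [this]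
    exact Submodule.add_mem _ (Submodule.add_mem _ (adGE_mono (by norm_num) (adGE_mul hu hv)) hu) hv
  inv_mem' := by
    intro v hv
    simp only [Set.mem_ofPred_eq] at hv ⊢
    have hJ2 : J (Fin n) R * J (Fin n) R = -1 := J_squared (Fin n) R
    have : ((v⁻¹ : Matrix.symplecticGroup (Fin n) R) : Mat n R) - 1
        = -J (Fin n) R * ((v : Mat n R) - 1)ᵀ * J (Fin n) R := by
      rw [SymplecticGroup.coe_inv, Matrix.transpose_sub, Matrix.transpose_one]
      have : -J (Fin n) R * ((v : Mat n R)ᵀ - 1) * J (Fin n) R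
        = -J (Fin n) R * (v : Mat n R)ᵀ * J (Fin n) R + J (Fin n) R * J (Fin n) R := by noncomm_ring
      rw [this, hJ2]; noncomm_ring
    rw [this]
    exact adGE_adjoint hh hv

theorem map_sp_mem {n : ℕ} {R S : Type*} [CommRing R] [CommRing S] (φ : R →+* S) {h : Mat n R}
    (hh : h * J (Fin n) R + J (Fin n) R * hᵀ = 0) :
    h.map φ * J (Fin n) S + J (Fin n) S * (h.map φ)ᵀ = 0 := by
  have := congrArg (fun Z : Mat n R => Z.map φ) hh
  rw [Matrix.map_add _ (map_add φ), Matrix.map_mul, Matrix.map_mul, Matrix.transpose_map] at this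
  rw [Matrix.map_zero _ (map_zero φ)] at this
  rw [map_J (Fin n) φ] at this
  exact this

namespace Triple

variable {n : ℕ} (T : Triple n)

/-- `V_{f,2}(𝔸)` -/
def VA : Subgroup (GA n) := unip (T.h.map ratAdele) (map_sp_mem ratAdele T.h_mem)

/-- `V_{f,2}(ℚ)`, as a subgroup of `V_{f,2}(𝔸)`. -/
def VQ : Subgroup T.VA := (GQ n).subgroupOf T.VA

instance : MeasurableSpace (T.VA ⧸ T.VQ) := borel _
instance : BorelSpace (T.VA ⧸ T.VQ) := ⟨rfl⟩

/-- The character `ψ_f` of `V_{f,2}(𝔸)`: `ψ_f(v) = ψ(tr(f (v - 1)))`.  For `v = exp X` with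
`X ∈ ⨁_{i ≥ 2} g_i` one has `tr(f (v - 1)) = tr(f X)`, because `f` has degree `-2` and the terms
`X^k`, `k ≥ 2`, have degree `≥ 4`. -/
def char (ψ : AddChar Adele Circle) (v : GA n) : ℂ :=
  ((ψ (Matrix.trace (T.f.map ratAdele * ((v : Mat n Adele) - 1))) : Circle) : ℂ)

/-- The Fourier coefficient
`φ^{ψ_f}(g) = ∫_{V(ℚ)\V(𝔸)} φ(v g) ψ_f(v)⁻¹ dv = ∫_{V(𝔸)/V(ℚ)} φ(v⁻¹ g) ψ_f(v) dv`, for
`φ = autFun F`; `ρ` is the invariant measure on `V(𝔸)/V(ℚ)`.
The integrand does not depend on the choice of the representative `x.out`. -/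
def coeff (ψ : AddChar Adele Circle) (ρ : Measure (T.VA ⧸ T.VQ))
    (F : AutQuot n → ℂ) (g : GA n) : ℂ :=
  ∫ x : T.VA ⧸ T.VQ, autFun F ((x.out : GA n)⁻¹ * g) * T.char ψ (x.out : GA n) ∂ρ

end Triple

/-- The Jordan type of a nilpotent matrix, in terms of the ranks of its powers. -/
def HasJordanType {n : ℕ} (f : Mat n ℚ) (p : Nat.Partition (2 * n)) : Prop :=
  ∀ k : ℕ, (f ^ k).rank = (p.parts.map (fun i => i - k)).sum

/-- Symplectic partitions: every odd part occurs with even multiplicity. -/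
def IsSymplectic {m : ℕ} (p : Nat.Partition m) : Prop :=
  ∀ i : ℕ, Odd i → Even (p.parts.count i)

/-- The sum of the `k` largest parts. -/
def topSum {m : ℕ} (p : Nat.Partition m) (k : ℕ) : ℕ :=
  ((p.parts.sort (· ≥ ·)).take k).sum

/-- The dominance order, `p ≤ p'`. -/
def DomLE {m : ℕ} (p p' : Nat.Partition m) : Prop := ∀ k : ℕ, topSum p k ≤ topSum p' k

/-- `H` has a nonzero Fourier coefficient attached to `p`. -/
def HasCoeff {n : ℕ} (ψ : AddChar Adele Circle) (μ : Measure (AutQuot n))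
    (H : Submodule ℂ (Lp ℂ 2 μ)) (p : Nat.Partition (2 * n)) : Prop :=
  ∃ T : Triple n, HasJordanType T.f p ∧
    ∃ ρ : Measure (T.VA ⧸ T.VQ), ρ ≠ 0 ∧ IsFiniteMeasure ρ ∧
      SMulInvariantMeasure T.VA (T.VA ⧸ T.VQ) ρ ∧
      ∃ F : AutQuot n → ℂ, InSpace μ H F ∧ ∃ g : GA n, T.coeff ψ ρ F g ≠ 0

/-- `𝔭^m(H)`. -/
def maxPartitions {n : ℕ} (ψ : AddChar Adele Circle) (μ : Measure (AutQuot n))
    (H : Submodule ℂ (Lp ℂ 2 μ)) : Set (Nat.Partition (2 * n)) :=
  {p | IsSymplectic p ∧ HasCoeff ψ μ H p ∧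
    ∀ p' : Nat.Partition (2 * n), IsSymplectic p' → DomLE p p' → p' ≠ p → ¬ HasCoeff ψ μ H p'}

/-- the partition `[8,2,2]` of `12`. -/
def part822 : Nat.Partition (2 * 6) := ⟨{8, 2, 2}, by simp, by simp⟩

/-- the partition `[6,6]` of `12`. -/
def part66 : Nat.Partition (2 * 6) := ⟨{6, 6}, by simp, by simp⟩

/-- The theorem. -/
def MainStatement : Prop :=
  ∀ ψ : AddChar Adele Circle, Continuous ψ → (∀ q : ℚ, ψ (ratAdele q) = 1) → (∃ x, ψ x ≠ 1) →
    ∃ μ : Measure (AutQuot 6), IsInvariantRadon μ ∧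
      ∃ H : Submodule ℂ (Lp ℂ 2 μ), IsIrredAut μ H ∧
        part822 ∈ maxPartitions ψ μ H ∧ part66 ∈ maxPartitions ψ μ H

end Pool.Agent.FC
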