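import Pool.Agent.FC.Base

/-!
# Lemma V, steps 2b and 2c: the perturbed element `Y`
-/

noncomputable section

namespace Pool.Agent.FC.LocY

open Matrix

/-- the field `ℚ₃` -/
abbrev K3 : Type := ℚ_[(p3 : ℕ)]
/-- the ring `ℤ₃` -/
abbrev O3 : Type := ℤ_[(p3 : ℕ)]
/-- index set -/
abbrev I12 : Type := Fin 6 ⊕ Fin 6

/-! ### Trace and nilpotency -/

theorem trace_eq_zero {n : ℕ} {K : Type*} [Field K] [CharZero K] {h : Mat n K} {i : ℤ}
    (hi : 1 ≤ i) {M : Mat n K} (hM : M ∈ adGE h i) : Matrix.trace M = 0 := by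
  induction hM using Submodule.span_induction with
  | mem X hX =>
    obtain ⟨j, hj, hX⟩ := hX
    have h1 := congrArg Matrix.trace hX
    rw [Matrix.trace_sub, Matrix.trace_mul_comm, sub_self, Matrix.trace_smul, smul_eq_mul] at h1
    have h2 : (j : K) ≠ 0 := by
      have : j ≠ 0 := by omega
      exact_mod_cast this
    rcases mul_eq_zero.1 h1.symm with h3 | h3
    · exact absurd h3 h2
    · exact h3
  | zero => simp
  | add Y Z _ _ h1 h2 => rw [Matrix.trace_add, h1, h2, add_zero]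
  | smul c Y _ h1 => rw [Matrix.trace_smul, h1, smul_zero]

/-- `ad h` -/
def adL {n : ℕ} {K : Type*} [Field K] (h : Mat n K) : Module.End K (Mat n K) where
  toFun X := h * X - X * h
  map_add' X Y := by noncomm_ring
  map_smul' c X := by
    rw [Matrix.mul_smul, Matrix.smul_mul, ← smul_sub]; rfl

theorem adGE_eq_bot {n : ℕ} {K : Type*} [Field K] [CharZero K] (h : Mat n K) :
    ∃ B : ℤ, ∀ i, B ≤ i → adGE h i = ⊥ := by
  have hfin : Set.Finite {μ : K | (adL h).HasEigenvalue μ} := Module.End.finite_hasEigenvalue _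
  have hfin2 : Set.Finite {j : ℤ | (adL h).HasEigenvalue (j : K)} :=
    Set.Finite.preimage (f := fun j : ℤ => (j : K)) (Set.injOn_of_injective Int.cast_injective) hfin
  obtain ⟨B, hB⟩ := hfin2.bddAbove
  refine ⟨B + 1, fun i hi => ?_⟩
  rw [adGE, Submodule.span_eq_bot]
  rintro X ⟨j, hj, hX⟩
  by_contra hne
  have h1 : (adL h).HasEigenvalue (j : K) := by
    refine Module.End.hasEigenvalue_of_hasEigenvector (x := X) ?_
    rw [Module.End.hasEigenvector_iff]
    exact ⟨Module.End.mem_eigenspace_iff.2 hX, hne⟩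
  have := hB h1
  omega

theorem pow_mem_adGE {n : ℕ} {R : Type*} [CommRing R] {h : Mat n R} {Z : Mat n R}
    (hZ : Z ∈ adGE h 2) (k : ℕ) : Z ^ (k + 1) ∈ adGE h (2 * ((k : ℤ) + 1)) := by
  induction k with
  | zero => simpa using hZ
  | succ k ih =>
    rw [pow_succ]
    have := adGE_mul ih hZ
    have e : (2 * ((k : ℤ) + 1) + 2) = 2 * (((k + 1 : ℕ) : ℤ) + 1) := by push_cast; ring
    rwa [e] at this

theorem exists_pow_eq_zero {n : ℕ} {K : Type*} [Field K] [CharZero K] {h Z : Mat n K}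
    (hZ : Z ∈ adGE h 2) : ∃ N : ℕ, Z ^ (N + 1) = 0 := by
  obtain ⟨B, hB⟩ := adGE_eq_bot h
  refine ⟨B.toNat, ?_⟩
  have h1 := pow_mem_adGE hZ B.toNat
  rw [hB _ (by omega)] at h1
  exact (Submodule.mem_bot K).1 h1

/-! ### Cayley transform -/

/-- `∑_{k < N} (c Z)^k` -/
def geo {n : ℕ} {K : Type*} [CommRing K] (c : K) (Z : Mat n K) (N : ℕ) : Mat n K :=
  ∑ k ∈ Finset.range N, (c • Z) ^ k

theorem geo_mul {n : ℕ} {K : Type*} [CommRing K] (c : K) (Z : Mat n K) {N : ℕ}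
    (hN : Z ^ N = 0) : geo c Z N * (1 - c • Z) = 1 := by
  have h := geom_sum_mul_neg (c • Z) N
  rw [geo, h, smul_pow, hN, smul_zero, sub_zero]

theorem mul_geo {n : ℕ} {K : Type*} [CommRing K] (c : K) (Z : Mat n K) {N : ℕ}
    (hN : Z ^ N = 0) : (1 - c • Z) * geo c Z N = 1 := by
  have h := mul_neg_geom_sum (c • Z) N
  rw [geo, h, smul_pow, hN, smul_zero, sub_zero]

theorem cayley_mem {n : ℕ} {K : Type*} [CommRing K] (c : K) {Z : Mat n K} {N : ℕ}
    (hN : Z ^ N = 0) (hZ : Z * J (Fin n) K + J (Fin n) K * Zᵀ = 0) :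
    (1 + c • Z) * geo c Z N ∈ Matrix.symplecticGroup (Fin n) K := by
  rw [SymplecticGroup.mem_iff]
  have h1 : Z * J (Fin n) K = -(J (Fin n) K * Zᵀ) := eq_neg_of_add_eq_zero_left hZ
  have hA : (1 + c • Z) * J (Fin n) K = J (Fin n) K * (1 - c • Zᵀ) := by
    rw [add_mul, Matrix.smul_mul, h1, mul_sub, Matrix.mul_smul]
    simp [sub_eq_add_neg]
  have hB : (1 - c • Z) * J (Fin n) K = J (Fin n) K * (1 + c • Zᵀ) := by
    rw [sub_mul, Matrix.smul_mul, h1, mul_add, Matrix.mul_smul]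
    simp [sub_eq_add_neg]
  have hcomm : geo c Z N * (1 + c • Z) = (1 + c • Z) * geo c Z N := by
    have : Commute (geo c Z N) (c • Z) :=
      (Commute.sum_left _ _ _ fun k _ => (Commute.pow_self (c • Z) k))
    rw [mul_add, add_mul, mul_one, one_mul, this.eq]
  have hg := geo_mul c Z hN
  have hgT : (1 - c • Zᵀ) * (geo c Z N)ᵀ = 1 := by
    have := congrArg Matrix.transpose hg
    simpa [Matrix.transpose_mul, Matrix.transpose_sub, Matrix.transpose_smul] using this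
  rw [← hcomm, Matrix.transpose_mul, Matrix.transpose_add, Matrix.transpose_one,
    Matrix.transpose_smul]
  have hcT : (1 + c • Zᵀ) * (geo c Z N)ᵀ = (geo c Z N)ᵀ * (1 + c • Zᵀ) := by
    have := congrArg Matrix.transpose hcomm
    simpa [Matrix.transpose_mul, Matrix.transpose_add, Matrix.transpose_smul] using this
  calc geo c Z N * (1 + c • Z) * J (Fin n) K * ((1 + c • Zᵀ) * (geo c Z N)ᵀ)
      = geo c Z N * ((1 + c • Z) * J (Fin n) K) * ((1 + c • Zᵀ) * (geo c Z N)ᵀ) := by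
        noncomm_ring
    _ = geo c Z N * (J (Fin n) K * ((1 - c • Zᵀ) * (1 + c • Zᵀ))) * (geo c Z N)ᵀ := by
        rw [hA]; noncomm_ring
    _ = geo c Z N * (J (Fin n) K * ((1 + c • Zᵀ) * (1 - c • Zᵀ))) * (geo c Z N)ᵀ := by
        have : ∀ a : Mat n K, (1 - a) * (1 + a) = (1 + a) * (1 - a) := fun a => by
          noncomm_ring
        rw [this]
    _ = geo c Z N * ((J (Fin n) K * (1 + c • Zᵀ)) * ((1 - c • Zᵀ) * (geo c Z N)ᵀ)) := by
        noncomm_ring
    _ = geo c Z N * (1 - c • Z) * J (Fin n) K := by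
        rw [← hB, hgT]; noncomm_ring
    _ = J (Fin n) K := by rw [hg, one_mul]

theorem cayley_sub_one {n : ℕ} {K : Type*} [Field K] [CharZero K] {Z : Mat n K} {N : ℕ}
    (hN : Z ^ (N + 1) = 0) :
    (1 + (1 / 2 : K) • Z) * geo (1 / 2 : K) Z (N + 1) - 1 =
      Z + ∑ k ∈ Finset.range N, ((1 / 2 : K) ^ (k + 1)) • Z ^ (k + 2) := by
  have h1 : (1 + (1 / 2 : K) • Z) * geo (1 / 2 : K) Z (N + 1) - 1 =
      Z * geo (1 / 2 : K) Z (N + 1) := by
    have h2 := mul_geo (1 / 2 : K) Z hN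
    calc (1 + (1 / 2 : K) • Z) * geo (1 / 2 : K) Z (N + 1) - 1
        = (1 + (1 / 2 : K) • Z) * geo (1 / 2 : K) Z (N + 1)
          - (1 - (1 / 2 : K) • Z) * geo (1 / 2 : K) Z (N + 1) := by rw [h2]
      _ = ((1 / 2 : K) • Z + (1 / 2 : K) • Z) * geo (1 / 2 : K) Z (N + 1) := by noncomm_ring
      _ = Z * geo (1 / 2 : K) Z (N + 1) := by
          rw [← add_smul]; norm_num
  rw [h1, geo, Finset.sum_range_succ', Matrix.mul_add, Finset.mul_sum, pow_zero, Matrix.mul_one,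
    add_comm]
  have h3 : ∀ k ∈ Finset.range N, Z * ((1 / 2 : K) • Z) ^ (k + 1) =
      ((1 / 2 : K) ^ (k + 1)) • Z ^ (k + 2) := by
    intro k _
    rw [smul_pow, Matrix.mul_smul, ← pow_succ']
  rw [Finset.sum_congr rfl h3]

/-! ### The order -/

theorem bd_pos (i j : I12) : 0 < bd i j := by
  rcases i with i | i <;> rcases j with j | j <;> simp [bd]

theorem bd_le_one (i j : I12) : bd i j ≤ 1 := by
  rcases i with i | i <;> rcases j with j | j <;> simp [bd] <;> norm_num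

/-- bound for the entries of products -/
def bd2 : I12 → I12 → ℝ
  | Sum.inr _, Sum.inl _ => 1 / 9
  | _, _ => 1 / 3

theorem bd_mul (i k j : I12) : bd i k * bd k j ≤ bd2 i j := by
  rcases i with i | i <;> rcases j with j | j <;> rcases k with k | k <;>
    norm_num [bd, bd2]

theorem bd2_le (i j : I12) : bd2 i j ≤ bd i j := by
  rcases i with i | i <;> rcases j with j | j <;> norm_num [bd, bd2]

theorem bd2_mul (i k j : I12) : bd2 i k * bd k j ≤ bd2 i j := by
  rcases i with i | i <;> rcases j with j | j <;> rcases k with k | k <;>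
    norm_num [bd, bd2]

theorem norm_sum_le {ι : Type*} {s : Finset ι} {f : ι → K3} {C : ℝ} (hC : 0 ≤ C)
    (h : ∀ i ∈ s, ‖f i‖ ≤ C) : ‖∑ i ∈ s, f i‖ ≤ C :=
  IsUltrametricDist.norm_sum_le_of_forall_le_of_nonneg hC h

theorem mul_bound {a b c : I12 → I12 → ℝ} (ha : ∀ i j, 0 ≤ a i j) (hc : ∀ i j, 0 ≤ c i j)
    (habc : ∀ i k j, a i k * b k j ≤ c i j) {M N : Mat 6 K3}
    (hM : ∀ i j, ‖M i j‖ ≤ a i j) (hN : ∀ i j, ‖N i j‖ ≤ b i j) (i j : I12) :
    ‖(M * N) i j‖ ≤ c i j := by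
  rw [Matrix.mul_apply]
  refine norm_sum_le (hc i j) fun k _ => ?_
  rw [norm_mul]
  exact (mul_le_mul (hM i k) (hN k j) (norm_nonneg _) (ha i k)).trans (habc i k j)

theorem bd2_pos (i j : I12) : 0 < bd2 i j := by
  rcases i with i | i <;> rcases j with j | j <;> simp [bd2]

theorem pow_bound {Z : Mat 6 K3} (hZ : Z ∈ Aord) (k : ℕ) (i j : I12) :
    ‖(Z ^ (k + 2)) i j‖ ≤ bd2 i j := by
  induction k generalizing i j with
  | zero =>
    rw [zero_add, sq]
    exact mul_bound (fun i j => (bd_pos i j).le) (fun i j => (bd2_pos i j).le) bd_mul hZ hZ i j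
  | succ k ih =>
    rw [show k + 1 + 2 = (k + 2) + 1 from rfl, pow_succ]
    exact mul_bound (fun i j => (bd2_pos i j).le) (fun i j => (bd2_pos i j).le) bd2_mul ih hZ i j

theorem norm_two : ‖(2 : K3)‖ = 1 := by
  have h : ¬ ((p3 : ℕ) ∣ 2) := by decide
  have := (Padic.norm_natCast_eq_one_iff (p := (p3 : ℕ)) (n := 2)).2
    ((Nat.Prime.coprime_iff_not_dvd Nat.prime_three).2 h)
  exact_mod_cast this

theorem norm_half_pow (k : ℕ) : ‖((1 / 2 : K3) ^ k)‖ = 1 := by
  rw [norm_pow, norm_div, norm_one, norm_two]; simp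

theorem norm_three : ‖(3 : K3)‖ = 1 / 3 := by
  have := Padic.norm_p (p := (p3 : ℕ))
  have e : ((p3 : ℕ) : K3) = 3 := by norm_num
  rw [e] at this
  rw [this]; norm_num

/-- bounds for the entries of `X` -/
theorem X3_bound (i j : I12) : ‖X3 i j‖ ≤ (bd2 j i)⁻¹ := by
  have h3 := norm_three
  have hint : ∀ z : ℤ, ‖(z : K3)‖ ≤ 1 := fun z => Padic.norm_int_le_one z
  rcases i with i | i <;> rcases j with j | j
  · have : X3 (Sum.inl i) (Sum.inl j) = 0 := by
      simp [X3, Xq]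
    rw [this, norm_zero]; exact inv_nonneg.2 (bd2_pos _ _).le
  · have : X3 (Sum.inl i) (Sum.inr j) = ((S2 i j : ℤ) : K3) / 9 := by
      simp [X3, Xq, red]; ring
    rw [this, norm_div, show (9 : K3) = 3 * 3 by norm_num, norm_mul, h3]
    have := hint (S2 i j)
    simp only [bd2]
    rw [div_le_iff₀ (by norm_num)]
    norm_num
    exact this
  · have : X3 (Sum.inr i) (Sum.inl j) = ((S1 i j : ℤ) : K3) / 3 := by
      simp [X3, Xq, red]; ring
    rw [this, norm_div, h3]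
    have := hint (S1 i j)
    simp only [bd2]
    rw [div_le_iff₀ (by norm_num)]
    norm_num
    exact this
  · have : X3 (Sum.inr i) (Sum.inr j) = 0 := by
      simp [X3, Xq]
    rw [this, norm_zero]; exact inv_nonneg.2 (bd2_pos _ _).le

theorem trace_X3_mul {N : Mat 6 K3} (hN : ∀ i j, ‖N i j‖ ≤ bd2 i j) :
    ‖Matrix.trace (X3 * N)‖ ≤ 1 := by
  rw [Matrix.trace]
  refine norm_sum_le zero_le_one fun i _ => ?_
  rw [Matrix.diag_apply, Matrix.mul_apply]
  refine norm_sum_le zero_le_one fun j _ => ?_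
  rw [norm_mul]
  have h1 := X3_bound i j
  have h2 := hN j i
  calc ‖X3 i j‖ * ‖N j i‖ ≤ (bd2 j i)⁻¹ * bd2 j i :=
        mul_le_mul h1 h2 (norm_nonneg _) (inv_nonneg.2 (bd2_pos _ _).le)
    _ = 1 := inv_mul_cancel₀ (bd2_pos _ _).ne'

theorem aord_pow {Z : Mat 6 K3} (hZ : Z ∈ Aord) (k : ℕ) (i j : I12) :
    ‖(((1 / 2 : K3) ^ (k + 1)) • Z ^ (k + 2)) i j‖ ≤ bd2 i j := by
  rw [Matrix.smul_apply, smul_eq_mul, norm_mul, norm_half_pow, one_mul]
  exact pow_bound hZ k i j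

/-- Step 2b. -/
theorem step2b {ψ : AddChar K3 Circle} (hψ : ∀ x, ψ x = 1 ↔ ‖x‖ ≤ 1) {h f : Mat 6 K3}
    (hhf : h * f - f * h = -(2 • f))
    (H : ∀ j : Matrix.symplecticGroup (Fin 6) K3, (j : Mat 6 K3) - 1 ∈ Aord →
      (j : Mat 6 K3) - 1 ∈ adGE h 2 →
      ψ (Matrix.trace (X3 * ((j : Mat 6 K3) - 1))) = ψ (Matrix.trace (f * ((j : Mat 6 K3) - 1))))
    {Z : Mat 6 K3} (hZ : Z ∈ Aord) (hsp : Z * J (Fin 6) K3 + J (Fin 6) K3 * Zᵀ = 0)
    (hZh : Z ∈ adGE h 2) : ‖Matrix.trace ((f - X3) * Z)‖ ≤ 1 := by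
  obtain ⟨N, hN⟩ := exists_pow_eq_zero hZh
  set E : Mat 6 K3 := ∑ k ∈ Finset.range N, ((1 / 2 : K3) ^ (k + 1)) • Z ^ (k + 2) with hE
  have hEb : ∀ i j, ‖E i j‖ ≤ bd2 i j := by
    intro i j
    rw [hE, Matrix.sum_apply]
    exact norm_sum_le (bd2_pos i j).le fun k _ => aord_pow hZ k i j
  have hE4 : E ∈ adGE h 4 := by
    refine Submodule.sum_mem _ fun k _ => Submodule.smul_mem _ _ ?_
    have := pow_mem_adGE hZh (k + 1)
    exact adGE_mono (by push_cast; omega) this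
  let j : Matrix.symplecticGroup (Fin 6) K3 :=
    ⟨(1 + (1 / 2 : K3) • Z) * geo (1 / 2 : K3) Z (N + 1), cayley_mem _ hN hsp⟩
  have hj : (j : Mat 6 K3) - 1 = Z + E := cayley_sub_one hN
  have hjA : (j : Mat 6 K3) - 1 ∈ Aord := by
    intro a b
    rw [hj, Matrix.add_apply]
    refine (IsUltrametricDist.norm_add_le_max _ _).trans (max_le (hZ a b) ?_)
    exact (hEb a b).trans (bd2_le a b)
  have hjh : (j : Mat 6 K3) - 1 ∈ adGE h 2 := by
    rw [hj]
    exact Submodule.add_mem _ hZh (adGE_mono (by norm_num) hE4)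
  have h1 := H j hjA hjh
  have hfm : f ∈ adGE h (-2) := by
    refine Submodule.subset_span ⟨-2, le_refl _, ?_⟩
    rw [hhf]
    push_cast
    rw [neg_smul, ← Nat.cast_smul_eq_nsmul K3]
    norm_num
  have h2 : Matrix.trace (f * E) = 0 := by
    have := adGE_mul hfm hE4
    exact trace_eq_zero (by norm_num) this
  have h3 : ψ (Matrix.trace (f * ((j : Mat 6 K3) - 1)) - Matrix.trace (X3 * ((j : Mat 6 K3) - 1)))
      = 1 := by
    rw [AddChar.map_sub_eq_div, ← h1, div_self']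
  have h4 := (hψ _).1 h3
  have h5 : Matrix.trace ((f - X3) * Z) =
      (Matrix.trace (f * ((j : Mat 6 K3) - 1)) - Matrix.trace (X3 * ((j : Mat 6 K3) - 1)))
        + Matrix.trace (X3 * E) := by
    rw [hj, Matrix.mul_add, Matrix.mul_add, Matrix.trace_add, Matrix.trace_add, h2,
      Matrix.sub_mul, Matrix.trace_sub]
    ring
  rw [h5]
  exact (IsUltrametricDist.norm_add_le_max _ _).trans (max_le h4 (trace_X3_mul hEb))

/-! ### Duality -/

/-- scaling of the entries: `𝔄` is the image of the integral matrices -/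
def sc : I12 → I12 → K3
  | Sum.inl _, Sum.inr _ => 1
  | _, _ => 3

theorem norm_sc (i j : I12) : ‖sc i j‖ = bd i j := by
  rcases i with i | i <;> rcases j with j | j <;> simp only [sc, bd, norm_one, norm_three]

theorem sc_ne (i j : I12) : sc i j ≠ 0 := by
  rw [← norm_ne_zero_iff, norm_sc]; exact (bd_pos i j).ne'

/-- the parametrisation of `𝔄` -/
def scal : Matrix I12 I12 O3 →ₗ[O3] Mat 6 K3 where
  toFun M := Matrix.of fun i j => sc i j * ((M i j : O3) : K3)
  map_add' M N := by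
    ext i j
    simp only [Matrix.of_apply, Matrix.add_apply, PadicInt.coe_add]
    ring
  map_smul' c M := by
    ext i j
    simp only [Matrix.of_apply, Matrix.smul_apply, smul_eq_mul, PadicInt.coe_mul,
      RingHom.id_apply]
    rw [Algebra.smul_def]
    change _ = ((c : O3) : K3) * _
    ring

theorem scal_apply (M : Matrix I12 I12 O3) (i j : I12) :
    scal M i j = sc i j * ((M i j : O3) : K3) := rfl

theorem scal_mem (M : Matrix I12 I12 O3) : scal M ∈ Aord := by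
  intro i j
  rw [scal_apply, norm_mul, norm_sc]
  have : ‖((M i j : O3) : K3)‖ ≤ 1 := (M i j).2
  calc bd i j * ‖((M i j : O3) : K3)‖ ≤ bd i j * 1 :=
        mul_le_mul_of_nonneg_left this (bd_pos i j).le
    _ = bd i j := mul_one _

theorem exists_scal {Z : Mat 6 K3} (hZ : Z ∈ Aord) : ∃ M, scal M = Z := by
  refine ⟨Matrix.of fun i j => ⟨Z i j / sc i j, ?_⟩, ?_⟩
  · rw [norm_div, norm_sc]
    exact (div_le_one (bd_pos i j)).2 (hZ i j)
  · ext i j
    rw [scal_apply]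
    change sc i j * (Z i j / sc i j) = Z i j
    exact mul_div_cancel₀ _ (sc_ne i j)

/-- Extension of functionals. -/
theorem exists_ext (V : Submodule K3 (Mat 6 K3)) (φ : Mat 6 K3 →ₗ[K3] K3)
    (hφ : ∀ Z ∈ V, Z ∈ Aord → ‖φ Z‖ ≤ 1) :
    ∃ W : Mat 6 K3, (∀ i j, ‖W i j‖ ≤ (bd j i)⁻¹) ∧ ∀ Z ∈ V, φ Z = Matrix.trace (W * Z) := by
  classical
  let VO : Submodule O3 (Matrix I12 I12 O3) := (V.restrictScalars O3).comap scal
  have hVO : ∀ M, M ∈ VO ↔ scal M ∈ V := fun M => Iff.rfl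
  have : Module.IsTorsionFree O3 (Matrix I12 I12 O3 ⧸ VO) := by
    rw [Module.isTorsionFree_iff_smul_eq_zero]
    intro c x hcx
    obtain ⟨M, rfl⟩ := Submodule.Quotient.mk_surjective _ x
    by_cases hc : c = 0
    · exact Or.inl hc
    right
    rw [← Submodule.Quotient.mk_smul, Submodule.Quotient.mk_eq_zero, hVO, map_smul] at hcx
    rw [Submodule.Quotient.mk_eq_zero, hVO]
    have hc' : ((c : O3) : K3) ≠ 0 := by
      intro h0; exact hc (Subtype.ext h0)
    have h1 := V.smul_mem (((c : O3) : K3)⁻¹) hcx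
    have h2 : (((c : O3) : K3)⁻¹) • (c • scal M) = scal M := by
      have : c • scal M = ((c : O3) : K3) • scal M := by
        ext i j; rfl
      rw [this, smul_smul, inv_mul_cancel₀ hc', one_smul]
    rwa [h2] at h1
  have : Module.Free O3 (Matrix I12 I12 O3 ⧸ VO) := Module.free_of_finite_type_torsion_free'
  obtain ⟨s, hs⟩ := Module.projective_lifting_property VO.mkQ LinearMap.id VO.mkQ_surjective
  have hs' : ∀ x, VO.mkQ (s x) = x := fun x => LinearMap.congr_fun hs x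
  -- the retraction
  let r : Matrix I12 I12 O3 →ₗ[O3] Matrix I12 I12 O3 := LinearMap.id - s.comp VO.mkQ
  have hr : ∀ M, r M ∈ VO := by
    intro M
    have : VO.mkQ (r M) = 0 := by
      simp only [r, LinearMap.sub_apply, LinearMap.id_apply, LinearMap.comp_apply, map_sub, hs',
        sub_self]
    exact (Submodule.Quotient.mk_eq_zero VO).1 this
  have hr1 : ∀ M ∈ VO, r M = M := by
    intro M hM
    have : VO.mkQ M = 0 := (Submodule.Quotient.mk_eq_zero VO).2 hM
    simp only [r, LinearMap.sub_apply, LinearMap.id_apply, LinearMap.comp_apply, this, map_zero,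
      sub_zero]
  let Φ : Matrix I12 I12 O3 → K3 := fun M => φ (scal (r M))
  have hΦ1 : ∀ M, ‖Φ M‖ ≤ 1 := fun M => hφ _ (hr M) (scal_mem _)
  have hΦsum : ∀ M, Φ M = ∑ i, ∑ j, ((M i j : O3) : K3) * Φ (Matrix.single i j 1) := by
    intro M
    conv_lhs => rw [Matrix.matrix_eq_sum_single M]
    simp only [Φ, map_sum]
    refine Finset.sum_congr rfl fun i _ => Finset.sum_congr rfl fun j _ => ?_
    have e : Matrix.single i j (M i j) = (M i j) • Matrix.single i j (1 : O3) := by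
      rw [Matrix.smul_single, smul_eq_mul, mul_one]
    rw [e, map_smul, map_smul]
    have : (M i j) • scal (r (Matrix.single i j 1)) =
        ((M i j : O3) : K3) • scal (r (Matrix.single i j 1)) := by
      ext a b; rfl
    rw [this, map_smul, smul_eq_mul]
  let W : Mat 6 K3 := Matrix.of fun j i => Φ (Matrix.single i j 1) / sc i j
  have hW : ∀ i j, ‖W i j‖ ≤ (bd j i)⁻¹ := by
    intro j i
    change ‖Φ (Matrix.single i j 1) / sc i j‖ ≤ _
    rw [norm_div, norm_sc, div_eq_mul_inv]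
    calc ‖Φ (Matrix.single i j 1)‖ * (bd i j)⁻¹ ≤ 1 * (bd i j)⁻¹ :=
          mul_le_mul_of_nonneg_right (hΦ1 _) (inv_nonneg.2 (bd_pos _ _).le)
      _ = _ := one_mul _
  refine ⟨W, hW, ?_⟩
  have hint : ∀ Z ∈ V, Z ∈ Aord → φ Z = Matrix.trace (W * Z) := by
    intro Z hZ hZA
    obtain ⟨M, rfl⟩ := exists_scal hZA
    have h1 : φ (scal M) = Φ M := by
      simp only [Φ]
      rw [hr1 M hZ]
    rw [h1, hΦsum, Matrix.trace]
    simp only [Matrix.diag_apply, Matrix.mul_apply]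
    rw [Finset.sum_comm]
    refine Finset.sum_congr rfl fun j _ => Finset.sum_congr rfl fun i _ => ?_
    rw [scal_apply]
    change _ = Φ (Matrix.single i j 1) / sc i j * _
    have := sc_ne i j
    field_simp
  intro Z hZ
  obtain ⟨m, hm⟩ : ∃ m : ℕ, ((3 : K3) ^ m) • Z ∈ Aord := by
    obtain ⟨m, hm⟩ : ∃ m : ℕ, (∑ i, ∑ j, ‖Z i j‖) * 3 < 3 ^ m :=
      pow_unbounded_of_one_lt _ (by norm_num)
    refine ⟨m, fun i j => ?_⟩
    rw [Matrix.smul_apply, smul_eq_mul, norm_mul, norm_pow, norm_three]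
    have h1 : ‖Z i j‖ ≤ ∑ i, ∑ j, ‖Z i j‖ := by
      calc ‖Z i j‖ ≤ ∑ j, ‖Z i j‖ :=
            Finset.single_le_sum (f := fun j => ‖Z i j‖) (fun _ _ => norm_nonneg _)
              (Finset.mem_univ j)
        _ ≤ ∑ i, ∑ j, ‖Z i j‖ :=
            Finset.single_le_sum (f := fun i => ∑ j, ‖Z i j‖)
              (fun _ _ => Finset.sum_nonneg fun _ _ => norm_nonneg _) (Finset.mem_univ i)
    have h2 : (1 / 3 : ℝ) ≤ bd i j := by
      rcases i with i | i <;> rcases j with j | j <;> norm_num [bd]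
    refine le_trans ?_ h2
    have h3 : (0 : ℝ) < 3 ^ m := by positivity
    rw [div_pow, one_pow, one_div, inv_mul_le_iff₀ h3]
    linarith
  have h1 := hint _ (V.smul_mem ((3 : K3) ^ m) hZ) hm
  have h3 : ((3 : K3) ^ m) ≠ 0 := pow_ne_zero _ (by norm_num)
  rw [map_smul, Matrix.mul_smul, Matrix.trace_smul] at h1
  simp only [smul_eq_mul] at h1
  exact mul_left_cancel₀ h3 h1

/-! ### The involution -/

/-- `M ↦ J Mᵀ J`, the identity on `sp` -/
def tau (M : Mat 6 K3) : Mat 6 K3 := J (Fin 6) K3 * Mᵀ * J (Fin 6) K3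

theorem tau_of_sp {M : Mat 6 K3} (hM : M * J (Fin 6) K3 + J (Fin 6) K3 * Mᵀ = 0) :
    tau M = M := by
  have h1 : J (Fin 6) K3 * Mᵀ = -(M * J (Fin 6) K3) := by
    rw [add_comm] at hM; exact eq_neg_of_add_eq_zero_left hM
  rw [tau, h1, neg_mul, Matrix.mul_assoc, J_squared, mul_neg, mul_one, neg_neg]

theorem tau_tau (M : Mat 6 K3) : tau (tau M) = M := by
  have hJ : (J (Fin 6) K3) * (J (Fin 6) K3) = -1 := J_squared _ _
  rw [tau, tau, Matrix.transpose_mul, Matrix.transpose_mul, Matrix.transpose_transpose,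
    J_transpose]
  calc J (Fin 6) K3 * (-J (Fin 6) K3 * (M * -J (Fin 6) K3)) * J (Fin 6) K3
      = (J (Fin 6) K3 * J (Fin 6) K3) * M * (J (Fin 6) K3 * J (Fin 6) K3) := by noncomm_ring
    _ = M := by rw [hJ]; noncomm_ring

theorem sp_of_tau {M : Mat 6 K3} (hM : tau M = M) :
    M * J (Fin 6) K3 + J (Fin 6) K3 * Mᵀ = 0 := by
  have hJ : (J (Fin 6) K3) * (J (Fin 6) K3) = -1 := J_squared _ _
  have h1 : M * J (Fin 6) K3 = -(J (Fin 6) K3 * Mᵀ) := by
    calc M * J (Fin 6) K3 = tau M * J (Fin 6) K3 := by rw [hM]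
      _ = J (Fin 6) K3 * Mᵀ * (J (Fin 6) K3 * J (Fin 6) K3) := by rw [tau]; noncomm_ring
      _ = -(J (Fin 6) K3 * Mᵀ) := by rw [hJ]; noncomm_ring
  rw [h1, neg_add_cancel]

theorem trace_tau_mul {M Z : Mat 6 K3} (hZ : Z * J (Fin 6) K3 + J (Fin 6) K3 * Zᵀ = 0) :
    Matrix.trace (tau M * Z) = Matrix.trace (M * Z) := by
  have h1 : Matrix.trace (tau M * Z) = Matrix.trace (Mᵀ * (J (Fin 6) K3 * Z * J (Fin 6) K3)) := by
    rw [tau, Matrix.mul_assoc, Matrix.mul_assoc, Matrix.trace_mul_comm]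
    congr 1
    noncomm_ring
  have h2 : (J (Fin 6) K3 * Z * J (Fin 6) K3)ᵀ = tau Z := by
    rw [tau, Matrix.transpose_mul, Matrix.transpose_mul, J_transpose]
    noncomm_ring
  rw [h1, ← Matrix.trace_transpose, Matrix.transpose_mul, Matrix.transpose_transpose, h2,
    tau_of_sp hZ, Matrix.trace_mul_comm]

/-- exchange of the two halves of the coordinates -/
def sw : I12 → I12
  | Sum.inl i => Sum.inr i
  | Sum.inr i => Sum.inl i

theorem norm_tau (M : Mat 6 K3) (i j : I12) : ‖tau M i j‖ = ‖M (sw j) (sw i)‖ := by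
  have e : M = Matrix.fromBlocks M.toBlocks₁₁ M.toBlocks₁₂ M.toBlocks₂₁ M.toBlocks₂₂ :=
    (Matrix.fromBlocks_toBlocks M).symm
  have h : tau M = Matrix.fromBlocks (-M.toBlocks₂₂ᵀ) (M.toBlocks₁₂ᵀ) (M.toBlocks₂₁ᵀ)
      (-M.toBlocks₁₁ᵀ) := by
    conv_lhs => rw [e]
    rw [tau, J, Matrix.fromBlocks_transpose, Matrix.fromBlocks_multiply,
      Matrix.fromBlocks_multiply]
    congr 1 <;> simp
  rw [h]
  rcases i with i | i <;> rcases j with j | j <;>
    simp [sw, Matrix.toBlocks₁₁, Matrix.toBlocks₁₂, Matrix.toBlocks₂₁, Matrix.toBlocks₂₂]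

theorem tau_add (M N : Mat 6 K3) : tau (M + N) = tau M + tau N := by
  rw [tau, tau, tau, Matrix.transpose_add]; noncomm_ring

theorem tau_smul (c : K3) (M : Mat 6 K3) : tau (c • M) = c • tau M := by
  rw [tau, tau, Matrix.transpose_smul, Matrix.mul_smul, Matrix.smul_mul]

theorem bd_sw (i j : I12) : bd (sw j) (sw i) = bd i j := by
  rcases i with i | i <;> rcases j with j | j <;> simp [sw, bd]

theorem S_symm1 : S1ᵀ = S1 := by decide +kernel

theorem S_symm2 : S2ᵀ = S2 := by decide +kernel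

theorem tau_X3 : tau X3 = X3 := by
  have h : X3 = Matrix.fromBlocks 0 ((1 / 9 : K3) • red K3 S2) ((1 / 3 : K3) • red K3 S1) 0 := by
    ext i j
    rcases i with i | i <;> rcases j with j | j <;> simp [X3, Xq, red]
  have h1 : (red K3 S1)ᵀ = red K3 S1 := by
    have := congrArg (fun M : Matrix (Fin 6) (Fin 6) ℤ => M.map (Int.cast : ℤ → K3)) S_symm1
    simpa [red, Matrix.transpose_map] using this
  have h2 : (red K3 S2)ᵀ = red K3 S2 := by
    have := congrArg (fun M : Matrix (Fin 6) (Fin 6) ℤ => M.map (Int.cast : ℤ → K3)) S_symm2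
    simpa [red, Matrix.transpose_map] using this
  rw [h, tau, J, Matrix.fromBlocks_transpose, Matrix.fromBlocks_multiply,
      Matrix.fromBlocks_multiply]
  congr 1 <;> simp [Matrix.transpose_smul, h1, h2]

/-- Steps 2b and 2c. -/
theorem exists_Y {ψ : AddChar K3 Circle} (hψ : ∀ x, ψ x = 1 ↔ ‖x‖ ≤ 1) {h f : Mat 6 K3}
    (hhf : h * f - f * h = -(2 • f))
    (H : ∀ j : Matrix.symplecticGroup (Fin 6) K3, (j : Mat 6 K3) - 1 ∈ Aord →
      (j : Mat 6 K3) - 1 ∈ adGE h 2 →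
      ψ (Matrix.trace (X3 * ((j : Mat 6 K3) - 1))) =
        ψ (Matrix.trace (f * ((j : Mat 6 K3) - 1)))) :
    ∃ Y : Mat 6 K3, Y * J (Fin 6) K3 + J (Fin 6) K3 * Yᵀ = 0 ∧ NearX Y ∧
      ∀ Z : Mat 6 K3, Z * J (Fin 6) K3 + J (Fin 6) K3 * Zᵀ = 0 → Z ∈ adGE h 2 →
        Matrix.trace ((f - Y) * Z) = 0 := by
  let V : Submodule K3 (Mat 6 K3) :=
    { carrier := {Z | (Z * J (Fin 6) K3 + J (Fin 6) K3 * Zᵀ = 0) ∧ Z ∈ adGE h 2}
      add_mem' := by
        rintro A B ⟨hA, hA'⟩ ⟨hB, hB'⟩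
        refine ⟨?_, Submodule.add_mem _ hA' hB'⟩
        calc (A + B) * J (Fin 6) K3 + J (Fin 6) K3 * (A + B)ᵀ
            = (A * J (Fin 6) K3 + J (Fin 6) K3 * Aᵀ) + (B * J (Fin 6) K3 + J (Fin 6) K3 * Bᵀ) := by
              rw [Matrix.transpose_add]; noncomm_ring
          _ = 0 := by rw [hA, hB, add_zero]
      zero_mem' := by
        refine ⟨by simp, Submodule.zero_mem _⟩
      smul_mem' := by
        rintro c A ⟨hA, hA'⟩
        refine ⟨?_, Submodule.smul_mem _ _ hA'⟩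
        rw [Matrix.transpose_smul, Matrix.smul_mul, Matrix.mul_smul, ← smul_add, hA, smul_zero] }
  let φ : Mat 6 K3 →ₗ[K3] K3 :=
    { toFun := fun Z => Matrix.trace ((f - X3) * Z)
      map_add' := fun A B => by rw [Matrix.mul_add, Matrix.trace_add]
      map_smul' := fun c A => by rw [Matrix.mul_smul, Matrix.trace_smul]; rfl }
  obtain ⟨W, hW, hWt⟩ := exists_ext V φ
    (fun Z hZ hZA => step2b hψ hhf H hZA hZ.1 hZ.2)
  let Z' : Mat 6 K3 := (1 / 2 : K3) • (W + tau W)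
  have hZ'sp : tau Z' = Z' := by
    simp only [Z']
    rw [tau_smul, tau_add, tau_tau, add_comm]
  have hZ'b : ∀ i j, ‖Z' i j‖ ≤ (bd j i)⁻¹ := by
    intro i j
    simp only [Z']
    rw [Matrix.smul_apply, smul_eq_mul, norm_mul, norm_div, norm_one, norm_two, div_one, one_mul,
      Matrix.add_apply]
    refine (IsUltrametricDist.norm_add_le_max _ _).trans (max_le (hW i j) ?_)
    rw [norm_tau]
    refine (hW _ _).trans (le_of_eq ?_)
    rw [bd_sw]
  refine ⟨X3 + Z', ?_, ?_, ?_⟩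
  · apply sp_of_tau
    rw [tau_add, tau_X3, hZ'sp]
  · have e : ∀ i j, (X3 + Z') i j - X3 i j = Z' i j := by
      intro i j; rw [Matrix.add_apply]; ring
    refine ⟨fun i j => ?_, fun i j => ?_, fun i j => ?_, fun i j => ?_⟩
    · rw [e]
      exact (hZ'b _ _).trans (by norm_num [bd])
    · rw [e]
      exact (hZ'b _ _).trans (by norm_num [bd])
    · have h0 : X3 (Sum.inl i) (Sum.inl j) = 0 := by simp [X3, Xq]
      rw [Matrix.add_apply, h0, zero_add]
      exact (hZ'b _ _).trans (by norm_num [bd])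
    · have h0 : X3 (Sum.inr i) (Sum.inr j) = 0 := by simp [X3, Xq]
      rw [Matrix.add_apply, h0, zero_add]
      exact (hZ'b _ _).trans (by norm_num [bd])
  · intro Z hZ hZh
    have h1 : Matrix.trace ((f - X3) * Z) = Matrix.trace (W * Z) := hWt Z ⟨hZ, hZh⟩
    have h2 : Matrix.trace (Z' * Z) = Matrix.trace (W * Z) := by
      simp only [Z']
      rw [Matrix.smul_mul, Matrix.trace_smul, Matrix.add_mul, Matrix.trace_add, trace_tau_mul hZ,
        smul_eq_mul]
      ring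
    have e : (f - (X3 + Z')) * Z = (f - X3) * Z - Z' * Z := by noncomm_ring
    rw [e, Matrix.trace_sub, h1, h2, sub_self]

end Pool.Agent.FC.LocY
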