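import Pool.Agent.FC.Sl2A

/-!
# `sl₂`-representations: filtrations and ranks of powers
-/

open Module

namespace Pool.Agent.FC.Sl2

section EndTheory

variable {K : Type*} [Field K] {V : Type*} [AddCommGroup V] [Module K V]

/-- the sum of the weight spaces with weights `≥ i` -/
def FE (h : End K V) (i : ℤ) : Submodule K V := ⨆ (j : ℤ) (_ : i ≤ j), E h j

/-- the sum of the weight spaces with weights `≤ i` -/
def GE (h : End K V) (i : ℤ) : Submodule K V := ⨆ (j : ℤ) (_ : j ≤ i), E h j

theorem E_le_FE {h : End K V} {i j : ℤ} (hij : i ≤ j) : E h j ≤ FE h i :=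
  le_iSup₂_of_le (f := fun (j : ℤ) (_ : i ≤ j) => E h j) j hij le_rfl

theorem E_le_GE {h : End K V} {i j : ℤ} (hij : j ≤ i) : E h j ≤ GE h i :=
  le_iSup₂_of_le (f := fun (j : ℤ) (_ : j ≤ i) => E h j) j hij le_rfl

theorem FE_le {h : End K V} {i : ℤ} {S : Submodule K V} (H : ∀ j, i ≤ j → E h j ≤ S) :
    FE h i ≤ S := iSup₂_le H

theorem GE_le {h : End K V} {i : ℤ} {S : Submodule K V} (H : ∀ j, j ≤ i → E h j ≤ S) :
    GE h i ≤ S := iSup₂_le H

theorem FE_mono {h : End K V} {i j : ℤ} (hij : i ≤ j) : FE h j ≤ FE h i :=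
  FE_le fun _ hk => E_le_FE (hij.trans hk)

theorem E_neg (h : End K V) (i : ℤ) : E (-h) i = E h (-i) :=
  Submodule.ext fun _ => mem_E_neg

theorem FE_neg (h : End K V) (i : ℤ) : FE (-h) i = GE h (-i) := by
  apply le_antisymm
  · refine FE_le fun j hj => ?_
    rw [E_neg]
    exact E_le_GE (by omega)
  · refine GE_le fun j hj => ?_
    have : E h j = E (-h) (-j) := by rw [E_neg, neg_neg]
    rw [this]
    exact E_le_FE (by omega)

theorem FE_eq_sup (h : End K V) (i : ℤ) : FE h i = E h i ⊔ FE h (i + 1) := by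
  apply le_antisymm
  · refine FE_le fun j hj => ?_
    rcases eq_or_lt_of_le hj with h1 | h1
    · subst h1; exact le_sup_left
    · exact (E_le_FE (by omega)).trans le_sup_right
  · exact sup_le (E_le_FE le_rfl) (FE_mono (by omega))

variable {e h f : End K V}

theorem Rel.f_mem_FE (t : Rel e h f) {i : ℤ} {v : V} (hv : v ∈ FE h i) : f v ∈ FE h (i - 2) := by
  have : FE h i ≤ (FE h (i - 2)).comap f :=
    FE_le fun j hj x hx => E_le_FE (by omega) (t.f_mem hx)
  exact this hv

theorem Rel.e_mem_FE (t : Rel e h f) {i : ℤ} {v : V} (hv : v ∈ FE h i) : e v ∈ FE h (i + 2) := by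
  have : FE h i ≤ (FE h (i + 2)).comap e :=
    FE_le fun j hj x hx => E_le_FE (by omega) (t.e_mem hx)
  exact this hv

theorem Rel.f_pow_mem_FE (t : Rel e h f) {i : ℤ} (k : ℕ) {v : V} (hv : v ∈ FE h i) :
    (f ^ k) v ∈ FE h (i - 2 * k) := by
  have : FE h i ≤ (FE h (i - 2 * k)).comap (f ^ k) :=
    FE_le fun j hj x hx => E_le_FE (by omega) (t.f_pow_mem hx k)
  exact this hv

variable [CharZero K]

theorem disjoint_FE_GE (h : End K V) {a b : ℤ} (hab : b < a) : Disjoint (FE h a) (GE h b) := by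
  have := (indep h).disjoint_biSup_biSup (s := {j : ℤ | a ≤ j}) (t := {j : ℤ | j ≤ b}) (by
    rw [Set.disjoint_left]
    intro x hx hx'
    simp only [Set.mem_ofPred_eq] at hx hx'
    omega)
  exact this

variable [FiniteDimensional K V]

theorem Rel.FE_sup_GE (t : Rel e h f) {a b : ℤ} (hab : a ≤ b + 1) : FE h a ⊔ GE h b = ⊤ := by
  rw [eq_top_iff, ← t.iSup_E]
  refine iSup_le fun j => ?_
  by_cases hj : a ≤ j
  · exact (E_le_FE hj).trans le_sup_left
  · exact (E_le_GE (by omega)).trans le_sup_right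

/-- `e^k f^k` is injective on the weight space `i` if `k ≤ i`. -/
theorem Rel.ef_pow_inj (t : Rel e h f) {i : ℕ} (k : ℕ) (hk : k ≤ i) {u : V} (hu : u ∈ E h i)
    (H : (e ^ k) ((f ^ k) u) = 0) : u = 0 := by
  induction k generalizing u with
  | zero => simpa using H
  | succ k ih =>
    have h0 := t.e_f_pow k u
    have h1 : h u - (k : K) • u = ((i - k : ℕ) : K) • u := by
      rw [mem_E] at hu
      rw [hu, Nat.cast_sub (by omega), sub_smul]
      push_cast
      rfl
    rw [h1, map_smul, smul_smul, pow_succ f k, Module.End.mul_apply, ← map_smul,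
      Module.End.mul_apply, ← map_add] at h0
    rw [pow_succ e k, Module.End.mul_apply, pow_succ f k, Module.End.mul_apply, h0] at H
    have h2 : f (e u) + (((k : K) + 1) * ((i - k : ℕ) : K)) • u ∈ E h i := by
      refine Submodule.add_mem _ ?_ (Submodule.smul_mem _ _ hu)
      have := t.f_mem (t.e_mem hu)
      rwa [add_sub_cancel_right] at this
    have h3 := ih (by omega) h2 H
    refine t.eq_zero_of_fe hu (c := (k + 1) * (i - k)) (Nat.mul_pos (by omega) (by omega)) ?_
    rw [eq_neg_iff_add_eq_zero]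
    push_cast
    exact h3

/-- `e^k` maps the weight space `i - 2k` onto the weight space `i` if `k ≤ i`. -/
theorem Rel.e_pow_surj (t : Rel e h f) {i k : ℕ} (hk : k ≤ i) {u : V} (hu : u ∈ E h i) :
    ∃ w ∈ E h ((i : ℤ) - 2 * k), (e ^ k) w = u := by
  have hmaps : ∀ x ∈ E h (i : ℤ), (e ^ k * f ^ k) x ∈ E h (i : ℤ) := by
    intro x hx
    have := t.e_pow_mem (t.f_pow_mem hx k) k
    rwa [sub_add_cancel] at this
  set g : E h (i : ℤ) →ₗ[K] E h (i : ℤ) := (e ^ k * f ^ k).restrict hmaps with hg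
  have hinj : Function.Injective g := by
    rw [injective_iff_map_eq_zero]
    intro x hx
    have hx1 : (e ^ k) ((f ^ k) (x : V)) = 0 := by
      have := congrArg (fun y : E h (i : ℤ) => (y : V)) hx
      simpa [hg] using this
    exact Subtype.ext (t.ef_pow_inj k hk x.2 hx1)
  have hsurj : Function.Surjective g := LinearMap.injective_iff_surjective.1 hinj
  obtain ⟨w, hw⟩ := hsurj ⟨u, hu⟩
  refine ⟨(f ^ k) w, t.f_pow_mem w.2 k, ?_⟩
  have := congrArg (fun y : E h (i : ℤ) => (y : V)) hw
  simpa [hg] using this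

/-- weights are bounded -/
theorem Rel.exists_FE_bot (t : Rel e h f) : ∃ M : ℕ, ∀ i : ℤ, (M : ℤ) ≤ i → FE h i = ⊥ := by
  obtain ⟨N, hN⟩ := t.isNilpotent_f
  refine ⟨N, fun i hi => ?_⟩
  rw [eq_bot_iff]
  refine FE_le fun j hj x hx => ?_
  obtain ⟨j', rfl⟩ : ∃ j' : ℕ, j = j' := ⟨j.toNat, by omega⟩
  rw [Submodule.mem_bot]
  exact t.f_pow_inj N (by omega) hx (by rw [hN]; rfl)

theorem Rel.f_pow_inj_FE (t : Rel e h f) {k : ℕ} {v : V} (hv : v ∈ FE h k)
    (H : (f ^ k) v = 0) : v = 0 := by
  obtain ⟨M, hM⟩ := t.exists_FE_bot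
  have key : ∀ d i : ℕ, k ≤ i → M ≤ i + d → ∀ v ∈ FE h i, (f ^ k) v = 0 → v = 0 := by
    intro d
    induction d with
    | zero =>
      intro i _ hi v hv _
      rw [hM i (by omega)] at hv
      simpa using hv
    | succ d ih =>
      intro i hki hi v hv H
      rw [FE_eq_sup] at hv
      obtain ⟨x, hx, y, hy, rfl⟩ := Submodule.mem_sup.1 hv
      rw [map_add] at H
      have h1 : (f ^ k) x ∈ GE h ((i : ℤ) - 2 * k) := E_le_GE le_rfl (t.f_pow_mem hx k)
      have h2 : (f ^ k) y ∈ FE h ((i : ℤ) + 1 - 2 * k) := t.f_pow_mem_FE k hy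
      have h3 : (f ^ k) y = 0 := by
        refine (Submodule.disjoint_def.1 (disjoint_FE_GE h
          (a := (i : ℤ) + 1 - 2 * k) (b := (i : ℤ) - 2 * k) (by omega))) _ h2 ?_
        rw [eq_neg_of_add_eq_zero_right H]
        exact Submodule.neg_mem _ h1
      have h4 : (f ^ k) x = 0 := by rw [h3, add_zero] at H; exact H
      have hx0 := t.f_pow_inj k hki hx h4
      have hy0 := ih (i + 1) (by omega) (by omega) y (by push_cast; exact hy) h3
      rw [hx0, hy0, add_zero]
  exact key M k le_rfl (by omega) v hv H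

/-- opposite weight spaces have the same dimension -/
theorem Rel.finrank_E_neg (t : Rel e h f) (i : ℕ) :
    finrank K (E h (-(i : ℤ))) = finrank K (E h i) := by
  apply le_antisymm
  · have hmaps : ∀ x ∈ E h (-(i : ℤ)), (e ^ i) x ∈ E h (i : ℤ) := by
      intro x hx
      have := t.e_pow_mem hx i
      have e1 : -(i : ℤ) + 2 * i = i := by ring
      rwa [e1] at this
    refine LinearMap.finrank_le_finrank_of_injective (f := (e ^ i).restrict hmaps) ?_
    rw [injective_iff_map_eq_zero]
    intro x hx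
    have hx1 : (e ^ i) (x : V) = 0 := by
      have := congrArg (fun y : E h (i : ℤ) => (y : V)) hx
      simpa using this
    exact Subtype.ext (t.e_pow_inj i le_rfl x.2 hx1)
  · have hmaps : ∀ x ∈ E h (i : ℤ), (f ^ i) x ∈ E h (-(i : ℤ)) := by
      intro x hx
      have := t.f_pow_mem hx i
      have e1 : (i : ℤ) - 2 * i = -i := by ring
      rwa [e1] at this
    refine LinearMap.finrank_le_finrank_of_injective (f := (f ^ i).restrict hmaps) ?_
    rw [injective_iff_map_eq_zero]
    intro x hx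
    have hx1 : (f ^ i) (x : V) = 0 := by
      have := congrArg (fun y : E h (-(i : ℤ)) => (y : V)) hx
      simpa using this
    exact Subtype.ext (t.f_pow_inj i le_rfl x.2 hx1)

theorem finrank_FE (h : End K V) (i : ℤ) :
    finrank K (FE h i) = finrank K (E h i) + finrank K (FE h (i + 1)) := by
  have h1 := Submodule.finrank_sup_add_finrank_inf_eq (E h i) (FE h (i + 1))
  have h2 : E h i ⊓ FE h (i + 1) = ⊥ := by
    have h3 := disjoint_FE_GE h (a := i + 1) (b := i) (by omega)
    exact ((h3.mono_right (E_le_GE (h := h) (i := i) le_rfl)).symm).eq_bot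
  rw [h2, finrank_bot, add_zero, ← FE_eq_sup] at h1
  exact h1

theorem Rel.finrank_FE_neg (t : Rel e h f) (k : ℕ) :
    finrank K (FE (-h) k) = finrank K (FE h k) := by
  obtain ⟨M, hM⟩ := t.exists_FE_bot
  obtain ⟨M', hM'⟩ := t.symm.exists_FE_bot
  have key : ∀ d k : ℕ, max M M' ≤ k + d → finrank K (FE (-h) k) = finrank K (FE h k) := by
    intro d
    induction d with
    | zero => intro k hk; rw [hM k (by omega), hM' k (by omega)]
    | succ d ih =>
      intro k hk
      rw [finrank_FE, finrank_FE h]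
      have := ih (k + 1) (by omega)
      push_cast at this
      rw [this, E_neg, t.finrank_E_neg]
  exact key _ k (le_add_self)

/-- `rank f^k = dim FE k + dim FE (k+1)` -/
theorem Rel.finrank_range_pow (t : Rel e h f) (k : ℕ) :
    finrank K (LinearMap.range (f ^ k)) = finrank K (FE h k) + finrank K (FE h (k + 1)) := by
  have hrange : LinearMap.range (f ^ k) = (FE h k).map (f ^ k) ⊔ GE h (-(k + 1 : ℤ)) := by
    have h1 : LinearMap.range (f ^ k) = (FE h k ⊔ GE h ((k : ℤ) - 1)).map (f ^ k) := by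
      rw [t.FE_sup_GE (by omega), Submodule.map_top]
    have h2 : (GE h ((k : ℤ) - 1)).map (f ^ k) = GE h (-(k + 1 : ℤ)) := by
      apply le_antisymm
      · rw [Submodule.map_le_iff_le_comap]
        refine GE_le fun j hj x hx => ?_
        exact E_le_GE (by omega) (t.f_pow_mem hx k)
      · refine GE_le fun j hj x hx => ?_
        obtain ⟨i, hi⟩ : ∃ i : ℕ, j = -i := ⟨(-j).toNat, by omega⟩
        subst hi
        obtain ⟨w, hw, hwx⟩ := t.symm.e_pow_surj (i := i) (k := k) (by omega) (u := x)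
          (by rw [mem_E_neg]; exact hx)
        rw [mem_E_neg] at hw
        exact ⟨w, E_le_GE (by omega) hw, hwx⟩
    rw [h1, Submodule.map_sup, h2]
  have h3 : (FE h k).map (f ^ k) ⊓ GE h (-(k + 1 : ℤ)) = ⊥ := by
    have h4 : (FE h k).map (f ^ k) ≤ FE h (-(k : ℤ)) := by
      rw [Submodule.map_le_iff_le_comap]
      refine FE_le fun j hj x hx => ?_
      exact E_le_FE (by omega) (t.f_pow_mem hx k)
    exact ((disjoint_FE_GE h (a := -(k : ℤ)) (b := -(k + 1 : ℤ)) (by omega)).mono_left h4).eq_bot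
  have h5 := Submodule.finrank_sup_add_finrank_inf_eq ((FE h k).map (f ^ k)) (GE h (-(k + 1 : ℤ)))
  rw [h3, finrank_bot, add_zero, ← hrange] at h5
  rw [h5]
  congr 1
  · have hinj : Function.Injective ((f ^ k).domRestrict (FE h k)) := by
      rw [injective_iff_map_eq_zero]
      intro x hx
      exact Subtype.ext (t.f_pow_inj_FE x.2 hx)
    have h6 := LinearMap.finrank_range_of_inj hinj
    have h8 : LinearMap.range ((f ^ k).domRestrict (FE h k)) = (FE h k).map (f ^ k) :=
      LinearMap.range_domRestrict _ _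
    rw [h8] at h6
    exact h6
  · have h7 := t.finrank_FE_neg (k + 1)
    rw [FE_neg] at h7
    push_cast at h7
    exact h7

end EndTheory

end Pool.Agent.FC.Sl2
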