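import Pool.Agent.FC.Defs
import Pool.Agent.FC.Sl2B

/-!
# `sl₂`-triples of matrices: weight spaces, the filtration `FF`, ranks of powers, and the
symplectic case
-/

open Module Matrix

namespace Pool.Agent.FC.Sl2

section Gen

variable {K : Type*} [Field K] {m : Type*} [Fintype m] [DecidableEq m]

/-- weight space of a matrix: `{v | h v = i v}` -/
def wt (h : Matrix m m K) (i : ℤ) : Submodule K (m → K) := E (Matrix.toLin' h) i

/-- the sum of the weight spaces with weight `≥ i` -/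
def FF (h : Matrix m m K) (i : ℤ) : Submodule K (m → K) := ⨆ (j : ℤ) (_ : i ≤ j), wt h j

theorem FF_eq_FE (h : Matrix m m K) (i : ℤ) : FF h i = FE (Matrix.toLin' h) i := rfl

theorem Rel.lin {e h f : Matrix m m K} (t : Rel e h f) :
    Rel (Matrix.toLin' e) (Matrix.toLin' h) (Matrix.toLin' f) :=
  t.map ((Matrix.toLinAlgEquiv' : Matrix m m K ≃ₐ[K] ((m → K) →ₗ[K] m → K)) :
    Matrix m m K →+* ((m → K) →ₗ[K] m → K))

theorem toLin'_pow (f : Matrix m m K) (k : ℕ) :
    Matrix.toLin' (f ^ k) = (Matrix.toLin' f) ^ k :=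
  map_pow (Matrix.toLinAlgEquiv' : Matrix m m K ≃ₐ[K] ((m → K) →ₗ[K] m → K)) f k

theorem mem_wt {h : Matrix m m K} {i : ℤ} {v : m → K} :
    v ∈ wt h i ↔ h *ᵥ v = (i : K) • v := by
  rw [wt, mem_E, Matrix.toLin'_apply]

theorem wt_le_FF {h : Matrix m m K} {i j : ℤ} (hij : i ≤ j) : wt h j ≤ FF h i := by
  exact E_le_FE hij

theorem FF_mono {h : Matrix m m K} {i j : ℤ} (hij : i ≤ j) : FF h j ≤ FF h i := by
  exact FE_mono hij

theorem FF_eq_sup (h : Matrix m m K) (i : ℤ) : FF h i = wt h i ⊔ FF h (i + 1) := by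
  exact FE_eq_sup _ _

variable {e h f : Matrix m m K}

theorem f_mem_FF (t : Rel e h f) {i : ℤ} {v : m → K} (hv : v ∈ FF h i) :
    f *ᵥ v ∈ FF h (i - 2) := by
  exact t.lin.f_mem_FE hv

theorem e_mem_FF (t : Rel e h f) {i : ℤ} {v : m → K} (hv : v ∈ FF h i) :
    e *ᵥ v ∈ FF h (i + 2) := by
  exact t.lin.e_mem_FE hv

variable [CharZero K]

theorem iSup_wt (t : Rel e h f) : ⨆ i : ℤ, wt h i = ⊤ := by
  exact t.lin.iSup_E

theorem f_pow_inj (t : Rel e h f) {i k : ℕ} (hk : k ≤ i) {v : m → K} (hv : v ∈ wt h i)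
    (H : (f ^ k) *ᵥ v = 0) : v = 0 := by
  refine t.lin.f_pow_inj k hk hv ?_
  rw [← toLin'_pow]
  exact H

/-- `rank f^k = dim FF k + dim FF (k+1)` -/
theorem rank_pow (t : Rel e h f) (k : ℕ) :
    (f ^ k).rank = finrank K (FF h k) + finrank K (FF h (k + 1)) := by
  have := t.lin.finrank_range_pow k
  rw [← toLin'_pow] at this
  exact this

theorem FF_eq_bot_iff (t : Rel e h f) (k : ℕ) : FF h k = ⊥ ↔ f ^ k = 0 := by
  have h1 := rank_pow t k
  have h2 : finrank K (FF h ((k : ℤ) + 1)) ≤ finrank K (FF h k) :=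
    Submodule.finrank_mono (FF_mono (by omega))
  constructor
  · intro H
    rw [H, finrank_bot] at h1 h2
    have h3 : (f ^ k).rank = 0 := by omega
    have h4 : LinearMap.range (f ^ k).mulVecLin = ⊥ := Submodule.finrank_eq_zero.1 h3
    have h5 : (f ^ k).mulVecLin = 0 := LinearMap.range_eq_bot.1 h4
    exact Matrix.toLin'.injective (by rw [map_zero]; exact h5)
  · intro H
    rw [H, Matrix.rank_zero] at h1
    exact Submodule.finrank_eq_zero.1 (by omega)

/-- the maximal weight -/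
theorem exists_top_weight (t : Rel e h f) {k : ℕ} (hk : f ^ k ≠ 0) :
    ∃ M : ℕ, k ≤ M ∧ FF h (M + 1) = ⊥ ∧ wt h M ≠ ⊥ := by
  obtain ⟨N, hN⟩ := t.lin.exists_FE_bot
  have hne : FF h k ≠ ⊥ := fun H => hk ((FF_eq_bot_iff t k).1 H)
  classical
  have hex : ∃ d : ℕ, FF h ((k : ℤ) + d + 1) = ⊥ :=
    ⟨N, hN _ (by omega)⟩
  have hspec := Nat.find_spec hex
  set d := Nat.find hex with hd
  refine ⟨k + d, by omega, by push_cast; exact hspec, fun H => ?_⟩
  have h1 : FF h ((k : ℤ) + d) = ⊥ := by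
    rw [FF_eq_sup, hspec, sup_bot_eq]
    push_cast at H
    exact H
  rcases Nat.eq_zero_or_pos d with h0 | h0
  · rw [h0] at h1
    exact hne (by simpa using h1)
  · have h2 := Nat.find_min hex (m := d - 1) (by omega)
    apply h2
    have e1 : (k : ℤ) + ((d - 1 : ℕ) : ℤ) + 1 = k + d := by
      rw [Nat.cast_sub (by omega)]; push_cast; ring
    rw [e1]
    exact h1

/-- a vector of the top weight space, as a nonzero vector -/
theorem type84 (t : Rel e h f)
    (hr : ∀ k : ℕ, (f ^ k).rank = (({8, 4} : Multiset ℕ).map (fun i => i - k)).sum) :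
    FF h 8 = ⊥ ∧ finrank K (FF h 7) = 1 ∧ finrank K (FF h 5) = 2 ∧ finrank K (FF h 3) = 4 := by
  have r := fun k => (rank_pow t k).symm.trans (hr k)
  have r3 : finrank K (FF h 3) + finrank K (FF h 4) = 6 := by
    have := r 3; norm_num at this; exact this
  have r4 : finrank K (FF h 4) + finrank K (FF h 5) = 4 := by
    have := r 4; norm_num at this; exact this
  have r5 : finrank K (FF h 5) + finrank K (FF h 6) = 3 := by
    have := r 5; norm_num at this; exact this
  have r6 : finrank K (FF h 6) + finrank K (FF h 7) = 2 := by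
    have := r 6; norm_num at this; exact this
  have r7 : finrank K (FF h 7) + finrank K (FF h 8) = 1 := by
    have := r 7; norm_num at this; exact this
  have r8 : finrank K (FF h 8) + finrank K (FF h 9) = 0 := by
    have := r 8
    simp only [Multiset.insert_eq_cons, Multiset.map_cons, Multiset.map_singleton,
      Multiset.sum_cons, Multiset.sum_singleton] at this
    norm_num at this
    rw [this.1, this.2]; simp
  have b8 : FF h 8 = ⊥ := Submodule.finrank_eq_zero.1 (by omega)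
  refine ⟨b8, ?_, ?_, ?_⟩ <;> omega

omit [CharZero K] in
/-- the rank is invariant under field extension -/
theorem rank_map {L : Type*} [Field L] (φ : K →+* L) (A : Matrix m m K) :
    (A.map φ).rank = A.rank := by
  classical
  obtain ⟨L1, L2, D, hA⟩ := Matrix.Pivot.exists_list_transvec_mul_diagonal_mul_list_transvec A
  have h1 : IsUnit (L1.map Matrix.TransvectionStruct.toMatrix).prod.det := by
    rw [Matrix.TransvectionStruct.det_toMatrix_prod]; exact isUnit_one
  have h2 : IsUnit (L2.map Matrix.TransvectionStruct.toMatrix).prod.det := by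
    rw [Matrix.TransvectionStruct.det_toMatrix_prod]; exact isUnit_one
  have h1' : IsUnit ((L1.map Matrix.TransvectionStruct.toMatrix).prod.map φ).det := by
    have : ((L1.map Matrix.TransvectionStruct.toMatrix).prod.map φ).det
        = φ ((L1.map Matrix.TransvectionStruct.toMatrix).prod).det := (RingHom.map_det φ _).symm
    rw [this]; exact h1.map φ
  have h2' : IsUnit ((L2.map Matrix.TransvectionStruct.toMatrix).prod.map φ).det := by
    have : ((L2.map Matrix.TransvectionStruct.toMatrix).prod.map φ).det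
        = φ ((L2.map Matrix.TransvectionStruct.toMatrix).prod).det := (RingHom.map_det φ _).symm
    rw [this]; exact h2.map φ
  rw [hA, Matrix.map_mul, Matrix.map_mul, Matrix.rank_mul_eq_left_of_isUnit_det _ _ h2',
    Matrix.rank_mul_eq_right_of_isUnit_det _ _ h1', Matrix.rank_mul_eq_left_of_isUnit_det _ _ h2,
    Matrix.rank_mul_eq_right_of_isUnit_det _ _ h1]
  have h3 : (diagonal D).map φ = diagonal (fun i => φ (D i)) := by
    rw [Matrix.diagonal_map (map_zero φ)]
  rw [h3, Matrix.rank_diagonal, Matrix.rank_diagonal]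
  refine Fintype.card_congr (Equiv.subtypeEquivRight fun i => ?_)
  exact (map_ne_zero φ)

end Gen

section Symp

variable {K : Type*} [Field K] {n : ℕ}

/-- weights of `ad h` -/
theorem ad_mem_wt {h X : Mat n K} {i j : ℤ} (hX : h * X - X * h = (i : K) • X)
    {v : Fin n ⊕ Fin n → K} (hv : v ∈ wt h j) : X *ᵥ v ∈ wt h (i + j) := by
  rw [mem_wt] at hv ⊢
  have h1 : h * X = X * h + (i : K) • X := by rw [← hX]; abel
  rw [Matrix.mulVec_mulVec, h1, Matrix.add_mulVec, ← Matrix.mulVec_mulVec, hv,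
    Matrix.smul_mulVec, Matrix.mulVec_smul, Int.cast_add, add_smul, add_comm]

theorem adGE_mulVec {h X : Mat n K} {i j : ℤ} (hX : X ∈ adGE h i) {v : Fin n ⊕ Fin n → K}
    (hv : v ∈ FF h j) : X *ᵥ v ∈ FF h (i + j) := by
  have key : ∀ X ∈ adGE h i, FF h j ≤ (FF h (i + j)).comap (Matrix.toLin' X) := by
    intro X hX
    induction hX using Submodule.span_induction with
    | mem X hX =>
      obtain ⟨a, ha, hX⟩ := hX
      refine iSup₂_le fun b hb x hx => ?_
      exact wt_le_FF (by omega : i + j ≤ a + b) (ad_mem_wt hX hx)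
    | zero => intro x _; simp
    | add X Y _ _ hX hY =>
      intro x hx
      have h1 := hX hx
      have h2 := hY hx
      rw [Submodule.mem_comap, Matrix.toLin'_apply] at h1 h2 ⊢
      rw [Matrix.add_mulVec]
      exact Submodule.add_mem _ h1 h2
    | smul c X _ hX =>
      intro x hx
      have h1 := hX hx
      rw [Submodule.mem_comap, Matrix.toLin'_apply] at h1 ⊢
      rw [Matrix.smul_mulVec]
      exact Submodule.smul_mem _ _ h1
  exact key X hX hv

/-- the adjoint representation on matrices -/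
def ad (a : Mat n K) : End K (Mat n K) := LinearMap.mulLeft K a - LinearMap.mulRight K a

theorem ad_apply (a X : Mat n K) : ad a X = a * X - X * a := rfl

theorem Rel.ad {e h f : Mat n K} (t : Rel e h f) : Rel (ad e) (ad h) (ad f) where
  he := by
    ext1 X
    have := t.he
    calc Sl2.ad h (Sl2.ad e X) - Sl2.ad e (Sl2.ad h X) = (h * e - e * h) * X - X * (h * e - e * h) := by
          simp only [ad_apply]; noncomm_ring
      _ = 2 • (Sl2.ad e X) := by rw [this, ad_apply]; noncomm_ring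
  hf := by
    ext1 X
    have := t.hf
    calc Sl2.ad h (Sl2.ad f X) - Sl2.ad f (Sl2.ad h X) = (h * f - f * h) * X - X * (h * f - f * h) := by
          simp only [ad_apply]; noncomm_ring
      _ = -(2 • (Sl2.ad f X)) := by rw [this, ad_apply]; noncomm_ring
  ef := by
    ext1 X
    have := t.ef
    calc Sl2.ad e (Sl2.ad f X) - Sl2.ad f (Sl2.ad e X) = (e * f - f * e) * X - X * (e * f - f * e) := by
          simp only [ad_apply]; noncomm_ring
      _ = Sl2.ad h X := by rw [this, ad_apply]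

theorem FE_ad (h : Mat n K) (i : ℤ) : FE (ad h) i = adGE h i := by
  apply le_antisymm
  · refine FE_le fun j hj X hX => Submodule.subset_span ⟨j, hj, ?_⟩
    exact mem_E.1 hX
  · refine Submodule.span_le.2 ?_
    rintro X ⟨j, hj, hX⟩
    exact E_le_FE hj (mem_E.2 hX)

theorem mem_adGE [CharZero K] {e h f X : Mat n K} (t : Rel e h f) {i : ℤ}
    (H : ∀ (j : ℤ) (v : Fin n ⊕ Fin n → K), v ∈ wt h j → X *ᵥ v ∈ FF h (i + j)) :
    X ∈ adGE h i := by
  have h1 : X ∈ FE (ad h) i ⊔ GE (ad h) (i - 1) := by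
    rw [t.ad.FE_sup_GE (by omega)]; exact Submodule.mem_top
  obtain ⟨X1, hX1, X2, hX2, rfl⟩ := Submodule.mem_sup.1 h1
  have hX1' : X1 ∈ adGE h i := by rw [← FE_ad]; exact hX1
  have hGE : ∀ (j : ℤ) (v : Fin n ⊕ Fin n → K), v ∈ wt h j →
      X2 *ᵥ v ∈ GE (Matrix.toLin' h) (i - 1 + j) := by
    intro j v hv
    have key : GE (ad h) (i - 1) ≤ (GE (Matrix.toLin' h) (i - 1 + j)).comap
        ((LinearMap.applyₗ v).comp (Matrix.toLin' : Mat n K ≃ₗ[K] _).toLinearMap) := by
      refine GE_le fun a ha Y hY => ?_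
      have hY2 : h * Y - Y * h = (a : K) • Y := mem_E.1 hY
      exact E_le_GE (by omega : a + j ≤ i - 1 + j) (ad_mem_wt hY2 hv)
    exact key hX2
  have hz : X2 = 0 := by
    have hker : LinearMap.ker (Matrix.toLin' X2) = ⊤ := by
      rw [eq_top_iff, ← iSup_wt t]
      refine iSup_le fun j v hv => ?_
      rw [LinearMap.mem_ker, Matrix.toLin'_apply]
      refine (Submodule.disjoint_def.1 (disjoint_FE_GE (Matrix.toLin' h)
        (a := i + j) (b := i - 1 + j) (by omega))) _ ?_ (hGE j v hv)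
      have h2 := H j v hv
      have h3 := adGE_mulVec hX1' (wt_le_FF le_rfl hv : v ∈ FF h j)
      have h4 := Submodule.sub_mem _ h2 h3
      rw [Matrix.add_mulVec, add_sub_cancel_left] at h4
      exact h4
    have := LinearMap.ker_eq_top.1 hker
    exact Matrix.toLin'.injective (by rw [this, map_zero])
  rw [hz, add_zero]
  exact hX1'

theorem wt_orth {h : Mat n K} [CharZero K] (hh : h * J (Fin n) K + J (Fin n) K * hᵀ = 0)
    {a b : ℤ} (hab : a + b ≠ 0) {v w : Fin n ⊕ Fin n → K} (hv : v ∈ wt h a) (hw : w ∈ wt h b) :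
    v ⬝ᵥ (J (Fin n) K *ᵥ w) = 0 := by
  rw [mem_wt] at hv hw
  have hJ : J (Fin n) K * h = -(hᵀ * J (Fin n) K) := by
    have hJ2 : J (Fin n) K * J (Fin n) K = -1 := J_squared (Fin n) K
    have h1 : h * J (Fin n) K = -(J (Fin n) K * hᵀ) := eq_neg_of_add_eq_zero_left hh
    have := congrArg (fun Z => J (Fin n) K * Z * J (Fin n) K) h1
    have e1 : J (Fin n) K * (h * J (Fin n) K) * J (Fin n) K
        = J (Fin n) K * h * (J (Fin n) K * J (Fin n) K) := by noncomm_ring
    have e2 : J (Fin n) K * -(J (Fin n) K * hᵀ) * J (Fin n) K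
        = -((J (Fin n) K * J (Fin n) K) * hᵀ * J (Fin n) K) := by noncomm_ring
    rw [e1, e2, hJ2] at this
    have e3 : J (Fin n) K * h * (-1) = -(J (Fin n) K * h) := by noncomm_ring
    have e4 : -(-1 * hᵀ * J (Fin n) K) = hᵀ * J (Fin n) K := by noncomm_ring
    rw [e3, e4] at this
    rw [← this, neg_neg]
  have h2 : (h *ᵥ v) ⬝ᵥ (J (Fin n) K *ᵥ w) = -(v ⬝ᵥ (J (Fin n) K *ᵥ (h *ᵥ w))) := by
    rw [Matrix.mulVec_mulVec, hJ, Matrix.neg_mulVec, dotProduct_neg, neg_neg,
      ← Matrix.mulVec_mulVec, Matrix.dotProduct_mulVec v, Matrix.vecMul_transpose]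
  rw [hv, hw, Matrix.mulVec_smul, smul_dotProduct, dotProduct_smul, smul_eq_mul, smul_eq_mul] at h2
  have h3 : ((a + b : ℤ) : K) * (v ⬝ᵥ (J (Fin n) K *ᵥ w)) = 0 := by
    push_cast
    linear_combination h2
  rcases mul_eq_zero.1 h3 with h4 | h4
  · exact absurd (Int.cast_eq_zero.1 h4) hab
  · exact h4

/-- orthogonality of weight spaces for the symplectic form `⟨v, w⟩ = vᵀ J w` -/
theorem FF_orth {h : Mat n K} [CharZero K] (hh : h * J (Fin n) K + J (Fin n) K * hᵀ = 0)
    {a b : ℤ} (hab : 0 < a + b) {v w : Fin n ⊕ Fin n → K} (hv : v ∈ FF h a) (hw : w ∈ FF h b) :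
    v ⬝ᵥ (J (Fin n) K *ᵥ w) = 0 := by
  have key : ∀ c : ℤ, 0 < c + b → ∀ v ∈ wt h c, v ⬝ᵥ (J (Fin n) K *ᵥ w) = 0 := by
    intro c hc v hv
    have : FF h b ≤ LinearMap.ker ((dotProductBilin K K v).comp (Matrix.toLin' (J (Fin n) K))) := by
      refine iSup₂_le fun d hd x hx => ?_
      rw [LinearMap.mem_ker, LinearMap.comp_apply, Matrix.toLin'_apply]
      exact wt_orth hh (by omega) hv hx
    have h2 := this hw
    rw [LinearMap.mem_ker, LinearMap.comp_apply, Matrix.toLin'_apply] at h2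
    exact h2
  have : FF h a ≤ LinearMap.ker (dotProductBilin K K (J (Fin n) K *ᵥ w)) := by
    refine iSup₂_le fun d hd x hx => ?_
    rw [LinearMap.mem_ker]
    have := key d (by omega) x hx
    rw [dotProduct_comm] at this
    exact this
  have h2 := this hv
  rw [LinearMap.mem_ker] at h2
  rw [dotProduct_comm]
  exact h2

/-- `FF (1 - i)` is the orthogonal complement of `FF i` -/
theorem mem_FF_of_orth {e h f : Mat n K} [CharZero K] (t : Rel e h f)
    (hh : h * J (Fin n) K + J (Fin n) K * hᵀ = 0) {i : ℤ} {w : Fin n ⊕ Fin n → K}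
    (H : ∀ v ∈ FF h i, v ⬝ᵥ (J (Fin n) K *ᵥ w) = 0) : w ∈ FF h (1 - i) := by
  have hh' : (-h) * J (Fin n) K + J (Fin n) K * (-h)ᵀ = 0 := by
    have : (-h) * J (Fin n) K + J (Fin n) K * (-h)ᵀ
        = -(h * J (Fin n) K + J (Fin n) K * hᵀ) := by
      rw [Matrix.transpose_neg]; noncomm_ring
    rw [this, hh, neg_zero]
  have hneg : ∀ a : ℤ, GE (Matrix.toLin' h) a = FF (-h) (-a) := by
    intro a
    rw [FF_eq_FE, map_neg, FE_neg, neg_neg]
  have h1 : w ∈ FE (Matrix.toLin' h) (1 - i) ⊔ GE (Matrix.toLin' h) (-i) := by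
    rw [t.lin.FE_sup_GE (by omega)]; exact Submodule.mem_top
  obtain ⟨y1, hy1, y2, hy2, rfl⟩ := Submodule.mem_sup.1 h1
  rw [hneg] at hy2
  have hz : ∀ z : Fin n ⊕ Fin n → K, z ⬝ᵥ (J (Fin n) K *ᵥ y2) = 0 := by
    intro z
    have h2 : z ∈ FE (Matrix.toLin' h) i ⊔ GE (Matrix.toLin' h) (i - 1) := by
      rw [t.lin.FE_sup_GE (by omega)]; exact Submodule.mem_top
    obtain ⟨z1, hz1, z2, hz2, rfl⟩ := Submodule.mem_sup.1 h2
    rw [hneg] at hz2
    have h3 : z2 ⬝ᵥ (J (Fin n) K *ᵥ y2) = 0 := FF_orth hh' (by omega) hz2 hy2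
    have h4 : z1 ⬝ᵥ (J (Fin n) K *ᵥ y1) = 0 := FF_orth hh (by omega) hz1 hy1
    have h5 := H z1 hz1
    rw [Matrix.mulVec_add, dotProduct_add, h4, zero_add] at h5
    rw [add_dotProduct, h3, h5, add_zero]
  have hy2z : y2 = 0 := by
    have h6 : J (Fin n) K *ᵥ y2 = 0 := by
      exact dotProduct_eq_zero_iff.1 (fun z => by rw [dotProduct_comm]; exact hz z)
    have h7 : J (Fin n) K *ᵥ (J (Fin n) K *ᵥ y2) = -y2 := by
      rw [Matrix.mulVec_mulVec, J_squared, Matrix.neg_mulVec, Matrix.one_mulVec]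
    rw [h6, Matrix.mulVec_zero] at h7
    exact neg_eq_zero.1 h7.symm
  rw [hy2z, add_zero]
  exact hy1

/-- `Z_{x,y} z = ⟨z,y⟩ x + ⟨z,x⟩ y` -/
def ZZ (x y : Fin n ⊕ Fin n → K) : Mat n K :=
  vecMulVec x (J (Fin n) K *ᵥ y) + vecMulVec y (J (Fin n) K *ᵥ x)

theorem ZZ_mulVec (x y z : Fin n ⊕ Fin n → K) :
    ZZ x y *ᵥ z = (z ⬝ᵥ (J (Fin n) K *ᵥ y)) • x + (z ⬝ᵥ (J (Fin n) K *ᵥ x)) • y := by
  rw [ZZ, Matrix.add_mulVec, Matrix.vecMulVec_mulVec, Matrix.vecMulVec_mulVec]
  rw [op_smul_eq_smul, op_smul_eq_smul, dotProduct_comm _ z, dotProduct_comm _ z]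

theorem ZZ_sp (x y : Fin n ⊕ Fin n → K) :
    ZZ x y * J (Fin n) K + J (Fin n) K * (ZZ x y)ᵀ = 0 := by
  have hJt : (J (Fin n) K)ᵀ = -J (Fin n) K := J_transpose (Fin n) K
  have hJ2 : J (Fin n) K * J (Fin n) K = -1 := J_squared (Fin n) K
  have h1 : ∀ a b : Fin n ⊕ Fin n → K,
      vecMulVec a (J (Fin n) K *ᵥ b) = vecMulVec a b * -J (Fin n) K := by
    intro a b
    rw [Matrix.vecMulVec_mul, ← hJt, Matrix.vecMul_transpose]
  have h2 : ∀ a b : Fin n ⊕ Fin n → K, (vecMulVec a b)ᵀ = vecMulVec b a := by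
    intro a b
    exact Matrix.transpose_vecMulVec a b
  rw [ZZ, h1, h1, Matrix.transpose_add, Matrix.transpose_mul, Matrix.transpose_mul, h2, h2,
    Matrix.transpose_neg, hJt, neg_neg]
  have e1 : (vecMulVec x y * -J (Fin n) K + vecMulVec y x * -J (Fin n) K) * J (Fin n) K
      = -(vecMulVec x y + vecMulVec y x) * (J (Fin n) K * J (Fin n) K) := by noncomm_ring
  have e2 : J (Fin n) K * (J (Fin n) K * vecMulVec y x + J (Fin n) K * vecMulVec x y)
      = (J (Fin n) K * J (Fin n) K) * (vecMulVec x y + vecMulVec y x) := by noncomm_ring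
  rw [e1, e2, hJ2]
  noncomm_ring

theorem ZZ_comm (x y : Fin n ⊕ Fin n → K) : ZZ x y = ZZ y x := add_comm _ _

theorem ZZ_add_right (x y z : Fin n ⊕ Fin n → K) : ZZ x (y + z) = ZZ x y + ZZ x z := by
  rw [ZZ, ZZ, ZZ, Matrix.mulVec_add, Matrix.vecMulVec_add, Matrix.add_vecMulVec]
  abel

theorem ZZ_smul_right (c : K) (x y : Fin n ⊕ Fin n → K) : ZZ x (c • y) = c • ZZ x y := by
  rw [ZZ, ZZ, Matrix.mulVec_smul, Matrix.vecMulVec_smul, Matrix.smul_vecMulVec, smul_add]

theorem J_mul_sp {h : Mat n K} (hh : h * J (Fin n) K + J (Fin n) K * hᵀ = 0) :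
    J (Fin n) K * h = -(hᵀ * J (Fin n) K) := by
  have hJ2 : J (Fin n) K * J (Fin n) K = -1 := J_squared (Fin n) K
  have h1 : h * J (Fin n) K = -(J (Fin n) K * hᵀ) := eq_neg_of_add_eq_zero_left hh
  have := congrArg (fun Z => J (Fin n) K * Z * J (Fin n) K) h1
  have e1 : J (Fin n) K * (h * J (Fin n) K) * J (Fin n) K
      = J (Fin n) K * h * (J (Fin n) K * J (Fin n) K) := by noncomm_ring
  have e2 : J (Fin n) K * -(J (Fin n) K * hᵀ) * J (Fin n) K
      = -((J (Fin n) K * J (Fin n) K) * hᵀ * J (Fin n) K) := by noncomm_ring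
  rw [e1, e2, hJ2] at this
  have e3 : J (Fin n) K * h * (-1) = -(J (Fin n) K * h) := by noncomm_ring
  have e4 : -(-1 * hᵀ * J (Fin n) K) = hᵀ * J (Fin n) K := by noncomm_ring
  rw [e3, e4] at this
  rw [← this, neg_neg]

/-- elements of `sp` are skew for the form -/
theorem sp_skew {Y : Mat n K} (hY : Y * J (Fin n) K + J (Fin n) K * Yᵀ = 0)
    (x y : Fin n ⊕ Fin n → K) :
    (Y *ᵥ x) ⬝ᵥ (J (Fin n) K *ᵥ y) = -(x ⬝ᵥ (J (Fin n) K *ᵥ (Y *ᵥ y))) := by
  rw [Matrix.mulVec_mulVec, J_mul_sp hY, Matrix.neg_mulVec, dotProduct_neg, neg_neg,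
    ← Matrix.mulVec_mulVec, Matrix.dotProduct_mulVec x, Matrix.vecMul_transpose]

/-- the form is alternating -/
theorem form_swap (x y : Fin n ⊕ Fin n → K) :
    x ⬝ᵥ (J (Fin n) K *ᵥ y) = -(y ⬝ᵥ (J (Fin n) K *ᵥ x)) := by
  have hJt : (J (Fin n) K)ᵀ = -J (Fin n) K := J_transpose (Fin n) K
  rw [Matrix.dotProduct_mulVec, ← Matrix.mulVec_transpose, hJt, Matrix.neg_mulVec,
    neg_dotProduct, dotProduct_comm]

theorem ZZ_wt {h : Mat n K} (hh : h * J (Fin n) K + J (Fin n) K * hᵀ = 0)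
    {a b : ℤ} {x y : Fin n ⊕ Fin n → K} (hx : x ∈ wt h a) (hy : y ∈ wt h b) :
    h * ZZ x y - ZZ x y * h = ((a + b : ℤ) : K) • ZZ x y := by
  rw [mem_wt] at hx hy
  have key : ∀ (a b : ℤ) (x y : Fin n ⊕ Fin n → K), h *ᵥ x = (a : K) • x → h *ᵥ y = (b : K) • y →
      h * vecMulVec x (J (Fin n) K *ᵥ y) - vecMulVec x (J (Fin n) K *ᵥ y) * h
        = ((a + b : ℤ) : K) • vecMulVec x (J (Fin n) K *ᵥ y) := by
    intro a b x y hx hy
    rw [Matrix.mul_vecMulVec, hx, Matrix.vecMulVec_mul, Matrix.smul_vecMulVec]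
    have h1 : (J (Fin n) K *ᵥ y) ᵥ* h = -((b : K) • (J (Fin n) K *ᵥ y)) := by
      rw [← Matrix.mulVec_transpose, Matrix.mulVec_mulVec]
      have h2 : hᵀ * J (Fin n) K = -(J (Fin n) K * h) := by rw [J_mul_sp hh, neg_neg]
      rw [h2, Matrix.neg_mulVec, ← Matrix.mulVec_mulVec, hy, Matrix.mulVec_smul]
    rw [h1, Matrix.vecMulVec_neg, Matrix.vecMulVec_smul]
    push_cast
    module
  have k1 := key a b x y hx hy
  have k2 := key b a y x hy hx
  rw [add_comm b a] at k2
  rw [ZZ, smul_add, ← k1, ← k2]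
  noncomm_ring

theorem ZZ_mem_adGE {h : Mat n K} (hh : h * J (Fin n) K + J (Fin n) K * hᵀ = 0)
    {a b : ℤ} {x y : Fin n ⊕ Fin n → K} (hx : x ∈ FF h a) (hy : y ∈ FF h b) :
    ZZ x y ∈ adGE h (a + b) := by
  have step1 : ∀ (a b : ℤ) (x y : Fin n ⊕ Fin n → K), x ∈ wt h a → y ∈ FF h b →
      ZZ x y ∈ adGE h (a + b) := by
    intro a b x y hx hy
    let S : Submodule K (Fin n ⊕ Fin n → K) :=
      { carrier := {y | ZZ x y ∈ adGE h (a + b)}
        add_mem' := fun {u v} hu hv => by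
          show ZZ x (u + v) ∈ adGE h (a + b)
          rw [ZZ_add_right]; exact Submodule.add_mem _ hu hv
        zero_mem' := by
          show ZZ x 0 ∈ adGE h (a + b)
          have : (0 : Fin n ⊕ Fin n → K) = (0 : K) • (0 : Fin n ⊕ Fin n → K) := by simp
          rw [this, ZZ_smul_right, zero_smul]; exact Submodule.zero_mem _
        smul_mem' := fun c u hu => by
          show ZZ x (c • u) ∈ adGE h (a + b)
          rw [ZZ_smul_right]; exact Submodule.smul_mem _ _ hu }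
    have : FF h b ≤ S := by
      refine iSup₂_le fun d hd u hu => ?_
      exact Submodule.subset_span ⟨a + d, by omega, ZZ_wt hh hx hu⟩
    exact this hy
  let S : Submodule K (Fin n ⊕ Fin n → K) :=
    { carrier := {x | ZZ y x ∈ adGE h (a + b)}
      add_mem' := fun {u v} hu hv => by
        show ZZ y (u + v) ∈ adGE h (a + b)
        rw [ZZ_add_right]; exact Submodule.add_mem _ hu hv
      zero_mem' := by
        show ZZ y 0 ∈ adGE h (a + b)
        have : (0 : Fin n ⊕ Fin n → K) = (0 : K) • (0 : Fin n ⊕ Fin n → K) := by simp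
        rw [this, ZZ_smul_right, zero_smul]; exact Submodule.zero_mem _
      smul_mem' := fun c u hu => by
        show ZZ y (c • u) ∈ adGE h (a + b)
        rw [ZZ_smul_right]; exact Submodule.smul_mem _ _ hu }
  have : FF h a ≤ S := by
    refine iSup₂_le fun d hd u hu => ?_
    show ZZ y u ∈ adGE h (a + b)
    rw [ZZ_comm]
    exact adGE_mono (by omega) (step1 d b u y hu hy)
  have h2 : ZZ y x ∈ adGE h (a + b) := this hx
  rwa [ZZ_comm] at h2

/-- `tr (Y Z_{x,y}) = 2 ⟨Y x, y⟩` up to sign, for `Y ∈ sp`. -/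
theorem trace_mul_ZZ {Y : Mat n K} (hY : Y * J (Fin n) K + J (Fin n) K * Yᵀ = 0)
    (x y : Fin n ⊕ Fin n → K) :
    Matrix.trace (Y * ZZ x y) = 2 * ((Y *ᵥ x) ⬝ᵥ (J (Fin n) K *ᵥ y)) := by
  have h1 : ∀ a b : Fin n ⊕ Fin n → K, Matrix.trace (Y * vecMulVec a (J (Fin n) K *ᵥ b))
      = (Y *ᵥ a) ⬝ᵥ (J (Fin n) K *ᵥ b) := by
    intro a b
    rw [Matrix.mul_vecMulVec, Matrix.trace_vecMulVec]
  rw [ZZ, mul_add, Matrix.trace_add, h1, h1, sp_skew hY y x, form_swap y, neg_neg]
  ring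

/-- conjugation -/
theorem adGE_conj {R : Type*} [CommRing R] {h X : Mat n R} {g g' : Mat n R} (hg : g * g' = 1)
    (hg' : g' * g = 1) {i : ℤ} (hX : X ∈ adGE h i) : g * X * g' ∈ adGE (g * h * g') i := by
  induction hX using Submodule.span_induction with
  | mem X hX =>
    obtain ⟨j, hj, hX⟩ := hX
    refine Submodule.subset_span ⟨j, hj, ?_⟩
    calc g * h * g' * (g * X * g') - g * X * g' * (g * h * g')
        = g * h * (g' * g) * X * g' - g * X * (g' * g) * h * g' := by noncomm_ring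
      _ = g * (h * X - X * h) * g' := by rw [hg']; noncomm_ring
      _ = (j : R) • (g * X * g') := by
        rw [hX, Matrix.mul_smul, Matrix.smul_mul]
  | zero => simp
  | add X Y _ _ hX hY =>
    have : g * (X + Y) * g' = g * X * g' + g * Y * g' := by noncomm_ring
    rw [this]; exact Submodule.add_mem _ hX hY
  | smul c X _ hX =>
    have : g * (c • X) * g' = c • (g * X * g') := by rw [Matrix.mul_smul, Matrix.smul_mul]
    rw [this]; exact Submodule.smul_mem _ _ hX

end Symp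

end Pool.Agent.FC.Sl2
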