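import Pool.Agent.FC.Base
import Pool.Agent.FC.Sl2

/-!
fc_h91.md (2a): elementary sl2-theory.  `h` is diagonalisable with integer eigenvalues, symmetric under i -> -i,
f^k : E_i -> E_{i-2k} is injective for k <= i and surjective for i <= k, so rank f^k = sum_i min(dim E_i, dim E_{i-2k});
for type [8,4]: N7 = 1 gives d7 = 1, N6 = 2 gives d6 = 0, N5 = 3 gives d5 = 1, N4 = 4 gives d4 = 0, N3 = 6 gives d3 = 2.
-/

open RestrictedProduct Matrix MeasureTheory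

noncomputable section

namespace Pool.Agent.FC

variable {n : ℕ} {K : Type*} [Field K]

theorem IsTriple.rel {e h f : Mat n K} (H : IsTriple e h f) : Sl2.Rel e h f := ⟨H.he, H.hf, H.ef⟩

theorem mem_Ewt {h : Mat n K} {i : ℤ} {v : Fin n ⊕ Fin n → K} :
    v ∈ Ewt h i ↔ h *ᵥ v = (i : K) • v := Iff.rfl

theorem Ewt_eq (h : Mat n K) (i : ℤ) : Ewt h i = Sl2.wt h i :=
  Submodule.ext fun _ => mem_Ewt.trans Sl2.mem_wt.symm

theorem Fil_eq (h : Mat n K) (i : ℤ) : Fil h i = Sl2.FF h i := by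
  rw [Fil, Sl2.FF, iSup_subtype]
  simp only [Ewt_eq]

theorem Ewt_le_Fil {h : Mat n K} {i j : ℤ} (hij : i ≤ j) : Ewt h j ≤ Fil h i := by
  rw [Ewt_eq, Fil_eq]; exact Sl2.wt_le_FF hij

theorem Fil_mono {h : Mat n K} {i j : ℤ} (hij : i ≤ j) : Fil h j ≤ Fil h i := by
  rw [Fil_eq, Fil_eq]; exact Sl2.FF_mono hij

theorem Zmat_eq (x y : Fin n ⊕ Fin n → K) : Zmat x y = Sl2.ZZ x y := rfl

/-- `Z_{x,y}` has degree at least `a + b`. -/
theorem Zmat_mem_adGE [CharZero K] {h : Mat n K} (hh : h * J (Fin n) K + J (Fin n) K * hᵀ = 0)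
    {a b : ℤ} {x y : Fin n ⊕ Fin n → K} (hx : x ∈ Fil h a) (hy : y ∈ Fil h b) :
    Zmat x y ∈ adGE h (a + b) := by
  rw [Fil_eq] at hx hy
  exact Sl2.ZZ_mem_adGE hh hx hy

/-- matrices of degree `≥ i` map `F_j` to `F_{i+j}` -/
theorem adGE_mulVec_Fil {h X : Mat n K} {i j : ℤ} (hX : X ∈ adGE h i) {v : Fin n ⊕ Fin n → K}
    (hv : v ∈ Fil h j) : X *ᵥ v ∈ Fil h (i + j) := by
  rw [Fil_eq] at hv ⊢
  exact Sl2.adGE_mulVec hX hv

theorem f_mem_Fil {e h f : Mat n K} (H : IsTriple e h f) {i : ℤ} {v : Fin n ⊕ Fin n → K}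
    (hv : v ∈ Fil h i) : f *ᵥ v ∈ Fil h (i - 2) := by
  rw [Fil_eq] at hv ⊢
  exact Sl2.f_mem_FF H.rel hv

variable [CharZero K]

theorem Ewt_span {e h f : Mat n K} (H : IsTriple e h f) : ⨆ j : ℤ, Ewt h j = ⊤ := by
  simp only [Ewt_eq]
  exact Sl2.iSup_wt H.rel

/-- `F_i^⊥ = F_{1-i}` -/
theorem Fil_perp {e h f : Mat n K} (H : IsTriple e h f) (i : ℤ) (v : Fin n ⊕ Fin n → K) :
    (∀ w ∈ Fil h i, symp w v = 0) ↔ v ∈ Fil h (1 - i) := by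
  rw [Fil_eq, Fil_eq]
  constructor
  · intro H1
    exact Sl2.mem_FF_of_orth H.rel H.h_mem H1
  · intro hv w hw
    exact Sl2.FF_orth H.h_mem (by omega) hw hv

theorem sl2_big {e h f : Mat n K} (H : IsTriple e h f) (hf : f ^ 9 ≠ 0) :
    ∃ m : ℤ, 9 ≤ m ∧ (∃ w ∈ Ewt h m, w ≠ 0) ∧ ∀ j, m < j → Ewt h j = ⊥ := by
  obtain ⟨M, hM, hbot, hne⟩ := Sl2.exists_top_weight H.rel hf
  refine ⟨M, by exact_mod_cast hM, ?_, ?_⟩
  · rw [Ewt_eq]
    obtain ⟨w, hw, hw0⟩ := Submodule.exists_mem_ne_zero_of_ne_bot hne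
    exact ⟨w, hw, hw0⟩
  · intro j hj
    rw [Ewt_eq, eq_bot_iff, ← hbot]
    exact Sl2.wt_le_FF (by omega)

theorem sl2_84 {e h f : Mat 6 K} (H : IsTriple e h f) (h1 : f.rank = 10) (h2 : (f ^ 2).rank = 8)
    (h3 : (f ^ 3).rank = 6) (h4 : (f ^ 4).rank = 4) (h5 : (f ^ 5).rank = 3)
    (h6 : (f ^ 6).rank = 2) (h7 : (f ^ 7).rank = 1) (h8 : f ^ 8 = 0) :
    (∃ w ∈ Ewt h 7, w ≠ 0) ∧ (∀ j, 7 < j → Ewt h j = ⊥) ∧ 4 ≤ Module.finrank K (Fil h 3) := by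
  have r3 : 6 = Module.finrank K (Sl2.FF h 3) + Module.finrank K (Sl2.FF h 4) :=
    h3.symm.trans (Sl2.rank_pow H.rel 3)
  have r4 : 4 = Module.finrank K (Sl2.FF h 4) + Module.finrank K (Sl2.FF h 5) :=
    h4.symm.trans (Sl2.rank_pow H.rel 4)
  have r5 : 3 = Module.finrank K (Sl2.FF h 5) + Module.finrank K (Sl2.FF h 6) :=
    h5.symm.trans (Sl2.rank_pow H.rel 5)
  have r6 : 2 = Module.finrank K (Sl2.FF h 6) + Module.finrank K (Sl2.FF h 7) :=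
    h6.symm.trans (Sl2.rank_pow H.rel 6)
  have r7 : 1 = Module.finrank K (Sl2.FF h 7) + Module.finrank K (Sl2.FF h 8) :=
    h7.symm.trans (Sl2.rank_pow H.rel 7)
  have b8 : Sl2.FF h 8 = ⊥ := (Sl2.FF_eq_bot_iff H.rel 8).2 h8
  have f8 : Module.finrank K (Sl2.FF h 8) = 0 := by rw [b8, finrank_bot]
  have f7 : Module.finrank K (Sl2.FF h 7) = 1 := by omega
  refine ⟨?_, ?_, ?_⟩
  · rw [Ewt_eq]
    have hne : Sl2.wt h 7 ≠ ⊥ := by
      intro hb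
      have := Sl2.FF_eq_sup h 7
      rw [hb, bot_sup_eq] at this
      norm_num at this
      rw [this, b8, finrank_bot] at f7
      exact absurd f7 (by norm_num)
    obtain ⟨w, hw, hw0⟩ := Submodule.exists_mem_ne_zero_of_ne_bot hne
    exact ⟨w, hw, hw0⟩
  · intro j hj
    rw [Ewt_eq, eq_bot_iff, ← b8]
    exact Sl2.wt_le_FF (by omega)
  · rw [Fil_eq]; omega

end Pool.Agent.FC
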