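import Pool.Agent.FC.Base
import Pool.Agent.FC.LocY
import Pool.Agent.FC.SL2

/-!
fc_h91.md (2b), (2c), (2d).  From `LocY.exists_Y` (Cayley transform and duality) and the
`Z_{x,y}` argument.
-/

open RestrictedProduct Matrix MeasureTheory

noncomputable section

namespace Pool.Agent.FC

/-- (2b)-(2d). -/
theorem exists_near {e h f : Mat 6 ℚ_[(p3 : ℕ)]} (H : IsTriple e h f)
    (θ : AddChar ℚ_[(p3 : ℕ)] Circle) (hθ : ∀ x, θ x = 1 ↔ ‖x‖ ≤ 1)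
    (hyp : ∀ j : Matrix.symplecticGroup (Fin 6) ℚ_[(p3 : ℕ)], (j : Mat 6 ℚ_[(p3 : ℕ)]) - 1 ∈ Aord →
      (j : Mat 6 ℚ_[(p3 : ℕ)]) - 1 ∈ adGE h 2 →
      θ (Matrix.trace (X3 * ((j : Mat 6 ℚ_[(p3 : ℕ)]) - 1)))
        = θ (Matrix.trace (f * ((j : Mat 6 ℚ_[(p3 : ℕ)]) - 1)))) :
    ∃ Y : Mat 6 ℚ_[(p3 : ℕ)], NearX Y ∧ ∀ i : ℤ, ∀ x ∈ Fil h i, Y *ᵥ x ∈ Fil h (i - 2) := by
  obtain ⟨Y, hYsp, hnear, htr⟩ := LocY.exists_Y hθ H.hf hyp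
  refine ⟨Y, hnear, fun i x hx => ?_⟩
  have hsum : i - 2 = 1 - (3 - i) := by ring
  rw [hsum, ← Fil_perp H]
  intro w hw
  -- `Z = Z_{x,w}` has degree `≥ 3`
  have hZ : Zmat x w ∈ adGE h 2 := by
    have h3 := Zmat_mem_adGE H.h_mem hx hw
    exact adGE_mono (by omega) h3
  have hZsp : Zmat x w * J (Fin 6) _ + J (Fin 6) _ * (Zmat x w)ᵀ = 0 := by
    rw [Zmat_eq]
    exact Sl2.ZZ_sp x w
  have h0 := htr _ hZsp hZ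
  rw [sub_mul, trace_sub, Zmat_eq, Sl2.trace_mul_ZZ H.f_mem, Sl2.trace_mul_ZZ hYsp] at h0
  have hf0 : symp w (f *ᵥ x) = 0 := by
    have hfx : f *ᵥ x ∈ Fil h (1 - (3 - i)) := by
      rw [← hsum]
      exact f_mem_Fil H hx
    exact (Fil_perp H (3 - i) (f *ᵥ x)).2 hfx w hw
  rw [Sl2.form_swap (f *ᵥ x) w, Sl2.form_swap (Y *ᵥ x) w] at h0
  rw [symp] at hf0
  rw [hf0] at h0
  have h2 : (2 : ℚ_[(p3 : ℕ)]) ≠ 0 := two_ne_zero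
  have h3 : (2 : ℚ_[(p3 : ℕ)]) * symp w (Y *ᵥ x) = 0 := by
    rw [symp]
    linear_combination h0
  exact (mul_eq_zero.1 h3).resolve_left h2

end Pool.Agent.FC
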