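import Pool.Agent.FC.Base
import Pool.Agent.FC.Fin4

/-!
Finite check (K3), in the notation of `FC.Base`.
-/

open RestrictedProduct Matrix MeasureTheory

noncomputable section

namespace Pool.Agent.FC

theorem K3 (b : Bool) (t : Fin 6 → ZMod 3) (ht : t ≠ 0)
    (h1 : t ⬝ᵥ chn (Sof b) (Sof !b) t 1 = 0) (h3 : t ⬝ᵥ chn (Sof b) (Sof !b) t 3 = 0)
    (h5 : t ⬝ᵥ chn (Sof b) (Sof !b) t 5 = 0) (s : Fin 6 → ZMod 3) :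
    ((∀ k, k = 1 ∨ k = 3 ∨ k = 5 ∨ k = 7 → s ⬝ᵥ chn (Sof b) (Sof !b) t k = 0) →
      s ⬝ᵥ (Sof b *ᵥ s) = 0 → s = 0) ∧
    ((∀ k, k = 0 ∨ k = 2 ∨ k = 4 ∨ k = 6 → s ⬝ᵥ chn (Sof b) (Sof !b) t k = 0) →
      s ⬝ᵥ (Sof (!b) *ᵥ s) = 0 → s = 0) := by
  simp only [Fin4.chn_eq] at h1 h3 h5 ⊢
  refine ⟨fun h hs => ?_, fun h hs => ?_⟩
  · exact Chk.K3a (Fin4.ord b) t s ht h1 h3 h5 (h 1 (by simp)) (h 3 (by simp)) (h 5 (by simp))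
      (h 7 (by simp)) hs
  · exact Chk.K3b (Fin4.ord b) t s ht h1 h3 h5 (h 0 (by simp)) (h 2 (by simp)) (h 4 (by simp))
      (h 6 (by simp)) hs

end Pool.Agent.FC
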