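import Mathlib

set_option linter.all false

namespace Pool.Agent.FC

open Filter Topology MeasureTheory Pointwise

variable {G : Type*} [Group G] [TopologicalSpace G] [IsTopologicalGroup G]

theorem exists_small_open (Γ : Subgroup G) [DiscreteTopology Γ] :
    ∃ U : Set G, IsOpen U ∧ (1 : G) ∈ U ∧
      ∀ a ∈ U, ∀ b ∈ U, a⁻¹ * b ∈ Γ → a = b := by
  have h1 : IsOpen ({1} : Set Γ) := isOpen_discrete _
  obtain ⟨V, hV, hV1⟩ := isOpen_induced_iff.mp h1
  have h1V : (1 : G) ∈ V := by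
    have : (1 : Γ) ∈ Subtype.val ⁻¹' V := by rw [hV1]; rfl
    exact this
  have hc : Continuous (fun p : G × G => p.1⁻¹ * p.2) := by fun_prop
  have hn : (fun p : G × G => p.1⁻¹ * p.2) ⁻¹' V ∈ 𝓝 ((1 : G), (1 : G)) := by
    refine hc.continuousAt.preimage_mem_nhds (hV.mem_nhds ?_)
    simpa using h1V
  rw [nhds_prod_eq, Filter.mem_prod_same_iff] at hn
  obtain ⟨W, hW, hWV⟩ := hn
  obtain ⟨U, hUW, hU, hU1⟩ := mem_nhds_iff.mp hW
  refine ⟨U, hU, hU1, fun a ha b hb hab => ?_⟩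
  have h3 : a⁻¹ * b ∈ V := hWV (Set.mk_mem_prod (hUW ha) (hUW hb))
  have h4 : (⟨a⁻¹ * b, hab⟩ : Γ) ∈ Subtype.val ⁻¹' V := h3
  rw [hV1] at h4
  have h5 : a⁻¹ * b = 1 := congrArg Subtype.val h4
  exact (inv_mul_eq_one.mp h5)

theorem exists_fundDom [SecondCountableTopology G] [MeasurableSpace G] [BorelSpace G]
    (Γ : Subgroup G) [DiscreteTopology Γ] [Countable Γ] :
    ∃ F : Set G, MeasurableSet F ∧ ∀ x : G, ∃! γ : Γ, x * γ ∈ F := by
  classical
  obtain ⟨U, hU, hU1, hUΓ⟩ := exists_small_open Γ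
  obtain ⟨s, hs, hcov⟩ := TopologicalSpace.countable_cover_nhds
    (f := fun x : G => x • U) (fun x => (hU.smul x).mem_nhds ⟨1, hU1, by simp⟩)
  have hsne : s.Nonempty := by
    by_contra hne
    rw [Set.not_nonempty_iff_eq_empty] at hne
    rw [hne] at hcov
    simp only [Set.mem_empty_iff_false, Set.iUnion_of_empty, Set.iUnion_empty] at hcov
    exact Set.empty_ne_univ hcov
  obtain ⟨x, hx⟩ := hs.exists_eq_range hsne
  have hcov2 : ∀ y : G, ∃ n : ℕ, y ∈ x n • U := by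
    intro y
    have : y ∈ ⋃ z ∈ s, z • U := by rw [hcov]; trivial
    rw [hx] at this
    simp only [Set.mem_range, Set.iUnion_exists, Set.iUnion_iUnion_eq', Set.mem_iUnion] at this
    exact this
  let B : ℕ → Set G := fun n => {y | ∃ γ : Γ, y * γ ∈ x n • U}
  have hB : ∀ n, IsOpen (B n) := by
    intro n
    have : B n = ⋃ γ : Γ, (fun y => y * (γ : G)) ⁻¹' (x n • U) := by
      ext y; simp [B]
    rw [this]
    exact isOpen_iUnion fun γ => (hU.smul _).preimage (continuous_mul_const _)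
  let F : Set G := ⋃ n, (x n • U) \ ⋃ m ∈ Finset.range n, B m
  have hF : MeasurableSet F := by
    refine MeasurableSet.iUnion fun n => ((hU.smul _).measurableSet).diff ?_
    exact Finset.measurableSet_biUnion _ fun m _ => (hB m).measurableSet
  have hBinv : ∀ n (y : G) (γ : Γ), y * γ ∈ B n → y ∈ B n := by
    rintro n y γ ⟨δ, hδ⟩
    refine ⟨γ * δ, ?_⟩
    rw [Subgroup.coe_mul, ← mul_assoc]
    exact hδ
  have hBinv' : ∀ n (y : G) (γ : Γ), y ∈ B n → y * γ ∈ B n := by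
    intro n y γ h
    refine hBinv n (y * γ) γ⁻¹ ?_
    rw [mul_assoc]
    simpa using h
  refine ⟨F, hF, fun y => ?_⟩
  have hy : ∃ n, y ∈ B n := by
    obtain ⟨n, hn⟩ := hcov2 y
    exact ⟨n, 1, by simpa using hn⟩
  have hfind := Nat.find_spec hy
  obtain ⟨γ, hγ⟩ := hfind
  have hmem : ∀ δ : Γ, y * δ ∈ F → y * δ ∈ x (Nat.find hy) • U := by
    intro δ hδ
    obtain ⟨n, hn⟩ := Set.mem_iUnion.mp hδ
    have h1 : y ∈ B n := ⟨δ, hn.1⟩
    have h2 : Nat.find hy ≤ n := Nat.find_min' hy h1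
    rcases h2.eq_or_lt with h3 | h3
    · rw [h3]; exact hn.1
    · exfalso
      apply hn.2
      simp only [Set.mem_iUnion, Finset.mem_range, exists_prop]
      exact ⟨_, h3, hBinv' _ y δ (Nat.find_spec hy)⟩
  refine ⟨γ, ?_, ?_⟩
  · change y * γ ∈ F
    refine Set.mem_iUnion.mpr ⟨Nat.find hy, hγ, ?_⟩
    simp only [Set.mem_iUnion, Finset.mem_range, exists_prop, not_exists, not_and]
    intro m hm hmB
    exact Nat.find_min hy hm (hBinv m y γ hmB)
  · intro δ hδ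
    have h1 := hmem δ hδ
    obtain ⟨a, ha, ha2⟩ := h1
    obtain ⟨b, hb, hb2⟩ := hγ
    have h3 : a⁻¹ * b = (δ : G)⁻¹ * γ := by
      simp only [smul_eq_mul] at ha2 hb2
      have ha3 : a = (x (Nat.find hy))⁻¹ * (y * δ) := by rw [← ha2]; group
      have hb3 : b = (x (Nat.find hy))⁻¹ * (y * γ) := by rw [← hb2]; group
      rw [ha3, hb3]; group
    have h4 : a = b := hUΓ a ha b hb (by rw [h3]; exact Γ.mul_mem (Γ.inv_mem δ.2) γ.2)
    have h5 : (δ : G)⁻¹ * γ = 1 := by rw [← h3, h4]; simp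
    exact Subtype.ext (inv_mul_eq_one.mp h5)

theorem exists_isFundDom [SecondCountableTopology G] [MeasurableSpace G] [BorelSpace G]
    (Γ : Subgroup G) [DiscreteTopology Γ] [Countable Γ] (μ : Measure G) :
    ∃ F : Set G, MeasurableSet F ∧ IsFundamentalDomain Γ.op F μ := by
  obtain ⟨F, hF, h⟩ := exists_fundDom Γ
  refine ⟨F, hF, IsFundamentalDomain.mk' hF.nullMeasurableSet fun y => ?_⟩
  obtain ⟨γ, hγ, huniq⟩ := h y
  refine ⟨⟨MulOpposite.op (γ : G), γ.2⟩, ?_, ?_⟩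
  · exact hγ
  · rintro ⟨δ, hδ⟩ hδF
    have h2 := huniq ⟨δ.unop, hδ⟩ hδF
    apply Subtype.ext
    apply MulOpposite.unop_injective
    exact congrArg Subtype.val h2

end Pool.Agent.FC
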