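import Mathlib

/-!
Abstract Hilbert space block of project FC (MP_9a256f_nt).

`ρ` is a family of bounded operators stable under adjoints, `T` a compact self-adjoint operator
which preserves every closed `ρ`-invariant subspace. If `u`, `v` are vectors with inner product `⟪u, v⟫ ≠ 0` and
`v` orthogonal to the kernel of `T`, then there is an irreducible closed invariant subspace `W`
and an eigenvector `φ` of `T` in `W`, with nonzero eigenvalue, such that `(inner ℂ u φ) ≠ 0` and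
`(inner ℂ v φ) ≠ 0`.
-/

namespace Pool.Agent.FC.Hilb

open Module End

variable {E : Type*} [NormedAddCommGroup E] [InnerProductSpace ℂ E]

/-- closed subspaces stable under a family of operators -/
def Inv {G : Type*} (ρ : G → E →L[ℂ] E) (W : Submodule ℂ E) : Prop :=
  IsClosed (W : Set E) ∧ ∀ g, ∀ x ∈ W, ρ g x ∈ W

/-- irreducible closed invariant subspaces -/
def Irr {G : Type*} (ρ : G → E →L[ℂ] E) (W : Submodule ℂ E) : Prop :=
  Inv ρ W ∧ W ≠ ⊥ ∧ ∀ V : Submodule ℂ E, V ≤ W → Inv ρ V → V = ⊥ ∨ V = W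

/-- `P` is the orthogonal projection to `W` -/
def IsPr (P : E →L[ℂ] E) (W : Submodule ℂ E) : Prop :=
  (∀ x, P x ∈ W) ∧ ∀ x, ∀ y ∈ W, (inner ℂ y (x - P x)) = 0

theorem exists_pr [CompleteSpace E] (W : Submodule ℂ E) (hW : IsClosed (W : Set E)) :
    ∃ P : E →L[ℂ] E, IsPr P W := by
  have : CompleteSpace W := hW.completeSpace_coe
  refine ⟨W.starProjection, fun x => Submodule.starProjection_apply_mem W x, fun x y hy => ?_⟩
  exact Submodule.inner_right_of_mem_orthogonal hy (Submodule.sub_starProjection_mem_orthogonal x)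

theorem IsPr.uniq {P : E →L[ℂ] E} {W : Submodule ℂ E} (hP : IsPr P W) {x z : E} (hz : z ∈ W)
    (h : ∀ y ∈ W, (inner ℂ y (x - z)) = 0) : P x = z := by
  have h1 : P x - z ∈ W := W.sub_mem (hP.1 x) hz
  have h2 : (inner ℂ (P x - z) (P x - z)) = 0 := by
    have e : P x - z = (x - z) - (x - P x) := by abel
    nth_rewrite 2 [e]
    rw [inner_sub_right, h _ h1, hP.2 x _ h1, sub_zero]
  exact sub_eq_zero.1 (inner_self_eq_zero.1 h2)

theorem IsPr.eq_self {P : E →L[ℂ] E} {W : Submodule ℂ E} (hP : IsPr P W) {x : E} (hx : x ∈ W) :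
    P x = x :=
  hP.uniq hx fun y _ => by rw [sub_self, inner_zero_right]

theorem IsPr.left {P : E →L[ℂ] E} {W : Submodule ℂ E} (hP : IsPr P W) (x : E) {y : E}
    (hy : y ∈ W) : (inner ℂ (x - P x) y) = 0 := by
  rw [← inner_conj_symm, hP.2 x y hy, map_zero]

theorem IsPr.self_inner {P : E →L[ℂ] E} {W : Submodule ℂ E} (hP : IsPr P W) (v : E) :
    (inner ℂ v (P v)) = (inner ℂ (P v) (P v)) := by
  have h := hP.left v (hP.1 v)
  rw [inner_sub_left] at h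
  exact sub_eq_zero.1 h

theorem IsPr.comm {P : E →L[ℂ] E} {W : Submodule ℂ E} (hP : IsPr P W) (S S' : E →L[ℂ] E)
    (hSS : ∀ x y, (inner ℂ (S' x) y) = (inner ℂ x (S y))) (hS : ∀ x ∈ W, S x ∈ W) (hS' : ∀ x ∈ W, S' x ∈ W)
    (x : E) : P (S x) = S (P x) := by
  refine hP.uniq (hS _ (hP.1 x)) fun y hy => ?_
  rw [← map_sub, ← hSS]
  exact hP.2 x _ (hS' y hy)

/-- the eigenspaces are closed -/
theorem isClosed_eig (T : E →L[ℂ] E) (μ : ℂ) :
    IsClosed (eigenspace (T : E →ₗ[ℂ] E) μ : Set E) := by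
  have h : (eigenspace (T : E →ₗ[ℂ] E) μ : Set E) = {x | T x = μ • x} := by
    ext x
    simp
  rw [h]
  exact isClosed_eq T.continuous (continuous_const_smul μ)

/-- one eigenvalue sees the scalar product -/
theorem exists_eig [CompleteSpace E] (T : E →L[ℂ] E) (hT : IsCompactOperator T)
    (hs : ∀ x y, (inner ℂ (T x) y) = (inner ℂ x (T y))) (u v : E) (hv : ∀ x, T x = 0 → (inner ℂ v x) = 0)
    (huv : (inner ℂ u v) ≠ 0) :
    ∃ μ : ℂ, μ ≠ 0 ∧ ∃ P : E →L[ℂ] E, IsPr P (eigenspace (T : E →ₗ[ℂ] E) μ) ∧ (inner ℂ u (P v)) ≠ 0 := by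
  classical
  by_contra hcon
  have hsy : (T : E →ₗ[ℂ] E).IsSymmetric := fun x y => hs x y
  choose P hP using fun μ : ℂ => exists_pr (eigenspace (T : E →ₗ[ℂ] E) μ) (isClosed_eig T μ)
  have hne : ∀ μ : ℂ, μ ≠ 0 → (inner ℂ u (P μ v)) = 0 := by
    intro μ hμ
    by_contra h
    exact hcon ⟨μ, hμ, P μ, hP μ, h⟩
  have h0 : P 0 v = 0 := by
    refine (hP 0).uniq (Submodule.zero_mem _) fun y hy => ?_
    rw [sub_zero, ← inner_conj_symm, hv y ?_, map_zero]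
    have := mem_eigenspace_iff.1 hy
    simpa using this
  have hall : ∀ μ : ℂ, (inner ℂ u (P μ v)) = 0 := by
    intro μ
    by_cases hμ : μ = 0
    · subst hμ
      rw [h0, inner_zero_right]
    · exact hne μ hμ
  have horth : ∀ μ ν : ℂ, μ ≠ ν → ∀ y ∈ eigenspace (T : E →ₗ[ℂ] E) μ,
      ∀ z ∈ eigenspace (T : E →ₗ[ℂ] E) ν, (inner ℂ y z) = 0 := by
    intro μ ν hμν y hy z hz
    exact hsy.orthogonalFamily_eigenspaces hμν ⟨y, hy⟩ ⟨z, hz⟩
  have hden : (⨆ μ, eigenspace (T : E →ₗ[ℂ] E) μ).topologicalClosure = ⊤ := by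
    rw [← Submodule.orthogonal_orthogonal_eq_closure,
      ContinuousLinearMap.orthogonalComplement_iSup_eigenspaces_eq_bot hT hsy,
      Submodule.bot_orthogonal_eq_top]
  have hvc : v ∈ closure ((⨆ μ, eigenspace (T : E →ₗ[ℂ] E) μ : Submodule ℂ E) : Set E) := by
    have : v ∈ (⨆ μ, eigenspace (T : E →ₗ[ℂ] E) μ).topologicalClosure := by
      rw [hden]
      trivial
    exact this
  have hsmall : ∀ ε : ℝ, 0 < ε → ‖((inner ℂ u v) : ℂ)‖ ≤ ‖u‖ * ε := by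
    intro ε hε
    obtain ⟨d, hd, hdε⟩ := Metric.mem_closure_iff.1 hvc ε hε
    have hd' : d ∈ (⨆ μ, eigenspace (T : E →ₗ[ℂ] E) μ : Submodule ℂ E) := hd
    rw [Submodule.mem_iSup_iff_exists_finsupp] at hd'
    obtain ⟨f, hf, hfd⟩ := hd'
    set w : E := ∑ μ ∈ f.support, P μ v with hw
    have hvw : ∀ μ ∈ f.support, ∀ y ∈ eigenspace (T : E →ₗ[ℂ] E) μ, (inner ℂ y (v - w)) = 0 := by
      intro μ hμ y hy
      have e : v - w = (v - P μ v) - ∑ ν ∈ f.support.erase μ, P ν v := by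
        rw [hw, ← Finset.add_sum_erase _ _ hμ]
        abel
      rw [e, inner_sub_right, (hP μ).2 v y hy, inner_sum, zero_sub, neg_eq_zero]
      refine Finset.sum_eq_zero fun ν hν => ?_
      exact horth μ ν (Finset.ne_of_mem_erase hν).symm y hy _ ((hP ν).1 v)
    have hwd : (inner ℂ (w - d) (v - w)) = 0 := by
      have e : w - d = ∑ μ ∈ f.support, (P μ v - f μ) := by
        rw [Finset.sum_sub_distrib, ← hw, ← hfd]
        rfl
      rw [e, sum_inner]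
      refine Finset.sum_eq_zero fun μ hμ => hvw μ hμ _ ?_
      exact Submodule.sub_mem _ ((hP μ).1 v) (hf μ)
    have hle : ‖v - w‖ ≤ ‖v - d‖ := by
      have e : v - d = (w - d) + (v - w) := by abel
      have h1 : ‖v - d‖ * ‖v - d‖ = ‖w - d‖ * ‖w - d‖ + ‖v - w‖ * ‖v - w‖ := by
        rw [e]
        exact norm_add_sq_eq_norm_sq_add_norm_sq_of_inner_eq_zero _ _ hwd
      nlinarith [norm_nonneg (v - w), norm_nonneg (v - d), norm_nonneg (w - d),
        mul_self_nonneg ‖w - d‖]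
    have huw : (inner ℂ u w) = 0 := by
      rw [hw, inner_sum]
      exact Finset.sum_eq_zero fun μ _ => hall μ
    have e2 : (inner ℂ u v) = (inner ℂ u (v - w)) := by rw [inner_sub_right, huw, sub_zero]
    rw [e2]
    refine (norm_inner_le_norm _ _).trans ?_
    refine mul_le_mul_of_nonneg_left (hle.trans ?_) (norm_nonneg _)
    rw [← dist_eq_norm]
    exact hdε.le
  apply huv
  rw [← norm_eq_zero]
  refine le_antisymm (le_of_forall_pos_le_add fun ε hε => ?_) (norm_nonneg _)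
  have h1 := hsmall (ε / (‖u‖ + 1)) (by positivity)
  refine h1.trans ?_
  rw [zero_add, ← mul_div_assoc, div_le_iff₀ (by positivity)]
  nlinarith [norm_nonneg u]

section Main

variable {G : Type*} (ρ : G → E →L[ℂ] E)

theorem Inv.inf {V W : Submodule ℂ E} (hV : Inv ρ V) (hW : Inv ρ W) : Inv ρ (V ⊓ W) := by
  refine ⟨?_, fun g x hx => ⟨hV.2 g x hx.1, hW.2 g x hx.2⟩⟩
  have : ((V ⊓ W : Submodule ℂ E) : Set E) = (V : Set E) ∩ W := rfl
  rw [this]
  exact hV.1.inter hW.1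

theorem Inv.orth (hρ : ∀ g, ∃ g', ∀ x y, (inner ℂ (ρ g' x) y) = (inner ℂ x (ρ g y))) {V : Submodule ℂ E}
    (hV : Inv ρ V) : Inv ρ Vᗮ := by
  refine ⟨Submodule.isClosed_orthogonal V, fun g x hx => ?_⟩
  obtain ⟨g', hg'⟩ := hρ g
  rw [Submodule.mem_orthogonal] at hx ⊢
  intro y hy
  rw [← hg']
  exact hx _ (hV.2 g' y hy)

/-- the closed invariant subspace spanned by a set -/
def hull (F : Submodule ℂ E) : Submodule ℂ E := sInf {V | Inv ρ V ∧ F ≤ V}

theorem le_hull (F : Submodule ℂ E) : F ≤ hull ρ F := le_sInf fun _ hV => hV.2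

theorem hull_le {F V : Submodule ℂ E} (hV : Inv ρ V) (hF : F ≤ V) : hull ρ F ≤ V :=
  sInf_le ⟨hV, hF⟩

theorem inv_hull (F : Submodule ℂ E) : Inv ρ (hull ρ F) := by
  constructor
  · have : ((hull ρ F : Submodule ℂ E) : Set E) = ⋂ V ∈ {V | Inv ρ V ∧ F ≤ V}, (V : Set E) := by
      ext x
      simp [hull]
    rw [this]
    exact isClosed_biInter fun V hV => hV.1.1
  · intro g x hx
    rw [hull, Submodule.mem_sInf] at hx ⊢
    intro V hV
    exact hV.1.2 g x (hx V hV)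

/-- **The abstract statement.** -/
theorem exists_irr [CompleteSpace E] (hρ : ∀ g, ∃ g', ∀ x y, (inner ℂ (ρ g' x) y) = (inner ℂ x (ρ g y)))
    (T : E →L[ℂ] E) (hT : IsCompactOperator T) (hs : ∀ x y, (inner ℂ (T x) y) = (inner ℂ x (T y)))
    (hTi : ∀ W : Submodule ℂ E, Inv ρ W → ∀ x ∈ W, T x ∈ W)
    (u v : E) (hv : ∀ x, T x = 0 → (inner ℂ v x) = 0) (huv : (inner ℂ u v) ≠ 0) :
    ∃ (W : Submodule ℂ E) (μ : ℂ) (φ : E), Irr ρ W ∧ φ ∈ W ∧ μ ≠ 0 ∧ T φ = μ • φ ∧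
      (inner ℂ u φ) ≠ 0 ∧ (inner ℂ v φ) ≠ 0 := by
  classical
  obtain ⟨μ, hμ, P, hP, hPv⟩ := exists_eig T hT hs u v hv huv
  set Em : Submodule ℂ E := eigenspace (T : E →ₗ[ℂ] E) μ with hEm
  have hfd : FiniteDimensional ℂ Em :=
    ContinuousLinearMap.finite_dimensional_eigenspace hT μ hμ
  -- the candidates
  let Good : Submodule ℂ E → Prop := fun W => Inv ρ W ∧
    ∃ Q : E →L[ℂ] E, IsPr Q (W ⊓ Em) ∧ (inner ℂ u (Q v)) ≠ 0
  have htop : Good ⊤ := by
    refine ⟨⟨isClosed_univ, fun _ _ _ => trivial⟩, P, ?_, hPv⟩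
    rw [top_inf_eq]
    exact hP
  have hex : ∃ n : ℕ, ∃ W, Good W ∧ finrank ℂ (W ⊓ Em : Submodule ℂ E) = n := ⟨_, ⊤, htop, rfl⟩
  obtain ⟨W₀, hW₀, hn⟩ := Nat.find_spec hex
  have hmin : ∀ W, Good W → Nat.find hex ≤ finrank ℂ (W ⊓ Em : Submodule ℂ E) :=
    fun W hW => Nat.find_min' hex ⟨W, hW, rfl⟩
  obtain ⟨hI₀, Q₀, hQ₀, hQv⟩ := hW₀
  set F₀ : Submodule ℂ E := W₀ ⊓ Em with hF₀
  have hfdF : ∀ V : Submodule ℂ E, FiniteDimensional ℂ (V ⊓ Em : Submodule ℂ E) := fun V =>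
    Submodule.finiteDimensional_of_le inf_le_right
  have hmem : ∀ x, x ∈ Em ↔ T x = μ • x := fun x => mem_eigenspace_iff
  -- the hull
  refine ⟨hull ρ F₀, μ, Q₀ v, ⟨inv_hull ρ F₀, ?_, ?_⟩, le_hull ρ F₀ (hQ₀.1 v), hμ,
    (hmem _).1 (hQ₀.1 v).2, hQv, ?_⟩
  · intro hbot
    apply hQv
    have : Q₀ v ∈ hull ρ F₀ := le_hull ρ F₀ (hQ₀.1 v)
    rw [hbot, Submodule.mem_bot] at this
    rw [this, inner_zero_right]
  · intro V hVW hV
    have hVo := hV.orth ρ hρ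
    have hcl : ∀ U : Submodule ℂ E, Inv ρ U → ∃ Q : E →L[ℂ] E, IsPr Q (U ⊓ Em) := by
      intro U hU
      refine exists_pr _ ?_
      have : ((U ⊓ Em : Submodule ℂ E) : Set E) = (U : Set E) ∩ Em := rfl
      rw [this]
      exact hU.1.inter (isClosed_eig T μ)
    have hV2 : Inv ρ (hull ρ F₀ ⊓ Vᗮ) := (inv_hull ρ F₀).inf ρ hVo
    obtain ⟨Q₁, hQ₁⟩ := hcl V hV
    obtain ⟨Q₂, hQ₂⟩ := hcl _ hV2
    have hWW : hull ρ F₀ ≤ W₀ := hull_le ρ hI₀ inf_le_left
    have hle1 : (V ⊓ Em : Submodule ℂ E) ≤ F₀ := inf_le_inf_right _ (hVW.trans hWW)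
    have hle2 : ((hull ρ F₀ ⊓ Vᗮ) ⊓ Em : Submodule ℂ E) ≤ F₀ :=
      inf_le_inf_right _ (inf_le_left.trans hWW)
    obtain ⟨PV, hPV⟩ := exists_pr V hV.1
    have hcomT : ∀ x, PV (T x) = T (PV x) := hPV.comm T T hs (hTi V hV) (hTi V hV)
    have hsum : Q₀ v = Q₁ v + Q₂ v := by
      refine hQ₀.uniq (F₀.add_mem (hle1 (hQ₁.1 v)) (hle2 (hQ₂.1 v))) fun y hy => ?_
      have hyE : T y = μ • y := (hmem y).1 hy.2
      have hy1 : PV y ∈ (V ⊓ Em : Submodule ℂ E) := by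
        refine ⟨hPV.1 y, (hmem _).2 ?_⟩
        rw [← hcomT, hyE, map_smul]
      have hyh : y ∈ hull ρ F₀ := le_hull ρ F₀ hy
      have hy2 : y - PV y ∈ ((hull ρ F₀ ⊓ Vᗮ) ⊓ Em : Submodule ℂ E) := by
        refine ⟨⟨Submodule.sub_mem _ hyh (hVW (hPV.1 y)), ?_⟩, Submodule.sub_mem _ hy.2 hy1.2⟩
        exact (Submodule.mem_orthogonal _ _).2 fun z hz => hPV.2 y z hz
      have e : y = PV y + (y - PV y) := by abel
      have h1 := hQ₁.2 v _ hy1
      have h2 := hQ₂.2 v _ hy2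
      have h3 : (inner ℂ (PV y) (Q₂ v)) = 0 := by
        exact (Submodule.mem_orthogonal _ _).1 (hQ₂.1 v).1.2 _ hy1.1
      have h4 : (inner ℂ (y - PV y) (Q₁ v)) = 0 := hPV.left y (hQ₁.1 v).1
      have h5 : (inner ℂ (PV y) (v - (Q₁ v + Q₂ v))) = 0 := by
        rw [← sub_sub, inner_sub_right, h1, h3, sub_zero]
      have h6 : (inner ℂ (y - PV y) (v - (Q₁ v + Q₂ v))) = 0 := by
        rw [add_comm, ← sub_sub, inner_sub_right, h2, h4, sub_zero]
      calc (inner ℂ y (v - (Q₁ v + Q₂ v))) = (inner ℂ (PV y + (y - PV y)) (v - (Q₁ v + Q₂ v))) := by rw [← e]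
        _ = 0 := by rw [inner_add_left, h5, h6, add_zero]
    have hB : (inner ℂ u (Q₁ v)) ≠ 0 ∨ (inner ℂ u (Q₂ v)) ≠ 0 := by
      by_contra hno
      rw [not_or, not_not, not_not] at hno
      apply hQv
      rw [hsum, inner_add_right, hno.1, hno.2, add_zero]
    rcases hB with hB | hB
    · right
      have h1 := hmin V ⟨hV, Q₁, hQ₁, hB⟩
      rw [← hn] at h1
      have h2 : (V ⊓ Em : Submodule ℂ E) = F₀ := Submodule.eq_of_le_of_finrank_le hle1 h1
      exact le_antisymm hVW (hull_le ρ hV (h2 ▸ inf_le_left))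
    · left
      have h1 := hmin _ ⟨hV2, Q₂, hQ₂, hB⟩
      rw [← hn] at h1
      have h2 : ((hull ρ F₀ ⊓ Vᗮ) ⊓ Em : Submodule ℂ E) = F₀ :=
        Submodule.eq_of_le_of_finrank_le hle2 h1
      have h3 : hull ρ F₀ ≤ Vᗮ :=
        hull_le ρ hVo (h2 ▸ (inf_le_left.trans inf_le_right))
      rw [Submodule.eq_bot_iff]
      intro x hx
      exact inner_self_eq_zero.1 ((Submodule.mem_orthogonal _ _).1 (h3 (hVW hx)) x hx)
  · rw [hQ₀.self_inner v]
    intro h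
    apply hQv
    rw [inner_self_eq_zero.1 h, inner_zero_right]

end Main

end Pool.Agent.FC.Hilb
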