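import Pool.Agent.FC.Defs
import Pool.Agent.FC.AdeleSp
import Pool.Agent.FC.ConvA
import Pool.Agent.FC.Hilb

/-!
# FC: irreducible subspaces in the sense of `Hilb.Irr` and in the sense of the statement
-/

open MeasureTheory

namespace Pool.Agent.FC

theorem IrrConv.isInvariant_iff {n : ℕ} {μ : Measure (AutQuot n)}
    [SMulInvariantMeasure (GA n) (AutQuot n) μ] (W : Submodule ℂ (Lp ℂ 2 μ)) :
    IsInvariant μ W ↔ ∀ g : GA n, ∀ x ∈ W, Conv.rho μ g x ∈ W := by
  constructor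
  · intro h g x hx
    exact h g x _ hx (Conv.rho_ae μ g x)
  · intro h g F F' hF hF'
    have h1 : F' = Conv.rho μ g F := Lp.ext (hF'.trans (Conv.rho_ae μ g F).symm)
    rw [h1]
    exact h g F hF

theorem isIrredAut_iff {n : ℕ} {μ : Measure (AutQuot n)}
    [SMulInvariantMeasure (GA n) (AutQuot n) μ] (W : Submodule ℂ (Lp ℂ 2 μ)) :
    IsIrredAut μ W ↔ Hilb.Irr (Conv.rho μ (G := GA n)) W := by
  constructor
  · intro h
    refine ⟨⟨h.closed, (IrrConv.isInvariant_iff W).mp h.invariant⟩, h.ne_bot, ?_⟩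
    intro V hVW hV
    exact h.irreducible V hV.1 ((IrrConv.isInvariant_iff V).mpr hV.2) hVW
  · intro h
    refine ⟨h.1.1, (IrrConv.isInvariant_iff W).mpr h.1.2, h.2.1, ?_⟩
    intro V hVc hV hVW
    exact h.2.2 V hVW ⟨hVc, (IrrConv.isInvariant_iff V).mp hV⟩

end Pool.Agent.FC
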