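import Pool.Agent.FC.Base
import Pool.Agent.FC.Psi3

/-!
# FC, (7b): `ψ_f = χ` on `V(𝔸_f) ∩ U`
-/

open RestrictedProduct Matrix MeasureTheory

noncomputable section

namespace Pool.Agent.FC

namespace PsiChiA

theorem adGE_map {n : ℕ} {R S : Type*} [CommRing R] [CommRing S] (φ : R →+* S) {h : Mat n R}
    {i : ℤ} {X : Mat n R} (hX : X ∈ adGE h i) : X.map φ ∈ adGE (h.map φ) i := by
  induction hX using Submodule.span_induction with
  | mem X hX =>
    obtain ⟨j, hj, hX⟩ := hX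
    refine Submodule.subset_span ⟨j, hj, ?_⟩
    have : (h * X - X * h).map φ = ((j : R) • X).map φ := congrArg (fun Z : Mat n R => Z.map φ) hX
    rw [Matrix.map_sub _ (map_sub φ), Matrix.map_mul, Matrix.map_mul] at this
    rw [this]
    ext a b
    simp
  | zero =>
    rw [Matrix.map_zero _ (map_zero φ)]
    exact Submodule.zero_mem _
  | add X Y _ _ h1 h2 =>
    rw [Matrix.map_add _ (map_add φ)]
    exact Submodule.add_mem _ h1 h2
  | smul c X _ h1 =>
    have : (c • X).map φ = φ c • X.map φ := by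
      ext a b
      simp
    rw [this]
    exact Submodule.smul_mem _ _ h1

/-- entries of the elements of `adGE` of a diagonal matrix -/
theorem adGE_entry {K : Type*} [Field K] [CharZero K] {a : Fin 6 → ℤ} {i : ℤ} {X : Mat 6 K}
    (hX : X ∈ adGE (hdiag K a) i) (k l : Fin 6 ⊕ Fin 6) (hkl : wt a k - wt a l < i) :
    X k l = 0 := by
  induction hX using Submodule.span_induction with
  | mem X hX =>
    obtain ⟨j, hj, hX⟩ := hX
    have h1 := congrFun (congrFun hX k) l
    rw [Matrix.sub_apply, Matrix.smul_apply, hdiag, Matrix.diagonal_mul, Matrix.mul_diagonal,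
      smul_eq_mul] at h1
    have h2 : (((wt a k - wt a l - j : ℤ)) : K) * X k l = 0 := by
      push_cast
      linear_combination h1
    rcases mul_eq_zero.mp h2 with h3 | h3
    · have h4 : wt a k - wt a l - j = 0 := by exact_mod_cast h3
      omega
    · exact h3
  | zero => rfl
  | add X Y _ _ h1 h2 => rw [Matrix.add_apply, h1, h2, add_zero]
  | smul c X _ h1 => rw [Matrix.smul_apply, h1, smul_zero]

theorem evp_ratAdele (p : Nat.Primes) (q : ℚ) : evp p (ratAdele q) = (q : ℚ_[(p : ℕ)]) := rfl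

theorem map_evp_rat {n : ℕ} (A : Mat n ℚ) (p : Nat.Primes) :
    (A.map ratAdele).map (evp p) = A.map (Rat.cast : ℚ → ℚ_[(p : ℕ)]) := by
  ext i j
  rfl

theorem hdiag_map (p : Nat.Primes) (a : Fin 6 → ℤ) :
    (hdiag ℚ a).map (Rat.cast : ℚ → ℚ_[(p : ℕ)]) = hdiag ℚ_[(p : ℕ)] a := by
  ext i j
  unfold hdiag
  rw [Matrix.map_apply]
  by_cases h : i = j
  · subst h
    rw [Matrix.diagonal_apply_eq, Matrix.diagonal_apply_eq]
    norm_cast
  · rw [Matrix.diagonal_apply_ne _ h, Matrix.diagonal_apply_ne _ h]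
    norm_cast

/-- `X` has no components of weight less than `-2` -/
theorem Xq_weight {a : Fin 6 → ℤ} (ha : a = wa ∨ a = wb) (i j : Fin 6 ⊕ Fin 6)
    (h : wt a i - wt a j < -2) : Xq i j = 0 := by
  have key : ∀ i j : Fin 6, (¬ (S2 i j = 0) → -2 ≤ wa i + wa j ∧ -2 ≤ wb i + wb j) ∧
      (¬ (S1 i j = 0) → wa i + wa j ≤ 2 ∧ wb i + wb j ≤ 2) := by
    decide
  rcases i with i | i <;> rcases j with j | j
  · simp [Xq]
  · have h1 := (key i j).1
    have h2 : S2 i j = 0 := by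
      by_contra hne
      have h3 := h1 hne
      simp only [wt, Sum.elim_inl, Sum.elim_inr] at h
      rcases ha with rfl | rfl
      · omega
      · omega
    simp [Xq, h2]
  · have h1 := (key i j).2
    have h2 : S1 i j = 0 := by
      by_contra hne
      have h3 := h1 hne
      simp only [wt, Sum.elim_inl, Sum.elim_inr] at h
      rcases ha with rfl | rfl
      · omega
      · omega
    simp [Xq, h2]
  · simp [Xq]

/-- the trace formula -/
theorem trace_eq {a : Fin 6 → ℤ} (ha : a = wa ∨ a = wb) {K : Type*} [Field K] [CharZero K]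
    {M : Mat 6 K} (hM : M ∈ adGE (hdiag K a) 2) :
    Matrix.trace ((fq a).map (Rat.cast : ℚ → K) * M)
      = Matrix.trace (Xq.map (Rat.cast : ℚ → K) * M) := by
  unfold Matrix.trace
  apply Finset.sum_congr rfl
  intro i _
  rw [Matrix.diag_apply, Matrix.diag_apply, Matrix.mul_apply, Matrix.mul_apply]
  apply Finset.sum_congr rfl
  intro j _
  by_cases h1 : wt a j - wt a i < 2
  · rw [adGE_entry hM j i h1, mul_zero, mul_zero]
  · by_cases h2 : wt a i - wt a j = -2
    · rw [Matrix.map_apply, Matrix.map_apply, fq, Matrix.of_apply, if_pos h2]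
    · have h3 : Xq i j = 0 := Xq_weight ha i j (by omega)
      rw [Matrix.map_apply, Matrix.map_apply, fq, Matrix.of_apply, if_neg h2, h3]

theorem norm_third {p : Nat.Primes} (hp : p ≠ p3) : ‖((3 : ℕ) : ℚ_[(p : ℕ)])‖ = 1 := by
  have h1 : ¬ ‖((3 : ℤ) : ℚ_[(p : ℕ)])‖ < 1 := by
    rw [Padic.norm_intCast_lt_one_iff]
    intro h
    have h2 : (p : ℕ) ∣ 3 := by exact_mod_cast h
    exact hp (Subtype.ext ((Nat.prime_dvd_prime_iff_eq p.2 Nat.prime_three).mp h2))
  have h2 : ‖((3 : ℤ) : ℚ_[(p : ℕ)])‖ ≤ 1 := Padic.norm_int_le_one _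
  have h3 : ‖((3 : ℤ) : ℚ_[(p : ℕ)])‖ = 1 := le_antisymm h2 (not_lt.mp h1)
  exact_mod_cast h3

theorem norm_Xq {p : Nat.Primes} (hp : p ≠ p3) (i j : Fin 6 ⊕ Fin 6) :
    ‖((Xq i j : ℚ) : ℚ_[(p : ℕ)])‖ ≤ 1 := by
  have h3 : ‖(3 : ℚ_[(p : ℕ)])‖ = 1 := by
    have := norm_third hp
    exact_mod_cast this
  have h9 : ‖(9 : ℚ_[(p : ℕ)])‖ = 1 := by
    have : (9 : ℚ_[(p : ℕ)]) = 3 * 3 := by norm_num
    rw [this, norm_mul, h3, one_mul]
  rcases i with i | i <;> rcases j with j | j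
  · simp [Xq]
  · simp only [Xq, Matrix.fromBlocks_apply₁₂, Matrix.smul_apply, Matrix.map_apply, smul_eq_mul]
    push_cast
    rw [norm_mul, norm_div, norm_one, h9, div_one, one_mul]
    exact Padic.norm_int_le_one _
  · simp only [Xq, Matrix.fromBlocks_apply₂₁, Matrix.smul_apply, Matrix.map_apply, smul_eq_mul]
    push_cast
    rw [norm_mul, norm_div, norm_one, h3, div_one, one_mul]
    exact Padic.norm_int_le_one _
  · simp [Xq]

theorem norm_fq {p : Nat.Primes} (hp : p ≠ p3) (a : Fin 6 → ℤ) (i j : Fin 6 ⊕ Fin 6) :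
    ‖((fq a i j : ℚ) : ℚ_[(p : ℕ)])‖ ≤ 1 := by
  unfold fq
  rw [Matrix.of_apply]
  split_ifs
  · exact norm_Xq hp i j
  · simp

theorem norm_sum_le_one {p : Nat.Primes} {ι : Type*} (s : Finset ι) (f : ι → ℚ_[(p : ℕ)])
    (h : ∀ i ∈ s, ‖f i‖ ≤ 1) : ‖∑ i ∈ s, f i‖ ≤ 1 := by
  classical
  induction s using Finset.induction_on with
  | empty => simp
  | insert b s hb ih =>
    rw [Finset.sum_insert hb]
    refine (Padic.nonarchimedean _ _).trans (max_le (h _ (Finset.mem_insert_self _ _)) ?_)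
    exact ih (fun i hi => h i (Finset.mem_insert_of_mem hi))

theorem norm_trace_le {p : Nat.Primes} {A B : Mat 6 ℚ_[(p : ℕ)]} (hA : ∀ i j, ‖A i j‖ ≤ 1)
    (hB : ∀ i j, ‖B i j‖ ≤ 1) : ‖Matrix.trace (A * B)‖ ≤ 1 := by
  unfold Matrix.trace
  apply norm_sum_le_one
  intro i _
  rw [Matrix.diag_apply, Matrix.mul_apply]
  apply norm_sum_le_one
  intro j _
  rw [norm_mul]
  exact mul_le_one₀ (hA _ _) (norm_nonneg _) (hB _ _)

end PsiChiA

open PsiChiA

/-- (7b) without a condition at infinity: for `v ∈ V_i(𝔸) ∩ U` one has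
`ψ_i(v) = ψ_∞(tr(f (v_∞ - 1))) χ(v)`. -/
theorem char_eq_real_mul_chi {ψ : AddChar Adele Circle} (hψ : IsStd ψ) {a : Fin 6 → ℤ}
    (ha : a = wa ∨ a = wb) (T : Triple 6) (hT : T.h = hdiag ℚ a) (hf : T.f = fq a)
    (v : GA 6) (hv : v ∈ T.VA) (hU : v ∈ USet) :
    T.char ψ v = ((ψ ((Matrix.trace (T.f.map (algebraMap ℚ ℝ) * (gR v - 1)), 0) : Adele) :
      Circle) : ℂ) * ((chi ψ v : Circle) : ℂ) := by
  have hv1 : (v : Mat 6 Adele) - 1 ∈ adGE (T.h.map ratAdele) 2 := hv
  set z : Adele := Matrix.trace (T.f.map ratAdele * ((v : Mat 6 Adele) - 1)) with hz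
  have hev : ∀ p : Nat.Primes, evp p z
      = Matrix.trace ((fq a).map (Rat.cast : ℚ → ℚ_[(p : ℕ)]) * (gp v p - 1)) := by
    intro p
    rw [hz, AddMonoidHom.map_trace, Matrix.map_mul, map_evp_rat, hf,
      Matrix.map_sub _ (map_sub (evp p)), Matrix.map_one _ (map_zero _) (map_one _)]
    rfl
  have hr : z.1 = Matrix.trace (T.f.map (algebraMap ℚ ℝ) * (gR v - 1)) := by
    have h1 : evR z = Matrix.trace ((T.f.map ratAdele).map evR * (gR v - 1)) := by
      rw [hz, AddMonoidHom.map_trace, Matrix.map_mul,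
        Matrix.map_sub _ (map_sub evR), Matrix.map_one _ (map_zero _) (map_one _)]
      rfl
    have h2 : (T.f.map ratAdele).map evR = T.f.map (algebraMap ℚ ℝ) := by
      ext i j
      rfl
    rw [h2] at h1
    exact h1
  have haway : ∀ p : Nat.Primes, p ≠ p3 → ‖z.2 p‖ ≤ 1 := by
    intro p hp
    have h1 := hev p
    have h2 : evp p z = z.2 p := rfl
    rw [← h2, h1]
    apply norm_trace_le
    · intro i j
      rw [Matrix.map_apply]
      exact norm_fq hp a i j
    · intro i j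
      rw [Matrix.sub_apply]
      have h3 : ‖(1 : Mat 6 ℚ_[(p : ℕ)]) i j‖ ≤ 1 := by
        rw [Matrix.one_apply]
        split_ifs <;> simp
      have h4 := Padic.nonarchimedean (gp v p i j) (-((1 : Mat 6 ℚ_[(p : ℕ)]) i j))
      rw [norm_neg, ← sub_eq_add_neg] at h4
      exact h4.trans (max_le (hU.1 p i j) h3)
  have h3 : z.2 p3 = Matrix.trace (X3 * (gp v p3 - 1)) := by
    have h1 := hev p3
    have h2 : evp p3 z = z.2 p3 := rfl
    rw [← h2, h1]
    apply trace_eq ha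
    have h4 := adGE_map (evp p3) hv1
    rw [map_evp_rat, hT, hdiag_map, Matrix.map_sub _ (map_sub (evp p3)),
      Matrix.map_one _ (map_zero _) (map_one _)] at h4
    exact h4
  have hsplit : z = ((z.1, 0) : Adele) + ((0, z.2) : Adele) := by
    apply Prod.ext
    · show z.1 = z.1 + 0
      rw [add_zero]
    · show z.2 = 0 + z.2
      rw [zero_add]
  have hfin : ψ ((0, z.2) : Adele) = chi ψ v := by
    rw [psi_away hψ ((0, z.2) : Adele) rfl haway]
    show theta ψ (z.2 p3) = chi ψ v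
    rw [h3]
    rfl
  have hchar : T.char ψ v = ((ψ z : Circle) : ℂ) := rfl
  rw [hchar, hsplit, AddChar.map_add_eq_mul, hfin, hr, Circle.coe_mul]

/-- (7b): for `v ∈ V_i(𝔸_f) ∩ U` one has `ψ_i(v) = χ(v)`. -/
theorem char_eq_chi {ψ : AddChar Adele Circle} (hψ : IsStd ψ) {a : Fin 6 → ℤ}
    (ha : a = wa ∨ a = wb) (T : Triple 6) (hT : T.h = hdiag ℚ a) (hf : T.f = fq a)
    (v : GA 6) (hv : v ∈ T.VA) (hR : gR v = 1) (hU : v ∈ USet) :
    T.char ψ v = ((chi ψ v : Circle) : ℂ) := by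
  rw [char_eq_real_mul_chi hψ ha T hT hf v hv hU, hR, sub_self, Matrix.mul_zero,
    Matrix.trace_zero]
  have h0 : ((0, 0) : Adele) = 0 := rfl
  rw [h0, AddChar.map_zero_eq_one, Circle.coe_one, one_mul]

end Pool.Agent.FC
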