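import Pool.Agent.FC.AdeleSp
import Pool.Agent.FC.Base

/-!
# FC-ResM: the open subgroup `U`, its character `chi`, and the convolution kernel
-/

set_option linter.all false

open RestrictedProduct Filter Topology Matrix

noncomputable section

namespace Pool.Agent.FC.ResM

theorem continuous_evp (p : Nat.Primes) : Continuous (evp p) :=
  (RestrictedProduct.continuous_eval p).comp continuous_snd

theorem continuous_evR : Continuous evR := continuous_fst

theorem continuous_spMap {n : ℕ} {R S : Type*} [CommRing R] [CommRing S] [TopologicalSpace R]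
    [TopologicalSpace S] (φ : R →+* S) (h : Continuous φ) : Continuous (spMap n φ) := by
  refine Continuous.subtype_mk ?_ _
  exact continuous_subtype_val.matrix_map h

theorem continuous_gp {n : ℕ} (p : Nat.Primes) : Continuous fun g : GA n => gp g p :=
  continuous_subtype_val.matrix_map (continuous_evp p)

theorem gp_mul {n : ℕ} (g g' : GA n) (p : Nat.Primes) : gp (g * g') p = gp g p * gp g' p := by
  unfold gp
  rw [Submonoid.coe_mul, Matrix.map_mul]

theorem gp_one {n : ℕ} (p : Nat.Primes) : gp (1 : GA n) p = 1 := by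
  unfold gp
  rw [Submonoid.coe_one]
  exact Matrix.map_one _ (map_zero _) (map_one _)

theorem gp_inv {n : ℕ} (g : GA n) (p : Nat.Primes) :
    gp g⁻¹ p = -J (Fin n) _ * (gp g p)ᵀ * J (Fin n) _ := by
  unfold gp
  rw [SymplecticGroup.coe_inv, Matrix.map_mul, Matrix.map_mul, Matrix.transpose_map, map_J]
  congr 2
  ext i j
  have h := congrFun (congrFun (map_J (Fin n) (evp p)) i) j
  simp only [Matrix.map_apply, Matrix.neg_apply, map_neg] at h ⊢
  rw [h]

theorem gp_mul_inv {n : ℕ} (g : GA n) (p : Nat.Primes) : gp g p * gp g⁻¹ p = 1 := by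
  rw [← gp_mul, mul_inv_cancel, gp_one]

/-- compact subsets of `Sp_{2n}(𝔸)` -/
theorem isCompact_box {n : ℕ} (K : Set (Matrix.symplecticGroup (Fin n) ℝ)) (hK : IsCompact K)
    (C : Set (GA n)) (hC : IsClosed C) (h1 : ∀ g ∈ C, ∀ i j, ((g : Mat n Adele) i j).2 ∈ OF)
    (h2 : ∀ g ∈ C, spMap n evR g ∈ K) : IsCompact C := by
  have hb : Bornology.IsBounded
      (Set.range fun x : K × (Fin n ⊕ Fin n) × (Fin n ⊕ Fin n) => (x.1.1 : Mat n ℝ) x.2.1 x.2.2) := by
    have : CompactSpace K := isCompact_iff_compactSpace.mp hK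
    refine (isCompact_range ?_).isBounded
    have h3 : Continuous fun x : (K × (Fin n ⊕ Fin n) × (Fin n ⊕ Fin n)) =>
        ((x.1.1 : Mat n ℝ) x.2.1 x.2.2) := by
      rw [continuous_iff_continuousAt]
      rintro ⟨k, i, j⟩
      have h4 : ∀ᶠ x : (K × (Fin n ⊕ Fin n) × (Fin n ⊕ Fin n)) in 𝓝 (k, i, j),
          ((x.1.1 : Mat n ℝ) i j) = ((x.1.1 : Mat n ℝ) x.2.1 x.2.2) := by
        have h5 : {x : (K × (Fin n ⊕ Fin n) × (Fin n ⊕ Fin n)) | x.2 = (i, j)} ∈ 𝓝 (k, i, j) :=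
          ((isOpen_discrete {(i, j)}).preimage continuous_snd).mem_nhds rfl
        filter_upwards [h5] with x hx
        have h6 : x.2 = (i, j) := hx
        rw [h6]
      refine ContinuousAt.congr ?_ h4
      have h7 : Continuous fun x : (K × (Fin n ⊕ Fin n) × (Fin n ⊕ Fin n)) =>
        ((x.1.1 : Mat n ℝ) i j) :=
        (continuous_subtype_val.comp (continuous_subtype_val.comp continuous_fst)).matrix_elem i j
      exact h7.continuousAt
    exact h3
  obtain ⟨R, hR⟩ := hb.subset_closedBall 0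
  let B : Set (Mat n Adele) :=
    Set.univ.pi fun _ => Set.univ.pi fun _ => (Metric.closedBall (0 : ℝ) R ×ˢ OF)
  have hB : IsCompact B := by
    refine isCompact_univ_pi fun i => isCompact_univ_pi fun j => ?_
    exact (isCompact_closedBall _ _).prod isCompact_OF
  have hemb := (isClosed_symplectic (l := Fin n) (R := Adele)).isClosedEmbedding_subtypeVal
  have h3 : IsCompact ((Subtype.val : GA n → Mat n Adele) ⁻¹' B) := hemb.isCompact_preimage hB
  refine h3.of_isClosed_subset hC ?_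
  intro g hg i _ j _
  refine ⟨?_, h1 g hg i j⟩
  exact hR ⟨(⟨_, h2 g hg⟩, i, j), rfl⟩

/-! ### the order `Aord` -/

theorem bd_pos (i j : Fin 6 ⊕ Fin 6) : 0 < bd i j := by
  rcases i with i | i <;> rcases j with j | j <;> simp [bd]

theorem bd_le_one (i j : Fin 6 ⊕ Fin 6) : bd i j ≤ 1 := by
  rcases i with i | i <;> rcases j with j | j <;> norm_num [bd]

theorem bd_mul (i j k : Fin 6 ⊕ Fin 6) : bd i j * bd j k ≤ bd i k := by
  rcases i with i | i <;> rcases j with j | j <;> rcases k with k | k <;> norm_num [bd]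

theorem padic_sum_le {p : ℕ} [Fact p.Prime] {ι : Type*} (s : Finset ι) (f : ι → ℚ_[p]) {c : ℝ}
    (hc : 0 ≤ c) (h : ∀ i ∈ s, ‖f i‖ ≤ c) : ‖∑ i ∈ s, f i‖ ≤ c :=
  IsUltrametricDist.norm_sum_le_of_forall_le_of_nonneg hc h

theorem padic_add_le {p : ℕ} [Fact p.Prime] {a b : ℚ_[p]} {c : ℝ}
    (ha : ‖a‖ ≤ c) (hb : ‖b‖ ≤ c) : ‖a + b‖ ≤ c :=
  (IsUltrametricDist.norm_add_le_max a b).trans (max_le ha hb)

theorem Aord_add {M N : Mat 6 ℚ_[(p3 : ℕ)]} (hM : M ∈ Aord) (hN : N ∈ Aord) : M + N ∈ Aord :=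
  fun i j => padic_add_le (hM i j) (hN i j)

theorem Aord_neg {M : Mat 6 ℚ_[(p3 : ℕ)]} (hM : M ∈ Aord) : -M ∈ Aord := by
  intro i j
  rw [Matrix.neg_apply, norm_neg]
  exact hM i j

theorem Aord_mul {M N : Mat 6 ℚ_[(p3 : ℕ)]} (hM : M ∈ Aord) (hN : N ∈ Aord) : M * N ∈ Aord := by
  intro i k
  rw [Matrix.mul_apply]
  refine padic_sum_le _ _ (bd_pos i k).le fun j _ => ?_
  rw [norm_mul]
  exact (mul_le_mul (hM i j) (hN j k) (norm_nonneg _) (bd_pos i j).le).trans (bd_mul i j k)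

/-- products with an integral matrix of the shape `1 + Aord` -/
theorem norm_le_of_sub_one_mem {M : Mat 6 ℚ_[(p3 : ℕ)]} (hM : M - 1 ∈ Aord)
    (i j : Fin 6 ⊕ Fin 6) : ‖M i j‖ ≤ 1 := by
  have h := hM i j
  have h2 : M i j = (M - 1) i j + (1 : Mat 6 ℚ_[(p3 : ℕ)]) i j := by
    rw [Matrix.sub_apply]; ring
  rw [h2]
  refine padic_add_le (h.trans (bd_le_one i j)) ?_
  rw [Matrix.one_apply]
  split_ifs <;> simp

/-- the adjoint of a matrix -/
theorem Aord_adj {M : Mat 6 ℚ_[(p3 : ℕ)]} (hM : M ∈ Aord) :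
    -J (Fin 6) _ * Mᵀ * J (Fin 6) _ ∈ Aord := by
  have hMb : Mᵀ = Matrix.fromBlocks M.toBlocks₁₁ᵀ M.toBlocks₂₁ᵀ M.toBlocks₁₂ᵀ M.toBlocks₂₂ᵀ := by
    conv_lhs => rw [← Matrix.fromBlocks_toBlocks M]
    rw [Matrix.fromBlocks_transpose]
  have h1 : -J (Fin 6) ℚ_[(p3 : ℕ)] * Mᵀ * J (Fin 6) ℚ_[(p3 : ℕ)] =
      Matrix.fromBlocks (M.toBlocks₂₂ᵀ) (-M.toBlocks₁₂ᵀ) (-M.toBlocks₂₁ᵀ) (M.toBlocks₁₁ᵀ) := by
    rw [hMb, J, Matrix.fromBlocks_neg, Matrix.fromBlocks_multiply, Matrix.fromBlocks_multiply]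
    simp
  rw [h1]
  intro i j
  rcases i with i | i <;> rcases j with j | j
  · have := hM (Sum.inr j) (Sum.inr i)
    simpa [bd, Matrix.toBlocks₂₂] using this
  · have := hM (Sum.inl j) (Sum.inr i)
    simpa [bd, Matrix.toBlocks₁₂] using this
  · have := hM (Sum.inr j) (Sum.inl i)
    simpa [bd, Matrix.toBlocks₂₁] using this
  · have := hM (Sum.inl j) (Sum.inl i)
    simpa [bd, Matrix.toBlocks₁₁] using this

/-! ### `U` is an open subgroup -/

theorem J_norm_le {p : ℕ} [Fact p.Prime] {n : ℕ} (i j : Fin n ⊕ Fin n) :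
    ‖J (Fin n) ℚ_[p] i j‖ ≤ 1 := by
  rcases i with i | i <;> rcases j with j | j <;>
    simp [J, Matrix.one_apply] <;> split_ifs <;> simp

theorem mul_norm_le {p : ℕ} [Fact p.Prime] {n : ℕ} {M N : Mat n ℚ_[p]}
    (hM : ∀ i j, ‖M i j‖ ≤ 1) (hN : ∀ i j, ‖N i j‖ ≤ 1) (i j : Fin n ⊕ Fin n) :
    ‖(M * N) i j‖ ≤ 1 := by
  rw [Matrix.mul_apply]
  refine padic_sum_le _ _ zero_le_one fun k _ => ?_
  rw [norm_mul]
  exact mul_le_one₀ (hM i k) (norm_nonneg _) (hN k j)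

theorem gp_inv_norm_le {n : ℕ} (g : GA n) (p : Nat.Primes) (h : ∀ i j, ‖gp g p i j‖ ≤ 1)
    (i j : Fin n ⊕ Fin n) : ‖gp g⁻¹ p i j‖ ≤ 1 := by
  rw [gp_inv]
  refine mul_norm_le (mul_norm_le ?_ ?_) ?_ i j
  · intro i j
    rw [Matrix.neg_apply, norm_neg]
    exact J_norm_le i j
  · intro i j
    exact h j i
  · intro i j
    exact J_norm_le i j

/-- the group `U` -/
def UGrp : Subgroup (GA 6) where
  carrier := USet
  one_mem' := by
    refine ⟨?_, ?_⟩
    · intro p i j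
      rw [gp_one, Matrix.one_apply]
      split_ifs <;> simp
    · rw [gp_one, sub_self]
      intro i j
      simp [(bd_pos i j).le]
  mul_mem' := by
    rintro u v ⟨hu1, hu2⟩ ⟨hv1, hv2⟩
    refine ⟨?_, ?_⟩
    · intro p i j
      rw [gp_mul]
      exact mul_norm_le (hu1 p) (hv1 p) i j
    · rw [gp_mul]
      have : gp u p3 * gp v p3 - 1 =
          (gp u p3 - 1) * (gp v p3 - 1) + (gp u p3 - 1) + (gp v p3 - 1) := by noncomm_ring
      rw [this]
      exact Aord_add (Aord_add (Aord_mul hu2 hv2) hu2) hv2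
  inv_mem' := by
    rintro u ⟨hu1, hu2⟩
    refine ⟨?_, ?_⟩
    · intro p i j
      exact gp_inv_norm_le u p (hu1 p) i j
    · rw [gp_inv]
      have hJ2 : J (Fin 6) ℚ_[(p3 : ℕ)] * J (Fin 6) ℚ_[(p3 : ℕ)] = -1 := J_squared (Fin 6) _
      have : -J (Fin 6) ℚ_[(p3 : ℕ)] * (gp u p3)ᵀ * J (Fin 6) ℚ_[(p3 : ℕ)] - 1 =
          -J (Fin 6) ℚ_[(p3 : ℕ)] * (gp u p3 - 1)ᵀ * J (Fin 6) ℚ_[(p3 : ℕ)] := by
        rw [Matrix.transpose_sub, Matrix.transpose_one]
        have h3 : -J (Fin 6) ℚ_[(p3 : ℕ)] * ((gp u p3)ᵀ - 1) * J (Fin 6) ℚ_[(p3 : ℕ)]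
          = -J (Fin 6) ℚ_[(p3 : ℕ)] * (gp u p3)ᵀ * J (Fin 6) ℚ_[(p3 : ℕ)]
            + J (Fin 6) ℚ_[(p3 : ℕ)] * J (Fin 6) ℚ_[(p3 : ℕ)] := by noncomm_ring
        rw [h3, hJ2, sub_eq_add_neg]
      rw [this]
      exact Aord_adj hu2

theorem mem_UGrp {g : GA 6} : g ∈ UGrp ↔ g ∈ USet := Iff.rfl

theorem gp_integral_iff {n : ℕ} (g : GA n) :
    (∀ p i j, ‖gp g p i j‖ ≤ 1) ↔ ∀ i j, ((g : Mat n Adele) i j).2 ∈ OF := by
  constructor
  · intro h i j p
    exact h p i j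
  · intro h p i j
    exact h i j p

theorem isOpen_Aord : IsOpen Aord := by
  have : Aord = ⋂ i, ⋂ j, {M : Mat 6 ℚ_[(p3 : ℕ)] | ‖M i j‖ ≤ bd i j} := by
    ext M; simp [Aord]
  rw [this]
  refine isOpen_iInter_of_finite fun i => isOpen_iInter_of_finite fun j => ?_
  have h2 : {M : Mat 6 ℚ_[(p3 : ℕ)] | ‖M i j‖ ≤ bd i j} =
      (fun M : Mat 6 ℚ_[(p3 : ℕ)] => M i j) ⁻¹' (Metric.closedBall 0 (bd i j)) := by
    ext M; simp
  rw [h2]
  exact (IsUltrametricDist.isOpen_closedBall _ (bd_pos i j).ne').preimage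
    (continuous_id.matrix_elem i j)

theorem isOpen_USet : IsOpen USet := by
  have : USet = (⋂ i, ⋂ j, {g : GA 6 | ((g : Mat 6 Adele) i j).2 ∈ OF}) ∩
      {g : GA 6 | gp g p3 - 1 ∈ Aord} := by
    ext g
    simp only [USet, Set.mem_ofPred_eq, Set.mem_inter_iff, Set.mem_iInter]
    rw [gp_integral_iff]
  rw [this]
  refine IsOpen.inter ?_ ?_
  · refine isOpen_iInter_of_finite fun i => isOpen_iInter_of_finite fun j => ?_
    exact isOpen_OF.preimage (continuous_snd.comp (continuous_subtype_val.matrix_elem i j))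
  · exact isOpen_Aord.preimage ((continuous_gp p3).sub continuous_const)

theorem isClosed_USet : IsClosed USet :=
  Subgroup.isClosed_of_isOpen UGrp isOpen_USet


/-! ### the character `chi` -/

theorem iota3_add (x y : ℚ_[(p3 : ℕ)]) : iota3 (x + y) = iota3 x + iota3 y := by
  unfold iota3
  rw [RestrictedProduct.single_add, Prod.mk_add_mk, add_zero]

theorem iota3_zero : iota3 0 = 0 := by
  unfold iota3
  rw [RestrictedProduct.single_zero]
  rfl

theorem psi_iota3_of_le {ψ : AddChar Adele Circle} (hψ : IsStd ψ) {x : ℚ_[(p3 : ℕ)]}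
    (hx : ‖x‖ ≤ 1) : ψ (iota3 x) = 1 := by
  unfold iota3
  refine hψ.int _ fun p => ?_
  by_cases hp : p = p3
  · subst hp
    rw [RestrictedProduct.single_eq_same]
    exact hx
  · rw [RestrictedProduct.single_eq_of_ne _ _ hp]
    simp

theorem psi_iota3_add (ψ : AddChar Adele Circle) (x y : ℚ_[(p3 : ℕ)]) :
    ψ (iota3 (x + y)) = ψ (iota3 x) * ψ (iota3 y) := by
  rw [iota3_add, AddChar.map_add_eq_mul]

theorem continuous_psi_iota3 {ψ : AddChar Adele Circle} (hψ : IsStd ψ) :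
    Continuous fun x => ψ (iota3 x) := by
  rw [continuous_iff_continuousAt]
  intro x
  have h1 : ∀ᶠ y in 𝓝 x, ψ (iota3 x) = ψ (iota3 y) := by
    filter_upwards [Metric.closedBall_mem_nhds x one_pos] with y hy
    have h2 : y = x + (y - x) := by ring
    rw [h2, psi_iota3_add, psi_iota3_of_le hψ (x := y - x) (by rwa [mem_closedBall_iff_norm] at hy),
      mul_one]
  exact ContinuousAt.congr continuousAt_const h1

theorem continuous_chi {ψ : AddChar Adele Circle} (hψ : IsStd ψ) : Continuous (chi ψ) := by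
  have h1 : Continuous fun g : GA 6 => Matrix.trace (X3 * (gp g p3 - 1)) :=
    (continuous_const.matrix_mul ((continuous_gp p3).sub continuous_const)).matrix_trace
  exact (continuous_psi_iota3 hψ).comp h1

theorem norm_nine : ‖((1 / 9 : ℚ) : ℚ_[(p3 : ℕ)])‖ = 9 := by
  have h : ((1 / 9 : ℚ) : ℚ_[(p3 : ℕ)]) = ((3 : ℚ_[(p3 : ℕ)]) ^ 2)⁻¹ := by
    push_cast
    norm_num
  have h3 : ‖(3 : ℚ_[(p3 : ℕ)])‖ = 3⁻¹ := by
    have := Padic.norm_p (p := 3)
    simpa using this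
  rw [h, norm_inv, norm_pow, h3]
  norm_num

theorem norm_three : ‖((1 / 3 : ℚ) : ℚ_[(p3 : ℕ)])‖ = 3 := by
  have h3 : ‖(3 : ℚ_[(p3 : ℕ)])‖ = 3⁻¹ := by
    have := Padic.norm_p (p := 3)
    simpa using this
  push_cast
  rw [norm_div, norm_one, h3]
  norm_num

theorem X3_inl_inr (i j : Fin 6) : ‖X3 (Sum.inl i) (Sum.inr j)‖ ≤ 9 := by
  have h : X3 (Sum.inl i) (Sum.inr j) =
      ((1 / 9 : ℚ) : ℚ_[(p3 : ℕ)]) * ((S2 i j : ℤ) : ℚ_[(p3 : ℕ)]) := by
    simp [X3, Xq]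
  rw [h, norm_mul, norm_nine]
  have := Padic.norm_int_le_one (p := (p3 : ℕ)) (S2 i j)
  nlinarith

theorem X3_inr_inl (i j : Fin 6) : ‖X3 (Sum.inr i) (Sum.inl j)‖ ≤ 3 := by
  have h : X3 (Sum.inr i) (Sum.inl j) =
      ((1 / 3 : ℚ) : ℚ_[(p3 : ℕ)]) * ((S1 i j : ℤ) : ℚ_[(p3 : ℕ)]) := by
    simp [X3, Xq]
  rw [h, norm_mul, norm_three]
  have := Padic.norm_int_le_one (p := (p3 : ℕ)) (S1 i j)
  nlinarith

theorem X3_inl_inl (i j : Fin 6) : X3 (Sum.inl i) (Sum.inl j) = 0 := by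
  simp [X3, Xq]

theorem X3_inr_inr (i j : Fin 6) : X3 (Sum.inr i) (Sum.inr j) = 0 := by
  simp [X3, Xq]

theorem norm_mul3_le {a b c : ℚ_[(p3 : ℕ)]} {x y z : ℝ} (ha : ‖a‖ ≤ x) (hb : ‖b‖ ≤ y)
    (hc : ‖c‖ ≤ z) (h : x * (y * z) ≤ 1) : ‖a * (b * c)‖ ≤ 1 := by
  rw [norm_mul, norm_mul]
  have hx : 0 ≤ x := (norm_nonneg _).trans ha
  have hy : 0 ≤ y := (norm_nonneg _).trans hb
  refine le_trans ?_ h
  exact mul_le_mul ha (mul_le_mul hb hc (norm_nonneg _) hy) (by positivity) hx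

theorem norm_trace_X3_mul {M N : Mat 6 ℚ_[(p3 : ℕ)]} (hM : M ∈ Aord) (hN : N ∈ Aord) :
    ‖Matrix.trace (X3 * (M * N))‖ ≤ 1 := by
  rw [Matrix.trace]
  refine padic_sum_le _ _ zero_le_one fun i _ => ?_
  rw [Matrix.diag_apply, Matrix.mul_apply]
  refine padic_sum_le _ _ zero_le_one fun j _ => ?_
  rw [Matrix.mul_apply, Finset.mul_sum]
  refine padic_sum_le _ _ zero_le_one fun k _ => ?_
  rcases i with i | i <;> rcases j with j | j
  · rw [X3_inl_inl, zero_mul, norm_zero]; exact zero_le_one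
  · rcases k with k | k
    · exact norm_mul3_le (X3_inl_inr i j) (hM _ _) (hN _ _) (by norm_num [bd])
    · exact norm_mul3_le (X3_inl_inr i j) (hM _ _) (hN _ _) (by norm_num [bd])
  · rcases k with k | k
    · exact norm_mul3_le (X3_inr_inl i j) (hM _ _) (hN _ _) (by norm_num [bd])
    · exact norm_mul3_le (X3_inr_inl i j) (hM _ _) (hN _ _) (by norm_num [bd])
  · rw [X3_inr_inr, zero_mul, norm_zero]; exact zero_le_one

theorem chi_one (ψ : AddChar Adele Circle) : chi ψ 1 = 1 := by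
  unfold chi
  rw [gp_one, sub_self, Matrix.mul_zero, Matrix.trace_zero, iota3_zero, AddChar.map_zero_eq_one]

theorem chi_mul {ψ : AddChar Adele Circle} (hψ : IsStd ψ) {u v : GA 6} (hu : u ∈ USet)
    (hv : v ∈ USet) : chi ψ (u * v) = chi ψ u * chi ψ v := by
  unfold chi
  have h1 : gp (u * v) p3 - 1 =
      (gp u p3 - 1) * (gp v p3 - 1) + ((gp u p3 - 1) + (gp v p3 - 1)) := by
    rw [gp_mul]; noncomm_ring
  rw [h1, Matrix.mul_add, Matrix.mul_add, Matrix.trace_add, Matrix.trace_add, psi_iota3_add,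
    psi_iota3_add, psi_iota3_of_le hψ (norm_trace_X3_mul hu.2 hv.2), one_mul]

theorem chi_inv {ψ : AddChar Adele Circle} (hψ : IsStd ψ) {u : GA 6} (hu : u ∈ USet) :
    chi ψ u⁻¹ = (chi ψ u)⁻¹ := by
  have h := chi_mul hψ hu (UGrp.inv_mem hu)
  rw [mul_inv_cancel, chi_one] at h
  exact eq_inv_of_mul_eq_one_right h.symm

/-! ### the kernel `h = b chi⁻¹ 1_U` -/

/-- real component of `Sp_12(𝔸)` -/
def spR (g : GA 6) : Matrix.symplecticGroup (Fin 6) ℝ := spMap 6 evR g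

theorem spR_mul (g g' : GA 6) : spR (g * g') = spR g * spR g' := map_mul _ _ _

theorem spR_one : spR 1 = 1 := map_one _

theorem spR_inv (g : GA 6) : spR g⁻¹ = (spR g)⁻¹ := map_inv (spMap 6 evR) g

theorem continuous_spR : Continuous spR := continuous_spMap _ continuous_evR

open Classical in
/-- `h(y) = b(y_∞) chi(y)⁻¹ 1_U(y)` -/
def ker (ψ : AddChar Adele Circle) (b : Matrix.symplecticGroup (Fin 6) ℝ → ℝ) (y : GA 6) : ℂ :=
  if y ∈ USet then (b (spR y) : ℂ) * (((chi ψ y)⁻¹ : Circle) : ℂ) else 0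

theorem ker_of_mem (ψ : AddChar Adele Circle) (b : Matrix.symplecticGroup (Fin 6) ℝ → ℝ)
    {y : GA 6} (hy : y ∈ USet) :
    ker ψ b y = (b (spR y) : ℂ) * (((chi ψ y)⁻¹ : Circle) : ℂ) := if_pos hy

theorem ker_of_notMem (ψ : AddChar Adele Circle) (b : Matrix.symplecticGroup (Fin 6) ℝ → ℝ)
    {y : GA 6} (hy : y ∉ USet) : ker ψ b y = 0 := if_neg hy

theorem ker_one (ψ : AddChar Adele Circle) (b : Matrix.symplecticGroup (Fin 6) ℝ → ℝ) :
    ker ψ b 1 = (b 1 : ℂ) := by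
  rw [ker_of_mem ψ b UGrp.one_mem, chi_one, spR_one]
  simp

theorem continuous_ker {ψ : AddChar Adele Circle} (hψ : IsStd ψ)
    {b : Matrix.symplecticGroup (Fin 6) ℝ → ℝ} (hb : Continuous b) : Continuous (ker ψ b) := by
  have h1 : Continuous fun y : GA 6 => (b (spR y) : ℂ) * (((chi ψ y)⁻¹ : Circle) : ℂ) := by
    refine Continuous.mul ?_ ?_
    · exact Complex.continuous_ofReal.comp (hb.comp continuous_spR)
    · exact continuous_induced_dom.comp (continuous_chi hψ).inv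
  classical
  refine continuous_iff_continuousAt.mpr fun y => ?_
  by_cases hy : y ∈ USet
  · refine h1.continuousAt.congr ?_
    filter_upwards [isOpen_USet.mem_nhds hy] with z hz
    rw [ker_of_mem ψ b hz]
  · refine (continuousAt_const (y := (0 : ℂ))).congr ?_
    filter_upwards [isClosed_USet.isOpen_compl.mem_nhds hy] with z hz
    rw [ker_of_notMem ψ b hz]

/-- the part of `U` over a compact set is compact -/
theorem isCompact_U_inter {K : Set (Matrix.symplecticGroup (Fin 6) ℝ)} (hK : IsCompact K) :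
    IsCompact (USet ∩ spR ⁻¹' K) := by
  refine isCompact_box K hK _ (isClosed_USet.inter (hK.isClosed.preimage continuous_spR)) ?_ ?_
  · intro g hg
    exact (gp_integral_iff g).mp hg.1.1
  · intro g hg
    exact hg.2

theorem hasCompactSupport_ker (ψ : AddChar Adele Circle)
    {b : Matrix.symplecticGroup (Fin 6) ℝ → ℝ} (hb : HasCompactSupport b) :
    HasCompactSupport (ker ψ b) := by
  refine HasCompactSupport.intro (isCompact_U_inter hb.isCompact) fun y hy => ?_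
  by_cases h1 : y ∈ USet
  · rw [ker_of_mem ψ b h1]
    have h2 : spR y ∉ tsupport b := fun h2 => hy ⟨h1, h2⟩
    rw [image_eq_zero_of_notMem_tsupport h2]
    simp
  · exact ker_of_notMem ψ b h1

theorem support_ker_subset (ψ : AddChar Adele Circle)
    (b : Matrix.symplecticGroup (Fin 6) ℝ → ℝ) :
    Function.support (ker ψ b) ⊆ USet ∩ spR ⁻¹' (Function.support b) := by
  intro y hy
  by_cases h1 : y ∈ USet
  · refine ⟨h1, ?_⟩
    intro h2
    rw [Function.mem_support, ker_of_mem ψ b h1, h2] at hy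
    simp at hy
  · exact absurd (ker_of_notMem ψ b h1) hy

theorem ker_inv {ψ : AddChar Adele Circle} (hψ : IsStd ψ)
    {b : Matrix.symplecticGroup (Fin 6) ℝ → ℝ} (hb : ∀ g, b g⁻¹ = b g) (y : GA 6) :
    ker ψ b y⁻¹ = starRingEnd ℂ (ker ψ b y) := by
  by_cases h1 : y ∈ USet
  · rw [ker_of_mem ψ b h1, ker_of_mem ψ b (UGrp.inv_mem h1), spR_inv, hb, chi_inv hψ h1, map_mul,
      Complex.conj_ofReal, inv_inv, Circle.coe_inv_eq_conj, Complex.conj_conj]
  · have h2 : y⁻¹ ∉ USet := fun h2 => h1 (by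
      have h3 := UGrp.inv_mem (show y⁻¹ ∈ UGrp from h2)
      rwa [inv_inv] at h3)
    rw [ker_of_notMem ψ b h1, ker_of_notMem ψ b h2, map_zero]

theorem mul_mem_USet_iff {u y : GA 6} (hu : u ∈ USet) : u * y ∈ USet ↔ y ∈ USet :=
  UGrp.mul_mem_cancel_left hu

theorem mul_mem_USet_iff' {u y : GA 6} (hu : u ∈ USet) : y * u ∈ USet ↔ y ∈ USet :=
  UGrp.mul_mem_cancel_right hu

/-- left equivariance -/
theorem ker_mul_left {ψ : AddChar Adele Circle} (hψ : IsStd ψ)
    (b : Matrix.symplecticGroup (Fin 6) ℝ → ℝ) {u : GA 6} (hu : u ∈ USet) (y : GA 6) :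
    ker ψ b (u * y) = (((chi ψ u)⁻¹ : Circle) : ℂ) * ker ψ (fun z => b (spR u * z)) y := by
  by_cases h1 : y ∈ USet
  · rw [ker_of_mem ψ _ h1, ker_of_mem ψ b ((mul_mem_USet_iff hu).mpr h1), chi_mul hψ hu h1, spR_mul,
      mul_inv, Circle.coe_mul]
    ring
  · rw [ker_of_notMem ψ _ h1, ker_of_notMem ψ b (fun h => h1 ((mul_mem_USet_iff hu).mp h)), mul_zero]

theorem ker_mul_right {ψ : AddChar Adele Circle} (hψ : IsStd ψ)
    (b : Matrix.symplecticGroup (Fin 6) ℝ → ℝ) {u : GA 6} (hu : u ∈ USet) (y : GA 6) :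
    ker ψ b (y * u) = (((chi ψ u)⁻¹ : Circle) : ℂ) * ker ψ (fun z => b (z * spR u)) y := by
  by_cases h1 : y ∈ USet
  · rw [ker_of_mem ψ _ h1, ker_of_mem ψ b ((mul_mem_USet_iff' hu).mpr h1), chi_mul hψ h1 hu, spR_mul,
      mul_inv, Circle.coe_mul]
    ring
  · rw [ker_of_notMem ψ _ h1, ker_of_notMem ψ b (fun h => h1 ((mul_mem_USet_iff' hu).mp h)), mul_zero]

/-- equivariance under the elements of `U` with trivial real component -/
theorem ker_mul_left_of_spR {ψ : AddChar Adele Circle} (hψ : IsStd ψ)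
    (b : Matrix.symplecticGroup (Fin 6) ℝ → ℝ) {u : GA 6} (hu : u ∈ USet) (hR : spR u = 1)
    (y : GA 6) : ker ψ b (u * y) = (((chi ψ u)⁻¹ : Circle) : ℂ) * ker ψ b y := by
  rw [ker_mul_left hψ b hu, hR]
  simp

/-- product of two values: the phase of section 7 -/
theorem ker_mul_conj {ψ : AddChar Adele Circle} (hψ : IsStd ψ)
    (b : Matrix.symplecticGroup (Fin 6) ℝ → ℝ) {a c : GA 6} (ha : a ∈ USet) (hc : c ∈ USet) :
    ker ψ b a * starRingEnd ℂ (ker ψ b c) =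
      ((b (spR a) * b (spR c) : ℝ) : ℂ) * ((chi ψ (c * a⁻¹) : Circle) : ℂ) := by
  rw [ker_of_mem ψ b ha, ker_of_mem ψ b hc, map_mul, Complex.conj_ofReal,
    ← Circle.coe_inv_eq_conj, inv_inv, chi_mul hψ hc (UGrp.inv_mem ha), chi_inv hψ ha,
    Circle.coe_mul]
  push_cast
  ring

theorem ker_mul_conj' {ψ : AddChar Adele Circle} (hψ : IsStd ψ)
    (b : Matrix.symplecticGroup (Fin 6) ℝ → ℝ) {a c : GA 6}
    (h : ker ψ b a * starRingEnd ℂ (ker ψ b c) ≠ 0) :
    a ∈ USet ∧ c ∈ USet ∧ c * a⁻¹ ∈ USet ∧ spR a ∈ Function.support b ∧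
      spR c ∈ Function.support b := by
  have h1 : ker ψ b a ≠ 0 := fun h1 => h (by rw [h1, zero_mul])
  have h2 : ker ψ b c ≠ 0 := fun h2 => h (by rw [h2, map_zero, mul_zero])
  have h3 := support_ker_subset ψ b h1
  have h4 := support_ker_subset ψ b h2
  exact ⟨h3.1, h4.1, UGrp.mul_mem h4.1 (UGrp.inv_mem h3.1), h3.2, h4.2⟩

open scoped Pointwise in
/-- uniform continuity of `b` under small left translations, with uniform compact support -/
theorem exists_nhds_translate {G : Type*} [Group G] [TopologicalSpace G] [IsTopologicalGroup G]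
    [LocallyCompactSpace G] {b : G → ℝ} (hb : Continuous b) (hc : HasCompactSupport b) {ε : ℝ}
    (hε : 0 < ε) : ∃ W ∈ 𝓝 (1 : G), ∀ u ∈ W, ∀ z, |b (u * z) - b z| ≤ ε := by
  obtain ⟨B, hB, hB1⟩ := exists_compact_mem_nhds (1 : G)
  have hB2 : B⁻¹ ∈ 𝓝 (1 : G) := inv_mem_nhds_one G hB1
  have hK : IsCompact (B * tsupport b) := hB.mul hc
  have hK1 : ∀ᶠ u in 𝓝 (1 : G), ∀ z ∈ B * tsupport b, |b (u * z) - b z| < ε := by
    refine hK.eventually_forall_of_forall_eventually fun z _ => ?_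
    have h1 : Continuous fun p : G × G => |b (p.1 * p.2) - b p.2| := by fun_prop
    have h2 : |b ((1 : G) * z) - b z| < ε := by simpa using hε
    exact h1.continuousAt.eventually_lt continuousAt_const h2
  refine ⟨_, Filter.inter_mem hK1 hB2, ?_⟩
  rintro u ⟨hu1, hu2⟩ z
  by_cases hz : z ∈ B * tsupport b
  · exact (hu1 z hz).le
  · have h3 : b z = 0 := by
      refine image_eq_zero_of_notMem_tsupport fun h => hz ?_
      exact ⟨1, mem_of_mem_nhds hB1, z, h, one_mul z⟩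
    have h4 : b (u * z) = 0 := by
      refine image_eq_zero_of_notMem_tsupport fun h => hz ?_
      refine ⟨u⁻¹, hu2, u * z, h, ?_⟩
      simp
    rw [h3, h4]
    simpa using hε.le

open scoped Pointwise in
/-- the cusp estimate for the kernel: for `u ∈ U` with small real component, `h(u y)` and
`chi(u)⁻¹ h(y)` are uniformly close, and their difference lives on a fixed compact set -/
theorem exists_cusp {ψ : AddChar Adele Circle} (hψ : IsStd ψ)
    {b : Matrix.symplecticGroup (Fin 6) ℝ → ℝ} (hb : Continuous b) (hc : HasCompactSupport b) :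
    ∃ C : Set (GA 6), IsCompact C ∧ ∀ ε : ℝ, 0 < ε →
      ∃ W ∈ 𝓝 (1 : Matrix.symplecticGroup (Fin 6) ℝ), ∀ u ∈ USet, spR u ∈ W → ∀ y : GA 6,
        ‖ker ψ b (u * y) - (((chi ψ u)⁻¹ : Circle) : ℂ) * ker ψ b y‖ ≤ C.indicator (fun _ => ε) y := by
  obtain ⟨B, hB, hB1⟩ := exists_compact_mem_nhds (1 : Matrix.symplecticGroup (Fin 6) ℝ)
  have hK : IsCompact (B * tsupport b) := hB.mul hc
  refine ⟨USet ∩ spR ⁻¹' (B * tsupport b), isCompact_U_inter hK, fun ε hε => ?_⟩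
  obtain ⟨W, hW, hW1⟩ := exists_nhds_translate hb hc hε
  have hB2 : B⁻¹ ∈ 𝓝 (1 : Matrix.symplecticGroup (Fin 6) ℝ) := inv_mem_nhds_one _ hB1
  refine ⟨_, Filter.inter_mem hW hB2, ?_⟩
  rintro u hu ⟨hu1, hu2⟩ y
  rw [ker_mul_left hψ b hu, ← mul_sub, norm_mul, Circle.norm_coe, one_mul]
  by_cases hy : y ∈ USet
  · rw [ker_of_mem ψ _ hy, ker_of_mem ψ _ hy, ← sub_mul, norm_mul, Circle.norm_coe, mul_one,
      ← Complex.ofReal_sub, Complex.norm_real, Real.norm_eq_abs]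
    by_cases hy2 : spR y ∈ B * tsupport b
    · rw [Set.indicator_of_mem (show y ∈ USet ∩ spR ⁻¹' (B * tsupport b) from ⟨hy, hy2⟩)]
      exact hW1 _ hu1 _
    · have h3 : b (spR y) = 0 := by
        refine image_eq_zero_of_notMem_tsupport fun h => hy2 ?_
        exact ⟨1, mem_of_mem_nhds hB1, spR y, h, one_mul _⟩
      have h4 : b (spR u * spR y) = 0 := by
        refine image_eq_zero_of_notMem_tsupport fun h => hy2 ?_
        refine ⟨(spR u)⁻¹, hu2, spR u * spR y, h, ?_⟩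
        simp
      rw [Set.indicator_of_notMem (fun h => hy2 h.2), h3, h4]
      simp
  · rw [Set.indicator_of_notMem (fun h => hy h.1), ker_of_notMem ψ _ hy, ker_of_notMem ψ _ hy]
    simp

end Pool.Agent.FC.ResM
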