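import Mathlib
import Pool.Agent.FC.FundDom

/-!
# FC-RhoA: a finite invariant measure on `G ⧸ Γ`, `Γ` discrete and cocompact
-/

set_option autoImplicit false

open Topology Filter Set MeasureTheory Pointwise
open scoped NNReal ENNReal

namespace Pool.Agent.FC

section abstract

variable {G : Type*} [Group G] [TopologicalSpace G] [IsTopologicalGroup G] [T2Space G]
  [LocallyCompactSpace G] [SecondCountableTopology G]

/-- if `G ⧸ Γ` is compact there is a compact set of representatives -/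
theorem exists_compact_cover (Γ : Subgroup G) [CompactSpace (G ⧸ Γ)] :
    ∃ C : Set G, IsCompact C ∧ ∀ x : G, ∃ γ ∈ Γ, x * γ ∈ C := by
  have h1 : ∀ x : G, ∃ K : Set G, IsCompact K ∧ x ∈ interior K := fun x => by
    obtain ⟨K, hK, hx⟩ := exists_compact_mem_nhds x
    exact ⟨K, hK, mem_interior_iff_mem_nhds.2 hx⟩
  choose K hK hxK using h1
  have h2 : (univ : Set (G ⧸ Γ)) ⊆ ⋃ x : G, (QuotientGroup.mk : G → G ⧸ Γ) '' interior (K x) := by
    intro y _
    obtain ⟨x, rfl⟩ := QuotientGroup.mk_surjective y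
    exact mem_iUnion.2 ⟨x, x, hxK x, rfl⟩
  obtain ⟨t, ht⟩ := isCompact_univ.elim_finite_subcover _
    (fun x => QuotientGroup.isOpenMap_coe _ isOpen_interior) h2
  refine ⟨⋃ x ∈ t, K x, t.isCompact_biUnion fun x _ => hK x, fun x => ?_⟩
  obtain ⟨y, hy⟩ := mem_iUnion.1 (ht (mem_univ (QuotientGroup.mk x)))
  obtain ⟨hyt, z, hz, hzx⟩ := mem_iUnion.1 hy
  refine ⟨x⁻¹ * z, ?_, ?_⟩
  · exact (QuotientGroup.eq.1 hzx.symm)
  · rw [mul_inv_cancel_left]
    exact mem_biUnion hyt (interior_subset hz)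

theorem exists_invariant (Γ : Subgroup G) [DiscreteTopology Γ] [CompactSpace (G ⧸ Γ)]
    [MeasurableSpace (G ⧸ Γ)] [BorelSpace (G ⧸ Γ)] :
    ∃ ρ : Measure (G ⧸ Γ), ρ ≠ 0 ∧ IsFiniteMeasure ρ ∧ SMulInvariantMeasure G (G ⧸ Γ) ρ := by
  borelize G
  have hcount : Countable Γ := by
    have : SecondCountableTopology Γ := inferInstance
    exact countable_of_Lindelof_of_discrete
  set μ : Measure G := (Measure.haar : Measure G).inv with hμ
  -- left translates of `μ`
  have hleft : ∀ c : G, ∃ κ : ℝ≥0, Measure.map (fun x => c * x) μ = κ • μ := by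
    intro c
    refine ⟨Measure.modularCharacterFun c⁻¹, ?_⟩
    have h1 := Measure.map_right_mul_eq_modularCharacterFun_smul (Measure.haar : Measure G) c⁻¹
    rw [hμ, Measure.inv, Measure.map_map (by fun_prop) (by fun_prop)]
    have h2 : ((fun x => c * x) ∘ Inv.inv) = (Inv.inv : G → G) ∘ (fun x => x * c⁻¹) := by
      ext x; simp
    rw [h2, ← Measure.map_map (by fun_prop) (by fun_prop), h1, Measure.map_smul]
  obtain ⟨F, hF, hFu⟩ := exists_fundDom Γ
  have hdom : ∀ c : G, IsFundamentalDomain Γ.op ((fun x => c * x) ⁻¹' F) μ := by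
    intro c
    refine IsFundamentalDomain.mk' (((measurable_const_mul c) hF).nullMeasurableSet) fun y => ?_
    obtain ⟨γ, hγ, huniq⟩ := hFu (c * y)
    refine ⟨⟨MulOpposite.op (γ : G), γ.2⟩, ?_, ?_⟩
    · change c * (y * γ) ∈ F
      rw [← mul_assoc]; exact hγ
    · rintro ⟨δ, hδ⟩ hδF
      have hδF' : c * (y * δ.unop) ∈ F := hδF
      rw [← mul_assoc] at hδF'
      have h2 := huniq ⟨δ.unop, hδ⟩ hδF'
      apply Subtype.ext
      apply MulOpposite.unop_injective
      exact congrArg Subtype.val h2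
  have hF1 : IsFundamentalDomain Γ.op F μ := by
    have := hdom 1
    simpa using this
  -- `F` has finite positive measure
  obtain ⟨C, hC, hCc⟩ := exists_compact_cover Γ
  have hCfin : μ C < ∞ := by
    rw [hμ, Measure.inv_apply]
    exact hC.inv.measure_lt_top
  have hFfin : μ F < ∞ := by
    refine lt_of_le_of_lt ?_ hCfin
    rw [hF1.measure_eq_tsum C]
    refine le_trans (measure_mono ?_) (measure_iUnion_le _)
    intro x hx
    obtain ⟨γ, hγ, hxγ⟩ := hCc x
    refine mem_iUnion.2 ⟨⟨MulOpposite.op γ, hγ⟩⁻¹, ?_, hx⟩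
    rw [mem_smul_set_iff_inv_smul_mem, inv_inv]
    exact hxγ
  have hFpos : μ F ≠ 0 := by
    intro h0
    have h1 : μ univ = 0 := by
      rw [hF1.measure_eq_tsum univ]
      refine ENNReal.tsum_eq_zero.2 fun g => measure_mono_null inter_subset_right h0
    rw [hμ, Measure.inv_apply, inv_univ] at h1
    exact Measure.measure_univ_ne_zero.2 (NeZero.ne (Measure.haar : Measure G)) h1
  -- the measure
  have hmk : Measurable (QuotientGroup.mk : G → G ⧸ Γ) := QuotientGroup.continuous_mk.measurable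
  have hρ : ∀ s : Set (G ⧸ Γ), MeasurableSet s →
      Measure.map (QuotientGroup.mk : G → G ⧸ Γ) (μ.restrict F) s = μ (QuotientGroup.mk ⁻¹' s ∩ F) := by
    intro s hs
    rw [Measure.map_apply hmk hs, Measure.restrict_apply (hmk hs)]
  have hinv : ∀ A : Set G, MeasurableSet A → (∀ (x : G) (γ : Γ), x ∈ A ↔ x * γ ∈ A) → ∀ c : G,
      μ ((fun x => c * x) ⁻¹' A ∩ F) = μ (A ∩ F) := by
    intro A hA hAi c
    obtain ⟨κ, hκ⟩ := hleft c
    have key : ∀ A : Set G, MeasurableSet A → (∀ (x : G) (γ : Γ), x ∈ A ↔ x * γ ∈ A) →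
        μ ((fun x => c * x) ⁻¹' A ∩ F) = κ * μ (A ∩ F) := by
      intro A hA hAi
      have e1 : (fun x => c * x) ⁻¹' A ∩ F =
          (fun x => c * x) ⁻¹' (A ∩ (fun x => c⁻¹ * x) ⁻¹' F) := by
        ext x; simp
      have e2 : μ (A ∩ (fun x => c⁻¹ * x) ⁻¹' F) = μ (A ∩ F) := by
        refine (hdom c⁻¹).measure_set_eq hF1 hA fun g => ?_
        ext x
        exact (hAi x ⟨g.1.unop, g.2⟩).symm
      rw [e1, ← Measure.map_apply (by fun_prop) (hA.inter ((measurable_const_mul c⁻¹) hF)), hκ,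
        Measure.smul_apply, e2]
      rfl
    have h1 := key univ MeasurableSet.univ (by simp)
    rw [preimage_univ, univ_inter] at h1
    have h2 : (κ : ℝ≥0∞) = 1 := by
      have h3 : 1 * μ F = κ * μ F := by rw [one_mul]; exact h1
      exact ((ENNReal.mul_left_inj hFpos hFfin.ne).1 h3).symm
    rw [key A hA hAi, h2, one_mul]
  refine ⟨Measure.map QuotientGroup.mk (μ.restrict F), ?_, ?_, ?_⟩
  · intro h0
    have := hρ univ MeasurableSet.univ
    rw [h0, preimage_univ, univ_inter] at this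
    exact hFpos this.symm
  · refine ⟨?_⟩
    rw [hρ univ MeasurableSet.univ, preimage_univ, univ_inter]
    exact hFfin
  · refine ⟨fun c s hs => ?_⟩
    have hs' : MeasurableSet ((fun x : G ⧸ Γ => c • x) ⁻¹' s) := (measurable_const_smul c) hs
    rw [hρ s hs, hρ _ hs']
    exact hinv (QuotientGroup.mk ⁻¹' s) (hmk hs) (fun x γ => by
      simp [QuotientGroup.mk_mul_of_mem]) c

end abstract

end Pool.Agent.FC
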