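import Pool.Agent.FC.Defs
import Pool.Agent.FC.AdeleSp
import Pool.Agent.FC.RhoA

/-!
# FC-Rho: `V(𝔸)`, its character and the invariant measure on `V(𝔸)/V(ℚ)`
-/

set_option autoImplicit false

open RestrictedProduct Matrix MeasureTheory Topology Pointwise

noncomputable section

namespace Pool.Agent.FC

/-! ### traces -/

theorem isUnit_intCast_adele {j : ℤ} (hj : j ≠ 0) : IsUnit ((j : ℤ) : Adele) := by
  have h1 : IsUnit ((j : ℤ) : ℚ) := (Int.cast_ne_zero.2 hj).isUnit
  have h2 := h1.map ratAdele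
  rwa [map_intCast] at h2

theorem trace_eq_zero_of_adGE {n : ℕ} {R : Type*} [CommRing R]
    (hR : ∀ j : ℤ, j ≠ 0 → IsUnit ((j : ℤ) : R)) {h : Mat n R} {i : ℤ} (hi : 0 < i) {X : Mat n R}
    (hX : X ∈ adGE h i) : Matrix.trace X = 0 := by
  induction hX using Submodule.span_induction with
  | mem X hX =>
    obtain ⟨j, hj, hX⟩ := hX
    have h1 := congrArg Matrix.trace hX
    rw [Matrix.trace_sub, Matrix.trace_mul_comm h X, sub_self, Matrix.trace_smul, smul_eq_mul] at h1
    exact ((hR j (by omega)).mul_right_eq_zero).1 h1.symm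
  | zero => exact Matrix.trace_zero _ _
  | add X Y _ _ h1 h2 => rw [Matrix.trace_add, h1, h2, add_zero]
  | smul c X _ h1 => rw [Matrix.trace_smul, h1, smul_zero]

namespace Triple

variable {n : ℕ} (T : Triple n)

theorem f_mem_adGE : T.f.map ratAdele ∈ adGE (T.h.map ratAdele) (-2) := by
  refine Submodule.subset_span ⟨-2, le_refl _, ?_⟩
  have h1 : (T.h * T.f - T.f * T.h).map ratAdele = (-(2 • T.f)).map ratAdele := by rw [T.hf]
  rw [Matrix.map_sub _ (map_sub ratAdele), Matrix.map_mul, Matrix.map_mul] at h1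
  rw [h1]
  ext1 i j
  rw [Matrix.map_apply, Matrix.neg_apply, Matrix.smul_apply, Matrix.smul_apply, Matrix.map_apply,
    map_neg, map_nsmul, smul_eq_mul, nsmul_eq_mul]
  push_cast
  ring

theorem mem_VA {v : GA n} : v ∈ T.VA ↔ (v : Mat n Adele) - 1 ∈ adGE (T.h.map ratAdele) 2 := Iff.rfl

theorem char_eq (ψ : AddChar Adele Circle) (v : GA n) : T.char ψ v =
    ((ψ (Matrix.trace (T.f.map ratAdele * ((v : Mat n Adele) - 1))) : Circle) : ℂ) := rfl

theorem char_mul (ψ : AddChar Adele Circle) {u v : GA n} (hu : u ∈ T.VA) (hv : v ∈ T.VA) :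
    T.char ψ (u * v) = T.char ψ u * T.char ψ v := by
  have h1 : ((u * v : GA n) : Mat n Adele) - 1
      = ((u : Mat n Adele) - 1) * ((v : Mat n Adele) - 1) + ((u : Mat n Adele) - 1) +
        ((v : Mat n Adele) - 1) := by
    rw [Submonoid.coe_mul]; noncomm_ring
  have h2 : Matrix.trace (T.f.map ratAdele * (((u : Mat n Adele) - 1) * ((v : Mat n Adele) - 1))) = 0 :=
    trace_eq_zero_of_adGE (i := -2 + (2 + 2)) (fun j hj => isUnit_intCast_adele hj) (by norm_num)
      (adGE_mul T.f_mem_adGE (adGE_mul hu hv))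
  rw [char_eq, char_eq, char_eq, h1, Matrix.mul_add, Matrix.mul_add, Matrix.trace_add,
    Matrix.trace_add, h2, zero_add, AddChar.map_add_eq_mul, Circle.coe_mul]

theorem char_one (ψ : AddChar Adele Circle) : T.char ψ 1 = 1 := by
  rw [char_eq]; simp

theorem norm_char (ψ : AddChar Adele Circle) (v : GA n) : ‖T.char ψ v‖ = 1 := Circle.norm_coe _

theorem char_of_mem_GQ {ψ : AddChar Adele Circle} (hψ : ∀ q : ℚ, ψ (ratAdele q) = 1) {q : GA n}
    (hq : q ∈ GQ n) : T.char ψ q = 1 := by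
  obtain ⟨g, rfl⟩ := hq
  have h1 : ((spMap n ratAdele g : GA n) : Mat n Adele) - 1 = ((g : Mat n ℚ) - 1).map ratAdele := by
    rw [Matrix.map_sub _ (map_sub ratAdele), Matrix.map_one _ (map_zero _) (map_one _)]
    rfl
  have h2 : Matrix.trace (T.f.map ratAdele * ((g : Mat n ℚ) - 1).map ratAdele) =
      ratAdele (Matrix.trace (T.f * ((g : Mat n ℚ) - 1))) := by
    rw [← Matrix.map_mul]
    simp only [Matrix.trace, Matrix.diag, map_sum, Matrix.map_apply]
  rw [char_eq, h1, h2, hψ, Circle.coe_one]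

theorem char_mul_GQ {ψ : AddChar Adele Circle} (hψ : ∀ q : ℚ, ψ (ratAdele q) = 1) {v q : GA n}
    (hv : v ∈ T.VA) (hq : q ∈ T.VA) (hq' : q ∈ GQ n) : T.char ψ (v * q) = T.char ψ v := by
  rw [T.char_mul ψ hv hq, T.char_of_mem_GQ hψ hq', mul_one]

theorem char_inv (ψ : AddChar Adele Circle) {v : GA n} (hv : v ∈ T.VA) :
    T.char ψ v⁻¹ = (starRingEnd ℂ) (T.char ψ v) := by
  have h1 : T.char ψ v⁻¹ * T.char ψ v = 1 := by
    rw [← T.char_mul ψ (T.VA.inv_mem hv) hv, inv_mul_cancel, char_one]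
  have h2 : (starRingEnd ℂ) (T.char ψ v) * T.char ψ v = 1 := by
    rw [mul_comm, Complex.mul_conj, Complex.normSq_eq_norm_sq, T.norm_char]
    norm_num
  have h3 : T.char ψ v ≠ 0 := by
    intro h
    have := T.norm_char ψ v
    rw [h, norm_zero] at this
    exact zero_ne_one this
  exact mul_right_cancel₀ h3 (h1.trans h2.symm)

theorem continuous_char {ψ : AddChar Adele Circle} (hψ : Continuous ψ) :
    Continuous (fun v : GA n => T.char ψ v) := by
  have h1 : Continuous (fun v : GA n => Matrix.trace (T.f.map ratAdele * ((v : Mat n Adele) - 1))) :=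
    (continuous_const.matrix_mul (continuous_subtype_val.sub continuous_const)).matrix_trace
  exact continuous_subtype_val.comp (hψ.comp h1)

/-! ### topology -/

/-- every subset of `GQ n` is closed in `GA n` -/
theorem isClosed_of_subset_GQ {S : Set (GA n)} (hS : S ⊆ (GQ n : Set (GA n))) : IsClosed S := by
  have h1 : IsClosed ((GQ n : Subgroup (GA n)) : Set (GA n)) := Subgroup.isClosed_of_discrete
  have h3 : DiscreteTopology ((GQ n : Subgroup (GA n)) : Set (GA n)) :=
    inferInstanceAs (DiscreteTopology (GQ n))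
  have h2 : IsClosed ((Subtype.val : GQ n → GA n) '' {x | (x : GA n) ∈ S}) :=
    h1.isClosedEmbedding_subtypeVal.isClosedMap _ (isClosed_discrete _)
  convert h2 using 1
  ext x
  constructor
  · intro hx
    exact ⟨⟨x, hS hx⟩, hx, rfl⟩
  · rintro ⟨y, hy, rfl⟩
    exact hy

variable (hK : ∃ K : Set (GA n), IsCompact K ∧ (∀ k ∈ K, k ∈ T.VA) ∧
  ∀ v ∈ T.VA, ∃ γ ∈ GQ n, γ ∈ T.VA ∧ v * γ ∈ K)

include hK

theorem isClosed_VA : IsClosed (T.VA : Set (GA n)) := by
  obtain ⟨K, hK, hKV, hKc⟩ := hK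
  have h1 : IsClosed (K * ((T.VA : Set (GA n)) ∩ (GQ n : Set (GA n)))) :=
    (isClosed_of_subset_GQ Set.inter_subset_right).mul_left_of_isCompact hK
  convert h1 using 1
  ext x
  constructor
  · intro hx
    obtain ⟨γ, hγ, hγV, hxγ⟩ := hKc x hx
    exact ⟨x * γ, hxγ, γ⁻¹, ⟨T.VA.inv_mem hγV, (GQ n).inv_mem hγ⟩, by simp⟩
  · rintro ⟨k, hk, q, hq, rfl⟩
    exact T.VA.mul_mem (hKV k hk) hq.1

theorem locallyCompact_VA : LocallyCompactSpace T.VA :=
  (T.isClosed_VA hK).isClosedEmbedding_subtypeVal.locallyCompactSpace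

omit hK in
instance : SecondCountableTopology T.VA := inferInstanceAs (SecondCountableTopology (T.VA : Set (GA n)))

omit hK in
instance : T2Space T.VA := inferInstanceAs (T2Space (T.VA : Set (GA n)))

omit hK in
instance : DiscreteTopology T.VQ := by
  let f : T.VQ → GQ n := fun x => ⟨((x : T.VA) : GA n), x.2⟩
  have hf : Continuous f := by
    refine Continuous.subtype_mk ?_ _
    exact continuous_subtype_val.comp continuous_subtype_val
  exact DiscreteTopology.of_continuous_injective hf fun x y h => by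
    apply Subtype.ext; apply Subtype.ext
    exact congrArg (fun z : GQ n => (z : GA n)) h

theorem compact_quotient : CompactSpace (T.VA ⧸ T.VQ) := by
  have hcl := (T.isClosed_VA hK).isClosedEmbedding_subtypeVal
  obtain ⟨K, hK, hKV, hKc⟩ := hK
  have h1 : IsCompact {v : T.VA | (v : GA n) ∈ K} := hcl.isCompact_preimage hK
  have h2 := h1.image (QuotientGroup.continuous_mk (N := T.VQ))
  refine ⟨?_⟩
  convert h2 using 1
  refine (Set.eq_univ_of_forall fun x => ?_).symm
  obtain ⟨v, rfl⟩ := QuotientGroup.mk_surjective x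
  obtain ⟨γ, hγ, hγV, hv⟩ := hKc v v.2
  refine ⟨v * ⟨γ, hγV⟩, hv, ?_⟩
  exact QuotientGroup.mk_mul_of_mem v (by exact hγ)

theorem exists_rho : ∃ ρ : Measure (T.VA ⧸ T.VQ), ρ ≠ 0 ∧ IsFiniteMeasure ρ ∧
    SMulInvariantMeasure T.VA (T.VA ⧸ T.VQ) ρ := by
  have h1 := T.locallyCompact_VA hK
  have h2 := T.compact_quotient hK
  exact exists_invariant T.VQ

end Triple

end Pool.Agent.FC
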