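import Pool.Agent.FC.Base
import Pool.Agent.FC.AdeleSp

/-!
# FC, section (7a): strong approximation for the unipotent groups of the diagonal triples

For `h = diag(a, -a)` with integral weights, every `v ∈ V(𝔸)` can be moved by `V(ℚ)` into a
compact set of elements `v` with `v - 1` divisible by `6` at all finite places.
-/

set_option linter.all false

open RestrictedProduct Matrix Topology

namespace Pool.Agent.FC

namespace SA7a

/-! ### The adjoint involution -/

/-- exchange of the two blocks -/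
def sw {n : ℕ} : Fin n ⊕ Fin n → Fin n ⊕ Fin n := Sum.swap

/-- signs -/
def sg {n : ℕ} : Fin n ⊕ Fin n → ℤ := Sum.elim (fun _ => 1) (fun _ => -1)

/-- the adjoint -/
def adj {n : ℕ} {R : Type*} [CommRing R] (M : Mat n R) : Mat n R :=
  -J (Fin n) R * Mᵀ * J (Fin n) R

theorem adj_apply {n : ℕ} {R : Type*} [CommRing R] (M : Mat n R) (i j : Fin n ⊕ Fin n) :
    adj M i j = ((sg i * sg j : ℤ) : R) * M (sw j) (sw i) := by
  have hM : M = Matrix.fromBlocks M.toBlocks₁₁ M.toBlocks₁₂ M.toBlocks₂₁ M.toBlocks₂₂ :=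
    (Matrix.fromBlocks_toBlocks M).symm
  have h1 : adj M = Matrix.fromBlocks M.toBlocks₂₂ᵀ (-M.toBlocks₁₂ᵀ) (-M.toBlocks₂₁ᵀ)
      M.toBlocks₁₁ᵀ := by
    rw [adj, J]
    conv_lhs => rw [hM]
    rw [Matrix.fromBlocks_transpose, Matrix.fromBlocks_neg, Matrix.fromBlocks_multiply,
      Matrix.fromBlocks_multiply]
    simp
  rw [h1]
  rcases i with i | i <;> rcases j with j | j <;>
    simp [sg, sw, Matrix.toBlocks₁₁, Matrix.toBlocks₁₂, Matrix.toBlocks₂₁, Matrix.toBlocks₂₂,
      Sum.swap]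

theorem adj_map {n : ℕ} {R S : Type*} [CommRing R] [CommRing S] (φ : R →+* S) (M : Mat n R) :
    (adj M).map φ = adj (M.map φ) := by
  ext i j
  rw [Matrix.map_apply, adj_apply, adj_apply, map_mul, Matrix.map_apply, map_intCast]

theorem adj_one {n : ℕ} {R : Type*} [CommRing R] : adj (1 : Mat n R) = 1 := by
  rw [adj, Matrix.transpose_one, Matrix.mul_one, Matrix.neg_mul, J_squared, neg_neg]

theorem adj_sub {n : ℕ} {R : Type*} [CommRing R] (M N : Mat n R) :
    adj (M - N) = adj M - adj N := by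
  rw [adj, adj, adj, Matrix.transpose_sub, Matrix.mul_sub, Matrix.sub_mul]

theorem adj_add {n : ℕ} {R : Type*} [CommRing R] (M N : Mat n R) :
    adj (M + N) = adj M + adj N := by
  rw [adj, adj, adj, Matrix.transpose_add, Matrix.mul_add, Matrix.add_mul]

theorem adj_adj {n : ℕ} {R : Type*} [CommRing R] (M : Mat n R) : adj (adj M) = M := by
  ext i j
  rw [adj_apply, adj_apply]
  rcases i with i | i <;> rcases j with j | j <;> simp [sg, sw, Sum.swap]

/-- `v v⁻¹ = 1` in terms of `N = v - 1` -/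
theorem rel_adj {n : ℕ} {R : Type*} [CommRing R] (v : Matrix.symplecticGroup (Fin n) R) :
    ((v : Mat n R) - 1) + adj ((v : Mat n R) - 1)
      = - (((v : Mat n R) - 1) * adj ((v : Mat n R) - 1)) := by
  have h1 : ((v * v⁻¹ : Matrix.symplecticGroup (Fin n) R) : Mat n R) = 1 := by
    rw [mul_inv_cancel]; rfl
  rw [Submonoid.coe_mul, SymplecticGroup.coe_inv] at h1
  have h2 : adj ((v : Mat n R) - 1) = adj (v : Mat n R) - 1 := by rw [adj_sub, adj_one]
  have h3 : (v : Mat n R) * adj (v : Mat n R) = 1 := by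
    rw [adj]; exact h1
  rw [h2]
  have : ((v : Mat n R) - 1) * (adj (v : Mat n R) - 1)
      = (v : Mat n R) * adj (v : Mat n R) - (v : Mat n R) - adj (v : Mat n R) + 1 := by
    noncomm_ring
  rw [this, h3]
  abel

theorem mem_sp_of_adj {n : ℕ} {R : Type*} [CommRing R] {q : Mat n R} (h : q * adj q = 1) :
    q ∈ Matrix.symplecticGroup (Fin n) R := by
  rw [SymplecticGroup.mem_iff]
  have h2 : q * (-J (Fin n) R * qᵀ * J (Fin n) R) = 1 := h
  have h3 : q * (-J (Fin n) R * qᵀ * J (Fin n) R) * J (Fin n) R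
      = q * J (Fin n) R * qᵀ := by
    have : q * (-J (Fin n) R * qᵀ * J (Fin n) R) * J (Fin n) R
        = - (q * J (Fin n) R * qᵀ * (J (Fin n) R * J (Fin n) R)) := by noncomm_ring
    rw [this, J_squared]
    noncomm_ring
  rw [← h3, h2, Matrix.one_mul]

theorem adj_mul {n : ℕ} {R : Type*} [CommRing R] (M N : Mat n R) :
    adj (M * N) = adj N * adj M := by
  rw [adj, adj, adj, Matrix.transpose_mul]
  have : -J (Fin n) R * Nᵀ * J (Fin n) R * (-J (Fin n) R * Mᵀ * J (Fin n) R)
      = -J (Fin n) R * Nᵀ * (-(J (Fin n) R * J (Fin n) R)) * Mᵀ * J (Fin n) R := by noncomm_ring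
  rw [this, J_squared]
  noncomm_ring

/-! ### Weights -/

/-- matrices with components of weights `≥ k` only -/
def GE {n : ℕ} {R : Type*} [CommRing R] (W : Fin n ⊕ Fin n → ℤ) (k : ℤ) (M : Mat n R) : Prop :=
  ∀ i j, W i - W j < k → M i j = 0

section

variable {n : ℕ} {R : Type*} [CommRing R] {W : Fin n ⊕ Fin n → ℤ}

theorem GE.mul {k l : ℤ} {M N : Mat n R} (hM : GE W k M) (hN : GE W l N) :
    GE W (k + l) (M * N) := by
  intro i j hij
  rw [Matrix.mul_apply]
  refine Finset.sum_eq_zero fun m _ => ?_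
  by_cases h : W i - W m < k
  · rw [hM i m h, zero_mul]
  · rw [hN m j (by omega), mul_zero]

theorem GE.add {k : ℤ} {M N : Mat n R} (hM : GE W k M) (hN : GE W k N) : GE W k (M + N) := by
  intro i j hij
  rw [Matrix.add_apply, hM i j hij, hN i j hij, add_zero]

theorem GE.smul {k : ℤ} {M : Mat n R} (c : R) (hM : GE W k M) : GE W k (c • M) := by
  intro i j hij
  rw [Matrix.smul_apply, hM i j hij, smul_zero]

theorem GE.mono {k l : ℤ} (h : l ≤ k) {M : Mat n R} (hM : GE W k M) : GE W l M :=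
  fun i j hij => hM i j (by omega)

theorem GE.one : GE W 0 (1 : Mat n R) := by
  intro i j hij
  rw [Matrix.one_apply]
  split_ifs with h
  · subst h; omega
  · rfl

theorem GE.zero (k : ℤ) : GE W k (0 : Mat n R) := fun _ _ _ => rfl

theorem GE.pow {M : Mat n R} {k : ℤ} (hM : GE W k M) (m : ℕ) : GE W (m * k) (M ^ m) := by
  induction m with
  | zero => simpa using (GE.one (W := W) (R := R))
  | succ m ih =>
    rw [pow_succ]
    have := ih.mul hM
    refine this.mono ?_
    push_cast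
    linarith

theorem GE.sum {ι : Type*} (s : Finset ι) {k : ℤ} {M : ι → Mat n R} (hM : ∀ i ∈ s, GE W k (M i)) :
    GE W k (∑ i ∈ s, M i) := by
  classical
  induction s using Finset.induction_on with
  | empty => simpa using GE.zero k
  | insert a s ha ih =>
    rw [Finset.sum_insert ha]
    exact (hM a (Finset.mem_insert_self _ _)).add (ih fun i hi => hM i (Finset.mem_insert_of_mem hi))

theorem GE.eq_zero {k B : ℤ} (hB : ∀ i j, W i - W j < B) (hk : B ≤ k) {M : Mat n R}
    (hM : GE W k M) : M = 0 := by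
  ext i j
  exact hM i j (by have := hB i j; omega)

/-- the relation with the span of eigenspaces -/
theorem mem_adGE_iff (hR : ∀ m : ℤ, m ≠ 0 → IsUnit (m : R)) (k : ℤ) (M : Mat n R) :
    M ∈ adGE (Matrix.diagonal fun i => ((W i : ℤ) : R)) k ↔ GE W k M := by
  constructor
  · intro hM
    unfold adGE at hM
    induction hM using Submodule.span_induction with
    | mem X hX =>
      obtain ⟨j, hj, hX⟩ := hX
      intro i l hil
      have h1 := congrFun (congrFun hX i) l
      rw [Matrix.sub_apply, Matrix.diagonal_mul, Matrix.mul_diagonal, Matrix.smul_apply,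
        smul_eq_mul] at h1
      have h2 : ((W i - W l - j : ℤ) : R) * X i l = 0 := by
        push_cast
        linear_combination h1
      exact (hR _ (by omega)).mul_right_eq_zero.1 h2
    | zero => exact GE.zero k
    | add X Y _ _ hX hY => exact hX.add hY
    | smul c X _ hX => exact hX.smul c
  · intro hM
    rw [Matrix.matrix_eq_sum_single M]
    refine Submodule.sum_mem _ fun i _ => Submodule.sum_mem _ fun j _ => ?_
    by_cases h : W i - W j < k
    · rw [hM i j h, Matrix.single_zero]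
      exact Submodule.zero_mem _
    · refine Submodule.subset_span ⟨W i - W j, by omega, ?_⟩
      ext a b
      rw [Matrix.sub_apply, Matrix.diagonal_mul, Matrix.mul_diagonal, Matrix.smul_apply,
        smul_eq_mul]
      by_cases hab : i = a ∧ j = b
      · obtain ⟨rfl, rfl⟩ := hab
        push_cast
        ring
      · rw [Matrix.single_apply_of_ne _ _ _ _ _ hab]
        ring

end

/-! ### The Cayley transform -/

theorem exists_cayley {n : ℕ} {W : Fin n ⊕ Fin n → ℤ} {B : ℕ} (hB : ∀ i j, W i - W j < B) {k : ℤ}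
    (hk : 1 ≤ k) {Z : Mat n ℚ} (hZ : adj Z = -Z) (hZk : GE W k Z) :
    ∃ q : Matrix.symplecticGroup (Fin n) ℚ, GE W (2 * k) ((q : Mat n ℚ) - 1 - Z) := by
  set H : Mat n ℚ := (1 / 2 : ℚ) • Z with hH
  have hHk : GE W k H := hZk.smul _
  have hHa : adj H = -H := by
    ext i j
    have h1 := congrFun (congrFun hZ i) j
    rw [adj_apply] at h1
    rw [adj_apply, hH, Matrix.smul_apply, Matrix.neg_apply, Matrix.smul_apply, smul_eq_mul,
      smul_eq_mul]
    rw [Matrix.neg_apply] at h1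
    linear_combination (1 / 2 : ℚ) * h1
  have hnil : H ^ B = 0 := by
    refine (hHk.pow B).eq_zero hB ?_
    nlinarith [Int.natCast_nonneg B]
  set C : Mat n ℚ := ∑ m ∈ Finset.range B, H ^ m with hC
  have hC0 : GE W 0 C := GE.sum _ fun m _ => (hHk.pow m).mono (by positivity)
  have hC1 : (1 - H) * C = 1 := by
    rw [hC, mul_neg_geom_sum, hnil, sub_zero]
  have hC2 : C * (1 - H) = 1 := by
    rw [hC, geom_sum_mul_neg, hnil, sub_zero]
  have hCe : C = 1 + H * C := by
    have : C - H * C = 1 := by rw [← hC1]; noncomm_ring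
    rw [← this]; abel
  set D : Mat n ℚ := adj C with hD
  have h1H : adj (1 - H) = 1 + H := by rw [adj_sub, adj_one, hHa, sub_neg_eq_add]
  have h1H' : adj (1 + H) = 1 - H := by rw [adj_add, adj_one, hHa, sub_eq_add_neg]
  have hD1 : D * (1 + H) = 1 := by rw [hD, ← h1H, ← adj_mul, hC1, adj_one]
  have hD2 : (1 + H) * D = 1 := by rw [hD, ← h1H, ← adj_mul, hC2, adj_one]
  have hcomm : C * D = D * C := by
    have e1 : D * C * ((1 + H) * (1 - H)) = 1 := by
      have : (1 + H) * (1 - H) = (1 - H) * (1 + H) := by noncomm_ring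
      rw [this]
      calc D * C * ((1 - H) * (1 + H)) = D * (C * (1 - H)) * (1 + H) := by noncomm_ring
        _ = 1 := by rw [hC2, Matrix.mul_one, hD1]
    have e2 : ((1 + H) * (1 - H)) * (C * D) = 1 := by
      calc ((1 + H) * (1 - H)) * (C * D) = (1 + H) * ((1 - H) * C) * D := by noncomm_ring
        _ = 1 := by rw [hC1, Matrix.mul_one, hD2]
    calc C * D = D * C * ((1 + H) * (1 - H)) * (C * D) := by rw [e1, Matrix.one_mul]
      _ = D * C * (((1 + H) * (1 - H)) * (C * D)) := by rw [Matrix.mul_assoc]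
      _ = D * C := by rw [e2, Matrix.mul_one]
  have hq : (1 + H) * C * adj ((1 + H) * C) = 1 := by
    rw [adj_mul, h1H', ← hD]
    calc (1 + H) * C * (D * (1 - H)) = (1 + H) * (C * D) * (1 - H) := by noncomm_ring
      _ = (1 + H) * (D * C) * (1 - H) := by rw [hcomm]
      _ = ((1 + H) * D) * (C * (1 - H)) := by noncomm_ring
      _ = 1 := by rw [hD2, hC2, Matrix.one_mul]
  refine ⟨⟨(1 + H) * C, mem_sp_of_adj hq⟩, ?_⟩
  have hZH : Z = H + H := by
    rw [hH, ← add_smul]; norm_num
  have e : (1 + H) * C - 1 - Z = (2 : ℚ) • (H * (H * C)) := by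
    have e1 : (1 + H) * C = C + H * C := by noncomm_ring
    have e2 : H * C = H + H * (H * C) := by
      conv_lhs => rw [hCe]
      noncomm_ring
    rw [e1]
    have e3 : C + H * C - 1 - Z = (C - (1 + H * C)) + (H * C + H * C) - (H + H) := by
      rw [hZH]; abel
    rw [e3, ← hCe, sub_self, zero_add, two_smul]
    conv_lhs => rw [e2]
    abel
  change GE W (2 * k) ((1 + H) * C - 1 - Z)
  rw [e]
  have := (hHk.mul (hHk.mul hC0)).smul (2 : ℚ)
  exact this.mono (by linarith)

/-! ### Boxes in the adeles -/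

/-- boxes -/
def Box (C : ℝ) (m : ℚ) : Set Adele := {x | |x.1| ≤ C ∧ ∀ p : Nat.Primes, ‖x.2 p‖ ≤ ‖(m : ℚ_[p.1])‖}

theorem Box.add {C D : ℝ} {m : ℚ} {x y : Adele} (hx : x ∈ Box C m) (hy : y ∈ Box D m) :
    x + y ∈ Box (C + D) m := by
  refine ⟨(abs_add_le _ _).trans (add_le_add hx.1 hy.1), fun p => ?_⟩
  change ‖x.2 p + y.2 p‖ ≤ _
  exact (IsUltrametricDist.norm_add_le_max _ _).trans (max_le (hx.2 p) (hy.2 p))

theorem Box.neg {C : ℝ} {m : ℚ} {x : Adele} (hx : x ∈ Box C m) : -x ∈ Box C m := by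
  refine ⟨?_, fun p => ?_⟩
  · change |-x.1| ≤ C
    rw [abs_neg]; exact hx.1
  · change ‖-(x.2 p)‖ ≤ _
    rw [norm_neg]; exact hx.2 p

theorem Box.sub {C D : ℝ} {m : ℚ} {x y : Adele} (hx : x ∈ Box C m) (hy : y ∈ Box D m) :
    x - y ∈ Box (C + D) m := by
  rw [sub_eq_add_neg]; exact Box.add hx (Box.neg hy)

theorem Box.mul {C D : ℝ} (hC : 0 ≤ C) {m l : ℚ} {x y : Adele} (hx : x ∈ Box C m)
    (hy : y ∈ Box D l) : x * y ∈ Box (C * D) (m * l) := by
  refine ⟨?_, fun p => ?_⟩
  · change |x.1 * y.1| ≤ _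
    rw [abs_mul]
    exact mul_le_mul hx.1 hy.1 (abs_nonneg _) hC
  · change ‖x.2 p * y.2 p‖ ≤ _
    rw [norm_mul]
    push_cast
    rw [norm_mul]
    exact mul_le_mul (hx.2 p) (hy.2 p) (norm_nonneg _) (norm_nonneg _)

theorem Box.rat (r : ℚ) : ratAdele r ∈ Box |(r : ℝ)| r := by
  refine ⟨le_of_eq ?_, fun p => le_of_eq ?_⟩
  · rw [ratAdele_fst]
  · rw [ratAdele_snd]

theorem Box.mono {C D : ℝ} (h : C ≤ D) {m : ℚ} {x : Adele} (hx : x ∈ Box C m) : x ∈ Box D m :=
  ⟨hx.1.trans h, hx.2⟩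

theorem Box.mono' {C : ℝ} {m : ℚ} {k : ℤ} {x : Adele} (hx : x ∈ Box C (m * k)) : x ∈ Box C m := by
  refine ⟨hx.1, fun p => (hx.2 p).trans ?_⟩
  push_cast
  rw [norm_mul]
  exact mul_le_of_le_one_right (norm_nonneg _) (Padic.norm_int_le_one k)

theorem Box.zero {C : ℝ} (hC : 0 ≤ C) {m : ℚ} : (0 : Adele) ∈ Box C m := by
  refine ⟨?_, fun p => ?_⟩
  · change |(0 : ℝ)| ≤ C
    rw [abs_zero]; exact hC
  · change ‖(0 : ℚ_[p.1])‖ ≤ _
    rw [norm_zero]; exact norm_nonneg _

theorem Box.sum {ι : Type*} (s : Finset ι) {C : ℝ} {m : ℚ} {x : ι → Adele}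
    (hx : ∀ i ∈ s, x i ∈ Box C m) : ∑ i ∈ s, x i ∈ Box (s.card * C) m := by
  classical
  induction s using Finset.induction_on with
  | empty => simpa using Box.zero (C := 0) le_rfl (m := m)
  | insert a s ha ih =>
    rw [Finset.sum_insert ha]
    refine Box.mono (le_of_eq ?_) (Box.add (hx a (Finset.mem_insert_self _ _))
      (ih fun i hi => hx i (Finset.mem_insert_of_mem hi)))
    rw [Finset.card_insert_of_notMem ha]
    push_cast
    ring

/-- every adele is a rational plus an element of the box of modulus `12` -/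
theorem exists_rat_box (x : Adele) : ∃ c : ℚ, x + ratAdele c ∈ Box 12 12 := by
  obtain ⟨q, hq1, hq2⟩ := exists_rat_sub_mem (ratAdele (1 / 12) * x)
  refine ⟨-(12 * q), ?_⟩
  have e : x + ratAdele (-(12 * q)) = ratAdele 12 * (ratAdele (1 / 12) * x - ratAdele q) := by
    rw [mul_sub, ← mul_assoc, ← map_mul, ← map_mul]
    norm_num
    ring
  rw [e]
  have h1 : ratAdele (1 / 12) * x - ratAdele q ∈ Box 1 1 := by
    refine ⟨?_, fun p => ?_⟩
    · rw [abs_of_nonneg hq1.1]; exact hq1.2.le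
    · have := hq2 p
      simpa using this
  have h2 := Box.mul (abs_nonneg _) (Box.rat 12) h1
  rw [mul_one, mul_one] at h2
  refine Box.mono (le_of_eq ?_) h2
  norm_num

/-! ### One step -/

theorem sg_mul_cases {n : ℕ} (i j : Fin n ⊕ Fin n) : sg i * sg j = 1 ∨ sg i * sg j = -1 := by
  rcases i with i | i <;> rcases j with j | j <;> simp [sg]

theorem Box.adj {n : ℕ} {C : ℝ} {m : ℚ} {M : Mat n Adele} {i j : Fin n ⊕ Fin n}
    (h : M (sw j) (sw i) ∈ Box C m) : adj M i j ∈ Box C m := by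
  rw [adj_apply]
  rcases sg_mul_cases i j with h1 | h1 <;> rw [h1]
  · rw [Int.cast_one, one_mul]; exact h
  · rw [Int.cast_neg, Int.cast_one, neg_one_mul]; exact Box.neg h

theorem sw_sw {n : ℕ} (i : Fin n ⊕ Fin n) : sw (sw i) = i := by
  rcases i with i | i <;> rfl

theorem step {n : ℕ} {W : Fin n ⊕ Fin n → ℤ} (hWs : ∀ i, W (sw i) = - W i) {B : ℕ}
    (hB : ∀ i j, W i - W j < B) {k : ℤ} (hk : 2 ≤ k) {C : ℝ} (hC : 0 ≤ C) {N : Mat n Adele}
    (hrel : N + adj N = - (N * adj N)) (hN2 : GE W 2 N)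
    (hN : ∀ i j, W i - W j < k → N i j ∈ Box C 6) :
    ∃ q : Matrix.symplecticGroup (Fin n) ℚ, GE W 2 ((q : Mat n ℚ) - 1) ∧
      ∀ i j, W i - W j < k + 1 →
        (N + ((q : Mat n ℚ) - 1).map ratAdele + N * ((q : Mat n ℚ) - 1).map ratAdele) i j
          ∈ Box (C + 12 + n * C * C) 6 := by
  have hC' : C ≤ C + 12 + n * C * C := by
    have : 0 ≤ (n : ℝ) * C * C := by positivity
    linarith
  have hc : ∀ i j, ∃ c : ℚ, (W i - W j = k → N i j + ratAdele c ∈ Box 12 12) ∧
      (W i - W j ≠ k → c = 0) := by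
    intro i j
    by_cases h : W i - W j = k
    · obtain ⟨c, hc⟩ := exists_rat_box (N i j)
      exact ⟨c, fun _ => hc, fun h' => absurd h h'⟩
    · exact ⟨0, fun h' => absurd h' h, fun _ => rfl⟩
  choose c hc1 hc2 using hc
  set c' : Mat n ℚ := Matrix.of c with hc'
  set Z : Mat n ℚ := (1 / 2 : ℚ) • (c' - adj c') with hZ
  have hWW : ∀ i j, W (sw j) - W (sw i) = W i - W j := by
    intro i j; rw [hWs, hWs]; ring
  have hZa : adj Z = -Z := by
    ext i j
    rw [adj_apply, hZ, Matrix.smul_apply, Matrix.sub_apply, Matrix.neg_apply, Matrix.smul_apply,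
      Matrix.sub_apply, adj_apply, adj_apply, smul_eq_mul, smul_eq_mul, sw_sw, sw_sw]
    rcases i with i | i <;> rcases j with j | j <;> simp [sg, sw] <;> ring
  have hc0 : GE W k c' := fun i j hij => hc2 i j (by omega)
  have hca : GE W k (adj c') := by
    intro i j hij
    rw [adj_apply, hc0 (sw j) (sw i) (by rw [hWW]; exact hij), mul_zero]
  have hZk : GE W k Z := by
    refine GE.smul _ ?_
    intro i j hij
    rw [Matrix.sub_apply, hc0 i j hij, hca i j hij, sub_zero]
  have hZlt : ∀ i j, W i - W j ≠ k → Z i j = 0 := by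
    intro i j hij
    rw [hZ, Matrix.smul_apply, Matrix.sub_apply, adj_apply]
    have h1 : c' i j = 0 := hc2 i j hij
    have h2 : c' (sw j) (sw i) = 0 := hc2 _ _ (by rw [hWW]; exact hij)
    rw [h1, h2]
    simp
  obtain ⟨q, hq⟩ := exists_cayley hB (by omega : (1 : ℤ) ≤ k) hZa hZk
  have hqk : GE W k ((q : Mat n ℚ) - 1) := by
    have h1 : (q : Mat n ℚ) - 1 = ((q : Mat n ℚ) - 1 - Z) + Z := by abel
    rw [h1]
    exact (hq.mono (by omega)).add hZk
  have hqz : ∀ i j, W i - W j < k + 1 → ((q : Mat n ℚ) - 1) i j = Z i j := by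
    intro i j hij
    have := hq i j (by omega)
    rw [Matrix.sub_apply] at this
    exact sub_eq_zero.1 this
  refine ⟨q, hqk.mono hk, ?_⟩
  intro i j hij
  have hprod : (N * ((q : Mat n ℚ) - 1).map ratAdele) i j = 0 := by
    have h1 : GE W k (((q : Mat n ℚ) - 1).map ratAdele) := by
      intro a b hab
      rw [Matrix.map_apply, hqk a b hab, map_zero]
    exact (hN2.mul h1) i j (by omega)
  rw [Matrix.add_apply, Matrix.add_apply, hprod, add_zero, Matrix.map_apply, hqz i j hij]
  by_cases hkk : W i - W j = k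
  · -- the new entry
    have hadj : (N * adj N) i j ∈ Box (2 * n * (C * C)) (6 * 6) := by
      rw [Matrix.mul_apply]
      have : ((Finset.univ : Finset (Fin n ⊕ Fin n)).card : ℝ) = 2 * n := by
        rw [Finset.card_univ, Fintype.card_sum, Fintype.card_fin]; push_cast; ring
      rw [← this]
      refine Box.sum _ fun l _ => ?_
      by_cases h1 : W i - W l < 2
      · rw [hN2 i l h1, zero_mul]
        exact Box.zero (mul_nonneg hC hC)
      by_cases h2 : W l - W j < 2
      · have h3 : adj N l j = 0 := by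
          rw [adj_apply, hN2 (sw j) (sw l) (by rw [hWW]; exact h2), mul_zero]
        rw [h3, mul_zero]
        exact Box.zero (mul_nonneg hC hC)
      refine Box.mul hC (hN i l (by omega)) (Box.adj (hN _ _ ?_))
      rw [hWW]; omega
    have hrel' := congrFun (congrFun hrel i) j
    rw [Matrix.add_apply, Matrix.neg_apply] at hrel'
    have hA : N i j + ratAdele (c i j) ∈ Box 12 12 := hc1 i j hkk
    have hAs : adj (N + c'.map ratAdele) i j ∈ Box 12 12 := by
      refine Box.adj ?_
      rw [Matrix.add_apply, Matrix.map_apply]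
      exact hc1 _ _ (by rw [hWW]; exact hkk)
    have key : N i j + ratAdele (Z i j) = ratAdele (1 / 2) *
        ((N i j + ratAdele (c i j)) - adj (N + c'.map ratAdele) i j - (N * adj N) i j) := by
      have e1 : ratAdele (Z i j) = ratAdele (1 / 2) * (ratAdele (c i j)
          - adj (c'.map ratAdele) i j) := by
        rw [← adj_map, Matrix.map_apply, ← map_sub, ← map_mul, hZ, Matrix.smul_apply,
          Matrix.sub_apply, smul_eq_mul]
        rfl
      have e2 : ratAdele (1 / 2) + ratAdele (1 / 2) = 1 := by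
        rw [← map_add, ← map_one ratAdele]; norm_num
      rw [e1, adj_add, Matrix.add_apply]
      linear_combination (N i j) * (-e2) + ratAdele (1 / 2) * hrel'
    rw [key]
    have h12 : ((12 : ℚ) * (3 : ℤ)) = 6 * 6 := by norm_num
    have hadj' : (N * adj N) i j ∈ Box (2 * n * (C * C)) 12 := by
      rw [← h12] at hadj; exact Box.mono' hadj
    have h3 := Box.mul (abs_nonneg _) (Box.rat (1 / 2)) (Box.sub (Box.sub hA hAs) hadj')
    have h4 : (1 / 2 : ℚ) * 12 = 6 := by norm_num
    rw [h4] at h3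
    refine Box.mono ?_ h3
    have h5 : |((1 / 2 : ℚ) : ℝ)| = 1 / 2 := by norm_num
    rw [h5]
    nlinarith
  · rw [hZlt i j hkk, map_zero, add_zero]
    exact Box.mono hC' (hN i j (by omega))

/-! ### All steps -/

theorem rel_adj_N {n : ℕ} (v : GA n) :
    ((v : Mat n Adele) - 1) + adj ((v : Mat n Adele) - 1)
      = - (((v : Mat n Adele) - 1) * adj ((v : Mat n Adele) - 1)) := rel_adj v

theorem mul_map_sub_one {n : ℕ} (v : GA n) (q : Matrix.symplecticGroup (Fin n) ℚ) :
    ((v * spMap n ratAdele q : GA n) : Mat n Adele) - 1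
      = ((v : Mat n Adele) - 1) + ((q : Mat n ℚ) - 1).map ratAdele
        + ((v : Mat n Adele) - 1) * ((q : Mat n ℚ) - 1).map ratAdele := by
  have h1 : ((q : Mat n ℚ) - 1).map ratAdele = (q : Mat n ℚ).map ratAdele - 1 := by
    rw [Matrix.map_sub _ (map_sub ratAdele), Matrix.map_one _ (map_zero _) (map_one _)]
  have h2 : ((v * spMap n ratAdele q : GA n) : Mat n Adele)
      = (v : Mat n Adele) * (q : Mat n ℚ).map ratAdele := rfl
  rw [h1, h2]
  noncomm_ring

theorem steps {n : ℕ} {W : Fin n ⊕ Fin n → ℤ} (hWs : ∀ i, W (sw i) = - W i) {B : ℕ}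
    (hB : ∀ i j, W i - W j < B) (K : ℕ) : ∃ C : ℝ, 0 ≤ C ∧ ∀ v : GA n,
      GE W 2 ((v : Mat n Adele) - 1) → ∃ q : Matrix.symplecticGroup (Fin n) ℚ,
        GE W 2 ((q : Mat n ℚ) - 1) ∧ ∀ i j, W i - W j < 2 + K →
          (((v * spMap n ratAdele q : GA n) : Mat n Adele) - 1) i j ∈ Box C 6 := by
  induction K with
  | zero =>
    refine ⟨0, le_rfl, fun v hv => ⟨1, ?_, fun i j hij => ?_⟩⟩
    · have : ((1 : Matrix.symplecticGroup (Fin n) ℚ) : Mat n ℚ) - 1 = 0 := by
        rw [OneMemClass.coe_one, sub_self]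
      rw [this]
      exact GE.zero 2
    · rw [map_one, mul_one, hv i j (by push_cast at hij; omega)]
      exact Box.zero le_rfl
  | succ K ih =>
    obtain ⟨C, hC, h⟩ := ih
    refine ⟨C + 12 + n * C * C, by positivity, fun v hv => ?_⟩
    obtain ⟨q, hq2, hq⟩ := h v hv
    set v' : GA n := v * spMap n ratAdele q with hv'
    have hv2 : GE W 2 ((v' : Mat n Adele) - 1) := by
      rw [hv', mul_map_sub_one]
      have h1 : GE W 2 (((q : Mat n ℚ) - 1).map ratAdele) := by
        intro a b hab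
        rw [Matrix.map_apply, hq2 a b hab, map_zero]
      exact (hv.add h1).add ((hv.mul h1).mono (by norm_num))
    obtain ⟨r, hr2, hr⟩ := step hWs hB (k := 2 + K) (by omega) hC (rel_adj_N v') hv2 hq
    refine ⟨q * r, ?_, fun i j hij => ?_⟩
    · have h1 : ((q * r : Matrix.symplecticGroup (Fin n) ℚ) : Mat n ℚ) - 1
          = ((q : Mat n ℚ) - 1) + ((r : Mat n ℚ) - 1)
            + ((q : Mat n ℚ) - 1) * ((r : Mat n ℚ) - 1) := by
        rw [Submonoid.coe_mul]; noncomm_ring
      rw [h1]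
      exact (hq2.add hr2).add ((hq2.mul hr2).mono (by norm_num))
    · rw [map_mul, ← mul_assoc, ← hv', mul_map_sub_one]
      exact hr i j (by push_cast at hij; omega)

/-! ### The compact set -/

/-- the compact set `D` -/
def DSet {n : ℕ} (W : Fin n ⊕ Fin n → ℤ) (C : ℝ) : Set (GA n) :=
  {v | GE W 2 ((v : Mat n Adele) - 1) ∧ ∀ i j, ((v : Mat n Adele) - 1) i j ∈ Box C 6}

theorem isCompact_Box (C : ℝ) : IsCompact (Box C 6) := by
  have h1 : IsCompact (Metric.closedBall (0 : ℝ) C ×ˢ OF) :=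
    (isCompact_closedBall _ _).prod isCompact_OF
  have h2 : Box C 6 = (fun x : Adele => x) ⁻¹' (Box C 6) ∩ Metric.closedBall (0 : ℝ) C ×ˢ OF := by
    ext x
    simp only [Set.mem_inter_iff, Set.mem_preimage, iff_self_and]
    intro hx
    refine ⟨?_, fun p => (hx.2 p).trans ?_⟩
    · rw [mem_closedBall_zero_iff, Real.norm_eq_abs]; exact hx.1
    · exact_mod_cast Padic.norm_int_le_one (p := p.1) 6
  have h3 : IsClosed (Box C 6) := by
    have : Box C 6 = {x : Adele | |x.1| ≤ C} ∩ ⋂ p : Nat.Primes,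
        {x : Adele | ‖x.2 p‖ ≤ ‖((6 : ℚ) : ℚ_[p.1])‖} := by
      ext x
      simp [Box]
    rw [this]
    refine (isClosed_le (continuous_abs.comp continuous_fst) continuous_const).inter
      (isClosed_iInter fun p => ?_)
    have hc : Continuous fun x : Adele => x.2 p :=
      (RestrictedProduct.continuous_eval p).comp continuous_snd
    exact isClosed_le hc.norm continuous_const
  rw [h2]
  exact h1.inter_left h3

theorem isCompact_DSet {n : ℕ} (W : Fin n ⊕ Fin n → ℤ) (C : ℝ) : IsCompact (DSet W C) := by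
  let K : Set (Mat n Adele) := {M | ∀ i j, (M - 1) i j ∈ Box C 6}
  have hK : IsCompact K := by
    have h1 : IsCompact (Set.univ.pi fun _ : Fin n ⊕ Fin n =>
        (Set.univ.pi fun _ : Fin n ⊕ Fin n => Box C 6 : Set (Fin n ⊕ Fin n → Adele))) :=
      isCompact_univ_pi fun _ => isCompact_univ_pi fun _ => isCompact_Box C
    have h2 : K = (fun M : Mat n Adele => M + 1) '' (Set.univ.pi fun _ : Fin n ⊕ Fin n =>
        (Set.univ.pi fun _ : Fin n ⊕ Fin n => Box C 6 : Set (Fin n ⊕ Fin n → Adele))) := by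
      ext M
      constructor
      · intro hM
        exact ⟨M - 1, fun i _ j _ => hM i j, sub_add_cancel _ _⟩
      · rintro ⟨M', hM', rfl⟩ i j
        have : (M' + 1 - 1 : Mat n Adele) = M' := add_sub_cancel_right _ _
        rw [this]
        exact hM' i trivial j trivial
    rw [h2]
    exact h1.image (continuous_id.add continuous_const)
  have hemb := (isClosed_symplectic (l := Fin n) (R := Adele)).isClosedEmbedding_subtypeVal
  have h3 := hemb.isCompact_preimage hK
  have h4 : IsClosed {v : GA n | GE W 2 ((v : Mat n Adele) - 1)} := by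
    have : {v : GA n | GE W 2 ((v : Mat n Adele) - 1)} = ⋂ i, ⋂ j, ⋂ _ : W i - W j < 2,
        {v : GA n | ((v : Mat n Adele) - 1) i j = 0} := by
      ext v
      simp [GE]
    rw [this]
    refine isClosed_iInter fun i => isClosed_iInter fun j => isClosed_iInter fun _ => ?_
    refine isClosed_eq ?_ continuous_const
    have : Continuous fun v : GA n => (v : Mat n Adele) i j - (1 : Mat n Adele) i j :=
      (continuous_subtype_val.matrix_elem i j).sub continuous_const
    exact this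
  exact h3.inter_left h4

theorem isUnit_int_adele (m : ℤ) (hm : m ≠ 0) : IsUnit (m : Adele) := by
  have h1 : ratAdele (m : ℚ) * ratAdele ((m : ℚ)⁻¹) = 1 := by
    rw [← map_mul, mul_inv_cancel₀ (by exact_mod_cast hm), map_one]
  rw [map_intCast] at h1
  exact IsUnit.of_mul_eq_one _ h1

theorem isUnit_int_rat (m : ℤ) (hm : m ≠ 0) : IsUnit (m : ℚ) :=
  isUnit_iff_ne_zero.2 (by exact_mod_cast hm)

theorem wt_sw (a : Fin 6 → ℤ) (i : Fin 6 ⊕ Fin 6) : wt a (sw i) = - wt a i := by
  rcases i with i | i <;> simp [wt, sw]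

theorem hdiag_map (a : Fin 6 → ℤ) : (hdiag ℚ a).map ratAdele = hdiag Adele a := by
  rw [hdiag, hdiag, Matrix.diagonal_map (map_zero _)]
  congr 1

theorem mem_VA_iff {T : Triple 6} {a : Fin 6 → ℤ} (hT : T.h = hdiag ℚ a) (v : GA 6) :
    v ∈ T.VA ↔ GE (wt a) 2 ((v : Mat 6 Adele) - 1) := by
  have h1 : v ∈ T.VA ↔ (v : Mat 6 Adele) - 1 ∈ adGE (T.h.map ratAdele) 2 := Iff.rfl
  rw [h1, hT, hdiag_map, hdiag]
  exact mem_adGE_iff isUnit_int_adele 2 _

end SA7a

open SA7a

/-- **(7a)** for a diagonal triple: strong approximation for `V`, with a compact set of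
representatives contained in `V ∩ U`. -/
theorem sa7a {T : Triple 6} {a : Fin 6 → ℤ} (hT : T.h = hdiag ℚ a) :
    ∃ D : Set (GA 6), IsCompact D ∧ (∀ v ∈ D, v ∈ T.VA ∧ v ∈ USet) ∧
      ∀ v ∈ T.VA, ∃ q ∈ T.VA, q ∈ GQ 6 ∧ v * q ∈ D := by
  obtain ⟨B, hB⟩ : ∃ B : ℕ, ∀ i j, wt a i - wt a j < B := by
    refine ⟨(∑ i, ∑ j, |wt a i - wt a j|).toNat + 1, fun i j => ?_⟩
    have h1 : |wt a i - wt a j| ≤ ∑ j, |wt a i - wt a j| :=
      Finset.single_le_sum (f := fun j => |wt a i - wt a j|) (fun _ _ => abs_nonneg _)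
        (Finset.mem_univ j)
    have h2 : ∑ j, |wt a i - wt a j| ≤ ∑ i, ∑ j, |wt a i - wt a j| :=
      Finset.single_le_sum (f := fun i => ∑ j, |wt a i - wt a j|)
        (fun _ _ => Finset.sum_nonneg fun _ _ => abs_nonneg _) (Finset.mem_univ i)
    have h3 := le_abs_self (wt a i - wt a j)
    push_cast
    have h4 := Int.self_le_toNat (∑ i, ∑ j, |wt a i - wt a j|)
    omega
  obtain ⟨C, hC, h⟩ := steps (wt_sw a) hB B
  refine ⟨DSet (wt a) C, isCompact_DSet _ _, fun v hv => ⟨(mem_VA_iff hT v).2 hv.1, ?_⟩, ?_⟩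
  · have h6 : ∀ (p : Nat.Primes) (i j), ‖(gp v p - 1) i j‖ ≤ ‖((6 : ℚ) : ℚ_[p.1])‖ := by
      intro p i j
      have h1 := (hv.2 i j).2 p
      have h2 : (gp v p - 1) i j = evp p (((v : Mat 6 Adele) - 1) i j) := by
        rw [Matrix.sub_apply, Matrix.sub_apply, map_sub, gp, Matrix.map_apply,
          Matrix.one_apply, Matrix.one_apply]
        split_ifs <;> simp
      rw [h2]
      exact h1
    refine ⟨fun p i j => ?_, fun i j => ?_⟩
    · have h1 : gp v p i j = (gp v p - 1) i j + (1 : Mat 6 ℚ_[p.1]) i j := by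
        rw [Matrix.sub_apply, sub_add_cancel]
      rw [h1]
      refine (IsUltrametricDist.norm_add_le_max _ _).trans (max_le ((h6 p i j).trans ?_) ?_)
      · exact_mod_cast Padic.norm_int_le_one (p := p.1) 6
      · rw [Matrix.one_apply]
        split_ifs <;> simp
    · refine (h6 p3 i j).trans ?_
      have h2 : ‖((6 : ℚ) : ℚ_[(p3 : ℕ)])‖ ≤ 1 / 3 := by
        have e : ((6 : ℚ) : ℚ_[(p3 : ℕ)]) = ((3 : ℕ) : ℚ_[(p3 : ℕ)]) * ((2 : ℤ) : ℚ_[(p3 : ℕ)]) := by
          push_cast; norm_num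
        rw [e, norm_mul]
        have h3 : ‖((3 : ℕ) : ℚ_[(p3 : ℕ)])‖ = 1 / 3 := by
          have := Padic.norm_p (p := 3)
          rw [this]; norm_num
        rw [h3]
        exact mul_le_of_le_one_right (by norm_num) (Padic.norm_int_le_one 2)
      refine h2.trans ?_
      rcases i with i | i <;> rcases j with j | j <;> simp only [bd] <;> norm_num
  · intro v hv
    obtain ⟨q, hq2, hq⟩ := h v ((mem_VA_iff hT v).1 hv)
    have hqV : spMap 6 ratAdele q ∈ T.VA := by
      rw [mem_VA_iff hT]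
      have h1 : ((spMap 6 ratAdele q : GA 6) : Mat 6 Adele) - 1
          = ((q : Mat 6 ℚ) - 1).map ratAdele := by
        rw [Matrix.map_sub _ (map_sub ratAdele), Matrix.map_one _ (map_zero _) (map_one _)]
        rfl
      rw [h1]
      intro i j hij
      rw [Matrix.map_apply, hq2 i j hij, map_zero]
    refine ⟨spMap 6 ratAdele q, hqV, ⟨q, rfl⟩, ?_, fun i j => hq i j ?_⟩
    · exact (mem_VA_iff hT _).1 (T.VA.mul_mem hv hqV)
    · have := hB i j
      omega

end Pool.Agent.FC
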