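import Pool.Agent.FC.Base

/-!
# Project FC, section 7d: the `UL` factorisation

`v1` upper, `v2` lower unitriangular in the order `rk`, `v1 * γ = v2`.
-/

open RestrictedProduct Matrix MeasureTheory

noncomputable section

namespace Pool.Agent.FC

theorem ULfac_entry {R : Type*} [CommRing R] (a : Fin 6 → ℤ) (X : Mat 6 R)
    (r s : Fin 6 ⊕ Fin 6) :
    (hdiag R a * X - X * hdiag R a) r s = ((wt a r - wt a s : ℤ) : R) * X r s := by
  unfold hdiag
  rw [Matrix.sub_apply, Matrix.diagonal_mul, Matrix.mul_diagonal]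
  push_cast
  ring

/-- the easy half of `adGE_diag` -/
theorem ULfac_mem {R : Type*} [CommRing R] (a : Fin 6 → ℤ) (i : ℤ) (M : Mat 6 R)
    (h : ∀ r s, M r s ≠ 0 → i ≤ wt a r - wt a s) : M ∈ adGE (hdiag R a) i := by
  rw [Matrix.matrix_eq_sum_single M]
  refine Submodule.sum_mem _ fun r _ => Submodule.sum_mem _ fun s _ => ?_
  by_cases hz : M r s = 0
  · rw [hz, Matrix.single_zero]
    exact Submodule.zero_mem _
  · refine Submodule.subset_span ⟨wt a r - wt a s, h r s hz, ?_⟩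
    ext r' s'
    rw [ULfac_entry, Matrix.smul_apply, smul_eq_mul]
    by_cases h1 : r = r' ∧ s = s'
    · obtain ⟨rfl, rfl⟩ := h1
      rfl
    · rw [Matrix.single_apply_of_ne _ _ _ _ _ h1, mul_zero, mul_zero]

/-- the filtration for diagonal `h`, in terms of entries -/
theorem adGE_diag {R : Type*} [CommRing R] [Algebra ℚ R] (a : Fin 6 → ℤ) (i : ℤ) (M : Mat 6 R) :
    M ∈ adGE (hdiag R a) i ↔ ∀ r s, M r s ≠ 0 → i ≤ wt a r - wt a s := by
  constructor
  · intro hM
    induction hM using Submodule.span_induction with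
    | mem X hX =>
      obtain ⟨j, hj, hX⟩ := hX
      intro r s hrs
      have h1 := congrFun (congrFun hX r) s
      rw [ULfac_entry, Matrix.smul_apply, smul_eq_mul] at h1
      by_contra hcon
      apply hrs
      have hne : (wt a r - wt a s - j : ℤ) ≠ 0 := by omega
      have h2 : ((wt a r - wt a s - j : ℤ) : R) * X r s = 0 := by
        push_cast at h1 ⊢
        linear_combination h1
      have hu : IsUnit ((wt a r - wt a s - j : ℤ) : R) := by
        have h3 : ((wt a r - wt a s - j : ℤ) : R)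
            = algebraMap ℚ R ((wt a r - wt a s - j : ℤ) : ℚ) := by
          rw [map_intCast]
        rw [h3]
        exact (IsUnit.mk0 _ (Int.cast_ne_zero.mpr hne)).map _
      exact (hu.mul_right_eq_zero).mp h2
    | zero => intro r s h; exact absurd rfl h
    | add X Y _ _ h1 h2 =>
      intro r s h
      by_cases hx : X r s = 0
      · refine h2 r s fun hy => h ?_
        rw [Matrix.add_apply, hx, hy, add_zero]
      · exact h1 r s hx
    | smul c X _ h1 =>
      intro r s h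
      refine h1 r s fun hx => h ?_
      rw [Matrix.smul_apply, hx, smul_zero]
  · exact ULfac_mem a i M

theorem ULfac_rk1 : ∀ r s : Fin 6 ⊕ Fin 6, 2 ≤ wt wa r - wt wa s → rk r < rk s := by decide

theorem ULfac_rk2 : ∀ r s : Fin 6 ⊕ Fin 6, 2 ≤ wt wb r - wt wb s → rk s < rk r := by decide

theorem ULfac_inj : Function.Injective rk := by decide

/-- elements of `V_1` are upper unitriangular, those of `V_2` lower unitriangular. -/
theorem unip_tri1 {R : Type*} [CommRing R] [Algebra ℚ R] {v : Mat 6 R}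
    (hv : v - 1 ∈ adGE (hdiag R wa) 2) :
    (∀ i j, v i j ≠ 0 → i = j ∨ rk i < rk j) ∧ ∀ i, v i i = 1 := by
  rw [adGE_diag] at hv
  constructor
  · intro i j hij
    by_cases h : i = j
    · exact Or.inl h
    · refine Or.inr (ULfac_rk1 i j (hv i j ?_))
      rw [Matrix.sub_apply, Matrix.one_apply_ne h, sub_zero]
      exact hij
  · intro i
    by_contra hne
    have h1 := hv i i (by rw [Matrix.sub_apply, Matrix.one_apply_eq]; exact sub_ne_zero.mpr hne)
    omega

theorem unip_tri2 {R : Type*} [CommRing R] [Algebra ℚ R] {v : Mat 6 R}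
    (hv : v - 1 ∈ adGE (hdiag R wb) 2) :
    (∀ i j, v i j ≠ 0 → i = j ∨ rk j < rk i) ∧ ∀ i, v i i = 1 := by
  rw [adGE_diag] at hv
  constructor
  · intro i j hij
    by_cases h : i = j
    · exact Or.inl h
    · refine Or.inr (ULfac_rk2 i j (hv i j ?_))
      rw [Matrix.sub_apply, Matrix.one_apply_ne h, sub_zero]
      exact hij
  · intro i
    by_contra hne
    have h1 := hv i i (by rw [Matrix.sub_apply, Matrix.one_apply_eq]; exact sub_ne_zero.mpr hne)
    omega

/-- an upper unitriangular matrix has an upper unitriangular left inverse -/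
theorem ULfac_inv {R ι : Type*} [CommRing R] [Fintype ι] [DecidableEq ι] (rk : ι → ℕ)
    (hinj : Function.Injective rk) (v : Matrix ι ι R)
    (h1 : ∀ i j, (v i j ≠ 0 → i = j ∨ rk i < rk j)) (h1' : ∀ i, v i i = 1) :
    ∃ w : Matrix ι ι R, w * v = 1 ∧ (∀ i j, (w i j ≠ 0 → i = j ∨ rk i < rk j)) ∧
      ∀ i, w i i = 1 := by
  let _ : LinearOrder ι := LinearOrder.lift' rk hinj
  have hlt : ∀ i j : ι, i < j ↔ rk i < rk j := fun i j => Iff.rfl
  have hbt : v.BlockTriangular id := by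
    intro i j hij
    by_contra hne
    rcases h1 i j hne with h | h
    · rw [h] at hij
      exact lt_irrefl _ hij
    · have h2 : rk j < rk i := (hlt j i).mp hij
      omega
  have hdet : v.det = 1 := by
    rw [Matrix.det_of_isUpperTriangular hbt]
    exact Finset.prod_eq_one fun i _ => h1' i
  have hu : IsUnit v.det := by rw [hdet]; exact isUnit_one
  let _ : Invertible v := v.invertibleOfIsUnitDet hu
  have hinv : v⁻¹.BlockTriangular id := Matrix.blockTriangular_inv_of_blockTriangular hbt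
  have hwv : v⁻¹ * v = 1 := Matrix.nonsing_inv_mul v hu
  have hw1 : ∀ i j, (v⁻¹ i j ≠ 0 → i = j ∨ rk i < rk j) := by
    intro i j hne
    rcases lt_trichotomy (rk i) (rk j) with h | h | h
    · exact Or.inr h
    · exact Or.inl (hinj h)
    · exact absurd (hinv ((hlt j i).mpr h)) hne
  refine ⟨v⁻¹, hwv, hw1, fun i => ?_⟩
  have h2 := congrFun (congrFun hwv i) i
  rw [Matrix.mul_apply, Matrix.one_apply_eq] at h2
  rw [Finset.sum_eq_single i] at h2
  · rw [h1' i, mul_one] at h2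
    exact h2
  · intro j _ hji
    by_cases ha : v⁻¹ i j = 0
    · rw [ha, zero_mul]
    · by_cases hb : v j i = 0
      · rw [hb, mul_zero]
      · rcases hw1 i j ha with h | h
        · exact absurd h.symm hji
        · rcases h1 j i hb with h' | h'
          · exact absurd h' hji
          · omega
  · intro h; exact absurd (Finset.mem_univ i) h

/-- (7d), entries: `L⁻¹ U'` integral with `L, U'` unitriangular in opposite senses. -/
theorem ul_int {R : Type*} [CommRing R] (A : Subring R) (v1 v2 : Mat 6 R)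
    (h1 : ∀ i j, (v1 i j ≠ 0 → i = j ∨ rk i < rk j)) (h1' : ∀ i, v1 i i = 1)
    (h2 : ∀ i j, (v2 i j ≠ 0 → i = j ∨ rk j < rk i)) (h2' : ∀ i, v2 i i = 1)
    (γ : Mat 6 R) (hγ : ∀ i j, γ i j ∈ A) (h : v1 * γ = v2) (γ' : Mat 6 R) (hγ' : ∀ i j, γ' i j ∈ A)
    (h' : γ * γ' = 1) : (∀ i j, v1 i j ∈ A) ∧ (∀ i j, v2 i j ∈ A) := by
  classical
  obtain ⟨w, hw, hw1, hw1'⟩ := ULfac_inv rk ULfac_inj v1 h1 h1'
  have hγw : γ = w * v2 := by
    rw [← h, ← Matrix.mul_assoc, hw, Matrix.one_mul]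
  -- descending induction
  have key : ∀ n : ℕ, ∀ i k : Fin 6 ⊕ Fin 6, 12 ≤ n + max (rk i) (rk k) →
      w i k ∈ A ∧ v2 i k ∈ A := by
    intro n
    induction n with
    | zero =>
      intro i k hik
      have hb : ∀ j : Fin 6 ⊕ Fin 6, rk j < 12 := by decide
      have := hb i
      have := hb k
      omega
    | succ n ih =>
      intro i k hik
      have e : γ i k = ∑ j, w i j * v2 j k := by rw [hγw, Matrix.mul_apply]
      rcases lt_trichotomy (rk i) (rk k) with hlt | heq | hgt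
      · -- `i` before `k`
        have hne : i ≠ k := fun hh => by rw [hh] at hlt; exact lt_irrefl _ hlt
        have hv : v2 i k = 0 := by
          by_contra hc
          rcases h2 i k hc with hh | hh
          · exact hne hh
          · omega
        refine ⟨?_, by rw [hv]; exact A.zero_mem⟩
        rw [← Finset.add_sum_erase _ _ (Finset.mem_univ k), h2' k, mul_one] at e
        have e2 : w i k = γ i k - ∑ j ∈ Finset.univ.erase k, w i j * v2 j k := by
          rw [e]; ring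
        rw [e2]
        refine A.sub_mem (hγ i k) (A.sum_mem fun j hj => ?_)
        rw [Finset.mem_erase] at hj
        by_cases hz : v2 j k = 0
        · rw [hz, mul_zero]; exact A.zero_mem
        · have hkj : rk k < rk j := by
            rcases h2 j k hz with hh | hh
            · exact absurd hh hj.1
            · exact hh
          refine A.mul_mem (ih i j ?_).1 (ih j k ?_).2
          · rw [max_def] at hik ⊢; split_ifs at hik ⊢ <;> omega
          · rw [max_def] at hik ⊢; split_ifs at hik ⊢ <;> omega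
      · have hik' : i = k := ULfac_inj heq
        subst hik'
        exact ⟨by rw [hw1']; exact A.one_mem, by rw [h2']; exact A.one_mem⟩
      · have hne : i ≠ k := fun hh => by rw [hh] at hgt; exact lt_irrefl _ hgt
        have hv : w i k = 0 := by
          by_contra hc
          rcases hw1 i k hc with hh | hh
          · exact hne hh
          · omega
        refine ⟨by rw [hv]; exact A.zero_mem, ?_⟩
        rw [← Finset.add_sum_erase _ _ (Finset.mem_univ i), hw1' i, one_mul] at e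
        have e2 : v2 i k = γ i k - ∑ j ∈ Finset.univ.erase i, w i j * v2 j k := by
          rw [e]; ring
        rw [e2]
        refine A.sub_mem (hγ i k) (A.sum_mem fun j hj => ?_)
        rw [Finset.mem_erase] at hj
        by_cases hz : w i j = 0
        · rw [hz, zero_mul]; exact A.zero_mem
        · have hkj : rk i < rk j := by
            rcases hw1 i j hz with hh | hh
            · exact absurd hh.symm hj.1
            · exact hh
          refine A.mul_mem (ih i j ?_).1 (ih j k ?_).2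
          · rw [max_def] at hik ⊢; split_ifs at hik ⊢ <;> omega
          · rw [max_def] at hik ⊢; split_ifs at hik ⊢ <;> omega
  have hv2 : ∀ i j, v2 i j ∈ A := fun i j => (key 12 i j (by omega)).2
  refine ⟨fun i j => ?_, hv2⟩
  have e3 : v1 = v2 * γ' := by
    rw [← h, Matrix.mul_assoc, h', Matrix.mul_one]
  rw [e3, Matrix.mul_apply]
  exact A.sum_mem fun k _ => A.mul_mem (hv2 i k) (hγ' k j)

/-- a rational number which is integral at all primes is an integer -/
theorem ULfac_rat_int (q : ℚ) (h : ∀ p : Nat.Primes, ‖(q : ℚ_[(p : ℕ)])‖ ≤ 1) :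
    ∃ z : ℤ, (z : ℚ) = q := by
  have hden : q.den = 1 := by
    by_contra hne
    obtain ⟨p, hp, hdvd⟩ := Nat.exists_prime_and_dvd hne
    have : Fact p.Prime := ⟨hp⟩
    have h1 := h ⟨p, hp⟩
    have h2 := (Padic.norm_rat_le_one_iff_padicValuation_le_one p).mp h1
    exact (Rat.padicValuation_le_one_iff.mp h2) hdvd
  exact ⟨q.num, Rat.coe_int_num_of_den_eq_one hden⟩

theorem ULfac_gp (g : Matrix.symplecticGroup (Fin 6) ℚ) (p : Nat.Primes) :
    gp (spMap 6 ratAdele g) p = g.1.map (Rat.cast : ℚ → ℚ_[(p : ℕ)]) := rfl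

theorem ULfac_gR (g : Matrix.symplecticGroup (Fin 6) ℚ) :
    gR (spMap 6 ratAdele g) = g.1.map (Rat.cast : ℚ → ℝ) := rfl

theorem ULfac_hdiag (a : Fin 6 → ℤ) : (hdiag ℚ a).map ratAdele = hdiag Adele a := by
  unfold hdiag
  rw [Matrix.diagonal_map (map_zero ratAdele)]
  congr 1

theorem ULfac_norm3 (z : ℤ) : ‖(z : ℚ_[(p3 : ℕ)])‖ ≤ 1 / 3 ↔ (3 : ℤ) ∣ z := by
  have h := Padic.norm_int_le_pow_iff_dvd (p := 3) z 1
  have e : ((3 : ℕ) : ℝ) ^ (-(1 : ℕ) : ℤ) = 1 / 3 := by norm_num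
  rw [e] at h
  simpa using h

/-- an integral matrix `V` which gives an element of `V_i(ℝ)`, as a rational point -/
theorem ULfac_point (V : Fin 6 ⊕ Fin 6 → Fin 6 ⊕ Fin 6 → ℤ) (v : Mat 6 ℝ)
    (hV : ∀ i j, (V i j : ℝ) = v i j) (hs : v ∈ Matrix.symplecticGroup (Fin 6) ℝ) :
    ∃ s : Matrix.symplecticGroup (Fin 6) ℚ, (∀ i j, s.1 i j = (V i j : ℚ)) ∧
      s.1.map (Rat.cast : ℚ → ℝ) = v := by
  let W : Mat 6 ℚ := Matrix.of fun i j => (V i j : ℚ)
  have hW : W.map (Rat.cast : ℚ → ℝ) = v := by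
    ext i j
    rw [Matrix.map_apply, ← hV i j]
    change (((V i j : ℚ) : ℚ) : ℝ) = _
    rw [Rat.cast_intCast]
  have hW' : W.map (Rat.castHom ℝ) = v := hW
  have hmem : W ∈ Matrix.symplecticGroup (Fin 6) ℚ := by
    rw [SymplecticGroup.mem_iff] at hs ⊢
    have hinj : Function.Injective (fun M : Mat 6 ℚ => M.map (Rat.castHom ℝ)) :=
      Matrix.map_injective (Rat.castHom ℝ).injective
    apply hinj
    change (W * J (Fin 6) ℚ * Wᵀ).map (Rat.castHom ℝ) = (J (Fin 6) ℚ).map (Rat.castHom ℝ)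
    rw [Matrix.map_mul, Matrix.map_mul, Matrix.transpose_map, hW', map_J (Fin 6) (Rat.castHom ℝ)]
    exact hs
  exact ⟨⟨W, hmem⟩, fun i j => rfl, hW⟩

/-- membership in `U` and in `V_i` for the point of `ULfac_point` -/
theorem ULfac_good (a : Fin 6 → ℤ) (V : Fin 6 ⊕ Fin 6 → Fin 6 ⊕ Fin 6 → ℤ) (v : Mat 6 ℝ)
    (hV : ∀ i j, (V i j : ℝ) = v i j) (h1 : v - 1 ∈ adGE (hdiag ℝ a) 2)
    (hd : ∀ i, V i i = 1)
    (h3 : ∀ i j, i ≠ j → (¬ (∃ i' j', i = Sum.inl i' ∧ j = Sum.inr j')) → (3 : ℤ) ∣ V i j)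
    (s : Matrix.symplecticGroup (Fin 6) ℚ) (hs : ∀ i j, s.1 i j = (V i j : ℚ)) :
    spMap 6 ratAdele s ∈ USet ∧
      ((spMap 6 ratAdele s : GA 6) : Mat 6 Adele) - 1 ∈ adGE ((hdiag ℚ a).map ratAdele) 2 := by
  refine ⟨⟨fun p i j => ?_, fun i j => ?_⟩, ?_⟩
  · rw [ULfac_gp, Matrix.map_apply, hs, Rat.cast_intCast]
    exact Padic.norm_int_le_one _
  · rw [ULfac_gp, Matrix.sub_apply, Matrix.map_apply, hs, Rat.cast_intCast]
    by_cases hij : i = j
    · subst hij
      rw [Matrix.one_apply_eq, hd, Int.cast_one, sub_self, norm_zero]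
      rcases i with i | i <;> norm_num [bd]
    · rw [Matrix.one_apply_ne hij, sub_zero]
      by_cases hb : ∃ i' j', i = Sum.inl i' ∧ j = Sum.inr j'
      · obtain ⟨i', j', rfl, rfl⟩ := hb
        exact Padic.norm_int_le_one _
      · have h4 := (ULfac_norm3 _).mpr (h3 i j hij hb)
        refine h4.trans (le_of_eq ?_)
        rcases i with i | i <;> rcases j with j | j
        · rfl
        · exact absurd ⟨i, j, rfl, rfl⟩ hb
        · rfl
        · rfl
  · rw [ULfac_hdiag]
    refine ULfac_mem a 2 _ fun r t hne => (adGE_diag a 2 (v - 1)).mp h1 r t fun hz => hne ?_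
    have e1 : ((spMap 6 ratAdele s : GA 6) : Mat 6 Adele) - 1 = (s.1 - 1).map ratAdele := by
      rw [Matrix.map_sub _ (map_sub ratAdele),
        Matrix.map_one ratAdele (map_zero ratAdele) (map_one ratAdele)]
      rfl
    have e2 : (s.1 - 1) r t = 0 := by
      rw [Matrix.sub_apply, hs]
      rw [Matrix.sub_apply, ← hV] at hz
      by_cases hrt : r = t
      · subst hrt
        rw [Matrix.one_apply_eq, hd]
        norm_num
      · rw [Matrix.one_apply_ne hrt, sub_zero] at hz ⊢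
        have : V r t = 0 := by exact_mod_cast hz
        rw [this, Int.cast_zero]
    rw [e1, Matrix.map_apply, e2, map_zero]

/-- (7d): a rational element of `U` which is a product `v₁⁻¹ v₂` over the reals. -/
theorem ul_main {γ : GA 6} (hγ : γ ∈ GQ 6) (hU : γ ∈ USet) (v1 v2 : Mat 6 ℝ)
    (h1 : v1 - 1 ∈ adGE (hdiag ℝ wa) 2) (h2 : v2 - 1 ∈ adGE (hdiag ℝ wb) 2)
    (hs1 : v1 ∈ Matrix.symplecticGroup (Fin 6) ℝ) (hs2 : v2 ∈ Matrix.symplecticGroup (Fin 6) ℝ)
    (h : v1 * gR γ = v2) :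
    ∃ γ1 γ2 : GA 6, γ1 ∈ GQ 6 ∧ γ2 ∈ GQ 6 ∧ γ1 ∈ USet ∧ γ2 ∈ USet ∧ gR γ1 = v1 ∧ gR γ2 = v2 ∧
      γ1 * γ = γ2 ∧ (γ1 : Mat 6 Adele) - 1 ∈ adGE ((hdiag ℚ wa).map ratAdele) 2 ∧
      (γ2 : Mat 6 Adele) - 1 ∈ adGE ((hdiag ℚ wb).map ratAdele) 2 := by
  classical
  obtain ⟨g, rfl⟩ := hγ
  have hint : ∀ i j, ∃ z : ℤ, (z : ℚ) = g.1 i j := fun i j =>
    ULfac_rat_int _ (fun p => hU.1 p i j)
  choose G hG using hint
  have hGR : ∀ i j, gR (spMap 6 ratAdele g) i j = (G i j : ℝ) := by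
    intro i j
    rw [ULfac_gR, Matrix.map_apply, ← hG, Rat.cast_intCast]
  let A : Subring ℝ := (Int.castRingHom ℝ).range
  have hA : ∀ z : ℤ, (z : ℝ) ∈ A := fun z => ⟨z, rfl⟩
  have hmulA : ∀ M N : Mat 6 ℝ, (∀ i j, M i j ∈ A) → (∀ i j, N i j ∈ A) →
      ∀ i j, (M * N) i j ∈ A := by
    intro M N hM hN i j
    rw [Matrix.mul_apply]
    exact A.sum_mem fun k _ => A.mul_mem (hM i k) (hN k j)
  have hJA : ∀ i j, (J (Fin 6) ℝ) i j ∈ A := by
    intro i j
    have h01 : ∀ (k l : Fin 6), (1 : Matrix (Fin 6) (Fin 6) ℝ) k l ∈ A := by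
      intro k l
      by_cases hkl : k = l
      · rw [hkl, Matrix.one_apply_eq]; exact A.one_mem
      · rw [Matrix.one_apply_ne hkl]; exact A.zero_mem
    rcases i with i | i <;> rcases j with j | j
    · exact A.zero_mem
    · exact A.neg_mem (h01 i j)
    · exact h01 i j
    · exact A.zero_mem
  have hgA : ∀ i j, gR (spMap 6 ratAdele g) i j ∈ A := fun i j => by
    rw [hGR]; exact hA _
  have hg'A : ∀ i j, gR (spMap 6 ratAdele g⁻¹) i j ∈ A := by
    have e : gR (spMap 6 ratAdele g⁻¹)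
        = -J (Fin 6) ℝ * (gR (spMap 6 ratAdele g))ᵀ * J (Fin 6) ℝ := by
      have e1 : gR (spMap 6 ratAdele g⁻¹) = (g⁻¹).1.map (Rat.castHom ℝ) := rfl
      have e2 : gR (spMap 6 ratAdele g) = g.1.map (Rat.castHom ℝ) := rfl
      have e3 : (g⁻¹).1 = -J (Fin 6) ℚ * (g.1)ᵀ * J (Fin 6) ℚ := SymplecticGroup.coe_inv g
      rw [e1, e2, e3, Matrix.map_mul, Matrix.map_mul, Matrix.map_neg _ (map_neg (Rat.castHom ℝ)),
        map_J (Fin 6) (Rat.castHom ℝ), Matrix.transpose_map]
    intro i j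
    rw [e]
    refine hmulA _ _ (hmulA _ _ (fun i j => ?_) (fun i j => ?_)) hJA i j
    · rw [Matrix.neg_apply]; exact A.neg_mem (hJA i j)
    · rw [Matrix.transpose_apply]; exact hgA j i
  have hgg : gR (spMap 6 ratAdele g) * gR (spMap 6 ratAdele g⁻¹) = 1 := by
    have e1 : gR (spMap 6 ratAdele g⁻¹) = (g⁻¹).1.map (Rat.castHom ℝ) := rfl
    have e2 : gR (spMap 6 ratAdele g) = g.1.map (Rat.castHom ℝ) := rfl
    rw [e1, e2, ← Matrix.map_mul, ← Submonoid.coe_mul, mul_inv_cancel]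
    exact Matrix.map_one _ (map_zero _) (map_one _)
  obtain ⟨t1, d1⟩ := unip_tri1 h1
  obtain ⟨t2, d2⟩ := unip_tri2 h2
  obtain ⟨hv1, hv2⟩ := ul_int A v1 v2 t1 d1 t2 d2 _ hgA h _ hg'A hgg
  have hz1 : ∀ i j, ∃ z : ℤ, (z : ℝ) = v1 i j := fun i j => hv1 i j
  have hz2 : ∀ i j, ∃ z : ℤ, (z : ℝ) = v2 i j := fun i j => hv2 i j
  choose V1 hV1 using hz1
  choose V2 hV2 using hz2
  have hd1 : ∀ i, V1 i i = 1 := fun i => by
    have := hV1 i i
    rw [d1] at this
    exact_mod_cast this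
  have hd2 : ∀ i, V2 i i = 1 := fun i => by
    have := hV2 i i
    rw [d2] at this
    exact_mod_cast this
  have ht1 : ∀ i j, i ≠ j → V1 i j ≠ 0 → rk i < rk j := by
    intro i j hij hne
    rcases t1 i j (by rw [← hV1]; exact_mod_cast hne) with hh | hh
    · exact absurd hh hij
    · exact hh
  have ht2 : ∀ i j, i ≠ j → V2 i j ≠ 0 → rk j < rk i := by
    intro i j hij hne
    rcases t2 i j (by rw [← hV2]; exact_mod_cast hne) with hh | hh
    · exact absurd hh hij
    · exact hh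
  -- the product over the integers
  have hprod : ∀ i j, V2 i j = ∑ k, V1 i k * G k j := by
    intro i j
    have e := congrFun (congrFun h i) j
    rw [Matrix.mul_apply] at e
    have e' : ((∑ k, V1 i k * G k j : ℤ) : ℝ) = (V2 i j : ℝ) := by
      push_cast
      rw [hV2, ← e]
      exact Finset.sum_congr rfl fun k _ => by rw [hV1, hGR]
    exact_mod_cast e'.symm
  have hdiff : ∀ i j, V2 i j - V1 i j = ∑ k, V1 i k * (G k j - if k = j then 1 else 0) := by
    intro i j
    rw [hprod i j]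
    have : V1 i j = ∑ k, V1 i k * (if k = j then 1 else 0) := by simp
    rw [this, ← Finset.sum_sub_distrib]
    exact Finset.sum_congr rfl fun k _ => (mul_sub _ _ _).symm
  -- `γ` modulo `3`
  have hG3 : ∀ k j, (¬ (∃ i' j', k = Sum.inl i' ∧ j = Sum.inr j')) →
      (3 : ℤ) ∣ G k j - if k = j then 1 else 0 := by
    intro k j hkj
    rw [← ULfac_norm3]
    have e := hU.2 k j
    have e2 : (gp ((spMap 6 ratAdele) g) p3 - 1) k j
        = ((G k j - if k = j then 1 else 0 : ℤ) : ℚ_[(p3 : ℕ)]) := by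
      rw [ULfac_gp, Matrix.sub_apply, Matrix.map_apply, ← hG, Rat.cast_intCast, Matrix.one_apply]
      split_ifs <;> push_cast <;> rfl
    rw [e2] at e
    refine e.trans (le_of_eq ?_)
    rcases k with k | k <;> rcases j with j | j
    · rfl
    · exact absurd ⟨k, j, rfl, rfl⟩ hkj
    · rfl
    · rfl
  have hstep : ∀ i j, i ≠ j → (3 : ℤ) ∣ V2 i j - V1 i j → (3 : ℤ) ∣ V1 i j ∧ (3 : ℤ) ∣ V2 i j := by
    intro i j hij hdv
    have hA1 : (3 : ℤ) ∣ V1 i j := by
      by_contra hn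
      have hn2 : ¬ (3 : ℤ) ∣ V2 i j := fun hh => hn (by
        have := dvd_sub hh hdv
        simpa using this)
      have e1 := ht1 i j hij (fun h0 => hn (by rw [h0]; exact dvd_zero _))
      have e2 := ht2 i j hij (fun h0 => hn2 (by rw [h0]; exact dvd_zero _))
      omega
    refine ⟨hA1, ?_⟩
    have := dvd_add hdv hA1
    simpa using this
  have hB : ∀ i j', i ≠ Sum.inl j' → (3 : ℤ) ∣ V1 i (Sum.inl j') ∧ (3 : ℤ) ∣ V2 i (Sum.inl j') := by
    intro i j' hij
    refine hstep i _ hij ?_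
    rw [hdiff]
    refine Finset.dvd_sum fun k _ => Dvd.dvd.mul_left (hG3 k _ ?_) _
    rintro ⟨_, _, _, hh⟩
    cases hh
  have hC : ∀ i' j', i' ≠ j' → (3 : ℤ) ∣ V1 (Sum.inr i') (Sum.inr j') ∧
      (3 : ℤ) ∣ V2 (Sum.inr i') (Sum.inr j') := by
    intro i' j' hij
    refine hstep _ _ (fun hh => hij (Sum.inr_injective hh)) ?_
    rw [hdiff]
    refine Finset.dvd_sum fun k _ => ?_
    rcases k with k | k
    · exact Dvd.dvd.mul_right (hB _ k (by simp)).1 _
    · refine Dvd.dvd.mul_left (hG3 _ _ ?_) _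
      rintro ⟨_, _, hh, _⟩
      cases hh
  have h3 : ∀ i j, i ≠ j → (¬ (∃ i' j', i = Sum.inl i' ∧ j = Sum.inr j')) →
      (3 : ℤ) ∣ V1 i j ∧ (3 : ℤ) ∣ V2 i j := by
    intro i j hij hb
    rcases j with j | j
    · exact hB i j hij
    · rcases i with i | i
      · exact absurd ⟨i, j, rfl, rfl⟩ hb
      · exact hC i j (fun hh => hij (by rw [hh]))
  obtain ⟨s1, hs1', hs1R⟩ := ULfac_point V1 v1 hV1 hs1
  obtain ⟨s2, hs2', hs2R⟩ := ULfac_point V2 v2 hV2 hs2
  obtain ⟨u1, m1⟩ := ULfac_good wa V1 v1 hV1 h1 hd1 (fun i j a b => (h3 i j a b).1) s1 hs1'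
  obtain ⟨u2, m2⟩ := ULfac_good wb V2 v2 hV2 h2 hd2 (fun i j a b => (h3 i j a b).2) s2 hs2'
  refine ⟨spMap 6 ratAdele s1, spMap 6 ratAdele s2, ⟨s1, rfl⟩, ⟨s2, rfl⟩, u1, u2,
    hs1R, hs2R, ?_, m1, m2⟩
  rw [← map_mul]
  congr 1
  apply Subtype.ext
  rw [Submonoid.coe_mul]
  ext i j
  rw [Matrix.mul_apply, hs2', hprod]
  push_cast
  exact Finset.sum_congr rfl fun k _ => by rw [hs1', hG]

end Pool.Agent.FC
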