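import Pool.Agent.FC.Key
import Pool.Agent.FC.Rho
import Pool.Agent.FC.ResM
import Pool.Agent.FC.SA7a
import Pool.Agent.FC.PsiChiA
import Pool.Agent.FC.ULfac

/-!
# FC-KeyI: the key claim of section 7 for `Sp_12(𝔸)`
-/

set_option autoImplicit false

open RestrictedProduct Matrix MeasureTheory Topology

noncomputable section

namespace Pool.Agent.FC

namespace KeyI

open ResM PsiChiA

/-- ring homomorphisms respect the filtration -/
theorem adGE_map' {n : ℕ} {R S : Type*} [CommRing R] [CommRing S] (φ : R →+* S) {h : Mat n R} {i : ℤ}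
    {X : Mat n R} (hX : X ∈ adGE h i) : X.map φ ∈ adGE (h.map φ) i := by
  induction hX using Submodule.span_induction with
  | mem X hX =>
    obtain ⟨j, hj, hX⟩ := hX
    refine Submodule.subset_span ⟨j, hj, ?_⟩
    have h1 : (h * X - X * h).map φ = ((j : R) • X).map φ := by rw [hX]
    rw [Matrix.map_sub _ (map_sub φ), Matrix.map_mul, Matrix.map_mul] at h1
    rw [h1]
    ext a b
    simp
  | zero =>
    rw [Matrix.map_zero _ (map_zero φ)]
    exact Submodule.zero_mem _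
  | add X Y _ _ h1 h2 =>
    rw [Matrix.map_add _ (map_add φ)]
    exact Submodule.add_mem _ h1 h2
  | smul c X _ h1 =>
    have h2 : (c • X).map φ = φ c • X.map φ := by
      ext a b
      simp
    rw [h2]
    exact Submodule.smul_mem _ _ h1

theorem map_ratAdele_evR {n : ℕ} (M : Mat n ℚ) :
    (M.map ratAdele).map evR = M.map (algebraMap ℚ ℝ) := by
  ext i j; rfl

theorem hdiag_map' {R S : Type*} [CommRing R] [CommRing S] (φ : R →+* S) (a : Fin 6 → ℤ) :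
    (hdiag R a).map φ = hdiag S a := by
  unfold hdiag
  rw [Matrix.diagonal_map (map_zero φ)]
  congr 1
  ext i
  simp

theorem gR_eq (g : GA 6) : gR g = ((spR g : Matrix.symplecticGroup (Fin 6) ℝ) : Mat 6 ℝ) := rfl

theorem gR_sub_one_mem {T : Triple 6} {a : Fin 6 → ℤ} (hT : T.h = hdiag ℚ a) {v : GA 6}
    (hv : v ∈ T.VA) : gR v - 1 ∈ adGE (hdiag ℝ a) 2 := by
  have h1 : (v : Mat 6 Adele) - 1 ∈ adGE (T.h.map ratAdele) 2 := hv
  have h2 := adGE_map' evR h1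
  rw [Matrix.map_sub _ (map_sub evR), Matrix.map_one _ (map_zero _) (map_one _), map_ratAdele_evR,
    hT, hdiag_map'] at h2
  exact h2

/-- `ψ_f(v)` as an element of the circle -/
def cc (ψ : AddChar Adele Circle) (T : Triple 6) (v : GA 6) : Circle :=
  ψ (Matrix.trace (T.f.map ratAdele * ((v : Mat 6 Adele) - 1)))

/-- the factor at infinity -/
def rr (ψ : AddChar Adele Circle) (T : Triple 6) (x : Mat 6 ℝ) : Circle :=
  ψ ((Matrix.trace (T.f.map (algebraMap ℚ ℝ) * (x - 1)), 0) : Adele)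

theorem char_eq_cc (ψ : AddChar Adele Circle) (T : Triple 6) (v : GA 6) :
    T.char ψ v = ((cc ψ T v : Circle) : ℂ) := rfl

/-- (7b) -/
theorem cc_split {ψ : AddChar Adele Circle} (hψ : IsStd ψ) {a : Fin 6 → ℤ}
    (ha : a = wa ∨ a = wb) (T : Triple 6) (hT : T.h = hdiag ℚ a) (hf : T.f = fq a)
    (v : GA 6) (hv : v ∈ T.VA) (hU : v ∈ USet) : cc ψ T v = rr ψ T (gR v) * chi ψ v := by
  have hv1 : (v : Mat 6 Adele) - 1 ∈ adGE (T.h.map ratAdele) 2 := hv
  set z : Adele := Matrix.trace (T.f.map ratAdele * ((v : Mat 6 Adele) - 1)) with hz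
  have hev : ∀ p : Nat.Primes, evp p z
      = Matrix.trace ((fq a).map (Rat.cast : ℚ → ℚ_[(p : ℕ)]) * (gp v p - 1)) := by
    intro p
    rw [hz, AddMonoidHom.map_trace, Matrix.map_mul, map_evp_rat, hf,
      Matrix.map_sub _ (map_sub (evp p)), Matrix.map_one _ (map_zero _) (map_one _)]
    rfl
  have hr : z.1 = Matrix.trace (T.f.map (algebraMap ℚ ℝ) * (gR v - 1)) := by
    have h1 : evR z = Matrix.trace ((T.f.map ratAdele).map evR * (gR v - 1)) := by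
      rw [hz, AddMonoidHom.map_trace, Matrix.map_mul,
        Matrix.map_sub _ (map_sub evR), Matrix.map_one _ (map_zero _) (map_one _)]
      rfl
    rw [map_ratAdele_evR] at h1
    exact h1
  have haway : ∀ p : Nat.Primes, p ≠ p3 → ‖z.2 p‖ ≤ 1 := by
    intro p hp
    have h1 := hev p
    have h2 : evp p z = z.2 p := rfl
    rw [← h2, h1]
    apply norm_trace_le
    · intro i j
      rw [Matrix.map_apply]
      exact norm_fq hp a i j
    · intro i j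
      rw [Matrix.sub_apply]
      have h3 : ‖(1 : Mat 6 ℚ_[(p : ℕ)]) i j‖ ≤ 1 := by
        rw [Matrix.one_apply]
        split_ifs <;> simp
      have h4 := Padic.nonarchimedean (gp v p i j) (-((1 : Mat 6 ℚ_[(p : ℕ)]) i j))
      rw [norm_neg, ← sub_eq_add_neg] at h4
      exact h4.trans (max_le (hU.1 p i j) h3)
  have h3 : z.2 p3 = Matrix.trace (X3 * (gp v p3 - 1)) := by
    have h1 := hev p3
    have h2 : evp p3 z = z.2 p3 := rfl
    rw [← h2, h1]
    apply trace_eq ha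
    have h4 := PsiChiA.adGE_map (evp p3) hv1
    rw [map_evp_rat, hT, PsiChiA.hdiag_map, Matrix.map_sub _ (map_sub (evp p3)),
      Matrix.map_one _ (map_zero _) (map_one _)] at h4
    exact h4
  have hsplit : z = ((z.1, 0) : Adele) + ((0, z.2) : Adele) := by
    ext1
    · simp
    · simp
  have hcc : cc ψ T v = ψ z := rfl
  rw [hcc]
  conv_lhs => rw [hsplit]
  rw [AddChar.map_add_eq_mul, psi_away hψ ((0, z.2) : Adele) rfl haway, hr]
  change _ * theta ψ (z.2 p3) = _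
  rw [h3]
  rfl

theorem comm_aux_add {A : Type*} [AddCommGroup A] (a b c d : A) :
    -d + b + -(-c + a) + (a + (-c + d) + -b) = 0 := by abel

theorem comm_aux {M : Type*} [CommGroup M] (a b c d : M) :
    d⁻¹ * b * (c⁻¹ * a)⁻¹ * (a * (c⁻¹ * d) * b⁻¹) = 1 :=
  comm_aux_add (A := Additive M) (Additive.ofMul a) (Additive.ofMul b) (Additive.ofMul c)
    (Additive.ofMul d)

/-- (7d) in the form needed -/
theorem phase_one {ψ : AddChar Adele Circle} (hψ : IsStd ψ) (T1 T2 : Triple 6)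
    (h1 : T1.h = hdiag ℚ wa) (f1 : T1.f = fq wa) (h2 : T2.h = hdiag ℚ wb) (f2 : T2.f = fq wb)
    {v1 v2 γ : GA 6} (hv1 : v1 ∈ T1.VA) (hv1U : v1 ∈ USet) (hv2 : v2 ∈ T2.VA) (hv2U : v2 ∈ USet)
    (hγ : γ ∈ GQ 6) (hγU : γ ∈ USet) (h : spR (v1 * γ * v2⁻¹) = 1) :
    cc ψ T2 v2 * (cc ψ T1 v1)⁻¹ * chi ψ (v1 * γ * v2⁻¹) = 1 := by
  have hR : gR v1 * gR γ = gR v2 := by
    rw [spR_mul, spR_mul, spR_inv, mul_inv_eq_one] at h
    rw [gR_eq, gR_eq, gR_eq, ← h]
    rfl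
  obtain ⟨γ1, γ2, hγ1, hγ2, hγ1U, hγ2U, e1, e2, e3, m1, m2⟩ := ul_main hγ hγU (gR v1) (gR v2)
    (gR_sub_one_mem h1 hv1) (gR_sub_one_mem h2 hv2) (spR v1).2 (spR v2).2 hR
  have hm1 : γ1 ∈ T1.VA := by
    change (γ1 : Mat 6 Adele) - 1 ∈ adGE (T1.h.map ratAdele) 2
    rw [h1]; exact m1
  have hm2 : γ2 ∈ T2.VA := by
    change (γ2 : Mat 6 Adele) - 1 ∈ adGE (T2.h.map ratAdele) 2
    rw [h2]; exact m2
  have c1 := cc_split hψ (Or.inl rfl) T1 h1 f1 v1 hv1 hv1U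
  have c2 := cc_split hψ (Or.inr rfl) T2 h2 f2 v2 hv2 hv2U
  have d1 := cc_split hψ (Or.inl rfl) T1 h1 f1 γ1 hm1 hγ1U
  have d2 := cc_split hψ (Or.inr rfl) T2 h2 f2 γ2 hm2 hγ2U
  have q1 : cc ψ T1 γ1 = 1 := by
    apply Subtype.ext
    have := T1.char_of_mem_GQ hψ.rat hγ1
    rw [char_eq_cc] at this
    exact this
  have q2 : cc ψ T2 γ2 = 1 := by
    apply Subtype.ext
    have := T2.char_of_mem_GQ hψ.rat hγ2
    rw [char_eq_cc] at this
    exact this
  rw [q1, e1] at d1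
  rw [q2, e2] at d2
  have x1 : chi ψ (v1 * γ * v2⁻¹) = chi ψ v1 * chi ψ γ * (chi ψ v2)⁻¹ := by
    rw [chi_mul hψ (UGrp.mul_mem hv1U hγU) (UGrp.inv_mem hv2U), chi_mul hψ hv1U hγU,
      chi_inv hψ hv2U]
  have x2 : chi ψ γ = (chi ψ γ1)⁻¹ * chi ψ γ2 := by
    rw [← e3, chi_mul hψ hγ1U hγU, inv_mul_cancel_left]
  have y1 : rr ψ T1 (gR v1) = (chi ψ γ1)⁻¹ := eq_inv_of_mul_eq_one_left d1.symm
  have y2 : rr ψ T2 (gR v2) = (chi ψ γ2)⁻¹ := eq_inv_of_mul_eq_one_left d2.symm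
  rw [x1, x2, c1, c2, y1, y2]
  exact comm_aux _ _ _ _

end KeyI

open KeyI ResM PsiChiA

theorem key_inst {ψ : AddChar Adele Circle} (hψ : IsStd ψ) (T1 T2 : Triple 6)
    (h1 : T1.h = hdiag ℚ wa) (f1 : T1.f = fq wa) (h2 : T2.h = hdiag ℚ wb) (f2 : T2.f = fq wb)
    {δ : ℝ} (hδ : 0 < δ) :
    ∃ B ∈ 𝓝 (1 : Matrix.symplecticGroup (Fin 6) ℝ), ∀ v1 ∈ T1.VA, ∀ v2 ∈ T2.VA, ∀ γ ∈ GQ 6,
      v1 * γ * v2⁻¹ ∈ USet → spR (v1 * γ * v2⁻¹) ∈ B →
      ‖T2.char ψ v2 * (starRingEnd ℂ) (T1.char ψ v1) * ((chi ψ (v1 * γ * v2⁻¹) : Circle) : ℂ) - 1‖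
        ≤ δ := by
  have hloc : LocallyCompactSpace (Matrix.symplecticGroup (Fin 6) ℝ) := inferInstance
  obtain ⟨D1, hD1, hDV1, ha1⟩ := sa7a h1
  obtain ⟨D2, hD2, hDV2, ha2⟩ := sa7a h2
  have hcont : ∀ T : Triple 6, Continuous fun v : GA 6 => T.char ψ v := fun T =>
    T.continuous_char hψ.cont
  refine key (spMap 6 evR) continuous_spR (GQ 6) T1.VA T2.VA UGrp ?_ D1 D2 hD1 hD2 hDV1 hDV2 ha1 ha2
    (fun g => ((chi ψ g : Circle) : ℂ)) (fun v => T1.char ψ v) (fun v => T2.char ψ v)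
    (continuous_subtype_val.comp (continuous_chi hψ)).continuousOn
    (hcont T1).continuousOn (hcont T2).continuousOn
    (fun v hv q hq hq' => T1.char_mul_GQ hψ.rat hv hq hq')
    (fun v hv q hq hq' => T2.char_mul_GQ hψ.rat hv hq hq') ?_ hδ
  · intro B hB
    exact isCompact_U_inter hB
  · intro v1 hv1 hv1U v2 hv2 hv2U γ hγ hγU h
    have h3 := phase_one hψ T1 T2 h1 f1 h2 f2 hv1 hv1U hv2 hv2U hγ hγU h
    have h4 := congrArg (fun z : Circle => (z : ℂ)) h3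
    simp only [Circle.coe_mul, Circle.coe_inv_eq_conj, Circle.coe_one] at h4
    exact h4

end Pool.Agent.FC
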