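import Pool.Agent.FC.HFun
import Pool.Agent.FC.Bump

/-!
# FC: from the key claim to the phase condition
-/

set_option linter.all false

open RestrictedProduct Matrix MeasureTheory Topology

noncomputable section

namespace Pool.Agent.FC

theorem phase_of_key {ψ : AddChar Adele Circle} (hψ : IsStd ψ) (T₁ T₂ : Triple 6)
    (hkey : ∀ δ : ℝ, 0 < δ → ∃ B ∈ 𝓝 (1 : symplecticGroup (Fin 6) ℝ),
      ∀ v1 ∈ T₁.VA, ∀ v2 ∈ T₂.VA, ∀ γ ∈ GQ 6, v1 * γ * v2⁻¹ ∈ USet →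
        prR 6 (v1 * γ * v2⁻¹) ∈ B →
        ‖T₂.char ψ v2 * starRingEnd ℂ (T₁.char ψ v1) *
          ((chi ψ (v1 * γ * v2⁻¹) : Circle) : ℂ) - 1‖ ≤ δ) :
    ∃ η : symplecticGroup (Fin 6) ℝ → ℝ, Continuous η ∧ HasCompactSupport η ∧ (∀ g, 0 ≤ η g) ∧
      0 < η 1 ∧ (∀ g, η g⁻¹ = η g) ∧
      ∀ a ∈ T₂.VA, ∀ b ∈ T₁.VA, ∀ γ ∈ GQ 6, ∀ z : GA 6,
        0 ≤ (T₂.char ψ a * starRingEnd ℂ (T₁.char ψ b) * hfun ψ η (a * z⁻¹) *
          starRingEnd ℂ (hfun ψ η (b * γ * z⁻¹))).re := by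
  obtain ⟨B, hB, hkey⟩ := hkey 1 one_pos
  obtain ⟨C, η, _, _, hCi, hCC, hη, hηc, _, hη0, _, hη1, hηi, hηC⟩ := exists_bump_nhds hB
  refine ⟨η, hη, hηc, hη0, by rw [hη1]; exact one_pos, hηi, ?_⟩
  intro a ha b hb γ hγ z
  by_cases h1 : hfun ψ η (a * z⁻¹) = 0
  · rw [h1]; simp
  by_cases h2 : hfun ψ η (b * γ * z⁻¹) = 0
  · rw [h2]; simp
  have hy : b * γ * z⁻¹ = (b * γ * a⁻¹) * (a * z⁻¹) := by group
  obtain ⟨hU, hph⟩ := hfun_mul_conj hψ hy h1 h2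
  have hne : ∀ g : GA 6, hfun ψ η g ≠ 0 → prR 6 g ∈ C := by
    intro g hg
    refine hηC _ fun h0 => hg ?_
    unfold hfun
    by_cases hgU : g ∈ USet
    · rw [Set.indicator_of_mem hgU, h0]; simp
    · rw [Set.indicator_of_notMem hgU]
  have hB1 : prR 6 (b * γ * a⁻¹) ∈ B := by
    have e : b * γ * a⁻¹ = (b * γ * z⁻¹) * (a * z⁻¹)⁻¹ := by group
    rw [e, map_mul, map_inv]
    refine hCC (Set.mul_mem_mul (hne _ h2) ?_)
    rw [← hCi]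
    exact Set.inv_mem_inv.mpr (hne _ h1)
  have hk := hkey b hb a ha γ hγ hU hB1
  set θ : ℂ := T₂.char ψ a * starRingEnd ℂ (T₁.char ψ b) *
          ((chi ψ (b * γ * a⁻¹) : Circle) : ℂ) with hθ
  set r : ℝ := η (prR 6 (a * z⁻¹)) * η (prR 6 (b * γ * z⁻¹)) with hr
  have hr0 : 0 ≤ r := mul_nonneg (hη0 _) (hη0 _)
  have e1 : T₂.char ψ a * starRingEnd ℂ (T₁.char ψ b) * hfun ψ η (a * z⁻¹) *
          starRingEnd ℂ (hfun ψ η (b * γ * z⁻¹)) = θ * (r : ℂ) := by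
    rw [hθ, mul_assoc, hph]; ring
  rw [e1, Complex.re_mul_ofReal]
  refine mul_nonneg ?_ hr0
  have h3 : |(θ - 1).re| ≤ 1 := (Complex.abs_re_le_norm _).trans hk
  rw [Complex.sub_re, Complex.one_re] at h3
  have := (abs_le.mp h3).1
  linarith

end Pool.Agent.FC
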