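import Pool.Agent.FC.HFun
import Pool.Agent.FC.KeyI
import Pool.Agent.FC.PhaseK

/-!
# FC: the phase condition (section 7)
-/

open RestrictedProduct Matrix MeasureTheory Topology

noncomputable section

namespace Pool.Agent.FC

/-- A real bump function for which the phase condition holds. -/
theorem exists_phase {ψ : AddChar Adele Circle} (hψ : IsStd ψ) (T₁ T₂ : Triple 6)
    (h₁ : T₁.h = hdiag ℚ wa) (f₁ : T₁.f = fq wa) (h₂ : T₂.h = hdiag ℚ wb) (f₂ : T₂.f = fq wb) :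
    ∃ η : symplecticGroup (Fin 6) ℝ → ℝ, Continuous η ∧ HasCompactSupport η ∧ (∀ g, 0 ≤ η g) ∧
      0 < η 1 ∧ (∀ g, η g⁻¹ = η g) ∧
      ∀ a ∈ T₂.VA, ∀ b ∈ T₁.VA, ∀ γ ∈ GQ 6, ∀ z : GA 6,
        0 ≤ (T₂.char ψ a * starRingEnd ℂ (T₁.char ψ b) * hfun ψ η (a * z⁻¹) *
          starRingEnd ℂ (hfun ψ η (b * γ * z⁻¹))).re :=
  phase_of_key hψ T₁ T₂ fun _ hδ => key_inst hψ T₁ T₂ h₁ f₁ h₂ f₂ hδ

end Pool.Agent.FC
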