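import Pool.Agent.FC.VCompB

set_option linter.all false

namespace Pool.Agent.FC.VComp

open Matrix RestrictedProduct Pointwise

variable {n : ℕ}

theorem adGE_eq_bot (h : Mat n ℚ) : ∃ N : ℕ, 1 ≤ N ∧ ∀ j : ℤ, (N : ℤ) ≤ j →
    adGE (h.map ratAdele) j = ⊥ := by
  obtain ⟨N, hN1, hN⟩ := exists_bound h
  refine ⟨N.toNat, by omega, fun j hj => ?_⟩
  rw [eq_bot_iff]
  refine Submodule.span_le.mpr ?_
  rintro X ⟨l, hl, hX⟩
  have h1 := hN l (by omega) X hX
  simpa using h1

theorem pow_eq_zero_of_mem {h : Mat n ℚ} {N : ℕ} (hN1 : 1 ≤ N)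
    (hN : ∀ j : ℤ, (N : ℤ) ≤ j → adGE (h.map ratAdele) j = ⊥) {i : ℤ} (hi : 1 ≤ i)
    {Y : Mat n Adele} (hY : Y ∈ adGE (h.map ratAdele) i) : Y ^ N = 0 := by
  obtain ⟨k, rfl⟩ := Nat.exists_eq_add_of_le' hN1
  have h1 := adGE_pow (by linarith) hY k
  have h2 : ((k + 1 : ℕ) : ℤ) ≤ (k + 1) * i := by
    push_cast
    nlinarith [Int.natCast_nonneg k]
  rw [hN _ h2] at h1
  simpa using h1

/-- matrices whose finite part is divisible by `m` -/
def Dv (m : ℕ) (X : Mat n Adele) : Prop :=
  ∀ a b (p : Nat.Primes), ‖(X a b).2 p‖ ≤ ‖(m : ℚ_[p.1])‖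

theorem Dv.add {m : ℕ} {X Y : Mat n Adele} (hX : Dv m X) (hY : Dv m Y) : Dv m (X + Y) := by
  intro a b p
  have : ((X + Y) a b).2 p = (X a b).2 p + (Y a b).2 p := rfl
  rw [this]
  exact (IsUltrametricDist.norm_add_le_max _ _).trans (max_le (hX a b p) (hY a b p))

theorem Dv.neg {m : ℕ} {X : Mat n Adele} (hX : Dv m X) : Dv m (-X) := by
  intro a b p
  have : ((-X) a b).2 p = -((X a b).2 p) := rfl
  rw [this, norm_neg]
  exact hX a b p

theorem Dv.sub {m : ℕ} {X Y : Mat n Adele} (hX : Dv m X) (hY : Dv m Y) : Dv m (X - Y) := by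
  rw [sub_eq_add_neg]; exact hX.add hY.neg

theorem Dv.zero {m : ℕ} : Dv m (0 : Mat n Adele) := by
  intro a b p
  have : ((0 : Mat n Adele) a b).2 p = 0 := rfl
  rw [this, norm_zero]
  exact norm_nonneg _

theorem Dv.one : Dv 1 (1 : Mat n Adele) := by
  intro a b p
  rw [Nat.cast_one, norm_one]
  by_cases hab : a = b
  · subst hab
    rw [Matrix.one_apply_eq]
    change ‖(1 : ℚ_[p.1])‖ ≤ 1
    rw [norm_one]
  · rw [Matrix.one_apply_ne hab]
    change ‖(0 : ℚ_[p.1])‖ ≤ 1
    rw [norm_zero]; exact zero_le_one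

theorem snd_sum_apply {ι : Type*} (s : Finset ι) (f : ι → Adele) (p : Nat.Primes) :
    (∑ k ∈ s, f k).2 p = ∑ k ∈ s, (f k).2 p := by
  classical
  induction s using Finset.induction_on with
  | empty => rfl
  | insert a s ha ih => rw [Finset.sum_insert ha, Finset.sum_insert ha, ← ih]; rfl

theorem Dv.mul {a b : ℕ} {X Y : Mat n Adele} (hX : Dv a X) (hY : Dv b Y) :
    Dv (a * b) (X * Y) := by
  intro i j p
  rw [Matrix.mul_apply, snd_sum_apply]
  refine IsUltrametricDist.norm_sum_le_of_forall_le_of_nonneg (norm_nonneg _) fun k _ => ?_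
  have : (X i k * Y k j).2 p = (X i k).2 p * (Y k j).2 p := rfl
  rw [this, norm_mul, Nat.cast_mul, norm_mul]
  exact mul_le_mul (hX i k p) (hY k j p) (norm_nonneg _) (norm_nonneg _)

theorem Dv.of_dvd {a b : ℕ} (hab : a ∣ b) {X : Mat n Adele} (hX : Dv b X) : Dv a X := by
  obtain ⟨c, rfl⟩ := hab
  intro i j p
  refine (hX i j p).trans ?_
  rw [Nat.cast_mul, norm_mul]
  have : ‖(c : ℚ_[p.1])‖ ≤ 1 := IsUltrametricDist.norm_natCast_le_one ℚ_[p.1] c
  nlinarith [norm_nonneg (a : ℚ_[p.1])]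

theorem Dv.to_one {m : ℕ} {X : Mat n Adele} (hX : Dv m X) : Dv 1 X :=
  hX.of_dvd (one_dvd m)

theorem Dv.J_mem : Dv 1 (J (Fin n) Adele) := by
  intro a b p
  rw [Nat.cast_one, norm_one]
  rcases a with a | a <;> rcases b with b | b
  · change ‖(0 : ℚ_[p.1])‖ ≤ 1
    rw [norm_zero]; exact zero_le_one
  · have := (Dv.one (n := n)).neg (Sum.inl a) (Sum.inl b) p
    rw [Nat.cast_one, norm_one] at this
    have e : J (Fin n) Adele (Sum.inl a) (Sum.inr b)
        = (-(1 : Mat n Adele)) (Sum.inl a) (Sum.inl b) := by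
      unfold J
      rw [Matrix.fromBlocks_apply₁₂, Matrix.neg_apply, Matrix.neg_apply]
      congr 1
      by_cases hab : a = b
      · subst hab; rw [Matrix.one_apply_eq, Matrix.one_apply_eq]
      · rw [Matrix.one_apply_ne hab, Matrix.one_apply_ne (fun h => hab (Sum.inl_injective h))]
    rw [e]
    exact this
  · have := (Dv.one (n := n)) (Sum.inl a) (Sum.inl b) p
    rw [Nat.cast_one, norm_one] at this
    have e : J (Fin n) Adele (Sum.inr a) (Sum.inl b)
        = ((1 : Mat n Adele)) (Sum.inl a) (Sum.inl b) := by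
      unfold J
      rw [Matrix.fromBlocks_apply₂₁]
      by_cases hab : a = b
      · subst hab; rw [Matrix.one_apply_eq, Matrix.one_apply_eq]
      · rw [Matrix.one_apply_ne hab, Matrix.one_apply_ne (fun h => hab (Sum.inl_injective h))]
    rw [e]
    exact this
  · change ‖(0 : ℚ_[p.1])‖ ≤ 1
    rw [norm_zero]; exact zero_le_one

theorem Dv.adj {m : ℕ} {X : Mat n Adele} (hX : Dv m X) : Dv m (adj X) := by
  unfold VComp.adj
  have hT : Dv m Xᵀ := fun a b p => hX b a p
  have h1 := (Dv.J_mem (n := n)).neg.mul hT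
  have h2 := h1.mul Dv.J_mem
  rwa [one_mul, mul_one] at h2

theorem Dv.nsmul {m : ℕ} {X : Mat n Adele} (hX : Dv m X) (k : ℕ) : Dv m (k • X) := by
  induction k with
  | zero => rw [zero_smul]; exact Dv.zero
  | succ k ih => rw [succ_nsmul]; exact ih.add hX

theorem Dv.pow {X : Mat n Adele} (hX : Dv 1 X) (k : ℕ) : Dv 1 (X ^ k) := by
  induction k with
  | zero => rw [pow_zero]; exact Dv.one
  | succ k ih => rw [pow_succ]; simpa using ih.mul hX

theorem Dv.geo {X : Mat n Adele} (hX : Dv 1 X) (N : ℕ) : Dv 1 (geo N X) := by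
  unfold VComp.geo
  induction N with
  | zero => rw [Finset.sum_range_zero]; exact Dv.zero
  | succ N ih => rw [Finset.sum_range_succ]; exact ih.add (hX.pow N)

theorem Dv.cay {m : ℕ} {Y : Mat n Adele} (hY : Dv m Y) (N : ℕ) (hN : Y ^ N = 0) :
    Dv m (cay N Y - 1) := by
  rw [cay_eq N Y hN]
  have : (1 : Mat n Adele) + 2 • Y + 2 • (Y ^ 2 * VComp.geo N Y) - 1
      = 2 • Y + 2 • (Y * (Y * VComp.geo N Y)) := by
    rw [pow_two, Matrix.mul_assoc]; abel
  rw [this]
  refine (hY.nsmul 2).add (Dv.nsmul ?_ 2)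
  have h1 : Dv 1 (Y * VComp.geo N Y) := by simpa using hY.to_one.mul (hY.to_one.geo N)
  simpa using hY.mul h1

theorem Dv.quarter {m : ℕ} {X : Mat n Adele} (hX : Dv (4 * m) X) :
    Dv m (ratAdele (1 / 4) • X) := by
  intro a b p
  have h1 := hX a b p
  have h2 : ((ratAdele (1 / 4) • X) a b).2 p = ((1 / 4 : ℚ) : ℚ_[p.1]) * (X a b).2 p := rfl
  rw [h2]
  push_cast
  rw [norm_mul, norm_div, norm_one]
  rw [Nat.cast_mul, norm_mul] at h1
  have h4 : (0 : ℝ) < ‖((4 : ℕ) : ℚ_[p.1])‖ := by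
    rw [norm_pos_iff]; norm_num
  have h5 : ‖((4 : ℕ) : ℚ_[p.1])‖ = ‖(4 : ℚ_[p.1])‖ := by norm_num
  rw [h5] at h1 h4
  rw [one_div, inv_mul_le_iff₀ h4]
  exact h1

theorem continuous_adj : Continuous (adj : Mat n Adele → Mat n Adele) := by
  unfold adj
  exact (continuous_const.matrix_mul continuous_id.matrix_transpose).matrix_mul continuous_const

theorem continuous_mpow (k : ℕ) : Continuous fun Y : Mat n Adele => Y ^ k := by
  induction k with
  | zero => simp only [pow_zero]; exact continuous_const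
  | succ k ih => simp only [pow_succ]; exact ih.matrix_mul continuous_id

theorem continuous_cay (N : ℕ) : Continuous (cay N : Mat n Adele → Mat n Adele) := by
  unfold cay geo
  refine Continuous.sub ?_ continuous_const
  simp only [two_nsmul]
  have h1 : Continuous fun Y : Mat n Adele => ∑ k ∈ Finset.range N, Y ^ k := by
    refine continuous_finset_sum _ fun k _ => continuous_mpow k
  exact h1.add h1

/-- one step of the reduction -/
theorem step (T : Triple n) (m : ℕ) (hm : m ≠ 0) (i : ℤ) (hi : 2 ≤ i) :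
    ∃ K : Set (GA n), IsCompact K ∧ (∀ k ∈ K, k ∈ T.VA) ∧
      (∀ k ∈ K, Dv m ((k : Mat n Adele) - 1)) ∧
      ∀ w : GA n, (w : Mat n Adele) - 1 ∈ adGE (T.h.map ratAdele) i →
        ∃ k ∈ K, ∃ w' : GA n, (w' : Mat n Adele) - 1 ∈ adGE (T.h.map ratAdele) (i + 1) ∧
          ∃ γ ∈ GQ n, γ ∈ T.VA ∧ w = k * w' * γ := by
  obtain ⟨N, hN1, hN⟩ := adGE_eq_bot T.h
  obtain ⟨C, hC, hCw, hCd, hCx⟩ := exists_compact_weight T.h i (4 * m) (by omega)
  have hhA := map_sp_mem ratAdele T.h_mem
  -- the quarter of the antisymmetrisation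
  let A : Mat n Adele → Mat n Adele := fun X => ratAdele (1 / 4) • (X - adj X)
  have hAadj : ∀ X, adj (A X) = -A X := by
    intro X
    simp only [A]
    rw [adj_smul, adj_sub, adj_adj, ← smul_neg, neg_sub]
  have hAw : ∀ X : Mat n Adele, T.h.map ratAdele * X - X * T.h.map ratAdele = (i : Adele) • X →
      T.h.map ratAdele * A X - A X * T.h.map ratAdele = (i : Adele) • A X := by
    intro X hX
    have h2 := weight_adj hhA hX
    simp only [A]
    have e1 : (i : Adele) • (X - adj X) = T.h.map ratAdele * (X - adj X)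
        - (X - adj X) * T.h.map ratAdele := by
      rw [smul_sub, ← hX, ← h2]; noncomm_ring
    rw [Matrix.mul_smul, Matrix.smul_mul, ← smul_sub, ← e1, smul_comm]
  have hAge : ∀ X : Mat n Adele, T.h.map ratAdele * X - X * T.h.map ratAdele = (i : Adele) • X →
      A X ∈ adGE (T.h.map ratAdele) i := fun X hX =>
    Submodule.subset_span ⟨i, le_rfl, hAw X hX⟩
  have hAN : ∀ X : Mat n Adele, T.h.map ratAdele * X - X * T.h.map ratAdele = (i : Adele) • X →
      A X ^ N = 0 := fun X hX => pow_eq_zero_of_mem hN1 hN (by linarith) (hAge X hX)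
  have hAmem : ∀ X : Mat n Adele, T.h.map ratAdele * X - X * T.h.map ratAdele = (i : Adele) • X →
      cay N (A X) ∈ symplecticGroup (Fin n) Adele := fun X hX =>
    cay_mem N (A X) (hAN X hX) (hAadj X)
  let K : Set (GA n) := {g | ∃ X ∈ C, (g : Mat n Adele) = cay N (A X)}
  have hAc : Continuous A := by
    have h1 : Continuous fun X : Mat n Adele => X - adj X := continuous_id.sub continuous_adj
    exact (continuous_const (y := ratAdele (1 / 4))).smul h1
  refine ⟨K, ?_, ?_, ?_, ?_⟩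
  · rw [Subtype.isCompact_iff]
    have h1 : Subtype.val '' K = (fun X => cay N (A X)) '' C := by
      ext Z
      constructor
      · rintro ⟨g, ⟨X, hX, hg⟩, rfl⟩
        exact ⟨X, hX, hg.symm⟩
      · rintro ⟨X, hX, rfl⟩
        exact ⟨⟨cay N (A X), hAmem X (hCw X hX)⟩, ⟨X, hX, rfl⟩, rfl⟩
    rw [h1]
    exact hC.image ((continuous_cay N).comp hAc)
  · rintro k ⟨X, hX, hk⟩
    change (k : Mat n Adele) - 1 ∈ adGE (T.h.map ratAdele) 2
    rw [hk]
    exact adGE_mono hi (cay_sub_one_mem (by linarith) (hAge X (hCw X hX)) N (hAN X (hCw X hX)))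
  · rintro k ⟨X, hX, hk⟩
    rw [hk]
    have hXd : Dv (4 * m) X := hCd X hX
    have hAd : Dv m (A X) := (hXd.sub hXd.adj).quarter
    exact hAd.cay N (hAN X (hCw X hX))
  · intro w hw
    obtain ⟨Xi, hXi1, hXi2⟩ := exists_lead hw
    obtain ⟨q, hq1, hq2⟩ := hCx Xi hXi1
    set X' : Mat n Adele := Xi - q.map ratAdele with hX'
    have hX'w := hCw X' hq2
    let Yq : Mat n ℚ := (1 / 4 : ℚ) • (q - adj q)
    have hqA : T.h.map ratAdele * q.map ratAdele - q.map ratAdele * T.h.map ratAdele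
        = (i : Adele) • q.map ratAdele := by
      have h1 := congrArg (fun Z : Mat n ℚ => ratAdele.mapMatrix Z) hq1
      simp only [map_sub, map_mul, RingHom.mapMatrix_apply] at h1
      rw [h1]
      have h2 := map_smul_rat (i : ℚ) q
      rw [map_intCast] at h2
      exact h2
    have hYqA : Yq.map ratAdele = A (q.map ratAdele) := by
      simp only [Yq, A]
      rw [map_smul_rat]
      congr 1
      have : ∀ Z : Mat n ℚ, Z.map ratAdele = ratAdele.mapMatrix Z := fun Z => rfl
      rw [this, map_sub, ← this, ← this, map_adj]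
    have hinj : Function.Injective (fun Z : Mat n ℚ => Z.map ratAdele) :=
      Matrix.map_injective ratAdele_injective
    have hYqN : Yq ^ N = 0 := by
      apply hinj
      change ratAdele.mapMatrix (Yq ^ N) = ratAdele.mapMatrix 0
      rw [map_pow, map_zero, RingHom.mapMatrix_apply, hYqA]
      exact hAN _ hqA
    have hYqadj : adj Yq = -Yq := by
      simp only [Yq]
      rw [adj_smul, adj_sub, adj_adj, ← smul_neg, neg_sub]
    let gq : symplecticGroup (Fin n) ℚ := ⟨cay N Yq, cay_mem N Yq hYqN hYqadj⟩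
    let γ : GA n := spMap n ratAdele gq
    have hγ : (γ : Mat n Adele) = cay N (A (q.map ratAdele)) := by
      change (cay N Yq).map ratAdele = _
      rw [map_cay, hYqA]
    let gk : GA n := ⟨cay N (A X'), hAmem X' hX'w⟩
    have hgk : (gk : Mat n Adele) = cay N (A X') := rfl
    have hu := cay_sub_mem (by linarith) (hAge X' hX'w) N (hAN X' hX'w)
    have hu1 := cay_sub_one_mem (by linarith) (hAge X' hX'w) N (hAN X' hX'w)
    have hv := cay_sub_mem (by linarith) (hAge _ hqA) N (hAN _ hqA)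
    have hv1 := cay_sub_one_mem (by linarith) (hAge _ hqA) N (hAN _ hqA)
    rw [← hgk] at hu hu1
    rw [← hγ] at hv hv1
    -- membership of gamma in VA
    have hγV : γ ∈ T.VA := by
      change (γ : Mat n Adele) - 1 ∈ adGE (T.h.map ratAdele) 2
      exact adGE_mono hi hv1
    have hinv : ∀ g : GA n, (g : Mat n Adele) - 1 ∈ adGE (T.h.map ratAdele) i →
        ((g⁻¹ : GA n) : Mat n Adele) - 1 ∈ adGE (T.h.map ratAdele) i := by
      intro g hg
      have e1 : ((g⁻¹ : GA n) : Mat n Adele) = adj (g : Mat n Adele) := by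
        rw [SymplecticGroup.coe_inv]; rfl
      have e2 : ((g⁻¹ : GA n) : Mat n Adele) - 1 = adj ((g : Mat n Adele) - 1) := by
        rw [e1, adj_sub, adj_one]
      rw [e2]
      exact adGE_adjoint hhA hg
    -- the difference
    have hD : (w : Mat n Adele) - (gk : Mat n Adele) * (γ : Mat n Adele)
        ∈ adGE (T.h.map ratAdele) (i + 1) := by
      set a : Mat n Adele := (w : Mat n Adele) - 1 with ha
      have hwa : (w : Mat n Adele) = 1 + a := by rw [ha]; abel
      have hsum : Xi + adj Xi ∈ adGE (T.h.map ratAdele) (i + 1) := by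
        have h1 : (w : Mat n Adele) * adj (w : Mat n Adele) = 1 := (mem_sp_iff _).mp w.2
        rw [hwa, adj_add, adj_one] at h1
        have h2 : a + adj a + a * adj a = 0 := by
          have : (1 + a) * (1 + adj a) = 1 + (a + adj a + a * adj a) := by noncomm_ring
          rw [this] at h1
          simpa using h1
        have h3 : a * adj a ∈ adGE (T.h.map ratAdele) (i + 1) :=
          adGE_mono (by linarith) (adGE_mul hw (adGE_adjoint hhA hw))
        have h4 : adj (a - Xi) ∈ adGE (T.h.map ratAdele) (i + 1) := adGE_adjoint hhA hXi2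
        have h5 : Xi + adj Xi = -((a - Xi) + adj (a - Xi) + a * adj a) := by
          rw [adj_sub]
          have : a + adj a = -(a * adj a) := by
            rw [eq_neg_iff_add_eq_zero]; exact h2
          calc Xi + adj Xi = (a + adj a) - ((a - Xi) + (adj a - adj Xi)) := by abel
            _ = -((a - Xi) + (adj a - adj Xi) + a * adj a) := by rw [this]; abel
        rw [h5]
        exact Submodule.neg_mem _ (Submodule.add_mem _ (Submodule.add_mem _ hXi2 h4) h3)
      have hhalf : 2 • A X' + 2 • A (q.map ratAdele)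
          = ratAdele (1 / 2) • (Xi - adj Xi) := by
        simp only [A]
        rw [← smul_add, ← smul_add]
        have e1 : X' - adj X' + (q.map ratAdele - adj (q.map ratAdele)) = Xi - adj Xi := by
          rw [hX', adj_sub]; abel
        rw [e1, two_nsmul, ← add_smul]
        congr 1
        rw [← map_add]
        norm_num
      have hmain : a - 2 • A X' - 2 • A (q.map ratAdele) ∈ adGE (T.h.map ratAdele) (i + 1) := by
        have e1 : a - 2 • A X' - 2 • A (q.map ratAdele)
            = (a - Xi) + ratAdele (1 / 2) • (Xi + adj Xi) := by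
          rw [sub_sub, hhalf]
          have e2 : Xi = ratAdele (1 / 2) • (Xi + Xi) := by
            rw [← two_smul Adele Xi, smul_smul]
            have : ratAdele (1 / 2) * 2 = 1 := by
              have h3 : (2 : Adele) = ratAdele 2 := by rw [map_ofNat]
              rw [h3, ← map_mul]; norm_num
            rw [this, one_smul]
          calc a - ratAdele (1 / 2) • (Xi - adj Xi)
              = (a - Xi) + (Xi - ratAdele (1 / 2) • (Xi - adj Xi)) := by abel
            _ = (a - Xi) + ratAdele (1 / 2) • (Xi + adj Xi) := by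
              congr 1
              nth_rewrite 1 [e2]
              rw [← smul_sub]
              congr 1
              abel
        rw [e1]
        exact Submodule.add_mem _ hXi2 (Submodule.smul_mem _ _ hsum)
      have huv : ((gk : Mat n Adele) - 1) * ((γ : Mat n Adele) - 1)
          ∈ adGE (T.h.map ratAdele) (i + 1) :=
        adGE_mono (by linarith) (adGE_mul hu1 hv1)
      have e3 : (w : Mat n Adele) - (gk : Mat n Adele) * (γ : Mat n Adele)
          = (a - 2 • A X' - 2 • A (q.map ratAdele))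
            - ((gk : Mat n Adele) - 1 - 2 • A X')
            - ((γ : Mat n Adele) - 1 - 2 • A (q.map ratAdele))
            - ((gk : Mat n Adele) - 1) * ((γ : Mat n Adele) - 1) := by
        rw [hwa]; noncomm_ring
      rw [e3]
      exact Submodule.sub_mem _ (Submodule.sub_mem _ (Submodule.sub_mem _ hmain hu) hv) huv
    refine ⟨gk, ⟨X', hq2, rfl⟩, gk⁻¹ * w * γ⁻¹, ?_, γ, ⟨gq, rfl⟩, hγV, by group⟩
    have hki := hinv gk hu1
    have hγi := hinv γ hv1
    have e4 : ((gk⁻¹ * w * γ⁻¹ : GA n) : Mat n Adele) - 1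
        = ((gk⁻¹ : GA n) : Mat n Adele) *
          ((w : Mat n Adele) - (gk : Mat n Adele) * (γ : Mat n Adele)) *
          ((γ⁻¹ : GA n) : Mat n Adele) := by
      have h1 : ((gk⁻¹ : GA n) : Mat n Adele) * (gk : Mat n Adele) = 1 := by
        rw [← Submonoid.coe_mul, inv_mul_cancel]; rfl
      have h2 : (γ : Mat n Adele) * ((γ⁻¹ : GA n) : Mat n Adele) = 1 := by
        rw [← Submonoid.coe_mul, mul_inv_cancel]; rfl
      rw [Submonoid.coe_mul, Submonoid.coe_mul, Matrix.mul_sub, Matrix.sub_mul]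
      congr 1
      rw [← Matrix.mul_assoc, h1, Matrix.one_mul, h2]
    rw [e4]
    set D := (w : Mat n Adele) - (gk : Mat n Adele) * (γ : Mat n Adele) with hDdef
    have e5 : ((gk⁻¹ : GA n) : Mat n Adele) * D * ((γ⁻¹ : GA n) : Mat n Adele)
        = D + (((gk⁻¹ : GA n) : Mat n Adele) - 1) * D + D * (((γ⁻¹ : GA n) : Mat n Adele) - 1)
          + (((gk⁻¹ : GA n) : Mat n Adele) - 1) * D * (((γ⁻¹ : GA n) : Mat n Adele) - 1) := by
      noncomm_ring
    rw [e5]
    have m1 := adGE_mul hki hD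
    have m2 := adGE_mul hD hγi
    have m3 := adGE_mul m1 hγi
    exact Submodule.add_mem _ (Submodule.add_mem _ (Submodule.add_mem _ hD
      (adGE_mono (by linarith) m1)) (adGE_mono (by linarith) m2)) (adGE_mono (by linarith) m3)

theorem steps (T : Triple n) (m : ℕ) (hm : m ≠ 0) (l : ℕ) :
    ∃ K : Set (GA n), IsCompact K ∧ (∀ k ∈ K, k ∈ T.VA) ∧
      (∀ k ∈ K, Dv m ((k : Mat n Adele) - 1)) ∧
      ∀ v ∈ T.VA, ∃ k ∈ K, ∃ w' : GA n,
        (w' : Mat n Adele) - 1 ∈ adGE (T.h.map ratAdele) (2 + l) ∧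
          ∃ γ ∈ GQ n, γ ∈ T.VA ∧ v = k * w' * γ := by
  induction l with
  | zero =>
    refine ⟨{1}, isCompact_singleton, ?_, ?_, ?_⟩
    · rintro k rfl; exact one_mem _
    · rintro k rfl
      rw [OneMemClass.coe_one, sub_self]; exact Dv.zero
    · intro v hv
      refine ⟨1, rfl, v, ?_, 1, one_mem _, one_mem _, by group⟩
      have : (v : Mat n Adele) - 1 ∈ adGE (T.h.map ratAdele) 2 := hv
      simpa using this
  | succ l ih =>
    obtain ⟨K, hK, hKV, hKd, hKx⟩ := ih
    obtain ⟨K', hK', hKV', hKd', hKx'⟩ := step T m hm (2 + l) (by linarith)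
    refine ⟨K * K', hK.mul hK', ?_, ?_, ?_⟩
    · rintro _ ⟨k, hk, k', hk', rfl⟩
      exact mul_mem (hKV k hk) (hKV' k' hk')
    · rintro _ ⟨k, hk, k', hk', rfl⟩
      have h1 := hKd k hk
      have h2 := hKd' k' hk'
      have e : ((k * k' : GA n) : Mat n Adele) - 1 = ((k : Mat n Adele) - 1) * ((k' : Mat n Adele) - 1)
          + ((k : Mat n Adele) - 1) + ((k' : Mat n Adele) - 1) := by
        rw [Submonoid.coe_mul]; noncomm_ring
      change Dv m (((k * k' : GA n) : Mat n Adele) - 1)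
      rw [e]
      have h3 := h1.mul h2.to_one
      rw [mul_one] at h3
      exact (h3.add h1).add h2
    · intro v hv
      obtain ⟨k, hk, w', hw', γ, hγ, hγV, rfl⟩ := hKx v hv
      obtain ⟨k', hk', w'', hw'', γ', hγ', hγV', rfl⟩ := hKx' w' hw'
      refine ⟨k * k', ⟨k, hk, k', hk', rfl⟩, w'', ?_, γ' * γ, mul_mem hγ' hγ, mul_mem hγV' hγV,
        by group⟩
      have : (2 : ℤ) + ((l + 1 : ℕ) : ℤ) = 2 + (l : ℤ) + 1 := by push_cast; ring
      rw [this]
      exact hw''

/-- `V(A) = K V(Q)` with `K` compact, and finite part of `K` congruent to `1` modulo `m`. -/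
theorem exists_compact (T : Triple n) (m : ℕ) (hm : m ≠ 0) :
    ∃ K : Set (GA n), IsCompact K ∧ (∀ k ∈ K, k ∈ T.VA) ∧
      (∀ k ∈ K, ∀ i j (p : Nat.Primes), ‖(((k : Mat n Adele) - 1) i j).2 p‖ ≤ ‖(m : ℚ_[p.1])‖) ∧
      ∀ v ∈ T.VA, ∃ γ ∈ GQ n, γ ∈ T.VA ∧ v * γ ∈ K := by
  obtain ⟨N, hN1, hN⟩ := adGE_eq_bot T.h
  obtain ⟨K, hK, hKV, hKd, hKx⟩ := steps T m hm N
  refine ⟨K, hK, hKV, hKd, fun v hv => ?_⟩
  obtain ⟨k, hk, w', hw', γ, hγ, hγV, rfl⟩ := hKx v hv
  rw [hN _ (by linarith)] at hw'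
  have hw1 : w' = 1 := by
    apply Subtype.ext
    have : (w' : Mat n Adele) - 1 = 0 := by simpa using hw'
    exact sub_eq_zero.mp this
  refine ⟨γ⁻¹, inv_mem hγ, inv_mem hγV, ?_⟩
  rw [hw1]
  have : k * 1 * γ * γ⁻¹ = k := by group
  rw [this]
  exact hk

theorem exists_compact_VA (T : Triple n) :
    ∃ K : Set T.VA, IsCompact K ∧ ∀ v : T.VA, ∃ γ ∈ T.VQ, v * γ ∈ K := by
  obtain ⟨K, hK, hKV, _, hKx⟩ := exists_compact T 1 one_ne_zero
  refine ⟨Subtype.val ⁻¹' K, ?_, fun v => ?_⟩
  · rw [Subtype.isCompact_iff]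
    have : Subtype.val '' (Subtype.val ⁻¹' K : Set T.VA) = K := by
      ext k
      constructor
      · rintro ⟨k', hk', rfl⟩
        exact hk'
      · intro hk
        exact ⟨⟨k, hKV k hk⟩, hk, rfl⟩
    rw [this]
    exact hK
  · obtain ⟨γ, hγ, hγV, h⟩ := hKx v.1 v.2
    exact ⟨⟨γ, hγV⟩, hγ, h⟩

instance compactSpace_quot (T : Triple n) : CompactSpace (T.VA ⧸ T.VQ) := by
  obtain ⟨K, hK, hKx⟩ := exists_compact_VA T
  constructor
  have : (Set.univ : Set (T.VA ⧸ T.VQ)) = (QuotientGroup.mk : T.VA → T.VA ⧸ T.VQ) '' K := by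
    ext x
    simp only [Set.mem_univ, Set.mem_image, true_iff]
    induction x using QuotientGroup.induction_on with
    | H v =>
      obtain ⟨γ, hγ, h⟩ := hKx v
      refine ⟨v * γ, h, ?_⟩
      rw [QuotientGroup.eq]
      have : (v * γ)⁻¹ * v = γ⁻¹ := by group
      rw [this]
      exact inv_mem hγ
  rw [this]
  exact hK.image QuotientGroup.continuous_mk

end Pool.Agent.FC.VComp
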