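import Pool.Agent.FC.Base
import Pool.Agent.FC.AdeleSp
import Pool.Agent.FC.Rho
import Pool.Agent.FC.VComp
import Pool.Agent.FC.Abs

/-!
# FC: the groups `V(𝔸)`, `V(𝔸)/V(ℚ)` and the data `VData`
-/

open RestrictedProduct Matrix MeasureTheory Topology

noncomputable section

namespace Pool.Agent.FC

instance instMeasVQ {n : ℕ} (T : Triple n) :
    MeasurableSpace (T.VA ⧸ (GQ n).subgroupOf T.VA) := borel _

instance instBorelVQ {n : ℕ} (T : Triple n) :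
    BorelSpace (T.VA ⧸ (GQ n).subgroupOf T.VA) := ⟨rfl⟩

theorem RhoT.exists_K {n : ℕ} (T : Triple n) : ∃ K : Set (GA n), IsCompact K ∧
    (∀ k ∈ K, k ∈ T.VA) ∧ ∀ v ∈ T.VA, ∃ γ ∈ GQ n, γ ∈ T.VA ∧ v * γ ∈ K := by
  obtain ⟨K, hK, hKV, _, hKx⟩ := VComp.exists_compact T 1 one_ne_zero
  exact ⟨K, hK, hKV, hKx⟩

theorem compactSpace_VQ {n : ℕ} (T : Triple n) : CompactSpace (T.VA ⧸ T.VQ) :=
  T.compact_quotient (RhoT.exists_K T)

theorem isClosed_VA {n : ℕ} (T : Triple n) : IsClosed (T.VA : Set (GA n)) :=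
  T.isClosed_VA (RhoT.exists_K T)

theorem exists_rho {n : ℕ} (T : Triple n) : ∃ ρ : Measure (T.VA ⧸ T.VQ), ρ ≠ 0 ∧
    IsFiniteMeasure ρ ∧ SMulInvariantMeasure T.VA (T.VA ⧸ T.VQ) ρ :=
  T.exists_rho (RhoT.exists_K T)

theorem vdata {n : ℕ} {ψ : AddChar Adele Circle} (hc : Continuous ψ)
    (hQ : ∀ q : ℚ, ψ (ratAdele q) = 1) (T : Triple n) {ρ : Measure (T.VA ⧸ T.VQ)}
    (hρ : IsFiniteMeasure ρ) : Abs.VData (GQ n) T.VA ρ (T.char ψ) where
  compact := compactSpace_VQ T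
  finite := hρ
  cont := (T.continuous_char hc).comp continuous_subtype_val
  norm_le := fun v _ => (T.norm_char ψ v).le
  inv := fun _ hv _ hγ hγ' => T.char_mul_GQ hQ hv hγ hγ'

theorem coeff_eq_coef {n : ℕ} {ψ : AddChar Adele Circle} (T : Triple n)
    {ρ : Measure (T.VA ⧸ T.VQ)} (F : AutQuot n → ℂ) (g : GA n) :
    T.coeff ψ ρ F g = Abs.coef (GQ n) T.VA ρ (T.char ψ) F g := by
  unfold Triple.coeff Abs.coef autFun
  congr 1
  funext x
  rw [_root_.mul_inv_rev, inv_inv]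
  rfl

end Pool.Agent.FC
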