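import Pool.Agent.FC.GMainB
import Pool.Agent.FC.RhoT
import Pool.Agent.FC.IrrConv
import Pool.Agent.FC.CuspT
import Pool.Agent.FC.PhaseH

/-!
# FC: the global half
-/

open RestrictedProduct Matrix MeasureTheory Topology

noncomputable section

namespace Pool.Agent.FC

theorem char_one {n : ℕ} (ψ : AddChar Adele Circle) (T : Triple n) : T.char ψ 1 = 1 := by
  simp [Triple.char]

/-- The global half: an irreducible subspace with nonzero coefficients for `T₁` and `T₂`, together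
with a continuous vector of type `(U, χ)` which detects all nonzero coefficients. -/
theorem gmain {ψ : AddChar Adele Circle} (hψ : IsStd ψ) (T₁ T₂ : Triple 6)
    (h₁ : T₁.h = hdiag ℚ wa) (f₁ : T₁.f = fq wa) (h₂ : T₂.h = hdiag ℚ wb) (f₂ : T₂.f = fq wb) :
    ∃ μ : Measure (AutQuot 6), IsInvariantRadon μ ∧
      ∃ H : Submodule ℂ (Lp ℂ 2 μ), IsIrredAut μ H ∧
        (∃ ρ : Measure (T₁.VA ⧸ T₁.VQ), ρ ≠ 0 ∧ IsFiniteMeasure ρ ∧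
          SMulInvariantMeasure T₁.VA (T₁.VA ⧸ T₁.VQ) ρ ∧
          ∃ F : AutQuot 6 → ℂ, InSpace μ H F ∧ ∃ g : GA 6, T₁.coeff ψ ρ F g ≠ 0) ∧
        (∃ ρ : Measure (T₂.VA ⧸ T₂.VQ), ρ ≠ 0 ∧ IsFiniteMeasure ρ ∧
          SMulInvariantMeasure T₂.VA (T₂.VA ⧸ T₂.VQ) ρ ∧
          ∃ F : AutQuot 6 → ℂ, InSpace μ H F ∧ ∃ g : GA 6, T₂.coeff ψ ρ F g ≠ 0) ∧
        ∃ F₀ : AutQuot 6 → ℂ, Continuous F₀ ∧
          (∀ u : GA 6, u ∈ USet → gR u = 1 → ∀ x : AutQuot 6,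
            F₀ (u • x) = (((chi ψ u)⁻¹ : Circle) : ℂ) * F₀ x) ∧
          ∀ (T : Triple 6) (ρ : Measure (T.VA ⧸ T.VQ)), ρ ≠ 0 → IsFiniteMeasure ρ →
            SMulInvariantMeasure T.VA (T.VA ⧸ T.VQ) ρ →
            ∀ F : AutQuot 6 → ℂ, InSpace μ H F → ∀ g : GA 6, T.coeff ψ ρ F g ≠ 0 →
              ∃ g' : GA 6, T.coeff ψ ρ F₀ g' ≠ 0 := by
  obtain ⟨ρ₁, hρ₁, hρ₁f, hρ₁i⟩ := exists_rho T₁
  obtain ⟨ρ₂, hρ₂, hρ₂f, hρ₂i⟩ := exists_rho T₂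
  obtain ⟨η, hηc, hηs, hη0, hη1, hηi, hphase⟩ := exists_phase hψ T₁ T₂ h₁ f₁ h₂ f₂
  set μ : Measure (GA 6) := Measure.haar with hμ
  have hinv : SMulInvariantMeasure (GA 6) (AutQuot 6) (Quo.muX (GQ 6) μ) :=
    Quo.smulInvariant (GQ 6) μ
  have hfin : IsFiniteMeasureOnCompacts (Quo.muX (GQ 6) μ) := Quo.finiteOnCompacts (GQ 6) μ
  have D₁ := vdata hψ.cont hψ.rat T₁ hρ₁f
  have D₂ := vdata hψ.cont hψ.rat T₂ hρ₂f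
  have hh1 : hfun ψ η 1 ≠ 0 := by
    rw [hfun_one]
    exact_mod_cast hη1.ne'
  have i₁ : SMulInvariantMeasure T₁.VA (T₁.VA ⧸ (GQ 6).subgroupOf T₁.VA) ρ₁ := hρ₁i
  have i₂ : SMulInvariantMeasure T₂.VA (T₂.VA ⧸ (GQ 6).subgroupOf T₂.VA) ρ₂ := hρ₂i
  have b : ∀ T : Triple 6, @BorelSpace (T.VA ⧸ (GQ 6).subgroupOf T.VA) _
      T.instMeasurableSpaceQuotientSubtypeGAMemSubgroupVAVQ := fun _ => ⟨rfl⟩
  have b₁ := b T₁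
  have b₂ := b T₂
  obtain ⟨W, hW, F₀, hm, hF₀, hF₀W, ⟨c, hc0, heig⟩, hc₁, hc₂, htrans⟩ :=
    Abs.exists_global (Γ := GQ 6) (V₁ := T₁.VA) (V₂ := T₂.VA) μ (hfun_continuous hψ hηc) (hfun_compact hηs) (hfun_star hψ hηi)
      hh1 (hcusp_hfun hψ hηc hηs) D₁ D₂ hρ₁ hρ₂ (char_one ψ T₁) (char_one ψ T₂)
      (fun v₁ hv₁ v₂ hv₂ γ hγ z => hphase v₂ hv₂ v₁ hv₁ γ hγ z)
  refine ⟨Quo.muX (GQ 6) μ, ⟨Quo.muX_ne_zero (GQ 6) μ (NeZero.ne μ), hfin, hinv⟩, W,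
    (isIrredAut_iff W).2 hW, ⟨ρ₁, hρ₁, hρ₁f, hρ₁i, F₀, ⟨hF₀, hm, hF₀W⟩, 1, ?_⟩,
    ⟨ρ₂, hρ₂, hρ₂f, hρ₂i, F₀, ⟨hF₀, hm, hF₀W⟩, 1, ?_⟩, F₀, hF₀, ?_, ?_⟩
  · rw [coeff_eq_coef]
    exact hc₁
  · rw [coeff_eq_coef]
    exact hc₂
  · intro u hu hu1 x
    have hu' : u⁻¹ ∈ USet := ResM.UGrp.inv_mem (show u ∈ ResM.UGrp from hu)
    have hR : prR 6 u = 1 := Subtype.ext hu1
    have hR' : prR 6 u⁻¹ = 1 := by rw [map_inv, hR, inv_one]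
    have h := equiv_of_eigen hψ hc0 heig hu' hR' x
    rw [inv_inv, ResM.chi_inv hψ hu] at h
    exact h
  · intro T ρ _ hρf _ F hF g hg
    rw [coeff_eq_coef] at hg
    obtain ⟨g', hg'⟩ := htrans T.VA ρ (T.char ψ) (vdata hψ.cont hψ.rat T hρf) F hF.1 hF.2 g hg
    exact ⟨g', by rw [coeff_eq_coef]; exact hg'⟩

end Pool.Agent.FC
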