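import Pool.Agent.FC.Coef
import Pool.Agent.FC.ConvB
import Pool.Agent.FC.Hilb

/-!
# FC: an irreducible subspace with two nonzero coefficients
-/

open MeasureTheory Set Topology Filter

namespace Pool.Agent.FC.Abs

open Pool.Agent.FC.Conv

variable {G : Type*} [Group G] [TopologicalSpace G] [IsTopologicalGroup G]
  [SecondCountableTopology G] [T2Space G] [LocallyCompactSpace G]
  [MeasurableSpace G] [BorelSpace G] {Γ : Subgroup G} [DiscreteTopology Γ] [Countable Γ]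
  [MeasurableSpace (G ⧸ Γ)] [BorelSpace (G ⧸ Γ)]
  {μ : Measure G} [μ.IsHaarMeasure] [μ.IsMulRightInvariant] [μ.IsInvInvariant]
  {ν : Measure (G ⧸ Γ)} [IsFiniteMeasureOnCompacts ν] [SMulInvariantMeasure G (G ⧸ Γ) ν]
  [IsLocallyFiniteMeasure ν] [ν.InnerRegularCompactLTTop] [ν.IsOpenPosMeasure] [R1Space (G ⧸ Γ)]
  [SecondCountableTopology (G ⧸ Γ)]

theorem exists_irr_coef {h : G → ℂ} (hc : Continuous h) (hs : HasCompactSupport h)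
    (hstar : ∀ g, h g⁻¹ = starRingEnd ℂ (h g))
    (hT : IsCompactOperator (Rop μ ν hc hs))
    {k : G ⧸ Γ → Lp ℂ 2 ν} (hk : IsKvec μ ν h k)
    {V₁ V₂ : Subgroup G} [MeasurableSpace (V₁ ⧸ Γ.subgroupOf V₁)]
    [BorelSpace (V₁ ⧸ Γ.subgroupOf V₁)] [MeasurableSpace (V₂ ⧸ Γ.subgroupOf V₂)]
    [BorelSpace (V₂ ⧸ Γ.subgroupOf V₂)] {ρ₁ : Measure (V₁ ⧸ Γ.subgroupOf V₁)}
    {ρ₂ : Measure (V₂ ⧸ Γ.subgroupOf V₂)} {θ₁ θ₂ : G → ℂ}
    (D₁ : VData Γ V₁ ρ₁ θ₁) (D₂ : VData Γ V₂ ρ₂ θ₂)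
    (hne : inner ℂ (xi ρ₂ θ₂ k 1) (xi ρ₁ θ₁ k 1) ≠ 0) :
    ∃ W : Submodule ℂ (Lp ℂ 2 ν), Hilb.Irr (rho ν (G := G)) W ∧
      ∃ (F₀ : G ⧸ Γ → ℂ) (hm : MemLp F₀ 2 ν), Continuous F₀ ∧ hm.toLp F₀ ∈ W ∧
        hm.toLp F₀ ≠ 0 ∧
        (∃ c : ℂ, c ≠ 0 ∧ ∀ x, c * F₀ x = ∫ g, h g * F₀ (g⁻¹ • x) ∂μ) ∧
        coef Γ V₁ ρ₁ θ₁ F₀ 1 ≠ 0 ∧ coef Γ V₂ ρ₂ θ₂ F₀ 1 ≠ 0 := by
  haveI : SigmaFinite μ := inferInstance
  haveI : LocallyCompactSpace (G ⧸ Γ) := inferInstance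
  haveI : SigmaFinite ν := inferInstance
  -- the continuous representative of `T f`
  have hev : ∀ (f : Lp ℂ 2 ν) (x : G ⧸ Γ), inner ℂ (k x) f = ∫ g, h g * f (g⁻¹ • x) ∂μ := by
    intro f x
    have := hk.inner_eq f (Lp.memLp f) x
    rwa [Lp.toLp_coeFn] at this
  have hevc : ∀ f : Lp ℂ 2 ν, Continuous fun x => inner ℂ (k x) f := fun f =>
    hk.cont.inner continuous_const
  have hevae : ∀ f : Lp ℂ 2 ν, Rop μ ν hc hs f =ᵐ[ν] fun x => inner ℂ (k x) f := by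
    intro f
    filter_upwards [Rop_ae μ ν hc hs f] with x hx
    rw [hx, hev]
  have hcoefmul : ∀ (c : ℂ) (V : Subgroup G) [MeasurableSpace (V ⧸ Γ.subgroupOf V)]
      (ρ : Measure (V ⧸ Γ.subgroupOf V)) (θ : G → ℂ) (E : G ⧸ Γ → ℂ),
      coef Γ V ρ θ (fun x => c * E x) 1 = c * coef Γ V ρ θ E 1 := by
    intro c V _ ρ θ E
    unfold coef
    rw [← integral_const_mul]
    congr 1
    ext x
    ring
  obtain ⟨W, c, φ, hW, hφW, hc0, hTφ, hu, hv⟩ := Hilb.exists_irr (rho ν (G := G))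
    (fun g => ⟨g⁻¹, fun x y => by rw [inner_rho_left, inv_inv]⟩) (Rop μ ν hc hs) hT
    (Rop_symm μ ν hc hs hstar)
    (fun W hW x hx => Rop_mem μ ν hc hs W hW.1 hW.2 x hx)
    (xi ρ₂ θ₂ k 1) (xi ρ₁ θ₁ k 1)
    (fun f hf => by
      rw [inner_xi D₁ hk.cont]
      have h0 : (fun x => inner ℂ (k x) f) = fun _ => (0 : ℂ) := by
        apply (hevc f).ae_eq_iff_eq ν continuous_const |>.mp
        refine (hevae f).symm.trans ?_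
        rw [hf]
        exact Lp.coeFn_zero ℂ 2 ν
      rw [h0]
      simp [coef]) hne
  set F₀ : G ⧸ Γ → ℂ := fun x => c⁻¹ * inner ℂ (k x) φ with hF₀
  have hF₀c : Continuous F₀ := continuous_const.mul (hevc φ)
  have hae : F₀ =ᵐ[ν] φ := by
    have h1 := hevae φ
    rw [hTφ] at h1
    filter_upwards [h1, Lp.coeFn_smul c φ] with x hx1 hx2
    simp only [hF₀]
    rw [← hx1, hx2, Pi.smul_apply, smul_eq_mul, ← mul_assoc, inv_mul_cancel₀ hc0, one_mul]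
  have hm : MemLp F₀ 2 ν := (Lp.memLp φ).ae_eq hae.symm
  have hto : hm.toLp F₀ = φ := by
    apply Lp.ext
    exact (hm.coeFn_toLp).trans hae
  refine ⟨W, hW, F₀, hm, hF₀c, hto ▸ hφW, ?_, ⟨c, hc0, ?_⟩, ?_, ?_⟩
  · rw [hto]
    rintro rfl
    exact hu (inner_zero_right _)
  · intro x
    rw [← hk.inner_eq F₀ hm x, hto]
    simp only [hF₀]
    rw [← mul_assoc, mul_inv_cancel₀ hc0, one_mul]
  · rw [hF₀, hcoefmul c⁻¹ V₁ ρ₁ θ₁ (fun x => inner ℂ (k x) φ), ← inner_xi D₁ hk.cont]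
    exact mul_ne_zero (inv_ne_zero hc0) hv
  · rw [hF₀, hcoefmul c⁻¹ V₂ ρ₂ θ₂ (fun x => inner ℂ (k x) φ), ← inner_xi D₂ hk.cont]
    exact mul_ne_zero (inv_ne_zero hc0) hu

end Pool.Agent.FC.Abs
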