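import Mathlib
import Pool.Agent.FC.FundDom

/-!
# FC: the quotient of a locally compact group by a discrete subgroup

Invariant measure, unfolding, compact sets.
-/

open MeasureTheory Set Topology Filter
open scoped ENNReal NNReal Pointwise

set_option linter.unusedSectionVars false

namespace Pool.Agent.FC.Quo

section top

variable {G : Type*} [Group G] [TopologicalSpace G] [IsTopologicalGroup G]
  (Γ : Subgroup G)

theorem t2 (hΓ : IsClosed (Γ : Set G)) : T2Space (G ⧸ Γ) := by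
  refine ⟨fun x y hxy => ?_⟩
  induction x using QuotientGroup.induction_on with | H a => ?_
  induction y using QuotientGroup.induction_on with | H b => ?_
  have hab : a⁻¹ * b ∉ Γ := fun h => hxy (QuotientGroup.eq.2 h)
  have hc : Continuous (fun p : G × G => p.1⁻¹ * p.2) := by fun_prop
  have hn : (fun p : G × G => p.1⁻¹ * p.2) ⁻¹' ((Γ : Set G)ᶜ) ∈ 𝓝 (a, b) :=
    hc.continuousAt.preimage_mem_nhds (hΓ.isOpen_compl.mem_nhds hab)
  rw [mem_nhds_prod_iff'] at hn
  obtain ⟨U, V, hU, haU, hV, hbV, hUV⟩ := hn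
  refine ⟨QuotientGroup.mk '' U, QuotientGroup.mk '' V, QuotientGroup.isOpenMap_coe U hU,
    QuotientGroup.isOpenMap_coe V hV, ⟨a, haU, rfl⟩, ⟨b, hbV, rfl⟩, ?_⟩
  rw [Set.disjoint_left]
  rintro z ⟨u, hu, rfl⟩ ⟨v, hv, hvu⟩
  have h1 : u⁻¹ * v ∈ Γ := QuotientGroup.eq.1 hvu.symm
  exact hUV (Set.mk_mem_prod hu hv) h1

theorem isClosed_of_discrete [T2Space G] [DiscreteTopology Γ] : IsClosed (Γ : Set G) :=
  Subgroup.isClosed_of_discrete

theorem open_orbit (x : G ⧸ Γ) (U : Set G) (hU : U ∈ 𝓝 (1 : G)) :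
    {y : G ⧸ Γ | ∃ u ∈ U, y = u • x} ∈ 𝓝 x := by
  induction x using QuotientGroup.induction_on with | H a => ?_
  have h1 : (fun g : G => g * a⁻¹) ⁻¹' U ∈ 𝓝 a := by
    apply (continuous_mul_const a⁻¹).continuousAt.preimage_mem_nhds
    simpa using hU
  have h2 := QuotientGroup.isOpenMap_coe (N := Γ).image_mem_nhds h1
  refine mem_of_superset h2 ?_
  rintro y ⟨g, hg, rfl⟩
  refine ⟨g * a⁻¹, hg, ?_⟩
  change (g : G ⧸ Γ) = (((g * a⁻¹) * a : G) : G ⧸ Γ)
  simp

theorem exists_compact_lift [LocallyCompactSpace G] {Y : Set (G ⧸ Γ)} (hY : IsCompact Y) :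
    ∃ C : Set G, IsCompact C ∧ Y ⊆ QuotientGroup.mk '' C := by
  have h : ∀ y ∈ Y, ∃ V ∈ 𝓝 y, ∃ C : Set G, IsCompact C ∧ V ⊆ (QuotientGroup.mk : G → G ⧸ Γ) '' C := by
    intro y _
    induction y using QuotientGroup.induction_on with | H a => ?_
    obtain ⟨C, hC, haC⟩ := exists_compact_mem_nhds a
    exact ⟨_, QuotientGroup.isOpenMap_coe.image_mem_nhds haC, C, hC, Subset.rfl⟩
  choose! V hV C hC hVC using h
  obtain ⟨t, htY, ht⟩ := hY.elim_nhds_subcover V hV
  refine ⟨⋃ y ∈ t, C y, t.isCompact_biUnion fun y hy => hC y (htY y hy), ?_⟩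
  intro y hy
  have := ht hy
  simp only [mem_iUnion, exists_prop] at this
  obtain ⟨z, hz, hyz⟩ := this
  obtain ⟨g, hg, rfl⟩ := hVC z (htY z hz) hyz
  exact ⟨g, by simp only [mem_iUnion, exists_prop]; exact ⟨z, hz, hg⟩, rfl⟩

theorem finite_inter [T2Space G] [DiscreteTopology Γ] {K : Set G} (hK : IsCompact K) :
    {γ : Γ | (γ : G) ∈ K}.Finite := by
  have h1 : IsCompact (K ∩ Γ) := hK.inter_right (isClosed_of_discrete Γ)
  have h2 : IsCompact {γ : Γ | (γ : G) ∈ K} := by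
    have he : IsClosedEmbedding (Subtype.val : Γ → G) :=
      (isClosed_of_discrete Γ).isClosedEmbedding_subtypeVal
    exact he.isCompact_preimage hK
  exact h2.finite_of_discrete

end top

section meas

variable {G : Type*} [Group G] [TopologicalSpace G] [IsTopologicalGroup G]
  [SecondCountableTopology G] [MeasurableSpace G] [BorelSpace G]
  (Γ : Subgroup G) [DiscreteTopology Γ] [Countable Γ]

/-- A measurable set meeting every coset `gΓ` in exactly one point. -/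
noncomputable def fd : Set G := (exists_fundDom Γ).choose

theorem fd_meas : MeasurableSet (fd Γ) := (exists_fundDom Γ).choose_spec.1

theorem fd_unique (x : G) : ∃! γ : Γ, x * γ ∈ fd Γ := (exists_fundDom Γ).choose_spec.2 x

theorem fd_isFund (μ : Measure G) : IsFundamentalDomain Γ.op (fd Γ) μ := by
  refine IsFundamentalDomain.mk' (fd_meas Γ).nullMeasurableSet fun y => ?_
  obtain ⟨γ, hγ, huniq⟩ := fd_unique Γ y
  refine ⟨⟨MulOpposite.op (γ : G), γ.2⟩, hγ, ?_⟩
  rintro ⟨δ, hδ⟩ hδF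
  apply Subtype.ext
  apply MulOpposite.unop_injective
  exact congrArg Subtype.val (huniq ⟨δ.unop, hδ⟩ hδF)

theorem tsum_fd (x : G) : ∑' γ : Γ, (fd Γ).indicator (1 : G → ℝ≥0∞) (x * γ) = 1 := by
  obtain ⟨γ, hγ, hu⟩ := fd_unique Γ x
  rw [tsum_eq_single γ]
  · rw [indicator_of_mem hγ]; rfl
  · intro δ hδ
    rw [indicator_of_notMem]
    intro h
    exact hδ (hu δ h)

variable [MeasurableSpace (G ⧸ Γ)] [BorelSpace (G ⧸ Γ)]

theorem measurable_mk : Measurable (QuotientGroup.mk : G → G ⧸ Γ) :=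
  (QuotientGroup.continuous_mk).measurable

/-- The image of a measurable set is measurable. -/
theorem measurableSet_image {A : Set G} (hA : MeasurableSet A) :
    MeasurableSet ((QuotientGroup.mk : G → G ⧸ Γ) '' A) := by
  obtain ⟨U, hU, hU1, hUΓ⟩ := exists_small_open Γ
  obtain ⟨s, hs, hcov⟩ := TopologicalSpace.countable_cover_nhds
    (f := fun x : G => x • U) (fun x => (hU.smul x).mem_nhds ⟨1, hU1, by simp⟩)
  have hA2 : (QuotientGroup.mk : G → G ⧸ Γ) '' A
      = ⋃ x ∈ s, (QuotientGroup.mk : G → G ⧸ Γ) '' (A ∩ x • U) := by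
    rw [← image_iUnion₂, ← inter_iUnion₂, hcov, inter_univ]
  rw [hA2]
  refine MeasurableSet.biUnion hs fun x _ => ?_
  have hopen : IsOpenEmbedding (fun y : (x • U : Set G) => (QuotientGroup.mk (y : G) : G ⧸ Γ)) := by
    refine IsOpenEmbedding.of_continuous_injective_isOpenMap ?_ ?_ ?_
    · exact QuotientGroup.continuous_mk.comp continuous_subtype_val
    · rintro ⟨a, a', ha', rfl⟩ ⟨b, b', hb', rfl⟩ hab
      have h1 : (x • a')⁻¹ * (x • b') ∈ Γ := QuotientGroup.eq.1 hab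
      have h2 : a' = b' := by
        apply hUΓ a' ha' b' hb'
        have : (x • a')⁻¹ * (x • b') = a'⁻¹ * b' := by simp [smul_eq_mul, mul_assoc]
        rwa [this] at h1
      subst h2; rfl
    · exact QuotientGroup.isOpenMap_coe.comp (hU.smul x).isOpenMap_subtype_val
  have h3 : (QuotientGroup.mk : G → G ⧸ Γ) '' (A ∩ x • U)
      = (fun y : (x • U : Set G) => (QuotientGroup.mk (y : G) : G ⧸ Γ)) '' (Subtype.val ⁻¹' A) := by
    ext z
    constructor
    · rintro ⟨y, ⟨hyA, hyU⟩, rfl⟩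
      exact ⟨⟨y, hyU⟩, hyA, rfl⟩
    · rintro ⟨⟨y, hyU⟩, hyA, rfl⟩
      exact ⟨y, ⟨hyA, hyU⟩, rfl⟩
  rw [h3]
  exact hopen.measurableEmbedding.measurableSet_image.2 (measurable_subtype_coe hA)

/-- Measurability on the quotient can be checked on `G`. -/
theorem measurable_of_comp {β : Type*} [MeasurableSpace β] {Φ : G ⧸ Γ → β}
    (h : Measurable (fun g : G => Φ (QuotientGroup.mk g))) : Measurable Φ := by
  intro s hs
  have h1 := measurableSet_image Γ (h hs)
  have h2 : (QuotientGroup.mk : G → G ⧸ Γ) '' ((fun g : G => Φ (QuotientGroup.mk g)) ⁻¹' s) = Φ ⁻¹' s := by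
    ext z
    constructor
    · rintro ⟨y, hy, rfl⟩; exact hy
    · intro hz
      induction z using QuotientGroup.induction_on with | H a => ?_
      exact ⟨a, hz, rfl⟩
  rwa [h2] at h1

variable (μ : Measure G)

/-- The measure on `G ⧸ Γ`. -/
noncomputable def muX : Measure (G ⧸ Γ) := (μ.restrict (fd Γ)).map QuotientGroup.mk

/-- `∑_γ φ(gγ)` as a function on the quotient. -/
noncomputable def per (φ : G → ℝ≥0∞) : G ⧸ Γ → ℝ≥0∞ :=
  fun x => ∑' γ : Γ, φ (x.out * γ)

theorem per_mk (φ : G → ℝ≥0∞) (g : G) : per Γ φ (QuotientGroup.mk g) = ∑' γ : Γ, φ (g * γ) := by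
  unfold per
  obtain ⟨δ, hδ⟩ := QuotientGroup.mk_out_eq_mul Γ g
  rw [hδ]
  rw [← (Equiv.mulLeft δ).tsum_eq (fun γ : Γ => φ (g * γ))]
  congr 1
  ext1 γ
  simp [mul_assoc]

theorem per_measurable {φ : G → ℝ≥0∞} (hφ : Measurable φ) : Measurable (per Γ φ) := by
  apply measurable_of_comp
  simp only [per_mk]
  exact Measurable.ennreal_tsum fun γ => hφ.comp (measurable_mul_const _)

variable [μ.IsMulRightInvariant]

/-- **Unfolding.** -/
theorem lintegral_per {φ : G → ℝ≥0∞} (hφ : Measurable φ) :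
    ∫⁻ x, per Γ φ x ∂(muX Γ μ) = ∫⁻ g, φ g ∂μ := by
  rw [muX, lintegral_map (per_measurable Γ hφ) (measurable_mk Γ)]
  rw [(fd_isFund Γ μ).lintegral_eq_tsum'' φ]
  rw [← lintegral_tsum]
  · congr 1
    ext1 g
    rw [per_mk]
    let e : Γ ≃ Γ.op :=
      { toFun := fun γ => ⟨MulOpposite.op (γ : G), γ.2⟩
        invFun := fun γ => ⟨γ.1.unop, γ.2⟩
        left_inv := fun _ => rfl
        right_inv := fun _ => rfl }
    rw [← e.tsum_eq (fun γ : Γ.op => φ (γ • g))]
    rfl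
  · intro γ
    exact (hφ.comp (measurable_const_smul γ)).aemeasurable

theorem per_mul {φ : G → ℝ≥0∞} (Φ : G ⧸ Γ → ℝ≥0∞) (x : G ⧸ Γ) :
    per Γ (fun g => φ g * Φ (QuotientGroup.mk g)) x = per Γ φ x * Φ x := by
  induction x using QuotientGroup.induction_on with | H a => ?_
  rw [per_mk, per_mk, ← ENNReal.tsum_mul_right]
  congr 1
  ext1 γ
  rw [QuotientGroup.mk_mul_of_mem _ γ.2]

theorem unfold_mul {φ : G → ℝ≥0∞} (hφ : Measurable φ) {Φ : G ⧸ Γ → ℝ≥0∞} (hΦ : Measurable Φ) :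
    ∫⁻ x, per Γ φ x * Φ x ∂(muX Γ μ) = ∫⁻ g, φ g * Φ (QuotientGroup.mk g) ∂μ := by
  have hm : Measurable (fun g : G => φ g * Φ (QuotientGroup.mk g)) :=
    hφ.mul (hΦ.comp (measurable_mk Γ))
  rw [← lintegral_per Γ μ hm]
  congr 1
  ext1 x
  rw [per_mul]

/-- Integrals over the quotient as integrals over the fundamental set. -/
theorem lintegral_muX {Φ : G ⧸ Γ → ℝ≥0∞} (hΦ : Measurable Φ) :
    ∫⁻ x, Φ x ∂(muX Γ μ) = ∫⁻ g, (fd Γ).indicator 1 g * Φ (QuotientGroup.mk g) ∂μ := by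
  rw [← unfold_mul Γ μ (measurable_one.indicator (fd_meas Γ)) hΦ]
  congr 1
  ext1 x
  induction x using QuotientGroup.induction_on with | H a => ?_
  rw [per_mk, tsum_fd, one_mul]

theorem muX_ne_zero (hμ : μ ≠ 0) : muX Γ μ ≠ 0 := by
  intro h
  apply hμ
  have h1 := lintegral_per Γ μ (φ := fun _ => 1) measurable_const
  rw [h, lintegral_zero_measure, lintegral_one] at h1
  exact Measure.measure_univ_eq_zero.1 h1.symm

/-- invariance of the measure. -/
theorem smulInvariant [μ.IsMulLeftInvariant] : SMulInvariantMeasure G (G ⧸ Γ) (muX Γ μ) := by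
  refine ⟨fun g A hA => ?_⟩
  have hgA : MeasurableSet ((fun x : G ⧸ Γ => g • x) ⁻¹' A) :=
    (continuous_const_smul g).measurable hA
  rw [← lintegral_indicator_one hgA, ← lintegral_indicator_one hA]
  rw [lintegral_muX Γ μ (measurable_one.indicator hgA)]
  rw [← lintegral_mul_left_eq_self _ g⁻¹]
  have hφ : Measurable (fun y : G => (fd Γ).indicator (1 : G → ℝ≥0∞) (g⁻¹ * y)) :=
    (measurable_one.indicator (fd_meas Γ)).comp (measurable_const_mul g⁻¹)
  have h1 : ∀ y : G, (fd Γ).indicator (1 : G → ℝ≥0∞) (g⁻¹ * y) *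
      ((fun x : G ⧸ Γ => g • x) ⁻¹' A).indicator 1 (QuotientGroup.mk (g⁻¹ * y) : G ⧸ Γ)
      = (fd Γ).indicator (1 : G → ℝ≥0∞) (g⁻¹ * y) * A.indicator 1 (QuotientGroup.mk y : G ⧸ Γ) := by
    intro y
    congr 1
    have h2 : g • (QuotientGroup.mk (g⁻¹ * y) : G ⧸ Γ) = (QuotientGroup.mk y : G ⧸ Γ) := by
      change ((g * (g⁻¹ * y) : G) : G ⧸ Γ) = _
      rw [mul_inv_cancel_left]
    by_cases hy : (QuotientGroup.mk y : G ⧸ Γ) ∈ A
    · rw [indicator_of_mem hy, indicator_of_mem (by rw [mem_preimage, h2]; exact hy)]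
      rfl
    · rw [indicator_of_notMem hy, indicator_of_notMem (by rw [mem_preimage, h2]; exact hy)]
  simp only [h1]
  rw [← unfold_mul Γ μ hφ (measurable_one.indicator hA)]
  congr 1
  ext1 x
  induction x using QuotientGroup.induction_on with | H a => ?_
  rw [per_mk]
  have h3 : ∑' γ : Γ, (fd Γ).indicator (1 : G → ℝ≥0∞) (g⁻¹ * (a * γ)) = 1 := by
    rw [← tsum_fd Γ (g⁻¹ * a)]
    simp only [mul_assoc]
  rw [h3, one_mul]

theorem finiteOnCompacts [LocallyCompactSpace G] [T2Space G] [IsFiniteMeasureOnCompacts μ] :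
    IsFiniteMeasureOnCompacts (muX Γ μ) := by
  refine ⟨fun Y hY => ?_⟩
  obtain ⟨C, hC, hYC⟩ := exists_compact_lift Γ hY
  have h1 : muX Γ μ Y ≤ muX Γ μ ((QuotientGroup.mk : G → G ⧸ Γ) '' C) := measure_mono hYC
  have hCm : MeasurableSet C := hC.measurableSet
  have h2 : muX Γ μ ((QuotientGroup.mk : G → G ⧸ Γ) '' C) ≤ ∫⁻ x, per Γ (C.indicator 1) x ∂(muX Γ μ) := by
    rw [← lintegral_indicator_one (measurableSet_image Γ hCm)]
    apply lintegral_mono
    intro x
    by_cases hx : x ∈ (QuotientGroup.mk : G → G ⧸ Γ) '' C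
    · rw [indicator_of_mem hx]
      obtain ⟨c, hc, rfl⟩ := hx
      dsimp only
      rw [per_mk]
      refine le_trans ?_ (ENNReal.le_tsum (1 : Γ))
      rw [indicator_of_mem (by simpa using hc)]
      rfl
    · rw [indicator_of_notMem hx]
      exact bot_le
  refine (h1.trans h2).trans_lt ?_
  rw [lintegral_per Γ μ (measurable_one.indicator hCm), lintegral_indicator_one hCm]
  exact hC.measure_lt_top

/-- multiplicity bound: `#{γ : gγ ∈ D}` is bounded for compact `D`. -/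
theorem per_indicator_le [T2Space G] {D : Set G} (hD : IsCompact D) :
    ∃ M : ℝ≥0, ∀ x : G ⧸ Γ, per Γ (D.indicator 1) x ≤ M := by
  have hfin := finite_inter Γ (hD.inv.mul hD)
  refine ⟨hfin.toFinset.card, fun x => ?_⟩
  induction x using QuotientGroup.induction_on with | H a => ?_
  rw [per_mk]
  by_cases h : ∃ γ : Γ, a * γ ∈ D
  · obtain ⟨γ₀, hγ₀⟩ := h
    rw [← (Equiv.mulLeft γ₀).tsum_eq (fun γ : Γ => D.indicator (1 : G → ℝ≥0∞) (a * γ))]
    rw [tsum_eq_sum (s := hfin.toFinset)]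
    · refine (Finset.sum_le_card_nsmul _ _ 1 fun γ _ => ?_).trans ?_
      · by_cases hm : a * ((Equiv.mulLeft γ₀) γ : Γ) ∈ D
        · rw [indicator_of_mem hm]; exact le_refl _
        · rw [indicator_of_notMem hm]; exact bot_le
      · simp
    · intro γ hγ
      rw [indicator_of_notMem]
      intro hm
      apply hγ
      rw [Set.Finite.mem_toFinset]
      refine ⟨(a * γ₀)⁻¹, inv_mem_inv.2 hγ₀, a * ((Equiv.mulLeft γ₀) γ : Γ), hm, ?_⟩
      simp [mul_assoc]
  · have : ∀ γ : Γ, D.indicator (1 : G → ℝ≥0∞) (a * γ) = 0 := by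
      intro γ
      rw [indicator_of_notMem]
      intro hm
      exact h ⟨γ, hm⟩
    simp [this]

/-- On compact sets the orbit maps have bounded multiplicity. -/
theorem locBound [μ.IsMulLeftInvariant] [μ.IsInvInvariant] [LocallyCompactSpace G] [T2Space G]
    (B : Set G) (Y : Set (G ⧸ Γ)) (hB : IsCompact B) (hY : IsCompact Y) :
    ∃ M : ℝ≥0, ∀ F : G ⧸ Γ → ℝ≥0∞, Measurable F → ∀ x ∈ Y,
      ∫⁻ g in B, F (g⁻¹ • x) ∂μ ≤ M * ∫⁻ y, F y ∂(muX Γ μ) := by
  obtain ⟨C, hC, hYC⟩ := exists_compact_lift Γ hY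
  have hD : IsCompact (B⁻¹ * C) := hB.inv.mul hC
  obtain ⟨M, hM⟩ := per_indicator_le Γ hD
  refine ⟨M, fun F hF x hx => ?_⟩
  obtain ⟨a, ha, rfl⟩ := hYC hx
  have hact : ∀ g : G, g⁻¹ • (QuotientGroup.mk a : G ⧸ Γ) = QuotientGroup.mk (g⁻¹ * a) := fun g => rfl
  simp only [hact]
  have hBm : MeasurableSet B := hB.measurableSet
  rw [← lintegral_indicator hBm]
  rw [← lintegral_inv_eq_self (μ := μ), ← lintegral_mul_right_eq_self _ a⁻¹]
  calc ∫⁻ g, B.indicator (fun g => F (QuotientGroup.mk (g⁻¹ * a))) (g * a⁻¹)⁻¹ ∂μ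
      ≤ ∫⁻ g, (B⁻¹ * C).indicator 1 g * F (QuotientGroup.mk g) ∂μ := by
        apply lintegral_mono
        intro g
        dsimp only
        by_cases hg : (g * a⁻¹)⁻¹ ∈ B
        · rw [indicator_of_mem hg, inv_inv, inv_mul_cancel_right, indicator_of_mem, Pi.one_apply, one_mul]
          exact ⟨g * a⁻¹, by rw [Set.mem_inv]; exact hg, a, ha, inv_mul_cancel_right g a⟩
        · rw [indicator_of_notMem hg]
          exact bot_le
    _ = ∫⁻ x, per Γ ((B⁻¹ * C).indicator 1) x * F x ∂(muX Γ μ) :=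
        (unfold_mul Γ μ (measurable_one.indicator hD.measurableSet) hF).symm
    _ ≤ ∫⁻ x, M * F x ∂(muX Γ μ) := by
        apply lintegral_mono
        intro x
        dsimp only
        gcongr
        exact hM x
    _ = M * ∫⁻ y, F y ∂(muX Γ μ) := lintegral_const_mul' _ _ ENNReal.coe_ne_top

end meas

end Pool.Agent.FC.Quo
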