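import Mathlib
import Pool.Agent.FC.Quo
import Pool.Agent.FC.ConvE
import Pool.Agent.FC.ConvF

/-!
# FC: the quotient `G ⧸ Γ` satisfies the hypotheses of `Conv`

`G` second countable locally compact, `Γ` discrete, `μ` a Haar measure which is left, right and inversion invariant;
`ν = muX Γ μ`.
-/

open MeasureTheory Set Topology Filter
open scoped ENNReal NNReal Pointwise

set_option linter.unusedSectionVars false

namespace Pool.Agent.FC.Quo

section

variable {G : Type*} [Group G] [TopologicalSpace G] [IsTopologicalGroup G]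
  [SecondCountableTopology G] [LocallyCompactSpace G] [T2Space G]
  (Γ : Subgroup G) [DiscreteTopology Γ]

theorem countable_discrete : Countable Γ := countable_of_Lindelof_of_discrete

theorem t2X : T2Space (G ⧸ Γ) := t2 Γ (isClosed_of_discrete Γ)

variable [MeasurableSpace G] [BorelSpace G] [MeasurableSpace (G ⧸ Γ)] [BorelSpace (G ⧸ Γ)] [Countable Γ]
  (μ : Measure G) [μ.IsMulLeftInvariant] [μ.IsMulRightInvariant] [μ.IsInvInvariant]
  [IsFiniteMeasureOnCompacts μ]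

theorem locBoundX : Conv.LocBound μ (muX Γ μ) := fun B Y hB hY => locBound Γ μ B Y hB hY

/-- The Riesz vectors on `G ⧸ Γ`. -/
theorem exists_kvecX {h : G → ℂ} (hc : Continuous h) (hs : HasCompactSupport h) :
    ∃ k : G ⧸ Γ → Lp ℂ 2 (muX Γ μ), Continuous k ∧
      ∀ (f : Lp ℂ 2 (muX Γ μ)) (x : G ⧸ Γ), inner ℂ (k x) f = ∫ g, h g * f (g⁻¹ • x) ∂μ := by
  have h1 : T2Space (G ⧸ Γ) := t2X Γ
  have h2 : SMulInvariantMeasure G (G ⧸ Γ) (muX Γ μ) := smulInvariant Γ μ
  have h3 : IsFiniteMeasureOnCompacts (muX Γ μ) := finiteOnCompacts Γ μ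
  exact Conv.exists_kvec (open_orbit Γ) (locBoundX Γ μ) hc hs

/-- The compactness criterion on `G ⧸ Γ`. -/
theorem isCompactOperator_RopX [SMulInvariantMeasure G (G ⧸ Γ) (muX Γ μ)]
    [IsLocallyFiniteMeasure (muX Γ μ)] [(muX Γ μ).InnerRegularCompactLTTop]
    {h : G → ℂ} (hc : Continuous h)
    (hs : HasCompactSupport h) {κ : ℝ} (hκ : 0 < κ) {B : Set G} (hB : IsCompact B)
    (hcusp : ∀ ε > (0 : ℝ), ∃ Y : Set (G ⧸ Γ), IsCompact Y ∧ ∀ x ∉ Y, ∃ z : G, z • x = x ∧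
      ∃ c : ℂ, κ ≤ ‖1 - c‖ ∧ ∀ g, ‖h (z * g) - c * h g‖ ≤ ε * B.indicator 1 g) :
    IsCompactOperator (Conv.Rop μ (muX Γ μ) hc hs) := by
  have h1 : T2Space (G ⧸ Γ) := t2X Γ
  have h3 : IsFiniteMeasureOnCompacts (muX Γ μ) := finiteOnCompacts Γ μ
  exact Conv.isCompactOperator_Rop (locBoundX Γ μ) hc hs hκ hB hB.measurableSet hcusp

end

end Pool.Agent.FC.Quo
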