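import Mathlib
import Pool.Agent.FC.ConvA
import Pool.Agent.FC.ConvB

/-!
# FC: the vanishing principle (abstract form)

`Z` is a compact space with a finite measure `ρ`, `κ : Z → X` and `θ : Z → ℂ` are continuous, and
`cf F g = ∫ z, F (g⁻¹ • κ z) * θ z ∂ρ`.  If `W` is a closed invariant subspace contained in the closed
span of the translates of the class of the continuous function `φ`, and `cf φ = 0`, then `cf F = 0`
for all continuous functions `F` with class in `W`.
-/

open MeasureTheory Set Topology Filter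
open scoped ENNReal
open Pool.Agent.FC.Conv

set_option linter.unusedSectionVars false

namespace Pool.Agent.FC.Van

section cf

variable {G X Z : Type*} [Group G] [TopologicalSpace G] [IsTopologicalGroup G]
  [TopologicalSpace X] [MulAction G X] [ContinuousSMul G X]
  [TopologicalSpace Z] [CompactSpace Z] [MeasurableSpace Z] [BorelSpace Z]

/-- The coefficient of a function on `X`. -/
noncomputable def cf (ρ : Measure Z) (κ : Z → X) (θ : Z → ℂ) (F : X → ℂ) (g : G) : ℂ :=
  ∫ z, F (g⁻¹ • κ z) * θ z ∂ρ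

theorem continuous_cf [LocallyCompactSpace G] [FirstCountableTopology G] (ρ : Measure Z) [IsFiniteMeasure ρ]
    {κ : Z → X} (hκ : Continuous κ)
    {θ : Z → ℂ} (hθ : Continuous θ) {F : X → ℂ} (hF : Continuous F) :
    Continuous (cf (G := G) ρ κ θ F) := by
  have h := continuous_parametric_integral_of_continuous (μ := ρ)
    (f := fun (g : G) (z : Z) => F (g⁻¹ • κ z) * θ z)
    (by
      have h1 : Continuous (fun p : G × Z => F (p.1⁻¹ • κ p.2) * θ p.2) :=
        (hF.comp (continuous_fst.inv.smul (hκ.comp continuous_snd))).mul (hθ.comp continuous_snd)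
      exact h1) (s := Set.univ) isCompact_univ
  simp only [Measure.restrict_univ] at h
  exact h

theorem cf_translate (ρ : Measure Z) (κ : Z → X) (θ : Z → ℂ) (F : X → ℂ) (y g : G) :
    cf ρ κ θ (fun x => F (y⁻¹ • x)) g = cf ρ κ θ F (g * y) := by
  unfold cf
  congr 1
  ext1 z
  rw [mul_inv_rev, mul_smul]

theorem integrable_aux [MeasurableSpace G] [BorelSpace G] [SecondCountableTopology G]
    (μ : Measure G) [IsFiniteMeasureOnCompacts μ] [SigmaFinite μ]
    (ρ : Measure Z) [IsFiniteMeasure ρ] {Φ : Z × G → ℂ} (hΦ : Continuous Φ)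
    {w : G → ℂ} (hw : Continuous w) (hws : HasCompactSupport w) :
    Integrable (fun p : Z × G => w p.2 * Φ p) (ρ.prod μ) := by
  obtain ⟨M, hM⟩ := (isCompact_univ.prod hws : IsCompact ((univ : Set Z) ×ˢ tsupport w)).exists_bound_of_continuousOn
    hΦ.continuousOn
  have h1 : Integrable (fun p : Z × G => (fun _ : Z => M) p.1 * (fun y : G => ‖w y‖) p.2) (ρ.prod μ) :=
    Integrable.mul_prod (integrable_const M) (hw.integrable_of_hasCompactSupport hws).norm
  refine h1.mono' ((hw.comp continuous_snd).mul hΦ).aestronglyMeasurable ?_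
  refine ae_of_all _ ?_
  rintro ⟨z, y⟩
  dsimp only
  rw [norm_mul, mul_comm]
  by_cases hy : y ∈ tsupport w
  · gcongr
    exact hM (z, y) ⟨mem_univ _, hy⟩
  · rw [image_eq_zero_of_notMem_tsupport hy, norm_zero, mul_zero, mul_zero]

theorem cf_fubini [MeasurableSpace G] [BorelSpace G] [SecondCountableTopology G]
    (μ : Measure G) [IsFiniteMeasureOnCompacts μ] [SigmaFinite μ]
    (ρ : Measure Z) [IsFiniteMeasure ρ]
    {κ : Z → X} (hκ : Continuous κ)
    {θ : Z → ℂ} (hθ : Continuous θ) {F : X → ℂ} (hF : Continuous F)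
    {w : G → ℂ} (hw : Continuous w) (hws : HasCompactSupport w) (g : G) :
    ∫ z, θ z * ∫ y, w y * F (y⁻¹ • g⁻¹ • κ z) ∂μ ∂ρ = ∫ y, w y * cf ρ κ θ F (g * y) ∂μ := by
  have hcont : Continuous (fun p : Z × G => θ p.1 * F (p.2⁻¹ • g⁻¹ • κ p.1)) :=
    (hθ.comp continuous_fst).mul
      (hF.comp (continuous_snd.inv.smul ((hκ.comp continuous_fst).const_smul g⁻¹)))
  have hint : Integrable (Function.uncurry (fun (z : Z) (y : G) => w y * (θ z * F (y⁻¹ • g⁻¹ • κ z))))
      (ρ.prod μ) := integrable_aux μ ρ hcont hw hws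
  have h := integral_integral_swap hint
  have e1 : ∀ z, θ z * ∫ y, w y * F (y⁻¹ • g⁻¹ • κ z) ∂μ
      = ∫ y, w y * (θ z * F (y⁻¹ • g⁻¹ • κ z)) ∂μ := by
    intro z
    rw [← integral_const_mul]
    congr 1
    ext1 y
    ring
  simp only [e1]
  rw [h]
  congr 1
  ext1 y
  rw [cf, integral_const_mul]
  congr 2
  ext1 z
  rw [mul_inv_rev, mul_smul]
  ring

end cf

section van

variable {G X Z : Type*} [Group G] [TopologicalSpace G] [IsTopologicalGroup G]
  [SecondCountableTopology G] [LocallyCompactSpace G] [MeasurableSpace G] [BorelSpace G]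
  [TopologicalSpace X] [MeasurableSpace X] [BorelSpace X] [MulAction G X] [ContinuousSMul G X]
  [TopologicalSpace Z] [CompactSpace Z] [SecondCountableTopology Z] [MeasurableSpace Z] [BorelSpace Z]
  (μ : Measure G) [IsFiniteMeasureOnCompacts μ] [SigmaFinite μ] [μ.IsOpenPosMeasure]
  (ν : Measure X) [SMulInvariantMeasure G X ν]

/-- `k` represents the evaluation functionals of `R(w)`. -/
def IsK (w : G → ℂ) (k : X → Lp ℂ 2 ν) : Prop :=
  Continuous k ∧ ∀ (F : X → ℂ) (hF : MemLp F 2 ν) (x : X),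
    inner ℂ (k x) (hF.toLp F) = ∫ g, w g * F (g⁻¹ • x) ∂μ

/-- The vector which represents `F ↦ ∫ w(y) cf F (g y) dy`. -/
noncomputable def vec (ρ : Measure Z) (κ : Z → X) (θ : Z → ℂ) (k : X → Lp ℂ 2 ν) (g : G) : Lp ℂ 2 ν :=
  ∫ z, starRingEnd ℂ (θ z) • k (g⁻¹ • κ z) ∂ρ

omit [SecondCountableTopology Z] in
theorem integrable_of_compact [SecondCountableTopology Z] {E : Type*} [NormedAddCommGroup E] (ρ : Measure Z)
    [IsFiniteMeasure ρ] {f : Z → E} (hf : Continuous f) : Integrable f ρ := by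
  obtain ⟨M, hM⟩ := (isCompact_univ : IsCompact (univ : Set Z)).exists_bound_of_continuousOn hf.continuousOn
  exact (integrable_const M).mono' hf.aestronglyMeasurable (ae_of_all _ fun z => hM z (mem_univ z))

theorem inner_vec (ρ : Measure Z) [IsFiniteMeasure ρ] {κ : Z → X} (hκ : Continuous κ)
    {θ : Z → ℂ} (hθ : Continuous θ) {k : X → Lp ℂ 2 ν} (hk : Continuous k) (g : G) (f : Lp ℂ 2 ν) :
    inner ℂ (vec ν ρ κ θ k g) f = ∫ z, θ z * inner ℂ (k (g⁻¹ • κ z)) f ∂ρ := by
  have hc : Continuous (fun z => starRingEnd ℂ (θ z) • k (g⁻¹ • κ z)) :=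
    (Complex.continuous_conj.comp hθ).smul (hk.comp (hκ.const_smul g⁻¹))
  have hint : Integrable (fun z => starRingEnd ℂ (θ z) • k (g⁻¹ • κ z)) ρ :=
    integrable_of_compact ρ hc
  rw [← inner_conj_symm, vec, ← integral_inner hint, ← integral_conj]
  congr 1
  ext1 z
  rw [inner_smul_right, map_mul, Complex.conj_conj, inner_conj_symm]

/-- The pairing of the class of a continuous function with `vec`. -/
theorem inner_vec_toLp (ρ : Measure Z) [IsFiniteMeasure ρ] {κ : Z → X} (hκ : Continuous κ)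
    {θ : Z → ℂ} (hθ : Continuous θ) {w : G → ℂ} (hw : Continuous w) (hws : HasCompactSupport w)
    {k : X → Lp ℂ 2 ν} (hk : IsK μ ν w k) {F : X → ℂ} (hF : Continuous F) (hF2 : MemLp F 2 ν) (g : G) :
    inner ℂ (vec ν ρ κ θ k g) (hF2.toLp F) = ∫ y, w y * cf ρ κ θ F (g * y) ∂μ := by
  rw [inner_vec ν ρ hκ hθ hk.1 g, ← cf_fubini μ ρ hκ hθ hF hw hws g]
  congr 1
  ext1 z
  rw [hk.2 F hF2]

/-- The translate of a function in `L²`. -/
theorem memLp_translate (g : G) {F : X → ℂ} (hF2 : MemLp F 2 ν) : MemLp (fun x => F (g • x)) 2 ν :=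
  hF2.comp_measurePreserving (measurePreserving_smul g ν)

theorem rho_toLp (g : G) {F : X → ℂ} (hF2 : MemLp F 2 ν) :
    rho ν g (hF2.toLp F) = (memLp_translate ν g⁻¹ hF2).toLp (fun x => F (g⁻¹ • x)) := by
  apply Lp.ext
  refine (rho_ae ν g _).trans ?_
  refine EventuallyEq.trans ?_ (MemLp.coeFn_toLp _).symm
  exact (measurePreserving_smul g⁻¹ ν).quasiMeasurePreserving.ae_eq_comp (MemLp.coeFn_toLp hF2)

/-- If all translates are orthogonal to `ξ`, so is the closed span. -/
theorem inner_eq_zero_of_mem {E : Type*} [NormedAddCommGroup E] [InnerProductSpace ℂ E] (ξ : E) (S : Set E)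
    (hS : ∀ x ∈ S, inner ℂ ξ x = 0) (f : E) (hf : f ∈ (Submodule.span ℂ S).topologicalClosure) :
    inner ℂ ξ f = 0 := by
  have hcl : IsClosed {x : E | inner ℂ ξ x = 0} :=
    isClosed_eq (continuous_const.inner continuous_id) continuous_const
  have hsub : (Submodule.span ℂ S : Set E) ⊆ {x : E | inner ℂ ξ x = 0} := by
    intro x hx
    induction hx using Submodule.span_induction with
    | mem x hx => exact hS x hx
    | zero => exact inner_zero_right _
    | add x y _ _ hx hy =>
      change inner ℂ ξ (x + y) = 0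
      rw [inner_add_right]
      change inner ℂ ξ x = 0 at hx
      change inner ℂ ξ y = 0 at hy
      rw [hx, hy, add_zero]
    | smul c x _ hx =>
      change inner ℂ ξ (c • x) = 0
      change inner ℂ ξ x = 0 at hx
      rw [inner_smul_right, hx, mul_zero]
  exact closure_minimal hsub hcl hf

/-- The vanishing principle. -/
theorem vanish (ρ : Measure Z) [IsFiniteMeasure ρ] {κ : Z → X} (hκ : Continuous κ)
    {θ : Z → ℂ} (hθ : Continuous θ)
    (hK : ∀ w : G → ℂ, Continuous w → HasCompactSupport w → ∃ k : X → Lp ℂ 2 ν, IsK μ ν w k)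
    {φ : X → ℂ} (hφ : Continuous φ) (hφ2 : MemLp φ 2 ν)
    (h0 : ∀ g : G, cf ρ κ θ φ g = 0)
    {F : X → ℂ} (hF : Continuous F) (hF2 : MemLp F 2 ν)
    (hmem : hF2.toLp F ∈ (Submodule.span ℂ (range fun y : G => rho ν y (hφ2.toLp φ))).topologicalClosure)
    (g : G) : cf ρ κ θ F g = 0 := by
  have key : ∀ w : G → ℂ, Continuous w → HasCompactSupport w →
      ∫ y, w y * cf ρ κ θ F (g * y) ∂μ = 0 := by
    intro w hw hws
    obtain ⟨k, hk⟩ := hK w hw hws
    rw [← inner_vec_toLp μ ν ρ hκ hθ hw hws hk hF hF2 g]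
    refine inner_eq_zero_of_mem _ _ ?_ _ hmem
    rintro _ ⟨y₀, rfl⟩
    dsimp only
    rw [rho_toLp ν y₀ hφ2]
    have hc : Continuous (fun x => φ (y₀⁻¹ • x)) := hφ.comp (continuous_const_smul y₀⁻¹)
    rw [inner_vec_toLp μ ν ρ hκ hθ hw hws hk hc]
    simp only [cf_translate, h0, mul_zero, integral_zero]
  by_contra hne
  obtain ⟨b, hbs, hb0, hb1⟩ := exists_continuous_nonneg_pos (1 : G)
  have hcf : Continuous (fun y : G => cf ρ κ θ F (g * y)) :=
    (continuous_cf ρ hκ hθ hF).comp (continuous_const_mul g)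
  have h1 := key (fun y => (b y : ℂ) * starRingEnd ℂ (cf ρ κ θ F (g * y)))
    ((Complex.continuous_ofReal.comp b.continuous).mul (Complex.continuous_conj.comp hcf))
    (by
      refine HasCompactSupport.intro (K := tsupport b) hbs ?_
      intro y hy
      rw [image_eq_zero_of_notMem_tsupport hy, Complex.ofReal_zero, zero_mul])
  have h2 : (fun y => (b y : ℂ) * starRingEnd ℂ (cf ρ κ θ F (g * y)) * cf ρ κ θ F (g * y))
      = fun y => ((b y * Complex.normSq (cf ρ κ θ F (g * y)) : ℝ) : ℂ) := by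
    ext1 y
    rw [mul_assoc, mul_comm (starRingEnd ℂ _), Complex.mul_conj, Complex.ofReal_mul]
  rw [h2, integral_complex_ofReal, Complex.ofReal_eq_zero] at h1
  have h3 : 0 < ∫ y, b y * Complex.normSq (cf ρ κ θ F (g * y)) ∂μ := by
    refine Continuous.integral_pos_of_hasCompactSupport_nonneg_nonzero (x := (1 : G))
      (b.continuous.mul (Complex.continuous_normSq.comp hcf)) ?_ ?_ ?_
    · exact HasCompactSupport.mul_right hbs
    · intro y
      exact mul_nonneg (hb0 y) (Complex.normSq_nonneg _)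
    · rw [mul_one]
      exact mul_ne_zero hb1 (fun h => hne (Complex.normSq_eq_zero.1 h))
  exact absurd h1 h3.ne'

end van

end Pool.Agent.FC.Van
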