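import Pool.Agent.FC.Coef
import Pool.Agent.FC.ConvB
import Pool.Agent.FC.Hilb
import Pool.Agent.FC.VanA

/-!
# FC: if one continuous function of an irreducible subspace has a coefficient, then so has every
nonzero one
-/

open MeasureTheory Set Topology Filter

namespace Pool.Agent.FC.Abs

open Pool.Agent.FC.Conv

variable {G : Type*} [Group G] [TopologicalSpace G] [IsTopologicalGroup G]
  [SecondCountableTopology G] [T2Space G] [LocallyCompactSpace G]
  [MeasurableSpace G] [BorelSpace G] {Γ : Subgroup G} [DiscreteTopology Γ] [Countable Γ]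
  [MeasurableSpace (G ⧸ Γ)] [BorelSpace (G ⧸ Γ)]
  {μ : Measure G} [μ.IsHaarMeasure]
  {ν : Measure (G ⧸ Γ)} [IsFiniteMeasureOnCompacts ν] [SMulInvariantMeasure G (G ⧸ Γ) ν]

theorem exists_coef_ne_zero
    (hkv : ∀ w : G → ℂ, Continuous w → HasCompactSupport w → ∃ k, IsKvec (X := G ⧸ Γ) μ ν w k)
    {W : Submodule ℂ (Lp ℂ 2 ν)} (hW : Hilb.Irr (rho ν (G := G)) W)
    {F₀ F : G ⧸ Γ → ℂ} (hF₀ : Continuous F₀) (hm₀ : MemLp F₀ 2 ν) (h₀W : hm₀.toLp F₀ ∈ W)
    (h₀ : hm₀.toLp F₀ ≠ 0) (hF : Continuous F) (hm : MemLp F 2 ν) (hFW : hm.toLp F ∈ W)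
    {V : Subgroup G} [MeasurableSpace (V ⧸ Γ.subgroupOf V)]
    [BorelSpace (V ⧸ Γ.subgroupOf V)] {ρ : Measure (V ⧸ Γ.subgroupOf V)} {θ : G → ℂ}
    (D : VData Γ V ρ θ) (g : G) (hg : coef Γ V ρ θ F g ≠ 0) :
    ∃ g' : G, coef Γ V ρ θ F₀ g' ≠ 0 := by
  by_contra hcon
  push Not at hcon
  have hcomp : CompactSpace (V ⧸ Γ.subgroupOf V) := D.compact
  have hfin : IsFiniteMeasure ρ := D.finite
  have h2V : SecondCountableTopology V :=
    (Topology.IsInducing.subtypeVal : Topology.IsInducing (Subtype.val : V → G)).secondCountableTopology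
  have h2 : SecondCountableTopology (V ⧸ Γ.subgroupOf V) :=
    (QuotientGroup.isOpenQuotientMap_mk (N := Γ.subgroupOf V)).isQuotientMap.secondCountableTopology
      QuotientGroup.isOpenMap_coe
  have hκ : Continuous (fun x : V ⧸ Γ.subgroupOf V => (QuotientGroup.mk (x.out : G) : G ⧸ Γ)) := by
    refine continuous_out (V := V) (Γ := Γ) (fun v => (QuotientGroup.mk v : G ⧸ Γ)) ?_ ?_
    · exact continuous_quotient_mk'.comp continuous_subtype_val
    · intro v _ γ _ hγ
      exact (QuotientGroup.mk_mul_of_mem v hγ)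
  have hθ : Continuous (fun x : V ⧸ Γ.subgroupOf V => θ (x.out : G)) :=
    continuous_out (V := V) (Γ := Γ) θ D.cont D.inv
  have hK : ∀ w : G → ℂ, Continuous w → HasCompactSupport w →
      ∃ k : G ⧸ Γ → Lp ℂ 2 ν, Van.IsK μ ν w k := by
    intro w hw hws
    obtain ⟨k, hk⟩ := hkv w hw hws
    exact ⟨k, hk.cont, hk.inner_eq⟩
  have hmem : hm.toLp F ∈ (Submodule.span ℂ
      (range fun y : G => rho ν y (hm₀.toLp F₀))).topologicalClosure := by
    set S : Submodule ℂ (Lp ℂ 2 ν) := Submodule.span ℂ (range fun y : G => rho ν y (hm₀.toLp F₀)) with hS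
    have hSW : S.topologicalClosure ≤ W := by
      refine Submodule.topologicalClosure_minimal _ ?_ hW.1.1
      rw [hS, Submodule.span_le]
      rintro _ ⟨y, rfl⟩
      exact hW.1.2 y _ h₀W
    have hinv : Hilb.Inv (rho ν (G := G)) S.topologicalClosure := by
      refine ⟨Submodule.isClosed_topologicalClosure S, fun y x hx => ?_⟩
      have hmap : S ≤ S.comap (rho ν y : Lp ℂ 2 ν →ₗ[ℂ] Lp ℂ 2 ν) := by
        rw [hS, Submodule.span_le]
        rintro _ ⟨y', rfl⟩
        change rho ν y (rho ν y' (hm₀.toLp F₀)) ∈ S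
        rw [← rho_mul]
        exact Submodule.subset_span ⟨y * y', rfl⟩
      exact map_mem_closure (rho ν y).continuous hx fun z hz => hmap hz
    rcases hW.2.2 _ hSW hinv with h | h
    · exfalso
      apply h₀
      have : hm₀.toLp F₀ ∈ S.topologicalClosure := by
        apply Submodule.le_topologicalClosure
        have h1 : rho ν (1 : G) (hm₀.toLp F₀) ∈ S := Submodule.subset_span ⟨1, rfl⟩
        rwa [rho_one] at h1
      rw [h, Submodule.mem_bot] at this
      exact this
    · rw [h]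
      exact hFW
  exact hg (Van.vanish μ ν ρ hκ hθ hK hF₀ hm₀ hcon hF hm hmem g)

end Pool.Agent.FC.Abs
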