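import Pool.Agent.FC.Pos2
import Pool.Agent.FC.Van
import Pool.Agent.FC.IrrG
import Pool.Agent.FC.QuoI

/-!
# FC: the global half, abstract form

`G` is a second countable locally compact group with a two-sided invariant Haar measure, `Γ` a
discrete subgroup, `(V₁, θ₁)` and `(V₂, θ₂)` two subgroups with characters.
-/

open MeasureTheory Set Topology Filter
open scoped ENNReal

namespace Pool.Agent.FC.Abs

open Pool.Agent.FC.Conv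

variable {G : Type*} [Group G] [TopologicalSpace G] [IsTopologicalGroup G]
  [SecondCountableTopology G] [T2Space G] [LocallyCompactSpace G]
  [MeasurableSpace G] [BorelSpace G] {Γ : Subgroup G} [DiscreteTopology Γ] [Countable Γ]
  [MeasurableSpace (G ⧸ Γ)] [BorelSpace (G ⧸ Γ)]

omit [T2Space G] [LocallyCompactSpace G] [MeasurableSpace G] [BorelSpace G] [DiscreteTopology Γ]
  [Countable Γ] [MeasurableSpace (G ⧸ Γ)] [BorelSpace (G ⧸ Γ)] in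
theorem secondCountable_quotient : SecondCountableTopology (G ⧸ Γ) :=
  (QuotientGroup.isOpenQuotientMap_mk (N := Γ)).isQuotientMap.secondCountableTopology
    QuotientGroup.isOpenMap_coe

theorem unfolds_muX (μ : Measure G) [μ.IsMulRightInvariant] : Unfolds μ (Quo.muX Γ μ) := by
  intro F hF
  exact (Quo.lintegral_per Γ μ hF).symm

theorem isOpenPos_muX (μ : Measure G) [μ.IsHaarMeasure] [μ.IsMulRightInvariant] :
    (Quo.muX Γ μ).IsOpenPosMeasure := by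
  have h2 : SMulInvariantMeasure G (G ⧸ Γ) (Quo.muX Γ μ) := Quo.smulInvariant Γ μ
  have hsc : SecondCountableTopology (G ⧸ Γ) := secondCountable_quotient
  constructor
  intro U hU hne h0
  obtain ⟨y, hy⟩ := hne
  refine Quo.muX_ne_zero Γ μ (NeZero.ne μ) ?_
  rw [← Measure.measure_univ_eq_zero]
  obtain ⟨T, hT, hTU⟩ := TopologicalSpace.isOpen_iUnion_countable
    (fun g : G => (fun x : G ⧸ Γ => g • x) ⁻¹' U) fun g => hU.preimage (continuous_const_smul g)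
  have hcov : (⋃ g ∈ T, (fun x : G ⧸ Γ => g • x) ⁻¹' U) = univ := by
    rw [hTU, eq_univ_iff_forall]
    intro x
    obtain ⟨g, hg⟩ := MulAction.exists_smul_eq G x y
    exact mem_iUnion.2 ⟨g, by change g • x ∈ U; rw [hg]; exact hy⟩
  rw [← hcov, measure_biUnion_null_iff hT]
  intro g _
  rw [measure_preimage_smul_of_nullMeasurableSet]
  · exact h0
  · exact hU.measurableSet.nullMeasurableSet

theorem exists_isKvec (μ : Measure G) [μ.IsHaarMeasure] [μ.IsMulRightInvariant] [μ.IsInvInvariant]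
    {h : G → ℂ} (hc : Continuous h) (hs : HasCompactSupport h) :
    ∃ k : G ⧸ Γ → Lp ℂ 2 (Quo.muX Γ μ), IsKvec μ (Quo.muX Γ μ) h k := by
  have h2 : SMulInvariantMeasure G (G ⧸ Γ) (Quo.muX Γ μ) := Quo.smulInvariant Γ μ
  have h3 : IsFiniteMeasureOnCompacts (Quo.muX Γ μ) := Quo.finiteOnCompacts Γ μ
  obtain ⟨k, hk, hk'⟩ := Quo.exists_kvecX Γ μ hc hs
  refine ⟨k, hk, fun F hF x => ?_⟩
  rw [hk']
  exact Conv.ell_congr (Quo.locBoundX Γ μ) hF.coeFn_toLp h x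

/-- **The global half, abstract form.** -/
theorem exists_global (μ : Measure G) [μ.IsHaarMeasure] [μ.IsMulRightInvariant] [μ.IsInvInvariant]
    [SMulInvariantMeasure G (G ⧸ Γ) (Quo.muX Γ μ)] [IsFiniteMeasureOnCompacts (Quo.muX Γ μ)]
    {h : G → ℂ} (hc : Continuous h) (hs : HasCompactSupport h)
    (hstar : ∀ g, h g⁻¹ = starRingEnd ℂ (h g)) (h1 : h 1 ≠ 0)
    (hcusp : ∃ B : Set G, IsCompact B ∧ MeasurableSet B ∧
      ∀ ε > (0 : ℝ), ∃ Y : Set (G ⧸ Γ), IsCompact Y ∧ ∀ x ∉ Y, ∃ z : G, z • x = x ∧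
        ∃ c : ℂ, 1 ≤ ‖1 - c‖ ∧ ∀ g, ‖h (z * g) - c * h g‖ ≤ ε * B.indicator 1 g)
    {V₁ V₂ : Subgroup G} [MeasurableSpace (V₁ ⧸ Γ.subgroupOf V₁)]
    [BorelSpace (V₁ ⧸ Γ.subgroupOf V₁)] [MeasurableSpace (V₂ ⧸ Γ.subgroupOf V₂)]
    [BorelSpace (V₂ ⧸ Γ.subgroupOf V₂)] {ρ₁ : Measure (V₁ ⧸ Γ.subgroupOf V₁)}
    {ρ₂ : Measure (V₂ ⧸ Γ.subgroupOf V₂)} {θ₁ θ₂ : G → ℂ}
    (D₁ : VData Γ V₁ ρ₁ θ₁) (D₂ : VData Γ V₂ ρ₂ θ₂)
    [SMulInvariantMeasure V₁ (V₁ ⧸ Γ.subgroupOf V₁) ρ₁]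
    [SMulInvariantMeasure V₂ (V₂ ⧸ Γ.subgroupOf V₂) ρ₂]
    (hρ₁ : ρ₁ ≠ 0) (hρ₂ : ρ₂ ≠ 0) (hθ₁ : θ₁ 1 = 1) (hθ₂ : θ₂ 1 = 1)
    (hpos : ∀ v₁ ∈ V₁, ∀ v₂ ∈ V₂, ∀ γ ∈ Γ, ∀ z : G,
      0 ≤ (θ₂ v₂ * starRingEnd ℂ (θ₁ v₁) * h (v₂ * z⁻¹) *
        starRingEnd ℂ (h (v₁ * γ * z⁻¹))).re) :
    ∃ W : Submodule ℂ (Lp ℂ 2 (Quo.muX Γ μ)), Hilb.Irr (rho (Quo.muX Γ μ) (G := G)) W ∧
      ∃ (F₀ : G ⧸ Γ → ℂ) (hm : MemLp F₀ 2 (Quo.muX Γ μ)), Continuous F₀ ∧ hm.toLp F₀ ∈ W ∧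
        (∃ c : ℂ, c ≠ 0 ∧ ∀ x, c * F₀ x = ∫ g, h g * F₀ (g⁻¹ • x) ∂μ) ∧
        coef Γ V₁ ρ₁ θ₁ F₀ 1 ≠ 0 ∧ coef Γ V₂ ρ₂ θ₂ F₀ 1 ≠ 0 ∧
        ∀ (V : Subgroup G) [MeasurableSpace (V ⧸ Γ.subgroupOf V)]
          [BorelSpace (V ⧸ Γ.subgroupOf V)] (ρ : Measure (V ⧸ Γ.subgroupOf V)) (θ : G → ℂ),
          VData Γ V ρ θ → ∀ F : G ⧸ Γ → ℂ, Continuous F →
          (∃ hF : MemLp F 2 (Quo.muX Γ μ), hF.toLp F ∈ W) →
          ∀ g : G, coef Γ V ρ θ F g ≠ 0 → ∃ g' : G, coef Γ V ρ θ F₀ g' ≠ 0 := by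
  have hsc : SecondCountableTopology (G ⧸ Γ) := secondCountable_quotient
  have hT2 : T2Space (G ⧸ Γ) := Quo.t2X Γ
  have hop : (Quo.muX Γ μ).IsOpenPosMeasure := isOpenPos_muX μ
  have hlf : IsLocallyFiniteMeasure (Quo.muX Γ μ) := inferInstance
  have hreg : (Quo.muX Γ μ).Regular := inferInstance
  obtain ⟨k, hk⟩ := exists_isKvec (Γ := Γ) μ hc hs
  obtain ⟨B, hB, -, hcusp⟩ := hcusp
  have hT : IsCompactOperator (Rop μ (Quo.muX Γ μ) hc hs) :=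
    Quo.isCompactOperator_RopX Γ μ hc hs one_pos hB hcusp
  have hne := inner_xi_xi_ne_zero (unfolds_muX (Γ := Γ) μ) hc hs hk h1 D₁ D₂ hρ₁ hρ₂ hθ₁ hθ₂ hpos
  obtain ⟨W, hW, F₀, hm, hF₀c, hF₀W, hF₀0, heig, hc₁, hc₂⟩ :=
    exists_irr_coef hc hs hstar hT hk D₁ D₂ hne
  refine ⟨W, hW, F₀, hm, hF₀c, hF₀W, heig, hc₁, hc₂, ?_⟩
  intro V _ _ ρ θ D F hF ⟨hFm, hFW⟩ g hg
  exact exists_coef_ne_zero (fun w hw hws => exists_isKvec μ hw hws) hW hF₀c hm hF₀W hF₀0 hF hFm hFW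
    D g hg

end Pool.Agent.FC.Abs
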