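import Pool.Agent.FC.Base
import Pool.Agent.FC.ResM
import Pool.Agent.FC.Unimod

/-!
# FC: the test function `h(g) = η(g_∞) conj χ(g) 1_U(g)`
-/

open RestrictedProduct Matrix MeasureTheory Topology

noncomputable section

namespace Pool.Agent.FC

/-- the test function -/
def hfun (ψ : AddChar Adele Circle) (η : symplecticGroup (Fin 6) ℝ → ℝ) : GA 6 → ℂ :=
  USet.indicator fun g => (η (prR 6 g) : ℂ) * starRingEnd ℂ ((chi ψ g : Circle) : ℂ)

theorem hfun_eq_ker (ψ : AddChar Adele Circle) (η : symplecticGroup (Fin 6) ℝ → ℝ) :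
    hfun ψ η = ResM.ker ψ η := by
  funext g
  by_cases hg : g ∈ USet
  · rw [ResM.ker_of_mem ψ η hg]
    unfold hfun
    rw [Set.indicator_of_mem hg, Circle.coe_inv_eq_conj]
    rfl
  · rw [ResM.ker_of_notMem ψ η hg]
    unfold hfun
    rw [Set.indicator_of_notMem hg]

theorem prR_continuous : Continuous (prR 6) := ResM.continuous_spR

/-- `U` has compact intersection with the preimages of compact sets at infinity. -/
theorem isCompact_USet_inter {B : Set (symplecticGroup (Fin 6) ℝ)} (hB : IsCompact B) :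
    IsCompact {u : GA 6 | u ∈ USet ∧ prR 6 u ∈ B} :=
  ResM.isCompact_U_inter hB

variable {ψ : AddChar Adele Circle} {η : symplecticGroup (Fin 6) ℝ → ℝ}

theorem hfun_continuous (hψ : IsStd ψ) (hc : Continuous η) : Continuous (hfun ψ η) := by
  rw [hfun_eq_ker]
  exact ResM.continuous_ker hψ hc

theorem hfun_compact (hs : HasCompactSupport η) : HasCompactSupport (hfun ψ η) := by
  rw [hfun_eq_ker]
  exact ResM.hasCompactSupport_ker ψ hs

theorem hfun_star (hψ : IsStd ψ) (hη : ∀ g, η g⁻¹ = η g) (g : GA 6) :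
    hfun ψ η g⁻¹ = starRingEnd ℂ (hfun ψ η g) := by
  rw [hfun_eq_ker]
  exact ResM.ker_inv hψ hη g

theorem hfun_one : hfun ψ η 1 = η 1 := by
  rw [hfun_eq_ker]
  exact ResM.ker_one ψ η

/-- left translation by `u ∈ U` -/
theorem hfun_mul (hψ : IsStd ψ) {u : GA 6} (hu : u ∈ USet) (g : GA 6) :
    hfun ψ η (u * g) = starRingEnd ℂ ((chi ψ u : Circle) : ℂ) *
      hfun ψ (fun x => η (prR 6 u * x)) g := by
  rw [hfun_eq_ker, hfun_eq_ker, ResM.ker_mul_left hψ η hu, Circle.coe_inv_eq_conj]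
  rfl

/-- the phase of a product -/
theorem hfun_mul_conj (hψ : IsStd ψ) {a b y : GA 6} (hy : b = y * a) (ha : hfun ψ η a ≠ 0)
    (hb : hfun ψ η b ≠ 0) : y ∈ USet ∧ hfun ψ η a * starRingEnd ℂ (hfun ψ η b) =
      ((chi ψ y : Circle) : ℂ) * ((η (prR 6 a) * η (prR 6 b) : ℝ) : ℂ) := by
  rw [hfun_eq_ker] at ha hb ⊢
  have hne : ResM.ker ψ η a * starRingEnd ℂ (ResM.ker ψ η b) ≠ 0 := by
    refine mul_ne_zero ha ?_
    intro h
    exact hb ((map_eq_zero _).mp h)
  obtain ⟨h1, h2, h3, -, -⟩ := ResM.ker_mul_conj' hψ η hne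
  have hy2 : b * a⁻¹ = y := by rw [hy]; group
  rw [hy2] at h3
  refine ⟨h3, ?_⟩
  rw [ResM.ker_mul_conj hψ η h1 h2, hy2, mul_comm]
  rfl

/-- an eigenfunction of `R(h)` is `χ`-equivariant under `U` (finite part) -/
theorem equiv_of_eigen (hψ : IsStd ψ) {μ : Measure (GA 6)} [μ.IsHaarMeasure]
    {F : AutQuot 6 → ℂ} {c : ℂ} (hc : c ≠ 0)
    (hF : ∀ x, c * F x = ∫ g, hfun ψ η g * F (g⁻¹ • x) ∂μ) {u : GA 6} (hu : u ∈ USet)
    (hu1 : prR 6 u = 1) (x : AutQuot 6) :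
    F (u⁻¹ • x) = ((chi ψ u : Circle) : ℂ) * F x := by
  have hu' : u⁻¹ ∈ USet := ResM.UGrp.inv_mem (show u ∈ ResM.UGrp from hu)
  have hu2 : prR 6 u⁻¹ = 1 := by rw [map_inv, hu1, inv_one]
  have h1 : c * F (u⁻¹ • x) = ((chi ψ u : Circle) : ℂ) * (c * F x) := by
    rw [hF (u⁻¹ • x), hF x, ← MeasureTheory.integral_const_mul]
    have h2 := MeasureTheory.integral_mul_left_eq_self (μ := μ)
      (fun g => hfun ψ η (u⁻¹ * g) * F (g⁻¹ • x)) u
    have h3 : (fun g => hfun ψ η (u⁻¹ * (u * g)) * F ((u * g)⁻¹ • x)) =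
        fun g => hfun ψ η g * F (g⁻¹ • u⁻¹ • x) := by
      funext g
      rw [inv_mul_cancel_left, _root_.mul_inv_rev, mul_smul]
    rw [h3] at h2
    rw [h2]
    congr 1
    funext g
    rw [hfun_mul hψ hu', hu2, ResM.chi_inv hψ hu, Circle.coe_inv_eq_conj, Complex.conj_conj,
      mul_assoc]
    simp only [one_mul]
  have h4 : c * F (u⁻¹ • x) = c * (((chi ψ u : Circle) : ℂ) * F x) := by
    rw [h1]; ring
  exact mul_left_cancel₀ hc h4

end Pool.Agent.FC
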