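import Pool.Agent.FC.KFinA
import Pool.Agent.FC.RedA
import Pool.Agent.FC.Rho
import Pool.Agent.FC.VComp
import Pool.Agent.FC.Coef
import Pool.Agent.FC.QuoI

/-!
# Project FC: `K`-finite vectors

`KA n` is the maximal compact subgroup `U(n) × ∏ Sp_{2n}(ℤ_p)` of `Sp_{2n}(𝔸)`.  If a continuous
function of a closed invariant subspace has a nonzero Fourier coefficient, then so has a continuous
`KA n`-finite function of the subspace.
-/

open RestrictedProduct Matrix MeasureTheory Topology

noncomputable section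

namespace Pool.Agent.FC

namespace KFin

open RedA

theorem continuous_evp (p : Nat.Primes) : Continuous (evp p) :=
  (RestrictedProduct.continuous_eval p).comp continuous_snd

theorem continuous_gp {n : ℕ} (p : Nat.Primes) : Continuous fun g : GA n => gp g p :=
  continuous_subtype_val.matrix_map (continuous_evp p)

theorem continuous_gR {n : ℕ} : Continuous fun g : GA n => gR g :=
  continuous_subtype_val.matrix_map continuous_fst

variable {n : ℕ}

theorem gp_mul (a b : GA n) (p : Nat.Primes) : gp (a * b) p = gp a p * gp b p := by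
  unfold gp
  rw [Submonoid.coe_mul, Matrix.map_mul]

theorem gR_mul (a b : GA n) : gR (a * b) = gR a * gR b := by
  unfold gR
  rw [Submonoid.coe_mul, Matrix.map_mul]

theorem gp_one (p : Nat.Primes) : gp (1 : GA n) p = 1 := by
  unfold gp
  rw [Submonoid.coe_one, Matrix.map_one _ (map_zero _) (map_one _)]

theorem gR_one : gR (1 : GA n) = 1 := by
  unfold gR
  rw [Submonoid.coe_one, Matrix.map_one _ (map_zero _) (map_one _)]

theorem norm_J (p : Nat.Primes) (i j : Fin n ⊕ Fin n) : ‖J (Fin n) ℚ_[(p : ℕ)] i j‖ ≤ 1 := by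
  rcases i with i | i <;> rcases j with j | j
  · simp [J]
  · simp only [J, Matrix.fromBlocks_apply₁₂, Matrix.neg_apply, norm_neg, Matrix.one_apply]
    split_ifs <;> simp
  · simp only [J, Matrix.fromBlocks_apply₂₁, Matrix.one_apply]
    split_ifs <;> simp
  · simp [J]

theorem gp_inv (g : GA n) (p : Nat.Primes) :
    gp g⁻¹ p = -J (Fin n) _ * (gp g p)ᵀ * J (Fin n) _ := by
  have h1 : ((g⁻¹ : GA n) : Mat n Adele) = -J (Fin n) Adele * (g : Mat n Adele)ᵀ * J (Fin n) Adele :=
    SymplecticGroup.coe_inv g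
  unfold gp
  rw [h1, Matrix.map_mul, Matrix.map_mul, map_J]
  have h2 : (-J (Fin n) Adele).map (evp p) = -J (Fin n) _ := by
    refine Matrix.ext fun i j => ?_
    have h3 := congrFun (congrFun (map_J (Fin n) (evp p)) i) j
    rw [Matrix.map_apply] at h3
    rw [Matrix.map_apply, Matrix.neg_apply, Matrix.neg_apply, map_neg, h3]
  rw [h2]
  rfl

theorem int_inv {g : GA n} {p : Nat.Primes} (h : ∀ i j, ‖gp g p i j‖ ≤ 1) (i j) :
    ‖gp g⁻¹ p i j‖ ≤ 1 := by
  rw [gp_inv]
  refine int_mul (int_mul (fun a b => ?_) fun a b => h b a) (norm_J p) i j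
  rw [Matrix.neg_apply, norm_neg]
  exact norm_J p a b

end KFin

open KFin RedA

/-- The maximal compact subgroup `U(n) × ∏ Sp_{2n}(ℤ_p)` of `Sp_{2n}(𝔸)`. -/
def KA (n : ℕ) : Subgroup (GA n) where
  carrier := {k | gR k * (gR k)ᵀ = 1 ∧ ∀ (p : Nat.Primes) i j, ‖gp k p i j‖ ≤ 1}
  one_mem' := by
    refine ⟨by rw [gR_one, Matrix.transpose_one, Matrix.one_mul], fun p i j => ?_⟩
    rw [gp_one, Matrix.one_apply]
    split_ifs <;> simp
  mul_mem' := by
    rintro a b ⟨ha, ha'⟩ ⟨hb, hb'⟩
    refine ⟨?_, fun p i j => ?_⟩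
    · rw [gR_mul, Matrix.transpose_mul]
      calc gR a * gR b * ((gR b)ᵀ * (gR a)ᵀ) = gR a * (gR b * (gR b)ᵀ) * (gR a)ᵀ := by
            simp only [Matrix.mul_assoc]
        _ = 1 := by rw [hb, Matrix.mul_one, ha]
    · rw [gp_mul]
      exact int_mul (ha' p) (hb' p) i j
  inv_mem' := by
    rintro a ⟨ha, ha'⟩
    refine ⟨?_, fun p i j => int_inv (ha' p) i j⟩
    have h1 : gR a⁻¹ = (gR a)ᵀ := by
      calc gR a⁻¹ = gR a⁻¹ * (gR a * (gR a)ᵀ) := by rw [ha, Matrix.mul_one]
        _ = (gR a⁻¹ * gR a) * (gR a)ᵀ := by rw [Matrix.mul_assoc]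
        _ = (gR a)ᵀ := by rw [gR_inv_mul, Matrix.one_mul]
    show gR a⁻¹ * (gR a⁻¹)ᵀ = 1
    rw [h1, Matrix.transpose_transpose]
    exact mul_eq_one_comm.1 ha

namespace KFin

variable {n : ℕ}

theorem isCompact_KA : IsCompact ((KA n : Subgroup (GA n)) : Set (GA n)) := by
  have hemb : IsClosedEmbedding (Subtype.val : GA n → Mat n Adele) :=
    (isClosed_symplectic (l := Fin n) (R := Adele)).isClosedEmbedding_subtypeVal
  set C : Set (Mat n Adele) := {M | M.map evR * (M.map evR)ᵀ = 1} ∩
    {M | ∀ i j, (M i j).2 ∈ OF} with hC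
  have hcR : Continuous fun M : Mat n Adele => M.map evR :=
    continuous_id.matrix_map continuous_fst
  have hCcl : IsClosed C := by
    refine IsClosed.inter ?_ ?_
    · exact isClosed_eq (hcR.matrix_mul hcR.matrix_transpose) continuous_const
    · have h1 : {M : Mat n Adele | ∀ i j, (M i j).2 ∈ OF} = ⋂ i, ⋂ j, {M | (M i j).2 ∈ OF} := by
        ext M
        simp
      rw [h1]
      refine isClosed_iInter fun i => isClosed_iInter fun j => ?_
      exact isCompact_OF.isClosed.preimage (continuous_snd.comp (continuous_id.matrix_elem i j))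
  have hCc : IsCompact C := by
    have h1 : IsCompact (Set.univ.pi fun _ : Fin n ⊕ Fin n =>
        Set.univ.pi fun _ : Fin n ⊕ Fin n => Metric.closedBall (0 : ℝ) 1 ×ˢ OF) :=
      isCompact_univ_pi fun _ => isCompact_univ_pi fun _ =>
        (isCompact_closedBall _ _).prod isCompact_OF
    refine h1.of_isClosed_subset hCcl fun (M : Mat n Adele) hM => ?_
    intro i _ j _
    refine ⟨?_, hM.2 i j⟩
    rw [mem_closedBall_zero_iff, Real.norm_eq_abs]
    have h2 : ∑ k, (M.map evR) i k * (M.map evR) i k = 1 := by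
      have := congrFun (congrFun hM.1 i) i
      rw [Matrix.mul_apply, Matrix.one_apply_eq] at this
      exact this
    have h3 : (M i j).1 * (M i j).1 ≤ 1 := by
      rw [← h2]
      exact Finset.single_le_sum (f := fun k => (M.map evR) i k * (M.map evR) i k)
        (fun k _ => mul_self_nonneg _) (Finset.mem_univ j)
    rw [abs_le]
    constructor <;> nlinarith
  have h4 : ((KA n : Subgroup (GA n)) : Set (GA n)) = Subtype.val ⁻¹' C := by
    ext g
    constructor
    · rintro ⟨h1, h2⟩
      exact ⟨h1, fun i j p => h2 p i j⟩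
    · rintro ⟨h1, h2⟩
      exact ⟨h1, fun p i j => h2 i j p⟩
  rw [h4]
  exact hemb.isCompact_preimage hCc

instance : CompactSpace (KA n) := isCompact_iff_compactSpace.1 isCompact_KA

instance : MeasurableSpace (KA n) := borel _
instance : BorelSpace (KA n) := ⟨rfl⟩

/-- real matrix entries -/
def eR (i j : Fin n ⊕ Fin n) : C(KA n, ℂ) :=
  ⟨fun k => ((gR (k : GA n) i j : ℝ) : ℂ), Complex.continuous_ofReal.comp
    ((continuous_gR.matrix_elem i j).comp continuous_subtype_val)⟩

theorem LF_eR (i j : Fin n ⊕ Fin n) : LF (eR i j) := by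
  refine ⟨Submodule.span ℂ (Set.range fun p : (Fin n ⊕ Fin n) × (Fin n ⊕ Fin n) => eR p.1 p.2),
    Submodule.fg_span (Set.finite_range _), Submodule.subset_span ⟨(i, j), rfl⟩, fun k u hu => ?_⟩
  induction hu using Submodule.span_induction with
  | mem x hx =>
    obtain ⟨⟨a, b⟩, rfl⟩ := hx
    have h1 : Lt k (eR a b) = ∑ l, ((gR (k : GA n)⁻¹ a l : ℝ) : ℂ) • eR l b := by
      ext x
      rw [ContinuousMap.sum_apply]
      show ((gR ((k⁻¹ * x : KA n) : GA n) a b : ℝ) : ℂ) = _
      have h2 : gR ((k⁻¹ * x : KA n) : GA n) = gR (k : GA n)⁻¹ * gR (x : GA n) := gR_mul _ _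
      rw [h2, Matrix.mul_apply]
      push_cast
      rfl
    rw [h1]
    exact Submodule.sum_mem _ fun l _ => Submodule.smul_mem _ _ (Submodule.subset_span ⟨(l, b), rfl⟩)
  | zero => rw [map_zero]; exact Submodule.zero_mem _
  | add x y _ _ h1 h2 => rw [map_add]; exact Submodule.add_mem _ h1 h2
  | smul c x _ h1 => rw [map_smul]; exact Submodule.smul_mem _ _ h1

/-- congruence subgroups at `p` -/
def UK (p : Nat.Primes) (r : ℝ) (hr : 0 < r) : Subgroup (KA n) where
  carrier := {k | ∀ i j, ‖(gp (k : GA n) p - 1) i j‖ ≤ r}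
  one_mem' := by
    intro i j
    have h1 : gp ((1 : KA n) : GA n) p = 1 := gp_one p
    rw [h1, sub_self]
    simpa using hr.le
  mul_mem' := by
    intro a b ha hb i j
    have h1 : gp ((a * b : KA n) : GA n) p - 1 =
        (gp (a : GA n) p - 1) * gp (b : GA n) p + (gp (b : GA n) p - 1) := by
      have : gp ((a * b : KA n) : GA n) p = gp (a : GA n) p * gp (b : GA n) p := gp_mul _ _ p
      rw [this, sub_mul, one_mul]
      abel
    rw [h1, Matrix.add_apply]
    refine (IsUltrametricDist.norm_add_le_max _ _).trans (max_le ?_ (hb i j))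
    rw [Matrix.mul_apply]
    refine IsUltrametricDist.norm_sum_le_of_forall_le_of_nonneg hr.le fun k _ => ?_
    rw [norm_mul]
    calc _ ≤ r * 1 := mul_le_mul (ha i k) (b.2.2 p k j) (norm_nonneg _) hr.le
      _ = r := mul_one r
  inv_mem' := by
    intro a ha i j
    have h1 : gp ((a⁻¹ : KA n) : GA n) p - 1 =
        -(gp (a : GA n)⁻¹ p * (gp (a : GA n) p - 1)) := by
      have : gp ((a⁻¹ : KA n) : GA n) p = gp (a : GA n)⁻¹ p := rfl
      rw [this, mul_sub, mul_one, gp_inv_mul]
      abel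
    rw [h1, Matrix.neg_apply, norm_neg, Matrix.mul_apply]
    refine IsUltrametricDist.norm_sum_le_of_forall_le_of_nonneg hr.le fun k _ => ?_
    rw [norm_mul]
    calc _ ≤ 1 * r := mul_le_mul (int_inv (a.2.2 p) i k) (ha k j) (norm_nonneg _) zero_le_one
      _ = r := one_mul r

theorem isOpen_UK (p : Nat.Primes) (r : ℝ) (hr : 0 < r) :
    IsOpen ((UK p r hr : Subgroup (KA n)) : Set (KA n)) := by
  have h1 : ((UK p r hr : Subgroup (KA n)) : Set (KA n)) =
      ⋂ i, ⋂ j, {k : KA n | (gp (k : GA n) p - 1) i j ∈ Metric.closedBall (0 : ℚ_[(p : ℕ)]) r} := by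
    ext k
    simp only [Set.mem_iInter, Set.mem_ofPred_eq, mem_closedBall_zero_iff]
    rfl
  rw [h1]
  refine isOpen_iInter_of_finite fun i => isOpen_iInter_of_finite fun j => ?_
  refine (IsUltrametricDist.isOpen_closedBall _ hr.ne').preimage ?_
  exact ((((continuous_gp p).comp continuous_subtype_val).sub continuous_const).matrix_elem i j)

/-- functions invariant under an open subgroup on the right are left finite -/
theorem LF_of_open {K : Type*} [Group K] [TopologicalSpace K] [IsTopologicalGroup K]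
    [CompactSpace K] (U : Subgroup K) (hU : IsOpen (U : Set K)) (w : C(K, ℂ))
    (hw : ∀ k, ∀ u ∈ U, w (k * u) = w k) : LF w := by
  set S : Submodule ℂ C(K, ℂ) :=
    { carrier := {w | ∀ k, ∀ u ∈ U, w (k * u) = w k}
      add_mem' := fun {a b} ha hb k u hu => by
        rw [ContinuousMap.add_apply, ContinuousMap.add_apply, ha k u hu, hb k u hu]
      zero_mem' := fun k u hu => rfl
      smul_mem' := fun c a ha k u hu => by
        rw [ContinuousMap.smul_apply, ContinuousMap.smul_apply, ha k u hu] } with hS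
  have hfin : Finite (K ⧸ U) := Subgroup.quotient_finite_of_isOpen U hU
  let Φ : S →ₗ[ℂ] (K ⧸ U → ℂ) :=
    { toFun := fun w q => (w : C(K, ℂ)) q.out
      map_add' := fun _ _ => rfl
      map_smul' := fun _ _ => rfl }
  have hinj : Function.Injective Φ := by
    intro a b hab
    apply Subtype.ext
    ext k
    obtain ⟨u, hu⟩ := QuotientGroup.mk_out_eq_mul U k
    have h1 := congrFun hab (QuotientGroup.mk k)
    have h2 : (a : C(K, ℂ)) (QuotientGroup.mk k : K ⧸ U).out =
        (b : C(K, ℂ)) (QuotientGroup.mk k : K ⧸ U).out := h1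
    rw [hu] at h2
    rw [a.2 k u u.2, b.2 k u u.2] at h2
    exact h2
  have hfd : FiniteDimensional ℂ S := FiniteDimensional.of_injective Φ hinj
  refine ⟨S, Module.Finite.iff_fg.1 hfd, hw, fun k u hu k' v hv => ?_⟩
  rw [Lt_apply, Lt_apply, ← mul_assoc]
  exact hu _ v hv

theorem sepPoints : (LFalg (K := KA n)).SeparatesPoints := by
  intro x y hxy
  by_cases hR : gR (x : GA n) = gR (y : GA n)
  · -- a finite place
    obtain ⟨p, hp⟩ : ∃ p, gp (x : GA n) p ≠ gp (y : GA n) p := by
      by_contra hcon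
      push Not at hcon
      apply hxy
      apply Subtype.ext
      apply Subtype.ext
      refine Matrix.ext fun i j => ?_
      refine Prod.ext (congrFun (congrFun hR i) j) ?_
      refine RestrictedProduct.ext _ _ fun p => ?_
      exact congrFun (congrFun (hcon p) i) j
    have h1 : gp ((x⁻¹ * y : KA n) : GA n) p - 1 ≠ 0 := by
      intro h0
      apply hp
      have h2 : gp ((x⁻¹ * y : KA n) : GA n) p = gp (x : GA n)⁻¹ p * gp (y : GA n) p :=
        gp_mul _ _ p
      rw [h2] at h0
      have h3 := sub_eq_zero.1 h0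
      calc gp (x : GA n) p = gp (x : GA n) p * (gp (x : GA n)⁻¹ p * gp (y : GA n) p) := by
            rw [h3, Matrix.mul_one]
        _ = gp (y : GA n) p := by rw [← Matrix.mul_assoc, gp_mul_inv, Matrix.one_mul]
    obtain ⟨i, j, hij⟩ : ∃ i j, (gp ((x⁻¹ * y : KA n) : GA n) p - 1) i j ≠ 0 := by
      by_contra hcon
      push Not at hcon
      exact h1 (by ext i j; exact hcon i j)
    set r : ℝ := ‖(gp ((x⁻¹ * y : KA n) : GA n) p - 1) i j‖ / 2 with hr
    have hr0 : 0 < r := half_pos (norm_pos_iff.2 hij)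
    have hnot : x⁻¹ * y ∉ UK p r hr0 := by
      intro hmem
      have h2 := hmem i j
      have h3 : ‖(gp ((x⁻¹ * y : KA n) : GA n) p - 1) i j‖ ≤ r := h2
      have h4 : 0 < ‖(gp ((x⁻¹ * y : KA n) : GA n) p - 1) i j‖ := norm_pos_iff.2 hij
      rw [hr] at h3
      linarith
    set U : Subgroup (KA n) := UK p r hr0 with hU
    have hUo : IsOpen (U : Set (KA n)) := isOpen_UK p r hr0
    have hclopen : IsClopen {k : KA n | x⁻¹ * k ∈ U} := by
      have hc : Continuous fun k : KA n => x⁻¹ * k := continuous_const.mul continuous_id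
      exact ⟨(Subgroup.isClosed_of_isOpen U hUo).preimage hc, hUo.preimage hc⟩
    classical
    let w : C(KA n, ℂ) := ⟨Set.indicator {k : KA n | x⁻¹ * k ∈ U} (fun _ => (1 : ℂ)),
      hclopen.continuous_indicator continuous_const⟩
    refine ⟨w, ⟨w, ?_, rfl⟩, ?_⟩
    · refine LF_of_open U hUo w fun k u hu => ?_
      show Set.indicator {k : KA n | x⁻¹ * k ∈ U} (fun _ => (1 : ℂ)) (k * u) =
        Set.indicator {k : KA n | x⁻¹ * k ∈ U} (fun _ => (1 : ℂ)) k
      have h2 : (k * u ∈ {k : KA n | x⁻¹ * k ∈ U}) ↔ (k ∈ {k : KA n | x⁻¹ * k ∈ U}) := by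
        simp only [Set.mem_ofPred_eq]
        rw [← mul_assoc]
        exact Subgroup.mul_mem_cancel_right U hu
      simp only [Set.indicator_apply, h2]
    · have hx1 : w x = 1 := by
        show Set.indicator {k : KA n | x⁻¹ * k ∈ U} (fun _ => (1 : ℂ)) x = 1
        rw [Set.indicator_of_mem]
        show x⁻¹ * x ∈ U
        rw [inv_mul_cancel]
        exact U.one_mem
      have hy0 : w y = 0 := by
        show Set.indicator {k : KA n | x⁻¹ * k ∈ U} (fun _ => (1 : ℂ)) y = 0
        rw [Set.indicator_of_notMem]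
        exact hnot
      rw [hx1, hy0]
      exact one_ne_zero
  · obtain ⟨i, j, hij⟩ : ∃ i j, gR (x : GA n) i j ≠ gR (y : GA n) i j := by
      by_contra hcon
      push Not at hcon
      exact hR (by ext i j; exact hcon i j)
    refine ⟨eR i j, ⟨eR i j, LF_eR i j, rfl⟩, ?_⟩
    show ((gR (x : GA n) i j : ℝ) : ℂ) ≠ ((gR (y : GA n) i j : ℝ) : ℂ)
    intro h
    exact hij (Complex.ofReal_injective h)

instance : SecondCountableTopology (KA n) := TopologicalSpace.Subtype.secondCountableTopology _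

/-- **`K`-finite vectors have the nonzero coefficients of continuous vectors.** -/
theorem exists_kfinite {μ : Measure (AutQuot n)} (hμ : IsInvariantRadon μ)
    {H : Submodule ℂ (Lp ℂ 2 μ)} (hcl : IsClosed (H : Set (Lp ℂ 2 μ))) (hinv : IsInvariant μ H)
    {ψ : AddChar Adele Circle} (hψ : Continuous ψ) (hψq : ∀ q : ℚ, ψ (ratAdele q) = 1)
    (T : Triple n) (ρ : Measure (T.VA ⧸ T.VQ)) (hρ : IsFiniteMeasure ρ) {F : AutQuot n → ℂ}
    (hF : InSpace μ H F) (g : GA n) (h : T.coeff ψ ρ F g ≠ 0) :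
    ∃ F' : AutQuot n → ℂ, InSpace μ H F' ∧ KFinite (KA n) F' ∧ T.coeff ψ ρ F' g ≠ 0 := by
  have hi1 : SMulInvariantMeasure (GA n) (AutQuot n) μ := hμ.invariant
  have hi2 : IsFiniteMeasureOnCompacts μ := hμ.finite_on_compacts
  have hi3 : T2Space (AutQuot n) := Quo.t2X (GQ n)
  have hi4 : LocallyCompactSpace (AutQuot n) := inferInstance
  have hi5 : SecondCountableTopology (AutQuot n) := inferInstance
  have hi6 : IsLocallyFiniteMeasure μ := inferInstance
  have hi7 : SigmaFinite μ := inferInstance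
  have hi8 : μ.InnerRegularCompactLTTop := inferInstance
  set κ : T.VA ⧸ T.VQ → AutQuot n := fun x => QuotientGroup.mk (x.out : GA n) with hκdef
  set θ : T.VA ⧸ T.VQ → ℂ := fun x => T.char ψ (x.out : GA n) with hθdef
  have hκ : Continuous κ := by
    refine Abs.continuous_out (V := T.VA) (Γ := GQ n)
      (fun v => (QuotientGroup.mk v : AutQuot n)) ?_ ?_
    · exact QuotientGroup.continuous_mk.comp continuous_subtype_val
    · intro v _ γ _ hγ
      exact QuotientGroup.mk_mul_of_mem v hγ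
  have hθ : Continuous θ := by
    refine Abs.continuous_out (V := T.VA) (Γ := GQ n) (fun v => T.char ψ v) ?_ ?_
    · exact (T.continuous_char hψ).comp continuous_subtype_val
    · intro v hv γ hγ hγ'
      exact T.char_mul_GQ hψq hv hγ hγ'
  have hcf : ∀ F : AutQuot n → ℂ, T.coeff ψ ρ F g = Van.cf ρ κ θ F g := by
    intro F
    unfold Triple.coeff Van.cf autFun
    refine integral_congr_ae (Filter.Eventually.of_forall fun x => ?_)
    show F (QuotientGroup.mk (((x.out : T.VA) : GA n)⁻¹ * g)⁻¹) * T.char ψ (x.out : GA n) =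
      F (g⁻¹ • (QuotientGroup.mk (x.out : GA n) : AutQuot n)) * T.char ψ (x.out : GA n)
    rw [_root_.mul_inv_rev, inv_inv]
    rfl
  rw [hcf] at h
  have hcp : CompactSpace (T.VA ⧸ T.VQ) := inferInstance
  have hcs : ContinuousSMul (KA n) (AutQuot n) :=
    ⟨(continuous_subtype_val.comp continuous_fst).smul continuous_snd⟩
  have hsm : SMulInvariantMeasure (KA n) (AutQuot n) μ :=
    ⟨fun k _ hs => hi1.measure_preimage_smul (k : GA n) hs⟩
  set m : Measure (KA n) := Measure.haar with hm
  obtain ⟨w, hw, hwn⟩ := exists_weight (KA n) m ρ sepPoints hκ hθ hF.1 g h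
  obtain ⟨hm1, hm2⟩ := hF.2
  have hrho : ∀ k : KA n, ∀ f ∈ H, Conv.rho μ k f ∈ H := by
    intro k f hf
    exact hinv (k : GA n) f (Conv.rho μ k f) hf (Conv.rho_ae μ k f)
  refine ⟨avg m w F, ⟨avg_continuous m w hF.1, avg_mem m μ w hF.1 hm1 H hcl hrho hm2⟩,
    avg_finite m hw hF.1, ?_⟩
  rw [hcf]
  exact hwn

end KFin

end Pool.Agent.FC
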