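import Mathlib
import Pool.Agent.FC.ConvA
import Pool.Agent.FC.ConvB
import Pool.Agent.FC.VanA

/-!
# FC: finite vectors for a compact group (abstract form)

If a continuous function `F` has a nonzero coefficient then so has a continuous function of the
form `x ↦ ∫_K w(k) F(k⁻¹ x) dk` with `w` left finite, which is `K`-finite.
-/

open MeasureTheory Set Topology Filter

set_option linter.unusedSectionVars false

namespace Pool.Agent.FC.KFin

section alg

variable {K : Type*} [Group K] [TopologicalSpace K] [IsTopologicalGroup K]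

/-- left translation by `k` -/
noncomputable def Lt (k : K) : C(K, ℂ) →⋆ₐ[ℂ] C(K, ℂ) :=
  ContinuousMap.compStarAlgHom' ℂ ℂ ⟨fun x => k⁻¹ * x, continuous_const.mul continuous_id⟩

theorem Lt_apply (k : K) (w : C(K, ℂ)) (x : K) : Lt k w x = w (k⁻¹ * x) := rfl

/-- left finite functions -/
def LF (w : C(K, ℂ)) : Prop :=
  ∃ S : Submodule ℂ C(K, ℂ), S.FG ∧ w ∈ S ∧ ∀ k : K, ∀ u ∈ S, Lt k u ∈ S

/-- the algebra of left finite functions -/
noncomputable def LFalg : StarSubalgebra ℂ C(K, ℂ) where
  carrier := {w | LF w}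
  mul_mem' := by
    rintro a b ⟨S, hS, ha, hSt⟩ ⟨T, hT, hb, hTt⟩
    refine ⟨S * T, hS.mul hT, Submodule.mul_mem_mul ha hb, fun k u hu => ?_⟩
    induction hu using Submodule.mul_induction_on' with
    | mem_mul_mem x hx y hy =>
      rw [map_mul]
      exact Submodule.mul_mem_mul (hSt k x hx) (hTt k y hy)
    | add x _ y _ h1 h2 =>
      rw [map_add]
      exact Submodule.add_mem _ h1 h2
  one_mem' := by
    refine ⟨Submodule.span ℂ {1}, Submodule.fg_span_singleton _,
      Submodule.mem_span_singleton_self _, fun k u hu => ?_⟩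
    obtain ⟨c, rfl⟩ := Submodule.mem_span_singleton.1 hu
    rw [map_smul, map_one]
    exact hu
  add_mem' := by
    rintro a b ⟨S, hS, ha, hSt⟩ ⟨T, hT, hb, hTt⟩
    refine ⟨S ⊔ T, hS.sup hT, Submodule.add_mem_sup ha hb, fun k u hu => ?_⟩
    obtain ⟨x, hx, y, hy, rfl⟩ := Submodule.mem_sup.1 hu
    rw [map_add]
    exact Submodule.add_mem_sup (hSt k x hx) (hTt k y hy)
  zero_mem' := ⟨⊥, Submodule.fg_bot, Submodule.zero_mem _, fun k u hu => by
    rw [(Submodule.mem_bot ℂ).1 hu, map_zero]
    exact Submodule.zero_mem _⟩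
  algebraMap_mem' := by
    intro c
    refine ⟨Submodule.span ℂ {1}, Submodule.fg_span_singleton _, ?_, fun k u hu => ?_⟩
    · rw [Algebra.algebraMap_eq_smul_one]
      exact Submodule.smul_mem _ _ (Submodule.mem_span_singleton_self _)
    · obtain ⟨c, rfl⟩ := Submodule.mem_span_singleton.1 hu
      rw [map_smul, map_one]
      exact hu
  star_mem' := by
    rintro a ⟨S, hS, ha, hSt⟩
    refine ⟨S.map (starLinearEquiv ℂ (A := C(K, ℂ)) : C(K, ℂ) →ₛₗ[starRingEnd ℂ] C(K, ℂ)),
      hS.map _, ⟨a, ha, rfl⟩, fun k u hu => ?_⟩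
    obtain ⟨x, hx, rfl⟩ := hu
    refine ⟨Lt k x, hSt k x hx, ?_⟩
    exact map_star (Lt k) x

end alg

/-- `K`-finite functions -/
def KFinite (K : Type*) {X : Type*} [Group K] [MulAction K X] (F : X → ℂ) : Prop :=
  FiniteDimensional ℂ (Submodule.span ℂ (Set.range fun k : K => fun x : X => F (k⁻¹ • x)))

section avg

variable {K X : Type*} [Group K] [TopologicalSpace K] [IsTopologicalGroup K] [CompactSpace K]
  [MeasurableSpace K] [BorelSpace K] (m : Measure K) [IsFiniteMeasure m]
  [TopologicalSpace X] [MulAction K X] [ContinuousSMul K X]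

/-- averages over the compact group -/
noncomputable def avg (w : C(K, ℂ)) (F : X → ℂ) (x : X) : ℂ := ∫ k, w k * F (k⁻¹ • x) ∂m

theorem integrable_cont {E : Type*} [NormedAddCommGroup E] {φ : K → E} (h : Continuous φ) :
    Integrable φ m :=
  h.integrable_of_hasCompactSupport (HasCompactSupport.of_compactSpace _)

theorem continuous_fib (w : C(K, ℂ)) {F : X → ℂ} (hF : Continuous F) (x : X) :
    Continuous fun k : K => w k * F (k⁻¹ • x) :=
  w.continuous.mul (hF.comp (continuous_inv.smul continuous_const))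

theorem avg_continuous [LocallyCompactSpace X] [FirstCountableTopology X] (w : C(K, ℂ))
    {F : X → ℂ} (hF : Continuous F) : Continuous (avg m w F) := by
  have h := continuous_parametric_integral_of_continuous (μ := m)
    (f := fun (x : X) (k : K) => w k * F (k⁻¹ • x))
    (by
      have h1 : Continuous (fun p : X × K => w p.2 * F (p.2⁻¹ • p.1)) :=
        (w.continuous.comp continuous_snd).mul (hF.comp (continuous_snd.inv.smul continuous_fst))
      exact h1) (s := Set.univ) isCompact_univ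
  simp only [Measure.restrict_univ] at h
  exact h

theorem avg_add (w w' : C(K, ℂ)) {F : X → ℂ} (hF : Continuous F) :
    avg m (w + w') F = avg m w F + avg m w' F := by
  ext x
  unfold avg
  rw [Pi.add_apply, ← integral_add (integrable_cont m (continuous_fib w hF x))
    (integrable_cont m (continuous_fib w' hF x))]
  congr 1
  ext k
  rw [ContinuousMap.add_apply, add_mul]

theorem avg_smul (c : ℂ) (w : C(K, ℂ)) (F : X → ℂ) :
    avg m (c • w) F = c • avg m w F := by
  ext x
  unfold avg
  rw [Pi.smul_apply, smul_eq_mul, ← integral_const_mul]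
  congr 1
  ext k
  rw [ContinuousMap.smul_apply, smul_eq_mul, mul_assoc]

/-- averaging as a linear map -/
noncomputable def avgL {F : X → ℂ} (hF : Continuous F) : C(K, ℂ) →ₗ[ℂ] (X → ℂ) where
  toFun w := avg m w F
  map_add' w w' := avg_add m w w' hF
  map_smul' c w := avg_smul m c w F

theorem avg_translate [m.IsMulLeftInvariant] (w : C(K, ℂ)) (F : X → ℂ) (k₀ : K) (x : X) :
    avg m w F (k₀⁻¹ • x) = avg m (Lt k₀ w) F x := by
  unfold avg
  rw [← integral_mul_left_eq_self (μ := m) (fun k => Lt k₀ w k * F (k⁻¹ • x)) k₀]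
  congr 1
  ext k
  rw [Lt_apply, inv_mul_cancel_left, mul_inv_rev, mul_smul]

theorem avg_finite [m.IsMulLeftInvariant] {w : C(K, ℂ)} (hw : LF w) {F : X → ℂ}
    (hF : Continuous F) : KFinite K (avg m w F) := by
  obtain ⟨S, hS, hwS, hSt⟩ := hw
  have hfd : FiniteDimensional ℂ (S.map (avgL m hF)) :=
    Module.Finite.iff_fg.2 (hS.map _)
  refine Submodule.finiteDimensional_of_le (S₂ := S.map (avgL m hF)) ?_
  rw [Submodule.span_le]
  rintro _ ⟨k, rfl⟩
  refine ⟨Lt k w, hSt k w hwS, ?_⟩
  ext x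
  exact (avg_translate m w F k x).symm

section Ltwo

variable [SecondCountableTopology K] [R1Space X] [SecondCountableTopology X] [MeasurableSpace X]
  [BorelSpace X] (ν : Measure X) [SMulInvariantMeasure K X ν] [IsLocallyFiniteMeasure ν]
  [ν.InnerRegularCompactLTTop] [SigmaFinite ν]

theorem avg_ae (w : C(K, ℂ)) {F : X → ℂ} (hF : Continuous F) (hm : MemLp F 2 ν) :
    Conv.Rop m ν w.continuous (HasCompactSupport.of_compactSpace _) (hm.toLp F) =ᵐ[ν]
      avg m w F := by
  refine (Conv.Rop_ae m ν w.continuous (HasCompactSupport.of_compactSpace _) (hm.toLp F)).trans ?_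
  -- the exceptional set
  set f : Lp ℂ 2 ν := hm.toLp F with hf
  have hms : MeasurableSet {x : X | f x ≠ F x} :=
    (measurableSet_eq_fun (Lp.stronglyMeasurable f).measurable hF.measurable).compl
  have hnull : ν {x : X | f x ≠ F x} = 0 := by
    have := hm.coeFn_toLp
    exact this
  have hact : Measurable (fun p : X × K => p.2⁻¹ • p.1) := Conv.measurable_act
  have hms2 : MeasurableSet {p : X × K | f (p.2⁻¹ • p.1) ≠ F (p.2⁻¹ • p.1)} := hact hms
  have hprod : (ν.prod m) {p : X × K | f (p.2⁻¹ • p.1) ≠ F (p.2⁻¹ • p.1)} = 0 := by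
    rw [Measure.prod_apply_symm hms2]
    refine lintegral_eq_zero_of_ae_eq_zero (Eventually.of_forall fun k => ?_)
    have h1 : (fun x : X => (x, k)) ⁻¹' {p : X × K | f (p.2⁻¹ • p.1) ≠ F (p.2⁻¹ • p.1)} =
        (fun x : X => k⁻¹ • x) ⁻¹' {x : X | f x ≠ F x} := rfl
    show ν _ = 0
    rw [h1, (measurePreserving_smul k⁻¹ ν).measure_preimage hms.nullMeasurableSet, hnull]
  have hae := Measure.ae_ae_of_ae_prod (μ := ν) (ν := m)
    (p := fun p : X × K => f (p.2⁻¹ • p.1) = F (p.2⁻¹ • p.1)) hprod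
  filter_upwards [hae] with x hx
  unfold avg
  refine integral_congr_ae ?_
  filter_upwards [hx] with k hk
  rw [hk]

/-- the average of a continuous function of a closed invariant subspace lies in it -/
theorem avg_mem (w : C(K, ℂ)) {F : X → ℂ} (hF : Continuous F) (hm : MemLp F 2 ν)
    (W : Submodule ℂ (Lp ℂ 2 ν)) (hW : IsClosed (W : Set (Lp ℂ 2 ν)))
    (hinv : ∀ g : K, ∀ f ∈ W, Conv.rho ν g f ∈ W) (hFW : hm.toLp F ∈ W) :
    ∃ hm' : MemLp (avg m w F) 2 ν, hm'.toLp (avg m w F) ∈ W := by
  have hae := avg_ae m ν w hF hm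
  have hm' : MemLp (avg m w F) 2 ν := (memLp_congr_ae hae).1 (Lp.memLp _)
  refine ⟨hm', ?_⟩
  have h1 : hm'.toLp (avg m w F) =
      Conv.Rop m ν w.continuous (HasCompactSupport.of_compactSpace _) (hm.toLp F) := by
    refine Lp.ext ?_
    exact hm'.coeFn_toLp.trans hae.symm
  rw [h1]
  exact Conv.Rop_mem m ν _ _ W hW hinv _ hFW

end Ltwo

end avg

section coef

variable {G X Z : Type*} [Group G] [TopologicalSpace G] [IsTopologicalGroup G]
  [LocallyCompactSpace G] [SecondCountableTopology G]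
  [TopologicalSpace X] [MulAction G X] [ContinuousSMul G X]
  [TopologicalSpace Z] [CompactSpace Z] [MeasurableSpace Z] [BorelSpace Z]
  (K : Subgroup G) [CompactSpace K] [MeasurableSpace K] [BorelSpace K]
  (m : Measure K) [IsFiniteMeasure m]
  (ρ : Measure Z) [IsFiniteMeasure ρ] {κ : Z → X} {θ : Z → ℂ}

/-- the coefficient of an average -/
theorem cf_avg (hκ : Continuous κ) (hθ : Continuous θ) (w : C(K, ℂ)) {F : X → ℂ}
    (hF : Continuous F) (g : G) :
    Van.cf ρ κ θ (avg m w F) g = ∫ k : K, w k * Van.cf ρ κ θ F (g * k) ∂m := by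
  have hsc : SecondCountableTopology K := TopologicalSpace.Subtype.secondCountableTopology _
  unfold Van.cf avg
  have hcont : Continuous fun p : Z × K =>
      F ((g * (p.2 : G))⁻¹ • κ p.1) * θ p.1 :=
    (hF.comp (((continuous_const.mul (continuous_subtype_val.comp continuous_snd)).inv).smul
      (hκ.comp continuous_fst))).mul (hθ.comp continuous_fst)
  have hint : Integrable (fun p : Z × K => w p.2 * (F ((g * (p.2 : G))⁻¹ • κ p.1) * θ p.1))
      (ρ.prod m) :=
    Van.integrable_aux (G := K) m ρ hcont w.continuous (HasCompactSupport.of_compactSpace _)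
  calc ∫ z, (∫ k : K, w k * F (k⁻¹ • g⁻¹ • κ z) ∂m) * θ z ∂ρ =
      ∫ z, ∫ k : K, w k * (F ((g * (k : G))⁻¹ • κ z) * θ z) ∂m ∂ρ := by
        refine integral_congr_ae (Eventually.of_forall fun z => ?_)
        show (∫ k : K, w k * F (k⁻¹ • g⁻¹ • κ z) ∂m) * θ z = _
        rw [← integral_mul_const]
        refine integral_congr_ae (Eventually.of_forall fun k => ?_)
        show w k * F (k⁻¹ • g⁻¹ • κ z) * θ z = w k * (F ((g * (k : G))⁻¹ • κ z) * θ z)
        have h1 : k⁻¹ • g⁻¹ • κ z = (g * (k : G))⁻¹ • κ z := by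
          rw [mul_inv_rev, mul_smul]
          rfl
        rw [h1, mul_assoc]
    _ = ∫ k : K, ∫ z, w k * (F ((g * (k : G))⁻¹ • κ z) * θ z) ∂ρ ∂m :=
        integral_integral_swap hint
    _ = _ := by
        refine integral_congr_ae (Eventually.of_forall fun k => ?_)
        exact integral_const_mul _ _

/-- nonvanishing for a left finite weight -/
theorem exists_weight [m.IsOpenPosMeasure] (hsep : (LFalg (K := K)).SeparatesPoints)
    (hκ : Continuous κ) (hθ : Continuous θ) {F : X → ℂ} (hF : Continuous F) (g : G)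
    (hg : Van.cf ρ κ θ F g ≠ 0) :
    ∃ w : C(K, ℂ), LF w ∧ Van.cf ρ κ θ (avg m w F) g ≠ 0 := by
  by_contra hcon
  push Not at hcon
  have hc : Continuous fun k : K => Van.cf ρ κ θ F (g * k) :=
    (Van.continuous_cf ρ hκ hθ hF).comp (continuous_const.mul continuous_subtype_val)
  set c : C(K, ℂ) := ⟨fun k : K => Van.cf ρ κ θ F (g * k), hc⟩ with hcdef
  have hwc : ∀ w : C(K, ℂ), Integrable (fun k : K => w k * c k) m := fun w =>
    integrable_cont m (w.continuous.mul c.continuous)
  have hcn : Integrable (fun k : K => ‖c k‖) m := integrable_cont m c.continuous.norm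
  -- the functional `w ↦ ∫ w c`
  let L : C(K, ℂ) →ₗ[ℂ] ℂ :=
    { toFun := fun w => ∫ k : K, w k * c k ∂m
      map_add' := fun w w' => by
        rw [← integral_add (hwc w) (hwc w')]
        congr 1
        ext k
        rw [ContinuousMap.add_apply, add_mul]
      map_smul' := fun a w => by
        rw [RingHom.id_apply, smul_eq_mul, ← integral_const_mul]
        congr 1
        ext k
        rw [ContinuousMap.smul_apply, smul_eq_mul, mul_assoc] }
  have hLb : ∀ w, ‖L w‖ ≤ (∫ k : K, ‖c k‖ ∂m) * ‖w‖ := by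
    intro w
    refine (norm_integral_le_integral_norm _).trans ?_
    rw [← integral_mul_const]
    refine integral_mono (hwc w).norm (hcn.mul_const _) fun k => ?_
    show ‖w k * c k‖ ≤ ‖c k‖ * ‖w‖
    rw [norm_mul, mul_comm]
    exact mul_le_mul_of_nonneg_left (w.norm_coe_le_norm k) (norm_nonneg _)
  have hLc : Continuous L := (L.mkContinuous _ hLb).continuous
  have hL0 : ∀ w : C(K, ℂ), LF w → L w = 0 := by
    intro w hw
    have h1 := hcon w hw
    rw [cf_avg K m ρ hκ hθ w hF g] at h1
    exact h1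
  have htop := ContinuousMap.starSubalgebra_topologicalClosure_eq_top_of_separatesPoints
    (LFalg (K := K)) hsep
  have hall : ∀ w : C(K, ℂ), L w = 0 := by
    intro w
    have h1 : w ∈ (LFalg (K := K)).topologicalClosure := by
      rw [htop]
      exact StarSubalgebra.mem_top
    have h2 : w ∈ closure ((LFalg (K := K) : StarSubalgebra ℂ C(K, ℂ)) : Set C(K, ℂ)) := h1
    have h3 : closure ((LFalg (K := K) : StarSubalgebra ℂ C(K, ℂ)) : Set C(K, ℂ)) ⊆
        {w | L w = 0} :=
      closure_minimal (fun w hw => hL0 w hw) (isClosed_eq hLc continuous_const)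
    exact h3 h2
  have h4 := hall (star c)
  have h5 : ∫ k : K, ‖c k‖ ^ 2 ∂m = 0 := by
    have h6 : L (star c) = ((∫ k : K, ‖c k‖ ^ 2 ∂m : ℝ) : ℂ) := by
      show ∫ k : K, (star c) k * c k ∂m = _
      have h11 : ((∫ k : K, ‖c k‖ ^ 2 ∂m : ℝ) : ℂ) = ∫ k : K, ((‖c k‖ ^ 2 : ℝ) : ℂ) ∂m :=
        (integral_ofReal (𝕜 := ℂ) (μ := m) (f := fun k : K => ‖c k‖ ^ 2)).symm
      rw [h11]
      refine integral_congr_ae (Eventually.of_forall fun k => ?_)
      show starRingEnd ℂ (c k) * c k = ((‖c k‖ ^ 2 : ℝ) : ℂ)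
      rw [Complex.conj_mul']
      push_cast
      rfl
    rw [h6] at h4
    exact_mod_cast h4
  have h7 : (fun k : K => ‖c k‖ ^ 2) = 0 := by
    have hcn2 : Continuous fun k : K => ‖c k‖ ^ 2 := c.continuous.norm.pow 2
    rw [integral_eq_zero_iff_of_nonneg (fun k => sq_nonneg _) (integrable_cont m hcn2)] at h5
    exact (hcn2.ae_eq_iff_eq m continuous_const).1 h5
  have h8 := congrFun h7 1
  apply hg
  have h9 : c (1 : K) = 0 := by
    simpa using h8
  have h10 : c (1 : K) = Van.cf ρ κ θ F (g * ((1 : K) : G)) := rfl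
  rw [h10] at h9
  simpa using h9

end coef

end Pool.Agent.FC.KFin
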