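import Pool.Agent.FC.Abs

/-!
# FC: unfolding over a discrete subgroup, the explicit form of the kernel vectors
-/

open MeasureTheory Set Topology Filter
open scoped ENNReal Pointwise

set_option linter.unusedSectionVars false

namespace Pool.Agent.FC.Abs

variable {G : Type*} [Group G] [TopologicalSpace G] [IsTopologicalGroup G]
  [SecondCountableTopology G] [T2Space G] [LocallyCompactSpace G]
  [MeasurableSpace G] [BorelSpace G] {Γ : Subgroup G} [DiscreteTopology Γ] [Countable Γ]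
  [MeasurableSpace (G ⧸ Γ)] [BorelSpace (G ⧸ Γ)]
  {μ : Measure G} [μ.IsHaarMeasure] [μ.IsMulRightInvariant] [μ.IsInvInvariant]
  {ν : Measure (G ⧸ Γ)} [IsFiniteMeasureOnCompacts ν]

/-- The unfolding property of the quotient measure. -/
def Unfolds (μ : Measure G) (ν : Measure (G ⧸ Γ)) : Prop :=
  ∀ F : G → ℝ≥0∞, Measurable F →
    ∫⁻ g, F g ∂μ = ∫⁻ x : G ⧸ Γ, ∑' γ : Γ, F (x.out * γ) ∂ν

namespace KK

omit [TopologicalSpace G] [IsTopologicalGroup G] [SecondCountableTopology G] [T2Space G]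
  [LocallyCompactSpace G] [MeasurableSpace G] [BorelSpace G] [DiscreteTopology Γ]
  [Countable Γ] [MeasurableSpace (G ⧸ Γ)] [BorelSpace (G ⧸ Γ)] in
/-- sums over `Γ` do not depend on the representative -/
theorem tsum_out {E : Type*} [AddCommMonoid E] [TopologicalSpace E] (Φ : G → E) (z : G) :
    ∑' γ : Γ, Φ ((QuotientGroup.mk z : G ⧸ Γ).out * γ) = ∑' γ : Γ, Φ (z * γ) := by
  obtain ⟨δ, hδ⟩ := QuotientGroup.mk_out_eq_mul Γ z
  rw [hδ, ← (Equiv.mulLeft δ).tsum_eq fun γ : Γ => Φ (z * γ)]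
  simp [mul_assoc]

omit [TopologicalSpace G] [IsTopologicalGroup G] [SecondCountableTopology G] [T2Space G]
  [LocallyCompactSpace G] [MeasurableSpace G] [BorelSpace G] [DiscreteTopology Γ]
  [Countable Γ] [MeasurableSpace (G ⧸ Γ)] [BorelSpace (G ⧸ Γ)] in
theorem tsum_inv {E : Type*} [AddCommMonoid E] [TopologicalSpace E] (Φ : G → E) (z b : G) :
    ∑' γ : Γ, Φ (b * (z * γ)⁻¹) = ∑' γ : Γ, Φ (b * γ * z⁻¹) := by
  rw [← (Equiv.inv Γ).tsum_eq fun γ : Γ => Φ (b * γ * z⁻¹)]
  simp [mul_assoc]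

omit [SecondCountableTopology G] [LocallyCompactSpace G] [MeasurableSpace G] [BorelSpace G]
  [Countable Γ] [MeasurableSpace (G ⧸ Γ)] [BorelSpace (G ⧸ Γ)] in
/-- only finitely many elements of `Γ` lie in a compact set -/
theorem finite_mem {C : Set G} (hC : IsCompact C) : {γ : Γ | (γ : G) ∈ C}.Finite := by
  have h := Subgroup.tendsto_coe_cofinite_of_discrete Γ
    (isDiscrete_iff_discreteTopology.mpr inferInstance)
  have h2 := h.eventually (hC.compl_mem_cocompact)
  rw [Filter.eventually_cofinite] at h2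
  simpa using h2

omit [SecondCountableTopology G] [MeasurableSpace G] [BorelSpace G]
  [Countable Γ] [MeasurableSpace (G ⧸ Γ)] [BorelSpace (G ⧸ Γ)] in
theorem locallyFinite {E : Type*} [Zero E] {Φ : G → E} (hs : HasCompactSupport Φ) :
    LocallyFinite fun γ : Γ => Function.support fun z : G => Φ (z * γ) := by
  intro z₀
  obtain ⟨K, hK, hz⟩ := exists_compact_mem_nhds z₀
  refine ⟨K, hz, ?_⟩
  have hC : IsCompact (K⁻¹ * tsupport Φ) := hK.inv.mul hs
  refine (finite_mem (Γ := Γ) hC).subset ?_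
  rintro γ ⟨z, hz1, hz2⟩
  refine Set.mem_mul.2 ⟨z⁻¹, by simpa using hz2, z * γ, subset_tsupport _ hz1, by simp⟩

omit [SecondCountableTopology G] [MeasurableSpace G] [BorelSpace G]
  [Countable Γ] [MeasurableSpace (G ⧸ Γ)] [BorelSpace (G ⧸ Γ)] in
theorem finite_support {E : Type*} [Zero E] {Φ : G → E} (hs : HasCompactSupport Φ) (z : G) :
    (Function.support fun γ : Γ => Φ (z * γ)).Finite := by
  have := (locallyFinite (Γ := Γ) hs).point_finite z
  simpa [Function.support] using this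

omit [SecondCountableTopology G] [MeasurableSpace G] [BorelSpace G]
  [Countable Γ] [MeasurableSpace (G ⧸ Γ)] [BorelSpace (G ⧸ Γ)] in
theorem summable {E : Type*} [AddCommMonoid E] [TopologicalSpace E] {Φ : G → E}
    (hs : HasCompactSupport Φ) (z : G) : Summable fun γ : Γ => Φ (z * γ) :=
  summable_of_hasFiniteSupport (finite_support hs z)

omit [SecondCountableTopology G] [MeasurableSpace G] [BorelSpace G]
  [Countable Γ] [MeasurableSpace (G ⧸ Γ)] [BorelSpace (G ⧸ Γ)] in
theorem continuous_tsum {E : Type*} [AddCommMonoid E] [TopologicalSpace E] [ContinuousAdd E]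
    {Φ : G → E} (hc : Continuous Φ) (hs : HasCompactSupport Φ) :
    Continuous fun z : G => ∑' γ : Γ, Φ (z * γ) := by
  have h : ∀ z : G, ∑' γ : Γ, Φ (z * γ) = ∑ᶠ γ : Γ, Φ (z * γ) := fun z =>
    tsum_eq_finsum (finite_support hs z)
  simp_rw [h]
  exact continuous_finsum (fun γ => hc.comp (continuous_mul_const _)) (locallyFinite hs)

/-- the sum over `Γ`, as a function on `G/Γ` -/
noncomputable def P {E : Type*} [AddCommMonoid E] [TopologicalSpace E] (Φ : G → E)
    (x : G ⧸ Γ) : E := ∑' γ : Γ, Φ (x.out * γ)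

omit [SecondCountableTopology G] [MeasurableSpace G] [BorelSpace G]
  [Countable Γ] [MeasurableSpace (G ⧸ Γ)] [BorelSpace (G ⧸ Γ)] in
theorem continuous_P {E : Type*} [AddCommMonoid E] [TopologicalSpace E] [ContinuousAdd E]
    {Φ : G → E} (hc : Continuous Φ) (hs : HasCompactSupport Φ) :
    Continuous (P Φ : G ⧸ Γ → E) := by
  refine (QuotientGroup.isQuotientMap_mk Γ).continuous_iff.2 ?_
  have : (P Φ : G ⧸ Γ → E) ∘ (QuotientGroup.mk : G → G ⧸ Γ) =
      fun z : G => ∑' γ : Γ, Φ (z * γ) := by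
    ext z
    exact tsum_out Φ z
  rw [this]
  exact continuous_tsum hc hs

omit [SecondCountableTopology G] [MeasurableSpace G] [BorelSpace G]
  [Countable Γ] [MeasurableSpace (G ⧸ Γ)] [BorelSpace (G ⧸ Γ)] in
theorem P_add {Φ Ψ : G → ℂ} (h1 : HasCompactSupport Φ) (h2 : HasCompactSupport Ψ) :
    (P (fun z => Φ z + Ψ z) : G ⧸ Γ → ℂ) = fun x => P Φ x + P Ψ x := by
  ext x
  exact (summable h1 _).tsum_add (summable h2 _)

omit [TopologicalSpace G] [IsTopologicalGroup G] [T2Space G] [LocallyCompactSpace G]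
  [SecondCountableTopology G] [MeasurableSpace G] [BorelSpace G] [DiscreteTopology Γ]
  [Countable Γ] [MeasurableSpace (G ⧸ Γ)] [BorelSpace (G ⧸ Γ)] in
theorem P_mul (c : ℂ) (Φ : G → ℂ) :
    (P (fun z => c * Φ z) : G ⧸ Γ → ℂ) = fun x => c * P Φ x := by
  ext x
  exact tsum_mul_left

omit [IsTopologicalGroup G] [SecondCountableTopology G] [T2Space G] [LocallyCompactSpace G]
  [DiscreteTopology Γ] [Countable Γ] [μ.IsHaarMeasure] [μ.IsMulRightInvariant]
  [μ.IsInvInvariant] [IsFiniteMeasureOnCompacts ν] in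
/-- the unfolding identity over a measurable set of `G/Γ` -/
theorem setLIntegral (hU : Unfolds μ ν) {F : G → ℝ≥0∞} (hF : Measurable F) {s : Set (G ⧸ Γ)}
    (hs : MeasurableSet s) :
    ∫⁻ g in (QuotientGroup.mk : G → G ⧸ Γ) ⁻¹' s, F g ∂μ =
      ∫⁻ x in s, ∑' γ : Γ, F (x.out * γ) ∂ν := by
  have hm : Measurable (QuotientGroup.mk : G → G ⧸ Γ) :=
    QuotientGroup.continuous_mk.measurable
  rw [← lintegral_indicator (hm hs), ← lintegral_indicator hs, hU _ (hF.indicator (hm hs))]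
  refine lintegral_congr fun x => ?_
  have h1 : ∀ γ : Γ, (QuotientGroup.mk (x.out * γ) : G ⧸ Γ) = x := fun γ => by simp
  by_cases hx : x ∈ s
  · rw [indicator_of_mem hx]
    refine tsum_congr fun γ => ?_
    rw [indicator_of_mem]
    rw [mem_preimage, h1]
    exact hx
  · rw [indicator_of_notMem hx]
    refine (tsum_congr fun γ => ?_).trans tsum_zero
    rw [indicator_of_notMem]
    rw [mem_preimage, h1]
    exact hx

omit [SecondCountableTopology G] [T2Space G] [LocallyCompactSpace G] [DiscreteTopology Γ]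
  [Countable Γ] [μ.IsHaarMeasure] [μ.IsMulRightInvariant] [μ.IsInvInvariant]
  [IsFiniteMeasureOnCompacts ν] in
/-- null sets of `G/Γ` pull back to null sets of `G` -/
theorem ae_mk (hU : Unfolds μ ν) {p : G ⧸ Γ → Prop} (hp : ∀ᵐ x ∂ν, p x) :
    ∀ᵐ z ∂μ, p (QuotientGroup.mk z) := by
  obtain ⟨N, hN1, hN2, hN3⟩ := exists_measurable_superset_of_null (ae_iff.1 hp)
  have h := setLIntegral hU (F := fun _ => 1) measurable_const hN2
  rw [setLIntegral_measure_zero _ _ hN3] at h
  rw [lintegral_one, Measure.restrict_apply_univ] at h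
  rw [ae_iff]
  exact measure_mono_null (fun z hz => hN1 hz) h

/-- the unfolding property for one function -/
def Q (μ : Measure G) (ν : Measure (G ⧸ Γ)) (Φ : G → ℂ) : Prop :=
  Integrable (P Φ : G ⧸ Γ → ℂ) ν ∧ ∀ s : Set (G ⧸ Γ), MeasurableSet s →
    ∫ g in (QuotientGroup.mk : G → G ⧸ Γ) ⁻¹' s, Φ g ∂μ = ∫ x in s, P Φ x ∂ν

omit [SecondCountableTopology G] [T2Space G] [LocallyCompactSpace G] [DiscreteTopology Γ]
  [Countable Γ] [μ.IsHaarMeasure] [μ.IsMulRightInvariant] [μ.IsInvInvariant]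
  [IsFiniteMeasureOnCompacts ν] in
theorem Q_mul (c : ℂ) {Φ : G → ℂ} (h : Q (Γ := Γ) μ ν Φ) : Q (Γ := Γ) μ ν fun z => c * Φ z := by
  refine ⟨?_, fun s hs => ?_⟩
  · rw [P_mul]
    exact h.1.const_mul c
  · rw [P_mul, integral_const_mul, integral_const_mul, h.2 s hs]

omit [Countable Γ] [μ.IsMulRightInvariant] [μ.IsInvInvariant] [IsFiniteMeasureOnCompacts ν] in
theorem Q_add {Φ Ψ : G → ℂ} (hc1 : Continuous Φ) (hs1 : HasCompactSupport Φ)
    (hc2 : Continuous Ψ) (hs2 : HasCompactSupport Ψ) (h1 : Q (Γ := Γ) μ ν Φ)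
    (h2 : Q (Γ := Γ) μ ν Ψ) : Q (Γ := Γ) μ ν fun z => Φ z + Ψ z := by
  refine ⟨?_, fun s hs => ?_⟩
  · rw [P_add hs1 hs2]
    exact h1.1.add h2.1
  · rw [P_add hs1 hs2, integral_add (hc1.integrable_of_hasCompactSupport hs1).integrableOn
      (hc2.integrable_of_hasCompactSupport hs2).integrableOn,
      integral_add h1.1.integrableOn h2.1.integrableOn, h1.2 s hs, h2.2 s hs]

omit [Countable Γ] [μ.IsMulRightInvariant] [μ.IsInvInvariant] [IsFiniteMeasureOnCompacts ν] in
theorem Q_of_nonneg (hU : Unfolds μ ν) {φ : G → ℝ} (hc : Continuous φ) (hs : HasCompactSupport φ)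
    (h0 : ∀ g, 0 ≤ φ g) : Q (Γ := Γ) μ ν fun z => (φ z : ℂ) := by
  have hP : (P (fun z => (φ z : ℂ)) : G ⧸ Γ → ℂ) = fun x => ((P φ x : ℝ) : ℂ) := by
    ext x
    simp only [P]
    exact (Complex.ofReal_tsum _).symm
  have hP0 : ∀ x : G ⧸ Γ, 0 ≤ P φ x := fun x => tsum_nonneg fun γ => h0 _
  have hPc : Continuous (P φ : G ⧸ Γ → ℝ) := continuous_P hc hs
  have hPE : ∀ x : G ⧸ Γ, ENNReal.ofReal (P φ x) = ∑' γ : Γ, ENNReal.ofReal (φ (x.out * γ)) :=
    fun x => ENNReal.ofReal_tsum_of_nonneg (fun γ => h0 _) (summable hs _)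
  have hm : Measurable fun g => ENNReal.ofReal (φ g) := hc.measurable.ennreal_ofReal
  have hfin : ∫⁻ x : G ⧸ Γ, ENNReal.ofReal (P φ x) ∂ν < ∞ := by
    simp_rw [hPE]
    rw [← hU _ hm]
    exact (hc.integrable_of_hasCompactSupport hs).lintegral_lt_top
  have hint : Integrable (P φ : G ⧸ Γ → ℝ) ν := by
    refine ⟨hPc.measurable.aestronglyMeasurable, ?_⟩
    rw [hasFiniteIntegral_iff_ofReal (Eventually.of_forall hP0)]
    exact hfin
  refine ⟨?_, fun s hs' => ?_⟩
  · rw [hP]
    exact hint.ofReal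
  · rw [hP, integral_complex_ofReal, integral_complex_ofReal,
      integral_eq_lintegral_of_nonneg_ae (Eventually.of_forall h0)
        hc.measurable.aestronglyMeasurable,
      integral_eq_lintegral_of_nonneg_ae (Eventually.of_forall hP0)
        hPc.measurable.aestronglyMeasurable]
    simp_rw [hPE]
    rw [setLIntegral hU hm hs']

omit [Countable Γ] [μ.IsMulRightInvariant] [μ.IsInvInvariant] [IsFiniteMeasureOnCompacts ν] in
theorem Q_of_real (hU : Unfolds μ ν) {φ : G → ℝ} (hc : Continuous φ)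
    (hs : HasCompactSupport φ) : Q (Γ := Γ) μ ν fun z => (φ z : ℂ) := by
  have hc1 : Continuous fun z => max (φ z) 0 := hc.max continuous_const
  have hc2 : Continuous fun z => max (-φ z) 0 := hc.neg.max continuous_const
  have hs1 : HasCompactSupport fun z => max (φ z) 0 :=
    hs.comp_left (g := fun t : ℝ => max t 0) (by simp)
  have hs2 : HasCompactSupport fun z => max (-φ z) 0 :=
    hs.comp_left (g := fun t : ℝ => max (-t) 0) (by simp)
  have h1 := Q_of_nonneg hU hc1 hs1 fun g => le_max_right _ _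
  have h2 := Q_of_nonneg hU hc2 hs2 fun g => le_max_right _ _
  have h3 := Q_mul (-1) h2
  have h4 := Q_add (Complex.continuous_ofReal.comp hc1)
    (hs1.comp_left (g := fun t : ℝ => (t : ℂ)) (by simp))
    (continuous_const.mul (Complex.continuous_ofReal.comp hc2))
    (hs2.comp_left (g := fun t : ℝ => (-1 : ℂ) * (t : ℂ)) (by simp)) h1 h3
  convert h4 using 2 with z
  have h5 : φ z = max (φ z) 0 - max (-φ z) 0 := by
    rcases le_total 0 (φ z) with h | h
    · rw [max_eq_left h, max_eq_right (by linarith)]; ring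
    · rw [max_eq_right h, max_eq_left (by linarith)]; ring
  have h6 : (φ z : ℂ) = ((max (φ z) 0 : ℝ) : ℂ) + -1 * ((max (-φ z) 0 : ℝ) : ℂ) := by
    have h7 : (φ z : ℂ) = ((max (φ z) 0 - max (-φ z) 0 : ℝ) : ℂ) := congrArg _ h5
    rw [h7, Complex.ofReal_sub]
    ring
  exact h6

omit [Countable Γ] [μ.IsMulRightInvariant] [μ.IsInvInvariant] [IsFiniteMeasureOnCompacts ν] in
/-- unfolding for continuous compactly supported complex functions -/
theorem Q_of_complex (hU : Unfolds μ ν) {Φ : G → ℂ} (hc : Continuous Φ)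
    (hs : HasCompactSupport Φ) : Q (Γ := Γ) μ ν Φ := by
  have hc1 : Continuous fun z => (Φ z).re := Complex.continuous_re.comp hc
  have hc2 : Continuous fun z => (Φ z).im := Complex.continuous_im.comp hc
  have hs1 : HasCompactSupport fun z => (Φ z).re := hs.comp_left (g := Complex.re) (by simp)
  have hs2 : HasCompactSupport fun z => (Φ z).im := hs.comp_left (g := Complex.im) (by simp)
  have h1 := Q_of_real (Γ := Γ) hU hc1 hs1
  have h2 := Q_mul Complex.I (Q_of_real (Γ := Γ) hU hc2 hs2)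
  have h4 := Q_add (Complex.continuous_ofReal.comp hc1)
    (hs1.comp_left (g := fun t : ℝ => (t : ℂ)) (by simp))
    (continuous_const.mul (Complex.continuous_ofReal.comp hc2))
    (hs2.comp_left (g := fun t : ℝ => Complex.I * (t : ℂ)) (by simp)) h1 h2
  convert h4 using 2 with z
  have h6 : Φ z = ((Φ z).re : ℂ) + Complex.I * ((Φ z).im : ℂ) := by
    rw [mul_comm]
    exact (Complex.re_add_im _).symm
  exact h6

theorem compactSupport_div {h : G → ℂ} (hs : HasCompactSupport h) (b : G) :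
    HasCompactSupport fun z : G => h (b * z⁻¹) :=
  hs.comp_homeomorph ((Homeomorph.inv G).trans (Homeomorph.mulLeft b))

theorem continuous_div {h : G → ℂ} (hc : Continuous h) (b : G) :
    Continuous fun z : G => h (b * z⁻¹) :=
  hc.comp (continuous_const.mul continuous_inv)

theorem P_div (h : G → ℂ) (b : G) (x : G ⧸ Γ) :
    P (fun z : G => h (b * z⁻¹)) x = ∑' γ : Γ, h (b * γ * (x.out)⁻¹) :=
  tsum_inv h x.out b

/-- the substitution `g = b z⁻¹` -/
theorem inner_eq {h : G → ℂ} {k : G ⧸ Γ → Lp ℂ 2 ν} (hk : IsKvec μ ν h k) (b : G)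
    (F : G ⧸ Γ → ℂ) (hF : MemLp F 2 ν) :
    inner ℂ (k (QuotientGroup.mk b)) (hF.toLp F) =
      ∫ z, h (b * z⁻¹) * F (QuotientGroup.mk z) ∂μ := by
  rw [hk.inner_eq F hF, ← integral_div_left_eq_self _ μ b]
  refine integral_congr_ae (Eventually.of_forall fun z => ?_)
  simp only [div_eq_mul_inv, mul_inv_rev, inv_inv]
  congr 2
  change (QuotientGroup.mk ((z * b⁻¹) * b) : G ⧸ Γ) = QuotientGroup.mk z
  rw [inv_mul_cancel_right]

theorem setIntegral_kvec (hU : Unfolds μ ν) {h : G → ℂ} (hc : Continuous h)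
    (hs : HasCompactSupport h) {k : G ⧸ Γ → Lp ℂ 2 ν} (hk : IsKvec μ ν h k) (b : G)
    {s : Set (G ⧸ Γ)} (hms : MeasurableSet s) (hν : ν s ≠ ∞) :
    ∫ x in s, k (QuotientGroup.mk b) x ∂ν =
      ∫ x in s, starRingEnd ℂ (P (fun z : G => h (b * z⁻¹)) x) ∂ν := by
  have h1 := inner_eq hk b (s.indicator fun _ => (1 : ℂ))
    (memLp_indicator_const 2 hms (1 : ℂ) (Or.inr hν))
  have h2 : (memLp_indicator_const 2 hms (1 : ℂ) (Or.inr hν)).toLp
      (s.indicator fun _ => (1 : ℂ)) = indicatorConstLp 2 hms hν (1 : ℂ) := rfl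
  rw [h2, ← inner_conj_symm, L2.inner_indicatorConstLp_one] at h1
  have hm : Measurable (QuotientGroup.mk : G → G ⧸ Γ) :=
    QuotientGroup.continuous_mk.measurable
  have h3 : ∫ z, h (b * z⁻¹) * (s.indicator fun _ => (1 : ℂ)) (QuotientGroup.mk z : G ⧸ Γ) ∂μ =
      ∫ z in (QuotientGroup.mk : G → G ⧸ Γ) ⁻¹' s, h (b * z⁻¹) ∂μ := by
    rw [← integral_indicator (hm hms)]
    refine integral_congr_ae (Eventually.of_forall fun z => ?_)
    by_cases hz : (QuotientGroup.mk z : G ⧸ Γ) ∈ s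
    · simp only []
      rw [indicator_of_mem hz, indicator_of_mem (show z ∈ _ ⁻¹' s from hz), mul_one]
    · simp only []
      rw [indicator_of_notMem hz, indicator_of_notMem (show z ∉ _ ⁻¹' s from hz), mul_zero]
  have hQ := Q_of_complex (Γ := Γ) hU (continuous_div hc b) (compactSupport_div hs b)
  rw [h3, hQ.2 s hms] at h1
  rw [integral_conj, ← h1, Complex.conj_conj]

/-- the explicit form of the kernel vectors, with the representative chosen by `Quotient.out` -/
theorem kvec_ae_P (hU : Unfolds μ ν) {h : G → ℂ} (hc : Continuous h) (hs : HasCompactSupport h)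
    {k : G ⧸ Γ → Lp ℂ 2 ν} (hk : IsKvec μ ν h k) (b : G) :
    k (QuotientGroup.mk b) =ᵐ[ν]
      fun x : G ⧸ Γ => starRingEnd ℂ (P (fun z : G => h (b * z⁻¹)) x) := by
  have hQ := Q_of_complex (Γ := Γ) hU (continuous_div hc b) (compactSupport_div hs b)
  have hPi : Integrable (fun x : G ⧸ Γ => starRingEnd ℂ (P (fun z : G => h (b * z⁻¹)) x)) ν :=
    (Complex.conjLIE.toContinuousLinearEquiv : ℂ →L[ℝ] ℂ).integrable_comp hQ.1
  refine ae_eq_of_forall_setIntegral_eq_of_sigmaFinite (fun s hms hν => ?_)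
    (fun s hms hν => hPi.integrableOn) (fun s hms hν => ?_)
  · exact integrableOn_Lp_of_measure_ne_top _ (by norm_num) hν.ne
  · exact setIntegral_kvec hU hc hs hk b hms hν.ne

/-- the explicit form of the kernel vectors, on `G` -/
theorem kvec_ae_mk (hU : Unfolds μ ν) {h : G → ℂ} (hc : Continuous h) (hs : HasCompactSupport h)
    {k : G ⧸ Γ → Lp ℂ 2 ν} (hk : IsKvec μ ν h k) (b : G) :
    ∀ᵐ z ∂μ, k (QuotientGroup.mk b) (QuotientGroup.mk z) =
      starRingEnd ℂ (∑' γ : Γ, h (b * γ * z⁻¹)) := by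
  filter_upwards [ae_mk hU (kvec_ae_P hU hc hs hk b)] with z hz
  rw [hz]
  congr 1
  exact (tsum_out (fun z : G => h (b * z⁻¹)) z).trans (tsum_inv h z b)

/-- the support of the sum which gives the kernel vectors is finite -/
theorem finite_support_div {h : G → ℂ} (hs : HasCompactSupport h) (b z : G) :
    (Function.support fun γ : Γ => h (b * γ * z⁻¹)).Finite := by
  have h1 := (finite_support (Γ := Γ) (compactSupport_div hs b) z).image (fun γ : Γ => γ⁻¹)
  refine h1.subset ?_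
  intro γ hγ
  refine ⟨γ⁻¹, ?_, inv_inv γ⟩
  simpa [mul_assoc] using hγ

theorem summable_div {h : G → ℂ} (hs : HasCompactSupport h) (b z : G) :
    Summable fun γ : Γ => h (b * γ * z⁻¹) :=
  summable_of_hasFiniteSupport (finite_support_div hs b z)

end KK

/-- the explicit form of the kernel vectors -/
theorem kvec_ae (hU : Unfolds μ ν) {h : G → ℂ} (hc : Continuous h) (hs : HasCompactSupport h)
    {k : G ⧸ Γ → Lp ℂ 2 ν} (hk : IsKvec μ ν h k) (b : G) :
    k (QuotientGroup.mk b) =ᵐ[ν]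
      fun z : G ⧸ Γ => starRingEnd ℂ (∑' γ : Γ, h (b * γ * (z.out)⁻¹)) := by
  filter_upwards [KK.kvec_ae_P hU hc hs hk b] with z hz
  rw [hz, KK.P_div]

end Pool.Agent.FC.Abs
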