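import Pool.Agent.FC.Coef
import Pool.Agent.FC.KKa

/-!
# FC: the inner products of the kernel vectors
-/

open MeasureTheory Set Topology Filter
open scoped ENNReal

namespace Pool.Agent.FC.Abs

variable {G : Type*} [Group G] [TopologicalSpace G] [IsTopologicalGroup G]
  [SecondCountableTopology G] [T2Space G] [LocallyCompactSpace G]
  [MeasurableSpace G] [BorelSpace G] {Γ : Subgroup G} [DiscreteTopology Γ] [Countable Γ]
  [MeasurableSpace (G ⧸ Γ)] [BorelSpace (G ⧸ Γ)]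
  {μ : Measure G} [μ.IsHaarMeasure] [μ.IsMulRightInvariant] [μ.IsInvInvariant]
  {ν : Measure (G ⧸ Γ)} [IsFiniteMeasureOnCompacts ν]

set_option linter.unusedSectionVars false

theorem KK.re_tsum_nonneg {ι : Type*} (f : ι → ℂ) (h : ∀ i, 0 ≤ (f i).re) : 0 ≤ (∑' i, f i).re := by
  by_cases hs : Summable f
  · rw [Complex.re_tsum hs]
    exact tsum_nonneg h
  · rw [tsum_eq_zero_of_not_summable hs]
    simp

/-- pointwise positivity -/
theorem KK.pointwise {Γ : Subgroup G} (h : G → ℂ) (a b : G) (c : ℂ)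
    (hpos : ∀ z : G, ∀ γ ∈ Γ, 0 ≤ (c * h (a * z⁻¹) * starRingEnd ℂ (h (b * γ * z⁻¹))).re) (x : G) :
    0 ≤ (c * ((∑' γ : Γ, h (a * γ * x⁻¹)) * starRingEnd ℂ (∑' γ : Γ, h (b * γ * x⁻¹)))).re := by
  by_cases h1 : Summable fun γ : Γ => h (a * γ * x⁻¹)
  · by_cases h2 : Summable fun γ : Γ => h (b * γ * x⁻¹)
    · have e1 : starRingEnd ℂ (∑' γ : Γ, h (b * γ * x⁻¹)) =
          ∑' γ : Γ, starRingEnd ℂ (h (b * γ * x⁻¹)) := Complex.conj_tsum ..
      have h2' : Summable fun γ : Γ => starRingEnd ℂ (h (b * γ * x⁻¹)) := by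
        exact (Complex.hasSum_conj'.mpr (by simpa using h2.hasSum)).summable
      rw [e1, tsum_mul_tsum_of_summable_norm h1.norm h2'.norm, ← tsum_mul_left]
      apply KK.re_tsum_nonneg
      rintro ⟨γ, γ'⟩
      have := hpos (x * (γ : G)⁻¹) (γ' * (γ : G)⁻¹) (Γ.mul_mem γ'.2 (Γ.inv_mem γ.2))
      have e2 : a * (x * (γ : G)⁻¹)⁻¹ = a * γ * x⁻¹ := by group
      have e3 : b * (γ' * (γ : G)⁻¹) * (x * (γ : G)⁻¹)⁻¹ = b * γ' * x⁻¹ := by group
      rw [e2, e3, mul_assoc] at this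
      exact this
    · rw [tsum_eq_zero_of_not_summable h2]
      simp
  · rw [tsum_eq_zero_of_not_summable h1]
    simp

/-- the sign of the inner products -/
theorem inner_kvec_nonneg (hU : Unfolds μ ν) {h : G → ℂ} (hc : Continuous h)
    (hs : HasCompactSupport h) {k : G ⧸ Γ → Lp ℂ 2 ν} (hk : IsKvec μ ν h k) (a b : G) (c : ℂ)
    (hpos : ∀ z : G, ∀ γ ∈ Γ, 0 ≤ (c * h (a * z⁻¹) * starRingEnd ℂ (h (b * γ * z⁻¹))).re) :
    0 ≤ (c * inner ℂ (k (QuotientGroup.mk a)) (k (QuotientGroup.mk b))).re := by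
  have h1 := kvec_ae hU hc hs hk a
  have h2 := kvec_ae hU hc hs hk b
  rw [L2.inner_def, ← integral_const_mul]
  by_cases hint : Integrable (fun x : G ⧸ Γ => c * inner ℂ (k (QuotientGroup.mk a) x)
      (k (QuotientGroup.mk b) x)) ν
  · have hre := Complex.reCLM.integral_comp_comm hint
    simp only [Complex.reCLM_apply] at hre
    rw [← hre]
    refine integral_nonneg_of_ae ?_
    filter_upwards [h1, h2] with x hx1 hx2
    have h3 := KK.pointwise h a b c hpos x.out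
    simp only [Pi.zero_apply]
    rw [hx1, hx2]
    have h4 : inner ℂ (starRingEnd ℂ (∑' γ : Γ, h (a * γ * (x.out)⁻¹)))
        (starRingEnd ℂ (∑' γ : Γ, h (b * γ * (x.out)⁻¹))) =
        (∑' γ : Γ, h (a * γ * (x.out)⁻¹)) * starRingEnd ℂ (∑' γ : Γ, h (b * γ * (x.out)⁻¹)) := by
      simp [mul_comm]
    rw [h4]
    exact h3
  · rw [integral_undef hint]
    simp

theorem KK.finite_preimage {C : Set G} (hC : IsCompact C) : {γ : Γ | (γ : G) ∈ C}.Finite := by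
  have hcl : IsClosed (Γ : Set G) := Subgroup.isClosed_of_discrete
  have he : Topology.IsClosedEmbedding (Subtype.val : Γ → G) := hcl.isClosedEmbedding_subtypeVal
  exact (he.isCompact_preimage hC).finite_of_discrete

theorem KK.summable_h {h : G → ℂ} (hs : HasCompactSupport h) (x : G) :
    Summable fun γ : Γ => h (γ * x⁻¹) := by
  have hC : IsCompact ((Homeomorph.mulRight x⁻¹) ⁻¹' tsupport h) :=
    (Homeomorph.mulRight x⁻¹).isCompact_preimage.mpr hs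
  refine summable_of_hasFiniteSupport ((KK.finite_preimage (Γ := Γ) hC).subset ?_)
  intro γ hγ
  exact subset_tsupport h hγ

/-- the diagonal terms control the sum -/
theorem KK.eq_zero_of_sum {Γ : Subgroup G} (h : G → ℂ)
    (hpos : ∀ z : G, ∀ γ ∈ Γ, 0 ≤ (h z⁻¹ * starRingEnd ℂ (h (γ * z⁻¹))).re) (x : G)
    (hsum : Summable fun γ : Γ => h (γ * x⁻¹)) (h0 : (∑' γ : Γ, h (γ * x⁻¹)) = 0) (γ : Γ) :
    h (γ * x⁻¹) = 0 := by
  have h2' : Summable fun γ : Γ => starRingEnd ℂ (h (γ * x⁻¹)) :=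
    (Complex.hasSum_conj'.mpr (by simpa using hsum.hasSum)).summable
  have e1 : starRingEnd ℂ (∑' γ : Γ, h (γ * x⁻¹)) = ∑' γ : Γ, starRingEnd ℂ (h (γ * x⁻¹)) :=
    Complex.conj_tsum ..
  have hprod : (∑' γ : Γ, h (γ * x⁻¹)) * (∑' γ : Γ, starRingEnd ℂ (h (γ * x⁻¹))) = 0 := by
    rw [h0, zero_mul]
  rw [tsum_mul_tsum_of_summable_norm hsum.norm h2'.norm] at hprod
  have hS := summable_mul_of_summable_norm hsum.norm h2'.norm
  have hre := Complex.re_tsum hS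
  rw [hprod, Complex.zero_re] at hre
  have hnn : ∀ p : Γ × Γ, 0 ≤ (h (p.1 * x⁻¹) * starRingEnd ℂ (h (p.2 * x⁻¹))).re := by
    rintro ⟨γ, γ'⟩
    have := hpos (x * (γ : G)⁻¹) (γ' * (γ : G)⁻¹) (Γ.mul_mem γ'.2 (Γ.inv_mem γ.2))
    have e2 : (x * (γ : G)⁻¹)⁻¹ = γ * x⁻¹ := by group
    have e3 : (γ' * (γ : G)⁻¹ : G) * (γ * x⁻¹) = γ' * x⁻¹ := by group
    rw [e2, e3] at this
    exact this
  have hSre : Summable fun p : Γ × Γ => (h (p.1 * x⁻¹) * starRingEnd ℂ (h (p.2 * x⁻¹))).re :=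
    Complex.reCLM.summable hS
  have h3 := (hasSum_zero_iff_of_nonneg hnn).mp (by
    have := hSre.hasSum
    rwa [← hre] at this)
  have h4 := congrFun h3 (γ, γ)
  simp only [Pi.zero_apply] at h4
  rw [Complex.mul_conj, Complex.ofReal_re] at h4
  exact Complex.normSq_eq_zero.mp h4

theorem kvec_one_ne_zero (hU : Unfolds μ ν) {h : G → ℂ} (hc : Continuous h)
    (hs : HasCompactSupport h) {k : G ⧸ Γ → Lp ℂ 2 ν} (hk : IsKvec μ ν h k) (h1 : h 1 ≠ 0)
    (hpos : ∀ z : G, ∀ γ ∈ Γ, 0 ≤ (h z⁻¹ * starRingEnd ℂ (h (γ * z⁻¹))).re) :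
    k (QuotientGroup.mk 1) ≠ 0 := by
  intro hk0
  have h2 := kvec_ae hU hc hs hk 1
  rw [hk0] at h2
  have h3 : ∀ᵐ x : G ⧸ Γ ∂ν, ∀ γ : Γ, h (γ * (x.out)⁻¹) = 0 := by
    filter_upwards [h2, Lp.coeFn_zero ℂ 2 ν] with x hx hx0 γ
    rw [hx0] at hx
    have hx' : (∑' γ : Γ, h (1 * γ * (x.out)⁻¹)) = 0 := by
      have := congrArg (starRingEnd ℂ) hx
      simpa using this.symm
    simp only [one_mul] at hx'
    exact KK.eq_zero_of_sum h hpos x.out (KK.summable_h hs x.out) hx' γ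
  have hF : Measurable fun g : G => ‖h g⁻¹‖ₑ :=
    (hc.comp continuous_inv).measurable.enorm
  have h4 := hU (fun g => ‖h g⁻¹‖ₑ) hF
  have h5 : ∫⁻ x : G ⧸ Γ, ∑' γ : Γ, ‖h ((x.out * γ)⁻¹)‖ₑ ∂ν = 0 := by
    rw [lintegral_eq_zero_of_ae_eq_zero]
    filter_upwards [h3] with x hx
    simp only [Pi.zero_apply, ENNReal.tsum_eq_zero]
    intro γ
    have := hx γ⁻¹
    rw [mul_inv_rev]
    simpa using this
  rw [h5] at h4
  have h6 : (fun g : G => ‖h g⁻¹‖ₑ) =ᵐ[μ] 0 := (lintegral_eq_zero_iff hF).mp h4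
  have h7 : (fun g : G => h g⁻¹) =ᵐ[μ] fun _ => 0 := by
    filter_upwards [h6] with g hg
    simpa using hg
  have h8 := (hc.comp continuous_inv).ae_eq_iff_eq μ continuous_const |>.mp h7
  have h9 := congrFun h8 1
  simp only [Function.comp, inv_one] at h9
  exact h1 h9

end Pool.Agent.FC.Abs
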