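import Mathlib

/-!
# FC-Key: the key claim of section 7, abstract form
-/

set_option autoImplicit false

open Topology Filter Set

namespace Pool.Agent.FC

theorem key {G R : Type*} [Group G] [TopologicalSpace G] [IsTopologicalGroup G] [T2Space G]
    [Group R] [TopologicalSpace R] [T2Space R] [LocallyCompactSpace R]
    (π : G →* R) (hπ : Continuous π) (Γ V1 V2 U : Subgroup G) [DiscreteTopology Γ]
    (hUK : ∀ B : Set R, IsCompact B → IsCompact {u : G | u ∈ U ∧ π u ∈ B})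
    (D1 D2 : Set G) (hD1 : IsCompact D1) (hD2 : IsCompact D2)
    (hDV1 : ∀ v ∈ D1, v ∈ V1 ∧ v ∈ U) (hDV2 : ∀ v ∈ D2, v ∈ V2 ∧ v ∈ U)
    (ha1 : ∀ v ∈ V1, ∃ q ∈ V1, q ∈ Γ ∧ v * q ∈ D1)
    (ha2 : ∀ v ∈ V2, ∃ q ∈ V2, q ∈ Γ ∧ v * q ∈ D2)
    (χ p1 p2 : G → ℂ) (hχ : ContinuousOn χ U) (hp1 : ContinuousOn p1 V1) (hp2 : ContinuousOn p2 V2)
    (hm1 : ∀ v ∈ V1, ∀ q ∈ V1, q ∈ Γ → p1 (v * q) = p1 v)
    (hm2 : ∀ v ∈ V2, ∀ q ∈ V2, q ∈ Γ → p2 (v * q) = p2 v)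
    (hd : ∀ v1 ∈ V1, v1 ∈ U → ∀ v2 ∈ V2, v2 ∈ U → ∀ γ ∈ Γ, γ ∈ U → π (v1 * γ * v2⁻¹) = 1 →
      p2 v2 * (starRingEnd ℂ) (p1 v1) * χ (v1 * γ * v2⁻¹) = 1)
    {δ : ℝ} (hδ : 0 < δ) :
    ∃ B ∈ 𝓝 (1 : R), ∀ v1 ∈ V1, ∀ v2 ∈ V2, ∀ γ ∈ Γ, v1 * γ * v2⁻¹ ∈ U → π (v1 * γ * v2⁻¹) ∈ B →
      ‖p2 v2 * (starRingEnd ℂ) (p1 v1) * χ (v1 * γ * v2⁻¹) - 1‖ ≤ δ := by
  obtain ⟨B0, hB0c, hB0⟩ := exists_compact_mem_nhds (1 : R)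
  -- the finitely many `γ`
  set K : Set G := {u : G | u ∈ U ∧ π u ∈ B0} with hK
  have hKc : IsCompact K := hUK B0 hB0c
  set S : Set G := (fun x : G × G × G => x.1⁻¹ * x.2.1 * x.2.2) '' (D1 ×ˢ K ×ˢ D2) with hS
  have hSc : IsCompact S := (hD1.prod (hKc.prod hD2)).image (by fun_prop)
  have hΓc : IsClosed (Γ : Set G) := Subgroup.isClosed_of_discrete
  have hfin : (S ∩ (Γ : Set G)).Finite := by
    have h1 : IsCompact (S ∩ (Γ : Set G)) := hSc.inter_right hΓc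
    have h2 : IsDiscrete (Γ : Set G) := ⟨inferInstanceAs (DiscreteTopology Γ)⟩
    exact h1.finite (h2.mono inter_subset_right)
  -- the bad set for one `γ`
  have hbad : ∀ γ : G, γ ∈ U → γ ∈ Γ → ∃ B ∈ 𝓝 (1 : R), ∀ v1 ∈ D1, ∀ v2 ∈ D2,
      π (v1 * γ * v2⁻¹) ∈ B →
      ‖p2 v2 * (starRingEnd ℂ) (p1 v1) * χ (v1 * γ * v2⁻¹) - 1‖ ≤ δ := by
    intro γ hγU hγ
    set f : G × G → ℂ := fun x => p2 x.2 * (starRingEnd ℂ) (p1 x.1) * χ (x.1 * γ * x.2⁻¹) - 1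
      with hf
    have hfc : ContinuousOn f (D1 ×ˢ D2) := by
      have e1 : ContinuousOn (fun x : G × G => p2 x.2) (D1 ×ˢ D2) :=
        hp2.comp continuousOn_snd fun x hx => (hDV2 _ hx.2).1
      have e2 : ContinuousOn (fun x : G × G => p1 x.1) (D1 ×ˢ D2) :=
        hp1.comp continuousOn_fst fun x hx => (hDV1 _ hx.1).1
      have e3 : ContinuousOn (fun x : G × G => χ (x.1 * γ * x.2⁻¹)) (D1 ×ˢ D2) := by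
        refine hχ.comp (by fun_prop) fun x hx => ?_
        exact U.mul_mem (U.mul_mem (hDV1 _ hx.1).2 hγU) (U.inv_mem (hDV2 _ hx.2).2)
      exact ((e1.mul (Complex.continuous_conj.comp_continuousOn e2)).mul e3).sub continuousOn_const
    have hAc : IsCompact ((D1 ×ˢ D2) ∩ {x | δ ≤ ‖f x‖}) := by
      have h1 : IsClosed {z : ℂ | δ ≤ ‖z‖} := isClosed_le continuous_const continuous_norm
      obtain ⟨T, hT, hT2⟩ := (continuousOn_iff_isClosed.1 hfc) _ h1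
      have h2 : (D1 ×ˢ D2) ∩ {x | δ ≤ ‖f x‖} = (D1 ×ˢ D2) ∩ T := by
        have : {x | δ ≤ ‖f x‖} = f ⁻¹' {z : ℂ | δ ≤ ‖z‖} := rfl
        rw [this, inter_comm, hT2, inter_comm]
      rw [h2]
      exact (hD1.prod hD2).inter_right hT
    have hIc : IsCompact ((fun x : G × G => π (x.1 * γ * x.2⁻¹)) ''
        ((D1 ×ˢ D2) ∩ {x | δ ≤ ‖f x‖})) := hAc.image (by fun_prop)
    refine ⟨_, hIc.isClosed.isOpen_compl.mem_nhds ?_, ?_⟩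
    · rintro ⟨⟨v1, v2⟩, ⟨h1, h2⟩, h3⟩
      have h4 := hd v1 (hDV1 _ h1.1).1 (hDV1 _ h1.1).2 v2 (hDV2 _ h1.2).1 (hDV2 _ h1.2).2 γ hγ hγU h3
      have h5 : f (v1, v2) = 0 := by rw [hf]; simp only; rw [h4, sub_self]
      have h6 : δ ≤ ‖f (v1, v2)‖ := h2
      rw [h5, norm_zero] at h6
      exact absurd h6 (not_le.2 hδ)
    · intro v1 h1 v2 h2 h3
      by_contra h4
      exact h3 ⟨(v1, v2), ⟨⟨h1, h2⟩, (not_le.1 h4).le⟩, rfl⟩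
  classical
  choose! B hB1 hB2 using hbad
  refine ⟨B0 ∩ ⋂ γ ∈ S ∩ (Γ : Set G) ∩ (U : Set G), B γ, inter_mem hB0 ?_, ?_⟩
  · rw [biInter_mem (hfin.subset inter_subset_left)]
    intro γ hγ
    exact hB1 γ hγ.2 hγ.1.2
  · intro v1 h1 v2 h2 γ hγ hyU hyB
    obtain ⟨q1, hq1, hq1Γ, hv1⟩ := ha1 v1 h1
    obtain ⟨q2, hq2, hq2Γ, hv2⟩ := ha2 v2 h2
    have e1 : (v1 * q1) * (q1⁻¹ * γ * q2) * (v2 * q2)⁻¹ = v1 * γ * v2⁻¹ := by group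
    have hγ' : q1⁻¹ * γ * q2 ∈ Γ := Γ.mul_mem (Γ.mul_mem (Γ.inv_mem hq1Γ) hγ) hq2Γ
    have e2 : q1⁻¹ * γ * q2 = (v1 * q1)⁻¹ * (v1 * γ * v2⁻¹) * (v2 * q2) := by group
    have hγU : q1⁻¹ * γ * q2 ∈ U := by
      rw [e2]
      exact U.mul_mem (U.mul_mem (U.inv_mem (hDV1 _ hv1).2) hyU) (hDV2 _ hv2).2
    have hγS : q1⁻¹ * γ * q2 ∈ S := by
      rw [e2]
      exact ⟨(v1 * q1, v1 * γ * v2⁻¹, v2 * q2), ⟨hv1, ⟨hyU, hyB.1⟩, hv2⟩, rfl⟩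
    have h3 := hB2 _ hγU hγ' (v1 * q1) hv1 (v2 * q2) hv2 (by
      rw [e1]
      exact mem_iInter₂.1 hyB.2 _ ⟨⟨hγS, hγ'⟩, hγU⟩)
    rw [e1, hm1 v1 h1 q1 hq1 hq1Γ, hm2 v2 h2 q2 hq2 hq2Γ] at h3
    exact h3

end Pool.Agent.FC
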