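import Mathlib

/-! # Project FC, module LeadA: leading vectors in the lattice chain at 3

`L₀ = ℤ₃¹²`, `L₁ = ℤ₃⁶ ⊕ 3 ℤ₃⁶`, `L_{i+2} = 3 L_i`.  A vector is of type `true` with leading
vector `z` if it is in `L₁` and congruent to `(z, 0)` modulo `L₂`; of type `false` if it is in `L₀`
and congruent to `(*, z)` modulo `L₁`. -/

namespace Pool.Agent.FC.LeadL

open Matrix

variable [Fact (Nat.Prime 3)]

/-- Vectors of size `12` over `ℚ_3`. -/
abbrev V12 := Fin 6 ⊕ Fin 6 → ℚ_[3]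

/-- The leading vector of `w`. -/
def Lead (b : Bool) (w : V12) (z : Fin 6 → ℤ) : Prop :=
  if b then (∀ i, ‖w (Sum.inl i) - z i‖ ≤ 3⁻¹) ∧ ∀ i, ‖w (Sum.inr i)‖ ≤ 3⁻¹
  else (∀ i, ‖w (Sum.inl i)‖ ≤ 1) ∧ ∀ i, ‖w (Sum.inr i) - z i‖ ≤ 3⁻¹

/-- `D` is near to `(0, S false / 3; S true, 0)`. -/
structure Near (S : Bool → Matrix (Fin 6) (Fin 6) ℤ)
    (D : Matrix (Fin 6 ⊕ Fin 6) (Fin 6 ⊕ Fin 6) ℚ_[3]) : Prop where
  pp : ∀ i j, ‖D (Sum.inl i) (Sum.inl j)‖ ≤ 1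
  qq : ∀ i j, ‖D (Sum.inr i) (Sum.inr j)‖ ≤ 1
  pq : ∀ i j, ‖3 * D (Sum.inl i) (Sum.inr j) - S false i j‖ ≤ 3⁻¹
  qp : ∀ i j, ‖D (Sum.inr i) (Sum.inl j) - S true i j‖ ≤ 3⁻¹

theorem norm_add_le {a b : ℚ_[3]} {c : ℝ} (ha : ‖a‖ ≤ c) (hb : ‖b‖ ≤ c) : ‖a + b‖ ≤ c :=
  (Padic.nonarchimedean a b).trans (max_le ha hb)

theorem norm_sum_le {ι : Type*} (s : Finset ι) (f : ι → ℚ_[3]) {c : ℝ} (hc : 0 ≤ c)
    (h : ∀ i ∈ s, ‖f i‖ ≤ c) : ‖∑ i ∈ s, f i‖ ≤ c := by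
  classical
  induction s using Finset.induction_on with
  | empty => simpa using hc
  | insert i s hi ih =>
    rw [Finset.sum_insert hi]
    exact norm_add_le (h i (Finset.mem_insert_self _ _))
      (ih fun j hj => h j (Finset.mem_insert_of_mem hj))

theorem norm_sub_mul {a b : ℚ_[3]} {m n : ℤ} {c : ℝ} (hc1 : c ≤ 1) (ha : ‖a - m‖ ≤ c)
    (hb : ‖b - n‖ ≤ c) : ‖a * b - (m * n : ℤ)‖ ≤ c := by
  have hc0 : 0 ≤ c := (norm_nonneg _).trans ha
  have hm : ‖(m : ℚ_[3])‖ ≤ 1 := Padic.norm_int_le_one m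
  have hn : ‖(n : ℚ_[3])‖ ≤ 1 := Padic.norm_int_le_one n
  have e : a * b - (m * n : ℤ) = (a - m) * (b - n) + ((a - m) * n + m * (b - n)) := by
    push_cast; ring
  rw [e]
  refine norm_add_le ?_ (norm_add_le ?_ ?_)
  · rw [norm_mul]
    calc ‖a - m‖ * ‖b - n‖ ≤ c * 1 :=
          mul_le_mul ha (hb.trans hc1) (norm_nonneg _) hc0
      _ = c := mul_one c
  · rw [norm_mul]
    calc ‖a - m‖ * ‖(n : ℚ_[3])‖ ≤ c * 1 := mul_le_mul ha hn (norm_nonneg _) hc0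
      _ = c := mul_one c
  · rw [norm_mul]
    calc ‖(m : ℚ_[3])‖ * ‖b - n‖ ≤ 1 * c := mul_le_mul hm hb (norm_nonneg _) zero_le_one
      _ = c := one_mul c

theorem norm_three : ‖(3 : ℚ_[3])‖ = 3⁻¹ := by
  have := Padic.norm_p (p := 3)
  simpa using this

theorem norm_le_one_of_sub {a : ℚ_[3]} {m : ℤ} (h : ‖a - m‖ ≤ 3⁻¹) : ‖a‖ ≤ 1 := by
  have e : a = (a - m) + m := by ring
  rw [e]
  exact norm_add_le (h.trans (by norm_num)) (Padic.norm_int_le_one m)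

theorem mul_le_third {a b : ℚ_[3]} (ha : ‖a‖ ≤ 1) (hb : ‖b‖ ≤ 3⁻¹) : ‖a * b‖ ≤ 3⁻¹ := by
  rw [norm_mul]
  calc ‖a‖ * ‖b‖ ≤ 1 * 3⁻¹ := mul_le_mul ha hb (norm_nonneg _) zero_le_one
    _ = 3⁻¹ := one_mul _

theorem mul_le_one' {a b : ℚ_[3]} (ha : ‖a‖ ≤ 1) (hb : ‖b‖ ≤ 1) : ‖a * b‖ ≤ 1 := by
  rw [norm_mul]
  exact mul_le_one₀ ha (norm_nonneg _) hb

/-- One step. -/
theorem Lead.step {S : Bool → Matrix (Fin 6) (Fin 6) ℤ}
    {D : Matrix (Fin 6 ⊕ Fin 6) (Fin 6 ⊕ Fin 6) ℚ_[3]} (hD : Near S D) {b : Bool} {w : V12}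
    {z : Fin 6 → ℤ} (hw : Lead b w z) :
    ∃ a : ℚ_[3], a ≠ 0 ∧ Lead (!b) (a • (D *ᵥ w)) (S b *ᵥ z) := by
  have h3 : (3 : ℚ_[3]) ≠ 0 := by
    rw [← norm_ne_zero_iff, norm_three]; norm_num
  cases b with
  | true =>
    simp only [Lead, if_true] at hw
    obtain ⟨h1, h2⟩ := hw
    refine ⟨1, one_ne_zero, ?_⟩
    simp only [Lead, Bool.not_true, Bool.false_eq_true, if_false, one_smul]
    have hpq : ∀ i j, ‖D (Sum.inl i) (Sum.inr j) * w (Sum.inr j)‖ ≤ 1 := by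
      intro i j
      have h4 : ‖3 * D (Sum.inl i) (Sum.inr j)‖ ≤ 1 := norm_le_one_of_sub (hD.pq i j)
      rw [norm_mul, norm_three] at h4
      rw [norm_mul]
      calc ‖D (Sum.inl i) (Sum.inr j)‖ * ‖w (Sum.inr j)‖
          ≤ ‖D (Sum.inl i) (Sum.inr j)‖ * 3⁻¹ := mul_le_mul_of_nonneg_left (h2 j) (norm_nonneg _)
        _ ≤ 1 := by rw [mul_comm]; exact h4
    constructor
    · intro i
      simp only [Matrix.mulVec, dotProduct, Fintype.sum_sum_type]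
      refine norm_add_le (norm_sum_le _ _ zero_le_one fun j _ => ?_)
        (norm_sum_le _ _ zero_le_one fun j _ => hpq i j)
      exact mul_le_one' (hD.pp i j) (norm_le_one_of_sub (h1 j))
    · intro i
      simp only [Matrix.mulVec, dotProduct, Fintype.sum_sum_type]
      have e : (∑ x, D (Sum.inr i) (Sum.inl x) * w (Sum.inl x) +
          ∑ x, D (Sum.inr i) (Sum.inr x) * w (Sum.inr x)) - ((∑ x, S true i x * z x : ℤ) : ℚ_[3])
          = ∑ x, (D (Sum.inr i) (Sum.inl x) * w (Sum.inl x) - (S true i x * z x : ℤ)) +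
            ∑ x, D (Sum.inr i) (Sum.inr x) * w (Sum.inr x) := by
        rw [Finset.sum_sub_distrib, Int.cast_sum]
        ring
      rw [e]
      refine norm_add_le (norm_sum_le _ _ (by norm_num) fun j _ => ?_)
        (norm_sum_le _ _ (by norm_num) fun j _ => ?_)
      · exact norm_sub_mul (by norm_num) (hD.qp i j) (h1 j)
      · exact mul_le_third (hD.qq i j) (h2 j)
  | false =>
    simp only [Lead, Bool.false_eq_true, if_false] at hw
    obtain ⟨h1, h2⟩ := hw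
    refine ⟨3, h3, ?_⟩
    simp only [Lead, Bool.not_false, if_true]
    constructor
    · intro i
      simp only [Pi.smul_apply, smul_eq_mul, Matrix.mulVec, dotProduct, Fintype.sum_sum_type]
      have e : 3 * (∑ x, D (Sum.inl i) (Sum.inl x) * w (Sum.inl x) +
          ∑ x, D (Sum.inl i) (Sum.inr x) * w (Sum.inr x)) - ((∑ x, S false i x * z x : ℤ) : ℚ_[3])
          = ∑ x, (D (Sum.inl i) (Sum.inl x) * w (Sum.inl x)) * 3 +
            ∑ x, ((3 * D (Sum.inl i) (Sum.inr x)) * w (Sum.inr x) - (S false i x * z x : ℤ)) := by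
        rw [Finset.sum_sub_distrib, Int.cast_sum, mul_add, Finset.mul_sum, Finset.mul_sum]
        simp only [mul_assoc, mul_comm (3 : ℚ_[3])]
        ring
      rw [e]
      refine norm_add_le (norm_sum_le _ _ (by norm_num) fun j _ => ?_)
        (norm_sum_le _ _ (by norm_num) fun j _ => ?_)
      · exact mul_le_third (mul_le_one' (hD.pp i j) (h1 j)) norm_three.le
      · exact norm_sub_mul (by norm_num) (hD.pq i j) (h2 j)
    · intro i
      simp only [Pi.smul_apply, smul_eq_mul, Matrix.mulVec, dotProduct, Fintype.sum_sum_type]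
      rw [mul_comm]
      refine mul_le_third (norm_add_le (norm_sum_le _ _ zero_le_one fun j _ => ?_)
        (norm_sum_le _ _ zero_le_one fun j _ => ?_)) norm_three.le
      · exact mul_le_one' (norm_le_one_of_sub (hD.qp i j)) (h1 j)
      · exact mul_le_one' (hD.qq i j) (norm_le_one_of_sub (h2 j))

/-- The leading vectors of the `D ^ k w`. -/
def cs (S : Bool → Matrix (Fin 6) (Fin 6) ℤ) (b : Bool) (z : Fin 6 → ℤ) : ℕ → Fin 6 → ℤ
  | 0 => z
  | k + 1 => S (if Even k then b else !b) *ᵥ cs S b z k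

theorem Lead.iter {S : Bool → Matrix (Fin 6) (Fin 6) ℤ}
    {D : Matrix (Fin 6 ⊕ Fin 6) (Fin 6 ⊕ Fin 6) ℚ_[3]} (hD : Near S D) {b : Bool} {w : V12}
    {z : Fin 6 → ℤ} (hw : Lead b w z) (k : ℕ) :
    ∃ a : ℚ_[3], a ≠ 0 ∧ Lead (if Even k then b else !b) (a • (D ^ k *ᵥ w)) (cs S b z k) := by
  induction k with
  | zero => exact ⟨1, one_ne_zero, by simpa [cs] using hw⟩
  | succ k ih =>
    obtain ⟨a, ha, h1⟩ := ih
    obtain ⟨a', ha', h2⟩ := h1.step hD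
    refine ⟨a' * a, mul_ne_zero ha' ha, ?_⟩
    have e1 : a' • (D *ᵥ (a • (D ^ k *ᵥ w))) = (a' * a) • (D ^ (k + 1) *ᵥ w) := by
      rw [Matrix.mulVec_smul, smul_smul, Matrix.mulVec_mulVec, ← pow_succ']
    rw [e1] at h2
    have e2 : (!(if Even k then b else !b)) = if Even (k + 1) then b else !b := by
      by_cases hk : Even k
      · rw [if_pos hk, if_neg (by rw [Nat.even_add_one]; exact fun h => h hk)]
      · rw [if_neg hk, if_pos (by rw [Nat.even_add_one]; exact hk), Bool.not_not]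
    rw [e2] at h2
    exact h2

/-- The pairing of two vectors of different types. -/
theorem Lead.pair {b : Bool} {v w : V12} {z z' : Fin 6 → ℤ} (hv : Lead b v z)
    (hw : Lead (!b) w z') : ‖v ⬝ᵥ (J (Fin 6) ℚ_[3] *ᵥ w) + (if b then 1 else -1) *
      ((z ⬝ᵥ z' : ℤ) : ℚ_[3])‖ ≤ 3⁻¹ := by
  have hJ : v ⬝ᵥ (J (Fin 6) ℚ_[3] *ᵥ w) =
      ∑ i, (v (Sum.inr i) * w (Sum.inl i) - v (Sum.inl i) * w (Sum.inr i)) := by
    have h1 : ∀ i, (J (Fin 6) ℚ_[3] *ᵥ w) (Sum.inl i) = - w (Sum.inr i) := by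
      intro i
      simp [J, Matrix.mulVec, dotProduct, Fintype.sum_sum_type, Matrix.one_apply]
    have h2 : ∀ i, (J (Fin 6) ℚ_[3] *ᵥ w) (Sum.inr i) = w (Sum.inl i) := by
      intro i
      simp [J, Matrix.mulVec, dotProduct, Fintype.sum_sum_type, Matrix.one_apply]
    rw [dotProduct, Fintype.sum_sum_type]
    simp only [h1, h2]
    rw [← Finset.sum_add_distrib]
    exact Finset.sum_congr rfl fun i _ => by ring
  rw [hJ, dotProduct, Int.cast_sum, Finset.mul_sum, ← Finset.sum_add_distrib]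
  refine norm_sum_le _ _ (by norm_num) fun i _ => ?_
  cases b with
  | true =>
    simp only [Lead, if_true, Bool.not_true, Bool.false_eq_true, if_false] at hv hw
    obtain ⟨h1, h2⟩ := hv
    obtain ⟨h3, h4⟩ := hw
    have e : v (Sum.inr i) * w (Sum.inl i) - v (Sum.inl i) * w (Sum.inr i) +
        (if true = true then 1 else -1) * ((z i * z' i : ℤ) : ℚ_[3])
        = w (Sum.inl i) * v (Sum.inr i) +
          -(v (Sum.inl i) * w (Sum.inr i) - ((z i * z' i : ℤ) : ℚ_[3])) := by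
      rw [if_pos rfl]; ring
    rw [e]
    refine norm_add_le (mul_le_third (h3 i) (h2 i)) ?_
    rw [norm_neg]
    exact norm_sub_mul (by norm_num) (h1 i) (h4 i)
  | false =>
    simp only [Lead, if_true, Bool.not_false, Bool.false_eq_true, if_false] at hv hw
    obtain ⟨h1, h2⟩ := hv
    obtain ⟨h3, h4⟩ := hw
    have e : v (Sum.inr i) * w (Sum.inl i) - v (Sum.inl i) * w (Sum.inr i) +
        (if false = true then 1 else -1) * ((z i * z' i : ℤ) : ℚ_[3])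
        = (v (Sum.inr i) * w (Sum.inl i) - ((z i * z' i : ℤ) : ℚ_[3])) +
          -(v (Sum.inl i) * w (Sum.inr i)) := by
      rw [if_neg (by simp)]; ring
    rw [e]
    refine norm_add_le (norm_sub_mul (by norm_num) (h2 i) (h3 i)) ?_
    rw [norm_neg]
    exact mul_le_third (h1 i) (h4 i)

theorem Lead.dvd {b : Bool} {v w : V12} {z z' : Fin 6 → ℤ} (hv : Lead b v z)
    (hw : Lead (!b) w z') (h : v ⬝ᵥ (J (Fin 6) ℚ_[3] *ᵥ w) = 0) : (3 : ℤ) ∣ z ⬝ᵥ z' := by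
  have h1 := hv.pair hw
  rw [h, zero_add, norm_mul] at h1
  have h2 : ‖(if b = true then 1 else -1 : ℚ_[3])‖ = 1 := by
    split_ifs <;> simp
  rw [h2, one_mul] at h1
  have h3 := (Padic.norm_int_le_pow_iff_dvd (p := 3) (z ⬝ᵥ z') 1).1 (by
    simpa using h1)
  simpa using h3

theorem le_third_of_lt_one {x : ℚ_[3]} (hx : ‖x‖ < 1) : ‖x‖ ≤ 3⁻¹ := by
  have h := (Padic.norm_lt_pow_iff_norm_le_pow_sub_one (p := 3) x 0).1 (by simpa using hx)
  simpa using h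

theorem exists_int (x : ℚ_[3]) (hx : ‖x‖ ≤ 1) : ∃ n : ℤ, ‖x - n‖ ≤ 3⁻¹ := by
  obtain ⟨y, rfl⟩ : ∃ y : ℤ_[3], (y : ℚ_[3]) = x := ⟨⟨x, hx⟩, rfl⟩
  obtain ⟨n, hn, h⟩ := PadicInt.exists_mem_range (p := 3) y
  refine ⟨n, le_third_of_lt_one ?_⟩
  have h1 : ‖(y - (n : ℤ_[3]) : ℤ_[3])‖ < 1 :=
    PadicInt.mem_nonunits.1 ((IsLocalRing.mem_maximalIdeal _).1 h)
  have h3 : ((y - (n : ℤ_[3]) : ℤ_[3]) : ℚ_[3]) = (y : ℚ_[3]) - ((n : ℤ) : ℚ_[3]) := by
    push_cast; rfl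
  rw [← h3]
  exact h1

/-- Every nonzero vector has a leading vector, after scaling. -/
theorem exists_lead (w : V12) (hw : w ≠ 0) :
    ∃ a : ℚ_[3], a ≠ 0 ∧ ∃ (b : Bool) (z : Fin 6 → ℤ), Lead b (a • w) z ∧ ∃ i, ¬ (3 : ℤ) ∣ z i := by
  have h3 : (3 : ℚ_[3]) ≠ 0 := by
    rw [← norm_ne_zero_iff, norm_three]; norm_num
  obtain ⟨i₀, hi₀⟩ := Finite.exists_max fun i => ‖w i‖
  have hi1 : w i₀ ≠ 0 := by
    intro h0
    apply hw
    funext i
    have := hi₀ i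
    rw [h0, norm_zero] at this
    exact norm_le_zero_iff.1 this
  obtain ⟨a, ha0, ha⟩ : ∃ a : ℚ_[3], a ≠ 0 ∧ ‖a‖ * ‖w i₀‖ = 1 :=
    ⟨(w i₀)⁻¹, inv_ne_zero hi1, by rw [norm_inv, inv_mul_cancel₀ (norm_ne_zero_iff.2 hi1)]⟩
  have hle : ∀ i, ‖(a • w) i‖ ≤ 1 := by
    intro i
    rw [Pi.smul_apply, smul_eq_mul, norm_mul, ← ha]
    exact mul_le_mul_of_nonneg_left (hi₀ i) (norm_nonneg _)
  have hmax : ‖(a • w) i₀‖ = 1 := by
    rw [Pi.smul_apply, smul_eq_mul, norm_mul, ha]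
  choose n hn using fun i => exists_int ((a • w) i) (hle i)
  have key : ∀ i, ‖(a • w) i‖ = 1 → ¬ (3 : ℤ) ∣ n i := by
    intro i hi hd
    have h1 : ‖((n i : ℤ) : ℚ_[3])‖ ≤ 3⁻¹ := by
      have := (Padic.norm_int_le_pow_iff_dvd (p := 3) (n i) 1).2 (by simpa using hd)
      simpa using this
    have h2 : ‖(a • w) i‖ ≤ 3⁻¹ := by
      have e : (a • w) i = ((a • w) i - n i) + n i := by ring
      rw [e]
      exact norm_add_le (hn i) h1
    rw [hi] at h2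
    norm_num at h2
  refine ⟨a, ha0, ?_⟩
  by_cases hq : ∃ i, ‖(a • w) (Sum.inr i)‖ = 1
  · obtain ⟨i, hi⟩ := hq
    refine ⟨false, fun i => n (Sum.inr i), ?_, i, key _ hi⟩
    simp only [Lead, Bool.false_eq_true, if_false]
    exact ⟨fun i => hle _, fun i => hn _⟩
  · push Not at hq
    have hlt : ∀ i, ‖(a • w) (Sum.inr i)‖ ≤ 3⁻¹ := fun i =>
      le_third_of_lt_one (lt_of_le_of_ne (hle _) (hq i))
    refine ⟨true, fun i => n (Sum.inl i), ?_, ?_⟩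
    · simp only [Lead, if_true]
      exact ⟨fun i => hn _, hlt⟩
    · rcases i₀ with i | i
      · exact ⟨i, key _ hmax⟩
      · exact absurd hmax (hq i)

end Pool.Agent.FC.LeadL
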