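import Pool.Agent.FC.Base
import Pool.Agent.FC.LeadA

/-!
fc_h91.md (2e).  L_0 = Z_3^12, L_1 = Z_3^6 + 3 Z_3^6, L_{i+2} = 3 L_i; w in L_i minus L_{i+1}; for i even the leading
vector is the reduction of the scaled Q-part (par = false), for i odd the reduction of the scaled P-part (par = true);
3Y maps L_i to L_{i-1} and induces S1 (P to Q) resp. S2 (Q to P).  symp of a P-type and a Q-type vector reduces to +- dot product.
-/

open RestrictedProduct Matrix MeasureTheory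

noncomputable section

namespace Pool.Agent.FC

namespace LeadL

/-- the two integral forms -/
def SS (b : Bool) : Matrix (Fin 6) (Fin 6) ℤ := if b then S1 else S2

theorem map_SS (b : Bool) : (SS b).map (Int.castRingHom (ZMod 3)) = Sof b := by
  cases b <;> rfl

/-- reduction of an integral vector -/
def rd (z : Fin 6 → ℤ) : Fin 6 → ZMod 3 := Int.castRingHom (ZMod 3) ∘ z

theorem rd_cs (b : Bool) (z : Fin 6 → ℤ) (k : ℕ) :
    rd (cs SS b z k) = chn (Sof b) (Sof (!b)) (rd z) k := by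
  induction k with
  | zero => rfl
  | succ k ih =>
    rw [chn, ← ih]
    have e : (if Even k then Sof b else Sof (!b)) = Sof (if Even k then b else !b) := by
      split_ifs <;> rfl
    rw [e, ← map_SS]
    funext i
    exact RingHom.map_mulVec (Int.castRingHom (ZMod 3)) _ _ i

theorem rd_dot {z z' : Fin 6 → ℤ} (h : (3 : ℤ) ∣ z ⬝ᵥ z') : rd z ⬝ᵥ rd z' = 0 := by
  have h1 := RingHom.map_dotProduct (Int.castRingHom (ZMod 3)) z z'
  rw [rd, rd, ← h1]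
  exact (ZMod.intCast_zmod_eq_zero_iff_dvd _ 3).2 (by exact_mod_cast h)

theorem rd_ne_zero {z : Fin 6 → ℤ} (h : ∃ i, ¬ (3 : ℤ) ∣ z i) : rd z ≠ 0 := by
  obtain ⟨i, hi⟩ := h
  intro h0
  apply hi
  have := congrFun h0 i
  exact_mod_cast (ZMod.intCast_zmod_eq_zero_iff_dvd _ 3).1 this

theorem symp_smul_smul {K : Type*} [Field K] {n : ℕ} (a a' : K) (v w : Fin n ⊕ Fin n → K) :
    symp (a • v) (a' • w) = a * a' * symp v w := by
  rw [symp, symp, Matrix.mulVec_smul, smul_dotProduct, dotProduct_smul, smul_eq_mul, smul_eq_mul,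
    mul_assoc]

theorem pairk [Fact (Nat.Prime 3)] {D : Matrix (Fin 6 ⊕ Fin 6) (Fin 6 ⊕ Fin 6) ℚ_[3]}
    (hD : Near SS D) {b b' : Bool} {v w : V12} {z s : Fin 6 → ℤ} (hw : Lead b w z)
    (hv : Lead b' v s) (k : ℕ) (hb : (if Even k then b else !b) = !b')
    (h : symp v (D ^ k *ᵥ w) = 0) :
    rd s ⬝ᵥ chn (Sof b) (Sof (!b)) (rd z) k = 0 := by
  obtain ⟨a, ha, h1⟩ := hw.iter hD k
  rw [hb] at h1
  rw [← rd_cs]
  refine rd_dot (hv.dvd h1 ?_)
  have h2 : symp v (a • (D ^ k *ᵥ w)) = 0 := by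
    have := symp_smul_smul 1 a v (D ^ k *ᵥ w)
    rw [one_smul] at this
    rw [this, h, mul_zero]
  exact h2

/-- `3 Y` is near to `3 X`. -/
theorem near_of_nearX {Y : Mat 6 ℚ_[(p3 : ℕ)]} (hY : NearX Y) :
    Near SS ((3 : ℚ_[(p3 : ℕ)]) • Y) := by
  obtain ⟨h1, h2, h3, h4⟩ := hY
  have n3 : ‖(3 : ℚ_[(p3 : ℕ)])‖ = 3⁻¹ := norm_three
  have h30 : (3 : ℚ_[(p3 : ℕ)]) ≠ 0 := by
    rw [← norm_ne_zero_iff, n3]; norm_num
  refine ⟨fun i j => ?_, fun i j => ?_, fun i j => ?_, fun i j => ?_⟩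
  · rw [Matrix.smul_apply, smul_eq_mul, norm_mul, n3]
    have := h3 i j
    linarith
  · rw [Matrix.smul_apply, smul_eq_mul, norm_mul, n3]
    have := h4 i j
    linarith
  · have e : 3 * ((3 : ℚ_[(p3 : ℕ)]) • Y) (Sum.inl i) (Sum.inr j) - SS false i j
        = 9 * (Y (Sum.inl i) (Sum.inr j) - X3 (Sum.inl i) (Sum.inr j)) := by
      have e1 : X3 (Sum.inl i) (Sum.inr j) = (1 / 9 : ℚ_[(p3 : ℕ)]) * (S2 i j : ℤ) := by
        simp [X3, Xq, red]
      rw [e1, Matrix.smul_apply, smul_eq_mul]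
      simp only [SS, Bool.false_eq_true, if_false]
      have h9 : (9 : ℚ_[(p3 : ℕ)]) ≠ 0 := by
        have : (9 : ℚ_[(p3 : ℕ)]) = 3 * 3 := by norm_num
        rw [this]
        exact mul_ne_zero h30 h30
      field_simp
      ring
    rw [e, norm_mul]
    have e2 : ‖(9 : ℚ_[(p3 : ℕ)])‖ = 9⁻¹ := by
      have : (9 : ℚ_[(p3 : ℕ)]) = 3 * 3 := by norm_num
      rw [this, norm_mul, n3]; norm_num
    rw [e2]
    have := h2 i j
    linarith
  · have e : ((3 : ℚ_[(p3 : ℕ)]) • Y) (Sum.inr i) (Sum.inl j) - SS true i j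
        = 3 * (Y (Sum.inr i) (Sum.inl j) - X3 (Sum.inr i) (Sum.inl j)) := by
      have e1 : X3 (Sum.inr i) (Sum.inl j) = (1 / 3 : ℚ_[(p3 : ℕ)]) * (S1 i j : ℤ) := by
        simp [X3, Xq, red]
      rw [e1, Matrix.smul_apply, smul_eq_mul]
      simp only [SS, if_true]
      field_simp
    rw [e, norm_mul, n3]
    have := h1 i j
    linarith

theorem smul_pow_mulVec {K : Type*} [Field K] {n : ℕ} (c : K) (Y : Mat n K) (k : ℕ)
    (w : Fin n ⊕ Fin n → K) : (c • Y) ^ k *ᵥ w = c ^ k • (Y ^ k *ᵥ w) := by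
  rw [smul_pow, Matrix.smul_mulVec]

end LeadL

open LeadL in
/-- Leading vectors. -/
theorem lead (Y : Mat 6 ℚ_[(p3 : ℕ)]) (hY : NearX Y) :
    ∃ (par : (Fin 6 ⊕ Fin 6 → ℚ_[(p3 : ℕ)]) → Bool)
      (ld : (Fin 6 ⊕ Fin 6 → ℚ_[(p3 : ℕ)]) → (Fin 6 → ZMod 3)),
      (∀ w, w ≠ 0 → ld w ≠ 0) ∧
      ∀ v w, v ≠ 0 → w ≠ 0 → ∀ k : ℕ, (par v = par w ↔ Odd k) →
        symp v ((Y ^ k) *ᵥ w) = 0 →
        ld v ⬝ᵥ chn (Sof (par w)) (Sof !(par w)) (ld w) k = 0 := by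
  classical
  have hD := near_of_nearX hY
  have hex : ∀ w : Fin 6 ⊕ Fin 6 → ℚ_[(p3 : ℕ)], ∃ (a : ℚ_[(p3 : ℕ)]) (b : Bool) (z : Fin 6 → ℤ),
      w ≠ 0 → a ≠ 0 ∧ Lead b (a • w) z ∧ ∃ i, ¬ (3 : ℤ) ∣ z i := by
    intro w
    by_cases hw : w = 0
    · exact ⟨1, true, 0, fun h => absurd hw h⟩
    · obtain ⟨a, ha, b, z, h1, h2⟩ := exists_lead w hw
      exact ⟨a, b, z, fun _ => ⟨ha, h1, h2⟩⟩
  choose a b z h using hex
  refine ⟨b, fun w => rd (z w), fun w hw => rd_ne_zero (h w hw).2.2, ?_⟩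
  intro v w hv hw k hk hs
  obtain ⟨-, hv1, -⟩ := h v hv
  obtain ⟨-, hw1, -⟩ := h w hw
  refine pairk hD hw1 hv1 k ?_ ?_
  · by_cases hk' : Odd k
    · rw [if_neg (Nat.not_even_iff_odd.2 hk'), hk.2 hk']
    · rw [if_pos (Nat.not_odd_iff_even.1 hk')]
      have h1 : b v ≠ b w := fun h0 => hk' (hk.1 h0)
      revert h1
      cases b v <;> cases b w <;> simp
  · rw [Matrix.mulVec_smul, symp_smul_smul, smul_pow_mulVec]
    have h2 := symp_smul_smul 1 ((3 : ℚ_[(p3 : ℕ)]) ^ k) v (Y ^ k *ᵥ w)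
    rw [one_smul] at h2
    rw [h2, hs, mul_zero, mul_zero]

end Pool.Agent.FC
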