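import Pool.Agent.FC.Defs

/-!
# Symplectic partitions of 12 above `[8,2,2]` and `[6,6]`
-/

namespace Pool.Agent.FC.Part

open Pool.Agent.FC

theorem isSymplectic_822 : IsSymplectic part822 := by
  intro i hi
  have : i ≠ 8 ∧ i ≠ 2 := by
    constructor <;> (rintro rfl; revert hi; decide)
  have h : part822.parts.count i = 0 := by
    rw [Multiset.count_eq_zero]
    simp [part822, this.1, this.2]
  rw [h]; exact ⟨0, rfl⟩

theorem isSymplectic_66 : IsSymplectic part66 := by
  intro i hi
  have : i ≠ 6 := by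
    rintro rfl; revert hi; decide
  have h : part66.parts.count i = 0 := by
    rw [Multiset.count_eq_zero]
    simp [part66, this]
  rw [h]; exact ⟨0, rfl⟩

theorem sort_of (s : Multiset ℕ) (l : List ℕ) (h : (l : Multiset ℕ) = s)
    (hl : l.Pairwise (· ≥ ·)) : s.sort (· ≥ ·) = l := by
  refine List.Perm.eq_of_pairwise (le := fun a b : ℕ => a ≥ b) ?_
    (Multiset.pairwise_sort s _) hl ?_
  · intro a b _ _ h1 h2
    exact le_antisymm h2 h1
  · rw [← Multiset.coe_eq_coe, Multiset.sort_eq, h]

theorem sort_822 : part822.parts.sort (· ≥ ·) = [8, 2, 2] :=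
  sort_of _ _ rfl (by decide)

theorem sort_66 : part66.parts.sort (· ≥ ·) = [6, 6] :=
  sort_of _ _ rfl (by decide)

/-- list form: parts of a partition of 12 in decreasing order -/
theorem exists_list (p : Nat.Partition (2 * 6)) :
    ∃ l : List ℕ, (l : Multiset ℕ) = p.parts ∧ l.Pairwise (· ≥ ·) ∧ (∀ i ∈ l, 0 < i) ∧
      l.sum = 12 ∧ (∀ k, topSum p k = (l.take k).sum) := by
  refine ⟨p.parts.sort (· ≥ ·), Multiset.sort_eq _ _, Multiset.pairwise_sort _ _, ?_, ?_, ?_⟩
  · intro i hi
    rw [Multiset.mem_sort] at hi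
    exact p.parts_pos hi
  · have h1 : ((p.parts.sort (· ≥ ·) : List ℕ) : Multiset ℕ).sum = 12 := by
      rw [Multiset.sort_eq, p.parts_sum]
    rwa [Multiset.sum_coe] at h1
  · intro k; rfl

theorem count_list {p : Nat.Partition (2 * 6)} (hs : IsSymplectic p) {l : List ℕ}
    (hl : (l : Multiset ℕ) = p.parts) (i : ℕ) (hi : Odd i) : Even (l.count i) := by
  have := hs i hi
  rwa [← hl, Multiset.coe_count] at this

theorem above822 (p : Nat.Partition (2 * 6)) (hs : IsSymplectic p) (hd : DomLE part822 p)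
    (hne : p ≠ part822) : (∃ i ∈ p.parts, 10 ≤ i) ∨ p.parts = {8, 4} := by
  obtain ⟨l, hl, hpw, hpos, hsum, htop⟩ := exists_list p
  have h1 := hd 1
  have h2 := hd 2
  have h3 := hd 3
  rw [htop] at h1 h2 h3
  simp only [topSum, sort_822] at h1 h2 h3
  have hodd := fun i hi => count_list hs hl i hi
  rcases l with _ | ⟨a, l⟩
  · simp at hsum
  rcases Nat.lt_or_ge a 10 with ha | ha
  swap
  · left; exact ⟨a, by rw [← hl]; simp, ha⟩
  right
  simp only [List.take_succ_cons, List.take_zero, List.sum_cons, List.sum_nil] at h1 h2 h3 hsum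
  have hpw1 : ∀ b ∈ l, b ≤ a := by
    intro b hb
    exact (List.pairwise_cons.1 hpw).1 b hb
  have hsl : l.sum = 12 - a := by omega
  have hle : ∀ b ∈ l, b ≤ l.sum := fun b hb => List.single_le_sum (by simp) b hb
  have ha9 : a ≠ 9 := by
    rintro rfl
    have h9 := hodd 9 (by decide)
    rw [List.count_cons_self] at h9
    have : 9 ∈ l := by
      by_contra hcon
      rw [List.count_eq_zero_of_not_mem hcon] at h9
      exact absurd h9 (by decide)
    have := hle 9 this
    omega
  have ha8 : a = 8 := by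
    omega
  subst ha8
  rcases l with _ | ⟨b, l⟩
  · simp at hsl
  simp only [List.take_succ_cons, List.take_zero, List.sum_cons, List.sum_nil] at h2 h3 hsl
  have hb2 : 2 ≤ b := by omega
  have hb4 : b ≤ 4 := by omega
  have hsl' : l.sum = 4 - b := by omega
  have hpos' : ∀ i ∈ l, 0 < i := fun i hi => hpos i (by simp [hi])
  rcases l with _ | ⟨c, l⟩
  · have : b = 4 := by simp at hsl; omega
    subst this
    rw [← hl]; rfl
  · have hc : 0 < c := hpos' c (by simp)
    simp only [List.take_succ_cons, List.take_zero, List.sum_cons, List.sum_nil] at h3 hsl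
    have hl0 : l = [] := by
      rcases l with _ | ⟨d, l⟩
      · rfl
      · have hd0 : 0 < d := hpos' d (by simp)
        simp only [List.sum_cons] at hsl
        omega
    subst hl0
    simp only [List.sum_nil] at hsl
    have hcb : c ≤ b := by
      have := (List.pairwise_cons.1 (List.pairwise_cons.1 hpw).2).1 c (by simp)
      exact this
    have : (b = 3 ∧ c = 1) ∨ (b = 2 ∧ c = 2) := by omega
    rcases this with ⟨rfl, rfl⟩ | ⟨rfl, rfl⟩
    · have := hodd 1 (by decide)
      exact absurd this (by decide)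
    · exfalso
      apply hne
      apply Nat.Partition.ext
      rw [← hl]; rfl

theorem above66 (p : Nat.Partition (2 * 6)) (hs : IsSymplectic p) (hd : DomLE part66 p)
    (hne : p ≠ part66) : (∃ i ∈ p.parts, 10 ≤ i) ∨ p.parts = {8, 4} := by
  obtain ⟨l, hl, hpw, hpos, hsum, htop⟩ := exists_list p
  have h1 := hd 1
  have h2 := hd 2
  rw [htop] at h1 h2
  simp only [topSum, sort_66] at h1 h2
  have hodd := fun i hi => count_list hs hl i hi
  rcases l with _ | ⟨a, l⟩
  · simp at hsum
  rcases Nat.lt_or_ge a 10 with ha | ha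
  swap
  · left; exact ⟨a, by rw [← hl]; simp, ha⟩
  right
  rcases l with _ | ⟨b, l⟩
  · simp at hsum; omega
  simp only [List.take_succ_cons, List.take_zero, List.sum_cons, List.sum_nil] at h1 h2 hsum
  have hpos' : ∀ i ∈ l, 0 < i := fun i hi => hpos i (by simp [hi])
  have hl0 : l = [] := by
    rcases l with _ | ⟨d, l⟩
    · rfl
    · have hd0 : 0 < d := hpos' d (by simp)
      simp only [List.sum_cons] at hsum
      omega
  subst hl0
  simp only [List.sum_nil] at hsum
  have : (a = 6 ∧ b = 6) ∨ (a = 7 ∧ b = 5) ∨ (a = 8 ∧ b = 4) ∨ (a = 9 ∧ b = 3) := by omega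
  rcases this with ⟨rfl, rfl⟩ | ⟨rfl, rfl⟩ | ⟨rfl, rfl⟩ | ⟨rfl, rfl⟩
  · exfalso
    apply hne
    apply Nat.Partition.ext
    rw [← hl]; rfl
  · exact absurd (hodd 5 (by decide)) (by decide)
  · rw [← hl]; rfl
  · exact absurd (hodd 3 (by decide)) (by decide)

/-- a part `≥ 10` forces `f ^ 9 ≠ 0` -/
theorem pow_nine_ne_zero {f : Mat 6 ℚ} {p : Nat.Partition (2 * 6)} (hf : HasJordanType f p)
    (hp : ∃ i ∈ p.parts, 10 ≤ i) : f ^ 9 ≠ 0 := by
  obtain ⟨i, hi, h10⟩ := hp
  intro h0
  have h := hf 9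
  rw [h0, Matrix.rank_zero] at h
  have h2 : i - 9 ≤ (p.parts.map (fun i => i - 9)).sum :=
    Multiset.single_le_sum (by simp) _ (Multiset.mem_map_of_mem _ hi)
  omega

/-- the ranks in Jordan type `[8,4]` -/
theorem rank_84 {f : Mat 6 ℚ} {p : Nat.Partition (2 * 6)} (hf : HasJordanType f p)
    (hp : p.parts = {8, 4}) (k : ℕ) : (f ^ k).rank = (8 - k) + (4 - k) := by
  rw [hf k, hp]
  simp [Multiset.insert_eq_cons]

end Pool.Agent.FC.Part
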