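import Pool.Agent.FC.Defs
import Pool.Agent.FC.Part

/-!
Partitions of 12 (combinatorics).
-/

open RestrictedProduct Matrix MeasureTheory

noncomputable section

namespace Pool.Agent.FC

theorem symp822 : IsSymplectic part822 := Part.isSymplectic_822

theorem symp66 : IsSymplectic part66 := Part.isSymplectic_66

/-- The symplectic partitions above `[8,2,2]` or `[6,6]`. -/
theorem part_above (p : Nat.Partition (2 * 6)) (hs : IsSymplectic p)
    (hp : (DomLE part822 p ∧ p ≠ part822) ∨ (DomLE part66 p ∧ p ≠ part66)) :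
    (∃ i ∈ p.parts, 10 ≤ i) ∨ p.parts = {8, 4} := by
  rcases hp with ⟨h1, h2⟩ | ⟨h1, h2⟩
  · exact Part.above822 p hs h1 h2
  · exact Part.above66 p hs h1 h2

theorem jordan_big {f : Mat 6 ℚ} {p : Nat.Partition (2 * 6)} (h : HasJordanType f p)
    (hp : ∃ i ∈ p.parts, 10 ≤ i) : f ^ 9 ≠ 0 :=
  Part.pow_nine_ne_zero h hp

theorem jordan_84 {f : Mat 6 ℚ} {p : Nat.Partition (2 * 6)} (h : HasJordanType f p)
    (hp : p.parts = {8, 4}) :
    f.rank = 10 ∧ (f ^ 2).rank = 8 ∧ (f ^ 3).rank = 6 ∧ (f ^ 4).rank = 4 ∧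
      (f ^ 5).rank = 3 ∧ (f ^ 6).rank = 2 ∧ (f ^ 7).rank = 1 ∧ f ^ 8 = 0 := by
  have hk := Part.rank_84 h hp
  refine ⟨?_, hk 2, hk 3, hk 4, hk 5, hk 6, hk 7, ?_⟩
  · have := hk 1
    rwa [pow_one] at this
  · have h8 : (f ^ 8).rank = 0 := hk 8
    rw [Matrix.rank, Submodule.finrank_eq_zero, LinearMap.range_eq_bot] at h8
    ext i j
    have h9 := congrFun (LinearMap.congr_fun h8 (Pi.single j 1)) i
    simpa [Matrix.mulVecLin_apply] using h9

end Pool.Agent.FC
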