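import Pool.Agent.FC.Base
import Pool.Agent.FC.CharClass

/-!
Normalisation of psi: the classification of the continuous characters of the adeles trivial on the
rationals (CharClass) and the scaling of triples.
-/

open RestrictedProduct Matrix MeasureTheory

noncomputable section

namespace Pool.Agent.FC

namespace StdPsi

/-- the standard character as an additive character -/
def psiS : AddChar Adele Circle where
  toFun := psiStd
  map_zero_eq_one' := psiStd_zero
  map_add_eq_mul' := psiStd_add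

theorem psiS_apply (x : Adele) : psiS x = psiStd x := rfl

/-- rescaled triple -/
def scale {n : ℕ} (T : Triple n) (a : ℚ) (ha : a ≠ 0) : Triple n where
  e := a⁻¹ • T.e
  h := T.h
  f := a • T.f
  e_mem := by
    have h := T.e_mem
    rw [Matrix.smul_mul, Matrix.transpose_smul, Matrix.mul_smul, ← smul_add, h, smul_zero]
  h_mem := T.h_mem
  f_mem := by
    have h := T.f_mem
    rw [Matrix.smul_mul, Matrix.transpose_smul, Matrix.mul_smul, ← smul_add, h, smul_zero]
  he := by
    have h := T.he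
    rw [Matrix.mul_smul, Matrix.smul_mul, ← smul_sub, h, smul_comm]
  hf := by
    have h := T.hf
    rw [Matrix.mul_smul, Matrix.smul_mul, ← smul_sub, h, smul_neg, smul_comm]
  ef := by
    have h := T.ef
    rw [Matrix.smul_mul, Matrix.mul_smul, Matrix.smul_mul, Matrix.mul_smul, smul_smul, smul_smul,
      inv_mul_cancel₀ ha, mul_inv_cancel₀ ha, one_smul, one_smul, h]

theorem char_scale {n : ℕ} (T : Triple n) (a : ℚ) (ha : a ≠ 0) (ψ ψ' : AddChar Adele Circle)
    (hψ : ∀ x, ψ x = ψ' (ratAdele a * x)) (v : GA n) :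
    (scale T a ha).char ψ' v = T.char ψ v := by
  unfold Triple.char
  rw [hψ]
  congr 2
  have h1 : (scale T a ha).f.map ratAdele = ratAdele a • T.f.map ratAdele := by
    funext i j
    change ratAdele (a * T.f i j) = ratAdele a * ratAdele (T.f i j)
    rw [map_mul]
  rw [h1, Matrix.smul_mul, Matrix.trace_smul, smul_eq_mul]

theorem coeff_scale {n : ℕ} (T : Triple n) (a : ℚ) (ha : a ≠ 0) (ψ ψ' : AddChar Adele Circle)
    (hψ : ∀ x, ψ x = ψ' (ratAdele a * x)) (ρ : Measure (T.VA ⧸ T.VQ))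
    (F : AutQuot n → ℂ) (g : GA n) :
    (scale T a ha).coeff ψ' ρ F g = T.coeff ψ ρ F g := by
  unfold Triple.coeff
  refine integral_congr_ae (Filter.Eventually.of_forall fun x => ?_)
  change _ * (scale T a ha).char ψ' _ = _ * T.char ψ _
  rw [char_scale T a ha ψ ψ' hψ]
  rfl

theorem jordan_smul {n : ℕ} {f : Mat n ℚ} {p : Nat.Partition (2 * n)}
    (h : HasJordanType f p) (a : ℚ) (ha : a ≠ 0) : HasJordanType (a • f) p := by
  intro k
  rw [← h k, smul_pow]
  have hu : IsUnit ((a ^ k) • (1 : Mat n ℚ)) := by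
    rw [isUnit_iff_exists_inv]
    refine ⟨(a ^ k)⁻¹ • 1, ?_⟩
    rw [Matrix.smul_mul, Matrix.one_mul, smul_smul, mul_inv_cancel₀ (pow_ne_zero k ha), one_smul]
  have h1 : (a ^ k) • f ^ k = ((a ^ k) • (1 : Mat n ℚ)) * f ^ k := by
    rw [Matrix.smul_mul, Matrix.one_mul]
  rw [h1]
  exact Matrix.rank_mul_eq_right_of_isUnit_det _ _ ((isUnit_iff_isUnit_det _).mp hu)

theorem hasCoeff_scale_aux {n : ℕ} (a : ℚ) (ha : a ≠ 0) (ψ ψ' : AddChar Adele Circle)
    (hψ : ∀ x, ψ x = ψ' (ratAdele a * x)) (μ : Measure (AutQuot n))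
    (H : Submodule ℂ (Lp ℂ 2 μ)) (p : Nat.Partition (2 * n)) (h : HasCoeff ψ μ H p) :
    HasCoeff ψ' μ H p := by
  obtain ⟨T, hT, ρ, h1, h2, h3, F, hF, g, hg⟩ := h
  refine ⟨scale T a ha, jordan_smul hT a ha, ρ, h1, h2, h3, F, hF, g, ?_⟩
  rwa [coeff_scale T a ha ψ ψ' hψ]


theorem isStd_psiS : IsStd psiS where
  cont := continuous_psiStd
  rat := psiStd_ratAdele
  int := fun z hz => by
    rw [psiS_apply, psiStd_of_mem_OF _ (show ((0 : ℝ), z).2 ∈ OF from hz)]
    have := eR_int 0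
    simpa using this
  real := fun x => by
    rw [psiS_apply, psiStd_of_mem_OF _ OF_zero, eR, Circle.coe_exp]
    congr 1
    push_cast
    ring

end StdPsi

open StdPsi

/-- every nontrivial character of `𝔸/ℚ` is standard after scaling by a rational number -/
theorem exists_std (ψ : AddChar Adele Circle) (hc : Continuous ψ)
    (hQ : ∀ q : ℚ, ψ (ratAdele q) = 1) (hne : ∃ x, ψ x ≠ 1) :
    ∃ c : ℚ, c ≠ 0 ∧ ∃ ψ' : AddChar Adele Circle, IsStd ψ' ∧ ∀ x, ψ x = ψ' (ratAdele c * x) := by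
  obtain ⟨a, ha⟩ := charClass ψ hc (fun x y => ψ.map_add_eq_mul x y) hQ
  refine ⟨a, ?_, psiS, isStd_psiS, ha⟩
  rintro rfl
  obtain ⟨x, hx⟩ := hne
  apply hx
  rw [ha, map_zero, zero_mul, psiStd_zero]

/-- the set of partitions with nonzero coefficient does not depend on the scaling -/
theorem hasCoeff_scale {n : ℕ} {ψ ψ' : AddChar Adele Circle} {c : ℚ} (hc : c ≠ 0)
    (h : ∀ x, ψ x = ψ' (ratAdele c * x)) (μ : Measure (AutQuot n)) (H : Submodule ℂ (Lp ℂ 2 μ))
    (p : Nat.Partition (2 * n)) : HasCoeff ψ μ H p ↔ HasCoeff ψ' μ H p := by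
  refine ⟨hasCoeff_scale_aux c hc ψ ψ' h μ H p,
    hasCoeff_scale_aux c⁻¹ (inv_ne_zero hc) ψ' ψ ?_ μ H p⟩
  intro x
  rw [h, ← mul_assoc, ← map_mul, mul_inv_cancel₀ hc, map_one, one_mul]

end Pool.Agent.FC
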