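import Pool.Agent.FC.TripA

/-!
# Powers of the second nilpotent matrix
-/

open Matrix

namespace Pool.Agent.FC.Trip

open Pool.Agent.FC

/-- the matrix of `f_2^1` -/
def F2p1 : Matrix (Fin 12) (Fin 12) ℚ :=
  !![0,0,0,0,0,0,0,0,0,0,0,-1/9; 0,0,0,0,0,0,0,0,0,0,0,0; 0,0,0,0,0,0,0,0,0,1/9,0,0; 0,0,0,0,0,0,0,0,1/9,0,0,0; 0,0,0,0,0,0,0,0,0,0,1/9,0; 0,0,0,0,0,0,-1/9,0,0,0,0,0; 0,0,0,0,0,0,0,0,0,0,0,0; 0,0,-1/3,0,0,0,0,0,0,0,0,0; 0,-1/3,0,0,0,0,0,0,0,0,0,0; 0,0,0,-1/3,0,0,0,0,0,0,0,0; 0,0,0,0,0,1/3,0,0,0,0,0,0; 0,0,0,0,1/3,0,0,0,0,0,0,0]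

/-- the matrix of `f_2^2` -/
def F2p2 : Matrix (Fin 12) (Fin 12) ℚ :=
  !![0,0,0,0,-1/27,0,0,0,0,0,0,0; 0,0,0,0,0,0,0,0,0,0,0,0; 0,0,0,-1/27,0,0,0,0,0,0,0,0; 0,-1/27,0,0,0,0,0,0,0,0,0,0; 0,0,0,0,0,1/27,0,0,0,0,0,0; 0,0,0,0,0,0,0,0,0,0,0,0; 0,0,0,0,0,0,0,0,0,0,0,0; 0,0,0,0,0,0,0,0,0,-1/27,0,0; 0,0,0,0,0,0,0,0,0,0,0,0; 0,0,0,0,0,0,0,0,-1/27,0,0,0; 0,0,0,0,0,0,-1/27,0,0,0,0,0; 0,0,0,0,0,0,0,0,0,0,1/27,0]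

/-- the matrix of `f_2^3` -/
def F2p3 : Matrix (Fin 12) (Fin 12) ℚ :=
  !![0,0,0,0,0,0,0,0,0,0,-1/243,0; 0,0,0,0,0,0,0,0,0,0,0,0; 0,0,0,0,0,0,0,0,-1/243,0,0,0; 0,0,0,0,0,0,0,0,0,0,0,0; 0,0,0,0,0,0,-1/243,0,0,0,0,0; 0,0,0,0,0,0,0,0,0,0,0,0; 0,0,0,0,0,0,0,0,0,0,0,0; 0,0,0,1/81,0,0,0,0,0,0,0,0; 0,0,0,0,0,0,0,0,0,0,0,0; 0,1/81,0,0,0,0,0,0,0,0,0,0; 0,0,0,0,0,0,0,0,0,0,0,0; 0,0,0,0,0,1/81,0,0,0,0,0,0]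

/-- the matrix of `f_2^4` -/
def F2p4 : Matrix (Fin 12) (Fin 12) ℚ :=
  !![0,0,0,0,0,-1/729,0,0,0,0,0,0; 0,0,0,0,0,0,0,0,0,0,0,0; 0,1/729,0,0,0,0,0,0,0,0,0,0; 0,0,0,0,0,0,0,0,0,0,0,0; 0,0,0,0,0,0,0,0,0,0,0,0; 0,0,0,0,0,0,0,0,0,0,0,0; 0,0,0,0,0,0,0,0,0,0,0,0; 0,0,0,0,0,0,0,0,1/729,0,0,0; 0,0,0,0,0,0,0,0,0,0,0,0; 0,0,0,0,0,0,0,0,0,0,0,0; 0,0,0,0,0,0,0,0,0,0,0,0; 0,0,0,0,0,0,-1/729,0,0,0,0,0]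

/-- the matrix of `f_2^5` -/
def F2p5 : Matrix (Fin 12) (Fin 12) ℚ :=
  !![0,0,0,0,0,0,1/6561,0,0,0,0,0; 0,0,0,0,0,0,0,0,0,0,0,0; 0,0,0,0,0,0,0,0,0,0,0,0; 0,0,0,0,0,0,0,0,0,0,0,0; 0,0,0,0,0,0,0,0,0,0,0,0; 0,0,0,0,0,0,0,0,0,0,0,0; 0,0,0,0,0,0,0,0,0,0,0,0; 0,-1/2187,0,0,0,0,0,0,0,0,0,0; 0,0,0,0,0,0,0,0,0,0,0,0; 0,0,0,0,0,0,0,0,0,0,0,0; 0,0,0,0,0,0,0,0,0,0,0,0; 0,0,0,0,0,0,0,0,0,0,0,0]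

theorem F2p2_eq : F2p1 * F2p1 = F2p2 := by decide +kernel
theorem F2p3_eq : F2p2 * F2p1 = F2p3 := by decide +kernel
theorem F2p4_eq : F2p3 * F2p1 = F2p4 := by decide +kernel
theorem F2p5_eq : F2p4 * F2p1 = F2p5 := by decide +kernel
theorem F2p6_eq : F2p5 * F2p1 = 0 := by decide +kernel

theorem rank_F2p1 : F2p1.rank = 10 :=
  rank_cert F2p1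
    (!![0,0,0,0,0,0,0,0,0,-1/9; 0,0,0,0,0,0,0,0,0,0; 0,0,0,0,0,0,0,1/9,0,0; 0,0,0,0,0,0,1/9,0,0,0; 0,0,0,0,0,0,0,0,1/9,0; 0,0,0,0,0,-1/9,0,0,0,0; 0,0,0,0,0,0,0,0,0,0; 0,-1/3,0,0,0,0,0,0,0,0; -1/3,0,0,0,0,0,0,0,0,0; 0,0,-1/3,0,0,0,0,0,0,0; 0,0,0,0,1/3,0,0,0,0,0; 0,0,0,1/3,0,0,0,0,0,0])
    (!![0,1,0,0,0,0,0,0,0,0,0,0; 0,0,1,0,0,0,0,0,0,0,0,0; 0,0,0,1,0,0,0,0,0,0,0,0; 0,0,0,0,1,0,0,0,0,0,0,0; 0,0,0,0,0,1,0,0,0,0,0,0; 0,0,0,0,0,0,1,0,0,0,0,0; 0,0,0,0,0,0,0,0,1,0,0,0; 0,0,0,0,0,0,0,0,0,1,0,0; 0,0,0,0,0,0,0,0,0,0,1,0; 0,0,0,0,0,0,0,0,0,0,0,1])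
    (!![0,0,0,0,0,0,0,0,-3,0,0,0; 0,0,0,0,0,0,0,-3,0,0,0,0; 0,0,0,0,0,0,0,0,0,-3,0,0; 0,0,0,0,0,0,0,0,0,0,0,3; 0,0,0,0,0,0,0,0,0,0,3,0; 0,0,0,0,0,-9,0,0,0,0,0,0; 0,0,0,9,0,0,0,0,0,0,0,0; 0,0,9,0,0,0,0,0,0,0,0,0; 0,0,0,0,9,0,0,0,0,0,0,0; -9,0,0,0,0,0,0,0,0,0,0,0])
    (!![0,0,0,0,0,0,0,0,0,0; 1,0,0,0,0,0,0,0,0,0; 0,1,0,0,0,0,0,0,0,0; 0,0,1,0,0,0,0,0,0,0; 0,0,0,1,0,0,0,0,0,0; 0,0,0,0,1,0,0,0,0,0; 0,0,0,0,0,1,0,0,0,0; 0,0,0,0,0,0,0,0,0,0; 0,0,0,0,0,0,1,0,0,0; 0,0,0,0,0,0,0,1,0,0; 0,0,0,0,0,0,0,0,1,0; 0,0,0,0,0,0,0,0,0,1])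
    (by decide +kernel) (by decide +kernel) (by decide +kernel)

theorem rank_F2p2 : F2p2.rank = 8 :=
  rank_cert F2p2
    (!![0,0,-1/27,0,0,0,0,0; 0,0,0,0,0,0,0,0; 0,-1/27,0,0,0,0,0,0; -1/27,0,0,0,0,0,0,0; 0,0,0,1/27,0,0,0,0; 0,0,0,0,0,0,0,0; 0,0,0,0,0,0,0,0; 0,0,0,0,0,0,-1/27,0; 0,0,0,0,0,0,0,0; 0,0,0,0,0,-1/27,0,0; 0,0,0,0,-1/27,0,0,0; 0,0,0,0,0,0,0,1/27])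
    (!![0,1,0,0,0,0,0,0,0,0,0,0; 0,0,0,1,0,0,0,0,0,0,0,0; 0,0,0,0,1,0,0,0,0,0,0,0; 0,0,0,0,0,1,0,0,0,0,0,0; 0,0,0,0,0,0,1,0,0,0,0,0; 0,0,0,0,0,0,0,0,1,0,0,0; 0,0,0,0,0,0,0,0,0,1,0,0; 0,0,0,0,0,0,0,0,0,0,1,0])
    (!![0,0,0,-27,0,0,0,0,0,0,0,0; 0,0,-27,0,0,0,0,0,0,0,0,0; -27,0,0,0,0,0,0,0,0,0,0,0; 0,0,0,0,27,0,0,0,0,0,0,0; 0,0,0,0,0,0,0,0,0,0,-27,0; 0,0,0,0,0,0,0,0,0,-27,0,0; 0,0,0,0,0,0,0,-27,0,0,0,0; 0,0,0,0,0,0,0,0,0,0,0,27])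
    (!![0,0,0,0,0,0,0,0; 1,0,0,0,0,0,0,0; 0,0,0,0,0,0,0,0; 0,1,0,0,0,0,0,0; 0,0,1,0,0,0,0,0; 0,0,0,1,0,0,0,0; 0,0,0,0,1,0,0,0; 0,0,0,0,0,0,0,0; 0,0,0,0,0,1,0,0; 0,0,0,0,0,0,1,0; 0,0,0,0,0,0,0,1; 0,0,0,0,0,0,0,0])
    (by decide +kernel) (by decide +kernel) (by decide +kernel)

theorem rank_F2p3 : F2p3.rank = 6 :=
  rank_cert F2p3
    (!![0,0,0,0,0,-1/243; 0,0,0,0,0,0; 0,0,0,0,-1/243,0; 0,0,0,0,0,0; 0,0,0,-1/243,0,0; 0,0,0,0,0,0; 0,0,0,0,0,0; 0,1/81,0,0,0,0; 0,0,0,0,0,0; 1/81,0,0,0,0,0; 0,0,0,0,0,0; 0,0,1/81,0,0,0])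
    (!![0,1,0,0,0,0,0,0,0,0,0,0; 0,0,0,1,0,0,0,0,0,0,0,0; 0,0,0,0,0,1,0,0,0,0,0,0; 0,0,0,0,0,0,1,0,0,0,0,0; 0,0,0,0,0,0,0,0,1,0,0,0; 0,0,0,0,0,0,0,0,0,0,1,0])
    (!![0,0,0,0,0,0,0,0,0,81,0,0; 0,0,0,0,0,0,0,81,0,0,0,0; 0,0,0,0,0,0,0,0,0,0,0,81; 0,0,0,0,-243,0,0,0,0,0,0,0; 0,0,-243,0,0,0,0,0,0,0,0,0; -243,0,0,0,0,0,0,0,0,0,0,0])
    (!![0,0,0,0,0,0; 1,0,0,0,0,0; 0,0,0,0,0,0; 0,1,0,0,0,0; 0,0,0,0,0,0; 0,0,1,0,0,0; 0,0,0,1,0,0; 0,0,0,0,0,0; 0,0,0,0,1,0; 0,0,0,0,0,0; 0,0,0,0,0,1; 0,0,0,0,0,0])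
    (by decide +kernel) (by decide +kernel) (by decide +kernel)

theorem rank_F2p4 : F2p4.rank = 4 :=
  rank_cert F2p4
    (!![0,-1/729,0,0; 0,0,0,0; 1/729,0,0,0; 0,0,0,0; 0,0,0,0; 0,0,0,0; 0,0,0,0; 0,0,0,1/729; 0,0,0,0; 0,0,0,0; 0,0,0,0; 0,0,-1/729,0])
    (!![0,1,0,0,0,0,0,0,0,0,0,0; 0,0,0,0,0,1,0,0,0,0,0,0; 0,0,0,0,0,0,1,0,0,0,0,0; 0,0,0,0,0,0,0,0,1,0,0,0])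
    (!![0,0,729,0,0,0,0,0,0,0,0,0; -729,0,0,0,0,0,0,0,0,0,0,0; 0,0,0,0,0,0,0,0,0,0,0,-729; 0,0,0,0,0,0,0,729,0,0,0,0])
    (!![0,0,0,0; 1,0,0,0; 0,0,0,0; 0,0,0,0; 0,0,0,0; 0,1,0,0; 0,0,1,0; 0,0,0,0; 0,0,0,1; 0,0,0,0; 0,0,0,0; 0,0,0,0])
    (by decide +kernel) (by decide +kernel) (by decide +kernel)

theorem rank_F2p5 : F2p5.rank = 2 :=
  rank_cert F2p5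
    (!![0,1/6561; 0,0; 0,0; 0,0; 0,0; 0,0; 0,0; -1/2187,0; 0,0; 0,0; 0,0; 0,0])
    (!![0,1,0,0,0,0,0,0,0,0,0,0; 0,0,0,0,0,0,1,0,0,0,0,0])
    (!![0,0,0,0,0,0,0,-2187,0,0,0,0; 6561,0,0,0,0,0,0,0,0,0,0,0])
    (!![0,0; 1,0; 0,0; 0,0; 0,0; 0,0; 0,1; 0,0; 0,0; 0,0; 0,0; 0,0])
    (by decide +kernel) (by decide +kernel) (by decide +kernel)

end Pool.Agent.FC.Trip
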