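import Pool.Agent.FC.TripA
import Pool.Agent.FC.TripB

/-!
# The two explicit `sl_2`-triples and their Jordan types
-/

open Matrix

namespace Pool.Agent.FC.Trip

open Pool.Agent.FC


/-- reindexing -/
theorem rank_sub (M : Matrix (Fin 12) (Fin 12) ℚ) (k : ℕ) :
    ((M.submatrix finSumFinEquiv finSumFinEquiv : Mat 6 ℚ) ^ k).rank = (M ^ k).rank := by
  have h : (M.submatrix finSumFinEquiv finSumFinEquiv : Mat 6 ℚ) ^ k
      = ((M ^ k).submatrix finSumFinEquiv finSumFinEquiv : Mat 6 ℚ) := by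
    induction k with
    | zero => rw [pow_zero, pow_zero, Matrix.submatrix_one_equiv]
    | succ k ih => rw [pow_succ, ih, pow_succ, Matrix.submatrix_mul_equiv]
  rw [h]
  exact Matrix.rank_submatrix _ _ _

/-- weights of `h_1` on the first six coordinates -/
def a1 : Fin 6 → ℚ := ![7,-5,3,-1,1,-1]

/-- block `(P,Q)` of `f_1` -/
def fB1 : Matrix (Fin 6) (Fin 6) ℚ :=
  !![0,0,0,0,0,0; 0,0,1/9,0,0,0; 0,1/9,0,0,0,0; 0,0,0,0,0,-1/9; 0,0,0,0,0,0; 0,0,0,-1/9,0,1/9]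

/-- block `(Q,P)` of `f_1` -/
def fC1 : Matrix (Fin 6) (Fin 6) ℚ :=
  !![0,1/3,0,0,0,0; 1/3,0,0,0,0,0; 0,0,0,0,0,-1/3; 0,0,0,0,0,0; 0,0,0,0,-1/3,0; 0,0,-1/3,0,0,0]

/-- block `(P,Q)` of `e_1` -/
def eB1 : Matrix (Fin 6) (Fin 6) ℚ :=
  !![0,21,0,0,0,0; 21,0,0,0,0,0; 0,0,0,45,0,-45; 0,0,45,0,0,0; 0,0,0,0,-3,0; 0,0,-45,0,0,0]

/-- block `(Q,P)` of `e_1` -/
def eC1 : Matrix (Fin 6) (Fin 6) ℚ :=
  !![0,0,0,0,0,0; 0,0,108,0,0,0; 0,108,0,0,0,0; 0,0,0,-9,0,-9; 0,0,0,0,0,0; 0,0,0,-9,0,135]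

/-- the triple number 1 -/
def T1 : Triple 6 where
  e := fromBlocks 0 eB1 eC1 0
  h := fromBlocks (diagonal a1) 0 0 (diagonal (-a1))
  f := fromBlocks 0 fB1 fC1 0
  e_mem := by decide +kernel
  h_mem := by decide +kernel
  f_mem := by decide +kernel
  he := by decide +kernel
  hf := by decide +kernel
  ef := by decide +kernel

theorem T1_f_eq : T1.f = F1p1.submatrix finSumFinEquiv finSumFinEquiv := by
  decide +kernel

/-- weights of `h_2` on the first six coordinates -/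
def a2 : Fin 6 → ℚ := ![-5,5,-3,1,-1,3]

/-- block `(P,Q)` of `f_2` -/
def fB2 : Matrix (Fin 6) (Fin 6) ℚ :=
  !![0,0,0,0,0,-1/9; 0,0,0,0,0,0; 0,0,0,1/9,0,0; 0,0,1/9,0,0,0; 0,0,0,0,1/9,0; -1/9,0,0,0,0,0]

/-- block `(Q,P)` of `f_2` -/
def fC2 : Matrix (Fin 6) (Fin 6) ℚ :=
  !![0,0,0,0,0,0; 0,0,-1/3,0,0,0; 0,-1/3,0,0,0,0; 0,0,0,-1/3,0,0; 0,0,0,0,0,1/3; 0,0,0,0,1/3,0]

/-- block `(P,Q)` of `e_2` -/
def eB2 : Matrix (Fin 6) (Fin 6) ℚ :=
  !![0,0,0,0,0,0; 0,0,-15,0,0,0; 0,-15,0,0,0,0; 0,0,0,-27,0,0; 0,0,0,0,0,24; 0,0,0,0,24,0]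

/-- block `(Q,P)` of `e_2` -/
def eC2 : Matrix (Fin 6) (Fin 6) ℚ :=
  !![0,0,0,0,0,-45; 0,0,0,0,0,0; 0,0,0,72,0,0; 0,0,72,0,0,0; 0,0,0,0,81,0; -45,0,0,0,0,0]

/-- the triple number 2 -/
def T2 : Triple 6 where
  e := fromBlocks 0 eB2 eC2 0
  h := fromBlocks (diagonal a2) 0 0 (diagonal (-a2))
  f := fromBlocks 0 fB2 fC2 0
  e_mem := by decide +kernel
  h_mem := by decide +kernel
  f_mem := by decide +kernel
  he := by decide +kernel
  hf := by decide +kernel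
  ef := by decide +kernel

theorem T2_f_eq : T2.f = F2p1.submatrix finSumFinEquiv finSumFinEquiv := by
  decide +kernel

theorem jordan1 : HasJordanType T1.f part822 := by
  intro k
  rw [T1_f_eq, rank_sub]
  have p2 : F1p1 ^ 2 = F1p2 := by rw [pow_two, F1p2_eq]
  have p3 : F1p1 ^ 3 = F1p3 := by rw [pow_succ, p2, F1p3_eq]
  have p4 : F1p1 ^ 4 = F1p4 := by rw [pow_succ, p3, F1p4_eq]
  have p5 : F1p1 ^ 5 = F1p5 := by rw [pow_succ, p4, F1p5_eq]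
  have p6 : F1p1 ^ 6 = F1p6 := by rw [pow_succ, p5, F1p6_eq]
  have p7 : F1p1 ^ 7 = F1p7 := by rw [pow_succ, p6, F1p7_eq]
  have p8 : F1p1 ^ 8 = 0 := by rw [pow_succ, p7, F1p8_eq]
  rcases Nat.lt_or_ge k 8 with hk | hk
  · interval_cases k
    · rw [pow_zero, Matrix.rank_one]; decide
    · rw [pow_one, rank_F1p1]; decide
    · rw [p2, rank_F1p2]; decide
    · rw [p3, rank_F1p3]; decide
    · rw [p4, rank_F1p4]; decide
    · rw [p5, rank_F1p5]; decide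
    · rw [p6, rank_F1p6]; decide
    · rw [p7, rank_F1p7]; decide
  · have h0 : F1p1 ^ k = 0 := by
      obtain ⟨j, rfl⟩ := Nat.exists_eq_add_of_le hk
      rw [pow_add, p8, Matrix.zero_mul]
    rw [h0, Matrix.rank_zero]
    symm
    apply Multiset.sum_eq_zero
    intro x hx
    rw [Multiset.mem_map] at hx
    obtain ⟨i, hi, rfl⟩ := hx
    have hi' : i ≤ 8 := by
      revert i
      decide
    omega

theorem jordan2 : HasJordanType T2.f part66 := by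
  intro k
  rw [T2_f_eq, rank_sub]
  have p2 : F2p1 ^ 2 = F2p2 := by rw [pow_two, F2p2_eq]
  have p3 : F2p1 ^ 3 = F2p3 := by rw [pow_succ, p2, F2p3_eq]
  have p4 : F2p1 ^ 4 = F2p4 := by rw [pow_succ, p3, F2p4_eq]
  have p5 : F2p1 ^ 5 = F2p5 := by rw [pow_succ, p4, F2p5_eq]
  have p6 : F2p1 ^ 6 = 0 := by rw [pow_succ, p5, F2p6_eq]
  rcases Nat.lt_or_ge k 6 with hk | hk
  · interval_cases k
    · rw [pow_zero, Matrix.rank_one]; decide
    · rw [pow_one, rank_F2p1]; decide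
    · rw [p2, rank_F2p2]; decide
    · rw [p3, rank_F2p3]; decide
    · rw [p4, rank_F2p4]; decide
    · rw [p5, rank_F2p5]; decide
  · have h0 : F2p1 ^ k = 0 := by
      obtain ⟨j, rfl⟩ := Nat.exists_eq_add_of_le hk
      rw [pow_add, p6, Matrix.zero_mul]
    rw [h0, Matrix.rank_zero]
    symm
    apply Multiset.sum_eq_zero
    intro x hx
    rw [Multiset.mem_map] at hx
    obtain ⟨i, hi, rfl⟩ := hx
    have hi' : i ≤ 6 := by
      revert i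
      decide
    omega

end Pool.Agent.FC.Trip
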