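import Pool.Agent.FC.Base
import Pool.Agent.FC.TripC

/-!
Explicit triples: find e by linear algebra over Q ([h,e]=2e, [e,f]=h, e in sp_12), ranks of the powers of f.
-/

open RestrictedProduct Matrix MeasureTheory

noncomputable section

namespace Pool.Agent.FC

theorem exists_T1 : ∃ T : Triple 6, T.h = hdiag ℚ wa ∧ T.f = fq wa ∧ HasJordanType T.f part822 :=
  ⟨Trip.T1, by decide +kernel, by decide +kernel, Trip.jordan1⟩

theorem exists_T2 : ∃ T : Triple 6, T.h = hdiag ℚ wb ∧ T.f = fq wb ∧ HasJordanType T.f part66 :=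
  ⟨Trip.T2, by decide +kernel, by decide +kernel, Trip.jordan2⟩

end Pool.Agent.FC
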