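import Pool.Agent.FC.Base
import Pool.Agent.FC.DualL
import Pool.Agent.FC.LeadL
import Pool.Agent.FC.Fin4
import Pool.Agent.FC.Fin3

/-!
fc_h91.md (2f), (2g): from exists_near, lead, K4, K3, sl2_big, sl2_84.
-/

open RestrictedProduct Matrix MeasureTheory

noncomputable section

namespace Pool.Agent.FC

namespace Van3

section gen

variable {K : Type*} [Field K] {n : ℕ}

theorem Fil_mono {h : Mat n K} {i j : ℤ} (hij : i ≤ j) : Fil h j ≤ Fil h i :=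
  iSup_le fun a => le_iSup (fun j : {j : ℤ // i ≤ j} => Ewt h j) ⟨a.1, hij.trans a.2⟩

theorem Ewt_le_Fil (h : Mat n K) (i : ℤ) : Ewt h i ≤ Fil h i :=
  le_iSup (fun j : {j : ℤ // i ≤ j} => Ewt h j) ⟨i, le_rfl⟩

theorem symp_eq_zero [CharZero K] {e h f : Mat n K} (H : IsTriple e h f) {a b : ℤ}
    (hab : 0 < a + b) {v w : Fin n ⊕ Fin n → K} (hv : v ∈ Fil h a) (hw : w ∈ Fil h b) :
    symp v w = 0 :=
  (Fil_perp H a w).2 (Fil_mono (by omega) hw) v hv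

theorem pow_mem {h Y : Mat n K} (H : ∀ i : ℤ, ∀ x ∈ Fil h i, Y *ᵥ x ∈ Fil h (i - 2)) {i : ℤ}
    {x : Fin n ⊕ Fin n → K} (hx : x ∈ Fil h i) (k : ℕ) : (Y ^ k) *ᵥ x ∈ Fil h (i - 2 * k) := by
  induction k with
  | zero => simpa using hx
  | succ k ih =>
    rw [pow_succ', ← Matrix.mulVec_mulVec]
    have := H _ _ ih
    rwa [show i - 2 * (k : ℤ) - 2 = i - 2 * ((k + 1 : ℕ) : ℤ) by push_cast; ring] at this

/-- the linear functional `v ↦ symp v u` -/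
def sympL (u : Fin n ⊕ Fin n → K) : (Fin n ⊕ Fin n → K) →ₗ[K] K where
  toFun v := symp v u
  map_add' a b := add_dotProduct a b _
  map_smul' c a := smul_dotProduct c a _

end gen

theorem chn_one (A B : Matrix (Fin 6) (Fin 6) (ZMod 3)) (t : Fin 6 → ZMod 3) :
    chn A B t 1 = A *ᵥ t := by
  simp [chn]

end Van3

open Van3 in
/-- Lemma V (with `g = 1`). -/
theorem lemmaV {e h f : Mat 6 ℚ_[(p3 : ℕ)]} (H : IsTriple e h f)
    (θ : AddChar ℚ_[(p3 : ℕ)] Circle) (hθ : ∀ x, θ x = 1 ↔ ‖x‖ ≤ 1)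
    (hyp : ∀ j : Matrix.symplecticGroup (Fin 6) ℚ_[(p3 : ℕ)], (j : Mat 6 ℚ_[(p3 : ℕ)]) - 1 ∈ Aord →
      (j : Mat 6 ℚ_[(p3 : ℕ)]) - 1 ∈ adGE h 2 →
      θ (Matrix.trace (X3 * ((j : Mat 6 ℚ_[(p3 : ℕ)]) - 1)))
        = θ (Matrix.trace (f * ((j : Mat 6 ℚ_[(p3 : ℕ)]) - 1)))) :
    f ^ 9 = 0 ∧ ¬ (f.rank = 10 ∧ (f ^ 2).rank = 8 ∧ (f ^ 3).rank = 6 ∧ (f ^ 4).rank = 4 ∧
      (f ^ 5).rank = 3 ∧ (f ^ 6).rank = 2 ∧ (f ^ 7).rank = 1 ∧ f ^ 8 = 0) := by
  obtain ⟨Y, hN, hY⟩ := exists_near H θ hθ hyp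
  obtain ⟨par, ld, hld, hlead⟩ := lead Y hN
  have hself : ∀ w, w ≠ 0 → ∀ k : ℕ, Odd k → symp w (Y ^ k *ᵥ w) = 0 →
      ld w ⬝ᵥ chn (Sof (par w)) (Sof !(par w)) (ld w) k = 0 :=
    fun w hw k hk h => hlead w w hw hw k ⟨fun _ => hk, fun _ => rfl⟩ h
  constructor
  · by_contra h9
    obtain ⟨m, hm, ⟨w, hw, hw0⟩, -⟩ := sl2_big H h9
    have hwF : w ∈ Fil h m := Ewt_le_Fil le_rfl hw
    have key : ∀ k : ℕ, Odd k → k ≤ 7 →
        ld w ⬝ᵥ chn (Sof (par w)) (Sof !(par w)) (ld w) k = 0 := fun k hk hk7 =>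
      hself w hw0 k hk (symp_eq_zero H (a := m) (b := m - 2 * (k : ℤ)) (by omega) hwF
        (pow_mem hY hwF k))
    exact hld w hw0 (K4 _ _ (key 1 (by decide) (by norm_num)) (key 3 (by decide) (by norm_num))
      (key 5 (by decide) (by norm_num)) (key 7 (by decide) (by norm_num)))
  · rintro ⟨r1, r2, r3, r4, r5, r6, r7, r8⟩
    obtain ⟨⟨w, hw, hw0⟩, -, h3⟩ := sl2_84 H r1 r2 r3 r4 r5 r6 r7 r8
    have hwF : w ∈ Fil h 7 := Ewt_le_Fil le_rfl hw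
    have key : ∀ k : ℕ, Odd k → k ≤ 5 →
        ld w ⬝ᵥ chn (Sof (par w)) (Sof !(par w)) (ld w) k = 0 := fun k hk hk5 =>
      hself w hw0 k hk (symp_eq_zero H (a := 7) (b := 7 - 2 * (k : ℤ)) (by omega) hwF
        (pow_mem hY hwF k))
    -- a nonzero vector of `Fil h 3` orthogonal to three vectors
    let L : (Fil h 3) →ₗ[ℚ_[(p3 : ℕ)]] (Fin 3 → ℚ_[(p3 : ℕ)]) :=
      LinearMap.pi fun j => sympL ((Y ^ ((j : ℕ) + 5)) *ᵥ w) ∘ₗ (Fil h 3).subtype
    have hker : LinearMap.ker L ≠ ⊥ := by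
      intro h0
      have h1 := LinearMap.finrank_le_finrank_of_injective (LinearMap.ker_eq_bot.1 h0)
      rw [Module.finrank_fin_fun] at h1
      omega
    obtain ⟨⟨v, hv⟩, hvk, hv0⟩ := (Submodule.ne_bot_iff _).1 hker
    have hv0' : v ≠ 0 := fun h0 => hv0 (Subtype.ext h0)
    have hvw : ∀ k : ℕ, k ≤ 7 → symp v (Y ^ k *ᵥ w) = 0 := by
      intro k hk
      rcases Nat.lt_or_ge k 5 with h5 | h5
      · exact symp_eq_zero H (a := 3) (b := 7 - 2 * (k : ℤ)) (by omega) hv (pow_mem hY hwF k)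
      · have h6 := congrFun (LinearMap.mem_ker.1 hvk) ⟨k - 5, by omega⟩
        have h8 : symp v (Y ^ (k - 5 + 5) *ᵥ w) = 0 := h6
        rwa [Nat.sub_add_cancel h5] at h8
    have hvv : ld v ⬝ᵥ (Sof (par v) *ᵥ ld v) = 0 := by
      have := hself v hv0' 1 (by decide) (by
        rw [pow_one]
        exact symp_eq_zero H (a := 3) (b := 3 - 2) (by norm_num) hv (hY 3 v hv))
      rwa [chn_one] at this
    have hK3 := K3 (par w) (ld w) (hld w hw0) (key 1 (by decide) (by norm_num))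
      (key 3 (by decide) (by norm_num)) (key 5 (by decide) (by norm_num)) (ld v)
    apply hld v hv0'
    by_cases hp : par v = par w
    · rw [hp] at hvv
      refine hK3.1 (fun k hk => hlead v w hv0' hw0 k ⟨fun _ => ?_, fun _ => hp⟩
        (hvw k (by rcases hk with rfl | rfl | rfl | rfl <;> norm_num))) hvv
      rcases hk with rfl | rfl | rfl | rfl <;> decide
    · have hp' : par v = !(par w) := by
        revert hp
        cases par v <;> cases par w <;> simp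
      rw [hp'] at hvv
      refine hK3.2 (fun k hk => hlead v w hv0' hw0 k ⟨fun h0 => absurd h0 hp, fun h0 => ?_⟩
        (hvw k (by rcases hk with rfl | rfl | rfl | rfl <;> norm_num))) hvv
      exfalso
      revert h0
      rcases hk with rfl | rfl | rfl | rfl <;> decide

end Pool.Agent.FC
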