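import Pool.Agent.FC.Base
import Pool.Agent.FC.CoefEqv
import Pool.Agent.FC.Van3
import Pool.Agent.FC.Sl2

/-!
By contradiction: coeff_local gives (+); apply lemmaV to the triple (g_3^-1 e g_3, g_3^-1 h g_3, g_3^-1 f g_3) over Q_3;
adGE of the conjugate of h = conjugate of adGE h; rank is invariant under conjugation and under Q -> Q_3 (Matrix.rank_map or similar).
-/

open RestrictedProduct Matrix MeasureTheory

noncomputable section

namespace Pool.Agent.FC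

section Conj

variable {n : ℕ} {K : Type*} [Field K] {A B : Mat n K}

theorem vg_conj_pow (hAB : A * B = 1) (f : Mat n K) (k : ℕ) : (B * f * A) ^ k = B * f ^ k * A := by
  have hBA : B * A = 1 := mul_eq_one_comm.1 hAB
  induction k with
  | zero => rw [pow_zero, pow_zero, mul_one, hBA]
  | succ k ih =>
    rw [pow_succ, ih, pow_succ]
    calc B * f ^ k * A * (B * f * A) = B * f ^ k * (A * B) * f * A := by noncomm_ring
      _ = B * (f ^ k * f) * A := by rw [hAB]; noncomm_ring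

theorem vg_rank_conj (hAB : A * B = 1) (f : Mat n K) : (B * f * A).rank = f.rank := by
  have hBA : B * A = 1 := mul_eq_one_comm.1 hAB
  have hA : IsUnit A.det := by
    rw [← Matrix.isUnit_iff_isUnit_det]
    exact ⟨⟨A, B, hAB, hBA⟩, rfl⟩
  have hB : IsUnit B.det := by
    rw [← Matrix.isUnit_iff_isUnit_det]
    exact ⟨⟨B, A, hBA, hAB⟩, rfl⟩
  rw [Matrix.rank_mul_eq_left_of_isUnit_det _ _ hA, Matrix.rank_mul_eq_right_of_isUnit_det _ _ hB]

theorem vg_conj_eq_zero (hAB : A * B = 1) {f : Mat n K} (h : B * f * A = 0) : f = 0 := by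
  calc f = (A * B) * f * (A * B) := by rw [hAB, one_mul, mul_one]
    _ = A * (B * f * A) * B := by noncomm_ring
    _ = 0 := by rw [h, mul_zero, zero_mul]

theorem vg_conj_sp (hAB : A * B = 1) (hA : A * J (Fin n) K * Aᵀ = J (Fin n) K) {e : Mat n K}
    (he : e * J (Fin n) K + J (Fin n) K * eᵀ = 0) :
    (B * e * A) * J (Fin n) K + J (Fin n) K * (B * e * A)ᵀ = 0 := by
  have hBA : B * A = 1 := mul_eq_one_comm.1 hAB
  have hT : Aᵀ * Bᵀ = 1 := by rw [← Matrix.transpose_mul, hBA, Matrix.transpose_one]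
  have h1 : A * J (Fin n) K = J (Fin n) K * Bᵀ := by
    calc A * J (Fin n) K = A * J (Fin n) K * (Aᵀ * Bᵀ) := by rw [hT, mul_one]
      _ = (A * J (Fin n) K * Aᵀ) * Bᵀ := by noncomm_ring
      _ = _ := by rw [hA]
  have h2 : J (Fin n) K * Aᵀ = B * J (Fin n) K := by
    calc J (Fin n) K * Aᵀ = (B * A) * J (Fin n) K * Aᵀ := by rw [hBA, one_mul]
      _ = B * (A * J (Fin n) K * Aᵀ) := by noncomm_ring
      _ = _ := by rw [hA]
  rw [Matrix.transpose_mul, Matrix.transpose_mul]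
  calc B * e * A * J (Fin n) K + J (Fin n) K * (Aᵀ * (eᵀ * Bᵀ))
      = B * e * (A * J (Fin n) K) + (J (Fin n) K * Aᵀ) * eᵀ * Bᵀ := by noncomm_ring
    _ = B * (e * J (Fin n) K + J (Fin n) K * eᵀ) * Bᵀ := by rw [h1, h2]; noncomm_ring
    _ = 0 := by rw [he, mul_zero, zero_mul]

theorem vg_conj_brk (hAB : A * B = 1) {x y z : Mat n K} (h : x * y - y * x = z) :
    (B * x * A) * (B * y * A) - (B * y * A) * (B * x * A) = B * z * A := by
  calc (B * x * A) * (B * y * A) - (B * y * A) * (B * x * A)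
      = B * (x * (A * B) * y - y * (A * B) * x) * A := by noncomm_ring
    _ = _ := by rw [hAB, mul_one, mul_one, h]

theorem IsTriple.vg_conj {e h f : Mat n K} (T : IsTriple e h f) (hAB : A * B = 1)
    (hA : A * J (Fin n) K * Aᵀ = J (Fin n) K) :
    IsTriple (B * e * A) (B * h * A) (B * f * A) where
  e_mem := vg_conj_sp hAB hA T.e_mem
  h_mem := vg_conj_sp hAB hA T.h_mem
  f_mem := vg_conj_sp hAB hA T.f_mem
  he := by
    rw [vg_conj_brk hAB T.he]
    noncomm_ring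
  hf := by
    rw [vg_conj_brk hAB T.hf]
    noncomm_ring
  ef := vg_conj_brk hAB T.ef

/-- Conjugation of the weight filtration. -/
theorem vg_adGE_conj (hAB : A * B = 1) {h : Mat n K} {i : ℤ} {M : Mat n K}
    (hM : M ∈ adGE (B * h * A) i) : A * M * B ∈ adGE h i := by
  have hBA : B * A = 1 := mul_eq_one_comm.1 hAB
  unfold adGE at hM ⊢
  induction hM using Submodule.span_induction with
  | mem x hx =>
    obtain ⟨j, hj, hx⟩ := hx
    refine Submodule.subset_span ⟨j, hj, ?_⟩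
    have h1 := congrArg (fun Z : Mat n K => A * Z * B) hx
    calc h * (A * x * B) - A * x * B * h
        = (A * B) * h * (A * x * B) - A * x * B * h * (A * B) := by rw [hAB, one_mul, mul_one]
      _ = A * (B * h * A * x - x * (B * h * A)) * B := by noncomm_ring
      _ = A * ((j : K) • x) * B := by rw [hx]
      _ = (j : K) • (A * x * B) := by rw [Matrix.mul_smul, Matrix.smul_mul]
  | zero => rw [mul_zero, zero_mul]; exact Submodule.zero_mem _
  | add x y _ _ h1 h2 => rw [mul_add, add_mul]; exact Submodule.add_mem _ h1 h2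
  | smul c x _ h1 => rw [Matrix.mul_smul, Matrix.smul_mul]; exact Submodule.smul_mem _ _ h1

end Conj

/-- The triple over another field. -/
theorem Triple.vg_isTriple_map {n : ℕ} (T : Triple n) {K : Type*} [Field K] (φ : ℚ →+* K) :
    IsTriple (T.e.map φ) (T.h.map φ) (T.f.map φ) where
  e_mem := map_sp_mem φ T.e_mem
  h_mem := map_sp_mem φ T.h_mem
  f_mem := map_sp_mem φ T.f_mem
  he := by
    have h1 := congrArg φ.mapMatrix T.he
    rw [map_sub, map_mul, map_mul, map_nsmul] at h1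
    exact h1
  hf := by
    have h1 := congrArg φ.mapMatrix T.hf
    rw [map_sub, map_mul, map_mul, map_neg, map_nsmul] at h1
    exact h1
  ef := by
    have h1 := congrArg φ.mapMatrix T.ef
    rw [map_sub, map_mul, map_mul] at h1
    exact h1

theorem vg_gp_mul {n : ℕ} (g g' : GA n) (p : Nat.Primes) : gp (g * g') p = gp g p * gp g' p := by
  unfold gp
  rw [Submonoid.coe_mul]
  exact Matrix.map_mul

theorem vg_gp_one {n : ℕ} (p : Nat.Primes) : gp (1 : GA n) p = 1 := by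
  unfold gp
  exact Matrix.map_one _ (map_zero _) (map_one _)

theorem vg_gp_sp {n : ℕ} (g : GA n) (p : Nat.Primes) :
    gp g p * J (Fin n) ℚ_[(p : ℕ)] * (gp g p)ᵀ = J (Fin n) ℚ_[(p : ℕ)] :=
  SymplecticGroup.mem_iff.1 (SymplecticGroup.map_mem g.2 (evp p))

/-- Lemma V for a conjugate of a rational triple. -/
theorem vg_lemmaV_conj (T : Triple 6)
    (hT : T.f ^ 9 ≠ 0 ∨ (T.f.rank = 10 ∧ (T.f ^ 2).rank = 8 ∧ (T.f ^ 3).rank = 6 ∧
      (T.f ^ 4).rank = 4 ∧ (T.f ^ 5).rank = 3 ∧ (T.f ^ 6).rank = 2 ∧ (T.f ^ 7).rank = 1 ∧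
      T.f ^ 8 = 0)) {A B : Mat 6 ℚ_[(p3 : ℕ)]} (hAB : A * B = 1)
    (hA : A * J (Fin 6) ℚ_[(p3 : ℕ)] * Aᵀ = J (Fin 6) ℚ_[(p3 : ℕ)])
    (θ : AddChar ℚ_[(p3 : ℕ)] Circle) (hθ : ∀ x, θ x = 1 ↔ ‖x‖ ≤ 1)
    (hloc : ∀ j : Matrix.symplecticGroup (Fin 6) ℚ_[(p3 : ℕ)],
      (j : Mat 6 ℚ_[(p3 : ℕ)]) - 1 ∈ Aord →
      A * (j : Mat 6 ℚ_[(p3 : ℕ)]) * B - 1 ∈ adGE (T.h.map (Rat.cast : ℚ → ℚ_[(p3 : ℕ)])) 2 →
      θ (Matrix.trace (X3 * ((j : Mat 6 ℚ_[(p3 : ℕ)]) - 1)))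
        = θ (Matrix.trace (T.f.map (Rat.cast : ℚ → ℚ_[(p3 : ℕ)]) *
            (A * (j : Mat 6 ℚ_[(p3 : ℕ)]) * B - 1)))) : False := by
  set φ : ℚ →+* ℚ_[(p3 : ℕ)] := Rat.castHom _ with hφ
  have hφh : T.h.map (Rat.cast : ℚ → ℚ_[(p3 : ℕ)]) = T.h.map φ := rfl
  have hφf : T.f.map (Rat.cast : ℚ → ℚ_[(p3 : ℕ)]) = T.f.map φ := rfl
  rw [hφh, hφf] at hloc
  have H := (T.vg_isTriple_map φ).vg_conj hAB hA
  clear_value φ
  have key := lemmaV H θ hθ (fun j hj hV => by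
    have h1 := vg_adGE_conj hAB hV
    have h2 : A * ((j : Mat 6 ℚ_[(p3 : ℕ)]) - 1) * B = A * (j : Mat 6 ℚ_[(p3 : ℕ)]) * B - 1 := by
      rw [mul_sub, sub_mul, mul_one, hAB]
    rw [h2] at h1
    have h3 : Matrix.trace (T.f.map φ * (A * ((j : Mat 6 ℚ_[(p3 : ℕ)]) - 1) * B)) =
        Matrix.trace (B * T.f.map φ * A * ((j : Mat 6 ℚ_[(p3 : ℕ)]) - 1)) := by
      rw [← mul_assoc, ← mul_assoc, Matrix.trace_mul_comm, ← mul_assoc, ← mul_assoc]
    rw [hloc j hj h1, ← h2, h3])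
  obtain ⟨k1, k2⟩ := key
  have hr : ∀ k : ℕ, ((B * T.f.map φ * A) ^ k).rank = (T.f ^ k).rank := by
    intro k
    rw [vg_conj_pow hAB, vg_rank_conj hAB]
    have h3 : T.f.map φ ^ k = (T.f ^ k).map φ := (map_pow φ.mapMatrix T.f k).symm
    rw [h3]
    exact Sl2.rank_map φ _
  have hz : ∀ k : ℕ, (B * T.f.map φ * A) ^ k = 0 ↔ T.f ^ k = 0 := by
    intro k
    rw [vg_conj_pow hAB]
    have h3 : T.f.map φ ^ k = (T.f ^ k).map φ := (map_pow φ.mapMatrix T.f k).symm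
    rw [h3]
    constructor
    · intro h6
      have h4 := vg_conj_eq_zero hAB h6
      ext i j
      have h5 := congrFun (congrFun h4 i) j
      rw [Matrix.map_apply, Matrix.zero_apply] at h5
      exact (map_eq_zero φ).1 h5
    · intro h4
      rw [h4]
      have h7 : (0 : Mat 6 ℚ).map φ = 0 := by
        ext i j
        rw [Matrix.map_apply, Matrix.zero_apply, map_zero, Matrix.zero_apply]
      rw [h7, mul_zero, zero_mul]
  rcases hT with h | ⟨h1, h2, h3, h4, h5, h6, h7, h8⟩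
  · exact h ((hz 9).1 k1)
  · refine k2 ⟨?_, ?_, ?_, ?_, ?_, ?_, ?_, (hz 8).2 h8⟩
    · have := hr 1
      rw [pow_one, pow_one] at this
      rw [this, h1]
    · rw [hr, h2]
    · rw [hr, h3]
    · rw [hr, h4]
    · rw [hr, h5]
    · rw [hr, h6]
    · rw [hr, h7]

/-- Vanishing for a vector of type `(U, χ)`. -/
theorem coeff_eq_zero {ψ : AddChar Adele Circle} (hψ : IsStd ψ) (T : Triple 6)
    (hT : T.f ^ 9 ≠ 0 ∨ (T.f.rank = 10 ∧ (T.f ^ 2).rank = 8 ∧ (T.f ^ 3).rank = 6 ∧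
      (T.f ^ 4).rank = 4 ∧ (T.f ^ 5).rank = 3 ∧ (T.f ^ 6).rank = 2 ∧ (T.f ^ 7).rank = 1 ∧
      T.f ^ 8 = 0))
    (ρ : Measure (T.VA ⧸ T.VQ)) (hρ : SMulInvariantMeasure T.VA (T.VA ⧸ T.VQ) ρ)
    (F : AutQuot 6 → ℂ) (hF : Continuous F)
    (htype : ∀ u : GA 6, u ∈ USet → gR u = 1 → ∀ x : AutQuot 6,
      F (u • x) = (((chi ψ u)⁻¹ : Circle) : ℂ) * F x) (g : GA 6) :
    T.coeff ψ ρ F g = 0 := by
  by_contra hne
  have hAB : gp g p3 * gp g⁻¹ p3 = 1 := by rw [← vg_gp_mul, mul_inv_cancel, vg_gp_one]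
  exact vg_lemmaV_conj T hT hAB (vg_gp_sp g p3) (theta ψ) (theta_eq_one_iff hψ)
    (coeff_local hψ T ρ hρ F hF htype g hne)

end Pool.Agent.FC
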