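import Pool.Agent.FC.GMain
import Pool.Agent.FC.VanG
import Pool.Agent.FC.PartL
import Pool.Agent.FC.StdPsi
import Pool.Agent.FC.Trip

/-!
# FC: final assembly
-/

open RestrictedProduct Matrix MeasureTheory

noncomputable section

namespace Pool.Agent.FC

theorem main : MainStatement := by
  intro ψ hc hQ hne
  obtain ⟨c, hc0, ψ', hψ', hscale⟩ := exists_std ψ hc hQ hne
  obtain ⟨T1, h1, f1, j1⟩ := exists_T1
  obtain ⟨T2, h2, f2, j2⟩ := exists_T2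
  obtain ⟨μ, hμ, H, hH, ⟨ρ1, a1, b1, c1, F1, hF1, g1, n1⟩, ⟨ρ2, a2, b2, c2, F2, hF2, g2, n2⟩,
    F0, hF0, htype, htrans⟩ := gmain hψ' T1 T2 h1 f1 h2 f2
  have hS := fun p => hasCoeff_scale (n := 6) hc0 hscale μ H p
  have hvan : ∀ p : Nat.Partition (2 * 6), IsSymplectic p →
      ((DomLE part822 p ∧ p ≠ part822) ∨ (DomLE part66 p ∧ p ≠ part66)) →
      ¬ HasCoeff ψ μ H p := by
    intro p hp hdom hcoef
    rw [hS] at hcoef
    obtain ⟨T, hT, ρ, hρ0, hρf, hρi, F, hF, g, hg⟩ := hcoef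
    obtain ⟨g', hg'⟩ := htrans T ρ hρ0 hρf hρi F hF g hg
    refine hg' (coeff_eq_zero hψ' T ?_ ρ hρi F0 hF0 htype g')
    rcases part_above p hp hdom with h | h
    · exact Or.inl (jordan_big hT h)
    · exact Or.inr (jordan_84 hT h)
  refine ⟨μ, hμ, H, hH, ⟨symp822, ?_, ?_⟩, ⟨symp66, ?_, ?_⟩⟩
  · rw [hS]; exact ⟨T1, j1, ρ1, a1, b1, c1, F1, hF1, g1, n1⟩
  · intro p hp hd hne; exact hvan p hp (Or.inl ⟨hd, hne⟩)
  · rw [hS]; exact ⟨T2, j2, ρ2, a2, b2, c2, F2, hF2, g2, n2⟩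
  · intro p hp hd hne; exact hvan p hp (Or.inr ⟨hd, hne⟩)

end Pool.Agent.FC
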