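import Mathlib

/-!
# FC-Pos: positivity of the double integral of section 7, abstract form
-/

set_option autoImplicit false
set_option linter.all false

open MeasureTheory Set Topology Filter
open scoped ENNReal Pointwise

namespace Pool.Agent.FC.Pos

section sums

variable {G : Type*} [Group G] [TopologicalSpace G] [IsTopologicalGroup G] [T2Space G]
  (Γ : Subgroup G) [DiscreteTopology Γ]

theorem finite_disc {K : Set G} (hK : IsCompact K) : {γ : Γ | (γ : G) ∈ K}.Finite := by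
  have hΓc : IsClosed (Γ : Set G) := Subgroup.isClosed_of_discrete
  have h1 : IsCompact (K ∩ (Γ : Set G)) := hK.inter_right hΓc
  have h2 : IsDiscrete (Γ : Set G) := ⟨inferInstanceAs (DiscreteTopology Γ)⟩
  have h3 : (K ∩ (Γ : Set G)).Finite := h1.finite (h2.mono inter_subset_right)
  have h4 : {γ : Γ | (γ : G) ∈ K} = Subtype.val ⁻¹' (K ∩ (Γ : Set G)) := by
    ext γ
    simp
  rw [h4]
  exact h3.preimage Subtype.val_injective.injOn

/-- the sum over `γ` is a finite sum over a set independent of `g` -/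
theorem exists_finset {h : G → ℂ} (hs : HasCompactSupport h) (a b : G) :
    ∃ F : Finset Γ, (1 ∈ F) ∧ ∀ g : G, ∑' γ : Γ, h g * (starRingEnd ℂ) (h (b * γ * a⁻¹ * g))
      = ∑ γ ∈ F, h g * (starRingEnd ℂ) (h (b * γ * a⁻¹ * g)) := by
  classical
  have hK : IsCompact (tsupport h) := hs
  have hC : IsCompact ((fun x : G × G => b⁻¹ * x.1 * x.2⁻¹ * a) '' (tsupport h ×ˢ tsupport h)) :=
    (hK.prod hK).image (by fun_prop)
  have hfin := finite_disc Γ hC
  refine ⟨insert 1 hfin.toFinset, Finset.mem_insert_self _ _, fun g => ?_⟩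
  refine tsum_eq_sum fun γ hγ => ?_
  by_contra hne
  have h1 : h g ≠ 0 := fun h0 => hne (by rw [h0, zero_mul])
  have h2 : h (b * γ * a⁻¹ * g) ≠ 0 := fun h0 => hne (by rw [h0, map_zero, mul_zero])
  apply hγ
  rw [Finset.mem_insert]
  right
  rw [Set.Finite.mem_toFinset]
  refine ⟨(b * γ * a⁻¹ * g, g), ⟨subset_tsupport h h2, subset_tsupport h h1⟩, ?_⟩
  simp only
  group

variable [MeasurableSpace G] [BorelSpace G] (μ : Measure G) [IsFiniteMeasureOnCompacts μ]

theorem re_nonneg {h : G → ℂ} (hc : Continuous h) (hs : HasCompactSupport h) (a b : G) (c : ℂ)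
    (hp : ∀ γ ∈ Γ, ∀ g : G, 0 ≤ (c * (h g * (starRingEnd ℂ) (h (b * γ * a⁻¹ * g)))).re) :
    0 ≤ (c * ∫ g, ∑' γ : Γ, h g * (starRingEnd ℂ) (h (b * γ * a⁻¹ * g)) ∂μ).re := by
  obtain ⟨F, -, hF⟩ := exists_finset Γ hs a b
  have e1 : (∫ g, ∑' γ : Γ, h g * (starRingEnd ℂ) (h (b * γ * a⁻¹ * g)) ∂μ)
      = ∫ g, ∑ γ ∈ F, h g * (starRingEnd ℂ) (h (b * γ * a⁻¹ * g)) ∂μ := by
    congr 1
    ext1 g
    exact hF g
  have hcont : ∀ γ : Γ, Continuous fun g => h g * (starRingEnd ℂ) (h (b * γ * a⁻¹ * g)) := by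
    intro γ
    exact hc.mul (Complex.continuous_conj.comp (hc.comp (by fun_prop)))
  have hint : ∀ γ : Γ, Integrable (fun g => h g * (starRingEnd ℂ) (h (b * γ * a⁻¹ * g))) μ := by
    intro γ
    exact (hcont γ).integrable_of_hasCompactSupport hs.mul_right
  rw [e1, integral_finset_sum _ fun γ _ => hint γ, Finset.mul_sum, Complex.re_sum]
  refine Finset.sum_nonneg fun γ _ => ?_
  rw [← integral_const_mul]
  have h2 := integral_re (𝕜 := ℂ) ((hint γ).const_mul c)
  have h3 : (∫ g, c * (h g * (starRingEnd ℂ) (h (b * γ * a⁻¹ * g))) ∂μ).re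
      = ∫ g, (c * (h g * (starRingEnd ℂ) (h (b * γ * a⁻¹ * g)))).re ∂μ := h2.symm
  rw [h3]
  exact integral_nonneg fun g => hp γ γ.2 g

theorem re_pos [μ.IsOpenPosMeasure] {h : G → ℂ} (hc : Continuous h) (hs : HasCompactSupport h)
    (h1 : h 1 ≠ 0)
    (hp : ∀ γ ∈ Γ, ∀ g : G, 0 ≤ (h g * (starRingEnd ℂ) (h (1 * γ * (1 : G)⁻¹ * g))).re) :
    0 < (∫ g, ∑' γ : Γ, h g * (starRingEnd ℂ) (h (1 * γ * (1 : G)⁻¹ * g)) ∂μ).re := by
  classical
  obtain ⟨F, h1F, hF⟩ := exists_finset Γ hs (1 : G) 1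
  have e1 : (∫ g, ∑' γ : Γ, h g * (starRingEnd ℂ) (h (1 * γ * (1 : G)⁻¹ * g)) ∂μ)
      = ∫ g, ∑ γ ∈ F, h g * (starRingEnd ℂ) (h (1 * γ * (1 : G)⁻¹ * g)) ∂μ := by
    congr 1
    ext1 g
    exact hF g
  have hcont : ∀ γ : Γ, Continuous fun g =>
      h g * (starRingEnd ℂ) (h (1 * γ * (1 : G)⁻¹ * g)) := by
    intro γ
    exact hc.mul (Complex.continuous_conj.comp (hc.comp (by fun_prop)))
  have hint : ∀ γ : Γ, Integrable (fun g =>
      h g * (starRingEnd ℂ) (h (1 * γ * (1 : G)⁻¹ * g))) μ := by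
    intro γ
    exact (hcont γ).integrable_of_hasCompactSupport hs.mul_right
  have hre : ∀ γ : Γ, (∫ g, h g * (starRingEnd ℂ) (h (1 * γ * (1 : G)⁻¹ * g)) ∂μ).re
      = ∫ g, (h g * (starRingEnd ℂ) (h (1 * γ * (1 : G)⁻¹ * g))).re ∂μ := by
    intro γ
    exact (integral_re (𝕜 := ℂ) (hint γ)).symm
  rw [e1, integral_finset_sum _ fun γ _ => hint γ, Complex.re_sum]
  refine Finset.sum_pos' (fun γ _ => ?_) ⟨1, h1F, ?_⟩
  · rw [hre]
    exact integral_nonneg fun g => hp γ γ.2 g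
  · rw [hre]
    refine Continuous.integral_pos_of_hasCompactSupport_nonneg_nonzero (x := 1)
      (Complex.continuous_re.comp (hcont 1)) ?_ (fun g => hp _ (1 : Γ).2 g) ?_
    · have : HasCompactSupport (fun g => h g * (starRingEnd ℂ) (h (1 * ((1 : Γ) : G) * (1 : G)⁻¹ * g))) :=
        hs.mul_right
      exact this.comp_left Complex.zero_re
    · simp only [OneMemClass.coe_one, mul_one, inv_one]
      rw [Complex.mul_conj, Complex.ofReal_re]
      exact (Complex.normSq_pos.2 h1).ne'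

end sums

section quotients

variable {V : Type*} [Group V] [TopologicalSpace V] [IsTopologicalGroup V] (Q : Subgroup V)

/-- a right `Q`-invariant continuous function gives a continuous function on `V ⧸ Q` -/
theorem continuous_out {Z : Type*} [TopologicalSpace Z] (f : V → Z) (hf : Continuous f)
    (hinv : ∀ v : V, ∀ q ∈ Q, f (v * q) = f v) : Continuous fun y : V ⧸ Q => f y.out := by
  have h1 : (fun y : V ⧸ Q => f y.out) ∘ (QuotientGroup.mk : V → V ⧸ Q) = f := by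
    ext1 v
    obtain ⟨q, hq⟩ := QuotientGroup.mk_out_eq_mul Q v
    change f (Quotient.out (QuotientGroup.mk v : V ⧸ Q)) = f v
    rw [hq]
    exact hinv v q q.2
  have h2 : IsQuotientMap (QuotientGroup.mk : V → V ⧸ Q) := QuotientGroup.isQuotientMap_mk Q
  rw [h2.continuous_iff, h1]
  exact hf

/-- an invariant nonzero measure on a compact homogeneous space is positive on open sets -/
theorem isOpenPos {Y : Type*} [TopologicalSpace Y] [CompactSpace Y] [MulAction V Y]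
    [ContinuousConstSMul V Y] [MulAction.IsPretransitive V Y] [MeasurableSpace Y] [BorelSpace Y]
    (ρ : Measure Y) [SMulInvariantMeasure V Y ρ] (hρ : ρ ≠ 0) : ρ.IsOpenPosMeasure := by
  constructor
  intro U hU hne h0
  obtain ⟨y, hy⟩ := hne
  apply hρ
  have hcov : (univ : Set Y) ⊆ ⋃ v : V, (fun x : Y => v • x) ⁻¹' U := by
    intro x _
    obtain ⟨v, hv⟩ := MulAction.exists_smul_eq V x y
    exact mem_iUnion.2 ⟨v, by change v • x ∈ U; rw [hv]; exact hy⟩
  obtain ⟨t, ht⟩ := isCompact_univ.elim_finite_subcover _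
    (fun v : V => hU.preimage (continuous_const_smul v)) hcov
  rw [← Measure.measure_univ_eq_zero]
  refine measure_mono_null ht ?_
  change ρ (⋃ i ∈ (t : Set V), (fun x : Y => i • x) ⁻¹' U) = 0
  refine (measure_biUnion_null_iff t.countable_toSet).2 ?_
  intro v _
  rw [measure_preimage_smul_of_nullMeasurableSet]
  · exact h0
  · exact hU.measurableSet.nullMeasurableSet

end quotients

section double

/-- the double integral of a continuous function with nonnegative real part on a product of compact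
spaces -/
theorem double_pos {Y1 Y2 : Type*} [TopologicalSpace Y1] [CompactSpace Y1]
    [SecondCountableTopology Y1] [MeasurableSpace Y1] [BorelSpace Y1]
    [TopologicalSpace Y2] [CompactSpace Y2]
    [SecondCountableTopology Y2] [MeasurableSpace Y2] [BorelSpace Y2]
    (ρ1 : Measure Y1) (ρ2 : Measure Y2) [IsFiniteMeasure ρ1] [IsFiniteMeasure ρ2]
    [ρ1.IsOpenPosMeasure] [ρ2.IsOpenPosMeasure] (R : Y2 → Y1 → ℂ)
    (hR : Continuous (Function.uncurry R)) (hpos : ∀ y2 y1, 0 ≤ (R y2 y1).re) (z2 : Y2) (z1 : Y1)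
    (hz : 0 < (R z2 z1).re) : 0 < (∫ y2, ∫ y1, R y2 y1 ∂ρ1 ∂ρ2).re := by
  have hint : Integrable (Function.uncurry R) (ρ2.prod ρ1) :=
    hR.integrable_of_hasCompactSupport (HasCompactSupport.of_compactSpace _)
  have e1 : (∫ y2, ∫ y1, R y2 y1 ∂ρ1 ∂ρ2) = ∫ z, Function.uncurry R z ∂(ρ2.prod ρ1) :=
    (integral_prod _ hint).symm
  rw [e1]
  have e2 : (∫ z, Function.uncurry R z ∂(ρ2.prod ρ1)).re
      = ∫ z, (Function.uncurry R z).re ∂(ρ2.prod ρ1) := (integral_re (𝕜 := ℂ) hint).symm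
  rw [e2]
  exact Continuous.integral_pos_of_hasCompactSupport_nonneg_nonzero (x := (z2, z1))
    (Complex.continuous_re.comp hR) (HasCompactSupport.of_compactSpace _)
    (fun z => hpos z.1 z.2) hz.ne'

end double

section main

variable {G : Type*} [Group G] [TopologicalSpace G] [IsTopologicalGroup G] [T2Space G]
  [SecondCountableTopology G] [MeasurableSpace G] [BorelSpace G]
  (Γ : Subgroup G) [DiscreteTopology Γ]
  (μ : Measure G) [IsFiniteMeasureOnCompacts μ] [μ.IsOpenPosMeasure]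
  {E : Type*} [NormedAddCommGroup E] [InnerProductSpace ℂ E]

theorem pos_main {h : G → ℂ} (hc : Continuous h) (hs : HasCompactSupport h) (h1 : h 1 ≠ 0)
    (k : G ⧸ Γ → E) (hk : Continuous k)
    (hKK : ∀ a b : G, inner ℂ (k (QuotientGroup.mk a)) (k (QuotientGroup.mk b))
      = ∫ g, ∑' γ : Γ, h g * (starRingEnd ℂ) (h (b * γ * a⁻¹ * g)) ∂μ)
    (V1 V2 : Subgroup G)
    [CompactSpace (V1 ⧸ Γ.subgroupOf V1)] [CompactSpace (V2 ⧸ Γ.subgroupOf V2)]
    [MeasurableSpace (V1 ⧸ Γ.subgroupOf V1)] [BorelSpace (V1 ⧸ Γ.subgroupOf V1)]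
    [MeasurableSpace (V2 ⧸ Γ.subgroupOf V2)] [BorelSpace (V2 ⧸ Γ.subgroupOf V2)]
    (ρ1 : Measure (V1 ⧸ Γ.subgroupOf V1)) (ρ2 : Measure (V2 ⧸ Γ.subgroupOf V2))
    [IsFiniteMeasure ρ1] [IsFiniteMeasure ρ2] [ρ1.IsOpenPosMeasure] [ρ2.IsOpenPosMeasure]
    (θ1 θ2 : G → ℂ) (hθ1 : ContinuousOn θ1 V1) (hθ2 : ContinuousOn θ2 V2)
    (hm1 : ∀ v ∈ V1, ∀ q ∈ V1, q ∈ Γ → θ1 (v * q) = θ1 v)
    (hm2 : ∀ v ∈ V2, ∀ q ∈ V2, q ∈ Γ → θ2 (v * q) = θ2 v)
    (h11 : θ1 1 = 1) (h21 : θ2 1 = 1)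
    (hP : ∀ v1 ∈ V1, ∀ v2 ∈ V2, ∀ γ ∈ Γ, ∀ g : G,
      0 ≤ (θ2 v2 * (starRingEnd ℂ) (θ1 v1) *
        (h g * (starRingEnd ℂ) (h (v1 * γ * v2⁻¹ * g)))).re) :
    0 < (∫ y2 : V2 ⧸ Γ.subgroupOf V2, ∫ y1 : V1 ⧸ Γ.subgroupOf V1,
      θ2 (y2.out : V2) * (starRingEnd ℂ) (θ1 (y1.out : V1)) *
        inner ℂ (k (QuotientGroup.mk ((y2.out : V2) : G)))
          (k (QuotientGroup.mk ((y1.out : V1) : G))) ∂ρ1 ∂ρ2).re := by
  have hsc : ∀ V : Subgroup G, SecondCountableTopology (V ⧸ Γ.subgroupOf V) := fun V => by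
    have hV : SecondCountableTopology V :=
      TopologicalSpace.Subtype.secondCountableTopology (V : Set G)
    exact (QuotientGroup.isQuotientMap_mk (Γ.subgroupOf V)).secondCountableTopology
      QuotientGroup.isOpenMap_coe
  have hsc1 := hsc V1
  have hsc2 := hsc V2
  have hθc1 : Continuous fun v : V1 => θ1 v := continuousOn_iff_continuous_restrict.1 hθ1
  have hθc2 : Continuous fun v : V2 => θ2 v := continuousOn_iff_continuous_restrict.1 hθ2
  have c1 : Continuous fun y : V1 ⧸ Γ.subgroupOf V1 => θ1 (y.out : V1) :=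
    continuous_out (Γ.subgroupOf V1) (fun v : V1 => θ1 v) hθc1
      fun v q hq => hm1 v v.2 q q.2 hq
  have c2 : Continuous fun y : V2 ⧸ Γ.subgroupOf V2 => θ2 (y.out : V2) :=
    continuous_out (Γ.subgroupOf V2) (fun v : V2 => θ2 v) hθc2
      fun v q hq => hm2 v v.2 q q.2 hq
  have hkc : ∀ V : Subgroup G, Continuous fun v : V => k (QuotientGroup.mk (v : G)) := by
    intro V
    exact hk.comp (QuotientGroup.continuous_mk.comp continuous_subtype_val)
  have hki : ∀ V : Subgroup G, ∀ v : V, ∀ q ∈ Γ.subgroupOf V,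
      k (QuotientGroup.mk ((v * q : V) : G)) = k (QuotientGroup.mk (v : G)) := by
    intro V v q hq
    congr 1
    exact QuotientGroup.mk_mul_of_mem (v : G) hq
  have d1 : Continuous fun y : V1 ⧸ Γ.subgroupOf V1 => k (QuotientGroup.mk ((y.out : V1) : G)) :=
    continuous_out (Γ.subgroupOf V1) (fun v : V1 => k (QuotientGroup.mk (v : G))) (hkc V1) (hki V1)
  have d2 : Continuous fun y : V2 ⧸ Γ.subgroupOf V2 => k (QuotientGroup.mk ((y.out : V2) : G)) :=
    continuous_out (Γ.subgroupOf V2) (fun v : V2 => k (QuotientGroup.mk (v : G))) (hkc V2) (hki V2)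
  refine double_pos ρ1 ρ2 (fun y2 y1 => θ2 (y2.out : V2) * (starRingEnd ℂ) (θ1 (y1.out : V1)) *
        inner ℂ (k (QuotientGroup.mk ((y2.out : V2) : G)))
          (k (QuotientGroup.mk ((y1.out : V1) : G)))) ?_ ?_ (QuotientGroup.mk 1)
      (QuotientGroup.mk 1) ?_
  · exact ((c2.comp continuous_fst).mul (Complex.continuous_conj.comp (c1.comp continuous_snd))).mul
      ((d2.comp continuous_fst).inner (d1.comp continuous_snd))
  · intro y2 y1
    rw [hKK]
    exact re_nonneg Γ μ hc hs _ _ _ fun γ hγ g => hP _ (y1.out : V1).2 _ (y2.out : V2).2 γ hγ g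
  · obtain ⟨q1, hq1⟩ := QuotientGroup.mk_out_eq_mul (Γ.subgroupOf V1) (1 : V1)
    obtain ⟨q2, hq2⟩ := QuotientGroup.mk_out_eq_mul (Γ.subgroupOf V2) (1 : V2)
    have e1 : θ1 ((Quotient.out (QuotientGroup.mk 1 : V1 ⧸ Γ.subgroupOf V1) : V1) : G) = 1 := by
      rw [hq1, Subgroup.coe_mul, OneMemClass.coe_one,
        hm1 1 V1.one_mem ((q1 : V1) : G) (q1 : V1).2 q1.2, h11]
    have e2 : θ2 ((Quotient.out (QuotientGroup.mk 1 : V2 ⧸ Γ.subgroupOf V2) : V2) : G) = 1 := by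
      rw [hq2, Subgroup.coe_mul, OneMemClass.coe_one,
        hm2 1 V2.one_mem ((q2 : V2) : G) (q2 : V2).2 q2.2, h21]
    have f1 : k (QuotientGroup.mk
        ((Quotient.out (QuotientGroup.mk 1 : V1 ⧸ Γ.subgroupOf V1) : V1) : G))
        = k (QuotientGroup.mk (1 : G)) := by
      rw [hq1, hki V1 1 q1 q1.2, OneMemClass.coe_one]
    have f2 : k (QuotientGroup.mk
        ((Quotient.out (QuotientGroup.mk 1 : V2 ⧸ Γ.subgroupOf V2) : V2) : G))
        = k (QuotientGroup.mk (1 : G)) := by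
      rw [hq2, hki V2 1 q2 q2.2, OneMemClass.coe_one]
    rw [e1, e2, f1, f2, hKK, map_one, mul_one, one_mul]
    refine re_pos Γ μ hc hs h1 fun γ hγ g => ?_
    have h3 := hP 1 V1.one_mem 1 V2.one_mem γ hγ g
    rwa [h11, h21, map_one, mul_one, one_mul] at h3

end main

end Pool.Agent.FC.Pos
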