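import Pool.Agent.FC.KK
import Pool.Agent.FC.Pos

/-!
# FC: the two coefficient vectors are not orthogonal
-/

open MeasureTheory Set Topology Filter
open scoped ENNReal

namespace Pool.Agent.FC.Abs

variable {G : Type*} [Group G] [TopologicalSpace G] [IsTopologicalGroup G]
  [SecondCountableTopology G] [T2Space G] [LocallyCompactSpace G]
  [MeasurableSpace G] [BorelSpace G] {Γ : Subgroup G} [DiscreteTopology Γ] [Countable Γ]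
  [MeasurableSpace (G ⧸ Γ)] [BorelSpace (G ⧸ Γ)]
  {μ : Measure G} [μ.IsHaarMeasure] [μ.IsMulRightInvariant] [μ.IsInvInvariant]
  {ν : Measure (G ⧸ Γ)} [IsFiniteMeasureOnCompacts ν]

theorem inner_xi_xi_re_pos (hU : Unfolds μ ν) {h : G → ℂ} (hc : Continuous h)
    (hs : HasCompactSupport h) {k : G ⧸ Γ → Lp ℂ 2 ν} (hk : IsKvec μ ν h k) (h1 : h 1 ≠ 0)
    {V₁ V₂ : Subgroup G} [MeasurableSpace (V₁ ⧸ Γ.subgroupOf V₁)]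
    [BorelSpace (V₁ ⧸ Γ.subgroupOf V₁)] [MeasurableSpace (V₂ ⧸ Γ.subgroupOf V₂)]
    [BorelSpace (V₂ ⧸ Γ.subgroupOf V₂)] {ρ₁ : Measure (V₁ ⧸ Γ.subgroupOf V₁)}
    {ρ₂ : Measure (V₂ ⧸ Γ.subgroupOf V₂)} {θ₁ θ₂ : G → ℂ}
    (D₁ : VData Γ V₁ ρ₁ θ₁) (D₂ : VData Γ V₂ ρ₂ θ₂)
    [SMulInvariantMeasure V₁ (V₁ ⧸ Γ.subgroupOf V₁) ρ₁]
    [SMulInvariantMeasure V₂ (V₂ ⧸ Γ.subgroupOf V₂) ρ₂]
    (hρ₁ : ρ₁ ≠ 0) (hρ₂ : ρ₂ ≠ 0) (hθ₁ : θ₁ 1 = 1) (hθ₂ : θ₂ 1 = 1)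
    (hpos : ∀ v₁ ∈ V₁, ∀ v₂ ∈ V₂, ∀ γ ∈ Γ, ∀ z : G,
      0 ≤ (θ₂ v₂ * starRingEnd ℂ (θ₁ v₁) * h (v₂ * z⁻¹) *
        starRingEnd ℂ (h (v₁ * γ * z⁻¹))).re) :
    0 < (inner ℂ (xi ρ₂ θ₂ k 1) (xi ρ₁ θ₁ k 1)).re := by
  have := D₁.compact
  have := D₂.compact
  have := D₁.finite
  have := D₂.finite
  have ho1 : ρ₁.IsOpenPosMeasure := Pos.isOpenPos (V := V₁) ρ₁ hρ₁
  have ho2 : ρ₂.IsOpenPosMeasure := Pos.isOpenPos (V := V₂) ρ₂ hρ₂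
  have hsc : ∀ V : Subgroup G, SecondCountableTopology (V ⧸ Γ.subgroupOf V) := fun V => by
    have hV : SecondCountableTopology V :=
      TopologicalSpace.Subtype.secondCountableTopology (V : Set G)
    exact (QuotientGroup.isQuotientMap_mk (Γ.subgroupOf V)).secondCountableTopology
      QuotientGroup.isOpenMap_coe
  have hsc1 := hsc V₁
  have hsc2 := hsc V₂
  rw [inner_xi_xi D₁ D₂ hk.cont]
  have hki : ∀ V : Subgroup G, ∀ v ∈ V, ∀ γ ∈ V, γ ∈ Γ →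
      k (QuotientGroup.mk (v * γ)) = k (QuotientGroup.mk v) := by
    intro V v _ γ _ hγ
    rw [QuotientGroup.mk_mul_of_mem v hγ]
  have c1 : Continuous fun y : V₁ ⧸ Γ.subgroupOf V₁ => θ₁ (y.out : G) :=
    continuous_out θ₁ D₁.cont D₁.inv
  have c2 : Continuous fun y : V₂ ⧸ Γ.subgroupOf V₂ => θ₂ (y.out : G) :=
    continuous_out θ₂ D₂.cont D₂.inv
  have d : ∀ V : Subgroup G, Continuous fun y : V ⧸ Γ.subgroupOf V =>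
      k (QuotientGroup.mk (y.out : G)) := fun V =>
    continuous_out (fun v => k (QuotientGroup.mk v))
      (hk.cont.comp (QuotientGroup.continuous_mk.comp continuous_subtype_val)) (hki V)
  refine Pos.double_pos ρ₁ ρ₂ (fun x y => θ₂ (x.out : G) * starRingEnd ℂ (θ₁ (y.out : G)) *
          inner ℂ (k (QuotientGroup.mk (x.out : G))) (k (QuotientGroup.mk (y.out : G)))) ?_ ?_
      (QuotientGroup.mk 1) (QuotientGroup.mk 1) ?_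
  · exact ((c2.comp continuous_fst).mul (Complex.continuous_conj.comp (c1.comp continuous_snd))).mul
      (((d V₂).comp continuous_fst).inner ((d V₁).comp continuous_snd))
  · intro x y
    refine inner_kvec_nonneg hU hc hs hk _ _ _ fun z γ hγ => ?_
    exact hpos _ (y.out : V₁).2 _ (x.out : V₂).2 γ hγ z
  · have e1 : θ₁ ((QuotientGroup.mk 1 : V₁ ⧸ Γ.subgroupOf V₁).out : G) = 1 := by
      rw [out_mk θ₁ D₁.inv 1, OneMemClass.coe_one, hθ₁]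
    have e2 : θ₂ ((QuotientGroup.mk 1 : V₂ ⧸ Γ.subgroupOf V₂).out : G) = 1 := by
      rw [out_mk θ₂ D₂.inv 1, OneMemClass.coe_one, hθ₂]
    have f1 : k (QuotientGroup.mk ((QuotientGroup.mk 1 : V₁ ⧸ Γ.subgroupOf V₁).out : G))
        = k (QuotientGroup.mk 1) := by
      rw [out_mk (fun v : G => k (QuotientGroup.mk v)) (hki V₁) 1, OneMemClass.coe_one]
    have f2 : k (QuotientGroup.mk ((QuotientGroup.mk 1 : V₂ ⧸ Γ.subgroupOf V₂).out : G))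
        = k (QuotientGroup.mk 1) := by
      rw [out_mk (fun v : G => k (QuotientGroup.mk v)) (hki V₂) 1, OneMemClass.coe_one]
    have hne : k (QuotientGroup.mk 1) ≠ 0 := by
      refine kvec_one_ne_zero hU hc hs hk h1 fun z γ hγ => ?_
      have h3 := hpos 1 V₁.one_mem 1 V₂.one_mem γ hγ z
      rwa [hθ₁, hθ₂, map_one, one_mul, one_mul, one_mul, one_mul] at h3
    rw [e1, e2, f1, f2, map_one, one_mul, one_mul]
    have h4 : (inner ℂ (k (QuotientGroup.mk 1)) (k (QuotientGroup.mk 1)) : ℂ).re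
        = ‖k (QuotientGroup.mk 1)‖ ^ 2 := by
      rw [← inner_self_eq_norm_sq (𝕜 := ℂ)]
      rfl
    rw [h4]
    have h5 : 0 < ‖k (QuotientGroup.mk 1)‖ := norm_pos_iff.2 hne
    positivity

theorem inner_xi_xi_ne_zero (hU : Unfolds μ ν) {h : G → ℂ} (hc : Continuous h)
    (hs : HasCompactSupport h) {k : G ⧸ Γ → Lp ℂ 2 ν} (hk : IsKvec μ ν h k) (h1 : h 1 ≠ 0)
    {V₁ V₂ : Subgroup G} [MeasurableSpace (V₁ ⧸ Γ.subgroupOf V₁)]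
    [BorelSpace (V₁ ⧸ Γ.subgroupOf V₁)] [MeasurableSpace (V₂ ⧸ Γ.subgroupOf V₂)]
    [BorelSpace (V₂ ⧸ Γ.subgroupOf V₂)] {ρ₁ : Measure (V₁ ⧸ Γ.subgroupOf V₁)}
    {ρ₂ : Measure (V₂ ⧸ Γ.subgroupOf V₂)} {θ₁ θ₂ : G → ℂ}
    (D₁ : VData Γ V₁ ρ₁ θ₁) (D₂ : VData Γ V₂ ρ₂ θ₂)
    [SMulInvariantMeasure V₁ (V₁ ⧸ Γ.subgroupOf V₁) ρ₁]
    [SMulInvariantMeasure V₂ (V₂ ⧸ Γ.subgroupOf V₂) ρ₂]
    (hρ₁ : ρ₁ ≠ 0) (hρ₂ : ρ₂ ≠ 0) (hθ₁ : θ₁ 1 = 1) (hθ₂ : θ₂ 1 = 1)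
    (hpos : ∀ v₁ ∈ V₁, ∀ v₂ ∈ V₂, ∀ γ ∈ Γ, ∀ z : G,
      0 ≤ (θ₂ v₂ * starRingEnd ℂ (θ₁ v₁) * h (v₂ * z⁻¹) *
        starRingEnd ℂ (h (v₁ * γ * z⁻¹))).re) :
    inner ℂ (xi ρ₂ θ₂ k 1) (xi ρ₁ θ₁ k 1) ≠ 0 := by
  intro h0
  have := inner_xi_xi_re_pos hU hc hs hk h1 D₁ D₂ hρ₁ hρ₂ hθ₁ hθ₂ hpos
  rw [h0, Complex.zero_re] at this
  exact lt_irrefl _ this

end Pool.Agent.FC.Abs
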