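import Pool.Agent.FC.AdeleBasic

set_option linter.all false

namespace Pool.Agent.FC

open RestrictedProduct Filter Topology Matrix

theorem OF_add {x y : Afin} (hx : x ∈ OF) (hy : y ∈ OF) : x + y ∈ OF := fun p =>
  (PadicInt.subring p.1).add_mem (hx p) (hy p)

theorem OF_neg {x : Afin} (hx : x ∈ OF) : -x ∈ OF := fun p =>
  (PadicInt.subring p.1).neg_mem (hx p)

theorem OF_sub {x y : Afin} (hx : x ∈ OF) (hy : y ∈ OF) : x - y ∈ OF := fun p =>
  (PadicInt.subring p.1).sub_mem (hx p) (hy p)

theorem OF_mul {x y : Afin} (hx : x ∈ OF) (hy : y ∈ OF) : x * y ∈ OF := fun p =>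
  (PadicInt.subring p.1).mul_mem (hx p) (hy p)

theorem OF_zero : (0 : Afin) ∈ OF := fun p => (PadicInt.subring p.1).zero_mem

/-- rational polar part of a finite adele, up to an integer -/
noncomputable def polar (x : Afin) : ℚ := (exists_rat_sub_mem_OF x).choose

theorem polar_spec (x : Afin) : x - ratFin (polar x) ∈ OF := (exists_rat_sub_mem_OF x).choose_spec

/-- the exponential with period one -/
noncomputable def eR (t : ℝ) : Circle := Circle.exp (2 * Real.pi * t)

theorem eR_add (s t : ℝ) : eR (s + t) = eR s * eR t := by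
  rw [eR, mul_add, Circle.exp_add]; rfl

theorem eR_int (n : ℤ) : eR n = 1 := by
  have : (2 * Real.pi * (n : ℝ)) = n * (2 * Real.pi) := by ring
  rw [eR, this, Circle.exp_int_mul_two_pi]

theorem eR_sub (s t : ℝ) : eR (s - t) = eR s * (eR t)⁻¹ := by
  rw [eR, mul_sub, Circle.exp_sub, div_eq_mul_inv]; rfl

theorem continuous_eR : Continuous eR := by
  unfold eR
  fun_prop

/-- the value does not depend on the polar part -/
theorem eR_polar (t : ℝ) (x : Afin) (q : ℚ) (h : x - ratFin q ∈ OF) :
    eR (t - polar x) = eR (t - q) := by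
  have h1 : ratFin (polar x - q) ∈ OF := by
    have := OF_sub h (polar_spec x)
    have h2 : x - ratFin q - (x - ratFin (polar x)) = ratFin (polar x - q) := by
      rw [map_sub]; abel
    rwa [h2] at this
  have h3 := (ratFin_mem_OF_iff _).mp h1
  have h4 : ((polar x - q).num : ℚ) = polar x - q := by
    conv_rhs => rw [← Rat.num_div_den (polar x - q), h3]
    simp
  have h5 : t - (q : ℝ) = (t - polar x) + ((polar x - q).num : ℝ) := by
    have : (((polar x - q).num : ℚ) : ℝ) = ((polar x - q : ℚ) : ℝ) := by rw [h4]
    push_cast at this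
    rw [this]; ring
  rw [h5, eR_add, eR_int, mul_one]

/-- the standard additive character of the adeles, trivial on the rationals -/
noncomputable def psiStd (x : Adele) : Circle := eR (x.1 - polar x.2)

theorem psiStd_add (x y : Adele) : psiStd (x + y) = psiStd x * psiStd y := by
  unfold psiStd
  rw [eR_polar (x + y).1 (x + y).2 (polar x.2 + polar y.2) ?_]
  · rw [← eR_add]
    congr 1
    push_cast
    simp only [Prod.fst_add]
    ring
  · have := OF_add (polar_spec x.2) (polar_spec y.2)
    have h2 : x.2 - ratFin (polar x.2) + (y.2 - ratFin (polar y.2)) =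
        (x + y).2 - ratFin (polar x.2 + polar y.2) := by
      rw [map_add, Prod.snd_add]; abel
    rwa [h2] at this

theorem psiStd_ratAdele (q : ℚ) : psiStd (ratAdele q) = 1 := by
  unfold psiStd
  rw [eR_polar (ratAdele q).1 (ratAdele q).2 q ?_]
  · simp only [ratAdele_fst, sub_self]
    have := eR_int 0
    simpa using this
  · have : (ratAdele q).2 - ratFin q = 0 := sub_self _
    rw [this]
    exact OF_zero

theorem psiStd_of_mem_OF (x : Adele) (h : x.2 ∈ OF) : psiStd x = eR x.1 := by
  unfold psiStd
  rw [eR_polar x.1 x.2 0 ?_]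
  · simp
  · simpa using h

theorem psiStd_zero : psiStd 0 = 1 := by
  have := psiStd_ratAdele 0
  rwa [map_zero] at this

theorem continuous_psiStd : Continuous psiStd := by
  let f : Adele →+ Additive Circle :=
    { toFun := fun x => Additive.ofMul (psiStd x)
      map_zero' := by rw [psiStd_zero]; rfl
      map_add' := fun x y => by rw [psiStd_add]; rfl }
  have hf : Continuous f := by
    refine continuous_of_continuousAt_zero f ?_
    have h1 : (fun x : Adele => Additive.ofMul (eR x.1)) =ᶠ[𝓝 0] f := by
      have : {x : Adele | x.2 ∈ OF} ∈ 𝓝 (0 : Adele) :=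
        (isOpen_OF.preimage continuous_snd).mem_nhds OF_zero
      filter_upwards [this] with x hx
      change Additive.ofMul (eR x.1) = Additive.ofMul (psiStd x)
      rw [psiStd_of_mem_OF x hx]
    have h2 : ContinuousAt (fun x : Adele => Additive.ofMul (eR x.1)) 0 := by
      exact (continuous_ofMul.comp (continuous_eR.comp continuous_fst)).continuousAt
    exact h2.congr h1
  exact continuous_toMul.comp hf

theorem psiStd_ne_one : ∃ x : Adele, psiStd x ≠ 1 := by
  refine ⟨(1 / 2, 0), ?_⟩
  rw [psiStd_of_mem_OF _ OF_zero]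
  unfold eR
  intro h
  have h2 : (2 * Real.pi * (1 / 2)) = Real.pi := by ring
  rw [h2] at h
  have h3 := congrArg (fun z : Circle => (z : ℂ)) h
  simp only [Circle.coe_exp, Complex.exp_pi_mul_I, Circle.coe_one] at h3
  norm_num [Complex.ext_iff] at h3

end Pool.Agent.FC
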