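import Mathlib

/-!
# Structure of finite dimensional representations of `sl₂`, elementary form
-/

open Module

namespace Pool.Agent.FC.Sl2

/-- The relations of an `sl₂`-triple in a ring. -/
structure Rel {R : Type*} [Ring R] (e h f : R) : Prop where
  he : h * e - e * h = 2 • e
  hf : h * f - f * h = -(2 • f)
  ef : e * f - f * e = h

theorem Rel.symm {R : Type*} [Ring R] {e h f : R} (t : Rel e h f) : Rel f (-h) e where
  he := by
    have := t.hf
    calc -h * f - f * -h = -(h * f - f * h) := by noncomm_ring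
      _ = 2 • f := by rw [this, neg_neg]
  hf := by
    have := t.he
    calc -h * e - e * -h = -(h * e - e * h) := by noncomm_ring
      _ = -(2 • e) := by rw [this]
  ef := by
    have := t.ef
    calc f * e - e * f = -(e * f - f * e) := by noncomm_ring
      _ = -h := by rw [this]

theorem Rel.map {R S : Type*} [Ring R] [Ring S] (φ : R →+* S) {e h f : R} (t : Rel e h f) :
    Rel (φ e) (φ h) (φ f) where
  he := by rw [← map_mul, ← map_mul, ← map_sub, t.he, map_nsmul]
  hf := by rw [← map_mul, ← map_mul, ← map_sub, t.hf, map_neg, map_nsmul]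
  ef := by rw [← map_mul, ← map_mul, ← map_sub, t.ef]

section EndTheory

variable {K : Type*} [Field K] {V : Type*} [AddCommGroup V] [Module K V]

/-- weight spaces -/
def E (h : End K V) (i : ℤ) : Submodule K V := End.eigenspace h (i : K)

theorem mem_E {h : End K V} {i : ℤ} {v : V} : v ∈ E h i ↔ h v = (i : K) • v :=
  End.mem_eigenspace_iff

theorem mem_E_neg {h : End K V} {i : ℤ} {v : V} : v ∈ E (-h) i ↔ v ∈ E h (-i) := by
  rw [mem_E, mem_E]
  constructor
  · intro H
    have : -(h v) = (i : K) • v := H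
    rw [Int.cast_neg, neg_smul, ← this, neg_neg]
  · intro H
    show -(h v) = (i : K) • v
    rw [H, Int.cast_neg, neg_smul, neg_neg]

variable {e h f : End K V}

theorem Rel.h_e (t : Rel e h f) (v : V) : h (e v) = e (h v) + 2 • e v := by
  have := congrArg (fun g : End K V => g v) t.he
  simp only [LinearMap.sub_apply, Module.End.mul_apply, LinearMap.smul_apply] at this
  rw [← this]; abel

theorem Rel.h_f (t : Rel e h f) (v : V) : h (f v) = f (h v) - 2 • f v := by
  have := congrArg (fun g : End K V => g v) t.hf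
  simp only [LinearMap.sub_apply, Module.End.mul_apply, LinearMap.smul_apply,
    LinearMap.neg_apply] at this
  rw [sub_eq_add_neg, ← this]; abel

theorem Rel.e_f (t : Rel e h f) (v : V) : e (f v) = f (e v) + h v := by
  have := congrArg (fun g : End K V => g v) t.ef
  simp only [LinearMap.sub_apply, Module.End.mul_apply] at this
  rw [← this]; abel

theorem Rel.e_mem (t : Rel e h f) {i : ℤ} {v : V} (hv : v ∈ E h i) : e v ∈ E h (i + 2) := by
  rw [mem_E] at hv ⊢
  rw [t.h_e, hv, map_smul, Int.cast_add, add_smul]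
  congr 1
  rw [Int.cast_ofNat, two_smul, two_smul]

theorem Rel.f_mem (t : Rel e h f) {i : ℤ} {v : V} (hv : v ∈ E h i) : f v ∈ E h (i - 2) := by
  have h1 := t.symm.e_mem (i := -i) (v := v) (by rw [mem_E_neg, neg_neg]; exact hv)
  rw [mem_E_neg] at h1
  have : -(-i + 2) = i - 2 := by ring
  rwa [this] at h1

theorem Rel.e_pow_mem (t : Rel e h f) {i : ℤ} {v : V} (hv : v ∈ E h i) (k : ℕ) :
    (e ^ k) v ∈ E h (i + 2 * k) := by
  induction k with
  | zero => simpa using hv
  | succ k ih =>
    rw [pow_succ', Module.End.mul_apply]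
    have := t.e_mem ih
    have e1 : i + 2 * (k : ℤ) + 2 = i + 2 * ((k + 1 : ℕ) : ℤ) := by push_cast; ring
    rwa [e1] at this

theorem Rel.f_pow_mem (t : Rel e h f) {i : ℤ} {v : V} (hv : v ∈ E h i) (k : ℕ) :
    (f ^ k) v ∈ E h (i - 2 * k) := by
  induction k with
  | zero => simpa using hv
  | succ k ih =>
    rw [pow_succ', Module.End.mul_apply]
    have := t.f_mem ih
    have e1 : i - 2 * (k : ℤ) - 2 = i - 2 * ((k + 1 : ℕ) : ℤ) := by push_cast; ring
    rwa [e1] at this

/-- `e f^(n+1) v = f^(n+1) e v + (n+1) f^n (h v - n v)` -/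
theorem Rel.e_f_pow (t : Rel e h f) (n : ℕ) (v : V) :
    e ((f ^ (n + 1)) v) = (f ^ (n + 1)) (e v) + ((n : K) + 1) • (f ^ n) (h v - (n : K) • v) := by
  induction n generalizing v with
  | zero => simp [t.e_f]
  | succ n ih =>
    have h1 : (f ^ (n + 1 + 1)) v = (f ^ (n + 1)) (f v) := by
      rw [pow_succ, Module.End.mul_apply]
    rw [h1, ih, t.e_f, t.h_f]
    have h2 : (f ^ (n + 1)) (f (e v)) = (f ^ (n + 1 + 1)) (e v) := by
      rw [pow_succ f (n + 1), Module.End.mul_apply]
    rw [map_add, h2]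
    have h3 : (f ^ n) (f (h v) - 2 • f v - (n : K) • f v)
        = (f ^ (n + 1)) (h v - ((n : K) + 2) • v) := by
      rw [pow_succ, Module.End.mul_apply]
      congr 1
      rw [map_sub, map_smul]
      module
    rw [h3]
    push_cast
    rw [map_sub, map_sub, map_smul, map_smul]
    module

variable [CharZero K] [FiniteDimensional K V]

theorem Rel.isNilpotent_e (t : Rel e h f) : ∃ N : ℕ, e ^ N = 0 := by
  by_contra hcon
  push Not at hcon
  set A : End K (End K V) := LinearMap.mulLeft K h - LinearMap.mulRight K h with hA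
  have key : ∀ k : ℕ, A (e ^ k) = ((2 * k : ℕ) : K) • e ^ k := by
    intro k
    have hk : h * e ^ k - e ^ k * h = (2 * k) • e ^ k := by
      induction k with
      | zero => simp
      | succ k ih =>
        calc h * e ^ (k + 1) - e ^ (k + 1) * h
            = (h * e ^ k - e ^ k * h) * e + e ^ k * (h * e - e * h) := by
              rw [pow_succ]; noncomm_ring
          _ = (2 * (k + 1)) • e ^ (k + 1) := by
              rw [ih, t.he, pow_succ, mul_smul_comm, smul_mul_assoc, ← add_smul]
              congr 1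
    rw [hA, LinearMap.sub_apply, LinearMap.mulLeft_apply, LinearMap.mulRight_apply, hk,
      Nat.cast_smul_eq_nsmul]
  have hfin := Module.End.finite_hasEigenvalue A
  have hinf : Set.Infinite {μ | A.HasEigenvalue μ} := by
    refine Set.infinite_of_injective_forall_mem (f := fun k : ℕ => ((2 * k : ℕ) : K)) ?_ ?_
    · intro a b hab
      have h2 : ((2 * a : ℕ) : K) = ((2 * b : ℕ) : K) := hab
      have : (2 * a : ℕ) = 2 * b := Nat.cast_injective h2
      omega
    · intro k
      exact Module.End.hasEigenvalue_of_hasEigenvector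
        (x := e ^ k) ⟨Module.End.mem_eigenspace_iff.2 (key k), hcon k⟩
  exact hinf hfin

theorem Rel.isNilpotent_f (t : Rel e h f) : ∃ N : ℕ, f ^ N = 0 := t.symm.isNilpotent_e

/-- Key positivity lemma: if `f e u = - c u` with `c > 0` and `u` has weight `i ≥ 0` then
`u = 0`. -/
theorem Rel.eq_zero_of_fe (t : Rel e h f) {i : ℕ} {u : V} (hu : u ∈ E h i) {c : ℕ} (hc : 0 < c)
    (H : f (e u) = -((c : K) • u)) : u = 0 := by
  obtain ⟨N, hN⟩ := t.isNilpotent_e
  have key : ∀ r : ℕ, ∃ d : ℕ, 0 < d ∧ f ((e ^ (r + 1)) u) = -((d : K) • (e ^ r) u) := by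
    intro r
    induction r with
    | zero => exact ⟨c, hc, by simpa using H⟩
    | succ r ih =>
      obtain ⟨d, hd, hd2⟩ := ih
      refine ⟨d + i + 2 * (r + 1), by omega, ?_⟩
      have h1 : f ((e ^ (r + 1 + 1)) u) = e (f ((e ^ (r + 1)) u)) - h ((e ^ (r + 1)) u) := by
        rw [t.e_f, pow_succ' e (r + 1), Module.End.mul_apply]; abel
      have h2 : h ((e ^ (r + 1)) u) = ((i + 2 * (r + 1) : ℕ) : K) • (e ^ (r + 1)) u := by
        have := t.e_pow_mem hu (r + 1)
        rw [mem_E] at this
        rw [this]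
        push_cast
        rfl
      have h3 : e ((e ^ r) u) = (e ^ (r + 1)) u := by
        rw [pow_succ', Module.End.mul_apply]
      rw [h1, hd2, h2, map_neg, map_smul, h3]
      push_cast
      module
  have down : ∀ r : ℕ, (e ^ r) u = 0 → u = 0 := by
    intro r
    induction r with
    | zero => intro h; simpa using h
    | succ r ih =>
      intro hr
      obtain ⟨d, hd, hd2⟩ := key r
      rw [hr, map_zero] at hd2
      apply ih
      have : (d : K) • (e ^ r) u = 0 := by
        rw [← neg_eq_zero, ← hd2]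
      rcases smul_eq_zero.1 this with h | h
      · exact absurd h (by exact_mod_cast hd.ne')
      · exact h
  exact down N (by rw [hN]; rfl)

/-- `f^k` is injective on the weight space `i` if `k ≤ i`. -/
theorem Rel.f_pow_inj (t : Rel e h f) {i : ℕ} (k : ℕ) (hk : k ≤ i) {u : V} (hu : u ∈ E h i)
    (H : (f ^ k) u = 0) : u = 0 := by
  induction k generalizing u with
  | zero => simpa using H
  | succ k ih =>
    have h0 := t.e_f_pow k u
    rw [H, map_zero] at h0
    have h1 : h u - (k : K) • u = ((i - k : ℕ) : K) • u := by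
      rw [mem_E] at hu
      rw [hu, Nat.cast_sub (by omega), sub_smul]
      push_cast
      rfl
    rw [h1, map_smul, smul_smul, pow_succ, Module.End.mul_apply, ← map_smul, ← map_add] at h0
    have h2 : f (e u) + (((k : K) + 1) * ((i - k : ℕ) : K)) • u ∈ E h i := by
      refine Submodule.add_mem _ ?_ (Submodule.smul_mem _ _ hu)
      have := t.f_mem (t.e_mem hu)
      rwa [add_sub_cancel_right] at this
    have h3 := ih (by omega) h2 h0.symm
    refine t.eq_zero_of_fe hu (c := (k + 1) * (i - k)) (Nat.mul_pos (by omega) (by omega)) ?_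
    rw [eq_neg_iff_add_eq_zero]
    push_cast
    exact h3

theorem Rel.e_pow_inj (t : Rel e h f) {i : ℕ} (k : ℕ) (hk : k ≤ i) {u : V} (hu : u ∈ E h (-i))
    (H : (e ^ k) u = 0) : u = 0 :=
  t.symm.f_pow_inj k hk (by rw [mem_E_neg]; exact hu) H

/-- `e` is surjective from weight `k - 2` to weight `k` for `k ≥ 1`. -/
theorem Rel.e_surj (t : Rel e h f) {k : ℕ} (hk : 1 ≤ k) {u : V} (hu : u ∈ E h k) :
    ∃ w ∈ E h ((k : ℤ) - 2), e w = u := by
  have hmaps : ∀ x ∈ E h (k : ℤ), (e * f) x ∈ E h (k : ℤ) := by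
    intro x hx
    have := t.e_mem (t.f_mem hx)
    rwa [sub_add_cancel] at this
  set g : E h (k : ℤ) →ₗ[K] E h (k : ℤ) := (e * f).restrict hmaps with hg
  have hinj : Function.Injective g := by
    rw [injective_iff_map_eq_zero]
    intro x hx
    have hx1 : e (f (x : V)) = 0 := by
      have := congrArg (fun y : E h (k : ℤ) => (y : V)) hx
      simpa [hg] using this
    have hx2 : f (e (x : V)) = -((k : K) • (x : V)) := by
      have h1 := t.e_f (x : V)
      rw [hx1] at h1
      have h2 := mem_E.1 x.2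
      rw [h2] at h1
      rw [eq_neg_iff_add_eq_zero, h1]
      push_cast
      rfl
    exact Subtype.ext (t.eq_zero_of_fe x.2 (c := k) (by omega) hx2)
  have hsurj : Function.Surjective g := LinearMap.injective_iff_surjective.1 hinj
  obtain ⟨w, hw⟩ := hsurj ⟨u, hu⟩
  refine ⟨f w, t.f_mem w.2, ?_⟩
  have := congrArg (fun y : E h (k : ℤ) => (y : V)) hw
  simpa [hg] using this

omit [CharZero K] [FiniteDimensional K V] in
/-- the sum of the integral weight spaces -/
theorem E_le_iSup (i : ℤ) : E h i ≤ ⨆ i : ℤ, E h i := le_iSup (fun i : ℤ => E h i) i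

omit [FiniteDimensional K V] in
theorem indep (h : End K V) : iSupIndep (fun i : ℤ => E h i) :=
  (End.eigenspaces_iSupIndep h).comp (f := fun i : ℤ => (i : K)) Int.cast_injective

omit [CharZero K] [FiniteDimensional K V] in
theorem Rel.e_W (t : Rel e h f) {v : V} (hv : v ∈ ⨆ i : ℤ, E h i) : e v ∈ ⨆ i : ℤ, E h i := by
  induction hv using Submodule.iSup_induction' with
  | mem i x hx => exact E_le_iSup _ (t.e_mem hx)
  | zero => simp
  | add x y _ _ hx hy => rw [map_add]; exact Submodule.add_mem _ hx hy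

omit [CharZero K] [FiniteDimensional K V] in
theorem Rel.f_W (t : Rel e h f) {v : V} (hv : v ∈ ⨆ i : ℤ, E h i) : f v ∈ ⨆ i : ℤ, E h i := by
  induction hv using Submodule.iSup_induction' with
  | mem i x hx => exact E_le_iSup _ (t.f_mem hx)
  | zero => simp
  | add x y _ _ hx hy => rw [map_add]; exact Submodule.add_mem _ hx hy

omit [CharZero K] [FiniteDimensional K V] in
theorem h_W {v : V} (hv : v ∈ ⨆ i : ℤ, E h i) : h v ∈ ⨆ i : ℤ, E h i := by
  induction hv using Submodule.iSup_induction' with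
  | mem i x hx => rw [mem_E.1 hx]; exact E_le_iSup _ (Submodule.smul_mem _ _ hx)
  | zero => simp
  | add x y _ _ hx hy => rw [map_add]; exact Submodule.add_mem _ hx hy

omit [CharZero K] [FiniteDimensional K V] in
theorem Rel.e_pow_W (t : Rel e h f) {v : V} (hv : v ∈ ⨆ i : ℤ, E h i) (n : ℕ) :
    (e ^ n) v ∈ ⨆ i : ℤ, E h i := by
  induction n with
  | zero => simpa using hv
  | succ n ih => rw [pow_succ', Module.End.mul_apply]; exact t.e_W ih

omit [CharZero K] [FiniteDimensional K V] in
theorem Rel.f_pow_W (t : Rel e h f) {v : V} (hv : v ∈ ⨆ i : ℤ, E h i) (n : ℕ) :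
    (f ^ n) v ∈ ⨆ i : ℤ, E h i := by
  induction n with
  | zero => simpa using hv
  | succ n ih => rw [pow_succ', Module.End.mul_apply]; exact t.f_W ih

omit [FiniteDimensional K V] in
theorem claimB {w : V} (hw : w ∈ ⨆ i : ℤ, E h i) (j : ℤ) :
    ∃ w' ∈ ⨆ i : ℤ, E h i, ∃ y ∈ E h j, w = (h w' - (j : K) • w') + y := by
  induction hw using Submodule.iSup_induction' with
  | mem i x hx =>
    by_cases hij : i = j
    · subst hij
      exact ⟨0, Submodule.zero_mem _, x, hx, by simp⟩
    · have hne : (i : K) - (j : K) ≠ 0 := by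
        rw [sub_ne_zero]; exact fun H => hij (Int.cast_injective H)
      refine ⟨((i : K) - j)⁻¹ • x, E_le_iSup _ (Submodule.smul_mem _ _ hx), 0,
        Submodule.zero_mem _, ?_⟩
      rw [map_smul, mem_E.1 hx, smul_smul, smul_smul, add_zero, ← sub_smul]
      have : ((i : K) - j)⁻¹ * i - j * ((i : K) - j)⁻¹ = 1 := by
        field_simp
      rw [this, one_smul]
  | zero => exact ⟨0, Submodule.zero_mem _, 0, Submodule.zero_mem _, by simp⟩
  | add x y _ _ hx hy =>
    obtain ⟨w1, hw1, y1, hy1, e1⟩ := hx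
    obtain ⟨w2, hw2, y2, hy2, e2⟩ := hy
    refine ⟨w1 + w2, Submodule.add_mem _ hw1 hw2, y1 + y2, Submodule.add_mem _ hy1 hy2, ?_⟩
    rw [e1, e2, map_add, smul_add]
    abel

omit [FiniteDimensional K V] in
theorem claimC {w : V} (hw : w ∈ ⨆ i : ℤ, E h i) (j : ℤ) (H : h w - (j : K) • w ∈ E h j) :
    w ∈ E h j := by
  have hsplit : ∃ y ∈ E h j, ∃ w1 ∈ ⨆ (i : ℤ) (_ : i ≠ j), E h i, w = y + w1 := by
    have h1 : w ∈ E h j ⊔ ⨆ (i : ℤ) (_ : i ≠ j), E h i := by
      refine (iSup_le fun i => ?_ : (⨆ i : ℤ, E h i) ≤ _) hw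
      by_cases hij : i = j
      · subst hij; exact le_sup_left
      · exact le_trans (le_iSup₂_of_le i hij le_rfl) le_sup_right
    obtain ⟨y, hy, w1, hw1, e1⟩ := Submodule.mem_sup.1 h1
    exact ⟨y, hy, w1, hw1, e1.symm⟩
  obtain ⟨y, hy, w1, hw1, rfl⟩ := hsplit
  have hst : h w1 - (j : K) • w1 ∈ ⨆ (i : ℤ) (_ : i ≠ j), E h i := by
    refine Submodule.sub_mem _ ?_ (Submodule.smul_mem _ _ hw1)
    have : (⨆ (i : ℤ) (_ : i ≠ j), E h i) ≤ (⨆ (i : ℤ) (_ : i ≠ j), E h i).comap h := by
      refine iSup₂_le fun i hij x hx => ?_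
      rw [Submodule.mem_comap, mem_E.1 hx]
      exact Submodule.smul_mem _ _ (le_iSup₂_of_le (f := fun (i : ℤ) (_ : i ≠ j) => E h i)
        i hij le_rfl hx)
    exact this hw1
  have h0 : h (y + w1) - (j : K) • (y + w1) = h w1 - (j : K) • w1 := by
    rw [map_add, mem_E.1 hy, smul_add]; abel
  rw [h0] at H
  have hz : h w1 - (j : K) • w1 = 0 :=
    (Submodule.disjoint_def.1 (indep h j)) _ H hst
  refine Submodule.add_mem _ hy ?_
  rw [mem_E]
  exact sub_eq_zero.1 hz

/-- The weights are integers and `h` is diagonalisable. -/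
theorem Rel.iSup_E (t : Rel e h f) : ⨆ i : ℤ, E h i = ⊤ := by
  by_contra hne
  obtain ⟨v, -, hv⟩ := SetLike.exists_of_lt (lt_top_iff_ne_top.2 hne)
  set W := ⨆ i : ℤ, E h i with hW
  -- a vector killed by `e` modulo `W`
  obtain ⟨N, hN⟩ := t.isNilpotent_e
  have step1 : ∃ v, v ∉ W ∧ e v ∈ W := by
    by_contra hcon
    push Not at hcon
    have : ∀ n : ℕ, (e ^ n) v ∉ W := by
      intro n
      induction n with
      | zero => simpa using hv
      | succ n ih =>
        rw [pow_succ', Module.End.mul_apply]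
        exact hcon _ ih
    exact this N (by rw [hN]; exact Submodule.zero_mem _)
  obtain ⟨v0, hv0, hev0⟩ := step1
  have claim : ∀ (n : ℕ) (v : V), v ∉ W → e v ∈ W → (e ^ n) ((f ^ n) v) ∈ W →
      ∃ u, u ∉ W ∧ e u ∈ W ∧ ∃ s : ℕ, h u - (s : K) • u ∈ W := by
    intro n
    induction n with
    | zero => intro v hv _ h0; exact absurd (by simpa using h0) hv
    | succ n ih =>
      intro v hv hev h0
      by_cases hh : h v - (n : K) • v ∈ W
      · exact ⟨v, hv, hev, n, hh⟩
      · refine ih _ hh ?_ ?_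
        · rw [map_sub, map_smul]
          have h1 : e (h v) = h (e v) - 2 • e v := by rw [t.h_e]; abel
          rw [h1]
          exact Submodule.sub_mem _ (Submodule.sub_mem _ (h_W hev)
            (Submodule.smul_of_tower_mem _ _ hev)) (Submodule.smul_mem _ _ hev)
        · rw [pow_succ e n, Module.End.mul_apply, t.e_f_pow, map_add, map_smul] at h0
          have h2 : (e ^ n) ((f ^ (n + 1)) (e v)) ∈ W := t.e_pow_W (t.f_pow_W hev _) _
          have h3 := Submodule.sub_mem _ h0 h2
          rw [add_sub_cancel_left] at h3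
          have h4 : ((n : K) + 1) ≠ 0 := by exact_mod_cast Nat.succ_ne_zero n
          exact (Submodule.smul_mem_iff _ h4).1 h3
  obtain ⟨M, hM⟩ := t.isNilpotent_f
  obtain ⟨u, hu, heu, s, hs⟩ := claim M v0 hv0 hev0 (by rw [hM]; simp)
  obtain ⟨w', hw', y, hy, hy2⟩ := claimB hs (s : ℤ)
  -- first correction
  set u1 := u - w' with hu1
  have hu1W : u1 ∉ W := fun H => hu (by
    have := Submodule.add_mem _ H hw'
    rwa [hu1, sub_add_cancel] at this)
  have hhu1 : h u1 - (s : K) • u1 = y := by
    rw [hu1, map_sub, smul_sub]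
    have : h u - (s : K) • u - (h w' - (s : K) • w') = y := by
      rw [hy2]; push_cast; abel
    rw [← this]; abel
  have heu1 : e u1 ∈ W := by
    rw [hu1, map_sub]; exact Submodule.sub_mem _ heu (t.e_W hw')
  clear_value u1
  have heu1' : e u1 ∈ E h ((s : ℤ) + 2) := by
    refine claimC heu1 _ ?_
    have h1 : h (e u1) - (((s : ℤ) + 2 : ℤ) : K) • e u1 = e y := by
      rw [← hhu1, map_sub, map_smul, t.h_e]
      push_cast
      module
    rw [h1]
    exact t.e_mem hy
  obtain ⟨w2, hw2, hw22⟩ := t.e_surj (k := s + 2) (by omega) (u := e u1) (by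
    push_cast; exact heu1')
  have hw2' : w2 ∈ E h (s : ℤ) := by
    have : (((s + 2 : ℕ) : ℤ) - 2) = (s : ℤ) := by push_cast; ring
    rwa [this] at hw2
  set u2 := u1 - w2 with hu2
  have hu2W : u2 ∉ W := fun H => hu1W (by
    have := Submodule.add_mem _ H (E_le_iSup _ hw2')
    rwa [hu2, sub_add_cancel] at this)
  have heu2 : e u2 = 0 := by rw [hu2, map_sub, hw22, sub_self]
  have hhu2 : h u2 = (s : K) • u2 + y := by
    have h1 : h w2 = (s : K) • w2 := by
      have := mem_E.1 hw2'; exact_mod_cast this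
    rw [hu2, map_sub, h1, smul_sub, ← hhu1]; abel
  have hey : e y = 0 := by
    have h1 : e (h u2) = h (e u2) - 2 • e u2 := by rw [t.h_e]; abel
    rw [heu2, hhu2, map_add, map_smul, heu2] at h1
    simpa using h1
  have hyh : h y = (s : K) • y := by
    have := mem_E.1 hy; exact_mod_cast this
  have hfy : (f ^ (s + 1)) y = 0 := by
    have h1 : (f ^ (s + 1)) y ∈ E h (-((s + 2 : ℕ) : ℤ)) := by
      have := t.f_pow_mem hy (s + 1)
      have e1 : ((s : ℤ) - 2 * ((s + 1 : ℕ) : ℤ)) = -((s + 2 : ℕ) : ℤ) := by push_cast; ring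
      rwa [e1] at this
    refine t.e_pow_inj 1 (by omega) h1 ?_
    rw [pow_one, t.e_f_pow, hey, hyh, sub_self]
    simp
  have hfy' : ∀ n, s + 1 ≤ n → (f ^ n) y = 0 := by
    intro n hn
    obtain ⟨d, rfl⟩ := Nat.exists_eq_add_of_le hn
    rw [add_comm, pow_add, Module.End.mul_apply, hfy, map_zero]
  have down : ∀ d : ℕ, (f ^ (s + 1 + d)) u2 = 0 → (f ^ (s + 1)) u2 = 0 := by
    intro d
    induction d with
    | zero => intro h; simpa using h
    | succ d ih =>
      intro H
      apply ih
      have h1 := t.e_f_pow (s + 1 + d) u2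
      rw [show s + 1 + d + 1 = s + 1 + (d + 1) from rfl, H, map_zero, heu2, map_zero, zero_add,
        hhu2] at h1
      have h2 : (s : K) • u2 + y - ((s + 1 + d : ℕ) : K) • u2 = (-(1 + d : K)) • u2 + y := by
        push_cast; module
      rw [h2, map_add, map_smul, hfy' _ (by omega), add_zero, smul_smul] at h1
      rcases smul_eq_zero.1 h1.symm with h3 | h3
      · exfalso
        rcases mul_eq_zero.1 h3 with h4 | h4
        · have : ((s + 1 + d + 1 : ℕ) : K) = 0 := by push_cast; push_cast at h4; exact h4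
          exact absurd this (Nat.cast_ne_zero.2 (by omega))
        · have : ((1 + d : ℕ) : K) = 0 := by push_cast; exact neg_eq_zero.1 h4
          exact absurd this (Nat.cast_ne_zero.2 (by omega))
      · exact h3
  have hfu2 : (f ^ (s + 1)) u2 = 0 := by
    refine down M ?_
    rw [pow_add, hM, mul_zero]; rfl
  have hlast := t.e_f_pow s u2
  rw [hfu2, map_zero, heu2, map_zero, zero_add, hhu2, add_sub_cancel_left] at hlast
  have hfsy : (f ^ s) y = 0 := by
    rcases smul_eq_zero.1 hlast.symm with h3 | h3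
    · exact absurd h3 (by exact_mod_cast Nat.succ_ne_zero s)
    · exact h3
  have hy0 : y = 0 := t.f_pow_inj s le_rfl hy hfsy
  apply hu2W
  refine E_le_iSup (s : ℤ) ?_
  rw [mem_E, hhu2, hy0, add_zero]
  push_cast
  rfl

end EndTheory

end Pool.Agent.FC.Sl2
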