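import Mathlib

/-!
# Fourier coefficients of automorphic representations of `Sp_{2n}(𝔸)`: the definitions

Fourier coefficients of automorphic representations of `Sp_{2n}(𝔸)`, `𝔸` the adele ring of `ℚ`,
attached to nilpotent orbits (symplectic partitions of `2n`).
-/

open RestrictedProduct Matrix MeasureTheory

noncomputable section

namespace Pool.Agent.FourierSp

/-! ### The adeles of `ℚ` -/

/-- The elements of `Nat.Primes` are primes. -/
@[reducible] def factPrime (p : Nat.Primes) : Fact (Nat.Prime (p : ℕ)) := ⟨p.2⟩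

attribute [instance] factPrime

/-- The ring `ℤ_p` in `ℚ_p`. -/
abbrev Zp (p : Nat.Primes) : Subring ℚ_[(p : ℕ)] := PadicInt.subring (p : ℕ)

/-- The ring of finite adeles of `ℚ`: the restricted product of the fields `ℚ_p` with respect to
the rings `ℤ_p`. -/
def Afin : Type := Πʳ p : Nat.Primes, [ℚ_[(p : ℕ)], Zp p]

/-- The ring structure of the finite adeles. -/
@[reducible] def Afin.ring : CommRing Afin :=
  (inferInstance : CommRing (Πʳ p : Nat.Primes, [ℚ_[(p : ℕ)], Zp p]))

/-- The topology of the finite adeles. -/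
@[reducible] def Afin.top : TopologicalSpace Afin :=
  (inferInstance : TopologicalSpace (Πʳ p : Nat.Primes, [ℚ_[(p : ℕ)], Zp p]))

attribute [instance] Afin.ring Afin.top

/-- The adele ring of `ℚ`. -/
def Adele : Type := ℝ × Afin

/-- The ring structure of the adeles. -/
@[reducible] def Adele.ring : CommRing Adele := (inferInstance : CommRing (ℝ × Afin))

/-- The topology of the adeles. -/
@[reducible] def Adele.top : TopologicalSpace Adele :=
  (inferInstance : TopologicalSpace (ℝ × Afin))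

attribute [instance] Adele.ring Adele.top

/-- The real component of an adele. -/
def Adele.real (x : Adele) : ℝ := Prod.fst (α := ℝ) (β := Afin) x

/-- The component of an adele at the prime `p`. -/
def Adele.comp (x : Adele) (p : Nat.Primes) : ℚ_[(p : ℕ)] :=
  let y : Πʳ p : Nat.Primes, [ℚ_[(p : ℕ)], Zp p] := Prod.snd (α := ℝ) (β := Afin) x
  y p

theorem rat_mem (q : ℚ) : ∀ᶠ p : Nat.Primes in Filter.cofinite, (q : ℚ_[(p : ℕ)]) ∈ Zp p := by
  have hfin : Set.Finite {p : Nat.Primes | (p : ℕ) ∣ q.den} := by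
    have h1 : Set.Finite {m : ℕ | m ∣ q.den} :=
      Set.Finite.subset (Set.finite_Iic q.den) (fun m hm => Nat.le_of_dvd q.den_pos hm)
    exact Set.Finite.preimage (f := fun p : Nat.Primes => (p : ℕ))
      (Set.injOn_of_injective Subtype.val_injective) h1
  refine Filter.mem_of_superset hfin.compl_mem_cofinite ?_
  intro p hp
  exact Padic.norm_rat_le_one hp

/-- The rational number `q` as a finite adele, with all components equal to `q`. -/
def diag (q : ℚ) : Afin := ⟨fun p => (q : ℚ_[(p : ℕ)]), rat_mem q⟩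

theorem diag_one : diag 1 = 1 := RestrictedProduct.ext _ _ fun _ => Rat.cast_one

theorem diag_mul (a b : ℚ) : diag (a * b) = diag a * diag b :=
  RestrictedProduct.ext _ _ fun _ => Rat.cast_mul a b

theorem diag_zero : diag 0 = 0 := RestrictedProduct.ext _ _ fun _ => Rat.cast_zero

theorem diag_add (a b : ℚ) : diag (a + b) = diag a + diag b :=
  RestrictedProduct.ext _ _ fun _ => Rat.cast_add a b

/-- The diagonal embedding of `ℚ` in the finite adeles. -/
def ratFin : ℚ →+* Afin where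
  toFun := diag
  map_one' := diag_one
  map_mul' := diag_mul
  map_zero' := diag_zero
  map_add' := diag_add

/-- The diagonal embedding of `ℚ` in the adeles. -/
def ratAdele : ℚ →+* Adele := RingHom.prod (algebraMap ℚ ℝ) ratFin

/-! ### Matrices and the symplectic group -/

/-- The matrices of size `2n`. -/
abbrev Mat (n : ℕ) (R : Type*) : Type _ := Matrix (Fin n ⊕ Fin n) (Fin n ⊕ Fin n) R

/-- The matrix of the symplectic form, `[[0, -1], [1, 0]]`. -/
abbrev Jm (n : ℕ) (R : Type*) [CommRing R] : Mat n R := Matrix.J (Fin n) R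

/-- `Sp_{2n}(R)` -/
abbrev Sp (n : ℕ) (R : Type*) [CommRing R] := Matrix.symplecticGroup (Fin n) R

/-- `Sp_{2n}(𝔸)`; it carries the topology induced from the `2n × 2n` matrices over `𝔸`. -/
def GA (n : ℕ) : Type := Sp n Adele

/-- The group structure of `Sp_{2n}(𝔸)`. -/
@[reducible] def GA.group (n : ℕ) : Group (GA n) := (inferInstance : Group (Sp n Adele))

/-- The topology of `Sp_{2n}(𝔸)`. -/
@[reducible] def GA.top (n : ℕ) : TopologicalSpace (GA n) :=
  (inferInstance : TopologicalSpace (Sp n Adele))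

attribute [instance] GA.group GA.top

/-- The matrix of an element of `Sp_{2n}(𝔸)`. -/
def GA.mat {n : ℕ} (g : GA n) : Mat n Adele := (g : Sp n Adele).1

/-- The real component of an element of `Sp_{2n}(𝔸)`. -/
def GA.real {n : ℕ} (g : GA n) : Mat n ℝ := g.mat.map Adele.real

/-- The maximal compact subgroup `U(n) × ∏ Sp_{2n}(ℤ_p)` of `Sp_{2n}(𝔸)`: the real component is
orthogonal and the components at the primes are integral. -/
structure InMaxCompact {n : ℕ} (k : GA n) : Prop where
  real : k.real * k.realᵀ = 1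
  fin : ∀ (p : Nat.Primes) i j, (k.mat i j).comp p ∈ Zp p

/-- A rational symplectic matrix as an element of `Sp_{2n}(𝔸)`. -/
def ofRat {n : ℕ} (g : Sp n ℚ) : GA n := ⟨g.1.map ratAdele, SymplecticGroup.map_mem g.2 ratAdele⟩

theorem ofRat_one (n : ℕ) : ofRat (1 : Sp n ℚ) = 1 :=
  Subtype.ext (Matrix.map_one ratAdele (map_zero ratAdele) (map_one ratAdele))

theorem ofRat_mul {n : ℕ} (a b : Sp n ℚ) : ofRat (a * b) = ofRat a * ofRat b :=
  Subtype.ext Matrix.map_mul

/-- The diagonal embedding of `Sp_{2n}(ℚ)` in `Sp_{2n}(𝔸)`. -/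
def ratSp (n : ℕ) : Sp n ℚ →* GA n where
  toFun := ofRat
  map_one' := ofRat_one n
  map_mul' := ofRat_mul

/-- `Sp_{2n}(ℚ)`, embedded diagonally in `Sp_{2n}(𝔸)`. -/
def GQ (n : ℕ) : Subgroup (GA n) := (ratSp n).range

/-! ### The automorphic quotient -/

/-- The automorphic quotient.  We use `G(𝔸) / G(ℚ)` with `G(𝔸)` acting on the left; the map
`g ↦ g⁻¹` identifies it with `G(ℚ) \ G(𝔸)` with the right action, see `autFun`. -/
def AutQuot (n : ℕ) : Type := GA n ⧸ GQ n

/-- The quotient topology. -/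
@[reducible] def AutQuot.top (n : ℕ) : TopologicalSpace (AutQuot n) :=
  (inferInstance : TopologicalSpace (GA n ⧸ GQ n))

attribute [instance] AutQuot.top

/-- The Borel sets. -/
@[reducible] def AutQuot.borel (n : ℕ) : MeasurableSpace (AutQuot n) := _root_.borel (AutQuot n)

/-- The left action of `Sp_{2n}(𝔸)`. -/
@[reducible] def AutQuot.action (n : ℕ) : SMul (GA n) (AutQuot n) :=
  (inferInstance : SMul (GA n) (GA n ⧸ GQ n))

attribute [instance] AutQuot.borel AutQuot.action

/-- The class of an element of `Sp_{2n}(𝔸)`. -/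
def AutQuot.mk {n : ℕ} (g : GA n) : AutQuot n := (QuotientGroup.mk g : GA n ⧸ GQ n)

/-- A function on `G(𝔸) / G(ℚ)` regarded as a left `G(ℚ)`-invariant function on `G(𝔸)`:
`φ(g) = F(g⁻¹ G(ℚ))`. -/
def autFun {n : ℕ} (F : AutQuot n → ℂ) (g : GA n) : ℂ := F (AutQuot.mk g⁻¹)

/-- The nonzero `G(𝔸)`-invariant Radon measures on the automorphic quotient
(there is one up to scaling). -/
structure IsInvariantRadon {n : ℕ} (μ : Measure (AutQuot n)) : Prop where
  ne_zero : μ ≠ 0
  finite_on_compacts : IsFiniteMeasureOnCompacts μ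
  invariant : SMulInvariantMeasure (GA n) (AutQuot n) μ

/-- The space `L²(G(ℚ) \ G(𝔸))`. -/
def L2 {n : ℕ} (μ : Measure (AutQuot n)) : Type := Lp ℂ 2 μ

/-- `L²` is a normed group. -/
@[reducible] def L2.normedGroup {n : ℕ} (μ : Measure (AutQuot n)) : NormedAddCommGroup (L2 μ) :=
  (inferInstance : NormedAddCommGroup (Lp ℂ 2 μ))

attribute [instance] L2.normedGroup

/-- `L²` is a complex vector space. -/
@[reducible] def L2.module {n : ℕ} (μ : Measure (AutQuot n)) : Module ℂ (L2 μ) :=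
  (inferInstance : Module ℂ (Lp ℂ 2 μ))

attribute [instance] L2.module

/-- A representative of an element of `L²`. -/
def L2.fn {n : ℕ} {μ : Measure (AutQuot n)} (F : L2 μ) : AutQuot n → ℂ :=
  let F' : Lp ℂ 2 μ := F
  F'

/-- A subspace of `L²(G(ℚ) \ G(𝔸))` is invariant if it is stable under right translation
`(R(g)φ)(x) = φ(xg)`; in terms of `F`, `(R(g)F)(x) = F(g⁻¹ x)`. -/
def IsInvariant {n : ℕ} (μ : Measure (AutQuot n)) (H : Submodule ℂ (L2 μ)) : Prop :=
  ∀ (g : GA n) (F F' : L2 μ), F ∈ H → (∀ᵐ x ∂μ, F'.fn x = F.fn (g⁻¹ • x)) → F' ∈ H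

/-- An irreducible automorphic representation realised in the space of square integrable
automorphic functions: a nonzero closed invariant subspace `H` of `L²(G(ℚ) \ G(𝔸))` without
closed invariant subspaces other than `0` and `H`. -/
structure IsIrredAut {n : ℕ} (μ : Measure (AutQuot n)) (H : Submodule ℂ (L2 μ)) : Prop where
  closed : IsClosed (H : Set (L2 μ))
  invariant : IsInvariant μ H
  ne_bot : H ≠ ⊥
  irreducible : ∀ H' : Submodule ℂ (L2 μ), IsClosed (H' : Set (L2 μ)) →
    IsInvariant μ H' → H' ≤ H → H' = ⊥ ∨ H' = H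

/-- `F` is `K`-finite: its right translates by the elements of the maximal compact subgroup span a
space of finite dimension. -/
def KFinite {n : ℕ} (F : AutQuot n → ℂ) : Prop :=
  FiniteDimensional ℂ (Submodule.span ℂ
    {F' : AutQuot n → ℂ | ∃ k : GA n, InMaxCompact k ∧ ∀ x, F' x = F (k⁻¹ • x)})

/-- The automorphic forms in the space of `H`: the continuous `K`-finite functions whose class lies
in `H`.  (As `H` is irreducible, hence admissible, these functions are smooth and `𝔷`-finite by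
theorems of Harish-Chandra.) -/
structure InSpace {n : ℕ} (μ : Measure (AutQuot n)) (H : Submodule ℂ (L2 μ))
    (F : AutQuot n → ℂ) : Prop where
  cont : Continuous F
  finite : KFinite F
  mem : ∃ hF : MemLp F 2 μ, (hF.toLp F : L2 μ) ∈ H

/-! ### Nilpotent elements and unipotent groups -/

/-- The Lie algebra `sp_{2n}(R)`. -/
def InSp {n : ℕ} {R : Type} [CommRing R] (x : Mat n R) : Prop := x * Jm n R + Jm n R * xᵀ = 0

/-- An `sl₂`-triple `(e, h, f)` over `ℚ` in the Lie algebra `sp_{2n}`. -/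
structure Triple (n : ℕ) where
  e : Mat n ℚ
  h : Mat n ℚ
  f : Mat n ℚ
  e_mem : InSp e
  h_mem : InSp h
  f_mem : InSp f
  he : h * e - e * h = 2 • e
  hf : h * f - f * h = -(2 • f)
  ef : e * f - f * e = h

/-- The eigenvectors of `ad h` on matrices for the eigenvalue `j`. -/
def IsAdEigen {n : ℕ} {R : Type} [CommRing R] (h : Mat n R) (j : ℤ) (X : Mat n R) : Prop :=
  h * X - X * h = (j : R) • X

/-- The span over `R` of the eigenspaces of `ad h` on matrices for the eigenvalues `≥ i`. -/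
def adGE {n : ℕ} {R : Type} [CommRing R] (h : Mat n R) (i : ℤ) : Submodule R (Mat n R) :=
  Submodule.span R {X | ∃ j : ℤ, i ≤ j ∧ IsAdEigen h j X}

theorem adGE_mono {n : ℕ} {R : Type} [CommRing R] {h : Mat n R} {i j : ℤ} (hij : i ≤ j) :
    adGE h j ≤ adGE h i :=
  Submodule.span_mono fun _ ⟨a, ha, h⟩ => ⟨a, hij.trans ha, h⟩

theorem adGE_mul {n : ℕ} {R : Type} [CommRing R] {h : Mat n R} {i j : ℤ} {X Y : Mat n R}
    (hX : X ∈ adGE h i) (hY : Y ∈ adGE h j) : X * Y ∈ adGE h (i + j) := by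
  induction hX using Submodule.span_induction with
  | mem X hX =>
    obtain ⟨a, ha, hX⟩ := hX
    change h * X - X * h = (a : R) • X at hX
    induction hY using Submodule.span_induction with
    | mem Y hY =>
      obtain ⟨b, hb, hY⟩ := hY
      change h * Y - Y * h = (b : R) • Y at hY
      refine Submodule.subset_span ⟨a + b, by omega, ?_⟩
      calc h * (X * Y) - X * Y * h = (h * X - X * h) * Y + X * (h * Y - Y * h) := by noncomm_ring
        _ = ((a + b : ℤ) : R) • (X * Y) := by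
          rw [hX, hY]; push_cast
          rw [Matrix.smul_mul, Matrix.mul_smul, add_smul]
    | zero => simp
    | add Y Z _ _ h1 h2 => rw [Matrix.mul_add]; exact Submodule.add_mem _ h1 h2
    | smul c Y _ h1 => rw [Matrix.mul_smul]; exact Submodule.smul_mem _ _ h1
  | zero => simp
  | add Y Z _ _ h1 h2 => rw [Matrix.add_mul]; exact Submodule.add_mem _ h1 h2
  | smul c Y _ h1 => rw [Matrix.smul_mul]; exact Submodule.smul_mem _ _ h1

/-- the adjoint involution `X ↦ J⁻¹ Xᵀ J` preserves the filtration if `h ∈ sp`. -/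
theorem adGE_adjoint {n : ℕ} {R : Type} [CommRing R] {h : Mat n R}
    (hh : h * J (Fin n) R + J (Fin n) R * hᵀ = 0) {i : ℤ} {X : Mat n R} (hX : X ∈ adGE h i) :
    -J (Fin n) R * Xᵀ * J (Fin n) R ∈ adGE h i := by
  have hJ2 : J (Fin n) R * J (Fin n) R = -1 := J_squared (Fin n) R
  have h1 : h * J (Fin n) R = - (J (Fin n) R * hᵀ) := eq_neg_of_add_eq_zero_left hh
  have h2 : J (Fin n) R * h = - (hᵀ * J (Fin n) R) := by
    have := congrArg (fun Z => J (Fin n) R * Z * J (Fin n) R) h1
    have e1 : J (Fin n) R * (h * J (Fin n) R) * J (Fin n) R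
        = J (Fin n) R * h * (J (Fin n) R * J (Fin n) R) := by noncomm_ring
    have e2 : J (Fin n) R * -(J (Fin n) R * hᵀ) * J (Fin n) R
        = -((J (Fin n) R * J (Fin n) R) * hᵀ * J (Fin n) R) := by noncomm_ring
    rw [e1, e2, hJ2] at this
    have e3 : J (Fin n) R * h * (-1) = -(J (Fin n) R * h) := by noncomm_ring
    have e4 : -(-1 * hᵀ * J (Fin n) R) = hᵀ * J (Fin n) R := by noncomm_ring
    rw [e3, e4] at this
    rw [← this, neg_neg]
  induction hX using Submodule.span_induction with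
  | mem X hX =>
    obtain ⟨a, ha, hX⟩ := hX
    change h * X - X * h = (a : R) • X at hX
    refine Submodule.subset_span ⟨a, ha, ?_⟩
    have hXt : Xᵀ * hᵀ - hᵀ * Xᵀ = (a : R) • Xᵀ := by
      have := congrArg Matrix.transpose hX
      simpa [Matrix.transpose_sub, Matrix.transpose_mul, Matrix.transpose_smul] using this
    calc h * (-J (Fin n) R * Xᵀ * J (Fin n) R) - -J (Fin n) R * Xᵀ * J (Fin n) R * h
        = -(h * J (Fin n) R) * Xᵀ * J (Fin n) R + J (Fin n) R * Xᵀ * (J (Fin n) R * h) := by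
          noncomm_ring
      _ = -J (Fin n) R * (Xᵀ * hᵀ - hᵀ * Xᵀ) * J (Fin n) R := by
          rw [h1, h2]; noncomm_ring
      _ = (a : R) • (-J (Fin n) R * Xᵀ * J (Fin n) R) := by
          rw [hXt]; simp
  | zero => simp
  | add Y Z _ _ h1 h2 =>
    have : -J (Fin n) R * (Y + Z)ᵀ * J (Fin n) R
      = -J (Fin n) R * Yᵀ * J (Fin n) R + -J (Fin n) R * Zᵀ * J (Fin n) R := by
      rw [Matrix.transpose_add]; noncomm_ring
    rw [this]; exact Submodule.add_mem _ h1 h2
  | smul c Y _ h1 =>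
    have : -J (Fin n) R * (c • Y)ᵀ * J (Fin n) R = c • (-J (Fin n) R * Yᵀ * J (Fin n) R) := by
      simp
    rw [this]; exact Submodule.smul_mem _ _ h1

/-- The elements `v` of `Sp_{2n}(R)` with `v - 1 ∈ ⨁_{i ≥ 2} gl_i`. -/
def InUnip {n : ℕ} {R : Type} [CommRing R] (h : Mat n R) (v : Sp n R) : Prop :=
  v.1 - 1 ∈ adGE h 2

theorem inUnip_one {n : ℕ} {R : Type} [CommRing R] (h : Mat n R) : InUnip h 1 := by
  simp [InUnip]

theorem InUnip.mul {n : ℕ} {R : Type} [CommRing R] {h : Mat n R} {u v : Sp n R}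
    (hu : InUnip h u) (hv : InUnip h v) : InUnip h (u * v) := by
  have : ((u * v : Matrix.symplecticGroup (Fin n) R) : Mat n R) - 1
      = ((u : Mat n R) - 1) * ((v : Mat n R) - 1) + ((u : Mat n R) - 1) + ((v : Mat n R) - 1) := by
    rw [Submonoid.coe_mul]; noncomm_ring
  change ((u * v : Matrix.symplecticGroup (Fin n) R) : Mat n R) - 1 ∈ adGE h 2
  rw [this]
  exact Submodule.add_mem _ (Submodule.add_mem _ (adGE_mono (by norm_num) (adGE_mul hu hv)) hu) hv

theorem InUnip.inv {n : ℕ} {R : Type} [CommRing R] {h : Mat n R} (hh : InSp h) {v : Sp n R}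
    (hv : InUnip h v) : InUnip h v⁻¹ := by
  have hJ2 : J (Fin n) R * J (Fin n) R = -1 := J_squared (Fin n) R
  have : ((v⁻¹ : Matrix.symplecticGroup (Fin n) R) : Mat n R) - 1
      = -J (Fin n) R * ((v : Mat n R) - 1)ᵀ * J (Fin n) R := by
    rw [SymplecticGroup.coe_inv, Matrix.transpose_sub, Matrix.transpose_one]
    have : -J (Fin n) R * ((v : Mat n R)ᵀ - 1) * J (Fin n) R
      = -J (Fin n) R * (v : Mat n R)ᵀ * J (Fin n) R + J (Fin n) R * J (Fin n) R := by noncomm_ring
    rw [this, hJ2]; noncomm_ring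
  change ((v⁻¹ : Matrix.symplecticGroup (Fin n) R) : Mat n R) - 1 ∈ adGE h 2
  rw [this]
  exact adGE_adjoint hh hv

namespace Triple

variable {n : ℕ} (T : Triple n)

/-- The matrix `h` over the adeles. -/
def hA : Mat n Adele := T.h.map ratAdele

/-- The matrix `f` over the adeles. -/
def fA : Mat n Adele := T.f.map ratAdele

theorem hA_mem : InSp T.hA := by
  have := congrArg (fun Z : Mat n ℚ => Z.map ratAdele) T.h_mem
  rw [Matrix.map_add _ (map_add ratAdele), Matrix.map_mul, Matrix.map_mul,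
    Matrix.transpose_map] at this
  rw [Matrix.map_zero _ (map_zero ratAdele)] at this
  rw [map_J (Fin n) ratAdele] at this
  exact this

/-- The group `V_{f,2}(𝔸)`, that is `{v ∈ Sp_{2n}(𝔸) | v - 1 ∈ ⨁_{i ≥ 2} gl_i}`.  Since `exp` and
`log` are polynomials on `⨁_{i ≥ 2} gl_i`, it is `exp(⨁_{i ≥ 2} g_i)`. -/
def VA : Subgroup (GA n) where
  carrier := {v | InUnip T.hA v}
  one_mem' := inUnip_one T.hA
  mul_mem' := InUnip.mul
  inv_mem' := InUnip.inv T.hA_mem

/-- `V_{f,2}(ℚ)`, as a subgroup of `V_{f,2}(𝔸)`. -/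
def VQ : Subgroup T.VA := (GQ n).subgroupOf T.VA

/-- The quotient `V_{f,2}(𝔸) / V_{f,2}(ℚ)`. -/
def VQuot : Type := T.VA ⧸ T.VQ

/-- The quotient topology. -/
@[reducible] def VQuot.top : TopologicalSpace T.VQuot :=
  (inferInstance : TopologicalSpace (T.VA ⧸ T.VQ))

attribute [instance] VQuot.top

/-- The Borel sets. -/
@[reducible] def VQuot.borel : MeasurableSpace T.VQuot := _root_.borel T.VQuot

/-- The left action of `V_{f,2}(𝔸)`. -/
@[reducible] def VQuot.action : SMul T.VA T.VQuot := (inferInstance : SMul T.VA (T.VA ⧸ T.VQ))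

attribute [instance] VQuot.borel VQuot.action

variable {T} in
/-- A representative in `V_{f,2}(𝔸)`. -/
def VQuot.rep (x : T.VQuot) : GA n := (Quotient.out x : T.VA)

/-- The character `ψ_f` of `V_{f,2}(𝔸)`: `ψ_f(v) = ψ(tr(f (v - 1)))`.  For `v = exp X` with
`X ∈ ⨁_{i ≥ 2} g_i` one has `tr(f (v - 1)) = tr(f X)`, because `f` has degree `-2` and the terms
`X^k`, `k ≥ 2`, have degree `≥ 4`. -/
def char (ψ : AddChar Adele Circle) (v : GA n) : ℂ :=
  ((ψ (Matrix.trace (T.fA * (v.mat - 1))) : Circle) : ℂ)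

/-- The Fourier coefficient
`φ^{ψ_f}(g) = ∫_{V(ℚ)\V(𝔸)} φ(v g) ψ_f(v)⁻¹ dv = ∫_{V(𝔸)/V(ℚ)} φ(v⁻¹ g) ψ_f(v) dv`, for
`φ = autFun F`; `ρ` is the invariant measure on `V(𝔸)/V(ℚ)`.
The integrand does not depend on the choice of the representative `x.rep`. -/
def coeff (ψ : AddChar Adele Circle) (ρ : Measure T.VQuot) (F : AutQuot n → ℂ) (g : GA n) : ℂ :=
  ∫ x : T.VQuot, autFun F (x.rep⁻¹ * g) * T.char ψ x.rep ∂ρ

/-- The nonzero finite invariant measures on `V(𝔸)/V(ℚ)`. -/
structure IsInvMeasure (ρ : Measure T.VQuot) : Prop where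
  ne_zero : ρ ≠ 0
  finite : IsFiniteMeasure ρ
  invariant : SMulInvariantMeasure T.VA T.VQuot ρ

end Triple

/-! ### Partitions -/

/-- The Jordan type of a nilpotent matrix, in terms of the ranks of its powers. -/
def HasJordanType {n : ℕ} (f : Mat n ℚ) (p : Nat.Partition (2 * n)) : Prop :=
  ∀ k : ℕ, (f ^ k).rank = (p.parts.map (fun i => i - k)).sum

/-- Symplectic partitions: every odd part occurs with even multiplicity. -/
def IsSymplectic {m : ℕ} (p : Nat.Partition m) : Prop :=
  ∀ i : ℕ, Odd i → Even (p.parts.count i)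

/-- The sum of the `k` largest parts. -/
def topSum {m : ℕ} (p : Nat.Partition m) (k : ℕ) : ℕ :=
  ((p.parts.sort (· ≥ ·)).take k).sum

/-- The dominance order, `p ≤ p'`. -/
def DomLE {m : ℕ} (p p' : Nat.Partition m) : Prop := ∀ k : ℕ, topSum p k ≤ topSum p' k

/-- `H` has a nonzero Fourier coefficient attached to `p`. -/
def HasCoeff {n : ℕ} (ψ : AddChar Adele Circle) (μ : Measure (AutQuot n))
    (H : Submodule ℂ (L2 μ)) (p : Nat.Partition (2 * n)) : Prop :=
  ∃ T : Triple n, HasJordanType T.f p ∧ ∃ ρ : Measure T.VQuot, T.IsInvMeasure ρ ∧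
    ∃ F : AutQuot n → ℂ, InSpace μ H F ∧ ∃ g : GA n, T.coeff ψ ρ F g ≠ 0

/-- `𝔭^m(H)`. -/
def maxPartitions {n : ℕ} (ψ : AddChar Adele Circle) (μ : Measure (AutQuot n))
    (H : Submodule ℂ (L2 μ)) : Set (Nat.Partition (2 * n)) :=
  {p | IsSymplectic p ∧ HasCoeff ψ μ H p ∧
    ∀ p' : Nat.Partition (2 * n), IsSymplectic p' → DomLE p p' → p' ≠ p → ¬ HasCoeff ψ μ H p'}

theorem part822_sum : ({8, 2, 2} : Multiset ℕ).sum = 2 * 6 := rfl

theorem part822_pos {i : ℕ} (hi : i ∈ ({8, 2, 2} : Multiset ℕ)) : 0 < i := by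
  simp at hi; omega

theorem part66_sum : ({6, 6} : Multiset ℕ).sum = 2 * 6 := rfl

theorem part66_pos {i : ℕ} (hi : i ∈ ({6, 6} : Multiset ℕ)) : 0 < i := by
  simp at hi; omega

/-- the partition `[8,2,2]` of `12`. -/
def part822 : Nat.Partition (2 * 6) := ⟨{8, 2, 2}, part822_pos, part822_sum⟩

/-- the partition `[6,6]` of `12`. -/
def part66 : Nat.Partition (2 * 6) := ⟨{6, 6}, part66_pos, part66_sum⟩

/-- The nontrivial continuous characters of `𝔸 / ℚ`. -/
structure IsAdelicChar (ψ : AddChar Adele Circle) : Prop where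
  cont : Continuous ψ
  rat : ∀ q : ℚ, ψ (ratAdele q) = 1
  nontrivial : ∃ x, ψ x ≠ 1

/-- The theorem. -/
def MainStatement : Prop :=
  ∀ ψ : AddChar Adele Circle, IsAdelicChar ψ → ∃ μ : Measure (AutQuot 6), IsInvariantRadon μ ∧
    ∃ H : Submodule ℂ (L2 μ), IsIrredAut μ H ∧
      part822 ∈ maxPartitions ψ μ H ∧ part66 ∈ maxPartitions ψ μ H

end Pool.Agent.FourierSp
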