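import Pool.Agent.FC.Stmt
import Pool.Agent.FC.Defs

/-!
# The two forms of the statement: the parts which agree by definition
-/

set_option autoImplicit false

open RestrictedProduct Matrix MeasureTheory

namespace Pool.Agent.FourierSp

theorem ratAdele_eq : ratAdele = FC.ratAdele := rfl

theorem gq_eq (n : ℕ) : (GQ n : Subgroup (GA n)) = (FC.GQ n : Subgroup (FC.GA n)) := rfl

/-- Triples. -/
def toNew {n : ℕ} (T : FC.Triple n) : Triple n :=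
  ⟨T.e, T.h, T.f, T.e_mem, T.h_mem, T.f_mem, T.he, T.hf, T.ef⟩

/-- Triples. -/
def toOld {n : ℕ} (T : Triple n) : FC.Triple n :=
  ⟨T.e, T.h, T.f, T.e_mem, T.h_mem, T.f_mem, T.he, T.hf, T.ef⟩

theorem va_eq {n : ℕ} (T : FC.Triple n) :
    ((toNew T).VA : Subgroup (GA n)) = (T.VA : Subgroup (FC.GA n)) := rfl

theorem coeff_eq {n : ℕ} (T : FC.Triple n) (ψ : AddChar FC.Adele Circle)
    (ρ : Measure (T.VA ⧸ T.VQ)) (F : FC.AutQuot n → ℂ) (g : FC.GA n) :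
    (toNew T).coeff ψ ρ F g = T.coeff ψ ρ F g := rfl

theorem coeff_eq' {n : ℕ} (T : Triple n) (ψ : AddChar Adele Circle)
    (ρ : Measure T.VQuot) (F : AutQuot n → ℂ) (g : GA n) :
    (toOld T).coeff ψ ρ F g = T.coeff ψ ρ F g := rfl

theorem inv_of {n : ℕ} (T : FC.Triple n) (ρ : Measure (T.VA ⧸ T.VQ)) (h1 : ρ ≠ 0)
    (h2 : IsFiniteMeasure ρ) (h3 : SMulInvariantMeasure T.VA (T.VA ⧸ T.VQ) ρ) :
    (toNew T).IsInvMeasure ρ := ⟨h1, h2, h3⟩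

theorem of_inv {n : ℕ} (T : Triple n) (ρ : Measure T.VQuot) (h : T.IsInvMeasure ρ) :
    (ρ : Measure ((toOld T).VA ⧸ (toOld T).VQ)) ≠ 0 ∧
      IsFiniteMeasure (ρ : Measure ((toOld T).VA ⧸ (toOld T).VQ)) ∧
      SMulInvariantMeasure (toOld T).VA ((toOld T).VA ⧸ (toOld T).VQ) ρ := ⟨h.1, h.2, h.3⟩

theorem inSpace_of {n : ℕ} {μ : Measure (FC.AutQuot n)} {H : Submodule ℂ (Lp ℂ 2 μ)}
    {F : FC.AutQuot n → ℂ} (h : InSpace (n := n) μ H F) : FC.InSpace μ H F := ⟨h.cont, h.mem⟩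

theorem hasCoeff_of {n : ℕ} {ψ : AddChar FC.Adele Circle} {μ : Measure (FC.AutQuot n)}
    {H : Submodule ℂ (Lp ℂ 2 μ)} {p : Nat.Partition (2 * n)} (h : HasCoeff (n := n) ψ μ H p) :
    FC.HasCoeff ψ μ H p := by
  obtain ⟨T, hT, ρ, hρ, F, hF, g, hg⟩ := h
  obtain ⟨h1, h2, h3⟩ := of_inv T ρ hρ
  have hg' : (toOld T).coeff ψ ρ F g ≠ 0 := fun h0 => hg ((coeff_eq' T ψ ρ F g).symm.trans h0)
  exact ⟨toOld T, hT, ρ, h1, h2, h3, F, inSpace_of hF, g, hg'⟩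

theorem isIrredAut_of {n : ℕ} (μ : Measure (FC.AutQuot n)) (H : Submodule ℂ (Lp ℂ 2 μ))
    (h : FC.IsIrredAut μ H) : IsIrredAut (n := n) μ H :=
  ⟨h.1, h.2, h.3, h.4⟩

theorem isInvariantRadon_of {n : ℕ} (μ : Measure (FC.AutQuot n)) (h : FC.IsInvariantRadon μ) :
    IsInvariantRadon (n := n) μ :=
  ⟨h.1, h.2, h.3⟩

end Pool.Agent.FourierSp
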