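import Pool.Agent.FC.StmtEq
import Pool.Agent.FC.KFin

/-!
# The two forms of the statement: `K`-finite vectors and the main statement
-/

set_option autoImplicit false

open RestrictedProduct Matrix MeasureTheory

namespace Pool.Agent.FourierSp

theorem mem_of_inMaxCompact {n : ℕ} {k : FC.GA n} (h : InMaxCompact (n := n) k) :
    k ∈ FC.KA n :=
  ⟨h.real, fun p i j => h.fin p i j⟩

theorem finite_aux {X : Type} {s t : Set (X → ℂ)}
    (h : FiniteDimensional ℂ (Submodule.span ℂ t)) (hst : s ⊆ t) :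
    FiniteDimensional ℂ (Submodule.span ℂ s) :=
  Submodule.finiteDimensional_of_le (Submodule.span_mono hst)

theorem kfinite_of {n : ℕ} {F : FC.AutQuot n → ℂ} (h : FC.KFin.KFinite (FC.KA n) F) :
    KFinite (n := n) F := by
  refine finite_aux (X := FC.AutQuot n) h ?_
  rintro F' ⟨k, hk, hF'⟩
  exact ⟨⟨k, mem_of_inMaxCompact hk⟩, funext fun x => (hF' x).symm⟩

theorem hasCoeff_to {n : ℕ} {ψ : AddChar FC.Adele Circle} {μ : Measure (FC.AutQuot n)}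
    {H : Submodule ℂ (Lp ℂ 2 μ)} {p : Nat.Partition (2 * n)} (hμ : FC.IsInvariantRadon μ)
    (hH : FC.IsIrredAut μ H) (hψ : Continuous ψ) (hψq : ∀ q : ℚ, ψ (FC.ratAdele q) = 1)
    (h : FC.HasCoeff ψ μ H p) : HasCoeff (n := n) ψ μ H p := by
  obtain ⟨T, hT, ρ, h1, h2, h3, F, hF, g, hg⟩ := h
  obtain ⟨F', hF', hfin, hg'⟩ :=
    FC.KFin.exists_kfinite hμ hH.closed hH.invariant hψ hψq T ρ h2 hF g hg
  exact ⟨toNew T, hT, ρ, inv_of T ρ h1 h2 h3, F', ⟨hF'.1, kfinite_of hfin, hF'.2⟩, g,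
    fun h0 => hg' ((coeff_eq T ψ ρ F' g).symm.trans h0)⟩

theorem max_to {n : ℕ} {ψ : AddChar FC.Adele Circle} {μ : Measure (FC.AutQuot n)}
    {H : Submodule ℂ (Lp ℂ 2 μ)} {p : Nat.Partition (2 * n)} (hμ : FC.IsInvariantRadon μ)
    (hH : FC.IsIrredAut μ H) (hψ : Continuous ψ) (hψq : ∀ q : ℚ, ψ (FC.ratAdele q) = 1)
    (h : p ∈ FC.maxPartitions ψ μ H) : p ∈ maxPartitions (n := n) ψ μ H :=
  ⟨h.1, hasCoeff_to hμ hH hψ hψq h.2.1, fun p' h1 h2 h3 h4 => h.2.2 p' h1 h2 h3 (hasCoeff_of h4)⟩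

theorem of_main (h : FC.MainStatement) : MainStatement := by
  intro ψ hψ
  obtain ⟨μ, hμ, H, hH, h1, h2⟩ := h ψ hψ.cont hψ.rat hψ.nontrivial
  exact ⟨μ, isInvariantRadon_of μ hμ, H, isIrredAut_of μ H hH,
    max_to hμ hH hψ.cont hψ.rat h1, max_to hμ hH hψ.cont hψ.rat h2⟩

end Pool.Agent.FourierSp
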