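import Pool.Agent.FC.Defs

/-!
# The two explicit `sl_2`-triples and their Jordan types
-/

open Matrix

namespace Pool.Agent.FC.Trip

open Pool.Agent.FC

theorem rank_cert {r : ℕ} (M : Matrix (Fin 12) (Fin 12) ℚ) (U : Matrix (Fin 12) (Fin r) ℚ)
    (V : Matrix (Fin r) (Fin 12) ℚ) (L : Matrix (Fin r) (Fin 12) ℚ)
    (R : Matrix (Fin 12) (Fin r) ℚ) (h : M = U * V) (hL : L * U = 1) (hR : V * R = 1) :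
    M.rank = r := by
  apply le_antisymm
  · rw [h]
    refine (Matrix.rank_mul_le_left U V).trans ?_
    have := Matrix.rank_le_card_width U
    simpa using this
  · have h1 : L * M * R = (1 : Matrix (Fin r) (Fin r) ℚ) := by
      rw [h]
      calc L * (U * V) * R = (L * U) * (V * R) := by simp only [Matrix.mul_assoc]
        _ = 1 := by rw [hL, hR, Matrix.one_mul]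
    have h2 : (1 : Matrix (Fin r) (Fin r) ℚ).rank ≤ M.rank := by
      rw [← h1]
      exact (Matrix.rank_mul_le_left _ _).trans (Matrix.rank_mul_le_right _ _)
    simpa using h2

/-- the matrix of `f_1^1` -/
def F1p1 : Matrix (Fin 12) (Fin 12) ℚ :=
  !![0,0,0,0,0,0,0,0,0,0,0,0; 0,0,0,0,0,0,0,0,1/9,0,0,0; 0,0,0,0,0,0,0,1/9,0,0,0,0; 0,0,0,0,0,0,0,0,0,0,0,-1/9; 0,0,0,0,0,0,0,0,0,0,0,0; 0,0,0,0,0,0,0,0,0,-1/9,0,1/9; 0,1/3,0,0,0,0,0,0,0,0,0,0; 1/3,0,0,0,0,0,0,0,0,0,0,0; 0,0,0,0,0,-1/3,0,0,0,0,0,0; 0,0,0,0,0,0,0,0,0,0,0,0; 0,0,0,0,-1/3,0,0,0,0,0,0,0; 0,0,-1/3,0,0,0,0,0,0,0,0,0]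

/-- the matrix of `f_1^2` -/
def F1p2 : Matrix (Fin 12) (Fin 12) ℚ :=
  !![0,0,0,0,0,0,0,0,0,0,0,0; 0,0,0,0,0,-1/27,0,0,0,0,0,0; 1/27,0,0,0,0,0,0,0,0,0,0,0; 0,0,1/27,0,0,0,0,0,0,0,0,0; 0,0,0,0,0,0,0,0,0,0,0,0; 0,0,-1/27,0,0,0,0,0,0,0,0,0; 0,0,0,0,0,0,0,0,1/27,0,0,0; 0,0,0,0,0,0,0,0,0,0,0,0; 0,0,0,0,0,0,0,0,0,1/27,0,-1/27; 0,0,0,0,0,0,0,0,0,0,0,0; 0,0,0,0,0,0,0,0,0,0,0,0; 0,0,0,0,0,0,0,-1/27,0,0,0,0]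

/-- the matrix of `f_1^3` -/
def F1p3 : Matrix (Fin 12) (Fin 12) ℚ :=
  !![0,0,0,0,0,0,0,0,0,0,0,0; 0,0,0,0,0,0,0,0,0,1/243,0,-1/243; 0,0,0,0,0,0,0,0,0,0,0,0; 0,0,0,0,0,0,0,1/243,0,0,0,0; 0,0,0,0,0,0,0,0,0,0,0,0; 0,0,0,0,0,0,0,-1/243,0,0,0,0; 0,0,0,0,0,-1/81,0,0,0,0,0,0; 0,0,0,0,0,0,0,0,0,0,0,0; 0,0,1/81,0,0,0,0,0,0,0,0,0; 0,0,0,0,0,0,0,0,0,0,0,0; 0,0,0,0,0,0,0,0,0,0,0,0; -1/81,0,0,0,0,0,0,0,0,0,0,0]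

/-- the matrix of `f_1^4` -/
def F1p4 : Matrix (Fin 12) (Fin 12) ℚ :=
  !![0,0,0,0,0,0,0,0,0,0,0,0; 0,0,1/729,0,0,0,0,0,0,0,0,0; 0,0,0,0,0,0,0,0,0,0,0,0; 1/729,0,0,0,0,0,0,0,0,0,0,0; 0,0,0,0,0,0,0,0,0,0,0,0; -1/729,0,0,0,0,0,0,0,0,0,0,0; 0,0,0,0,0,0,0,0,0,1/729,0,-1/729; 0,0,0,0,0,0,0,0,0,0,0,0; 0,0,0,0,0,0,0,1/729,0,0,0,0; 0,0,0,0,0,0,0,0,0,0,0,0; 0,0,0,0,0,0,0,0,0,0,0,0; 0,0,0,0,0,0,0,0,0,0,0,0]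

/-- the matrix of `f_1^5` -/
def F1p5 : Matrix (Fin 12) (Fin 12) ℚ :=
  !![0,0,0,0,0,0,0,0,0,0,0,0; 0,0,0,0,0,0,0,1/6561,0,0,0,0; 0,0,0,0,0,0,0,0,0,0,0,0; 0,0,0,0,0,0,0,0,0,0,0,0; 0,0,0,0,0,0,0,0,0,0,0,0; 0,0,0,0,0,0,0,0,0,0,0,0; 0,0,1/2187,0,0,0,0,0,0,0,0,0; 0,0,0,0,0,0,0,0,0,0,0,0; 1/2187,0,0,0,0,0,0,0,0,0,0,0; 0,0,0,0,0,0,0,0,0,0,0,0; 0,0,0,0,0,0,0,0,0,0,0,0; 0,0,0,0,0,0,0,0,0,0,0,0]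

/-- the matrix of `f_1^6` -/
def F1p6 : Matrix (Fin 12) (Fin 12) ℚ :=
  !![0,0,0,0,0,0,0,0,0,0,0,0; 1/19683,0,0,0,0,0,0,0,0,0,0,0; 0,0,0,0,0,0,0,0,0,0,0,0; 0,0,0,0,0,0,0,0,0,0,0,0; 0,0,0,0,0,0,0,0,0,0,0,0; 0,0,0,0,0,0,0,0,0,0,0,0; 0,0,0,0,0,0,0,1/19683,0,0,0,0; 0,0,0,0,0,0,0,0,0,0,0,0; 0,0,0,0,0,0,0,0,0,0,0,0; 0,0,0,0,0,0,0,0,0,0,0,0; 0,0,0,0,0,0,0,0,0,0,0,0; 0,0,0,0,0,0,0,0,0,0,0,0]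

/-- the matrix of `f_1^7` -/
def F1p7 : Matrix (Fin 12) (Fin 12) ℚ :=
  !![0,0,0,0,0,0,0,0,0,0,0,0; 0,0,0,0,0,0,0,0,0,0,0,0; 0,0,0,0,0,0,0,0,0,0,0,0; 0,0,0,0,0,0,0,0,0,0,0,0; 0,0,0,0,0,0,0,0,0,0,0,0; 0,0,0,0,0,0,0,0,0,0,0,0; 1/59049,0,0,0,0,0,0,0,0,0,0,0; 0,0,0,0,0,0,0,0,0,0,0,0; 0,0,0,0,0,0,0,0,0,0,0,0; 0,0,0,0,0,0,0,0,0,0,0,0; 0,0,0,0,0,0,0,0,0,0,0,0; 0,0,0,0,0,0,0,0,0,0,0,0]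

theorem F1p2_eq : F1p1 * F1p1 = F1p2 := by decide +kernel
theorem F1p3_eq : F1p2 * F1p1 = F1p3 := by decide +kernel
theorem F1p4_eq : F1p3 * F1p1 = F1p4 := by decide +kernel
theorem F1p5_eq : F1p4 * F1p1 = F1p5 := by decide +kernel
theorem F1p6_eq : F1p5 * F1p1 = F1p6 := by decide +kernel
theorem F1p7_eq : F1p6 * F1p1 = F1p7 := by decide +kernel
theorem F1p8_eq : F1p7 * F1p1 = 0 := by decide +kernel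

theorem rank_F1p1 : F1p1.rank = 9 :=
  rank_cert F1p1
    (!![0,0,0,0,0,0,0,0,0; 0,0,0,0,0,0,1/9,0,0; 0,0,0,0,0,1/9,0,0,0; 0,0,0,0,0,0,0,0,-1/9; 0,0,0,0,0,0,0,0,0; 0,0,0,0,0,0,0,-1/9,1/9; 0,1/3,0,0,0,0,0,0,0; 1/3,0,0,0,0,0,0,0,0; 0,0,0,0,-1/3,0,0,0,0; 0,0,0,0,0,0,0,0,0; 0,0,0,-1/3,0,0,0,0,0; 0,0,-1/3,0,0,0,0,0,0])
    (!![1,0,0,0,0,0,0,0,0,0,0,0; 0,1,0,0,0,0,0,0,0,0,0,0; 0,0,1,0,0,0,0,0,0,0,0,0; 0,0,0,0,1,0,0,0,0,0,0,0; 0,0,0,0,0,1,0,0,0,0,0,0; 0,0,0,0,0,0,0,1,0,0,0,0; 0,0,0,0,0,0,0,0,1,0,0,0; 0,0,0,0,0,0,0,0,0,1,0,0; 0,0,0,0,0,0,0,0,0,0,0,1])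
    (!![0,0,0,0,0,0,0,3,0,0,0,0; 0,0,0,0,0,0,3,0,0,0,0,0; 0,0,0,0,0,0,0,0,0,0,0,-3; 0,0,0,0,0,0,0,0,0,0,-3,0; 0,0,0,0,0,0,0,0,-3,0,0,0; 0,0,9,0,0,0,0,0,0,0,0,0; 0,9,0,0,0,0,0,0,0,0,0,0; 0,0,0,-9,0,-9,0,0,0,0,0,0; 0,0,0,-9,0,0,0,0,0,0,0,0])
    (!![1,0,0,0,0,0,0,0,0; 0,1,0,0,0,0,0,0,0; 0,0,1,0,0,0,0,0,0; 0,0,0,0,0,0,0,0,0; 0,0,0,1,0,0,0,0,0; 0,0,0,0,1,0,0,0,0; 0,0,0,0,0,0,0,0,0; 0,0,0,0,0,1,0,0,0; 0,0,0,0,0,0,1,0,0; 0,0,0,0,0,0,0,1,0; 0,0,0,0,0,0,0,0,0; 0,0,0,0,0,0,0,0,1])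
    (by decide +kernel) (by decide +kernel) (by decide +kernel)

theorem rank_F1p2 : F1p2.rank = 6 :=
  rank_cert F1p2
    (!![0,0,0,0,0,0; 0,0,-1/27,0,0,0; 1/27,0,0,0,0,0; 0,1/27,0,0,0,0; 0,0,0,0,0,0; 0,-1/27,0,0,0,0; 0,0,0,0,1/27,0; 0,0,0,0,0,0; 0,0,0,0,0,1/27; 0,0,0,0,0,0; 0,0,0,0,0,0; 0,0,0,-1/27,0,0])
    (!![1,0,0,0,0,0,0,0,0,0,0,0; 0,0,1,0,0,0,0,0,0,0,0,0; 0,0,0,0,0,1,0,0,0,0,0,0; 0,0,0,0,0,0,0,1,0,0,0,0; 0,0,0,0,0,0,0,0,1,0,0,0; 0,0,0,0,0,0,0,0,0,1,0,-1])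
    (!![0,0,27,0,0,0,0,0,0,0,0,0; 0,0,0,27,0,0,0,0,0,0,0,0; 0,-27,0,0,0,0,0,0,0,0,0,0; 0,0,0,0,0,0,0,0,0,0,0,-27; 0,0,0,0,0,0,27,0,0,0,0,0; 0,0,0,0,0,0,0,0,27,0,0,0])
    (!![1,0,0,0,0,0; 0,0,0,0,0,0; 0,1,0,0,0,0; 0,0,0,0,0,0; 0,0,0,0,0,0; 0,0,1,0,0,0; 0,0,0,0,0,0; 0,0,0,1,0,0; 0,0,0,0,1,0; 0,0,0,0,0,1; 0,0,0,0,0,0; 0,0,0,0,0,0])
    (by decide +kernel) (by decide +kernel) (by decide +kernel)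

theorem rank_F1p3 : F1p3.rank = 5 :=
  rank_cert F1p3
    (!![0,0,0,0,0; 0,0,0,0,1/243; 0,0,0,0,0; 0,0,0,1/243,0; 0,0,0,0,0; 0,0,0,-1/243,0; 0,0,-1/81,0,0; 0,0,0,0,0; 0,1/81,0,0,0; 0,0,0,0,0; 0,0,0,0,0; -1/81,0,0,0,0])
    (!![1,0,0,0,0,0,0,0,0,0,0,0; 0,0,1,0,0,0,0,0,0,0,0,0; 0,0,0,0,0,1,0,0,0,0,0,0; 0,0,0,0,0,0,0,1,0,0,0,0; 0,0,0,0,0,0,0,0,0,1,0,-1])
    (!![0,0,0,0,0,0,0,0,0,0,0,-81; 0,0,0,0,0,0,0,0,81,0,0,0; 0,0,0,0,0,0,-81,0,0,0,0,0; 0,0,0,243,0,0,0,0,0,0,0,0; 0,243,0,0,0,0,0,0,0,0,0,0])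
    (!![1,0,0,0,0; 0,0,0,0,0; 0,1,0,0,0; 0,0,0,0,0; 0,0,0,0,0; 0,0,1,0,0; 0,0,0,0,0; 0,0,0,1,0; 0,0,0,0,0; 0,0,0,0,1; 0,0,0,0,0; 0,0,0,0,0])
    (by decide +kernel) (by decide +kernel) (by decide +kernel)

theorem rank_F1p4 : F1p4.rank = 4 :=
  rank_cert F1p4
    (!![0,0,0,0; 0,1/729,0,0; 0,0,0,0; 1/729,0,0,0; 0,0,0,0; -1/729,0,0,0; 0,0,0,1/729; 0,0,0,0; 0,0,1/729,0; 0,0,0,0; 0,0,0,0; 0,0,0,0])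
    (!![1,0,0,0,0,0,0,0,0,0,0,0; 0,0,1,0,0,0,0,0,0,0,0,0; 0,0,0,0,0,0,0,1,0,0,0,0; 0,0,0,0,0,0,0,0,0,1,0,-1])
    (!![0,0,0,729,0,0,0,0,0,0,0,0; 0,729,0,0,0,0,0,0,0,0,0,0; 0,0,0,0,0,0,0,0,729,0,0,0; 0,0,0,0,0,0,729,0,0,0,0,0])
    (!![1,0,0,0; 0,0,0,0; 0,1,0,0; 0,0,0,0; 0,0,0,0; 0,0,0,0; 0,0,0,0; 0,0,1,0; 0,0,0,0; 0,0,0,1; 0,0,0,0; 0,0,0,0])
    (by decide +kernel) (by decide +kernel) (by decide +kernel)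

theorem rank_F1p5 : F1p5.rank = 3 :=
  rank_cert F1p5
    (!![0,0,0; 0,0,1/6561; 0,0,0; 0,0,0; 0,0,0; 0,0,0; 0,1/2187,0; 0,0,0; 1/2187,0,0; 0,0,0; 0,0,0; 0,0,0])
    (!![1,0,0,0,0,0,0,0,0,0,0,0; 0,0,1,0,0,0,0,0,0,0,0,0; 0,0,0,0,0,0,0,1,0,0,0,0])
    (!![0,0,0,0,0,0,0,0,2187,0,0,0; 0,0,0,0,0,0,2187,0,0,0,0,0; 0,6561,0,0,0,0,0,0,0,0,0,0])
    (!![1,0,0; 0,0,0; 0,1,0; 0,0,0; 0,0,0; 0,0,0; 0,0,0; 0,0,1; 0,0,0; 0,0,0; 0,0,0; 0,0,0])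
    (by decide +kernel) (by decide +kernel) (by decide +kernel)

theorem rank_F1p6 : F1p6.rank = 2 :=
  rank_cert F1p6
    (!![0,0; 1/19683,0; 0,0; 0,0; 0,0; 0,0; 0,1/19683; 0,0; 0,0; 0,0; 0,0; 0,0])
    (!![1,0,0,0,0,0,0,0,0,0,0,0; 0,0,0,0,0,0,0,1,0,0,0,0])
    (!![0,19683,0,0,0,0,0,0,0,0,0,0; 0,0,0,0,0,0,19683,0,0,0,0,0])
    (!![1,0; 0,0; 0,0; 0,0; 0,0; 0,0; 0,0; 0,1; 0,0; 0,0; 0,0; 0,0])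
    (by decide +kernel) (by decide +kernel) (by decide +kernel)

theorem rank_F1p7 : F1p7.rank = 1 :=
  rank_cert F1p7
    (!![0; 0; 0; 0; 0; 0; 1/59049; 0; 0; 0; 0; 0])
    (!![1,0,0,0,0,0,0,0,0,0,0,0])
    (!![0,0,0,0,0,0,59049,0,0,0,0,0])
    (!![1; 0; 0; 0; 0; 0; 0; 0; 0; 0; 0; 0])
    (by decide +kernel) (by decide +kernel) (by decide +kernel)


end Pool.Agent.FC.Trip
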