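import Pool.Agent.FC.Defs

set_option linter.all false

namespace Pool.Agent.FC.VComp

open Matrix

variable {n : ℕ} {R : Type*} [CommRing R]

/-- the adjoint involution -/
def adj (X : Mat n R) : Mat n R := -J (Fin n) R * Xᵀ * J (Fin n) R

theorem JJ : J (Fin n) R * J (Fin n) R = -1 := J_squared (Fin n) R

theorem adj_add (X Y : Mat n R) : adj (X + Y) = adj X + adj Y := by
  unfold adj; rw [Matrix.transpose_add]; noncomm_ring

theorem adj_neg (X : Mat n R) : adj (-X) = -adj X := by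
  unfold adj; rw [Matrix.transpose_neg]; noncomm_ring

theorem adj_sub (X Y : Mat n R) : adj (X - Y) = adj X - adj Y := by
  rw [sub_eq_add_neg, adj_add, adj_neg, ← sub_eq_add_neg]

theorem adj_zero : adj (0 : Mat n R) = 0 := by
  simp [adj]

theorem adj_smul (c : R) (X : Mat n R) : adj (c • X) = c • adj X := by
  unfold adj; rw [Matrix.transpose_smul, Matrix.mul_smul, Matrix.smul_mul]

theorem adj_one : adj (1 : Mat n R) = 1 := by
  unfold adj; rw [Matrix.transpose_one, Matrix.mul_one, Matrix.neg_mul, JJ, neg_neg]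

theorem adj_mul (X Y : Mat n R) : adj (X * Y) = adj Y * adj X := by
  unfold adj
  rw [Matrix.transpose_mul]
  have : -J (Fin n) R * Yᵀ * J (Fin n) R * (-J (Fin n) R * Xᵀ * J (Fin n) R)
    = J (Fin n) R * Yᵀ * (J (Fin n) R * J (Fin n) R) * Xᵀ * J (Fin n) R := by noncomm_ring
  rw [this, JJ]; noncomm_ring

theorem adj_adj (X : Mat n R) : adj (adj X) = X := by
  unfold adj
  rw [Matrix.transpose_mul, Matrix.transpose_mul, Matrix.transpose_neg, J_transpose,
    Matrix.transpose_transpose]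
  have : -J (Fin n) R * (-J (Fin n) R * (X * - -J (Fin n) R)) * J (Fin n) R
    = (J (Fin n) R * J (Fin n) R) * X * (J (Fin n) R * J (Fin n) R) := by noncomm_ring
  rw [this, JJ]; noncomm_ring

theorem adj_pow (X : Mat n R) (k : ℕ) : adj (X ^ k) = (adj X) ^ k := by
  induction k with
  | zero => simp [adj_one]
  | succ k ih => rw [pow_succ, adj_mul, ih, pow_succ']

theorem mem_sp_iff (X : Mat n R) :
    X ∈ symplecticGroup (Fin n) R ↔ X * adj X = 1 := by
  rw [SymplecticGroup.mem_iff]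
  unfold adj
  constructor
  · intro h
    have : X * (-J (Fin n) R * Xᵀ * J (Fin n) R) = -(X * J (Fin n) R * Xᵀ) * J (Fin n) R := by
      noncomm_ring
    rw [this, h, Matrix.neg_mul, JJ, neg_neg]
  · intro h
    have : X * J (Fin n) R * Xᵀ = (X * (-J (Fin n) R * Xᵀ * J (Fin n) R)) * J (Fin n) R
        + X * J (Fin n) R * Xᵀ * (J (Fin n) R * J (Fin n) R + 1) := by noncomm_ring
    rw [this, h, JJ]; simp

theorem sp_iff (X : Mat n R) : X * J (Fin n) R + J (Fin n) R * Xᵀ = 0 ↔ adj X = -X := by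
  unfold adj
  constructor
  · intro h
    have h1 : J (Fin n) R * Xᵀ = -(X * J (Fin n) R) := by
      rw [eq_neg_iff_add_eq_zero, add_comm]; exact h
    have : -J (Fin n) R * Xᵀ * J (Fin n) R = -(J (Fin n) R * Xᵀ) * J (Fin n) R := by noncomm_ring
    rw [this, h1]
    have : - -(X * J (Fin n) R) * J (Fin n) R = X * (J (Fin n) R * J (Fin n) R) := by noncomm_ring
    rw [this, JJ]; noncomm_ring
  · intro h
    have h2 : J (Fin n) R * Xᵀ = (-J (Fin n) R * Xᵀ * J (Fin n) R) * J (Fin n) R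
       + J (Fin n) R * Xᵀ * (J (Fin n) R * J (Fin n) R + 1) := by noncomm_ring
    rw [h2, h, JJ]; noncomm_ring

/-- the geometric series -/
def geo (N : ℕ) (Y : Mat n R) : Mat n R := ∑ k ∈ Finset.range N, Y ^ k

theorem geo_mul (N : ℕ) (Y : Mat n R) (hN : Y ^ N = 0) : geo N Y * (1 - Y) = 1 := by
  unfold geo
  rw [geom_sum_mul_neg, hN, sub_zero]

theorem mul_geo (N : ℕ) (Y : Mat n R) (hN : Y ^ N = 0) : (1 - Y) * geo N Y = 1 := by
  unfold geo
  rw [mul_neg_geom_sum, hN, sub_zero]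

theorem adj_geo (N : ℕ) (Y : Mat n R) (hY : adj Y = -Y) : adj (geo N Y) = geo N (-Y) := by
  unfold geo
  induction N with
  | zero => simp [adj_zero]
  | succ N ih => rw [Finset.sum_range_succ, adj_add, ih, Finset.sum_range_succ, adj_pow, hY]

/-- the Cayley transform `(1 + Y) / (1 - Y)` -/
def cay (N : ℕ) (Y : Mat n R) : Mat n R := 2 • geo N Y - 1

theorem cay_mem (N : ℕ) (Y : Mat n R) (hN : Y ^ N = 0) (hY : adj Y = -Y) :
    cay N Y ∈ symplecticGroup (Fin n) R := by
  rw [mem_sp_iff]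
  have hN' : (-Y) ^ N = 0 := by
    rw [neg_pow, hN, mul_zero]
  have e1 : adj (cay N Y) = 2 • geo N (-Y) - 1 := by
    unfold cay
    rw [adj_sub, adj_one, two_nsmul, two_nsmul, adj_add, adj_geo N Y hY]
  have a1 := geo_mul N Y hN
  have b2 := mul_geo N (-Y) hN'
  have c1 : 2 • geo N Y - 1 = geo N Y * (1 + Y) := by
    have : geo N Y * (1 + Y) = 2 • geo N Y - geo N Y * (1 - Y) := by noncomm_ring
    rw [this, a1]
  have c2 : 2 • geo N (-Y) - 1 = (1 - Y) * geo N (-Y) := by
    have : (1 - Y) * geo N (-Y) = 2 • geo N (-Y) - (1 - -Y) * geo N (-Y) := by noncomm_ring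
    rw [this, b2]
  rw [e1]
  unfold cay
  rw [c1, c2]
  have : geo N Y * (1 + Y) * ((1 - Y) * geo N (-Y))
    = (geo N Y * (1 - Y)) * ((1 - -Y) * geo N (-Y)) := by noncomm_ring
  rw [this, a1, b2, one_mul]

theorem cay_eq (N : ℕ) (Y : Mat n R) (hN : Y ^ N = 0) :
    cay N Y = 1 + 2 • Y + 2 • (Y ^ 2 * geo N Y) := by
  unfold cay
  have h1 := mul_geo N Y hN
  have h2 : geo N Y = 1 + Y * geo N Y := by
    have : (1 - Y) * geo N Y = geo N Y - Y * geo N Y := by noncomm_ring
    rw [this] at h1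
    exact sub_eq_iff_eq_add.mp h1
  have h3 : geo N Y = 1 + Y + Y ^ 2 * geo N Y := by
    have : Y * geo N Y = Y + Y ^ 2 * geo N Y := by
      conv_lhs => rw [h2]
      noncomm_ring
    conv_lhs => rw [h2, this]
    rw [add_assoc]
  conv_lhs => rw [h3]
  noncomm_ring

theorem adGE_pow {h : Mat n R} {i : ℤ} (hi : 0 ≤ i) {Y : Mat n R} (hY : Y ∈ adGE h i) (k : ℕ) :
    Y ^ (k + 1) ∈ adGE h ((k + 1) * i) := by
  induction k with
  | zero => simpa using hY
  | succ k ih =>
    rw [pow_succ]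
    refine adGE_mono ?_ (adGE_mul ih hY)
    push_cast; linarith

theorem cay_sub_mem {h : Mat n R} {i : ℤ} (hi : 1 ≤ i) {Y : Mat n R} (hY : Y ∈ adGE h i) (N : ℕ)
    (hN : Y ^ N = 0) : cay N Y - 1 - 2 • Y ∈ adGE h (i + 1) := by
  rw [cay_eq N Y hN]
  have : (1 : Mat n R) + 2 • Y + 2 • (Y ^ 2 * geo N Y) - 1 - 2 • Y = 2 • (Y ^ 2 * geo N Y) := by
    abel
  rw [this]
  refine nsmul_mem ?_ 2
  unfold geo
  rw [Finset.mul_sum]
  refine Submodule.sum_mem _ fun k _ => ?_
  rw [← pow_add]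
  have h2 := adGE_pow (by linarith) hY (k + 1)
  rw [show 2 + k = k + 1 + 1 by ring]
  refine adGE_mono ?_ h2
  push_cast
  nlinarith [Int.natCast_nonneg k]

theorem cay_sub_one_mem {h : Mat n R} {i : ℤ} (hi : 1 ≤ i) {Y : Mat n R} (hY : Y ∈ adGE h i) (N : ℕ)
    (hN : Y ^ N = 0) : cay N Y - 1 ∈ adGE h i := by
  have h1 := cay_sub_mem hi hY N hN
  have h2 : 2 • Y ∈ adGE h i := nsmul_mem hY 2
  have h3 := Submodule.add_mem _ (adGE_mono (by linarith) h1) h2
  simpa using h3

theorem map_adj {S : Type*} [CommRing S] (φ : R →+* S) (X : Mat n R) :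
    (adj X).map φ = adj (X.map φ) := by
  unfold adj
  have h1 : (-J (Fin n) R).map φ = -J (Fin n) S := by
    rw [← map_J (Fin n) φ]
    ext i j
    rw [Matrix.map_apply, Matrix.neg_apply, Matrix.neg_apply, map_neg, Matrix.map_apply]
  rw [Matrix.map_mul, Matrix.map_mul, map_J, ← Matrix.transpose_map, h1]

theorem map_cay {S : Type*} [CommRing S] (φ : R →+* S) (N : ℕ) (X : Mat n R) :
    (cay N X).map φ = cay N (X.map φ) := by
  have h1 : ∀ Z : Mat n R, Z.map φ = φ.mapMatrix Z := fun Z => rfl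
  unfold cay geo
  rw [h1, h1, map_sub, map_nsmul, map_sum, map_one]
  simp_rw [map_pow]

/-- the leading component of an element of `adGE` -/
theorem exists_lead {h : Mat n R} {i : ℤ} {X : Mat n R} (hX : X ∈ adGE h i) :
    ∃ Y : Mat n R, h * Y - Y * h = (i : R) • Y ∧ X - Y ∈ adGE h (i + 1) := by
  induction hX using Submodule.span_induction with
  | mem X hX =>
    obtain ⟨j, hj, hX⟩ := hX
    rcases hj.eq_or_lt with rfl | hlt
    · exact ⟨X, hX, by simp⟩
    · refine ⟨0, by simp, ?_⟩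
      rw [sub_zero]
      exact Submodule.subset_span ⟨j, hlt, hX⟩
  | zero => exact ⟨0, by simp, by simp⟩
  | add X Y _ _ hX hY =>
    obtain ⟨X', hX1, hX2⟩ := hX
    obtain ⟨Y', hY1, hY2⟩ := hY
    refine ⟨X' + Y', ?_, ?_⟩
    · rw [smul_add, ← hX1, ← hY1]; noncomm_ring
    · have := Submodule.add_mem _ hX2 hY2
      have e : X + Y - (X' + Y') = X - X' + (Y - Y') := by abel
      rw [e]; exact this
  | smul c X _ hX =>
    obtain ⟨X', hX1, hX2⟩ := hX
    refine ⟨c • X', ?_, ?_⟩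
    · rw [Matrix.mul_smul, Matrix.smul_mul, ← smul_sub, hX1, smul_comm]
    · rw [← smul_sub]; exact Submodule.smul_mem _ _ hX2

theorem weight_adj {h : Mat n R} (hh : h * J (Fin n) R + J (Fin n) R * hᵀ = 0) {i : ℤ}
    {X : Mat n R} (hX : h * X - X * h = (i : R) • X) :
    h * adj X - adj X * h = (i : R) • adj X := by
  have h1 : adj h = -h := (sp_iff h).mp hh
  have h2 := congrArg adj hX
  rw [adj_sub, adj_mul, adj_mul, h1, adj_smul] at h2
  rw [← h2]; noncomm_ring

end Pool.Agent.FC.VComp
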