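import Pool.Agent.FC.VCompA
import Pool.Agent.FC.AdeleSp

set_option linter.all false

namespace Pool.Agent.FC.VComp

open Matrix RestrictedProduct

variable {n : ℕ}

section functional

theorem map_weight (lam : Adele →+ ℚ) (hl : ∀ (q : ℚ) (x : Adele), lam (ratAdele q * x) = q * lam x)
    (h : Mat n ℚ) {j : ℤ} {X : Mat n Adele}
    (hX : h.map ratAdele * X - X * h.map ratAdele = (j : Adele) • X) :
    h * X.map lam - X.map lam * h = (j : ℚ) • X.map lam := by
  ext a b
  have h1 := congrArg lam (congrFun (congrFun hX a) b)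
  rw [Matrix.sub_apply, map_sub, Matrix.mul_apply, Matrix.mul_apply, map_sum, map_sum,
    Matrix.smul_apply, smul_eq_mul] at h1
  have h2 : (j : Adele) = ratAdele (j : ℚ) := by rw [map_intCast]
  rw [h2, hl] at h1
  rw [Matrix.sub_apply, Matrix.mul_apply, Matrix.mul_apply, Matrix.smul_apply, smul_eq_mul,
    Matrix.map_apply, ← h1]
  congr 1
  · refine Finset.sum_congr rfl fun c _ => ?_
    rw [Matrix.map_apply, Matrix.map_apply, hl]
  · refine Finset.sum_congr rfl fun c _ => ?_
    rw [Matrix.map_apply, Matrix.map_apply, mul_comm (X a c), hl, mul_comm]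

theorem exists_lam {x : Adele} (hx : x ≠ 0) : ∃ lam : Adele →+ ℚ,
    (∀ (q : ℚ) (x : Adele), lam (ratAdele q * x) = q * lam x) ∧ lam x ≠ 0 := by
  letI : Algebra ℚ Adele := ratAdele.toAlgebra
  obtain ⟨lam, hlam⟩ : ∃ lam : Adele →ₗ[ℚ] ℚ, lam x ≠ 0 := by
    by_contra hcon
    push Not at hcon
    exact hx ((Module.forall_dual_apply_eq_zero_iff ℚ _).mp hcon)
  refine ⟨lam.toAddMonoidHom, fun q y => ?_, hlam⟩
  have : ratAdele q * y = q • y := rfl
  rw [this]
  exact lam.map_smul q y

end functional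

theorem exists_bound (h : Mat n ℚ) : ∃ N : ℤ, 1 ≤ N ∧ ∀ j : ℤ, N ≤ j → ∀ X : Mat n Adele,
    h.map ratAdele * X - X * h.map ratAdele = (j : Adele) • X → X = 0 := by
  classical
  let L : Module.End ℚ (Mat n ℚ) := LinearMap.mulLeft ℚ h - LinearMap.mulRight ℚ h
  have hL : ∀ X, L X = h * X - X * h := fun X => by simp [L]
  have hfin : {μ : ℚ | L.HasEigenvalue μ}.Finite := Module.End.finite_hasEigenvalue L
  have hfin2 : {j : ℤ | L.HasEigenvalue (j : ℚ)}.Finite :=
    hfin.preimage (Int.cast_injective.injOn)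
  obtain ⟨N, hN⟩ := hfin2.bddAbove
  refine ⟨max (N + 1) 1, le_max_right _ _, fun j hj X hX => ?_⟩
  by_contra hne
  obtain ⟨a, b, hab⟩ : ∃ a b, X a b ≠ 0 := by
    by_contra hcon
    push Not at hcon
    exact hne (Matrix.ext fun a b => hcon a b)
  obtain ⟨lam, hl, hlam⟩ := exists_lam hab
  have hw := map_weight lam hl h hX
  have hev : L.HasEigenvalue (j : ℚ) := by
    refine Module.End.hasEigenvalue_of_hasEigenvector (x := X.map lam) ⟨?_, ?_⟩
    · rw [Module.End.mem_eigenspace_iff, hL]
      exact hw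
    · intro h0
      apply hlam
      have := congrFun (congrFun h0 a) b
      simpa using this
  have h1 := hN hev
  have h2 : N + 1 ≤ j := le_trans (le_max_left _ _) hj
  linarith

theorem exists_proj (h : Mat n ℚ) (i : ℤ) :
    ∃ P : (Fin n ⊕ Fin n) → (Fin n ⊕ Fin n) → Mat n ℚ,
      (∀ k l, h * P k l - P k l * h = (i : ℚ) • P k l) ∧
      ∀ X : Mat n Adele, h.map ratAdele * X - X * h.map ratAdele = (i : Adele) • X →
        X = ∑ k, ∑ l, X k l • (P k l).map ratAdele := by
  classical
  let L : Mat n ℚ →ₗ[ℚ] Mat n ℚ :=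
    LinearMap.mulLeft ℚ h - LinearMap.mulRight ℚ h - (i : ℚ) • LinearMap.id
  have hL : ∀ X, L X = h * X - X * h - (i : ℚ) • X := fun X => by simp [L]
  obtain ⟨s, hs⟩ : ∃ s : Mat n ℚ →ₗ[ℚ] Mat n ℚ, ∀ X, L (s (L X)) = L X := by
    obtain ⟨s', hs'⟩ := LinearMap.exists_rightInverse_of_surjective L.rangeRestrict
      (LinearMap.range_rangeRestrict L)
    obtain ⟨s, hs⟩ := LinearMap.exists_extend s'
    refine ⟨s, fun X => ?_⟩
    have h1 : s (L X) = s' (L.rangeRestrict X) := by
      have := LinearMap.congr_fun hs (L.rangeRestrict X)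
      simpa using this
    rw [h1]
    have h2 := LinearMap.congr_fun hs' (L.rangeRestrict X)
    exact congrArg Subtype.val h2
  refine ⟨fun k l => Matrix.single k l 1 - s (L (Matrix.single k l 1)), ?_, ?_⟩
  · intro k l
    have h1 : L (Matrix.single k l 1 - s (L (Matrix.single k l 1))) = 0 := by
      rw [map_sub, hs, sub_self]
    rw [hL] at h1
    exact sub_eq_zero.mp h1
  · intro X hX
    by_contra hne
    have hne2 : X - ∑ k, ∑ l, X k l •
      (Matrix.single k l 1 - s (L (Matrix.single k l 1)) : Mat n ℚ).map ratAdele ≠ 0 :=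
      sub_ne_zero.mpr hne
    obtain ⟨a, b, hab⟩ : ∃ a b, (X - ∑ k, ∑ l, X k l •
      (Matrix.single k l 1 - s (L (Matrix.single k l 1)) : Mat n ℚ).map ratAdele) a b ≠ 0 := by
      by_contra hcon
      push Not at hcon
      exact hne2 (Matrix.ext fun a b => hcon a b)
    obtain ⟨lam, hl, hlam⟩ := exists_lam hab
    apply hlam
    have hw := map_weight lam hl h hX
    have hL0 : L (X.map lam) = 0 := by rw [hL, hw, sub_self]
    have hsum : X.map lam = ∑ k, ∑ l, X.map lam k l •
      (Matrix.single k l 1 - s (L (Matrix.single k l 1)) : Mat n ℚ) := by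
      have h1 : X.map lam = ∑ k, ∑ l, X.map lam k l • (Matrix.single k l (1 : ℚ)) := by
        conv_lhs => rw [Matrix.matrix_eq_sum_single (X.map lam)]
        simp [Matrix.smul_single]
      have h2 : X.map lam - s (L (X.map lam)) = ∑ k, ∑ l, X.map lam k l •
        (Matrix.single k l 1 - s (L (Matrix.single k l 1)) : Mat n ℚ) := by
        conv_lhs => rw [h1]
        simp only [map_sum, map_smul, smul_sub, Finset.sum_sub_distrib]
      rw [hL0, map_zero, sub_zero] at h2
      exact h2
    have h3 := congrFun (congrFun hsum a) b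
    rw [Matrix.sub_apply, map_sub, sub_eq_zero]
    rw [Matrix.map_apply] at h3
    rw [h3]
    simp only [Matrix.sum_apply, Matrix.smul_apply, smul_eq_mul, map_sum, Matrix.map_apply]
    refine Finset.sum_congr rfl fun k _ => Finset.sum_congr rfl fun l _ => ?_
    rw [mul_comm (X k l), hl, mul_comm]

theorem map_smul_rat (r : ℚ) (P : Mat n ℚ) :
    (r • P).map ratAdele = ratAdele r • P.map ratAdele := by
  refine Matrix.ext fun a b => ?_
  rw [Matrix.smul_apply, Matrix.map_apply, Matrix.map_apply, Matrix.smul_apply, smul_eq_mul,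
    smul_eq_mul, map_mul]

theorem continuous_comb {ι κ : Type*} [Fintype ι] [Fintype κ] (M : ι → κ → Mat n Adele) :
    Continuous fun c : ι → κ → Adele => ∑ k, ∑ l, c k l • M k l := by
  refine continuous_finset_sum _ fun k _ => continuous_finset_sum _ fun l _ => ?_
  have h1 : Continuous fun c : ι → κ → Adele => c k l :=
    (continuous_apply l).comp (continuous_apply k)
  exact h1.smul (continuous_const (y := M k l))

theorem exists_compact_weight (h : Mat n ℚ) (i : ℤ) (m : ℕ) (hm : m ≠ 0) :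
    ∃ C : Set (Mat n Adele), IsCompact C ∧
      (∀ X ∈ C, h.map ratAdele * X - X * h.map ratAdele = (i : Adele) • X) ∧
      (∀ X ∈ C, ∀ a b (p : Nat.Primes), ‖(X a b).2 p‖ ≤ ‖(m : ℚ_[p.1])‖) ∧
      ∀ X : Mat n Adele, h.map ratAdele * X - X * h.map ratAdele = (i : Adele) • X →
        ∃ q : Mat n ℚ, h * q - q * h = (i : ℚ) • q ∧ X - q.map ratAdele ∈ C := by
  classical
  obtain ⟨P, hP1, hP2⟩ := exists_proj h i
  have hPA : ∀ k l, h.map ratAdele * (P k l).map ratAdele - (P k l).map ratAdele * h.map ratAdele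
      = (i : Adele) • (P k l).map ratAdele := by
    intro k l
    have h1 := congrArg (fun Z : Mat n ℚ => ratAdele.mapMatrix Z) (hP1 k l)
    simp only [map_sub, map_mul, RingHom.mapMatrix_apply] at h1
    rw [h1]
    have h2 := map_smul_rat (i : ℚ) (P k l)
    rw [map_intCast] at h2
    exact h2
  let d : ℕ := ∏ k, ∏ l, ∏ a, ∏ b, (P k l a b).den
  have hd0 : d ≠ 0 := by
    simp only [d, Finset.prod_ne_zero_iff]
    intro k _ l _ a _ b _
    exact (P k l a b).den_nz
  have hdd : ∀ k l a b, (P k l a b).den ∣ d := by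
    intro k l a b
    refine (Finset.dvd_prod_of_mem (fun b => (P k l a b).den) (Finset.mem_univ b)).trans ?_
    refine (Finset.dvd_prod_of_mem (fun a => ∏ b, (P k l a b).den) (Finset.mem_univ a)).trans ?_
    refine (Finset.dvd_prod_of_mem (fun l => ∏ a, ∏ b, (P k l a b).den) (Finset.mem_univ l)).trans ?_
    exact (Finset.dvd_prod_of_mem (fun k => ∏ l, ∏ a, ∏ b, (P k l a b).den) (Finset.mem_univ k))
  let r : ℚ := (m : ℚ) * d
  have hr0 : r ≠ 0 := mul_ne_zero (by exact_mod_cast hm) (by exact_mod_cast hd0)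
  have hrP : ∀ k l a b, ∃ z : ℤ, r * P k l a b = m * z := by
    intro k l a b
    obtain ⟨e, he⟩ := hdd k l a b
    refine ⟨e * (P k l a b).num, ?_⟩
    have h1 : (P k l a b) = (P k l a b).num / (P k l a b).den := (Rat.num_div_den _).symm
    have h2 : ((P k l a b).den : ℚ) ≠ 0 := by exact_mod_cast (P k l a b).den_nz
    simp only [r]
    rw [he]
    have h3 : P k l a b * ((P k l a b).den : ℚ) = (P k l a b).num := by
      exact_mod_cast Rat.mul_den_eq_num (P k l a b)
    push_cast
    rw [← h3]; ring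
  let S : Set (((Fin n ⊕ Fin n)) → (Fin n ⊕ Fin n) → Adele) :=
    Set.univ.pi fun _ => Set.univ.pi fun _ => Set.Icc (0 : ℝ) 1 ×ˢ OF
  have hS : IsCompact S :=
    isCompact_univ_pi fun _ => isCompact_univ_pi fun _ => isCompact_Icc.prod isCompact_OF
  let F : (((Fin n ⊕ Fin n)) → (Fin n ⊕ Fin n) → Adele) → Mat n Adele :=
    fun c => ∑ k, ∑ l, c k l • (r • P k l).map ratAdele
  have hF : Continuous F := continuous_comb _
  have hrmap : ∀ k l, (r • P k l).map ratAdele = ratAdele r • (P k l).map ratAdele :=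
    fun k l => map_smul_rat r (P k l)
  refine ⟨F '' S, hS.image hF, ?_, ?_, ?_⟩
  · rintro _ ⟨c, _, rfl⟩
    simp only [F]
    rw [Finset.mul_sum, Finset.sum_mul, ← Finset.sum_sub_distrib, Finset.smul_sum]
    refine Finset.sum_congr rfl fun k _ => ?_
    rw [Finset.mul_sum, Finset.sum_mul, ← Finset.sum_sub_distrib, Finset.smul_sum]
    refine Finset.sum_congr rfl fun l _ => ?_
    rw [hrmap, Matrix.mul_smul, Matrix.mul_smul, Matrix.smul_mul, Matrix.smul_mul, ← smul_sub,
      ← smul_sub, hPA k l, smul_comm (ratAdele r) (i : Adele), smul_comm (c k l) (i : Adele)]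
  · rintro _ ⟨c, hc, rfl⟩ a b p
    have h0 : ((F c) a b).2 p = ∑ k, ∑ l, (c k l).2 p * ((r * P k l a b : ℚ) : ℚ_[p.1]) := by
      simp only [F, Matrix.sum_apply, Matrix.smul_apply, Matrix.map_apply, smul_eq_mul]
      rw [Prod.snd_sum]
      have h1 : ∀ f : (Fin n ⊕ Fin n) → Afin, (∑ k, f k) p = ∑ k, (f k) p := by
        intro f
        exact map_sum (RestrictedProduct.evalRingHom (fun p : Nat.Primes => ℚ_[p.1]) p) f _
      rw [h1]
      refine Finset.sum_congr rfl fun k _ => ?_
      rw [Prod.snd_sum, h1]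
      refine Finset.sum_congr rfl fun l _ => ?_
      rw [Prod.snd_mul]
      rfl
    rw [h0]
    refine IsUltrametricDist.norm_sum_le_of_forall_le_of_nonneg (norm_nonneg _) fun k _ => ?_
    refine IsUltrametricDist.norm_sum_le_of_forall_le_of_nonneg (norm_nonneg _) fun l _ => ?_
    obtain ⟨z, hz⟩ := hrP k l a b
    rw [hz]
    push_cast
    rw [norm_mul, norm_mul]
    have h1 : ‖(c k l).2 p‖ ≤ 1 := (hc k trivial l trivial).2 p
    have h2 : ‖(z : ℚ_[p.1])‖ ≤ 1 := Padic.norm_int_le_one z
    calc ‖(c k l).2 p‖ * (‖(m : ℚ_[p.1])‖ * ‖(z : ℚ_[p.1])‖)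
        ≤ 1 * (‖(m : ℚ_[p.1])‖ * 1) := by gcongr
      _ = ‖(m : ℚ_[p.1])‖ := by ring
  · intro X hX
    choose q hq using fun k l => exists_rat_sub_mem (ratAdele r⁻¹ * X k l)
    refine ⟨∑ k, ∑ l, q k l • (r • P k l), ?_, ?_⟩
    · rw [Finset.mul_sum, Finset.sum_mul, ← Finset.sum_sub_distrib, Finset.smul_sum]
      refine Finset.sum_congr rfl fun k _ => ?_
      rw [Finset.mul_sum, Finset.sum_mul, ← Finset.sum_sub_distrib, Finset.smul_sum]
      refine Finset.sum_congr rfl fun l _ => ?_
      rw [Matrix.mul_smul, Matrix.mul_smul, Matrix.smul_mul, Matrix.smul_mul, ← smul_sub,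
        ← smul_sub, hP1 k l, smul_comm r (i : ℚ), smul_comm (q k l) (i : ℚ)]
    · refine ⟨fun k l => ratAdele r⁻¹ * X k l - ratAdele (q k l), ?_, ?_⟩
      · intro k _ l _
        exact ⟨Set.Ico_subset_Icc_self (hq k l).1, (hq k l).2⟩
      · simp only [F]
        have h1 : (∑ k, ∑ l, q k l • (r • P k l)).map ratAdele
          = ∑ k, ∑ l, ratAdele (q k l) • (r • P k l).map ratAdele := by
          have : ∀ Z : Mat n ℚ, Z.map ratAdele = ratAdele.mapMatrix Z := fun Z => rfl
          rw [this, map_sum]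
          refine Finset.sum_congr rfl fun k _ => ?_
          rw [map_sum]
          refine Finset.sum_congr rfl fun l _ => ?_
          exact map_smul_rat (q k l) (r • P k l)
        rw [h1]
        conv_rhs => rw [hP2 X hX]
        rw [← Finset.sum_sub_distrib]
        refine Finset.sum_congr rfl fun k _ => ?_
        rw [← Finset.sum_sub_distrib]
        refine Finset.sum_congr rfl fun l _ => ?_
        rw [sub_smul, hrmap, smul_smul]
        congr 2
        have : ratAdele r⁻¹ * ratAdele r = 1 := by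
          rw [← map_mul, inv_mul_cancel₀ hr0, map_one]
        rw [mul_comm (ratAdele r⁻¹) (X k l), mul_assoc, this, mul_one]

end Pool.Agent.FC.VComp
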